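import Pool.Agent.Lib.MP_b9430d_co.Frac.Defs

/-!
# IntS: Gaussian sums over the integers and over the lattice

`int_sum`: `n = ⌊x⌋`. For `m = n + 1 + k`, `k ≥ 0`: `m - x ≥ k`, and for `m = n - k`: `x - m ≥ k`. So the sum is at most
`2 ∑_{k ≥ 0} exp(-c k²) = 2 + 2 ∑_{k ≥ 1} exp(-c k²)` and `∑_{k≥1} exp(-c k²) ≤ ∫_0^∞ exp(-c t²) dt = √(π/c)/2 ≤ 1/√c`
(`AntitoneOn.sum_le_integral` for finite sums, `integral_gaussian_Ioi`). All sums are over finite sets, so no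
summability is needed.
`lat_sum`: `‖lat p‖² = p.1² + p.2²`; a finite set of pairs is contained in a product of two finite sets; the product
of two one-dimensional sums with `x = 0`.
-/

set_option autoImplicit false

open MeasureTheory Complex Set Real Filter Topology
open scoped ENNReal

namespace Pool.MPb9430d.Frac

open Pool.MPb9430d Pool.MPb9430d.Rough

private theorem ints_range {c : ℝ} (hc : 0 < c) (K : ℕ) :
    ∑ k ∈ Finset.range K, Real.exp (-(c * (k : ℝ) ^ 2)) ≤ 1 + 1 / √c := by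
  have hsc : 0 < √c := Real.sqrt_pos.mpr hc
  rcases K with _ | K
  · simp only [Finset.range_zero, Finset.sum_empty]
    positivity
  rw [Finset.sum_range_succ']
  have h0 : Real.exp (-(c * (((0 : ℕ) : ℝ)) ^ 2)) = 1 := by
    simp
  rw [h0, add_comm]
  have hanti : AntitoneOn (fun t : ℝ => Real.exp (-c * t ^ 2)) (Set.Icc (0 : ℝ) (0 + (K : ℝ))) := by
    intro a ha b hb hab
    have ha0 : 0 ≤ a := ha.1
    have hsq : a ^ 2 ≤ b ^ 2 := by
      exact pow_le_pow_left₀ ha0 hab 2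
    refine Real.exp_le_exp.mpr ?_
    nlinarith
  have h1 := hanti.sum_le_integral
  have h2 : ∫ t in (0 : ℝ)..(0 + (K : ℝ)), Real.exp (-c * t ^ 2) ≤
      ∫ t in Set.Ioi (0 : ℝ), Real.exp (-c * t ^ 2) := by
    rw [intervalIntegral.integral_of_le (by positivity)]
    refine setIntegral_mono_set ((integrable_exp_neg_mul_sq hc).integrableOn) ?_ ?_
    · exact Filter.Eventually.of_forall (fun t => (Real.exp_pos _).le)
    · exact Set.Ioc_subset_Ioi_self.eventuallyLE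
  rw [integral_gaussian_Ioi] at h2
  have h3 : √(π / c) / 2 ≤ 1 / √c := by
    rw [Real.sqrt_div Real.pi_pos.le, div_div, div_le_div_iff₀ (by positivity) hsc]
    have hpi : √π ≤ 2 := by
      rw [show (2 : ℝ) = √4 by
        rw [show (4 : ℝ) = 2 ^ 2 by norm_num, Real.sqrt_sq (by norm_num)]]
      exact Real.sqrt_le_sqrt Real.pi_le_four
    nlinarith
  have h4 : ∑ k ∈ Finset.range K, Real.exp (-(c * (((k + 1 : ℕ)) : ℝ) ^ 2)) =
      ∑ i ∈ Finset.range K, Real.exp (-c * (0 + ((i + 1 : ℕ) : ℝ)) ^ 2) := by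
    refine Finset.sum_congr rfl (fun i _ => ?_)
    congr 1
    ring
  linarith

theorem int_sum {c : ℝ} (hc : 0 < c) (x : ℝ) (S : Finset ℤ) :
    ∑ m ∈ S, Real.exp (-(c * (m - x) ^ 2)) ≤ 2 + 2 / √c := by
  classical
  have key : ∀ (A : Finset ℤ) (φ : ℤ → ℕ), Set.InjOn φ (A : Set ℤ) →
      (∀ m ∈ A, ((φ m : ℕ) : ℝ) ≤ |(m : ℝ) - x|) →
      ∑ m ∈ A, Real.exp (-(c * ((m : ℝ) - x) ^ 2)) ≤ 1 + 1 / √c := by
    intro A φ hinj hle
    have hb : ∑ m ∈ A, Real.exp (-(c * ((m : ℝ) - x) ^ 2)) ≤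
        ∑ m ∈ A, Real.exp (-(c * ((φ m : ℕ) : ℝ) ^ 2)) := by
      refine Finset.sum_le_sum (fun m hm => Real.exp_le_exp.mpr ?_)
      have h1 : ((φ m : ℕ) : ℝ) ^ 2 ≤ ((m : ℝ) - x) ^ 2 := by
        rw [← sq_abs ((m : ℝ) - x)]
        exact pow_le_pow_left₀ (Nat.cast_nonneg _) (hle m hm) 2
      nlinarith
    have hc2 : ∑ m ∈ A, Real.exp (-(c * ((φ m : ℕ) : ℝ) ^ 2)) =
        ∑ k ∈ A.image φ, Real.exp (-(c * (k : ℝ) ^ 2)) := by
      rw [Finset.sum_image hinj]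
    have hsub : A.image φ ⊆ Finset.range ((A.image φ).sup id + 1) := by
      intro k hk
      have : k ≤ (A.image φ).sup id := Finset.le_sup (f := id) hk
      exact Finset.mem_range.mpr (by omega)
    have hd : ∑ k ∈ A.image φ, Real.exp (-(c * (k : ℝ) ^ 2)) ≤
        ∑ k ∈ Finset.range ((A.image φ).sup id + 1), Real.exp (-(c * (k : ℝ) ^ 2)) :=
      Finset.sum_le_sum_of_subset_of_nonneg hsub (fun _ _ _ => (Real.exp_pos _).le)
    have he := ints_range hc ((A.image φ).sup id + 1)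
    linarith
  have hfl := Int.floor_le x
  have hlt := Int.lt_floor_add_one x
  have h1 := key (S.filter (fun m => ⌊x⌋ < m)) (fun m => (m - ⌊x⌋ - 1).toNat) (by
      intro a ha b hb hab
      have ha' := (Finset.mem_filter.mp ha).2
      have hb' := (Finset.mem_filter.mp hb).2
      simp only at hab
      omega) (by
      intro m hm
      have hm' := (Finset.mem_filter.mp hm).2
      have h2 : (((m - ⌊x⌋ - 1).toNat : ℤ)) = m - ⌊x⌋ - 1 := by omega
      have h3 : (((m - ⌊x⌋ - 1).toNat : ℕ) : ℝ) = (m : ℝ) - (⌊x⌋ : ℝ) - 1 := by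
        exact_mod_cast congrArg (fun t : ℤ => (t : ℝ)) h2
      rw [h3]
      refine le_trans ?_ (le_abs_self _)
      linarith)
  have h2 := key (S.filter (fun m => ¬ ⌊x⌋ < m)) (fun m => (⌊x⌋ - m).toNat) (by
      intro a ha b hb hab
      have ha' := (Finset.mem_filter.mp ha).2
      have hb' := (Finset.mem_filter.mp hb).2
      simp only at hab
      omega) (by
      intro m hm
      have hm' := (Finset.mem_filter.mp hm).2
      have h2 : (((⌊x⌋ - m).toNat : ℤ)) = ⌊x⌋ - m := by omega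
      have h3 : (((⌊x⌋ - m).toNat : ℕ) : ℝ) = (⌊x⌋ : ℝ) - (m : ℝ) := by
        exact_mod_cast congrArg (fun t : ℤ => (t : ℝ)) h2
      rw [h3]
      have h4 := neg_abs_le ((m : ℝ) - x)
      linarith)
  rw [← Finset.sum_filter_add_sum_filter_not S (fun m => ⌊x⌋ < m)]
  have : (2 : ℝ) + 2 / √c = (1 + 1 / √c) + (1 + 1 / √c) := by ring
  rw [this]
  exact add_le_add h1 h2

theorem norm_lat_sq (p : ℤ × ℤ) : ‖lat p‖ ^ 2 = (p.1 : ℝ) ^ 2 + (p.2 : ℝ) ^ 2 := by
  rw [← Complex.normSq_eq_norm_sq, Complex.normSq_apply]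
  simp [lat]
  ring

theorem lat_sum {c : ℝ} (hc : 0 < c) (S : Finset (ℤ × ℤ)) :
    ∑ p ∈ S, Real.exp (-(c * ‖lat p‖ ^ 2)) ≤ (2 + 2 / √c) ^ 2 := by
  classical
  have hsub : S ⊆ (S.image Prod.fst) ×ˢ (S.image Prod.snd) := by
    intro p hp
    rw [Finset.mem_product]
    exact ⟨Finset.mem_image_of_mem _ hp, Finset.mem_image_of_mem _ hp⟩
  have h1 : ∑ p ∈ S, Real.exp (-(c * ‖lat p‖ ^ 2)) ≤
      ∑ p ∈ (S.image Prod.fst) ×ˢ (S.image Prod.snd), Real.exp (-(c * ‖lat p‖ ^ 2)) :=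
    Finset.sum_le_sum_of_subset_of_nonneg hsub (fun _ _ _ => (Real.exp_pos _).le)
  have h2 : ∑ p ∈ (S.image Prod.fst) ×ˢ (S.image Prod.snd), Real.exp (-(c * ‖lat p‖ ^ 2)) =
      (∑ a ∈ S.image Prod.fst, Real.exp (-(c * ((a : ℝ) - 0) ^ 2))) *
        (∑ b ∈ S.image Prod.snd, Real.exp (-(c * ((b : ℝ) - 0) ^ 2))) := by
    rw [Finset.sum_mul_sum, Finset.sum_product]
    refine Finset.sum_congr rfl (fun a _ => Finset.sum_congr rfl (fun b _ => ?_))
    rw [← Real.exp_add, norm_lat_sq]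
    congr 1
    ring
  have h3 := int_sum hc 0 (S.image Prod.fst)
  have h4 := int_sum hc 0 (S.image Prod.snd)
  have h5 : 0 ≤ ∑ b ∈ S.image Prod.snd, Real.exp (-(c * ((b : ℝ) - 0) ^ 2)) :=
    Finset.sum_nonneg (fun _ _ => (Real.exp_pos _).le)
  have hsc : 0 < √c := Real.sqrt_pos.mpr hc
  calc _ ≤ _ := h1
    _ = _ := h2
    _ ≤ (2 + 2 / √c) * (2 + 2 / √c) := mul_le_mul h3 h4 h5 (by positivity)
    _ = (2 + 2 / √c) ^ 2 := by ring

end Pool.MPb9430d.Frac
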