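import Pool.Agent.Lib.MP_b9430d_co.Frac.RepB
import Pool.Agent.Lib.MP_b9430d_co.Frac.IntS

/-!
# Ann: Gaussian sum over the lattice points near a circle of radius `R ≤ N⁴`

Let `C₁` be the constant of `rep_bound` for `ε/8`. Group the points of `S` by `m = ‖lat p‖² = p.1² + p.2²`
(`norm_lat_sq`; `m ≥ 1` because `‖lat p‖ ≥ R/2 > 0`; `m ≤ 4R² ≤ 4 N^8`): at most `C₁ (4N^8)^{ε/8}` points
for each `m`. For such `p`: `|R - ‖lat p‖| = |R² - m|/(R + ‖lat p‖) ≥ |m - R²|/(3R)`, so the term is at most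
`exp(-(π N²/(9R²)) (m - R²)²)`, and `int_sum` with `c = π N²/(9R²)`, `x = R²` bounds the sum over `m` by
`2 + 2·3R/(√π N) ≤ 4 (1 + R/N)`.
-/

set_option autoImplicit false

open MeasureTheory Complex Set Real Filter Topology
open scoped ENNReal

namespace Pool.MPb9430d.Frac

open Pool.MPb9430d Pool.MPb9430d.Rough

private theorem ann_term {N R : ℝ} (hR : 0 < R) (p : ℤ × ℤ) (h2 : ‖lat p‖ ≤ 2 * R) :
    Real.exp (-(π * N ^ 2 * (R - ‖lat p‖) ^ 2)) ≤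
      Real.exp (-((π * N ^ 2 / (9 * R ^ 2)) * (((p.1 ^ 2 + p.2 ^ 2 : ℤ) : ℝ) - R ^ 2) ^ 2)) := by
  apply Real.exp_le_exp.2
  apply neg_le_neg
  have hm : ((p.1 ^ 2 + p.2 ^ 2 : ℤ) : ℝ) = ‖lat p‖ ^ 2 := by
    rw [norm_lat_sq]; push_cast; ring
  rw [hm]
  have hn : 0 ≤ ‖lat p‖ := norm_nonneg _
  set t := ‖lat p‖
  have e1 : (t ^ 2 - R ^ 2) ^ 2 ≤ (9 * R ^ 2) * (R - t) ^ 2 := by
    have : (t ^ 2 - R ^ 2) ^ 2 = (R + t) ^ 2 * (R - t) ^ 2 := by ring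
    rw [this]
    apply mul_le_mul_of_nonneg_right _ (sq_nonneg _)
    nlinarith
  have hR2 : 0 < 9 * R ^ 2 := by positivity
  calc π * N ^ 2 / (9 * R ^ 2) * (t ^ 2 - R ^ 2) ^ 2
      ≤ π * N ^ 2 / (9 * R ^ 2) * ((9 * R ^ 2) * (R - t) ^ 2) :=
        mul_le_mul_of_nonneg_left e1 (by positivity)
    _ = π * N ^ 2 * (R - t) ^ 2 := by
        field_simp

theorem ann_bound {ε : ℝ} (hε : 0 < ε) : ∃ C : ℝ, 0 < C ∧ ∀ N R : ℝ, 1 ≤ N → 1 / 2 ≤ R → R ≤ N ^ 4 →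
    ∀ S : Finset (ℤ × ℤ), (∀ p ∈ S, R / 2 ≤ ‖lat p‖ ∧ ‖lat p‖ ≤ 2 * R) →
      ∑ p ∈ S, Real.exp (-(π * N ^ 2 * (R - ‖lat p‖) ^ 2)) ≤ C * N ^ ε * (1 + R / N) := by
  obtain ⟨C₁, hC₁, hrep⟩ := rep_bound (ε := ε / 8) (by positivity)
  have h4 : (0 : ℝ) < (4 : ℝ) ^ (ε / 8) := Real.rpow_pos_of_pos (by norm_num) _
  refine ⟨C₁ * (4 : ℝ) ^ (ε / 8) * 4, by positivity, ?_⟩
  intro N R hN hR hRN S hS
  have hR0 : 0 < R := by linarith
  have hN0 : 0 < N := by linarith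
  set c : ℝ := π * N ^ 2 / (9 * R ^ 2) with hc
  have hc0 : 0 < c := by positivity
  set K : ℝ := C₁ * (4 : ℝ) ^ (ε / 8) * N ^ ε with hK
  have hK0 : 0 ≤ K := by positivity
  classical
  set g : ℤ × ℤ → ℤ := fun p => p.1 ^ 2 + p.2 ^ 2 with hg
  have step1 : ∑ p ∈ S, Real.exp (-(π * N ^ 2 * (R - ‖lat p‖) ^ 2)) ≤
      ∑ p ∈ S, Real.exp (-(c * (((g p : ℤ) : ℝ) - R ^ 2) ^ 2)) :=
    Finset.sum_le_sum fun p hp => ann_term hR0 p (hS p hp).2
  have step2 : ∑ p ∈ S, Real.exp (-(c * (((g p : ℤ) : ℝ) - R ^ 2) ^ 2)) =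
      ∑ m ∈ S.image g, ∑ p ∈ S with g p = m, Real.exp (-(c * (((g p : ℤ) : ℝ) - R ^ 2) ^ 2)) :=
    (Finset.sum_fiberwise_of_maps_to (fun p hp => Finset.mem_image_of_mem g hp) _).symm
  have step3 : ∀ m ∈ S.image g,
      ∑ p ∈ S with g p = m, Real.exp (-(c * (((g p : ℤ) : ℝ) - R ^ 2) ^ 2)) ≤
        K * Real.exp (-(c * ((m : ℝ) - R ^ 2) ^ 2)) := by
    intro m hm
    obtain ⟨p₀, hp₀, hpm⟩ := Finset.mem_image.1 hm
    have hsq : ((m : ℤ) : ℝ) = ‖lat p₀‖ ^ 2 := by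
      rw [← hpm, norm_lat_sq]; simp only [hg]; push_cast; ring
    obtain ⟨h1, h2⟩ := hS p₀ hp₀
    have hmpos : (0 : ℝ) < (m : ℝ) := by
      rw [hsq]
      have : 0 < ‖lat p₀‖ := by linarith
      positivity
    have hmpos' : 0 < m := by exact_mod_cast hmpos
    have hmle : (m : ℝ) ≤ 4 * N ^ 8 := by
      rw [hsq]
      have hn : 0 ≤ ‖lat p₀‖ := norm_nonneg _
      calc ‖lat p₀‖ ^ 2 ≤ (2 * N ^ 4) ^ 2 := by
            apply pow_le_pow_left₀ hn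
            linarith
        _ = 4 * N ^ 8 := by ring
    have hsum : ∑ p ∈ S with g p = m, Real.exp (-(c * (((g p : ℤ) : ℝ) - R ^ 2) ^ 2)) =
        ((S.filter fun p => g p = m).card : ℝ) * Real.exp (-(c * ((m : ℝ) - R ^ 2) ^ 2)) := by
      rw [← nsmul_eq_mul, ← Finset.sum_const]
      apply Finset.sum_congr rfl
      intro p hp
      rw [(Finset.mem_filter.1 hp).2]
    rw [hsum]
    apply mul_le_mul_of_nonneg_right _ (Real.exp_pos _).le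
    have hnat : ((m.toNat : ℕ) : ℤ) = m := Int.toNat_of_nonneg hmpos'.le
    have hcard := hrep m.toNat (by omega) (S.filter fun p => g p = m) (by
      intro p hp
      rw [hnat]
      exact (Finset.mem_filter.1 hp).2)
    have hnatR : ((m.toNat : ℕ) : ℝ) = (m : ℝ) := by
      have h0 : (((m.toNat : ℕ) : ℤ) : ℝ) = ((m : ℤ) : ℝ) := by rw [hnat]
      rw [← h0, Int.cast_natCast]
    rw [hnatR] at hcard
    refine hcard.trans ?_
    rw [hK, mul_assoc]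
    apply mul_le_mul_of_nonneg_left _ (by linarith)
    calc (m : ℝ) ^ (ε / 8) ≤ (4 * N ^ 8) ^ (ε / 8) :=
          Real.rpow_le_rpow hmpos.le hmle (by positivity)
      _ = (4 : ℝ) ^ (ε / 8) * N ^ ε := by
          rw [Real.mul_rpow (by norm_num) (by positivity)]
          congr 1
          rw [← Real.rpow_natCast N 8, ← Real.rpow_mul hN0.le]
          congr 1
          push_cast
          ring
  have step4 : ∑ m ∈ S.image g, K * Real.exp (-(c * ((m : ℝ) - R ^ 2) ^ 2)) ≤ K * (2 + 2 / √c) := by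
    rw [← Finset.mul_sum]
    exact mul_le_mul_of_nonneg_left (int_sum hc0 (R ^ 2) _) hK0
  have step5 : 2 + 2 / √c ≤ 4 * (1 + R / N) := by
    have hs : √c = √π * N / (3 * R) := by
      rw [hc, show π * N ^ 2 / (9 * R ^ 2) = π * (N / (3 * R)) ^ 2 by field_simp; ring,
        Real.sqrt_mul Real.pi_pos.le, Real.sqrt_sq (by positivity)]
      ring
    have hpi : 3 / 2 ≤ √π := by
      apply Real.le_sqrt_of_sq_le
      nlinarith [Real.pi_gt_three]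
    rw [hs]
    have hx : 2 / (√π * N / (3 * R)) ≤ 4 * (R / N) := by
      rw [div_le_iff₀ (by positivity)]
      have : 4 * (R / N) * (√π * N / (3 * R)) = 4 / 3 * √π := by
        field_simp
      rw [this]
      linarith
    linarith
  calc ∑ p ∈ S, Real.exp (-(π * N ^ 2 * (R - ‖lat p‖) ^ 2))
      ≤ ∑ p ∈ S, Real.exp (-(c * (((g p : ℤ) : ℝ) - R ^ 2) ^ 2)) := step1
    _ = ∑ m ∈ S.image g, ∑ p ∈ S with g p = m, Real.exp (-(c * (((g p : ℤ) : ℝ) - R ^ 2) ^ 2)) := step2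
    _ ≤ ∑ m ∈ S.image g, K * Real.exp (-(c * ((m : ℝ) - R ^ 2) ^ 2)) := Finset.sum_le_sum step3
    _ ≤ K * (2 + 2 / √c) := step4
    _ ≤ K * (4 * (1 + R / N)) := mul_le_mul_of_nonneg_left step5 hK0
    _ = C₁ * (4 : ℝ) ^ (ε / 8) * 4 * N ^ ε * (1 + R / N) := by rw [hK]; ring

end Pool.MPb9430d.Frac
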