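import Pool.Agent.Lib.MP_b9430d_co.Frac.Defs

/-!
# BesA: easy facts on the Bessel function `bes t = (1/2π) ∫_{-π}^{π} cos(2π t cos φ) dφ`

`bes_zero`: the integrand is `1`. `abs_bes_le_one`: `intervalIntegral.norm_integral_le_of_norm_le_const`.
Continuity: `intervalIntegral.continuous_parametric_intervalIntegral_of_continuous'` (or the Lipschitz bound
`|cos a - cos b| ≤ |a - b|`).
`mean_ee`: with `x = ‖x‖ e^{iα}`, `y = ‖y‖ e^{iβ}` one has `ip (rot φ * x) y = ‖x‖ ‖y‖ cos(φ + α - β)`. The
integrand is a `2π`-periodic function of `φ`, so the shift by `α - β` does not matter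
(`Function.Periodic.intervalIntegral_add_eq`), and the imaginary part `sin(2π t cos φ)` has integral `0`
because `cos(φ + π) = - cos φ` (shift by `π`: `φ ↦ φ + π` maps the integral to minus itself).
-/

set_option autoImplicit false

open MeasureTheory Complex Set Real Filter Topology
open scoped ENNReal

namespace Pool.MPb9430d.Frac

open Pool.MPb9430d Pool.MPb9430d.Rough

theorem bes_zero : bes 0 = 1 := by
  unfold bes
  have h : (fun φ : ℝ => Real.cos (2 * π * 0 * Real.cos φ)) = fun _ => (1 : ℝ) := by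
    funext φ
    rw [mul_zero, zero_mul, Real.cos_zero]
  rw [h, intervalIntegral.integral_const, smul_eq_mul, mul_one]
  have hπ := Real.pi_pos
  field_simp
  ring

theorem continuous_bes : Continuous bes := by
  unfold bes
  refine continuous_const.mul ?_
  refine intervalIntegral.continuous_parametric_intervalIntegral_of_continuous' ?_ _ _
  fun_prop

theorem abs_bes_le_one (t : ℝ) : |bes t| ≤ 1 := by
  unfold bes
  have hπ := Real.pi_pos
  have h1 : |∫ φ in (-π)..π, Real.cos (2 * π * t * Real.cos φ)| ≤ 1 * |π - (-π)| := by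
    have h2 := intervalIntegral.norm_integral_le_of_norm_le_const (a := -π) (b := π) (C := 1)
      (f := fun φ => Real.cos (2 * π * t * Real.cos φ)) (fun φ _ => Real.abs_cos_le_one _)
    exact h2
  rw [abs_mul, abs_of_pos (by positivity : (0 : ℝ) < (2 * π)⁻¹)]
  rw [one_mul, abs_of_pos (by linarith : (0 : ℝ) < π - (-π))] at h1
  calc (2 * π)⁻¹ * |∫ φ in (-π)..π, Real.cos (2 * π * t * Real.cos φ)| ≤ (2 * π)⁻¹ * (π - (-π)) :=
        mul_le_mul_of_nonneg_left h1 (by positivity)
    _ = 1 := by
        field_simp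
        ring

private theorem BesA_ip (x y : ℂ) (φ : ℝ) :
    ip (rot φ * x) y = ‖x‖ * ‖y‖ * Real.cos (φ + (arg x - arg y)) := by
  have hx1 : x.re = ‖x‖ * Real.cos (arg x) := (Complex.norm_mul_cos_arg x).symm
  have hx2 : x.im = ‖x‖ * Real.sin (arg x) := (Complex.norm_mul_sin_arg x).symm
  have hy1 : y.re = ‖y‖ * Real.cos (arg y) := (Complex.norm_mul_cos_arg y).symm
  have hy2 : y.im = ‖y‖ * Real.sin (arg y) := (Complex.norm_mul_sin_arg y).symm
  have hr1 : (rot φ).re = Real.cos φ := by
    unfold rot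
    exact Complex.exp_ofReal_mul_I_re φ
  have hr2 : (rot φ).im = Real.sin φ := by
    unfold rot
    exact Complex.exp_ofReal_mul_I_im φ
  unfold ip
  rw [Complex.mul_re, Complex.mul_im, hr1, hr2, Real.cos_add, Real.cos_sub, Real.sin_sub, hx1, hx2,
    hy1, hy2]
  ring

private theorem BesA_ee (t : ℝ) : ee t = ((Real.cos (2 * π * t) : ℝ) : ℂ) +
    ((Real.sin (2 * π * t) : ℝ) : ℂ) * I := by
  unfold ee
  rw [Complex.exp_mul_I, Complex.ofReal_cos, Complex.ofReal_sin]

private theorem BesA_sin (r : ℝ) : (∫ φ in (-π)..π, Real.sin (2 * π * (r * Real.cos φ))) = 0 := by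
  have hper : Function.Periodic (fun φ : ℝ => Real.sin (2 * π * (r * Real.cos φ))) (2 * π) := by
    intro φ
    show Real.sin (2 * π * (r * Real.cos (φ + 2 * π))) = _
    rw [Real.cos_add_two_pi]
  have h1 : (∫ φ in (-π)..π, Real.sin (2 * π * (r * Real.cos (φ + π)))) =
      ∫ φ in (-π)..π, Real.sin (2 * π * (r * Real.cos φ)) := by
    rw [intervalIntegral.integral_comp_add_right (fun φ => Real.sin (2 * π * (r * Real.cos φ))) π]
    have h2 := hper.intervalIntegral_add_eq (-π + π) (-π)
    rw [show -π + π + 2 * π = π + π by ring, show -π + 2 * π = π by ring] at h2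
    exact h2
  have h3 : (∫ φ in (-π)..π, Real.sin (2 * π * (r * Real.cos (φ + π)))) =
      -∫ φ in (-π)..π, Real.sin (2 * π * (r * Real.cos φ)) := by
    rw [← intervalIntegral.integral_neg]
    congr 1
    funext φ
    rw [Real.cos_add_pi, ← Real.sin_neg]
    congr 1
    ring
  linarith

theorem mean_ee (x y : ℂ) : (∫ φ in (-π)..π, ee (ip (rot φ * x) y)) =
    ((2 * π * bes (‖x‖ * ‖y‖) : ℝ) : ℂ) := by
  set r := ‖x‖ * ‖y‖ with hr
  have hper : Function.Periodic (fun φ : ℝ => ee (r * Real.cos φ)) (2 * π) := by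
    intro φ
    show ee (r * Real.cos (φ + 2 * π)) = _
    rw [Real.cos_add_two_pi]
  have h1 : (∫ φ in (-π)..π, ee (ip (rot φ * x) y)) = ∫ φ in (-π)..π, ee (r * Real.cos φ) := by
    have h0 : (fun φ : ℝ => ee (ip (rot φ * x) y)) =
        fun φ => ee (r * Real.cos (φ + (arg x - arg y))) := by
      funext φ
      rw [BesA_ip]
    rw [h0, intervalIntegral.integral_comp_add_right (fun φ => ee (r * Real.cos φ)) (arg x - arg y)]
    have h2 := hper.intervalIntegral_add_eq (-π + (arg x - arg y)) (-π)
    rw [show -π + (arg x - arg y) + 2 * π = π + (arg x - arg y) by ring,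
      show -π + 2 * π = π by ring] at h2
    exact h2
  rw [h1]
  have h3 : (fun φ : ℝ => ee (r * Real.cos φ)) = fun φ =>
      ((Real.cos (2 * π * (r * Real.cos φ)) : ℝ) : ℂ) +
        ((Real.sin (2 * π * (r * Real.cos φ)) : ℝ) : ℂ) * I := by
    funext φ
    exact BesA_ee _
  rw [h3, intervalIntegral.integral_add]
  · rw [intervalIntegral.integral_mul_const, intervalIntegral.integral_ofReal,
      intervalIntegral.integral_ofReal, BesA_sin, Complex.ofReal_zero, zero_mul, add_zero]
    congr 1
    unfold bes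
    have hπ := Real.pi_pos
    rw [← mul_assoc, mul_inv_cancel₀ (by positivity), one_mul]
    congr 1
    funext φ
    congr 1
    ring
  · exact (by fun_prop : Continuous fun φ : ℝ =>
      ((Real.cos (2 * π * (r * Real.cos φ)) : ℝ) : ℂ)).intervalIntegrable _ _
  · exact (by fun_prop : Continuous fun φ : ℝ =>
      ((Real.sin (2 * π * (r * Real.cos φ)) : ℝ) : ℂ) * I).intervalIntegrable _ _

end Pool.MPb9430d.Frac
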