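import Pool.Agent.Lib.MP_b9430d_co.Frac.Defs

/-!
# BesB: decay of the Bessel function, `|bes t| ≤ 2 / √t`

By symmetry `∫_{-π}^{π} cos(λ cos φ) dφ = 4 ∫_0^{π/2} cos(λ cos φ) dφ`, `λ = 2 π t` (evenness in `φ`, and
`φ ↦ π - φ`). If `t ≤ 4` use `|bes t| ≤ 1`. For `t > 4` let `δ = (2t)^{-1/2} < π/2`. On `[0, δ]` the integral is at
most `δ`. On `[δ, π/2]` integrate by parts (`intervalIntegral.integral_mul_deriv_eq_deriv_mul` or verify the
derivative of `- sin(λ cos φ) / (λ sin φ)`):
`cos(λ cos φ) = d/dφ [ - sin(λ cos φ) / (λ sin φ) ] - sin(λ cos φ) cos φ / (λ sin² φ)`, and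
`cos φ / sin² φ = d/dφ (-1 / sin φ)`. Hence the absolute value of the integral over `[δ, π/2]` is at most
`1/(λ sin δ) + 1/λ ∫_δ^{π/2} cos φ / sin² φ dφ ≤ 2 / (λ sin δ) ≤ π / (λ δ) = 1 / (2 t δ) = δ`
(`sin δ ≥ 2 δ / π`: `Real.mul_le_sin`; at `φ = π/2` the boundary term vanishes). Total: `|bes t| ≤ (2/π) * 2 δ =
(4 / π) / √(2 t) ≤ 2 / √t`.
-/

set_option autoImplicit false

open MeasureTheory Complex Set Real Filter Topology
open scoped ENNReal

namespace Pool.MPb9430d.Frac

open Pool.MPb9430d Pool.MPb9430d.Rough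

private theorem BesB_cont (l : ℝ) : Continuous fun φ : ℝ => Real.cos (l * Real.cos φ) := by
  fun_prop

private theorem BesB_sym (l : ℝ) : ∫ φ in (-π)..π, Real.cos (l * Real.cos φ) =
    4 * ∫ φ in (0 : ℝ)..(π / 2), Real.cos (l * Real.cos φ) := by
  have hc := BesB_cont l
  have h1 : ∫ φ in (-π)..0, Real.cos (l * Real.cos φ) =
      ∫ φ in (0 : ℝ)..π, Real.cos (l * Real.cos φ) := by
    have h := intervalIntegral.integral_comp_neg (a := 0) (b := π)
      (fun φ : ℝ => Real.cos (l * Real.cos φ))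
    simp only [Real.cos_neg, neg_zero] at h
    exact h.symm
  have h2 : ∫ φ in (π / 2)..π, Real.cos (l * Real.cos φ) =
      ∫ φ in (0 : ℝ)..(π / 2), Real.cos (l * Real.cos φ) := by
    have h := intervalIntegral.integral_comp_sub_left (a := 0) (b := π / 2)
      (fun φ : ℝ => Real.cos (l * Real.cos φ)) π
    have e1 : π - π / 2 = π / 2 := by ring
    rw [sub_zero, e1] at h
    rw [← h]
    refine intervalIntegral.integral_congr fun φ _ => ?_
    simp only [Real.cos_pi_sub, mul_neg, Real.cos_neg]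
  have h3 := intervalIntegral.integral_add_adjacent_intervals (hc.intervalIntegrable (-π) 0)
    (hc.intervalIntegrable 0 π) (μ := volume)
  have h4 := intervalIntegral.integral_add_adjacent_intervals (hc.intervalIntegrable 0 (π / 2))
    (hc.intervalIntegrable (π / 2) π) (μ := volume)
  linarith

private theorem BesB_deriv {l : ℝ} (hl : 0 < l) {x : ℝ} (hx : 0 < Real.sin x) :
    HasDerivAt (fun φ : ℝ => -(Real.sin (l * Real.cos φ)) / (l * Real.sin φ))
      (Real.cos (l * Real.cos x) +
        Real.sin (l * Real.cos x) * Real.cos x / (l * Real.sin x ^ 2)) x := by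
  have h1 : HasDerivAt (fun φ : ℝ => -(Real.sin (l * Real.cos φ)))
      (-(Real.cos (l * Real.cos x) * (l * -Real.sin x))) x :=
    (((Real.hasDerivAt_cos x).const_mul l).sin).neg
  have h2 : HasDerivAt (fun φ : ℝ => l * Real.sin φ) (l * Real.cos x) x :=
    (Real.hasDerivAt_sin x).const_mul l
  have h3 := h1.div h2 (by positivity)
  refine h3.congr_deriv ?_
  field_simp
  ring

private theorem BesB_tail {l δ : ℝ} (hl : 0 < l) (hδ : 0 < δ) (hδ2 : δ < π / 2) :
    |∫ φ in δ..(π / 2), Real.cos (l * Real.cos φ)| ≤ 2 / (l * Real.sin δ) := by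
  have hsin : ∀ x ∈ Set.Icc δ (π / 2), 0 < Real.sin x := fun x hx =>
    Real.sin_pos_of_pos_of_lt_pi (by linarith [hx.1]) (by linarith [hx.2, Real.pi_pos])
  have hle : δ ≤ π / 2 := hδ2.le
  have hu : Set.uIcc δ (π / 2) = Set.Icc δ (π / 2) := Set.uIcc_of_le hle
  have hc2 : ContinuousOn (fun x : ℝ => Real.sin (l * Real.cos x) * Real.cos x /
      (l * Real.sin x ^ 2)) (Set.uIcc δ (π / 2)) := by
    rw [hu]
    refine ContinuousOn.div (by fun_prop) (by fun_prop) fun x hx => ?_
    have := hsin x hx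
    positivity
  have hc3 : ContinuousOn (fun x : ℝ => Real.cos x / (l * Real.sin x ^ 2))
      (Set.uIcc δ (π / 2)) := by
    rw [hu]
    refine ContinuousOn.div (by fun_prop) (by fun_prop) fun x hx => ?_
    have := hsin x hx
    positivity
  have hi1 := (BesB_cont l).intervalIntegrable (μ := volume) δ (π / 2)
  have hi2 := hc2.intervalIntegrable (μ := volume)
  have hi3 := hc3.intervalIntegrable (μ := volume)
  have h1 := intervalIntegral.integral_eq_sub_of_hasDerivAt (fun x hx =>
    BesB_deriv hl (hsin x (hu ▸ hx))) (hi1.add hi2)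
  rw [intervalIntegral.integral_add hi1 hi2] at h1
  have h2 : ∫ x in δ..(π / 2), Real.cos x / (l * Real.sin x ^ 2) =
      -1 / (l * Real.sin (π / 2)) - -1 / (l * Real.sin δ) := by
    refine intervalIntegral.integral_eq_sub_of_hasDerivAt
      (f := fun x : ℝ => -1 / (l * Real.sin x)) (fun x hx => ?_) hi3
    have hs := hsin x (hu ▸ hx)
    have h3 := (hasDerivAt_const x (-1 : ℝ)).div ((Real.hasDerivAt_sin x).const_mul l)
      (by positivity)
    refine h3.congr_deriv ?_
    field_simp
    ring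
  have h3 : |∫ x in δ..(π / 2), Real.sin (l * Real.cos x) * Real.cos x /
      (l * Real.sin x ^ 2)| ≤ ∫ x in δ..(π / 2), Real.cos x / (l * Real.sin x ^ 2) := by
    refine (intervalIntegral.abs_integral_le_integral_abs hle).trans ?_
    refine intervalIntegral.integral_mono_on hle hi2.abs hi3 fun x hx => ?_
    have hs := hsin x hx
    have hcx : 0 ≤ Real.cos x := Real.cos_nonneg_of_neg_pi_div_two_le_of_le
      (by linarith [hx.1, Real.pi_pos]) hx.2
    rw [abs_div, abs_mul, abs_of_nonneg hcx, abs_of_pos (by positivity : 0 < l * Real.sin x ^ 2)]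
    refine div_le_div_of_nonneg_right ?_ (by positivity)
    calc |Real.sin (l * Real.cos x)| * Real.cos x ≤ 1 * Real.cos x :=
          mul_le_mul_of_nonneg_right (Real.abs_sin_le_one _) hcx
      _ = Real.cos x := one_mul _
  have hsδ : 0 < Real.sin δ := hsin δ ⟨le_rfl, hle⟩
  have h4 : |Real.sin (l * Real.cos δ) / (l * Real.sin δ)| ≤ 1 / (l * Real.sin δ) := by
    rw [abs_div, abs_of_pos (by positivity : 0 < l * Real.sin δ)]
    exact div_le_div_of_nonneg_right (Real.abs_sin_le_one _) (by positivity)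
  rw [Real.sin_pi_div_two, mul_one] at h2
  have h5 : (0 : ℝ) < 1 / l := by positivity
  have h6 : -1 / l - -1 / (l * Real.sin δ) = 1 / (l * Real.sin δ) - 1 / l := by ring
  rw [h6] at h2
  simp only [Real.cos_pi_div_two, mul_zero, Real.sin_zero, neg_zero, zero_div] at h1
  have h7 : ∫ x in δ..(π / 2), Real.cos (l * Real.cos x) =
      Real.sin (l * Real.cos δ) / (l * Real.sin δ) -
        ∫ x in δ..(π / 2), Real.sin (l * Real.cos x) * Real.cos x / (l * Real.sin x ^ 2) := by
    have h8 : -(Real.sin (l * Real.cos δ)) / (l * Real.sin δ) =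
        -(Real.sin (l * Real.cos δ) / (l * Real.sin δ)) := by ring
    rw [h8] at h1
    linarith
  rw [h7]
  calc |Real.sin (l * Real.cos δ) / (l * Real.sin δ) -
        ∫ x in δ..(π / 2), Real.sin (l * Real.cos x) * Real.cos x / (l * Real.sin x ^ 2)|
      ≤ |Real.sin (l * Real.cos δ) / (l * Real.sin δ)| +
        |∫ x in δ..(π / 2), Real.sin (l * Real.cos x) * Real.cos x / (l * Real.sin x ^ 2)| :=
        abs_sub _ _
    _ ≤ 1 / (l * Real.sin δ) + (1 / (l * Real.sin δ) - 1 / l) := by
        rw [← h2]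
        exact add_le_add h4 h3
    _ ≤ 2 / (l * Real.sin δ) := by
        have : 2 / (l * Real.sin δ) = 1 / (l * Real.sin δ) + 1 / (l * Real.sin δ) := by ring
        rw [this]
        linarith

theorem abs_bes_le {t : ℝ} (ht : 0 < t) : |bes t| ≤ 2 / √t := by
  have hst : 0 < √t := Real.sqrt_pos.mpr ht
  have hpi := Real.pi_pos
  have hpi3 := Real.pi_gt_three
  unfold bes
  rw [abs_mul, abs_of_pos (by positivity : 0 < (2 * π)⁻¹)]
  rcases le_or_gt t 4 with h4 | h4
  · have h1 : |∫ φ in (-π)..π, Real.cos (2 * π * t * Real.cos φ)| ≤ 1 * |π - -π| := by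
      rw [← Real.norm_eq_abs]
      refine intervalIntegral.norm_integral_le_of_norm_le_const fun x _ => ?_
      rw [Real.norm_eq_abs]
      exact Real.abs_cos_le_one _
    have h2 : |π - -π| = 2 * π := by
      rw [abs_of_pos (by linarith)]
      ring
    have h3 : √t ≤ 2 := by
      rw [show (2 : ℝ) = √4 by rw [show (4 : ℝ) = 2 ^ 2 by norm_num]; exact (Real.sqrt_sq (by norm_num)).symm]
      exact Real.sqrt_le_sqrt h4
    calc (2 * π)⁻¹ * |∫ φ in (-π)..π, Real.cos (2 * π * t * Real.cos φ)|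
        ≤ (2 * π)⁻¹ * (1 * |π - -π|) := mul_le_mul_of_nonneg_left h1 (by positivity)
      _ = 1 := by
          rw [h2, one_mul]
          exact inv_mul_cancel₀ (by positivity)
      _ ≤ 2 / √t := by
          rw [le_div_iff₀ hst, one_mul]
          exact h3
  · set δ : ℝ := 1 / √(2 * t) with hδ
    have hs2 : 0 < √(2 * t) := Real.sqrt_pos.mpr (by linarith)
    have hss : √(2 * t) ^ 2 = 2 * t := Real.sq_sqrt (by linarith)
    have hδ0 : 0 < δ := by positivity
    have hδ1 : δ < π / 2 := by
      have h1 : 2 ≤ √(2 * t) := by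
        rw [show (2 : ℝ) = √4 by rw [show (4 : ℝ) = 2 ^ 2 by norm_num]; exact (Real.sqrt_sq (by norm_num)).symm]
        refine Real.sqrt_le_sqrt ?_
        rw [show √(4 : ℝ) = 2 by rw [show (4 : ℝ) = 2 ^ 2 by norm_num]; exact Real.sqrt_sq (by norm_num)]
        linarith
      have h2 : δ ≤ 1 / 2 := by
        rw [hδ]
        exact one_div_le_one_div_of_le (by norm_num) h1
      linarith
    have hsin : 2 / π * δ ≤ Real.sin δ := Real.mul_le_sin hδ0.le hδ1.le
    have htail := BesB_tail (l := 2 * π * t) (by positivity) hδ0 hδ1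
    have h1 : 2 / (2 * π * t * Real.sin δ) ≤ δ := by
      have h2 : 0 < Real.sin δ := lt_of_lt_of_le (by positivity) hsin
      rw [div_le_iff₀ (by positivity)]
      have h3 : δ ^ 2 * (2 * t) = 1 := by
        rw [hδ, div_pow, one_pow, hss]
        field_simp
      calc (2 : ℝ) = 2 * (δ ^ 2 * (2 * t)) := by rw [h3, mul_one]
        _ = δ * (2 * π * t * (2 / π * δ)) := by
            field_simp
        _ ≤ δ * (2 * π * t * Real.sin δ) := by
            have : 0 ≤ 2 * π * t := by positivity
            exact mul_le_mul_of_nonneg_left (mul_le_mul_of_nonneg_left hsin this) hδ0.le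
    have hhead : |∫ φ in (0 : ℝ)..δ, Real.cos (2 * π * t * Real.cos φ)| ≤ δ := by
      have h2 : |∫ φ in (0 : ℝ)..δ, Real.cos (2 * π * t * Real.cos φ)| ≤ 1 * |δ - 0| := by
        rw [← Real.norm_eq_abs]
        refine intervalIntegral.norm_integral_le_of_norm_le_const fun x _ => ?_
        rw [Real.norm_eq_abs]
        exact Real.abs_cos_le_one _
      rwa [sub_zero, abs_of_pos hδ0, one_mul] at h2
    have h5 := intervalIntegral.integral_add_adjacent_intervals
      ((BesB_cont (2 * π * t)).intervalIntegrable 0 δ)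
      ((BesB_cont (2 * π * t)).intervalIntegrable δ (π / 2)) (μ := volume)
    have h6 : |∫ φ in (0 : ℝ)..(π / 2), Real.cos (2 * π * t * Real.cos φ)| ≤ 2 * δ := by
      rw [← h5]
      refine (abs_add_le _ _).trans ?_
      linarith
    rw [BesB_sym, abs_mul, abs_of_pos (by norm_num : (0 : ℝ) < 4)]
    calc (2 * π)⁻¹ * (4 * |∫ φ in (0 : ℝ)..(π / 2), Real.cos (2 * π * t * Real.cos φ)|)
        ≤ (2 * π)⁻¹ * (4 * (2 * δ)) := by gcongr
      _ = 4 / π * δ := by
          field_simp
      _ ≤ 4 / 3 * δ := by gcongr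
      _ ≤ 2 / √t := by
          have h7 : √t ≤ √(2 * t) := Real.sqrt_le_sqrt (by linarith)
          have h8 : δ ≤ 1 / √t := one_div_le_one_div_of_le hst h7
          calc 4 / 3 * δ ≤ 2 * (1 / √t) := by
                have : (0 : ℝ) < 1 / √t := by positivity
                nlinarith
            _ = 2 / √t := by ring

end Pool.MPb9430d.Frac
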