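import Pool.Agent.Lib.MP_b9430d_co.Frac.FtB

/-!
# BlkS: decomposition of the indicator function into shells

Let `A_j` be the set in the definition of `sh E N j`; the `A_j` are disjoint with union `ℂ` (`N > 0`: `‖x‖ ≤ √N` or there is a
unique `j ≥ 1` with `2^{j-1}√N < ‖x‖ ≤ 2^j √N`). `sh_sum`: `ft (sh E N j) y = ∫_{A_j} ee(..) chi E`, so this is
`MeasureTheory.hasSum_integral_iUnion` for the integrable function `ee(-(ip x y)) * chi E x` (`integrable_chi`).
`sh_near`: for `‖x‖ ≤ √N`: `‖x‖⁴ (sh E N 0 x)² ≤ N^{(4-β)/2} ‖x‖^β 1_E(x)` and `∫ ‖x‖^β 1_E = (∫⁻ ..).toReal`.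
`sh_far`: for `x ∈ A_{j+1}`: `1 ≤ (2^j √N)^{-β} ‖x‖^β`.
-/

set_option autoImplicit false

open MeasureTheory Complex Set Real Filter Topology
open scoped ENNReal

namespace Pool.MPb9430d.Frac

open Pool.MPb9430d Pool.MPb9430d.Rough

private def BlkS_A (N : ℝ) (j : ℕ) : Set ℂ :=
  {x : ℂ | (j = 0 ∨ 2 ^ (j - 1) * √N < ‖x‖) ∧ ‖x‖ ≤ 2 ^ j * √N}

private theorem BlkS_sh (E : Set ℂ) (N : ℝ) (j : ℕ) :
    sh E N j = (BlkS_A N j).indicator (chi E) := rfl

private theorem BlkS_mA (N : ℝ) (j : ℕ) : MeasurableSet (BlkS_A N j) := by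
  have h1 : MeasurableSet {x : ℂ | j = 0} := MeasurableSet.const _
  have h2 : MeasurableSet {x : ℂ | 2 ^ (j - 1) * √N < ‖x‖} :=
    measurableSet_lt measurable_const measurable_norm
  have h3 : MeasurableSet {x : ℂ | ‖x‖ ≤ 2 ^ j * √N} :=
    measurableSet_le measurable_norm measurable_const
  exact (h1.union h2).inter h3

private theorem BlkS_chi_meas {E : Set ℂ} (hE : MeasurableSet E) : Measurable (chi E) :=
  measurable_const.indicator hE

private theorem BlkS_chi_le (E : Set ℂ) (x : ℂ) : 0 ≤ chi E x ∧ chi E x ≤ 1 := by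
  unfold chi
  by_cases h : x ∈ E
  · simp [h]
  · simp [h]

private theorem BlkS_union {N : ℝ} (hN : 0 < N) : (⋃ j, BlkS_A N j) = Set.univ := by
  have hs : 0 < √N := Real.sqrt_pos.mpr hN
  refine Set.eq_univ_of_forall fun x => ?_
  have hex : ∃ j : ℕ, ‖x‖ ≤ 2 ^ j * √N := by
    obtain ⟨j, hj⟩ := pow_unbounded_of_one_lt (‖x‖ / √N) (one_lt_two)
    refine ⟨j, ?_⟩
    rw [div_lt_iff₀ hs] at hj
    exact hj.le
  classical
  refine Set.mem_iUnion.mpr ⟨Nat.find hex, ?_, Nat.find_spec hex⟩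
  rcases Nat.eq_zero_or_pos (Nat.find hex) with h0 | h0
  · exact Or.inl h0
  · refine Or.inr ?_
    have := Nat.find_min hex (m := Nat.find hex - 1) (by omega)
    exact not_le.mp this

private theorem BlkS_disj (N : ℝ) : Pairwise (Function.onFun Disjoint (BlkS_A N)) := by
  have key : ∀ i j : ℕ, i < j → Disjoint (BlkS_A N i) (BlkS_A N j) := by
    intro i j hij
    rw [Set.disjoint_left]
    rintro x ⟨-, hx⟩ ⟨hx2, -⟩
    rcases hx2 with h0 | h0
    · omega
    · have h1 : (2 : ℝ) ^ i ≤ 2 ^ (j - 1) := pow_le_pow_right₀ (by norm_num) (by omega)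
      have h2 : (2 : ℝ) ^ i * √N ≤ 2 ^ (j - 1) * √N :=
        mul_le_mul_of_nonneg_right h1 (Real.sqrt_nonneg _)
      linarith
  intro i j hij
  rcases lt_or_gt_of_ne hij with h | h
  · exact key i j h
  · exact (key j i h).symm

private theorem BlkS_toReal {E : Set ℂ} (hE : MeasurableSet E) {β : ℝ}
    (hM : ∫⁻ x in E, ENNReal.ofReal (‖x‖ ^ β) ≠ ∞) :
    Integrable (E.indicator (fun x : ℂ => ‖x‖ ^ β)) ∧
      ∫ x, E.indicator (fun x : ℂ => ‖x‖ ^ β) x =
        (∫⁻ x in E, ENNReal.ofReal (‖x‖ ^ β)).toReal := by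
  have hmeas : Measurable (fun x : ℂ => ‖x‖ ^ β) := measurable_norm.pow_const β
  have hnn : ∀ x : ℂ, 0 ≤ ‖x‖ ^ β := fun x => Real.rpow_nonneg (norm_nonneg _) _
  constructor
  · rw [integrable_indicator_iff hE]
    refine ⟨hmeas.aestronglyMeasurable, ?_⟩
    rw [hasFiniteIntegral_iff_ofReal (Eventually.of_forall hnn)]
    exact lt_top_iff_ne_top.mpr hM
  · rw [integral_indicator hE,
      integral_eq_lintegral_of_nonneg_ae (Eventually.of_forall hnn) hmeas.aestronglyMeasurable]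

theorem sh_meas {E : Set ℂ} (hE : MeasurableSet E) (N : ℝ) (j : ℕ) : Measurable (sh E N j) := by
  rw [BlkS_sh]
  exact (BlkS_chi_meas hE).indicator (BlkS_mA N j)

theorem sh_le (E : Set ℂ) (N : ℝ) (j : ℕ) (x : ℂ) : |sh E N j x| ≤ 1 := by
  rw [BlkS_sh]
  obtain ⟨h0, h1⟩ := BlkS_chi_le E x
  by_cases h : x ∈ BlkS_A N j
  · rw [Set.indicator_of_mem h, abs_of_nonneg h0]
    exact h1
  · rw [Set.indicator_of_notMem h, abs_zero]
    exact zero_le_one

theorem sh_supp (E : Set ℂ) (N : ℝ) (j : ℕ) (x : ℂ) (hx : 2 ^ j * √N < ‖x‖) : sh E N j x = 0 := by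
  rw [BlkS_sh]
  refine Set.indicator_of_notMem ?_ _
  rintro ⟨-, h⟩
  linarith

theorem sh_sum {E : Set ℂ} (hE : MeasurableSet E) (hfin : volume E ≠ ∞) {N : ℝ} (hN : 0 < N)
    (y : ℂ) : HasSum (fun j : ℕ => ft (sh E N j) y) (ft (chi E) y) := by
  have hint : Integrable (fun x => ee (-(ip x y)) * (chi E x : ℂ)) := by
    have hc : Continuous (fun x : ℂ => ee (-(ip x y))) := by
      refine continuous_ee.comp ?_
      unfold ip
      fun_prop
    refine (integrable_chi hE hfin).norm.mono' ?_ (Eventually.of_forall fun x => ?_)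
    · exact hc.aestronglyMeasurable.mul
        (Complex.measurable_ofReal.comp (BlkS_chi_meas hE)).aestronglyMeasurable
    · rw [norm_mul, norm_ee, one_mul, Complex.norm_real]
  have h1 := hasSum_integral_iUnion (μ := volume) (fun j => BlkS_mA N j) (BlkS_disj N)
    (f := fun x => ee (-(ip x y)) * (chi E x : ℂ)) hint.integrableOn
  rw [BlkS_union hN, setIntegral_univ] at h1
  have h2 : ∀ j : ℕ, ft (sh E N j) y =
      ∫ x in BlkS_A N j, ee (-(ip x y)) * (chi E x : ℂ) := by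
    intro j
    rw [← integral_indicator (BlkS_mA N j)]
    unfold ft
    refine integral_congr_ae (Eventually.of_forall fun x => ?_)
    simp only [BlkS_sh]
    by_cases h : x ∈ BlkS_A N j
    · rw [Set.indicator_of_mem h, Set.indicator_of_mem h]
    · rw [Set.indicator_of_notMem h, Set.indicator_of_notMem h, Complex.ofReal_zero, mul_zero]
  simp only [h2]
  exact h1

theorem sh_near {E : Set ℂ} (hE : MeasurableSet E) {N β : ℝ} (hN : 0 < N) (hβ : 0 < β)
    (hβ2 : β < 4) (hM : ∫⁻ x in E, ENNReal.ofReal (‖x‖ ^ β) ≠ ∞) :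
    ∫ x, ‖x‖ ^ 4 * (sh E N 0 x) ^ 2 ≤
      N ^ ((4 - β) / 2) * (∫⁻ x in E, ENNReal.ofReal (‖x‖ ^ β)).toReal := by
  obtain ⟨hi, he⟩ := BlkS_toReal hE hM
  rw [← he, ← integral_const_mul]
  refine integral_mono_of_nonneg (Eventually.of_forall fun x => by positivity) (hi.const_mul _)
    (Eventually.of_forall fun x => ?_)
  simp only [BlkS_sh]
  have hr : 0 ≤ E.indicator (fun x : ℂ => ‖x‖ ^ β) x :=
    Set.indicator_nonneg (fun x _ => Real.rpow_nonneg (norm_nonneg _) _) x
  have hN2 : 0 ≤ N ^ ((4 - β) / 2) := Real.rpow_nonneg hN.le _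
  by_cases h : x ∈ BlkS_A N 0
  · rw [Set.indicator_of_mem h]
    by_cases hx : x ∈ E
    · rw [Set.indicator_of_mem hx]
      have hc : chi E x = 1 := by simp [chi, hx]
      rw [hc, one_pow, mul_one]
      have hle : ‖x‖ ≤ √N := by
        have := h.2
        simpa using this
      rcases eq_or_lt_of_le (norm_nonneg x) with h0 | h0
      · rw [← h0]
        have : (0 : ℝ) ≤ (0 : ℝ) ^ β := Real.rpow_nonneg le_rfl _
        have h5 : 0 ≤ N ^ ((4 - β) / 2) * (0 : ℝ) ^ β := mul_nonneg hN2 this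
        simpa using h5
      · have e1 : ‖x‖ ^ 4 = ‖x‖ ^ (4 - β) * ‖x‖ ^ β := by
          rw [← Real.rpow_add h0, ← Real.rpow_natCast]
          congr 1
          push_cast
          ring
        have e2 : N ^ ((4 - β) / 2) = (√N) ^ (4 - β) := by
          rw [Real.sqrt_eq_rpow, ← Real.rpow_mul hN.le]
          congr 1
          ring
        rw [e1, e2]
        exact mul_le_mul_of_nonneg_right
          (Real.rpow_le_rpow (norm_nonneg _) hle (by linarith)) (Real.rpow_nonneg (norm_nonneg _) _)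
    · have hc : chi E x = 0 := by simp [chi, hx]
      rw [hc]
      have h5 := mul_nonneg hN2 hr
      simpa using h5
  · rw [Set.indicator_of_notMem h]
    have h5 := mul_nonneg hN2 hr
    simpa using h5

theorem sh_far {E : Set ℂ} (hE : MeasurableSet E) {N β : ℝ} (hN : 0 < N) (hβ : 0 < β)
    (hM : ∫⁻ x in E, ENNReal.ofReal (‖x‖ ^ β) ≠ ∞) (j : ℕ) :
    ∫ x, (sh E N (j + 1) x) ^ 2 ≤
      (2 ^ j * √N) ^ (-β) * (∫⁻ x in E, ENNReal.ofReal (‖x‖ ^ β)).toReal := by
  obtain ⟨hi, he⟩ := BlkS_toReal hE hM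
  rw [← he, ← integral_const_mul]
  refine integral_mono_of_nonneg (Eventually.of_forall fun x => by positivity) (hi.const_mul _)
    (Eventually.of_forall fun x => ?_)
  simp only [BlkS_sh]
  have hs : 0 < √N := Real.sqrt_pos.mpr hN
  have hc0 : 0 < 2 ^ j * √N := by positivity
  have hr : 0 ≤ E.indicator (fun x : ℂ => ‖x‖ ^ β) x :=
    Set.indicator_nonneg (fun x _ => Real.rpow_nonneg (norm_nonneg _) _) x
  have hN2 : 0 ≤ (2 ^ j * √N) ^ (-β) := Real.rpow_nonneg hc0.le _
  by_cases h : x ∈ BlkS_A N (j + 1)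
  · rw [Set.indicator_of_mem h]
    by_cases hx : x ∈ E
    · rw [Set.indicator_of_mem hx]
      have hc : chi E x = 1 := by simp [chi, hx]
      rw [hc, one_pow]
      have hlt : 2 ^ j * √N < ‖x‖ := by
        rcases h.1 with h0 | h0
        · omega
        · simpa using h0
      calc (1 : ℝ) = (2 ^ j * √N) ^ (-β) * (2 ^ j * √N) ^ β := by
            rw [← Real.rpow_add hc0, neg_add_cancel, Real.rpow_zero]
        _ ≤ (2 ^ j * √N) ^ (-β) * ‖x‖ ^ β :=
            mul_le_mul_of_nonneg_left (Real.rpow_le_rpow hc0.le hlt.le hβ.le) hN2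
    · have hc : chi E x = 0 := by simp [chi, hx]
      rw [hc]
      have h5 := mul_nonneg hN2 hr
      simpa using h5
  · rw [Set.indicator_of_notMem h]
    have h5 := mul_nonneg hN2 hr
    simpa using h5

end Pool.MPb9430d.Frac
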