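import Pool.Agent.Lib.MP_b9430d_co.Frac.Defs

/-!
# FtB: basic facts on the Fourier transform `ft`

`norm_ft_le`: `norm_integral_le_integral_norm`, `norm_ee`.
`continuous_ft`: dominated convergence (`MeasureTheory.continuous_of_dominated`), or identify `ft F` with
Mathlib's `𝓕` and use `VectorFourier.fourierIntegral_continuous`.
`ft_inc`: `inc E h x = chi E (x - h) - chi E x`; substitute `x → x + h` (`integral_add_right_eq_self`) and use
`ip_add_left`, `ee_add`.
-/

set_option autoImplicit false

open MeasureTheory Complex Set Real Filter Topology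
open scoped ENNReal

namespace Pool.MPb9430d.Frac

open Pool.MPb9430d Pool.MPb9430d.Rough

theorem integrable_chi {E : Set ℂ} (hE : MeasurableSet E) (hfin : volume E ≠ ∞) :
    Integrable (chi E) := by
  have h : chi E = E.indicator (fun _ => (1 : ℝ)) := rfl
  rw [h, integrable_indicator_iff hE]
  exact integrableOn_const hfin

theorem norm_ft_le (F : ℂ → ℝ) (y : ℂ) : ‖ft F y‖ ≤ ∫ x, |F x| := by
  unfold ft
  refine (norm_integral_le_integral_norm _).trans (le_of_eq ?_)
  refine integral_congr_ae (Filter.Eventually.of_forall (fun x => ?_))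
  show ‖ee (-(ip x y)) * (F x : ℂ)‖ = |F x|
  rw [norm_mul, norm_ee, one_mul, Complex.norm_real, Real.norm_eq_abs]

private theorem ftb_continuous_ip_right (x : ℂ) : Continuous (fun y => ip x y) := by
  unfold ip
  fun_prop

private theorem ftb_continuous_ip_left (y : ℂ) : Continuous (fun x => ip x y) := by
  unfold ip
  fun_prop

private theorem ftb_integrable {F : ℂ → ℝ} (hF : Integrable F) (y : ℂ) :
    Integrable (fun x => ee (-(ip x y)) * (F x : ℂ)) := by
  refine (hF.ofReal (𝕜 := ℂ)).bdd_mul (c := 1) ?_ ?_
  · exact (continuous_ee.comp (ftb_continuous_ip_left y).neg).aestronglyMeasurable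
  · exact Filter.Eventually.of_forall (fun x => (norm_ee _).le)

theorem continuous_ft {F : ℂ → ℝ} (hF : Integrable F) : Continuous (ft F) := by
  unfold ft
  refine MeasureTheory.continuous_of_dominated (bound := fun x => |F x|) ?_ ?_ hF.abs ?_
  · intro y
    exact (ftb_integrable hF y).aestronglyMeasurable
  · intro y
    refine Filter.Eventually.of_forall (fun x => ?_)
    rw [norm_mul, norm_ee, one_mul, Complex.norm_real, Real.norm_eq_abs]
  · refine Filter.Eventually.of_forall (fun x => ?_)
    exact (continuous_ee.comp (ftb_continuous_ip_right x).neg).mul continuous_const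

theorem ft_inc {E : Set ℂ} (hE : MeasurableSet E) (hfin : volume E ≠ ∞) (h y : ℂ) :
    ft (inc E h) y = (ee (-(ip h y)) - 1) * ft (chi E) y := by
  have hchi := integrable_chi hE hfin
  have hint := ftb_integrable hchi y
  have hint2 : Integrable (fun x => ee (-(ip x y)) * (chi E (x - h) : ℂ)) := by
    have h1 := ftb_integrable (hchi.comp_sub_right h) y
    exact h1
  have h1 : ft (inc E h) y = (∫ x, ee (-(ip x y)) * (chi E (x - h) : ℂ)) -
      ∫ x, ee (-(ip x y)) * (chi E x : ℂ) := by
    rw [← integral_sub hint2 hint]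
    unfold ft
    refine integral_congr_ae (Filter.Eventually.of_forall (fun x => ?_))
    show ee (-(ip x y)) * ((inc E h x : ℝ) : ℂ) = ee (-(ip x y)) * (chi E (x - h) : ℂ) -
      ee (-(ip x y)) * (chi E x : ℂ)
    have : inc E h x = chi E (x - h) - chi E x := rfl
    rw [this]
    push_cast
    ring
  have h2 : (∫ x, ee (-(ip x y)) * (chi E (x - h) : ℂ)) =
      ee (-(ip h y)) * ∫ x, ee (-(ip x y)) * (chi E x : ℂ) := by
    rw [← integral_const_mul]
    rw [← integral_add_right_eq_self (fun x => ee (-(ip x y)) * (chi E (x - h) : ℂ)) h]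
    refine integral_congr_ae (Filter.Eventually.of_forall (fun x => ?_))
    show ee (-(ip (x + h) y)) * (chi E (x + h - h) : ℂ) =
      ee (-(ip h y)) * (ee (-(ip x y)) * (chi E x : ℂ))
    rw [add_sub_cancel_right, ip_add_left, neg_add, ee_add]
    ring
  rw [h1, h2]
  unfold ft
  ring

end Pool.MPb9430d.Frac
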