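import Pool.Agent.Lib.MP_b9430d_co.Frac.Defs

/-!
# Lin1: error of linear interpolation, and a Sobolev inequality

`interp`: the left-hand side is `α (F r - F a) + β (F r - F b)` with `α = (b-r)/(b-a)`, `β = (r-a)/(b-a)`, `α + β = 1`,
`α (a - r) + β (b - r) = 0`, so it equals `-α (F a - F r - (a-r) F' r) - β (F b - F r - (b-r) F' r)`. Taylor:
`F b - F r - (b-r) F' r = ∫_r^b (F' t - F' r) dt`, of norm `≤ (b - r) ∫_r^b ‖F''‖` since `‖F' t - F' r‖ ≤ ∫_r^t ‖F''‖`; the same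
for `a`. Total `≤ (b-a) ∫_a^b ‖F''‖`.
`sob`: let `J = [t, t+w]` (contained in `[r - 2w, r + 2w]`). Some `s₀ ∈ J` has `‖F s₀‖² ≤ w⁻¹ ∫_J ‖F‖²` (mean value), and
`‖F t‖² - ‖F s₀‖² = - ∫_t^{s₀} 2 Re(F conj F') ≤ 2 ∫_J ‖F‖‖F'‖`. (Or: integrate the inequality
`‖F t‖² ≤ ‖F s‖² + 2 ∫_J ‖F‖‖F'‖` over `s ∈ J` and divide by `w`.)
-/

set_option autoImplicit false

open MeasureTheory Complex Set Real Filter Topology
open scoped ENNReal

namespace Pool.MPb9430d.Frac

open Pool.MPb9430d Pool.MPb9430d.Rough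

private theorem Lin1_sub {F' F'' : ℝ → ℂ} (h2 : ∀ r, HasDerivAt F' (F'' r) r)
    (hc : Continuous F'') {a b s t : ℝ} (hs : s ∈ Set.Icc a b) (ht : t ∈ Set.Icc a b) :
    ‖F' t - F' s‖ ≤ ∫ x in a..b, ‖F'' x‖ := by
  have key : ∀ u v : ℝ, u ∈ Set.Icc a b → v ∈ Set.Icc a b → u ≤ v →
      ‖F' v - F' u‖ ≤ ∫ x in a..b, ‖F'' x‖ := by
    intro u v hu hv huv
    have h3 : ∫ x in u..v, F'' x = F' v - F' u :=
      intervalIntegral.integral_eq_sub_of_hasDerivAt (fun x _ => h2 x) (hc.intervalIntegrable _ _)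
    rw [← h3]
    refine (intervalIntegral.norm_integral_le_integral_norm huv).trans ?_
    exact intervalIntegral.integral_mono_interval hu.1 huv hv.2
      (Filter.Eventually.of_forall fun _ => norm_nonneg _) (hc.norm.intervalIntegrable _ _)
  rcases le_total s t with h | h
  · exact key s t hs ht h
  · rw [norm_sub_rev]
    exact key t s ht hs h

private theorem Lin1_taylor {F F' F'' : ℝ → ℂ} (h1 : ∀ r, HasDerivAt F (F' r) r)
    (h2 : ∀ r, HasDerivAt F' (F'' r) r) (hc : Continuous F'') {a b r x : ℝ}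
    (hr : r ∈ Set.Icc a b) (hx : x ∈ Set.Icc a b) :
    ‖F x - F r - ((x - r : ℝ) : ℂ) * F' r‖ ≤ (∫ t in a..b, ‖F'' t‖) * |x - r| := by
  have h3 : ∀ y ∈ Set.Icc a b, HasDerivWithinAt (fun y : ℝ => F y - ((y - r : ℝ) : ℂ) * F' r)
      (F' y - F' r) (Set.Icc a b) y := by
    intro y _
    have h4 : HasDerivAt (fun y : ℝ => ((y - r : ℝ) : ℂ) * F' r) (((1 : ℝ) : ℂ) * F' r) y :=
      (((hasDerivAt_id y).sub_const r).ofReal_comp).mul_const (F' r)
    have h5 := (h1 y).sub h4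
    rw [Complex.ofReal_one, one_mul] at h5
    exact h5.hasDerivWithinAt
  have h6 := (convex_Icc a b).norm_image_sub_le_of_norm_hasDerivWithin_le h3
    (fun y hy => Lin1_sub h2 hc hr hy) hr hx
  have h7 : (F x - ((x - r : ℝ) : ℂ) * F' r) - (F r - ((r - r : ℝ) : ℂ) * F' r) =
      F x - F r - ((x - r : ℝ) : ℂ) * F' r := by
    rw [sub_self, Complex.ofReal_zero, zero_mul, sub_zero]
    ring
  rw [h7] at h6
  exact h6

theorem interp {F F' F'' : ℝ → ℂ} (h1 : ∀ r, HasDerivAt F (F' r) r)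
    (h2 : ∀ r, HasDerivAt F' (F'' r) r) (hc : Continuous F'') {a b r : ℝ} (hab : a < b)
    (har : a ≤ r) (hrb : r ≤ b) :
    ‖F r - (((b - r) / (b - a) : ℝ) : ℂ) * F a - (((r - a) / (b - a) : ℝ) : ℂ) * F b‖ ≤
      (b - a) * ∫ t in a..b, ‖F'' t‖ := by
  have hd : 0 < b - a := sub_pos.2 hab
  obtain ⟨α, hα⟩ : ∃ α, α = (b - r) / (b - a) := ⟨_, rfl⟩
  obtain ⟨β, hβ⟩ : ∃ β, β = (r - a) / (b - a) := ⟨_, rfl⟩
  have hα0 : 0 ≤ α := by
    rw [hα]
    exact div_nonneg (by linarith) hd.le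
  have hβ0 : 0 ≤ β := by
    rw [hβ]
    exact div_nonneg (by linarith) hd.le
  have hsum : α + β = 1 := by
    rw [hα, hβ, ← add_div, div_eq_one_iff_eq hd.ne']
    ring
  have hzero : α * (a - r) + β * (b - r) = 0 := by
    rw [hα, hβ]
    field_simp
    ring
  obtain ⟨M, hM⟩ : ∃ M, M = ∫ t in a..b, ‖F'' t‖ := ⟨_, rfl⟩
  have hM0 : 0 ≤ M := by
    rw [hM]
    exact intervalIntegral.integral_nonneg hab.le fun _ _ => norm_nonneg _
  have hra : r ∈ Set.Icc a b := ⟨har, hrb⟩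
  have ta := Lin1_taylor h1 h2 hc hra (Set.left_mem_Icc.2 hab.le)
  have tb := Lin1_taylor h1 h2 hc hra (Set.right_mem_Icc.2 hab.le)
  rw [← hM] at ta tb
  rw [← hM, ← hα, ← hβ]
  have hsum' : (α : ℂ) + (β : ℂ) = 1 := by exact_mod_cast hsum
  have hzero' : (α : ℂ) * ((a - r : ℝ) : ℂ) + (β : ℂ) * ((b - r : ℝ) : ℂ) = 0 := by
    exact_mod_cast hzero
  have heq : F r - (α : ℂ) * F a - (β : ℂ) * F b =
      -((α : ℂ) * (F a - F r - ((a - r : ℝ) : ℂ) * F' r)) -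
        (β : ℂ) * (F b - F r - ((b - r : ℝ) : ℂ) * F' r) := by
    linear_combination (-F r) * hsum' - F' r * hzero'
  rw [heq]
  have e1 : ‖-((α : ℂ) * (F a - F r - ((a - r : ℝ) : ℂ) * F' r))‖ ≤ α * (M * (b - a)) := by
    rw [norm_neg, norm_mul, Complex.norm_real, Real.norm_of_nonneg hα0]
    refine mul_le_mul_of_nonneg_left (ta.trans ?_) hα0
    refine mul_le_mul_of_nonneg_left ?_ hM0
    rw [abs_sub_comm, abs_of_nonneg (by linarith)]
    linarith
  have e2 : ‖(β : ℂ) * (F b - F r - ((b - r : ℝ) : ℂ) * F' r)‖ ≤ β * (M * (b - a)) := by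
    rw [norm_mul, Complex.norm_real, Real.norm_of_nonneg hβ0]
    refine mul_le_mul_of_nonneg_left (tb.trans ?_) hβ0
    refine mul_le_mul_of_nonneg_left ?_ hM0
    rw [abs_of_nonneg (by linarith)]
    linarith
  refine (norm_sub_le _ _).trans ?_
  calc _ ≤ α * (M * (b - a)) + β * (M * (b - a)) := add_le_add e1 e2
    _ = (α + β) * (M * (b - a)) := by ring
    _ = (b - a) * M := by rw [hsum]; ring

theorem sob {F F' : ℝ → ℂ} (h1 : ∀ r, HasDerivAt F (F' r) r) (hc : Continuous F') {w : ℝ}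
    (hw : 0 < w) {r t : ℝ} (ht : |t - r| ≤ w) :
    ‖F t‖ ^ 2 ≤ w⁻¹ * (∫ s in (r - 2 * w)..(r + 2 * w), ‖F s‖ ^ 2) +
      2 * ∫ s in (r - 2 * w)..(r + 2 * w), ‖F s‖ * ‖F' s‖ := by
  have hF : Continuous F := continuous_iff_continuousAt.2 fun x => (h1 x).continuousAt
  have hab := abs_le.1 ht
  have c1 : Continuous fun s => ‖F s‖ ^ 2 := by fun_prop
  have c2 : Continuous fun s => ‖F s‖ * ‖F' s‖ := by fun_prop
  obtain ⟨A, hA⟩ : ∃ A, A = ∫ s in (r - 2 * w)..(r + 2 * w), ‖F s‖ ^ 2 := ⟨_, rfl⟩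
  obtain ⟨B, hB⟩ : ∃ B, B = ∫ s in (r - 2 * w)..(r + 2 * w), ‖F s‖ * ‖F' s‖ := ⟨_, rfl⟩
  rw [← hA, ← hB]
  have key : ∀ s ∈ Set.Icc t (t + w), ‖F t‖ ^ 2 ≤ ‖F s‖ ^ 2 + 2 * B := by
    intro s hs
    have hd : ∀ x, HasDerivAt (fun x => ‖F x‖ ^ 2) (2 * inner ℝ (F x) (F' x)) x :=
      fun x => (h1 x).norm_sq
    have hci : Continuous fun x => 2 * inner ℝ (F x) (F' x) := by fun_prop
    have h3 : ∫ x in t..s, 2 * inner ℝ (F x) (F' x) = ‖F s‖ ^ 2 - ‖F t‖ ^ 2 :=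
      intervalIntegral.integral_eq_sub_of_hasDerivAt (fun x _ => hd x) (hci.intervalIntegrable _ _)
    have h4 : -(∫ x in t..s, 2 * inner ℝ (F x) (F' x)) ≤ 2 * B := by
      rw [← intervalIntegral.integral_neg]
      have h5 : ∫ x in t..s, -(2 * inner ℝ (F x) (F' x)) ≤ ∫ x in t..s, 2 * (‖F x‖ * ‖F' x‖) := by
        refine intervalIntegral.integral_mono_on hs.1 (hci.neg.intervalIntegrable _ _)
          ((c2.const_mul 2).intervalIntegrable _ _) fun x _ => ?_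
        have h6 := abs_real_inner_le_norm (F x) (F' x)
        have h7 := neg_abs_le (inner ℝ (F x) (F' x))
        linarith
      refine h5.trans ?_
      rw [intervalIntegral.integral_const_mul, hB]
      refine mul_le_mul_of_nonneg_left ?_ zero_le_two
      refine intervalIntegral.integral_mono_interval (by linarith) hs.1 (by linarith [hs.2])
        (Filter.Eventually.of_forall fun x => ?_) (c2.intervalIntegrable _ _)
      exact mul_nonneg (norm_nonneg _) (norm_nonneg _)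
    linarith
  have h8 : ∫ _ in t..(t + w), ‖F t‖ ^ 2 ≤ ∫ s in t..(t + w), (‖F s‖ ^ 2 + 2 * B) := by
    refine intervalIntegral.integral_mono_on (by linarith) (continuous_const.intervalIntegrable _ _)
      ((c1.add continuous_const).intervalIntegrable _ _) key
  rw [intervalIntegral.integral_const, intervalIntegral.integral_add (c1.intervalIntegrable _ _)
    (continuous_const.intervalIntegrable _ _), intervalIntegral.integral_const, smul_eq_mul,
    smul_eq_mul] at h8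
  have h9 : ∫ s in t..(t + w), ‖F s‖ ^ 2 ≤ A := by
    rw [hA]
    refine intervalIntegral.integral_mono_interval (by linarith) (by linarith) (by linarith)
        (Filter.Eventually.of_forall fun x => ?_) (c1.intervalIntegrable _ _)
    exact sq_nonneg _
  have h10 : w * ‖F t‖ ^ 2 ≤ A + w * (2 * B) := by
    have e : t + w - t = w := by ring
    rw [e] at h8
    linarith
  have h11 : ‖F t‖ ^ 2 = w⁻¹ * (w * ‖F t‖ ^ 2) := by
    rw [← mul_assoc, inv_mul_cancel₀ hw.ne', one_mul]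
  rw [h11]
  calc w⁻¹ * (w * ‖F t‖ ^ 2) ≤ w⁻¹ * (A + w * (2 * B)) :=
        mul_le_mul_of_nonneg_left h10 (inv_nonneg.2 hw.le)
    _ = w⁻¹ * A + 2 * B := by
        rw [mul_add, ← mul_assoc w⁻¹ w, inv_mul_cancel₀ hw.ne', one_mul]

end Pool.MPb9430d.Frac
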