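import Pool.Agent.Lib.MP_b9430d_co.Frac.Defs

/-!
# Pl: Plancherel for `L¹ ∩ L^∞`

`F` is integrable and bounded, so it is in `L²` (`MemLp.of_bound`-type argument or `F² ≤ B |F|`). `ft F` is Mathlib's
Fourier transform `𝓕 (fun x => (F x : ℂ))` on the real inner product space `ℂ` (`Real.fourier_eq'`,
`ip_eq_inner`). The Plancherel theorem for functions `f : ℝ → ℂ` in `L¹ ∩ L²` is proved in
`Pool/Agent/Lib/MP_bc6037_nt/RecPlancherel.lean` (`plancherel`, 80 lines); the same proof works on `ℂ` in place of `ℝ`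
(`MeasureTheory.Lp.norm_fourier_eq`, `Lp.toTemperedDistribution`). Copy it and adapt.
-/

set_option autoImplicit false

open MeasureTheory Complex Set Real Filter Topology
open scoped ENNReal FourierTransform ContDiff

namespace Pool.MPb9430d.Frac

open Pool.MPb9430d Pool.MPb9430d.Rough

private theorem Pl_ae {f : ℂ → ℂ} (h1 : Integrable f) (h2 : MemLp f 2) :
    (𝓕 (h2.toLp f) : Lp ℂ 2 (volume : Measure ℂ)) =ᵐ[volume] 𝓕 f := by
  have hcont : Continuous (𝓕 f) :=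
    VectorFourier.fourierIntegral_continuous Real.continuous_fourierChar
      (by exact continuous_inner) h1
  apply ae_eq_of_integral_contDiff_smul_eq
  · exact (Lp.memLp _).locallyIntegrable (by norm_num)
  · exact hcont.locallyIntegrable
  · intro g g_smooth g_cpt
    have hg₁ : HasCompactSupport (Complex.ofRealCLM ∘ g) := g_cpt.comp_left rfl
    have hg₂ : ContDiff ℝ ∞ (Complex.ofRealCLM ∘ g) := by fun_prop
    set φ : SchwartzMap ℂ ℂ := hg₁.toSchwartzMap hg₂ with hφ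
    have hφx : ∀ x, φ x = (g x : ℂ) := fun x => rfl
    have e1 : ∫ x, g x • (𝓕 (h2.toLp f) : Lp ℂ 2 (volume : Measure ℂ)) x =
        (MeasureTheory.Lp.toTemperedDistribution
          (𝓕 (h2.toLp f) : Lp ℂ 2 (volume : Measure ℂ))) φ := by
      rw [MeasureTheory.Lp.toTemperedDistribution_apply]
      congr 1
    have e2 : MeasureTheory.Lp.toTemperedDistribution
          (𝓕 (h2.toLp f) : Lp ℂ 2 (volume : Measure ℂ)) =
        𝓕 (MeasureTheory.Lp.toTemperedDistribution (h2.toLp f)) :=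
      (MeasureTheory.Lp.fourier_toTemperedDistribution_eq (h2.toLp f)).symm
    rw [e1, e2, TemperedDistribution.fourier_apply, MeasureTheory.Lp.toTemperedDistribution_apply]
    have e3 : ∫ x, (𝓕 φ : SchwartzMap ℂ ℂ) x • (h2.toLp f : Lp ℂ 2 (volume : Measure ℂ)) x =
        ∫ x, (𝓕 (φ : ℂ → ℂ)) x • f x := by
      apply integral_congr_ae
      filter_upwards [h2.coeFn_toLp] with x hx
      rw [hx, SchwartzMap.fourier_coe]
    rw [e3]
    have e4 := VectorFourier.integral_fourierIntegral_smul_eq_flip (L := innerₗ ℂ)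
      (μ := volume) (ν := volume) Real.continuous_fourierChar
      (by exact continuous_inner) φ.integrable h1
    rw [flip_innerₗ] at e4
    refine Eq.trans ?_ (e4.trans ?_)
    · rfl
    · congr 1

private theorem Pl_compl {f : ℂ → ℂ} (h1 : Integrable f) (h2 : MemLp f 2) :
    MemLp (𝓕 f) 2 ∧ ∫ ξ, ‖𝓕 f ξ‖ ^ 2 = ∫ x, ‖f x‖ ^ 2 := by
  have hae := Pl_ae h1 h2
  have hm : MemLp (𝓕 f) 2 := (memLp_congr_ae hae).1 (Lp.memLp _)
  refine ⟨hm, ?_⟩
  have h3 : ‖(𝓕 (h2.toLp f) : Lp ℂ 2 (volume : Measure ℂ))‖ = ‖h2.toLp f‖ :=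
    MeasureTheory.Lp.norm_fourier_eq _
  have h4 : ∀ F : Lp ℂ 2 (volume : Measure ℂ), ‖F‖ ^ 2 = ∫ x, ‖F x‖ ^ 2 := by
    intro F
    rw [@norm_sq_eq_re_inner ℂ, MeasureTheory.L2.inner_def]
    simp only [inner_self_eq_norm_sq_to_K]
    rw [← integral_re]
    · congr 1
      ext x
      norm_cast
    · have := (L2.integrable_inner (𝕜 := ℂ) F F)
      simpa only [inner_self_eq_norm_sq_to_K] using this
  have h5 := congrArg (fun r => r ^ 2) h3
  simp only [h4] at h5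
  have h6 : ∫ ξ, ‖𝓕 f ξ‖ ^ 2 =
      ∫ ξ, ‖(𝓕 (h2.toLp f) : Lp ℂ 2 (volume : Measure ℂ)) ξ‖ ^ 2 := by
    apply integral_congr_ae
    filter_upwards [hae] with x hx
    rw [hx]
  have h7 : ∫ x, ‖f x‖ ^ 2 = ∫ x, ‖(h2.toLp f) x‖ ^ 2 := by
    apply integral_congr_ae
    filter_upwards [h2.coeFn_toLp] with x hx
    rw [hx]
  rw [h6, h7, h5]

private theorem Pl_ft (F : ℂ → ℝ) (y : ℂ) : ft F y = 𝓕 (fun x => (F x : ℂ)) y := by
  rw [Real.fourier_eq']
  unfold ft
  refine integral_congr_ae (ae_of_all _ fun x => ?_)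
  show ee (-(ip x y)) * (F x : ℂ) = cexp (↑(-2 * π * inner ℝ x y) * I) • (F x : ℂ)
  rw [smul_eq_mul, ip_eq_inner, ee]
  congr 2
  push_cast
  ring

theorem plancherel {F : ℂ → ℝ} (hm : Measurable F) (hF : Integrable F) {B : ℝ}
    (hb : ∀ x, |F x| ≤ B) :
    Integrable (fun y => ‖ft F y‖ ^ 2) ∧ ∫ y, ‖ft F y‖ ^ 2 = ∫ x, (F x) ^ 2 := by
  have h1 : Integrable (fun x => (F x : ℂ)) := hF.ofReal
  have h2 : MemLp (fun x => (F x : ℂ)) 2 := by
    rw [memLp_two_iff_integrable_sq_norm h1.aestronglyMeasurable]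
    have h3 : Integrable (fun x => F x * F x) := by
      refine hF.bdd_mul hm.aestronglyMeasurable (ae_of_all _ fun x => ?_) (c := B)
      rw [Real.norm_eq_abs]
      exact hb x
    refine h3.congr (ae_of_all _ fun x => ?_)
    show F x * F x = ‖(F x : ℂ)‖ ^ 2
    rw [Complex.norm_real, Real.norm_eq_abs, sq_abs, sq]
  obtain ⟨h4, h5⟩ := Pl_compl h1 h2
  have h6 : (fun y => ‖ft F y‖ ^ 2) = fun y => ‖𝓕 (fun x => (F x : ℂ)) y‖ ^ 2 := by
    funext y
    rw [Pl_ft]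
  rw [h6]
  refine ⟨(memLp_two_iff_integrable_sq_norm h4.1).1 h4, ?_⟩
  rw [h5]
  refine integral_congr_ae (ae_of_all _ fun x => ?_)
  show ‖(F x : ℂ)‖ ^ 2 = F x ^ 2
  rw [Complex.norm_real, Real.norm_eq_abs, sq_abs]

end Pool.MPb9430d.Frac
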