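import Pool.Agent.Lib.MP_b9430d_co.Frac.Defs

/-!
# Pol: polar coordinates

Mathlib: `Complex.lintegral_comp_polarCoord_symm` (or `lintegral_comp_polarCoord_symm` on `ℝ × ℝ`):
`∫⁻ p in polarCoord.target, ENNReal.ofReal p.1 • f (polarCoord.symm p) = ∫⁻ p, f p`; target `= Ioi 0 ×ˢ Ioo (-π) π`;
apply it to the indicator of the annulus times `G`; `Complex.polarCoord_symm (r, θ) = r (cos θ + i sin θ) = r * rot θ`,
norm `r`. Tonelli on the product (`lintegral_prod_symm` etc.), `Ioo` versus `Ioc` up to a null set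
(`Ioo_ae_eq_Ioc`).
-/

set_option autoImplicit false

open MeasureTheory Complex Set Real Filter Topology
open scoped ENNReal

namespace Pool.MPb9430d.Frac

open Pool.MPb9430d Pool.MPb9430d.Rough

theorem lint_polar {G : ℂ → ℝ≥0∞} (hG : Measurable G) {a b : ℝ} (ha : 0 < a) :
    ∫⁻ y in {y : ℂ | a ≤ ‖y‖ ∧ ‖y‖ < b}, G y =
      ∫⁻ θ in Ioc (-π) π, ∫⁻ r in Ico a b, ENNReal.ofReal r * G (r * rot θ) := by
  have hset : MeasurableSet {y : ℂ | a ≤ ‖y‖ ∧ ‖y‖ < b} :=
    (measurableSet_le measurable_const measurable_norm).inter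
      (measurableSet_lt measurable_norm measurable_const)
  set F : ℂ → ℝ≥0∞ := {y : ℂ | a ≤ ‖y‖ ∧ ‖y‖ < b}.indicator G with hF
  have hFm : Measurable F := hG.indicator hset
  rw [← lintegral_indicator hset, ← hF, ← Complex.lintegral_comp_polarCoord_symm]
  have htar : (polarCoord.target : Set (ℝ × ℝ)) = Ioi (0 : ℝ) ×ˢ Ioo (-π) π := rfl
  rw [htar]
  have hsymm : ∀ q : ℝ × ℝ, Complex.polarCoord.symm q = (q.1 : ℂ) * rot q.2 := by
    intro q
    rw [Complex.polarCoord_symm_apply]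
    unfold rot
    rw [Complex.exp_mul_I, Complex.ofReal_cos, Complex.ofReal_sin]
  simp only [hsymm]
  rw [Measure.volume_eq_prod, ← Measure.prod_restrict]
  have hmeas : Measurable fun q : ℝ × ℝ =>
      ENNReal.ofReal q.1 • F ((q.1 : ℂ) * rot q.2) := by
    refine Measurable.smul (measurable_fst.ennreal_ofReal) (hFm.comp ?_)
    exact (Complex.measurable_ofReal.comp measurable_fst).mul
      (measurable_rot.comp measurable_snd)
  rw [lintegral_prod_symm _ hmeas.aemeasurable]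
  rw [Measure.restrict_congr_set (Ioo_ae_eq_Ioc : Ioo (-π) π =ᵐ[volume] Ioc (-π) π)]
  refine lintegral_congr fun θ => ?_
  have h1 : ∀ r ∈ Ioi (0 : ℝ), ENNReal.ofReal r • F ((r : ℂ) * rot θ) =
      (Ico a b).indicator (fun r : ℝ => ENNReal.ofReal r * G (r * rot θ)) r := by
    intro r hr
    have hn : ‖(r : ℂ) * rot θ‖ = r := by
      rw [norm_mul, norm_rot, mul_one, Complex.norm_real, Real.norm_eq_abs, abs_of_pos hr]
    rw [hF]
    by_cases h : a ≤ r ∧ r < b
    · rw [indicator_of_mem (show (r : ℂ) * rot θ ∈ {y : ℂ | a ≤ ‖y‖ ∧ ‖y‖ < b} by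
        show a ≤ ‖(r : ℂ) * rot θ‖ ∧ ‖(r : ℂ) * rot θ‖ < b
        rw [hn]
        exact h), indicator_of_mem (show r ∈ Ico a b from h), smul_eq_mul]
    · rw [indicator_of_notMem (show (r : ℂ) * rot θ ∉ {y : ℂ | a ≤ ‖y‖ ∧ ‖y‖ < b} by
        show ¬ (a ≤ ‖(r : ℂ) * rot θ‖ ∧ ‖(r : ℂ) * rot θ‖ < b)
        rw [hn]
        exact h), indicator_of_notMem (show r ∉ Ico a b from h), smul_zero]
  rw [setLIntegral_congr_fun measurableSet_Ioi h1, ← lintegral_indicator measurableSet_Ioi,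
    indicator_indicator, lintegral_indicator (measurableSet_Ioi.inter measurableSet_Ico)]
  have h2 : Ioi (0 : ℝ) ∩ Ico a b = Ico a b := by
    ext r
    constructor
    · rintro ⟨-, h⟩
      exact h
    · intro h
      exact ⟨ha.trans_le h.1, h⟩
  rw [h2]

end Pool.MPb9430d.Frac
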