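import Pool.Agent.Lib.MP_b9430d_co.Frac.Defs

/-!
# Rad: radial derivatives of the Fourier transform of a bounded function with bounded support

`ft g (r * rot θ) = ∫ ee(-(r * ip x (rot θ))) g x dx`, so by differentiation under the integral
(`hasDerivAt_integral_of_dominated_loc_of_deriv_le`; `g` is bounded with bounded support, everything is dominated by
a constant times the indicator of a disc)
`F' r = ∫ (-2π i ip x (rot θ)) ee(..) g x`, `F'' r = ∫ (-2π i ip x (rot θ))² ee(..) g x`.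
With `rot θ = c + i s`: `ip x (rot θ) = c x.re + s x.im`, so `F' r = -2π i (c ft(x.re g) + s ft(x.im g))` and
`F'' r = -4π² (c² ft(x.re² g) + 2cs ft(x.re x.im g) + s² ft(x.im² g))`, all at `r * rot θ`; `|c|, |s| ≤ 1`, `2π ≤ 7`, `4π² ≤ 40`.
-/

set_option autoImplicit false

open MeasureTheory Complex Set Real Filter Topology
open scoped ENNReal

namespace Pool.MPb9430d.Frac

open Pool.MPb9430d Pool.MPb9430d.Rough

private noncomputable def Rad_k (θ : ℝ) (x : ℂ) : ℝ := Real.cos θ * x.re + Real.sin θ * x.im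

private theorem Rad_rot_re (θ : ℝ) : (rot θ).re = Real.cos θ := by
  rw [rot, Complex.exp_ofReal_mul_I_re]

private theorem Rad_rot_im (θ : ℝ) : (rot θ).im = Real.sin θ := by
  rw [rot, Complex.exp_ofReal_mul_I_im]

private theorem Rad_ip (θ r : ℝ) (x : ℂ) : ip x (r * rot θ) = r * Rad_k θ x := by
  unfold ip Rad_k
  rw [Complex.re_ofReal_mul, Complex.im_ofReal_mul, Rad_rot_re, Rad_rot_im]
  ring

private theorem Rad_k_cont (θ : ℝ) : Continuous (Rad_k θ) := by
  unfold Rad_k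
  fun_prop

private theorem Rad_k_le (θ : ℝ) (x : ℂ) : |Rad_k θ x| ≤ 2 * ‖x‖ := by
  unfold Rad_k
  have h1 := Real.abs_cos_le_one θ
  have h2 := Real.abs_sin_le_one θ
  have h3 := Complex.abs_re_le_norm x
  have h4 := Complex.abs_im_le_norm x
  calc |Real.cos θ * x.re + Real.sin θ * x.im| ≤ |Real.cos θ * x.re| + |Real.sin θ * x.im| :=
        abs_add_le _ _
    _ = |Real.cos θ| * |x.re| + |Real.sin θ| * |x.im| := by rw [abs_mul, abs_mul]
    _ ≤ 1 * ‖x‖ + 1 * ‖x‖ := by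
        gcongr
    _ = 2 * ‖x‖ := by ring

/-- Measurable, bounded, with bounded support. -/
private def Rad_A (h : ℂ → ℂ) : Prop :=
  Measurable h ∧ ∃ B Y : ℝ, (∀ x, ‖h x‖ ≤ B) ∧ ∀ x, Y < ‖x‖ → h x = 0

private theorem Rad_A_int {h : ℂ → ℂ} (hA : Rad_A h) : Integrable h := by
  obtain ⟨hm, B, Y, hb, hY⟩ := hA
  have hi : Integrable (Set.indicator (Metric.closedBall (0:ℂ) Y) (fun _ => B)) := by
    refine IntegrableOn.integrable_indicator ?_ measurableSet_closedBall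
    exact integrableOn_const (hs := measure_closedBall_lt_top.ne)
  refine hi.mono' hm.aestronglyMeasurable (Eventually.of_forall fun x => ?_)
  by_cases hx : x ∈ Metric.closedBall (0:ℂ) Y
  · rw [Set.indicator_of_mem hx]
    exact hb x
  · rw [Set.indicator_of_notMem hx]
    rw [mem_closedBall_zero_iff, not_le] at hx
    rw [hY x hx, norm_zero]

private theorem Rad_A_mul {h : ℂ → ℂ} (hA : Rad_A h) (c : ℂ) {k : ℂ → ℝ} (hk : Continuous k)
    (hk2 : ∀ x, |k x| ≤ 2 * ‖x‖) : Rad_A (fun x => c * (k x : ℂ) * h x) := by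
  obtain ⟨hm, B, Y, hb, hY⟩ := hA
  have hB : 0 ≤ B := le_trans (norm_nonneg _) (hb 0)
  refine ⟨?_, ‖c‖ * (2 * |Y|) * B, Y, fun x => ?_, fun x hx => ?_⟩
  · have : Measurable fun x => (k x : ℂ) := (Complex.continuous_ofReal.comp hk).measurable
    exact (this.const_mul c).mul hm
  · beta_reduce
    by_cases hx : Y < ‖x‖
    · rw [hY x hx, mul_zero, norm_zero]
      positivity
    · push Not at hx
      rw [norm_mul, norm_mul, Complex.norm_real, Real.norm_eq_abs]
      have h1 : |k x| ≤ 2 * |Y| := (hk2 x).trans (by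
        have := hx.trans (le_abs_self Y)
        linarith)
      gcongr
      exact hb x
  · beta_reduce
    rw [hY x hx, mul_zero]

private theorem Rad_A_ee {h : ℂ → ℂ} (hA : Rad_A h) {k : ℂ → ℝ} (hk : Continuous k) (r : ℝ) :
    Integrable (fun x => ee (-(r * k x)) * h x) := by
  obtain ⟨hm, B, Y, hb, hY⟩ := hA
  have hc : Continuous fun x => ee (-(r * k x)) :=
    continuous_ee.comp ((continuous_const.mul hk).neg)
  refine Rad_A_int ⟨hc.measurable.mul hm, B, Y, fun x => ?_, fun x hx => ?_⟩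
  · rw [norm_mul, norm_ee, one_mul]
    exact hb x
  · beta_reduce
    rw [hY x hx, mul_zero]

private theorem Rad_ee_deriv (k r : ℝ) :
    HasDerivAt (fun r : ℝ => ee (-(r * k))) (ee (-(r * k)) * (-(2 * π * I) * (k : ℂ))) r := by
  unfold ee
  have h1 : HasDerivAt (fun r : ℝ => ((2 * π * (-(r * k)) : ℝ) : ℂ) * I)
      (((2 * π * (-(1 * k)) : ℝ) : ℂ) * I) r := by
    have h0 : HasDerivAt (fun r : ℝ => 2 * π * (-(r * k))) (2 * π * (-(1 * k))) r :=
      (((hasDerivAt_id r).mul_const k).neg).const_mul (2 * π)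
    exact h0.ofReal_comp.mul_const I
  have h2 := h1.cexp
  convert h2 using 1
  push_cast
  ring

private theorem Rad_phi {h : ℂ → ℂ} (hA : Rad_A h) (θ r : ℝ) :
    HasDerivAt (fun r : ℝ => ∫ x, ee (-(r * Rad_k θ x)) * h x)
      (∫ x, ee (-(r * Rad_k θ x)) * (-(2 * π * I) * (Rad_k θ x : ℂ) * h x)) r := by
  have hA1 := Rad_A_mul hA (-(2 * π * I)) (Rad_k_cont θ) (Rad_k_le θ)
  have hk := Rad_k_cont θ
  refine (hasDerivAt_integral_of_dominated_loc_of_deriv_le (F := fun (r : ℝ) x => ee (-(r * Rad_k θ x)) * h x)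
    (F' := fun (r : ℝ) x => ee (-(r * Rad_k θ x)) * (-(2 * π * I) * (Rad_k θ x : ℂ) * h x))
    (bound := fun x => ‖-(2 * π * I) * (Rad_k θ x : ℂ) * h x‖) (s := Set.univ) (x₀ := r)
    Filter.univ_mem ?_ ?_ ?_ ?_ ?_ ?_).2
  · exact Eventually.of_forall fun r => (Rad_A_ee hA hk r).aestronglyMeasurable
  · exact Rad_A_ee hA hk r
  · exact (Rad_A_ee hA1 hk r).aestronglyMeasurable
  · refine Eventually.of_forall fun x r _ => ?_
    rw [norm_mul, norm_ee, one_mul]
  · exact (Rad_A_int hA1).norm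
  · refine Eventually.of_forall fun x r _ => ?_
    have h1 := (Rad_ee_deriv (Rad_k θ x) r).mul_const (h x)
    have h2 : ee (-(r * Rad_k θ x)) * (-(2 * π * I) * (Rad_k θ x : ℂ) * h x) =
        ee (-(r * Rad_k θ x)) * (-(2 * π * I) * (Rad_k θ x : ℂ)) * h x := by ring
    rw [h2]
    exact h1

private theorem Rad_ft (θ r : ℝ) (G : ℂ → ℝ) :
    ft G (r * rot θ) = ∫ x, ee (-(r * Rad_k θ x)) * (G x : ℂ) := by
  unfold ft
  simp only [Rad_ip]

private theorem Rad_A_of {G : ℂ → ℝ} (hm : Measurable G) {B Y : ℝ} (hb : ∀ x, |G x| ≤ B)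
    (hY : ∀ x, Y < ‖x‖ → G x = 0) : Rad_A (fun x => (G x : ℂ)) := by
  refine ⟨Complex.measurable_ofReal.comp hm, B, Y, fun x => ?_, fun x hx => ?_⟩
  · rw [Complex.norm_real, Real.norm_eq_abs]
    exact hb x
  · beta_reduce
    rw [hY x hx, Complex.ofReal_zero]

private theorem Rad_A_re {h : ℂ → ℂ} (hA : Rad_A h) : Rad_A (fun x => (x.re : ℂ) * h x) := by
  have h1 := Rad_A_mul hA 1 Complex.continuous_re (fun x => by
    have := Complex.abs_re_le_norm x
    have := norm_nonneg x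
    linarith)
  simpa only [one_mul] using h1

private theorem Rad_A_im {h : ℂ → ℂ} (hA : Rad_A h) : Rad_A (fun x => (x.im : ℂ) * h x) := by
  have h1 := Rad_A_mul hA 1 Complex.continuous_im (fun x => by
    have := Complex.abs_im_le_norm x
    have := norm_nonneg x
    linarith)
  simpa only [one_mul] using h1

private theorem Rad_norm_c : ‖-(2 * (π : ℂ) * I)‖ = 2 * π := by
  rw [norm_neg, norm_mul, norm_mul, Complex.norm_I, mul_one, Complex.norm_real, Complex.norm_ofNat,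
    Real.norm_eq_abs, abs_of_pos Real.pi_pos]

/-- The first moment. -/
private theorem Rad_one {h : ℂ → ℂ} (hA : Rad_A h) (θ r : ℝ) :
    ∫ x, ee (-(r * Rad_k θ x)) * (-(2 * π * I) * (Rad_k θ x : ℂ) * h x) =
      -(2 * π * I) * ((Real.cos θ : ℂ) * (∫ x, ee (-(r * Rad_k θ x)) * ((x.re : ℂ) * h x)) +
        (Real.sin θ : ℂ) * ∫ x, ee (-(r * Rad_k θ x)) * ((x.im : ℂ) * h x)) := by
  have hk := Rad_k_cont θ
  have i1 := (Rad_A_ee (Rad_A_re hA) hk r).const_mul (Real.cos θ : ℂ)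
  have i2 := (Rad_A_ee (Rad_A_im hA) hk r).const_mul (Real.sin θ : ℂ)
  rw [← integral_const_mul, ← integral_const_mul, ← integral_add i1 i2, ← integral_const_mul]
  refine integral_congr_ae (Eventually.of_forall fun x => ?_)
  simp only [Rad_k]
  push_cast
  ring

theorem rad_deriv {g : ℂ → ℝ} (hm : Measurable g) {B Y : ℝ} (hb : ∀ x, |g x| ≤ B)
    (hY : ∀ x, Y < ‖x‖ → g x = 0) (θ : ℝ) :
    ∃ F' F'' : ℝ → ℂ, (∀ r, HasDerivAt (fun r : ℝ => ft g (r * rot θ)) (F' r) r) ∧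
      (∀ r, HasDerivAt F' (F'' r) r) ∧ Continuous F'' ∧
      (∀ r : ℝ, ‖F' r‖ ≤ 7 * (‖ft (fun x => x.re * g x) (r * rot θ)‖ +
        ‖ft (fun x => x.im * g x) (r * rot θ)‖)) ∧
      (∀ r : ℝ, ‖F'' r‖ ≤ 40 * (‖ft (fun x => x.re ^ 2 * g x) (r * rot θ)‖ +
        2 * ‖ft (fun x => x.re * x.im * g x) (r * rot θ)‖ +
        ‖ft (fun x => x.im ^ 2 * g x) (r * rot θ)‖)) := by
  have hA : Rad_A (fun x => (g x : ℂ)) := Rad_A_of hm hb hY
  have hk := Rad_k_cont θ
  have hA1 := Rad_A_mul hA (-(2 * π * I)) hk (Rad_k_le θ)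
  have hA2 := Rad_A_mul hA1 (-(2 * π * I)) hk (Rad_k_le θ)
  have hpi : 2 * π ≤ 7 := by
    have := Real.pi_lt_d2
    linarith
  have hpi2 : (2 * π) * (2 * π) ≤ 40 := by
    have h1 := Real.pi_lt_d2
    have h2 := Real.pi_pos
    nlinarith
  have hc := Real.abs_cos_le_one θ
  have hs := Real.abs_sin_le_one θ
  refine ⟨fun r => ∫ x, ee (-(r * Rad_k θ x)) * (-(2 * π * I) * (Rad_k θ x : ℂ) * (g x : ℂ)),
    fun r => ∫ x, ee (-(r * Rad_k θ x)) * (-(2 * π * I) * (Rad_k θ x : ℂ) *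
      (-(2 * π * I) * (Rad_k θ x : ℂ) * (g x : ℂ))), fun r => ?_, fun r => Rad_phi hA1 θ r, ?_,
    fun r => ?_, fun r => ?_⟩
  · have h1 := Rad_phi hA θ r
    simp only [Rad_ft]
    exact h1
  · exact continuous_iff_continuousAt.2 fun r => (Rad_phi hA2 θ r).continuousAt
  · have h1 := Rad_one hA θ r
    beta_reduce
    rw [h1, norm_mul, Rad_norm_c, Rad_ft, Rad_ft]
    simp only [Complex.ofReal_mul]
    refine (mul_le_mul_of_nonneg_left (norm_add_le _ _) (by positivity)).trans ?_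
    rw [norm_mul, norm_mul, Complex.norm_real, Complex.norm_real, Real.norm_eq_abs, Real.norm_eq_abs]
    refine mul_le_mul hpi (add_le_add ?_ ?_) (by positivity) (by norm_num)
    · exact mul_le_of_le_one_left (norm_nonneg _) hc
    · exact mul_le_of_le_one_left (norm_nonneg _) hs
  · have h1 := Rad_one hA1 θ r
    have e1 : ∀ x : ℂ, (x.re : ℂ) * (-(2 * π * I) * (Rad_k θ x : ℂ) * (g x : ℂ)) =
        -(2 * π * I) * (Rad_k θ x : ℂ) * ((x.re : ℂ) * (g x : ℂ)) := fun x => by ring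
    have e2 : ∀ x : ℂ, (x.im : ℂ) * (-(2 * π * I) * (Rad_k θ x : ℂ) * (g x : ℂ)) =
        -(2 * π * I) * (Rad_k θ x : ℂ) * ((x.im : ℂ) * (g x : ℂ)) := fun x => by ring
    beta_reduce
    rw [h1]
    simp only [e1, e2]
    rw [Rad_one (Rad_A_re hA) θ r, Rad_one (Rad_A_im hA) θ r, Rad_ft, Rad_ft, Rad_ft]
    set a := ∫ x, ee (-(r * Rad_k θ x)) * ((x.re : ℂ) * ((x.re : ℂ) * (g x : ℂ))) with ha
    set b := ∫ x, ee (-(r * Rad_k θ x)) * ((x.im : ℂ) * ((x.re : ℂ) * (g x : ℂ))) with hb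
    set b' := ∫ x, ee (-(r * Rad_k θ x)) * ((x.re : ℂ) * ((x.im : ℂ) * (g x : ℂ))) with hb'
    set d := ∫ x, ee (-(r * Rad_k θ x)) * ((x.im : ℂ) * ((x.im : ℂ) * (g x : ℂ))) with hd
    have f1 : ∫ x, ee (-(r * Rad_k θ x)) * ((x.re ^ 2 * g x : ℝ) : ℂ) = a := by
      rw [ha]
      refine integral_congr_ae (Eventually.of_forall fun x => ?_)
      push_cast
      ring
    have f2 : ∫ x, ee (-(r * Rad_k θ x)) * ((x.re * x.im * g x : ℝ) : ℂ) = b := by
      rw [hb]
      refine integral_congr_ae (Eventually.of_forall fun x => ?_)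
      push_cast
      ring
    have f3 : ∫ x, ee (-(r * Rad_k θ x)) * ((x.im ^ 2 * g x : ℝ) : ℂ) = d := by
      rw [hd]
      refine integral_congr_ae (Eventually.of_forall fun x => ?_)
      push_cast
      ring
    have f4 : b' = b := by
      rw [hb, hb']
      refine integral_congr_ae (Eventually.of_forall fun x => ?_)
      ring
    rw [f1, f2, f3, f4]
    have e3 : -(2 * (π : ℂ) * I) * ((Real.cos θ : ℂ) * (-(2 * π * I) * ((Real.cos θ : ℂ) * a + (Real.sin θ : ℂ) * b)) +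
        (Real.sin θ : ℂ) * (-(2 * π * I) * ((Real.cos θ : ℂ) * b + (Real.sin θ : ℂ) * d))) =
        (-(2 * (π : ℂ) * I) * -(2 * π * I)) * (((Real.cos θ : ℂ) * (Real.cos θ : ℂ)) * a +
          ((Real.cos θ : ℂ) * (Real.sin θ : ℂ)) * b + (((Real.cos θ : ℂ) * (Real.sin θ : ℂ)) * b +
          ((Real.sin θ : ℂ) * (Real.sin θ : ℂ)) * d)) := by ring
    rw [e3, norm_mul, norm_mul, Rad_norm_c]
    have g1 : ‖((Real.cos θ : ℂ) * (Real.cos θ : ℂ)) * a‖ ≤ ‖a‖ := by
      rw [norm_mul, norm_mul, Complex.norm_real, Real.norm_eq_abs]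
      exact mul_le_of_le_one_left (norm_nonneg _) (mul_le_one₀ hc (abs_nonneg _) hc)
    have g2 : ‖((Real.cos θ : ℂ) * (Real.sin θ : ℂ)) * b‖ ≤ ‖b‖ := by
      rw [norm_mul, norm_mul, Complex.norm_real, Complex.norm_real, Real.norm_eq_abs, Real.norm_eq_abs]
      exact mul_le_of_le_one_left (norm_nonneg _) (mul_le_one₀ hc (abs_nonneg _) hs)
    have g3 : ‖((Real.sin θ : ℂ) * (Real.sin θ : ℂ)) * d‖ ≤ ‖d‖ := by
      rw [norm_mul, norm_mul, Complex.norm_real, Real.norm_eq_abs]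
      exact mul_le_of_le_one_left (norm_nonneg _) (mul_le_one₀ hs (abs_nonneg _) hs)
    refine mul_le_mul hpi2 ?_ (norm_nonneg _) (by norm_num)
    refine (norm_add_le _ _).trans ?_
    have g4 := norm_add_le (((Real.cos θ : ℂ) * (Real.cos θ : ℂ)) * a)
      (((Real.cos θ : ℂ) * (Real.sin θ : ℂ)) * b)
    have g5 := norm_add_le (((Real.cos θ : ℂ) * (Real.sin θ : ℂ)) * b)
      (((Real.sin θ : ℂ) * (Real.sin θ : ℂ)) * d)
    linarith

end Pool.MPb9430d.Frac
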