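import Pool.Agent.Lib.MP_b9430d_co.Frac.Node
import Pool.Agent.Lib.MP_b9430d_co.Frac.Pol
import Pool.Agent.Lib.MP_b9430d_co.Frac.Lin1
import Pool.Agent.Lib.MP_b9430d_co.Frac.Rad
import Pool.Agent.Lib.MP_b9430d_co.Frac.Pl
import Pool.Agent.Lib.MP_b9430d_co.Frac.FtB

/-!
# FarL: interpolation error for functions supported in a disc of radius `Y ≥ √N`

`w = 8/√N`, `N ≥ 16`, so `w ≤ N/8`... (only `2w ≤ N/2` is used: `w ≤ 2 ≤ N/8`). For `r ∈ [N, 2N)`:
`‖lin (ft g) θ r‖² ≤ 3 (‖F r‖² + ‖F (lo r)‖² + ‖F (hi r)‖²)` (the weights are in `[0,1]`), and for `t = lo r, hi r` (`|t - r| ≤ w`)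
`sob`: `‖F t‖² ≤ w⁻¹ ∫_{r-2w}^{r+2w} ‖F‖² + 2 ∫_{r-2w}^{r+2w} ‖F‖‖F'‖`. Multiply by `r ≤ 2s` and integrate over `r` (Tonelli:
each `s` is hit for a set of `r` of length `≤ 4w`): `≤ C ∫_{N/2}^{3N} s (‖F‖² + w ‖F‖‖F'‖) ds`, and
`w‖F‖‖F'‖ ≤ wY‖F‖² + (w/Y)‖F'‖²` . With `rad_deriv` and `plancherel` in polar coordinates:
`∫∫ s‖F‖² ≤ ∫ g²`, `∫∫ s ‖F'‖² ≤ 98 ∫ (x.re² + x.im²) g² ≤ 98 Y² ∫ g²` (`g = 0` outside the disc of radius `Y`).
Total `≤ C (1 + wY) ∫ g² ≤ C' (Y/√N) ∫ g²` since `Y ≥ √N`.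
-/

set_option autoImplicit false

open MeasureTheory Complex Set Real Filter Topology
open scoped ENNReal

namespace Pool.MPb9430d.Frac

open Pool.MPb9430d Pool.MPb9430d.Rough

private theorem farL_int {g : ℂ → ℝ} (hm : Measurable g) {B Y : ℝ} (hb : ∀ x, |g x| ≤ B)
    (hY : ∀ x, Y < ‖x‖ → g x = 0) : Integrable g := by
  have hc : Integrable ((Metric.closedBall (0 : ℂ) Y).indicator fun _ => B) := by
    rw [integrable_indicator_iff Metric.isClosed_closedBall.measurableSet]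
    exact integrableOn_const (by
      exact (isCompact_closedBall (0 : ℂ) Y).measure_lt_top.ne)
  refine hc.mono' hm.aestronglyMeasurable (Filter.Eventually.of_forall fun x => ?_)
  by_cases hx : x ∈ Metric.closedBall (0 : ℂ) Y
  · rw [Set.indicator_of_mem hx, Real.norm_eq_abs]
    exact hb x
  · rw [Set.indicator_of_notMem hx, hY x ?_, norm_zero]
    rw [Metric.mem_closedBall, dist_zero_right, not_le] at hx
    exact hx

/-- Tonelli: averages over the windows of half-length `2w`. -/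
private theorem farL_ton {Φ : ℝ → ℝ} (hΦ : Continuous Φ) (h0 : ∀ s, 0 ≤ Φ s) {N w : ℝ}
    (hN : 16 ≤ N) (hw0 : 0 < w) (hw : w ≤ 2) :
    ∫⁻ r in Ico N (2 * N), ENNReal.ofReal r *
      ENNReal.ofReal (9 * ∫ s in (r - 2 * w)..(r + 2 * w), Φ s) ≤
    ∫⁻ s in Ico (N / 2) (3 * N), ENNReal.ofReal s * ENNReal.ofReal (72 * w * Φ s) := by
  set K : ℝ → ℝ → ℝ≥0∞ := fun r s =>
    ({z : ℝ × ℝ | z.1 ∈ Ico N (2 * N) ∧ z.2 ∈ Ioc (z.1 - 2 * w) (z.1 + 2 * w)}).indicator
      (fun z => ENNReal.ofReal (9 * z.1) * ENNReal.ofReal (Φ z.2)) (r, s) with hK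
  have hset : MeasurableSet {z : ℝ × ℝ | z.1 ∈ Ico N (2 * N) ∧
      z.2 ∈ Ioc (z.1 - 2 * w) (z.1 + 2 * w)} := by
    refine MeasurableSet.inter (measurable_fst measurableSet_Ico) ?_
    have h1 : MeasurableSet {z : ℝ × ℝ | z.1 - 2 * w < z.2} :=
      measurableSet_lt (measurable_fst.sub_const _) measurable_snd
    have h2 : MeasurableSet {z : ℝ × ℝ | z.2 ≤ z.1 + 2 * w} :=
      measurableSet_le measurable_snd (measurable_fst.add_const _)
    exact h1.inter h2
  have hKm : Measurable (Function.uncurry K) := by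
    have h1 : Measurable fun z : ℝ × ℝ => ENNReal.ofReal (9 * z.1) :=
      ENNReal.measurable_ofReal.comp (measurable_fst.const_mul 9)
    have h2 : Measurable fun z : ℝ × ℝ => ENNReal.ofReal (Φ z.2) :=
      ENNReal.measurable_ofReal.comp (hΦ.measurable.comp measurable_snd)
    have h3 : Measurable fun z : ℝ × ℝ => ENNReal.ofReal (9 * z.1) * ENNReal.ofReal (Φ z.2) :=
      h1.mul h2
    exact h3.indicator hset
  have e1 : ∫⁻ r in Ico N (2 * N), ENNReal.ofReal r *
      ENNReal.ofReal (9 * ∫ s in (r - 2 * w)..(r + 2 * w), Φ s) = ∫⁻ r, ∫⁻ s, K r s := by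
    rw [← lintegral_indicator measurableSet_Ico]
    refine lintegral_congr fun r => ?_
    by_cases hr : r ∈ Ico N (2 * N)
    · rw [Set.indicator_of_mem hr]
      have hr0 : 0 ≤ r := by linarith [hr.1]
      have e2 : ENNReal.ofReal (∫ s in (r - 2 * w)..(r + 2 * w), Φ s) =
          ∫⁻ s in Ioc (r - 2 * w) (r + 2 * w), ENNReal.ofReal (Φ s) := by
        rw [intervalIntegral.integral_of_le (by linarith)]
        exact ofReal_integral_eq_lintegral_ofReal
          ((hΦ.integrableOn_Icc (a := r - 2 * w) (b := r + 2 * w)).mono_set Ioc_subset_Icc_self)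
          (Filter.Eventually.of_forall fun s => h0 s)
      have e3 : ∀ s, K r s = (Ioc (r - 2 * w) (r + 2 * w)).indicator
          (fun s => ENNReal.ofReal (9 * r) * ENNReal.ofReal (Φ s)) s := by
        intro s
        by_cases hs : s ∈ Ioc (r - 2 * w) (r + 2 * w)
        · rw [Set.indicator_of_mem hs, hK]
          exact Set.indicator_of_mem (s := {z : ℝ × ℝ | z.1 ∈ Ico N (2 * N) ∧
            z.2 ∈ Ioc (z.1 - 2 * w) (z.1 + 2 * w)}) ⟨hr, hs⟩ _
        · rw [Set.indicator_of_notMem hs, hK]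
          exact Set.indicator_of_notMem (s := {z : ℝ × ℝ | z.1 ∈ Ico N (2 * N) ∧
            z.2 ∈ Ioc (z.1 - 2 * w) (z.1 + 2 * w)}) (fun h => hs h.2) _
      have hΦm : Measurable fun s => ENNReal.ofReal (Φ s) :=
        ENNReal.measurable_ofReal.comp hΦ.measurable
      rw [lintegral_congr e3, lintegral_indicator measurableSet_Ioc,
        lintegral_const_mul _ hΦm, ← e2,
        ENNReal.ofReal_mul (by norm_num : (0 : ℝ) ≤ 9), ENNReal.ofReal_mul (by norm_num : (0 : ℝ) ≤ 9)]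
      ring
    · rw [Set.indicator_of_notMem hr]
      symm
      have e3 : ∀ s, K r s = 0 := by
        intro s
        rw [hK]
        exact Set.indicator_of_notMem (s := {z : ℝ × ℝ | z.1 ∈ Ico N (2 * N) ∧
            z.2 ∈ Ioc (z.1 - 2 * w) (z.1 + 2 * w)}) (fun h => hr h.1) _
      rw [lintegral_congr e3, lintegral_zero]
  rw [e1, lintegral_lintegral_swap hKm.aemeasurable, ← lintegral_indicator measurableSet_Ico]
  refine lintegral_mono fun s => ?_
  by_cases hs : s ∈ Ico (N / 2) (3 * N)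
  · rw [Set.indicator_of_mem hs]
    have hs0 : 0 ≤ s := by linarith [hs.1]
    have h1 : ∀ r, K r s ≤ (Icc (s - 2 * w) (s + 2 * w)).indicator
        (fun _ => ENNReal.ofReal (18 * s) * ENNReal.ofReal (Φ s)) r := by
      intro r
      by_cases hrs : (r, s) ∈ {z : ℝ × ℝ | z.1 ∈ Ico N (2 * N) ∧
          z.2 ∈ Ioc (z.1 - 2 * w) (z.1 + 2 * w)}
      · have hr1 : N ≤ r := hrs.1.1
        have hr2 : r - 2 * w < s := hrs.2.1
        have hr3 : s ≤ r + 2 * w := hrs.2.2
        rw [Set.indicator_of_mem (s := Icc (s - 2 * w) (s + 2 * w))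
          (⟨by linarith, by linarith⟩ : r ∈ Icc (s - 2 * w) (s + 2 * w)), hK]
        simp only
        rw [Set.indicator_of_mem hrs]
        refine mul_le_mul_left ?_ _
        exact ENNReal.ofReal_le_ofReal (by linarith)
      · rw [hK]
        simp only
        rw [Set.indicator_of_notMem hrs]
        exact bot_le
    refine (lintegral_mono h1).trans ?_
    rw [lintegral_indicator measurableSet_Icc, lintegral_const, Measure.restrict_apply MeasurableSet.univ,
      Set.univ_inter, Real.volume_Icc, ← ENNReal.ofReal_mul (by positivity), ← ENNReal.ofReal_mul (by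
        have := h0 s
        positivity), ← ENNReal.ofReal_mul hs0]
    refine ENNReal.ofReal_le_ofReal (le_of_eq ?_)
    ring
  · rw [Set.indicator_of_notMem hs]
    have h1 : ∀ r, K r s = 0 := by
      intro r
      rw [hK]
      refine Set.indicator_of_notMem (s := {z : ℝ × ℝ | z.1 ∈ Ico N (2 * N) ∧
            z.2 ∈ Ioc (z.1 - 2 * w) (z.1 + 2 * w)}) (fun h => hs ?_) _
      have hr1 : N ≤ r := h.1.1
      have hr4 : r < 2 * N := h.1.2
      have hr2 : r - 2 * w < s := h.2.1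
      have hr3 : s ≤ r + 2 * w := h.2.2
      exact ⟨by linarith, by linarith⟩
    rw [lintegral_congr h1, lintegral_zero]

/-- the pointwise bound of the interpolation error -/
private theorem farL_lin {G : ℂ → ℂ} {θ r w S : ℝ} (hr : 1 ≤ r) (hw : 8 / √r ≤ w)
    (hS : ∀ t, |t - r| ≤ w → ‖G (t * rot θ)‖ ^ 2 ≤ S) : ‖lin G θ r‖ ^ 2 ≤ 9 * S := by
  have h1 := lo_le hr
  have h2 := lt_hi hr
  have h3 := hi_sub_lo hr
  have hd : 0 < hi r - lo r := by linarith
  have a1 := hS r (by rw [sub_self, abs_zero]; linarith)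
  have a2 := hS (lo r) (by rw [abs_le]; constructor <;> linarith)
  have a3 := hS (hi r) (by rw [abs_le]; constructor <;> linarith)
  have hα0 : 0 ≤ (hi r - r) / (hi r - lo r) := div_nonneg (by linarith) hd.le
  have hα1 : (hi r - r) / (hi r - lo r) ≤ 1 := (div_le_one hd).2 (by linarith)
  have hβ0 : 0 ≤ (r - lo r) / (hi r - lo r) := div_nonneg (by linarith) hd.le
  have hβ1 : (r - lo r) / (hi r - lo r) ≤ 1 := (div_le_one hd).2 (by linarith)
  set α := (hi r - r) / (hi r - lo r) with hα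
  set β := (r - lo r) / (hi r - lo r) with hβ
  have hn : ‖lin G θ r‖ ≤ ‖G (r * rot θ)‖ + ‖G (lo r * rot θ)‖ + ‖G (hi r * rot θ)‖ := by
    unfold lin
    refine (norm_sub_le _ _).trans (add_le_add ((norm_sub_le _ _).trans (add_le_add le_rfl ?_)) ?_)
    · rw [norm_mul, Complex.norm_real, Real.norm_eq_abs, abs_of_nonneg hα0]
      exact mul_le_of_le_one_left (norm_nonneg _) hα1
    · rw [norm_mul, Complex.norm_real, Real.norm_eq_abs, abs_of_nonneg hβ0]
      exact mul_le_of_le_one_left (norm_nonneg _) hβ1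
  have hn2 : ‖lin G θ r‖ ^ 2 ≤
      (‖G (r * rot θ)‖ + ‖G (lo r * rot θ)‖ + ‖G (hi r * rot θ)‖) ^ 2 :=
    pow_le_pow_left₀ (norm_nonneg _) hn 2
  generalize ‖G (r * rot θ)‖ = x at *
  generalize ‖G (lo r * rot θ)‖ = y at *
  generalize ‖G (hi r * rot θ)‖ = z at *
  nlinarith [sq_nonneg (x - y), sq_nonneg (y - z), sq_nonneg (x - z)]

theorem far_l2 : ∃ C : ℝ, 0 < C ∧ ∀ g : ℂ → ℝ, Measurable g → (∀ x, |g x| ≤ 1) → ∀ N Y : ℝ,
    16 ≤ N → √N ≤ Y → (∀ x, Y < ‖x‖ → g x = 0) →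
    ∫⁻ θ in Ioc (-π) π, ∫⁻ r in Ico N (2 * N), ENNReal.ofReal r * ‖lin (ft g) θ r‖ₑ ^ 2 ≤
      ENNReal.ofReal (C * (Y / √N) * ∫ x, (g x) ^ 2) := by
  refine ⟨57096, by norm_num, ?_⟩
  intro g hm hb N Y hN hNY hY
  have hq4 : (4 : ℝ) ≤ √N := by
    rw [show (4 : ℝ) = √16 by rw [show (16 : ℝ) = 4 ^ 2 by norm_num]; exact (Real.sqrt_sq (by norm_num)).symm]
    exact Real.sqrt_le_sqrt hN
  have hq0 : 0 < √N := by linarith
  have hY0 : 0 < Y := by linarith
  obtain ⟨w, hw⟩ : ∃ w : ℝ, w = 8 / √N := ⟨_, rfl⟩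
  have hw0 : 0 < w := by rw [hw]; positivity
  have hw2 : w ≤ 2 := by
    rw [hw, div_le_iff₀ hq0]
    linarith
  -- the three functions
  have hgint : Integrable g := farL_int hm hb hY
  have hre : Measurable fun x : ℂ => x.re * g x := Complex.measurable_re.mul hm
  have him : Measurable fun x : ℂ => x.im * g x := Complex.measurable_im.mul hm
  have hreB : ∀ x : ℂ, |x.re * g x| ≤ Y := by
    intro x
    by_cases hx : Y < ‖x‖
    · rw [hY x hx, mul_zero, abs_zero]
      exact hY0.le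
    · push Not at hx
      rw [abs_mul]
      calc |x.re| * |g x| ≤ ‖x‖ * 1 :=
            mul_le_mul (Complex.abs_re_le_norm x) (hb x) (abs_nonneg _) (norm_nonneg _)
        _ ≤ Y := by rw [mul_one]; exact hx
  have himB : ∀ x : ℂ, |x.im * g x| ≤ Y := by
    intro x
    by_cases hx : Y < ‖x‖
    · rw [hY x hx, mul_zero, abs_zero]
      exact hY0.le
    · push Not at hx
      rw [abs_mul]
      calc |x.im| * |g x| ≤ ‖x‖ * 1 :=
            mul_le_mul (Complex.abs_im_le_norm x) (hb x) (abs_nonneg _) (norm_nonneg _)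
        _ ≤ Y := by rw [mul_one]; exact hx
  have hreS : ∀ x : ℂ, Y < ‖x‖ → x.re * g x = 0 := fun x hx => by rw [hY x hx, mul_zero]
  have himS : ∀ x : ℂ, Y < ‖x‖ → x.im * g x = 0 := fun x hx => by rw [hY x hx, mul_zero]
  have hreint : Integrable fun x : ℂ => x.re * g x := farL_int hre hreB hreS
  have himint : Integrable fun x : ℂ => x.im * g x := farL_int him himB himS
  have P0 := plancherel hm hgint hb
  have P1 := plancherel hre hreint hreB
  have P2 := plancherel him himint himB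
  set H : ℂ → ℝ := fun y => 72 * (1 + w * Y) * ‖ft g y‖ ^ 2 +
    7056 * (w / Y) * (‖ft (fun x => x.re * g x) y‖ ^ 2 + ‖ft (fun x => x.im * g x) y‖ ^ 2) with hH
  have hHc : Continuous H := by
    have c0 := (continuous_ft hgint).norm
    have c1 := (continuous_ft hreint).norm
    have c2 := (continuous_ft himint).norm
    exact ((continuous_const.mul (c0.pow 2)).add
      (continuous_const.mul ((c1.pow 2).add (c2.pow 2))))
  have hH0 : ∀ y, 0 ≤ H y := fun y => by
    rw [hH]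
    positivity
  -- the inner inequality
  have inner : ∀ θ : ℝ, ∫⁻ r in Ico N (2 * N), ENNReal.ofReal r * ‖lin (ft g) θ r‖ₑ ^ 2 ≤
      ∫⁻ s in Ico (N / 2) (3 * N), ENNReal.ofReal s * ENNReal.ofReal (H (s * rot θ)) := by
    intro θ
    obtain ⟨F', F'', h1, h2, hc, hb1, -⟩ := rad_deriv hm hb hY θ
    have hFc : Continuous fun r : ℝ => ft g (r * rot θ) :=
      continuous_iff_continuousAt.2 fun r => (h1 r).continuousAt
    have hFc' : Continuous F' := continuous_iff_continuousAt.2 fun r => (h2 r).continuousAt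
    set Φ : ℝ → ℝ := fun s => w⁻¹ * ‖ft g (s * rot θ)‖ ^ 2 +
      2 * (‖ft g (s * rot θ)‖ * ‖F' s‖) with hΦ
    have hΦc : Continuous Φ := (continuous_const.mul (hFc.norm.pow 2)).add
      (continuous_const.mul (hFc.norm.mul hFc'.norm))
    have hΦ0 : ∀ s, 0 ≤ Φ s := fun s => by
      rw [hΦ]
      positivity
    have hS : ∀ r t : ℝ, |t - r| ≤ w → ‖ft g (t * rot θ)‖ ^ 2 ≤
        ∫ s in (r - 2 * w)..(r + 2 * w), Φ s := by
      intro r t ht
      refine (sob h1 hFc' hw0 ht).trans (le_of_eq ?_)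
      have i1 : IntervalIntegrable (fun s : ℝ => w⁻¹ * ‖ft g (s * rot θ)‖ ^ 2) volume
          (r - 2 * w) (r + 2 * w) :=
        (continuous_const.mul (hFc.norm.pow 2)).intervalIntegrable _ _
      have i2 : IntervalIntegrable (fun s : ℝ => 2 * (‖ft g (s * rot θ)‖ * ‖F' s‖)) volume
          (r - 2 * w) (r + 2 * w) :=
        (continuous_const.mul (hFc.norm.mul hFc'.norm)).intervalIntegrable _ _
      show _ = ∫ s in (r - 2 * w)..(r + 2 * w), (w⁻¹ * ‖ft g (s * rot θ)‖ ^ 2 +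
        2 * (‖ft g (s * rot θ)‖ * ‖F' s‖))
      rw [intervalIntegral.integral_add i1 i2,
        intervalIntegral.integral_const_mul, intervalIntegral.integral_const_mul]
    calc ∫⁻ r in Ico N (2 * N), ENNReal.ofReal r * ‖lin (ft g) θ r‖ₑ ^ 2
        ≤ ∫⁻ r in Ico N (2 * N), ENNReal.ofReal r *
          ENNReal.ofReal (9 * ∫ s in (r - 2 * w)..(r + 2 * w), Φ s) := by
          refine setLIntegral_mono' measurableSet_Ico fun r hr => ?_
          refine mul_le_mul_right ?_ _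
          have hr1 : 1 ≤ r := by linarith [hr.1]
          have hwr : 8 / √r ≤ w := by
            rw [hw]
            exact div_le_div_of_nonneg_left (by norm_num) hq0 (Real.sqrt_le_sqrt hr.1)
          have h3 := farL_lin (G := ft g) (θ := θ) hr1 hwr (hS r)
          rw [← ofReal_norm, ← ENNReal.ofReal_pow (norm_nonneg _)]
          exact ENNReal.ofReal_le_ofReal h3
      _ ≤ ∫⁻ s in Ico (N / 2) (3 * N), ENNReal.ofReal s * ENNReal.ofReal (72 * w * Φ s) :=
          farL_ton hΦc hΦ0 hN hw0 hw2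
      _ ≤ ∫⁻ s in Ico (N / 2) (3 * N), ENNReal.ofReal s * ENNReal.ofReal (H (s * rot θ)) := by
          refine setLIntegral_mono' measurableSet_Ico fun s hs => ?_
          refine mul_le_mul_right (ENNReal.ofReal_le_ofReal ?_) _
          have hb := hb1 s
          rw [hΦ, hH]
          simp only
          have hn0 := norm_nonneg (ft g (s * rot θ))
          have hn1 := norm_nonneg (F' s)
          have ha0 := norm_nonneg (ft (fun x => x.re * g x) (s * rot θ))
          have hb0 := norm_nonneg (ft (fun x => x.im * g x) (s * rot θ))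
          generalize ‖ft g (s * rot θ)‖ = n at *
          generalize ‖F' s‖ = m at *
          generalize ‖ft (fun x => x.re * g x) (s * rot θ)‖ = a at *
          generalize ‖ft (fun x => x.im * g x) (s * rot θ)‖ = b at *
          have e1 : m ^ 2 ≤ 98 * (a ^ 2 + b ^ 2) := by
            have : m ^ 2 ≤ (7 * (a + b)) ^ 2 := pow_le_pow_left₀ hn1 hb 2
            nlinarith [sq_nonneg (a - b)]
          have e2 : 2 * (n * m) ≤ Y * n ^ 2 + m ^ 2 / Y := by
            have h5 : 0 ≤ (Y * n - m) ^ 2 / Y := by positivity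
            have h6 : (Y * n - m) ^ 2 / Y = Y * n ^ 2 - 2 * (n * m) + m ^ 2 / Y := by
              field_simp
              ring
            linarith
          have e3 : 72 * w * (w⁻¹ * n ^ 2 + 2 * (n * m)) = 72 * n ^ 2 + 72 * w * (2 * (n * m)) := by
            field_simp
          have e4 : m ^ 2 / Y ≤ 98 * (a ^ 2 + b ^ 2) / Y := div_le_div_of_nonneg_right e1 hY0.le
          have e5 : 72 * w * (2 * (n * m)) ≤ 72 * w * (Y * n ^ 2 + 98 * (a ^ 2 + b ^ 2) / Y) :=
            mul_le_mul_of_nonneg_left (by linarith) (by positivity)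
          rw [e3]
          have e6 : 72 * w * (Y * n ^ 2 + 98 * (a ^ 2 + b ^ 2) / Y) =
              72 * (w * Y) * n ^ 2 + 7056 * (w / Y) * (a ^ 2 + b ^ 2) := by
            ring
          linarith
  have hHi : Integrable H := (P0.1.const_mul _).add ((P1.1.add P2.1).const_mul _)
  have hint : ∫ y, H y ≤ 57096 * (Y / √N) * ∫ x, (g x) ^ 2 := by
    have e1 : ∫ y, H y = 72 * (1 + w * Y) * (∫ x, (g x) ^ 2) +
        7056 * (w / Y) * ((∫ x : ℂ, (x.re * g x) ^ 2) + ∫ x : ℂ, (x.im * g x) ^ 2) := by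
      have i1 : Integrable (fun y => 72 * (1 + w * Y) * ‖ft g y‖ ^ 2) := P0.1.const_mul _
      have i2 : Integrable (fun y => 7056 * (w / Y) * (‖ft (fun x => x.re * g x) y‖ ^ 2 +
          ‖ft (fun x => x.im * g x) y‖ ^ 2)) := (P1.1.add P2.1).const_mul _
      show ∫ y, (72 * (1 + w * Y) * ‖ft g y‖ ^ 2 + 7056 * (w / Y) *
        (‖ft (fun x => x.re * g x) y‖ ^ 2 + ‖ft (fun x => x.im * g x) y‖ ^ 2)) = _
      rw [integral_add i1 i2, integral_const_mul,
        integral_const_mul, integral_add P1.1 P2.1, P0.2, P1.2, P2.2]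
    have hg2 : Integrable fun x => (g x) ^ 2 := by
      refine farL_int (hm.pow_const 2) (B := 1) (Y := Y) (fun x => ?_) fun x hx => ?_
      · rw [abs_pow]
        exact pow_le_one₀ (abs_nonneg _) (hb x)
      · rw [hY x hx]
        norm_num
    have hr2 : Integrable fun x : ℂ => (x.re * g x) ^ 2 := by
      refine farL_int (hre.pow_const 2) (B := Y ^ 2) (Y := Y) (fun x => ?_) fun x hx => ?_
      · rw [abs_pow]
        exact pow_le_pow_left₀ (abs_nonneg _) (hreB x) 2
      · rw [hreS x hx]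
        norm_num
    have hi2 : Integrable fun x : ℂ => (x.im * g x) ^ 2 := by
      refine farL_int (him.pow_const 2) (B := Y ^ 2) (Y := Y) (fun x => ?_) fun x hx => ?_
      · rw [abs_pow]
        exact pow_le_pow_left₀ (abs_nonneg _) (himB x) 2
      · rw [himS x hx]
        norm_num
    have e2 : (∫ x : ℂ, (x.re * g x) ^ 2) + ∫ x : ℂ, (x.im * g x) ^ 2 ≤
        Y ^ 2 * ∫ x, (g x) ^ 2 := by
      rw [← integral_add hr2 hi2, ← integral_const_mul]
      refine integral_mono (hr2.add hi2) (hg2.const_mul _) fun x => ?_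
      simp only
      by_cases hx : Y < ‖x‖
      · rw [hY x hx]
        norm_num
      · push Not at hx
        have h7 : x.re ^ 2 + x.im ^ 2 ≤ Y ^ 2 := by
          have h8 : ‖x‖ ^ 2 = x.re ^ 2 + x.im ^ 2 := by
            rw [← Complex.normSq_eq_norm_sq, Complex.normSq_apply]
            ring
          rw [← h8]
          exact pow_le_pow_left₀ (norm_nonneg _) hx 2
        have h9 := mul_le_mul_of_nonneg_right h7 (sq_nonneg (g x))
        nlinarith
    have hI0 : 0 ≤ ∫ x, (g x) ^ 2 := integral_nonneg fun x => sq_nonneg _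
    have e3 : 7056 * (w / Y) * ((∫ x : ℂ, (x.re * g x) ^ 2) + ∫ x : ℂ, (x.im * g x) ^ 2) ≤
        7056 * (w / Y) * (Y ^ 2 * ∫ x, (g x) ^ 2) := mul_le_mul_of_nonneg_left e2 (by positivity)
    have e4 : 7056 * (w / Y) * (Y ^ 2 * ∫ x, (g x) ^ 2) = 7056 * (w * Y) * ∫ x, (g x) ^ 2 := by
      field_simp
    have hwY : w * Y = 8 * (Y / √N) := by rw [hw]; ring
    have h1Y : 1 ≤ Y / √N := (one_le_div hq0).2 hNY
    have h1I : 1 * ∫ x, (g x) ^ 2 ≤ (Y / √N) * ∫ x, (g x) ^ 2 := mul_le_mul_of_nonneg_right h1Y hI0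
    rw [e4, hwY] at e3
    calc ∫ y, H y = 72 * (1 + 8 * (Y / √N)) * (∫ x, (g x) ^ 2) +
        7056 * (w / Y) * ((∫ x : ℂ, (x.re * g x) ^ 2) + ∫ x : ℂ, (x.im * g x) ^ 2) := by
          rw [e1, hwY]
      _ ≤ 72 * (1 + 8 * (Y / √N)) * (∫ x, (g x) ^ 2) + 7056 * (8 * (Y / √N)) * ∫ x, (g x) ^ 2 :=
          add_le_add le_rfl e3
      _ = 72 * (1 * ∫ x, (g x) ^ 2) + 57024 * ((Y / √N) * ∫ x, (g x) ^ 2) := by ring
      _ ≤ 72 * ((Y / √N) * ∫ x, (g x) ^ 2) + 57024 * ((Y / √N) * ∫ x, (g x) ^ 2) :=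
          add_le_add (mul_le_mul_of_nonneg_left h1I (by norm_num)) le_rfl
      _ = 57096 * (Y / √N) * ∫ x, (g x) ^ 2 := by ring
  have hHm : Measurable fun y => ENNReal.ofReal (H y) :=
    ENNReal.measurable_ofReal.comp hHc.measurable
  calc ∫⁻ θ in Ioc (-π) π, ∫⁻ r in Ico N (2 * N), ENNReal.ofReal r * ‖lin (ft g) θ r‖ₑ ^ 2
      ≤ ∫⁻ θ in Ioc (-π) π, ∫⁻ s in Ico (N / 2) (3 * N), ENNReal.ofReal s *
          ENNReal.ofReal (H (s * rot θ)) := lintegral_mono fun θ => inner θ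
    _ = ∫⁻ y in {y : ℂ | N / 2 ≤ ‖y‖ ∧ ‖y‖ < 3 * N}, ENNReal.ofReal (H y) :=
        (lint_polar hHm (by linarith)).symm
    _ ≤ ∫⁻ y, ENNReal.ofReal (H y) := setLIntegral_le_lintegral _ _
    _ = ENNReal.ofReal (∫ y, H y) :=
        (ofReal_integral_eq_lintegral_ofReal hHi (Filter.Eventually.of_forall hH0)).symm
    _ ≤ ENNReal.ofReal (57096 * (Y / √N) * ∫ x, (g x) ^ 2) := ENNReal.ofReal_le_ofReal hint

end Pool.MPb9430d.Frac
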