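import Pool.Agent.Lib.MP_b9430d_co.Frac.Defs

/-!
# Van: the Fourier transform of a Steinhaus set vanishes on the circles through the lattice points

`y = rot θ * lat p` for some `θ` (equal norms: `θ = arg y - arg (lat p)`). Substituting `x = rot θ * u` (rotations
preserve the measure) `ft (chi E) y = ∫_u ee(-(ip u (lat p))) chi E (rot θ * u)`, since `ip (rot θ u) (rot θ w) = ip u w`.
Decompose `ℂ` into the translates of the unit square `Q = [0,1)²` by `lat q` (see `volume_lt_top` in Rough/Escape for the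
same unfolding; `MeasureTheory.IsAddFundamentalDomain.integral_eq_tsum` or a direct argument):
`= ∫_{u∈Q} ∑_q ee(-(ip (u + lat q) (lat p))) chi E (rot θ u + rot θ lat q) = ∫_{u ∈ Q} ee(-(ip u (lat p))) n du`
because `ip (lat q) (lat p) ∈ ℤ` and `∑_q chi E(rot θ u + rot θ lat q) = n` for a.e. `u` (`hT θ` at `x = rot θ u`).
The last integral is `n` times a product of two one-dimensional integrals `∫_0^1 e(-u p.1) du`, one of which is `0`.
-/

set_option autoImplicit false

open MeasureTheory Complex Set Real Filter Topology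
open scoped ENNReal

namespace Pool.MPb9430d.Frac

open Pool.MPb9430d Pool.MPb9430d.Rough

private theorem Van_rot_sq (θ : ℝ) : (rot θ).re ^ 2 + (rot θ).im ^ 2 = 1 := by
  have h := Complex.sq_norm (rot θ)
  rw [norm_rot, Complex.normSq_apply] at h
  linarith

private theorem Van_ip_rot (θ : ℝ) (u w : ℂ) : ip (rot θ * u) (rot θ * w) = ip u w := by
  have h := Van_rot_sq θ
  unfold ip
  simp only [Complex.mul_re, Complex.mul_im]
  linear_combination (u.re * w.re + u.im * w.im) * h

private theorem Van_exists_rot {p : ℤ × ℤ} (hp : p ≠ 0) {y : ℂ} (hy : ‖y‖ = ‖lat p‖) :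
    ∃ θ : ℝ, y = rot θ * lat p := by
  have h1 := one_le_norm_lat hp
  have h2 : lat p ≠ 0 := by
    intro h
    rw [h, norm_zero] at h1
    linarith
  refine ⟨(y / lat p).arg, ?_⟩
  have h3 : ‖y / lat p‖ = 1 := by
    rw [norm_div, hy, div_self (norm_ne_zero_iff.2 h2)]
  have h4 := Complex.norm_mul_exp_arg_mul_I (y / lat p)
  rw [h3, Complex.ofReal_one, one_mul] at h4
  rw [rot, h4, div_mul_cancel₀ _ h2]

private noncomputable def Van_R (θ : ℝ) : ℂ ≃ₗᵢ[ℝ] ℂ := rotation (Circle.exp θ)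

private theorem Van_R_apply (θ : ℝ) (z : ℂ) : Van_R θ z = rot θ * z := by
  rw [Van_R, rotation_apply, Circle.coe_exp, rot]

private theorem Van_mp (θ : ℝ) : MeasurePreserving (fun z : ℂ => rot θ * z) volume volume := by
  have h := (Van_R θ).measurePreserving
  have e : (fun z : ℂ => rot θ * z) = Van_R θ := by
    funext z
    rw [Van_R_apply]
  rw [e]
  exact h

private theorem Van_integral_rot (θ : ℝ) (f : ℂ → ℂ) : ∫ u, f (rot θ * u) = ∫ x, f x := by
  have h := (Van_R θ).measurePreserving.integral_comp (Van_R θ).toHomeomorph.measurableEmbedding f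
  rw [← h]
  refine integral_congr_ae (Filter.Eventually.of_forall fun u => ?_)
  show f (rot θ * u) = f ((Van_R θ).toHomeomorph u)
  rw [← Van_R_apply]
  rfl

/-- The unit cells. -/
private def Van_cell (q : ℤ × ℤ) : Set ℂ := {z | ⌊z.re⌋ = q.1 ∧ ⌊z.im⌋ = q.2}

private theorem Van_meas (q : ℤ × ℤ) : MeasurableSet (Van_cell q) := by
  have h1 : Measurable fun z : ℂ => ⌊z.re⌋ := Int.measurable_floor.comp Complex.measurable_re
  have h2 : Measurable fun z : ℂ => ⌊z.im⌋ := Int.measurable_floor.comp Complex.measurable_im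
  exact (h1 (measurableSet_singleton q.1)).inter (h2 (measurableSet_singleton q.2))

private theorem Van_disj : Pairwise (Function.onFun Disjoint Van_cell) := by
  intro q q' hqq
  rw [Function.onFun, Set.disjoint_left]
  rintro z ⟨h1, h2⟩ ⟨h3, h4⟩
  exact hqq (Prod.ext (h1.symm.trans h3) (h2.symm.trans h4))

private theorem Van_cover : (⋃ q, Van_cell q) = univ := by
  rw [Set.eq_univ_iff_forall]
  intro z
  rw [Set.mem_iUnion]
  exact ⟨(⌊z.re⌋, ⌊z.im⌋), rfl, rfl⟩

private theorem Van_shift (q : ℤ × ℤ) (w : ℂ) : w + lat q ∈ Van_cell q ↔ w ∈ Van_cell 0 := by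
  show (⌊(w + lat q).re⌋ = q.1 ∧ ⌊(w + lat q).im⌋ = q.2) ↔ (⌊w.re⌋ = 0 ∧ ⌊w.im⌋ = 0)
  rw [Complex.add_re, Complex.add_im, lat_re, lat_im, Int.floor_add_intCast, Int.floor_add_intCast]
  constructor
  · rintro ⟨h1, h2⟩
    exact ⟨by linarith, by linarith⟩
  · rintro ⟨h1, h2⟩
    exact ⟨by linarith, by linarith⟩

private theorem Van_int_cell (q : ℤ × ℤ) (f : ℂ → ℂ) :
    ∫ z in Van_cell q, f z = ∫ w in Van_cell 0, f (w + lat q) := by
  rw [← integral_indicator (Van_meas q), ← integral_indicator (Van_meas 0),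
    ← integral_add_right_eq_self (fun z => (Van_cell q).indicator f z) (lat q)]
  refine integral_congr_ae (Filter.Eventually.of_forall fun w => ?_)
  show (Van_cell q).indicator f (w + lat q) = (Van_cell 0).indicator (fun w => f (w + lat q)) w
  by_cases h : w ∈ Van_cell 0
  · rw [indicator_of_mem h, indicator_of_mem ((Van_shift q w).2 h)]
  · rw [indicator_of_notMem h, indicator_of_notMem (fun hc => h ((Van_shift q w).1 hc))]

private theorem Van_cell_fin : volume (Van_cell 0) ≠ ∞ := by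
  refine ne_top_of_le_ne_top (measure_closedBall_lt_top (x := (0 : ℂ)) (r := 2)).ne (measure_mono ?_)
  rintro z ⟨h1, h2⟩
  rw [mem_closedBall_zero_iff]
  have h3 : ⌊z.re⌋ = 0 := h1
  have h4 : ⌊z.im⌋ = 0 := h2
  rw [Int.floor_eq_zero_iff] at h3 h4
  have h5 := Complex.norm_le_abs_re_add_abs_im z
  rw [abs_of_nonneg h3.1, abs_of_nonneg h4.1] at h5
  have h6 := h3.2
  have h7 := h4.2
  linarith

private theorem Van_int_one {m : ℤ} (hm : m ≠ 0) : ∫ a in Ico (0 : ℝ) 1, ee (-(a * m)) = 0 := by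
  rw [integral_Ico_eq_integral_Ioo, ← integral_Ioc_eq_integral_Ioo,
    ← intervalIntegral.integral_of_le zero_le_one]
  have e : ∀ a : ℝ, ee (-(a * m)) = Complex.exp (-(2 * π * m * I) * a) := by
    intro a
    rw [ee]
    congr 1
    push_cast
    ring
  simp only [e]
  have hc : -(2 * (π : ℂ) * m * I) ≠ 0 := by
    have h1 : (π : ℂ) ≠ 0 := by exact_mod_cast Real.pi_ne_zero
    have h2 : (m : ℂ) ≠ 0 := by exact_mod_cast hm
    exact neg_ne_zero.2 (mul_ne_zero (mul_ne_zero (mul_ne_zero two_ne_zero h1) h2) Complex.I_ne_zero)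
  rw [integral_exp_mul_complex hc]
  have h3 : Complex.exp (-(2 * (π : ℂ) * m * I) * ((1 : ℝ) : ℂ)) = 1 := by
    rw [Complex.exp_eq_one_iff]
    refine ⟨-m, ?_⟩
    push_cast
    ring
  rw [h3]
  simp

private theorem Van_int_zero {p : ℤ × ℤ} (hp : p ≠ 0) :
    ∫ w in Van_cell 0, ee (-(ip w (lat p))) = 0 := by
  have e1 : Van_cell 0 = Complex.measurableEquivRealProd ⁻¹' (Ico (0 : ℝ) 1 ×ˢ Ico (0 : ℝ) 1) := by
    ext z
    show (⌊z.re⌋ = 0 ∧ ⌊z.im⌋ = 0) ↔ (z.re ∈ Ico (0 : ℝ) 1 ∧ z.im ∈ Ico (0 : ℝ) 1)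
    rw [Int.floor_eq_zero_iff, Int.floor_eq_zero_iff]
  have h := Complex.volume_preserving_equiv_real_prod.setIntegral_preimage_emb
    Complex.measurableEquivRealProd.measurableEmbedding
    (fun z : ℝ × ℝ => ee (-(z.1 * p.1)) * ee (-(z.2 * p.2))) (Ico (0 : ℝ) 1 ×ˢ Ico (0 : ℝ) 1)
  rw [← e1] at h
  have e2 : ∫ w in Van_cell 0, ee (-(ip w (lat p))) =
      ∫ z in (Ico (0 : ℝ) 1 ×ˢ Ico (0 : ℝ) 1), ee (-(z.1 * p.1)) * ee (-(z.2 * p.2)) := by
    rw [← h]
    refine integral_congr_ae (Filter.Eventually.of_forall fun w => ?_)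
    show ee (-(ip w (lat p))) = ee (-(w.re * p.1)) * ee (-(w.im * p.2))
    rw [← ee_add]
    congr 1
    unfold ip
    rw [lat_re, lat_im]
    ring
  rw [e2, Measure.volume_eq_prod, setIntegral_prod_mul (fun a : ℝ => ee (-(a * p.1)))
    (fun b : ℝ => ee (-(b * p.2)))]
  have h3 : p.1 ≠ 0 ∨ p.2 ≠ 0 := by
    by_contra hcon
    push Not at hcon
    exact hp (Prod.ext hcon.1 hcon.2)
  rcases h3 with h3 | h3
  · rw [Van_int_one h3, zero_mul]
  · rw [Van_int_one h3, mul_zero]

private theorem Van_chi {E : Set ℂ} {θ : ℝ} {x : ℂ} {n : ℕ}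
    (h : {p : ℤ × ℤ | x + rot θ * lat p ∈ E}.encard = n) :
    ∑' q : ℤ × ℤ, ((chi E (x + rot θ * lat q) : ℝ) : ℂ) = n := by
  have hfin : {p : ℤ × ℤ | x + rot θ * lat p ∈ E}.Finite := by
    rw [← Set.encard_lt_top_iff, h]
    exact ENat.natCast_lt_top n
  rw [tsum_eq_sum (s := hfin.toFinset)]
  · have e : ∀ q ∈ hfin.toFinset, ((chi E (x + rot θ * lat q) : ℝ) : ℂ) = 1 := by
      intro q hq
      rw [Set.Finite.mem_toFinset] at hq
      have hq' : x + rot θ * lat q ∈ E := hq
      rw [chi, indicator_of_mem hq']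
      simp
    rw [Finset.sum_congr rfl e, Finset.sum_const, nsmul_eq_mul, mul_one]
    rw [hfin.encard_eq_coe_toFinset_card] at h
    have h2 : hfin.toFinset.card = n := by exact_mod_cast h
    rw [h2]
  · intro q hq
    rw [Set.Finite.mem_toFinset] at hq
    have hq' : x + rot θ * lat q ∉ E := hq
    rw [chi, indicator_of_notMem hq']
    simp

private theorem Van_ee_int (m : ℤ) : ee (-(m : ℝ)) = 1 := by
  rw [ee, Complex.exp_eq_one_iff]
  refine ⟨-m, ?_⟩
  push_cast
  ring

private theorem Van_meas_ee (p : ℤ × ℤ) : Measurable fun w : ℂ => ee (-(ip w (lat p))) := by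
  refine continuous_ee.measurable.comp ?_
  unfold ip
  fun_prop

private theorem Van_meas_chi {E : Set ℂ} (hE : MeasurableSet E) : Measurable (chi E) :=
  measurable_const.indicator hE

theorem ft_vanish {E : Set ℂ} {n : ℕ} (hE : MeasurableSet E) (hfin : volume E ≠ ∞)
    (hT : Tile E n) {p : ℤ × ℤ} (hp : p ≠ 0) {y : ℂ} (hy : ‖y‖ = ‖lat p‖) :
    ft (chi E) y = 0 := by
  obtain ⟨θ, rfl⟩ := Van_exists_rot hp hy
  set f : ℂ → ℂ := fun u => ee (-(ip u (lat p))) * ((chi E (rot θ * u) : ℝ) : ℂ) with hf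
  have h1 : ft (chi E) (rot θ * lat p) = ∫ u, f u := by
    rw [ft, ← Van_integral_rot θ]
    refine integral_congr_ae (Filter.Eventually.of_forall fun u => ?_)
    show ee (-(ip (rot θ * u) (rot θ * lat p))) * _ = _
    rw [Van_ip_rot]
  have hmf : Measurable f :=
    (Van_meas_ee p).mul (Complex.measurable_ofReal.comp
      ((Van_meas_chi hE).comp (measurable_const.mul measurable_id)))
  have hintchi : Integrable (chi E) := by
    have h2 : IntegrableOn (fun _ : ℂ => (1 : ℝ)) E volume := integrableOn_const hfin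
    exact (integrable_indicator_iff hE).2 h2
  have hint : Integrable f := by
    have h2 : Integrable (fun u : ℂ => chi E (rot θ * u)) :=
      ((Van_mp θ).integrable_comp (Van_meas_chi hE).aestronglyMeasurable).2 hintchi
    refine h2.mono hmf.aestronglyMeasurable (Filter.Eventually.of_forall fun u => ?_)
    rw [hf]
    show ‖ee (-(ip u (lat p))) * ((chi E (rot θ * u) : ℝ) : ℂ)‖ ≤ ‖chi E (rot θ * u)‖
    rw [norm_mul, norm_ee, one_mul, Complex.norm_real]
  have h2 : ∫ u, f u = ∑' q, ∫ u in Van_cell q, f u := by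
    have h3 := integral_iUnion (μ := volume) (f := f) Van_meas Van_disj (by
      rw [Van_cover]
      exact hint.integrableOn)
    rw [Van_cover, setIntegral_univ] at h3
    exact h3
  have h3 : ∀ (q : ℤ × ℤ) (w : ℂ), f (w + lat q) =
      ee (-(ip w (lat p))) * ((chi E (rot θ * w + rot θ * lat q) : ℝ) : ℂ) := by
    intro q w
    show ee (-(ip (w + lat q) (lat p))) * ((chi E (rot θ * (w + lat q)) : ℝ) : ℂ) = _
    have e1 : ip (lat q) (lat p) = ((q.1 * p.1 + q.2 * p.2 : ℤ) : ℝ) := by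
      unfold ip
      rw [lat_re, lat_im, lat_re, lat_im]
      push_cast
      ring
    rw [ip_add_left, neg_add, ee_add, e1, Van_ee_int, mul_one, mul_add]
  have hae : ∀ᵐ w : ℂ, {q : ℤ × ℤ | rot θ * w + rot θ * lat q ∈ E}.encard = n :=
    (Van_mp θ).quasiMeasurePreserving.ae (hT θ)
  have h4 : ∀ᵐ w : ℂ ∂(volume.restrict (Van_cell 0)),
      ∑' q : ℤ × ℤ, f (w + lat q) = ee (-(ip w (lat p))) * n := by
    refine ae_restrict_of_ae (hae.mono fun w hw => ?_)
    simp only [h3]
    rw [tsum_mul_left, Van_chi hw]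
  have h5 : ∫ w in Van_cell 0, ∑' q : ℤ × ℤ, f (w + lat q) =
      ∑' q : ℤ × ℤ, ∫ w in Van_cell 0, f (w + lat q) := by
    refine integral_tsum (fun q => ?_) ?_
    · exact (hmf.comp (measurable_add_const _)).aestronglyMeasurable
    · have e1 : ∀ (q : ℤ × ℤ) (w : ℂ), ‖f (w + lat q)‖ₑ = ind E (rot θ * w + rot θ * lat q) := by
        intro q w
        rw [h3, enorm_mul]
        have e2 : ‖ee (-(ip w (lat p)))‖ₑ = 1 := by
          rw [← ofReal_norm, norm_ee]
          simp
        rw [e2, one_mul]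
        by_cases hm : rot θ * w + rot θ * lat q ∈ E
        · rw [chi, indicator_of_mem hm, ind_of_mem hm]
          simp
        · rw [chi, indicator_of_notMem hm, ind_of_notMem hm]
          simp
      simp only [e1]
      rw [← lintegral_tsum]
      · have e3 : ∫⁻ w in Van_cell 0, ∑' q : ℤ × ℤ, ind E (rot θ * w + rot θ * lat q) =
            ∫⁻ _w in Van_cell 0, (n : ℝ≥0∞) := by
          refine lintegral_congr_ae (ae_restrict_of_ae (hae.mono fun w hw => ?_))
          exact tsum_ind_of_encard hw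
        rw [e3, setLIntegral_const]
        exact ENNReal.mul_ne_top (ENNReal.natCast_ne_top n) Van_cell_fin
      · intro q
        refine Measurable.aemeasurable ?_
        exact (measurable_ind hE).comp ((measurable_const.mul measurable_id).add_const _)
  rw [h1, h2, tsum_congr fun q => Van_int_cell q f, ← h5, integral_congr_ae h4,
    integral_mul_const, Van_int_zero hp, zero_mul]

end Pool.MPb9430d.Frac
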