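import Pool.Agent.Lib.MP_b9430d_co.Frac.NearL
import Pool.Agent.Lib.MP_b9430d_co.Frac.FarL
import Pool.Agent.Lib.MP_b9430d_co.Frac.Van
import Pool.Agent.Lib.MP_b9430d_co.Frac.BlkS

/-!
# Blk: the energy of the indicator function in a dyadic block

`M = (∫⁻_E ‖x‖^β).toReal`, `1 < β < 2`. For `k < 4` the block integral is finite: `‖ft‖ ≤ volume.real E`
(`norm_ft_le`), enlarge `C`. Let `N = 2^k ≥ 16`. `ft (chi E)` vanishes at the nodes (`ft_vanish`, `lo_lat`, `hi_lat`,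
`‖t * rot θ‖ = t`), so `ft (chi E) (r rot θ) = lin (ft (chi E)) θ r = ∑_j lin (ft (sh E N j)) θ r` (`sh_sum` at three points).
Cauchy-Schwarz: `‖∑_j u_j‖² ≤ (∑_j ρ^j) (∑_j ρ^{-j} ‖u_j‖²)` with `ρ = 2^{-(β-1)/2}` (in `ℝ≥0∞`; e.g. by
`ENNReal.inner_le_Lp_mul_Lq_tsum` or finite partial sums and limits). Integrate (`lintegral_tsum`; measurability:
`continuous_ft`, `measurable_lo`, `measurable_hi`), with `W(u) = ∫⁻∫⁻ r ‖u‖²`:
`W(lin ft sh₀) ≤ C N^{-2} N^{(4-β)/2} M = C M N^{-β/2}` (`near_l2`, `sh_near`),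
`W(lin ft sh_{j+1}) ≤ C 2^{j+1} (2^j √N)^{-β} M` (`far_l2` with `Y = 2^{j+1} √N`, `sh_far`), so the sum is at most
`C' M N^{-β/2} (1 + ∑_j 2^{j(1-β)} 2^{j(β-1)/2}) < ∞`. `lint_polar` turns the block integral into polar coordinates.
-/

set_option autoImplicit false

open MeasureTheory Complex Set Real Filter Topology
open scoped ENNReal

namespace Pool.MPb9430d.Frac

open Pool.MPb9430d Pool.MPb9430d.Rough

private theorem Blk_cs {u : ℕ → ℂ} {s : ℂ} (hs : HasSum u s) {ρ : ℝ} (hρ0 : 0 < ρ) (hρ1 : ρ < 1) :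
    ‖s‖ₑ ^ 2 ≤ ENNReal.ofReal (1 - ρ)⁻¹ *
      ∑' j, ENNReal.ofReal (ρ ^ j)⁻¹ * ‖u j‖ₑ ^ 2 := by
  have hinv : 0 ≤ (1 - ρ)⁻¹ := inv_nonneg.2 (by linarith)
  have hlim : Tendsto (fun J : ℕ => ‖∑ j ∈ Finset.range J, u j‖ₑ ^ 2) atTop (𝓝 (‖s‖ₑ ^ 2)) := by
    have h1 := (continuous_enorm.tendsto s).comp hs.tendsto_sum_nat
    exact ((ENNReal.continuous_pow 2).tendsto _).comp h1
  refine le_of_tendsto' hlim fun J => ?_
  have h1 : ‖∑ j ∈ Finset.range J, u j‖ ^ 2 ≤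
      (1 - ρ)⁻¹ * ∑ j ∈ Finset.range J, (ρ ^ j)⁻¹ * ‖u j‖ ^ 2 := by
    have h2 : ‖∑ j ∈ Finset.range J, u j‖ ≤ ∑ j ∈ Finset.range J, ‖u j‖ := norm_sum_le _ _
    have h3 : (∑ j ∈ Finset.range J, ‖u j‖) ^ 2 ≤
        (∑ j ∈ Finset.range J, ρ ^ j) * ∑ j ∈ Finset.range J, (ρ ^ j)⁻¹ * ‖u j‖ ^ 2 := by
      refine Finset.sum_sq_le_sum_mul_sum_of_sq_eq_mul _ (fun j _ => ?_) (fun j _ => ?_)
        (fun j _ => ?_)
      · positivity
      · positivity
      · have : ρ ^ j ≠ 0 := pow_ne_zero _ hρ0.ne'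
        field_simp
    have h4 : ∑ j ∈ Finset.range J, ρ ^ j ≤ (1 - ρ)⁻¹ := by
      rw [← tsum_geometric_of_lt_one hρ0.le hρ1]
      exact (summable_geometric_of_lt_one hρ0.le hρ1).sum_le_tsum _
        (fun j _ => by positivity)
    have h5 : 0 ≤ ∑ j ∈ Finset.range J, (ρ ^ j)⁻¹ * ‖u j‖ ^ 2 :=
      Finset.sum_nonneg fun j _ => by positivity
    calc ‖∑ j ∈ Finset.range J, u j‖ ^ 2 ≤ (∑ j ∈ Finset.range J, ‖u j‖) ^ 2 :=
          pow_le_pow_left₀ (norm_nonneg _) h2 2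
      _ ≤ _ := h3
      _ ≤ _ := mul_le_mul_of_nonneg_right h4 h5
  have h6 : ∀ z : ℂ, ‖z‖ₑ ^ 2 = ENNReal.ofReal (‖z‖ ^ 2) := by
    intro z
    rw [← ofReal_norm_eq_enorm, ENNReal.ofReal_pow (norm_nonneg z)]
  rw [h6]
  refine (ENNReal.ofReal_le_ofReal h1).trans ?_
  rw [ENNReal.ofReal_mul hinv, ENNReal.ofReal_sum_of_nonneg (fun j _ => by positivity)]
  gcongr
  refine le_trans (le_of_eq ?_) (ENNReal.sum_le_tsum (Finset.range J))
  refine Finset.sum_congr rfl fun j _ => ?_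
  rw [ENNReal.ofReal_mul (by positivity), h6]

private theorem Blk_integrable {E : Set ℂ} (hE : MeasurableSet E) (hfin : volume E ≠ ∞) (N : ℝ)
    (j : ℕ) : Integrable (sh E N j) := by
  refine (integrable_chi hE hfin).mono (sh_meas hE N j).aestronglyMeasurable
    (Eventually.of_forall fun x => ?_)
  unfold sh
  exact norm_indicator_le_norm_self _ _

private theorem Blk_meas {G : ℂ → ℂ} (hG : Measurable G) :
    Measurable fun q : ℝ × ℝ => ENNReal.ofReal q.2 * ‖lin G q.1 q.2‖ₑ ^ 2 := by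
  have h1 : Measurable fun q : ℝ × ℝ => lin G q.1 q.2 := by
    unfold lin
    have hlo := measurable_lo
    have hhi := measurable_hi
    have hrot := measurable_rot
    have e1 : Measurable fun q : ℝ × ℝ => G (q.2 * rot q.1) :=
      hG.comp ((Complex.measurable_ofReal.comp measurable_snd).mul (hrot.comp measurable_fst))
    have e2 : Measurable fun q : ℝ × ℝ => G (lo q.2 * rot q.1) :=
      hG.comp ((Complex.measurable_ofReal.comp (hlo.comp measurable_snd)).mul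
        (hrot.comp measurable_fst))
    have e3 : Measurable fun q : ℝ × ℝ => G (hi q.2 * rot q.1) :=
      hG.comp ((Complex.measurable_ofReal.comp (hhi.comp measurable_snd)).mul
        (hrot.comp measurable_fst))
    have e4 : Measurable fun q : ℝ × ℝ => (((hi q.2 - q.2) / (hi q.2 - lo q.2) : ℝ) : ℂ) :=
      Complex.measurable_ofReal.comp (((hhi.comp measurable_snd).sub measurable_snd).div
        ((hhi.comp measurable_snd).sub (hlo.comp measurable_snd)))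
    have e5 : Measurable fun q : ℝ × ℝ => (((q.2 - lo q.2) / (hi q.2 - lo q.2) : ℝ) : ℂ) :=
      Complex.measurable_ofReal.comp ((measurable_snd.sub (hlo.comp measurable_snd)).div
        ((hhi.comp measurable_snd).sub (hlo.comp measurable_snd)))
    exact (e1.sub (e4.mul e2)).sub (e5.mul e3)
  exact (ENNReal.measurable_ofReal.comp measurable_snd).mul (h1.enorm.pow_const 2)

private theorem Blk_lin {E : Set ℂ} {n : ℕ} (hE : MeasurableSet E) (hfin : volume E ≠ ∞)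
    (hT : Tile E n) {r : ℝ} (hr : 1 ≤ r) (θ : ℝ) :
    lin (ft (chi E)) θ r = ft (chi E) (r * rot θ) := by
  obtain ⟨p, hp, hpl⟩ := lo_lat hr
  obtain ⟨q, hq, hql⟩ := hi_lat hr
  have hlo : 0 ≤ lo r := by
    rw [← hpl]
    exact norm_nonneg _
  have hhi : 0 ≤ hi r := by
    rw [← hql]
    exact norm_nonneg _
  have h1 : ft (chi E) (lo r * rot θ) = 0 := by
    refine ft_vanish hE hfin hT hp ?_
    rw [norm_mul, norm_rot, mul_one, Complex.norm_real, Real.norm_eq_abs, abs_of_nonneg hlo, hpl]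
  have h2 : ft (chi E) (hi r * rot θ) = 0 := by
    refine ft_vanish hE hfin hT hq ?_
    rw [norm_mul, norm_rot, mul_one, Complex.norm_real, Real.norm_eq_abs, abs_of_nonneg hhi, hql]
  unfold lin
  rw [h1, h2, mul_zero, mul_zero, sub_zero, sub_zero]

private theorem Blk_hasSum {E : Set ℂ} (hE : MeasurableSet E) (hfin : volume E ≠ ∞) {N : ℝ}
    (hN : 0 < N) (θ r : ℝ) :
    HasSum (fun j : ℕ => lin (ft (sh E N j)) θ r) (lin (ft (chi E)) θ r) := by
  unfold lin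
  exact ((sh_sum hE hfin hN _).sub ((sh_sum hE hfin hN _).mul_left _)).sub
    ((sh_sum hE hfin hN _).mul_left _)

theorem block {E : Set ℂ} {n : ℕ} (hE : MeasurableSet E) (hfin : volume E ≠ ∞) (hT : Tile E n)
    {β : ℝ} (hβ : 1 < β) (hβ2 : β < 2) (hM : ∫⁻ x in E, ENNReal.ofReal (‖x‖ ^ β) ≠ ∞) :
    ∃ C : ℝ, 0 < C ∧ ∀ k : ℕ,
      ∫⁻ y in {y : ℂ | (2 : ℝ) ^ k ≤ ‖y‖ ∧ ‖y‖ < 2 * 2 ^ k}, ‖ft (chi E) y‖ₑ ^ 2 ≤
        ENNReal.ofReal (C * ((2 : ℝ) ^ k) ^ (-(β / 2))) := by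
  obtain ⟨C1, hC1, hnear⟩ := near_l2
  obtain ⟨C2, hC2, hfar⟩ := far_l2
  obtain ⟨M, hMdef⟩ : ∃ M : ℝ, M = (∫⁻ x in E, ENNReal.ofReal (‖x‖ ^ β)).toReal := ⟨_, rfl⟩
  have hM0 : 0 ≤ M := by
    rw [hMdef]
    exact ENNReal.toReal_nonneg
  obtain ⟨ρ, hρ⟩ : ∃ ρ : ℝ, ρ = (2 : ℝ) ^ (-((β - 1) / 2)) := ⟨_, rfl⟩
  have hρ0 : 0 < ρ := by
    rw [hρ]
    positivity
  have hρ1 : ρ < 1 := by
    rw [hρ]
    exact Real.rpow_lt_one_of_one_lt_of_neg (by norm_num) (by linarith)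
  have hρ2 : ρ ^ 2 = (2 : ℝ) ^ (1 - β) := by
    rw [hρ, ← Real.rpow_natCast, ← Real.rpow_mul (by norm_num)]
    congr 1
    push_cast
    ring
  have h1ρ : 0 < 1 - ρ := by linarith
  have hinv : 0 < (1 - ρ)⁻¹ := inv_pos.2 h1ρ
  have hcont : Continuous (ft (chi E)) := continuous_ft (integrable_chi hE hfin)
  have hchim : Measurable (chi E) := by
    unfold chi
    exact measurable_const.indicator hE
  have hchi1 : ∀ x, |chi E x| ≤ 1 := by
    intro x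
    unfold chi
    by_cases hx : x ∈ E
    · rw [indicator_of_mem hx, abs_one]
    · rw [indicator_of_notMem hx, abs_zero]
      exact zero_le_one
  obtain ⟨hPi, hP⟩ := plancherel hchim (integrable_chi hE hfin) hchi1
  have hP0 : 0 ≤ ∫ y, ‖ft (chi E) y‖ ^ 2 := integral_nonneg fun y => sq_nonneg _
  have hPl : ∫⁻ y, ‖ft (chi E) y‖ₑ ^ 2 = ENNReal.ofReal (∫ y, ‖ft (chi E) y‖ ^ 2) := by
    rw [ofReal_integral_eq_lintegral_ofReal hPi (Eventually.of_forall fun y => sq_nonneg _)]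
    refine lintegral_congr fun y => ?_
    rw [← ofReal_norm_eq_enorm, ENNReal.ofReal_pow (norm_nonneg _)]
  obtain ⟨C', hC'⟩ : ∃ C' : ℝ, C' = (1 - ρ)⁻¹ * ((C1 + 2 * C2 * (ρ ^ 2)⁻¹) * M * (1 - ρ)⁻¹) :=
    ⟨_, rfl⟩
  have hC'0 : 0 ≤ C' := by
    rw [hC']
    positivity
  refine ⟨C' + 16 * (∫ y, ‖ft (chi E) y‖ ^ 2) + 1, by positivity, fun k => ?_⟩
  obtain ⟨N, hNk⟩ : ∃ N : ℝ, N = (2 : ℝ) ^ k := ⟨_, rfl⟩
  have hN1 : 1 ≤ N := by
    rw [hNk]
    exact one_le_pow₀ (by norm_num)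
  have hN0 : 0 < N := by linarith
  rw [← hNk]
  have hNp : 0 < N ^ (-(β / 2)) := Real.rpow_pos_of_pos hN0 _
  by_cases hk : k < 4
  · -- small blocks
    have hN16 : N ≤ 16 := by
      rw [hNk]
      calc (2 : ℝ) ^ k ≤ 2 ^ 4 := pow_le_pow_right₀ (by norm_num) (by omega)
        _ = 16 := by norm_num
    have h1 : 1 / 16 ≤ N ^ (-(β / 2)) := by
      have h2 : N ^ (-1 : ℝ) ≤ N ^ (-(β / 2)) :=
        Real.rpow_le_rpow_of_exponent_le hN1 (by linarith)
      rw [Real.rpow_neg_one] at h2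
      have h3 : (16 : ℝ)⁻¹ ≤ N⁻¹ := inv_anti₀ hN0 hN16
      rw [one_div]
      linarith
    refine (setLIntegral_le_lintegral _ _).trans ?_
    rw [hPl]
    refine ENNReal.ofReal_le_ofReal ?_
    have h4 : 0 ≤ C' * N ^ (-(β / 2)) := mul_nonneg hC'0 hNp.le
    nlinarith [mul_le_mul_of_nonneg_left h1 hP0]
  · -- large blocks
    have hN16 : 16 ≤ N := by
      rw [hNk]
      calc (16 : ℝ) = 2 ^ 4 := by norm_num
        _ ≤ 2 ^ k := pow_le_pow_right₀ (by norm_num) (by omega)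
    have hG : Measurable fun y => ‖ft (chi E) y‖ₑ ^ 2 := (hcont.measurable.enorm).pow_const 2
    rw [lint_polar hG hN0]
    -- the pieces
    have hpiece : ∀ j : ℕ, ENNReal.ofReal (ρ ^ j)⁻¹ *
        (∫⁻ θ in Ioc (-π) π, ∫⁻ r in Ico N (2 * N),
          ENNReal.ofReal r * ‖lin (ft (sh E N j)) θ r‖ₑ ^ 2) ≤
        ENNReal.ofReal ((C1 + 2 * C2 * (ρ ^ 2)⁻¹) * M * N ^ (-(β / 2)) * ρ ^ j) := by
      intro j
      have hρj : 0 < ρ ^ j := pow_pos hρ0 j
      rcases j with _ | j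
      · have h1 := hnear (sh E N 0) (sh_meas hE N 0) (sh_le E N 0) (2 ^ 0 * √N)
          (sh_supp E N 0) N hN16
        refine (mul_le_mul_right h1 _).trans ?_
        rw [← ENNReal.ofReal_mul (by positivity)]
        refine ENNReal.ofReal_le_ofReal ?_
        rw [pow_zero, inv_one, one_mul, mul_one]
        have h2 := sh_near hE hN0 (by linarith : 0 < β) (by linarith) hM
        rw [← hMdef] at h2
        have h3 : N ^ (-2 : ℝ) * N ^ ((4 - β) / 2) = N ^ (-(β / 2)) := by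
          rw [← Real.rpow_add hN0]
          congr 1
          ring
        have h4 : 0 ≤ C1 * N ^ (-2 : ℝ) := by positivity
        calc C1 * N ^ (-2 : ℝ) * ∫ x, ‖x‖ ^ 4 * (sh E N 0 x) ^ 2
            ≤ C1 * N ^ (-2 : ℝ) * (N ^ ((4 - β) / 2) * M) := mul_le_mul_of_nonneg_left h2 h4
          _ = C1 * M * (N ^ (-2 : ℝ) * N ^ ((4 - β) / 2)) := by ring
          _ = C1 * M * N ^ (-(β / 2)) := by rw [h3]
          _ ≤ (C1 + 2 * C2 * (ρ ^ 2)⁻¹) * M * N ^ (-(β / 2)) := by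
              have h5 : 0 ≤ 2 * C2 * (ρ ^ 2)⁻¹ * M * N ^ (-(β / 2)) := by positivity
              linarith [h5, show (C1 + 2 * C2 * (ρ ^ 2)⁻¹) * M * N ^ (-(β / 2)) =
                C1 * M * N ^ (-(β / 2)) + 2 * C2 * (ρ ^ 2)⁻¹ * M * N ^ (-(β / 2)) by ring]
      · have hsN : 0 < √N := Real.sqrt_pos.2 hN0
        have h2j : (1 : ℝ) ≤ 2 ^ (j + 1) := one_le_pow₀ (by norm_num)
        have hY : √N ≤ 2 ^ (j + 1) * √N := le_mul_of_one_le_left hsN.le h2j
        have h1 := hfar (sh E N (j + 1)) (sh_meas hE N (j + 1)) (sh_le E N (j + 1)) N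
          (2 ^ (j + 1) * √N) hN16 hY (sh_supp E N (j + 1))
        refine (mul_le_mul_right h1 _).trans ?_
        rw [← ENNReal.ofReal_mul (by positivity)]
        refine ENNReal.ofReal_le_ofReal ?_
        have h2 := sh_far hE hN0 (by linarith : 0 < β) hM j
        rw [← hMdef] at h2
        have h3 : 2 ^ (j + 1) * √N / √N = 2 ^ (j + 1) := by field_simp
        have h4 : (2 ^ j * √N) ^ (-β) = ((2 : ℝ) ^ (-β)) ^ j * N ^ (-(β / 2)) := by
          rw [Real.mul_rpow (by positivity) hsN.le]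
          congr 1
          · rw [← Real.rpow_natCast, ← Real.rpow_natCast, ← Real.rpow_mul (by norm_num),
              ← Real.rpow_mul (by norm_num), mul_comm]
          · rw [Real.sqrt_eq_rpow, ← Real.rpow_mul hN0.le]
            congr 1
            ring
        have h5 : (2 : ℝ) ^ (j + 1) * ((2 : ℝ) ^ (-β)) ^ j = 2 * (ρ ^ 2) ^ j := by
          have h6 : (2 : ℝ) ^ (1 - β) = 2 * 2 ^ (-β) := by
            rw [sub_eq_add_neg, Real.rpow_add (by norm_num), Real.rpow_one]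
          rw [hρ2, h6, mul_pow, pow_succ]
          ring
        rw [h3]
        have h7 : 0 ≤ (ρ ^ (j + 1))⁻¹ * (C2 * 2 ^ (j + 1)) := by positivity
        calc (ρ ^ (j + 1))⁻¹ * (C2 * 2 ^ (j + 1) * ∫ x, (sh E N (j + 1) x) ^ 2)
            = (ρ ^ (j + 1))⁻¹ * (C2 * 2 ^ (j + 1)) * ∫ x, (sh E N (j + 1) x) ^ 2 := by ring
          _ ≤ (ρ ^ (j + 1))⁻¹ * (C2 * 2 ^ (j + 1)) * ((2 ^ j * √N) ^ (-β) * M) :=
              mul_le_mul_of_nonneg_left h2 h7
          _ = (ρ ^ (j + 1))⁻¹ * C2 * ((2 : ℝ) ^ (j + 1) * ((2 : ℝ) ^ (-β)) ^ j) *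
                N ^ (-(β / 2)) * M := by
              rw [h4]
              ring
          _ = 2 * C2 * (ρ ^ 2)⁻¹ * M * N ^ (-(β / 2)) * ρ ^ (j + 1) := by
              rw [h5]
              field_simp
              ring
          _ ≤ (C1 + 2 * C2 * (ρ ^ 2)⁻¹) * M * N ^ (-(β / 2)) * ρ ^ (j + 1) := by
              have h8 : 0 ≤ C1 * M * N ^ (-(β / 2)) * ρ ^ (j + 1) := by positivity
              linarith [h8, show (C1 + 2 * C2 * (ρ ^ 2)⁻¹) * M * N ^ (-(β / 2)) * ρ ^ (j + 1) =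
                C1 * M * N ^ (-(β / 2)) * ρ ^ (j + 1) +
                  2 * C2 * (ρ ^ 2)⁻¹ * M * N ^ (-(β / 2)) * ρ ^ (j + 1) by ring]
    have hmeas : ∀ j : ℕ, Measurable fun q : ℝ × ℝ =>
        ENNReal.ofReal q.2 * ‖lin (ft (sh E N j)) q.1 q.2‖ₑ ^ 2 := fun j =>
      Blk_meas (continuous_ft (Blk_integrable hE hfin N j)).measurable
    have hpt : ∀ θ : ℝ, ∀ r ∈ Ico N (2 * N), ENNReal.ofReal r * ‖ft (chi E) (r * rot θ)‖ₑ ^ 2 ≤
        ∑' j : ℕ, (ENNReal.ofReal (1 - ρ)⁻¹ * ENNReal.ofReal (ρ ^ j)⁻¹) *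
          (ENNReal.ofReal r * ‖lin (ft (sh E N j)) θ r‖ₑ ^ 2) := by
      intro θ r hr
      have hr1 : 1 ≤ r := hN1.trans hr.1
      have h1 := Blk_cs (Blk_hasSum hE hfin hN0 θ r) hρ0 hρ1
      rw [Blk_lin hE hfin hT hr1 θ] at h1
      refine (mul_le_mul_right h1 _).trans (le_of_eq ?_)
      rw [← mul_assoc, ← ENNReal.tsum_mul_left]
      refine tsum_congr fun j => ?_
      ring
    calc ∫⁻ θ in Ioc (-π) π, ∫⁻ r in Ico N (2 * N),
          ENNReal.ofReal r * ‖ft (chi E) (r * rot θ)‖ₑ ^ 2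
        ≤ ∫⁻ θ in Ioc (-π) π, ∫⁻ r in Ico N (2 * N), ∑' j : ℕ,
          (ENNReal.ofReal (1 - ρ)⁻¹ * ENNReal.ofReal (ρ ^ j)⁻¹) *
          (ENNReal.ofReal r * ‖lin (ft (sh E N j)) θ r‖ₑ ^ 2) :=
          lintegral_mono fun θ => setLIntegral_mono' measurableSet_Ico (hpt θ)
      _ = ∫⁻ θ in Ioc (-π) π, ∑' j : ℕ,
          (ENNReal.ofReal (1 - ρ)⁻¹ * ENNReal.ofReal (ρ ^ j)⁻¹) *
          ∫⁻ r in Ico N (2 * N), (ENNReal.ofReal r * ‖lin (ft (sh E N j)) θ r‖ₑ ^ 2) := by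
          refine lintegral_congr fun θ => ?_
          have hm : ∀ j : ℕ, Measurable fun r : ℝ =>
              ENNReal.ofReal r * ‖lin (ft (sh E N j)) θ r‖ₑ ^ 2 := fun j =>
            (hmeas j).comp measurable_prodMk_left
          rw [lintegral_tsum fun j => ((hm j).const_mul _).aemeasurable]
          exact tsum_congr fun j => lintegral_const_mul _ (hm j)
      _ = ∑' j : ℕ, (ENNReal.ofReal (1 - ρ)⁻¹ * ENNReal.ofReal (ρ ^ j)⁻¹) *
          ∫⁻ θ in Ioc (-π) π, ∫⁻ r in Ico N (2 * N),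
            (ENNReal.ofReal r * ‖lin (ft (sh E N j)) θ r‖ₑ ^ 2) := by
          have hm : ∀ j : ℕ, Measurable fun θ : ℝ => ∫⁻ r in Ico N (2 * N),
              ENNReal.ofReal r * ‖lin (ft (sh E N j)) θ r‖ₑ ^ 2 := fun j =>
            (hmeas j).lintegral_prod_right'
          rw [lintegral_tsum fun j => ((hm j).const_mul _).aemeasurable]
          exact tsum_congr fun j => lintegral_const_mul _ (hm j)
      _ ≤ ∑' j : ℕ, ENNReal.ofReal (1 - ρ)⁻¹ *
          ENNReal.ofReal ((C1 + 2 * C2 * (ρ ^ 2)⁻¹) * M * N ^ (-(β / 2)) * ρ ^ j) := by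
          refine ENNReal.tsum_le_tsum fun j => ?_
          rw [mul_assoc]
          exact mul_le_mul_right (hpiece j) _
      _ = ENNReal.ofReal (C' * N ^ (-(β / 2))) := by
          rw [ENNReal.tsum_mul_left, ← ENNReal.ofReal_tsum_of_nonneg (fun j => by positivity)
            ((summable_geometric_of_lt_one hρ0.le hρ1).mul_left _), tsum_mul_left,
            tsum_geometric_of_lt_one hρ0.le hρ1, ← ENNReal.ofReal_mul hinv.le, hC']
          congr 1
          ring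
      _ ≤ ENNReal.ofReal ((C' + 16 * (∫ y, ‖ft (chi E) y‖ ^ 2) + 1) * N ^ (-(β / 2))) := by
          refine ENNReal.ofReal_le_ofReal ?_
          refine mul_le_mul_of_nonneg_right ?_ hNp.le
          linarith

end Pool.MPb9430d.Frac
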