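import Pool.Agent.Lib.MP_b9430d_co.Frac.CirF
import Pool.Agent.Lib.MP_b9430d_co.Frac.FtB

/-!
# QfF: the quadratic form of a circle mean on the Fourier side

`qf (cir N z) F = ∫_x ∫_y F(x) F(y) cir N z (x - y)`. Insert `cir_eq`: `cir N z (x-y) = ∫_ξ ee(ip x ξ) ee(-ip y ξ) m(ξ)`,
`m(ξ) = bes(‖z‖‖ξ‖) gh N ξ`. Fubini (`|F(x) F(y) m(ξ)|` is integrable on `ℂ × ℂ × ℂ`: `F` integrable, `|m| ≤ gh N`
integrable) gives `∫_ξ m(ξ) (∫_x ee(ip x ξ) F(x)) (∫_y ee(-ip y ξ) F(y)) = ∫_ξ m(ξ) conj(ft F ξ) ft F ξ`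
(`F` is real). `‖ft F ξ‖ ≤ ∫ |F|`, so the integrand is integrable.
Hint: it may be convenient to prove the complex identity for the cast of `qf` and to take real parts.
-/

set_option autoImplicit false

open MeasureTheory Complex Set Real Filter Topology
open scoped ENNReal

namespace Pool.MPb9430d.Frac

open Pool.MPb9430d Pool.MPb9430d.Rough

private theorem qff_continuous_bes (z : ℂ) : Continuous (fun y : ℂ => bes (‖z‖ * ‖y‖)) :=
  continuous_bes.comp (continuous_const.mul continuous_norm)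

private theorem qff_integrable_m {N : ℝ} (hN : 0 < N) (z : ℂ) :
    Integrable (fun y => bes (‖z‖ * ‖y‖) * gh N y) := by
  refine (integrable_gh hN).bdd_mul (c := 1) (qff_continuous_bes z).aestronglyMeasurable ?_
  exact Filter.Eventually.of_forall (fun y => by
    rw [Real.norm_eq_abs]
    exact abs_bes_le_one _)

theorem integrable_bes_gh {N : ℝ} (hN : 0 < N) (z : ℂ) {F : ℂ → ℝ} (hF : Integrable F) :
    Integrable (fun y => bes (‖z‖ * ‖y‖) * gh N y * ‖ft F y‖ ^ 2) := by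
  have h1 : Continuous (fun y => ‖ft F y‖ ^ 2) := (continuous_ft hF).norm.pow 2
  refine (qff_integrable_m hN z).mul_bdd (c := (∫ x, |F x|) ^ 2) h1.aestronglyMeasurable ?_
  refine Filter.Eventually.of_forall (fun y => ?_)
  rw [Real.norm_eq_abs, abs_of_nonneg (by positivity)]
  exact pow_le_pow_left₀ (norm_nonneg _) (norm_ft_le F y) 2

private theorem qff_continuous_ee_ip : Continuous (fun w : ℂ × ℂ => ee (ip w.1 w.2)) := by
  refine continuous_ee.comp ?_
  unfold ip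
  fun_prop

private theorem qff_continuous_ee_ip' : Continuous (fun w : ℂ × ℂ => ee (-(ip w.1 w.2))) := by
  refine continuous_ee.comp ?_
  unfold ip
  fun_prop

private theorem qff_conj {F : ℂ → ℝ} (y : ℂ) :
    (starRingEnd ℂ) (ft F y) = ∫ x, ee (ip x y) * (F x : ℂ) := by
  unfold ft
  rw [← integral_conj]
  refine integral_congr_ae (Filter.Eventually.of_forall (fun x => ?_))
  show (starRingEnd ℂ) (ee (-(ip x y)) * (F x : ℂ)) = ee (ip x y) * (F x : ℂ)
  rw [map_mul, Complex.conj_ofReal]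
  congr 1
  unfold ee
  rw [← Complex.exp_conj, map_mul, Complex.conj_ofReal, Complex.conj_I]
  congr 1
  push_cast
  ring

theorem qf_cir {N : ℝ} (hN : 0 < N) (z : ℂ) {F : ℂ → ℝ} (hF : Integrable F) :
    qf (cir N z) F = ∫ y, bes (‖z‖ * ‖y‖) * gh N y * ‖ft F y‖ ^ 2 := by
  have hFc : Integrable (fun x => (F x : ℂ)) := hF.ofReal (𝕜 := ℂ)
  have hm := qff_integrable_m hN z
  have hmc : Integrable (fun y => ((bes (‖z‖ * ‖y‖) * gh N y : ℝ) : ℂ)) := hm.ofReal (𝕜 := ℂ)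
  have hA : Integrable (fun y => ((bes (‖z‖ * ‖y‖) * gh N y : ℝ) : ℂ) * ft F y) := by
    refine hmc.mul_bdd (c := ∫ x, |F x|) (continuous_ft hF).aestronglyMeasurable ?_
    exact Filter.Eventually.of_forall (fun y => norm_ft_le F y)
  have hcast : ((qf (cir N z) F : ℝ) : ℂ) =
      ((∫ y, bes (‖z‖ * ‖y‖) * gh N y * ‖ft F y‖ ^ 2 : ℝ) : ℂ) := by
    unfold qf
    rw [← integral_complex_ofReal, ← integral_complex_ofReal]
    -- inner integral
    have hin : ∀ x : ℂ, (((∫ y, F x * (cir N z (x - y) * F y) : ℝ)) : ℂ) =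
        ∫ ξ, (F x : ℂ) * ee (ip x ξ) * (((bes (‖z‖ * ‖ξ‖) * gh N ξ : ℝ) : ℂ) * ft F ξ) := by
      intro x
      rw [← integral_complex_ofReal]
      have h1 : ∀ y : ℂ, ((F x * (cir N z (x - y) * F y) : ℝ) : ℂ) =
          ∫ ξ, (F x : ℂ) * (ee (ip x ξ) * ee (-(ip y ξ)) *
            ((F y : ℂ) * ((bes (‖z‖ * ‖ξ‖) * gh N ξ : ℝ) : ℂ))) := by
        intro y
        rw [integral_const_mul]
        push_cast
        congr 1
        rw [cir_eq hN z (x - y), mul_comm, ← integral_const_mul]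
        refine integral_congr_ae (Filter.Eventually.of_forall (fun ξ => ?_))
        show (F y : ℂ) * (ee (ip (x - y) ξ) * ((bes (‖z‖ * ‖ξ‖) * gh N ξ : ℝ) : ℂ)) =
          ee (ip x ξ) * ee (-(ip y ξ)) * ((F y : ℂ) * ((bes (‖z‖ * ‖ξ‖) : ℝ) * ((gh N ξ : ℝ) : ℂ)))
        rw [ip_sub_left, sub_eq_add_neg, ee_add]
        push_cast
        ring
      have h2 : Integrable (fun w : ℂ × ℂ => (F x : ℂ) * (ee (ip x w.2) * ee (-(ip w.1 w.2)) *
            ((F w.1 : ℂ) * ((bes (‖z‖ * ‖w.2‖) * gh N w.2 : ℝ) : ℂ)))) (volume.prod volume) := by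
        refine Integrable.const_mul ?_ _
        have h3 : Integrable (fun w : ℂ × ℂ => (F w.1 : ℂ) *
            ((bes (‖z‖ * ‖w.2‖) * gh N w.2 : ℝ) : ℂ)) (volume.prod volume) := hFc.mul_prod hmc
        refine h3.bdd_mul (c := 1) ?_ ?_
        · refine Continuous.aestronglyMeasurable ?_
          have h4 : Continuous (fun w : ℂ × ℂ => ee (ip x w.2)) :=
            qff_continuous_ee_ip.comp (continuous_const.prodMk continuous_snd)
          exact h4.mul qff_continuous_ee_ip'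
        · refine Filter.Eventually.of_forall (fun w => ?_)
          rw [norm_mul, norm_ee, norm_ee, one_mul]
      calc ∫ y, ((F x * (cir N z (x - y) * F y) : ℝ) : ℂ)
          = ∫ y, ∫ ξ, (F x : ℂ) * (ee (ip x ξ) * ee (-(ip y ξ)) *
            ((F y : ℂ) * ((bes (‖z‖ * ‖ξ‖) * gh N ξ : ℝ) : ℂ))) :=
            integral_congr_ae (Filter.Eventually.of_forall h1)
        _ = ∫ ξ, ∫ y, (F x : ℂ) * (ee (ip x ξ) * ee (-(ip y ξ)) *
            ((F y : ℂ) * ((bes (‖z‖ * ‖ξ‖) * gh N ξ : ℝ) : ℂ))) := integral_integral_swap h2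
        _ = ∫ ξ, (F x : ℂ) * ee (ip x ξ) * (((bes (‖z‖ * ‖ξ‖) * gh N ξ : ℝ) : ℂ) * ft F ξ) := by
            refine integral_congr_ae (Filter.Eventually.of_forall (fun ξ => ?_))
            show ∫ y, (F x : ℂ) * (ee (ip x ξ) * ee (-(ip y ξ)) *
              ((F y : ℂ) * ((bes (‖z‖ * ‖ξ‖) * gh N ξ : ℝ) : ℂ))) =
              (F x : ℂ) * ee (ip x ξ) * (((bes (‖z‖ * ‖ξ‖) * gh N ξ : ℝ) : ℂ) * ft F ξ)
            unfold ft
            rw [← integral_const_mul, ← integral_const_mul]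
            refine integral_congr_ae (Filter.Eventually.of_forall (fun y => ?_))
            show (F x : ℂ) * (ee (ip x ξ) * ee (-(ip y ξ)) *
              ((F y : ℂ) * ((bes (‖z‖ * ‖ξ‖) * gh N ξ : ℝ) : ℂ))) =
              (F x : ℂ) * ee (ip x ξ) * (((bes (‖z‖ * ‖ξ‖) * gh N ξ : ℝ) : ℂ) *
                (ee (-(ip y ξ)) * (F y : ℂ)))
            ring
    have h5 : Integrable (fun w : ℂ × ℂ => (F w.1 : ℂ) * ee (ip w.1 w.2) *
        (((bes (‖z‖ * ‖w.2‖) * gh N w.2 : ℝ) : ℂ) * ft F w.2)) (volume.prod volume) := by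
      have h6 : Integrable (fun w : ℂ × ℂ => (F w.1 : ℂ) *
          (((bes (‖z‖ * ‖w.2‖) * gh N w.2 : ℝ) : ℂ) * ft F w.2)) (volume.prod volume) :=
        hFc.mul_prod hA
      have h7 := h6.bdd_mul (c := 1) (f := fun w : ℂ × ℂ => ee (ip w.1 w.2))
        qff_continuous_ee_ip.aestronglyMeasurable
        (Filter.Eventually.of_forall (fun w => (norm_ee _).le))
      refine h7.congr (Filter.Eventually.of_forall (fun w => ?_))
      show ee (ip w.1 w.2) * ((F w.1 : ℂ) * (((bes (‖z‖ * ‖w.2‖) * gh N w.2 : ℝ) : ℂ) * ft F w.2)) =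
        (F w.1 : ℂ) * ee (ip w.1 w.2) * (((bes (‖z‖ * ‖w.2‖) * gh N w.2 : ℝ) : ℂ) * ft F w.2)
      ring
    calc ∫ x, (((∫ y, F x * (cir N z (x - y) * F y) : ℝ)) : ℂ)
        = ∫ x, ∫ ξ, (F x : ℂ) * ee (ip x ξ) *
          (((bes (‖z‖ * ‖ξ‖) * gh N ξ : ℝ) : ℂ) * ft F ξ) :=
          integral_congr_ae (Filter.Eventually.of_forall hin)
      _ = ∫ ξ, ∫ x, (F x : ℂ) * ee (ip x ξ) *
          (((bes (‖z‖ * ‖ξ‖) * gh N ξ : ℝ) : ℂ) * ft F ξ) := integral_integral_swap h5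
      _ = ∫ ξ, ((bes (‖z‖ * ‖ξ‖) * gh N ξ * ‖ft F ξ‖ ^ 2 : ℝ) : ℂ) := by
          refine integral_congr_ae (Filter.Eventually.of_forall (fun ξ => ?_))
          show ∫ x, (F x : ℂ) * ee (ip x ξ) *
            (((bes (‖z‖ * ‖ξ‖) * gh N ξ : ℝ) : ℂ) * ft F ξ) =
            ((bes (‖z‖ * ‖ξ‖) * gh N ξ * ‖ft F ξ‖ ^ 2 : ℝ) : ℂ)
          rw [integral_mul_const]
          have h8 : ∫ x, (F x : ℂ) * ee (ip x ξ) = (starRingEnd ℂ) (ft F ξ) := by
            rw [qff_conj]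
            refine integral_congr_ae (Filter.Eventually.of_forall (fun x => ?_))
            exact mul_comm _ _
          rw [h8]
          have h9 : (starRingEnd ℂ) (ft F ξ) * ft F ξ = ((‖ft F ξ‖ : ℝ) : ℂ) ^ 2 :=
            Complex.conj_mul' _
          calc (starRingEnd ℂ) (ft F ξ) * (((bes (‖z‖ * ‖ξ‖) * gh N ξ : ℝ) : ℂ) * ft F ξ)
              = ((bes (‖z‖ * ‖ξ‖) * gh N ξ : ℝ) : ℂ) * ((starRingEnd ℂ) (ft F ξ) * ft F ξ) := by
                ring
            _ = ((bes (‖z‖ * ‖ξ‖) * gh N ξ * ‖ft F ξ‖ ^ 2 : ℝ) : ℂ) := by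
                rw [h9]
                push_cast
                ring
  exact_mod_cast hcast

end Pool.MPb9430d.Frac
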