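import Pool.Agent.Lib.MP_b9430d_co.Frac.MDefs
import Pool.Agent.Lib.MP_b9430d_co.Frac.QfF

/-!
# CcF: the double circle mean on the Fourier side (copy of CirF and QfF)

`cc_eq`: `cc N z w p = (1/2π) ∫_φ cir N z (p + rot φ w)`, insert `cir_eq`:
`cir N z (p + rot φ w) = ∫_y ee (ip p y) ee (ip (rot φ w) y) bes(‖z‖‖y‖) gh N y`, exchange the integrals (the integrand
has norm `≤ gh N y`, `abs_bes_le_one`) and use `mean_ee`: exactly the proof of `cir_eq` with the extra factor
`bes (‖z‖ ‖y‖)`.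
`qf_cc`: exactly the proof of `qf_cir` with the extra factor (`m(y) = bes(‖z‖‖y‖) bes(‖w‖‖y‖) gh N y`).
`continuous_cc`, `abs_cc_le`: as `continuous_cir`, `cir_le_sq` (`0 ≤ cir N z p ≤ N²`).
-/

set_option autoImplicit false

open MeasureTheory Complex Set Real Filter Topology
open scoped ENNReal

namespace Pool.MPb9430d.Frac

open Pool.MPb9430d Pool.MPb9430d.Rough

private theorem CcF_cont (N : ℝ) (z w : ℂ) :
    Continuous (Function.uncurry fun (p : ℂ) (φ : ℝ) => cir N z (p + rot φ * w)) := by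
  have h1 : Continuous fun q : ℂ × ℝ => q.1 + rot q.2 * w :=
    continuous_fst.add ((continuous_rot.comp continuous_snd).mul continuous_const)
  exact (continuous_cir N z).comp h1

private theorem CcF_cont' (N : ℝ) (z w p : ℂ) : Continuous fun φ : ℝ => cir N z (p + rot φ * w) :=
  (continuous_cir N z).comp (continuous_const.add (continuous_rot.mul continuous_const))

theorem continuous_cc (N : ℝ) (z w : ℂ) : Continuous (cc N z w) := by
  unfold cc
  exact continuous_const.mul
    (intervalIntegral.continuous_parametric_intervalIntegral_of_continuous' (CcF_cont N z w) _ _)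

theorem cc_nonneg (N : ℝ) (z w p : ℂ) : 0 ≤ cc N z w p := by
  unfold cc
  refine mul_nonneg (by positivity) ?_
  exact intervalIntegral.integral_nonneg (by linarith [Real.pi_pos]) fun φ _ => cir_nonneg N z _

theorem cc_le_sq (N : ℝ) (z w p : ℂ) : cc N z w p ≤ N ^ 2 := by
  unfold cc
  have hpi := Real.pi_pos
  have h1 : ∫ φ in (-π)..π, cir N z (p + rot φ * w) ≤ ∫ _φ in (-π)..π, N ^ 2 :=
    intervalIntegral.integral_mono_on (by linarith)
      ((CcF_cont' N z w p).intervalIntegrable _ _) (continuous_const.intervalIntegrable _ _)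
      fun φ _ => cir_le_sq N z _
  rw [intervalIntegral.integral_const, smul_eq_mul] at h1
  calc (2 * π)⁻¹ * ∫ φ in (-π)..π, cir N z (p + rot φ * w)
      ≤ (2 * π)⁻¹ * ((π - -π) * N ^ 2) := mul_le_mul_of_nonneg_left h1 (by positivity)
    _ = N ^ 2 := by
      field_simp
      ring

private theorem CcF_m {N : ℝ} (hN : 0 < N) (z : ℂ) :
    Integrable (fun y => bes (‖z‖ * ‖y‖) * gh N y) := by
  refine (integrable_gh hN).bdd_mul (c := 1)
    (continuous_bes.comp (continuous_const.mul continuous_norm)).aestronglyMeasurable ?_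
  exact Filter.Eventually.of_forall (fun y => by
    rw [Real.norm_eq_abs]
    exact abs_bes_le_one _)

private theorem CcF_m2 {N : ℝ} (hN : 0 < N) (z w : ℂ) :
    Integrable (fun y => bes (‖z‖ * ‖y‖) * bes (‖w‖ * ‖y‖) * gh N y) := by
  have h1 : Integrable (fun y => bes (‖z‖ * ‖y‖) * (bes (‖w‖ * ‖y‖) * gh N y)) := by
    refine (CcF_m hN w).bdd_mul (c := 1)
      (continuous_bes.comp (continuous_const.mul continuous_norm)).aestronglyMeasurable ?_
    exact Filter.Eventually.of_forall (fun y => by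
      rw [Real.norm_eq_abs]
      exact abs_bes_le_one _)
  refine h1.congr (Filter.Eventually.of_forall fun y => ?_)
  show bes (‖z‖ * ‖y‖) * (bes (‖w‖ * ‖y‖) * gh N y) = bes (‖z‖ * ‖y‖) * bes (‖w‖ * ‖y‖) * gh N y
  ring

private theorem CcF_int {N : ℝ} (hN : 0 < N) (z w p : ℂ) :
    Integrable (Function.uncurry fun (φ : ℝ) (y : ℂ) =>
      ee (ip (p + rot φ * w) y) * ((bes (‖z‖ * ‖y‖) * gh N y : ℝ) : ℂ))
      ((volume.restrict (Set.uIoc (-π) π)).prod volume) := by
  have hfin : IsFiniteMeasure (volume.restrict (Set.uIoc (-π) π)) :=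
    ⟨by rw [Measure.restrict_apply_univ, Set.uIoc, Real.volume_Ioc]; exact ENNReal.ofReal_lt_top⟩
  have h1 := (integrable_gh hN).comp_snd (volume.restrict (Set.uIoc (-π) π))
  refine h1.mono' ?_ (Eventually.of_forall ?_)
  · refine Continuous.aestronglyMeasurable ?_
    have hg := continuous_gh N
    have he := continuous_ee
    have h2 : Continuous fun q : ℝ × ℂ => ip (p + rot q.1 * w) q.2 := by
      unfold ip rot
      fun_prop
    have h3 : Continuous fun q : ℝ × ℂ => bes (‖z‖ * ‖q.2‖) * gh N q.2 :=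
      (continuous_bes.comp (continuous_const.mul (continuous_norm.comp continuous_snd))).mul
        (hg.comp continuous_snd)
    exact (he.comp h2).mul (Complex.continuous_ofReal.comp h3)
  · rintro ⟨φ, y⟩
    simp only [Function.uncurry]
    rw [norm_mul, norm_ee, one_mul, Complex.norm_real, norm_mul, Real.norm_eq_abs,
      Real.norm_of_nonneg (gh_pos N y).le]
    exact (mul_le_mul_of_nonneg_right (abs_bes_le_one _) (gh_pos N y).le).trans_eq (one_mul _)

theorem cc_eq {N : ℝ} (hN : 0 < N) (z w p : ℂ) :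
    (cc N z w p : ℂ) = ∫ y, ee (ip p y) * ((bes (‖z‖ * ‖y‖) * bes (‖w‖ * ‖y‖) * gh N y : ℝ) : ℂ) := by
  have hp : (π : ℂ) ≠ 0 := by
    exact_mod_cast Real.pi_ne_zero
  have h1 : (cc N z w p : ℂ) = ((2 * π)⁻¹ : ℝ) * ∫ φ in (-π)..π, (cir N z (p + rot φ * w) : ℂ) := by
    unfold cc
    rw [Complex.ofReal_mul, ← intervalIntegral.integral_ofReal]
  have h2 : (∫ φ in (-π)..π, (cir N z (p + rot φ * w) : ℂ)) =
      ∫ φ in (-π)..π, ∫ y, ee (ip (p + rot φ * w) y) * ((bes (‖z‖ * ‖y‖) * gh N y : ℝ) : ℂ) := by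
    refine intervalIntegral.integral_congr fun φ _ => ?_
    exact cir_eq hN z _
  rw [h1, h2, intervalIntegral_integral_swap (CcF_int hN z w p), ← integral_const_mul]
  refine integral_congr_ae (Eventually.of_forall fun y => ?_)
  simp only
  have h3 : (∫ φ in (-π)..π, ee (ip (p + rot φ * w) y) * ((bes (‖z‖ * ‖y‖) * gh N y : ℝ) : ℂ)) =
      ee (ip p y) * ((bes (‖z‖ * ‖y‖) * gh N y : ℝ) : ℂ) * ∫ φ in (-π)..π, ee (ip (rot φ * w) y) := by
    rw [← intervalIntegral.integral_const_mul]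
    refine intervalIntegral.integral_congr fun φ _ => ?_
    change ee (ip (p + rot φ * w) y) * ((bes (‖z‖ * ‖y‖) * gh N y : ℝ) : ℂ) =
      ee (ip p y) * ((bes (‖z‖ * ‖y‖) * gh N y : ℝ) : ℂ) * ee (ip (rot φ * w) y)
    rw [ip_add_left, ee_add]
    ring
  rw [h3, mean_ee]
  push_cast
  field_simp

theorem integrable_bes2_gh {N : ℝ} (hN : 0 < N) (z w : ℂ) {F : ℂ → ℝ} (hF : Integrable F) :
    Integrable (fun y => bes (‖z‖ * ‖y‖) * bes (‖w‖ * ‖y‖) * gh N y * ‖ft F y‖ ^ 2) := by
  have h1 : Continuous (fun y => ‖ft F y‖ ^ 2) := (continuous_ft hF).norm.pow 2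
  refine (CcF_m2 hN z w).mul_bdd (c := (∫ x, |F x|) ^ 2) h1.aestronglyMeasurable ?_
  refine Filter.Eventually.of_forall (fun y => ?_)
  rw [Real.norm_eq_abs, abs_of_nonneg (by positivity)]
  exact pow_le_pow_left₀ (norm_nonneg _) (norm_ft_le F y) 2

private theorem CcF_continuous_ee_ip : Continuous (fun w : ℂ × ℂ => ee (ip w.1 w.2)) := by
  refine continuous_ee.comp ?_
  unfold ip
  fun_prop

private theorem CcF_continuous_ee_ip' : Continuous (fun w : ℂ × ℂ => ee (-(ip w.1 w.2))) := by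
  refine continuous_ee.comp ?_
  unfold ip
  fun_prop

private theorem CcF_conj {F : ℂ → ℝ} (y : ℂ) :
    (starRingEnd ℂ) (ft F y) = ∫ x, ee (ip x y) * (F x : ℂ) := by
  unfold ft
  rw [← integral_conj]
  refine integral_congr_ae (Filter.Eventually.of_forall (fun x => ?_))
  show (starRingEnd ℂ) (ee (-(ip x y)) * (F x : ℂ)) = ee (ip x y) * (F x : ℂ)
  rw [map_mul, Complex.conj_ofReal]
  congr 1
  unfold ee
  rw [← Complex.exp_conj, map_mul, Complex.conj_ofReal, Complex.conj_I]
  congr 1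
  push_cast
  ring

private theorem CcF_qf {K m F : ℂ → ℝ} (hm : Integrable m)
    (hK : ∀ p : ℂ, (K p : ℂ) = ∫ y, ee (ip p y) * ((m y : ℝ) : ℂ)) (hF : Integrable F) :
    qf K F = ∫ y, m y * ‖ft F y‖ ^ 2 := by
  have hFc : Integrable (fun x => (F x : ℂ)) := hF.ofReal (𝕜 := ℂ)
  have hmc : Integrable (fun y => ((m y : ℝ) : ℂ)) := hm.ofReal (𝕜 := ℂ)
  have hA : Integrable (fun y => ((m y : ℝ) : ℂ) * ft F y) := by
    refine hmc.mul_bdd (c := ∫ x, |F x|) (continuous_ft hF).aestronglyMeasurable ?_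
    exact Filter.Eventually.of_forall (fun y => norm_ft_le F y)
  have hcast : ((qf K F : ℝ) : ℂ) =
      ((∫ y, m y * ‖ft F y‖ ^ 2 : ℝ) : ℂ) := by
    unfold qf
    rw [← integral_complex_ofReal, ← integral_complex_ofReal]
    -- inner integral
    have hin : ∀ x : ℂ, (((∫ y, F x * (K (x - y) * F y) : ℝ)) : ℂ) =
        ∫ ξ, (F x : ℂ) * ee (ip x ξ) * (((m ξ : ℝ) : ℂ) * ft F ξ) := by
      intro x
      rw [← integral_complex_ofReal]
      have h1 : ∀ y : ℂ, ((F x * (K (x - y) * F y) : ℝ) : ℂ) =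
          ∫ ξ, (F x : ℂ) * (ee (ip x ξ) * ee (-(ip y ξ)) *
            ((F y : ℂ) * ((m ξ : ℝ) : ℂ))) := by
        intro y
        rw [integral_const_mul]
        push_cast
        congr 1
        rw [hK (x - y), mul_comm, ← integral_const_mul]
        refine integral_congr_ae (Filter.Eventually.of_forall (fun ξ => ?_))
        show (F y : ℂ) * (ee (ip (x - y) ξ) * ((m ξ : ℝ) : ℂ)) =
          ee (ip x ξ) * ee (-(ip y ξ)) * ((F y : ℂ) * (m ξ : ℂ))
        rw [ip_sub_left, sub_eq_add_neg, ee_add]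
        ring
      have h2 : Integrable (fun w : ℂ × ℂ => (F x : ℂ) * (ee (ip x w.2) * ee (-(ip w.1 w.2)) *
            ((F w.1 : ℂ) * ((m w.2 : ℝ) : ℂ)))) (volume.prod volume) := by
        refine Integrable.const_mul ?_ _
        have h3 : Integrable (fun w : ℂ × ℂ => (F w.1 : ℂ) *
            ((m w.2 : ℝ) : ℂ)) (volume.prod volume) := hFc.mul_prod hmc
        refine h3.bdd_mul (c := 1) ?_ ?_
        · refine Continuous.aestronglyMeasurable ?_
          have h4 : Continuous (fun w : ℂ × ℂ => ee (ip x w.2)) :=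
            CcF_continuous_ee_ip.comp (continuous_const.prodMk continuous_snd)
          exact h4.mul CcF_continuous_ee_ip'
        · refine Filter.Eventually.of_forall (fun w => ?_)
          rw [norm_mul, norm_ee, norm_ee, one_mul]
      calc ∫ y, ((F x * (K (x - y) * F y) : ℝ) : ℂ)
          = ∫ y, ∫ ξ, (F x : ℂ) * (ee (ip x ξ) * ee (-(ip y ξ)) *
            ((F y : ℂ) * ((m ξ : ℝ) : ℂ))) :=
            integral_congr_ae (Filter.Eventually.of_forall h1)
        _ = ∫ ξ, ∫ y, (F x : ℂ) * (ee (ip x ξ) * ee (-(ip y ξ)) *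
            ((F y : ℂ) * ((m ξ : ℝ) : ℂ))) := integral_integral_swap h2
        _ = ∫ ξ, (F x : ℂ) * ee (ip x ξ) * (((m ξ : ℝ) : ℂ) * ft F ξ) := by
            refine integral_congr_ae (Filter.Eventually.of_forall (fun ξ => ?_))
            show ∫ y, (F x : ℂ) * (ee (ip x ξ) * ee (-(ip y ξ)) *
              ((F y : ℂ) * ((m ξ : ℝ) : ℂ))) =
              (F x : ℂ) * ee (ip x ξ) * (((m ξ : ℝ) : ℂ) * ft F ξ)
            unfold ft
            rw [← integral_const_mul, ← integral_const_mul]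
            refine integral_congr_ae (Filter.Eventually.of_forall (fun y => ?_))
            show (F x : ℂ) * (ee (ip x ξ) * ee (-(ip y ξ)) *
              ((F y : ℂ) * ((m ξ : ℝ) : ℂ))) =
              (F x : ℂ) * ee (ip x ξ) * (((m ξ : ℝ) : ℂ) *
                (ee (-(ip y ξ)) * (F y : ℂ)))
            ring
    have h5 : Integrable (fun w : ℂ × ℂ => (F w.1 : ℂ) * ee (ip w.1 w.2) *
        (((m w.2 : ℝ) : ℂ) * ft F w.2)) (volume.prod volume) := by
      have h6 : Integrable (fun w : ℂ × ℂ => (F w.1 : ℂ) *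
          (((m w.2 : ℝ) : ℂ) * ft F w.2)) (volume.prod volume) :=
        hFc.mul_prod hA
      have h7 := h6.bdd_mul (c := 1) (f := fun w : ℂ × ℂ => ee (ip w.1 w.2))
        CcF_continuous_ee_ip.aestronglyMeasurable
        (Filter.Eventually.of_forall (fun w => (norm_ee _).le))
      refine h7.congr (Filter.Eventually.of_forall (fun w => ?_))
      show ee (ip w.1 w.2) * ((F w.1 : ℂ) * (((m w.2 : ℝ) : ℂ) * ft F w.2)) =
        (F w.1 : ℂ) * ee (ip w.1 w.2) * (((m w.2 : ℝ) : ℂ) * ft F w.2)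
      ring
    calc ∫ x, (((∫ y, F x * (K (x - y) * F y) : ℝ)) : ℂ)
        = ∫ x, ∫ ξ, (F x : ℂ) * ee (ip x ξ) *
          (((m ξ : ℝ) : ℂ) * ft F ξ) :=
          integral_congr_ae (Filter.Eventually.of_forall hin)
      _ = ∫ ξ, ∫ x, (F x : ℂ) * ee (ip x ξ) *
          (((m ξ : ℝ) : ℂ) * ft F ξ) := integral_integral_swap h5
      _ = ∫ ξ, ((m ξ * ‖ft F ξ‖ ^ 2 : ℝ) : ℂ) := by
          refine integral_congr_ae (Filter.Eventually.of_forall (fun ξ => ?_))
          show ∫ x, (F x : ℂ) * ee (ip x ξ) *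
            (((m ξ : ℝ) : ℂ) * ft F ξ) =
            ((m ξ * ‖ft F ξ‖ ^ 2 : ℝ) : ℂ)
          rw [integral_mul_const]
          have h8 : ∫ x, (F x : ℂ) * ee (ip x ξ) = (starRingEnd ℂ) (ft F ξ) := by
            rw [CcF_conj]
            refine integral_congr_ae (Filter.Eventually.of_forall (fun x => ?_))
            exact mul_comm _ _
          rw [h8]
          have h9 : (starRingEnd ℂ) (ft F ξ) * ft F ξ = ((‖ft F ξ‖ : ℝ) : ℂ) ^ 2 :=
            Complex.conj_mul' _
          calc (starRingEnd ℂ) (ft F ξ) * (((m ξ : ℝ) : ℂ) * ft F ξ)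
              = ((m ξ : ℝ) : ℂ) * ((starRingEnd ℂ) (ft F ξ) * ft F ξ) := by
                ring
            _ = ((m ξ * ‖ft F ξ‖ ^ 2 : ℝ) : ℂ) := by
                rw [h9]
                push_cast
                ring
  exact_mod_cast hcast

theorem qf_cc {N : ℝ} (hN : 0 < N) (z w : ℂ) {F : ℂ → ℝ} (hF : Integrable F) :
    qf (cc N z w) F = ∫ y, bes (‖z‖ * ‖y‖) * bes (‖w‖ * ‖y‖) * gh N y * ‖ft F y‖ ^ 2 :=
  CcF_qf (CcF_m2 hN z w) (cc_eq hN z w) hF

end Pool.MPb9430d.Frac
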