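import Pool.Agent.Lib.MP_b9430d_co.Frac.Semi

/-!
# Fact: factorisation of the Littlewood-Paley piece

`1/(2N)² = 1/(2√2 N)² + 1/(2√2 N)²` and `1/N² = 1/(2√2 N)² + 1/(√(8/7) N)²`, so by `cir_conv` (with `A = 2√2 N`)
`cir (2N) z (x - t) - cir N z (x - t) = ∫_y cir A z (x - t - y) psi N y = ∫_y cir A z (x - y) psi N (y - t)`
(substitution). Hence
`qf (cir (2N) z) F - qf (cir N z) F = ∫_x ∫_t F(x) F(t) ∫_y cir A z (x - y) psi N (y - t) = ∫_x ∫_y F(x) cir A z (x-y) sm N F y`
(Fubini in `(t, y)` for fixed `x`: `|F(t)| |psi N (y-t)| A²` is integrable on `ℂ × ℂ`; the outer integrals over `x` of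
`F(x) · (bounded continuous)` are fine, `integral_sub`).
`integrable_sm`: convolution of two integrable functions (`MeasureTheory.Integrable.integrable_convolution` or
`Integrable.integral_prod_left` of `(t, y) ↦ psi N (y - t) F t`).
-/

set_option autoImplicit false

open MeasureTheory Complex Set Real Filter Topology
open scoped ENNReal

namespace Pool.MPb9430d.Frac

open Pool.MPb9430d Pool.MPb9430d.Rough

theorem integrable_psi {N : ℝ} (hN : 0 < N) : Integrable (psi N) := by
  have h1 : 0 < 2 * √2 * N := by positivity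
  have h2 : 0 < √(8 / 7) * N := by positivity
  exact (integrable_gau h1).sub (integrable_gau h2)

private theorem Fact_conv {N : ℝ} (hN : 0 < N) {F : ℂ → ℝ} (hF : Integrable F) :
    Integrable (fun w : ℂ × ℂ => F w.2 * psi N (w.1 - w.2)) (volume.prod volume) :=
  Integrable.convolution_integrand (ContinuousLinearMap.mul ℝ ℝ) hF (integrable_psi hN)

theorem integrable_sm {N : ℝ} (hN : 0 < N) {F : ℂ → ℝ} (hF : Integrable F) :
    Integrable (sm N F) := by
  have h := (Fact_conv hN hF).integral_prod_left
  refine h.congr (Filter.Eventually.of_forall fun y => ?_)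
  unfold sm
  refine integral_congr_ae (Filter.Eventually.of_forall fun t => ?_)
  exact mul_comm _ _

private theorem Fact_bdd {K F : ℂ → ℝ} (hF : Integrable F) (hK : Continuous K) {M : ℝ}
    (hb : ∀ u, |K u| ≤ M) (x : ℂ) : Integrable (fun t => K (x - t) * F t) := by
  refine Integrable.bdd_mul (c := M) hF ?_ (Filter.Eventually.of_forall fun t => ?_)
  · exact (hK.comp (continuous_const.sub continuous_id)).aestronglyMeasurable
  · rw [Real.norm_eq_abs]; exact hb _

private theorem Fact_outer {K F : ℂ → ℝ} (hF : Integrable F) (hK : Continuous K) {M : ℝ}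
    (hb : ∀ u, |K u| ≤ M) : Integrable (fun x => ∫ t, F x * (K (x - t) * F t)) := by
  have h1 : Integrable (fun w : ℂ × ℂ => K (w.1 - w.2) * (F w.1 * F w.2))
      (volume.prod volume) := by
    refine Integrable.bdd_mul (c := M) (hF.mul_prod hF) ?_
      (Filter.Eventually.of_forall fun t => ?_)
    · exact (hK.comp (continuous_fst.sub continuous_snd)).aestronglyMeasurable
    · rw [Real.norm_eq_abs]; exact hb _
  have h2 := h1.integral_prod_left
  refine h2.congr (Filter.Eventually.of_forall fun x => ?_)
  refine integral_congr_ae (Filter.Eventually.of_forall fun t => ?_)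
  change K (x - t) * (F x * F t) = F x * (K (x - t) * F t)
  ring

private theorem Fact_abs (N : ℝ) (z u : ℂ) : |cir N z u| ≤ N ^ 2 := by
  rw [abs_of_nonneg (cir_nonneg N z u)]
  exact cir_le_sq N z u

private theorem Fact_ker {N : ℝ} (hN : 0 < N) (z u : ℂ) :
    cir (2 * N) z u - cir N z u = ∫ y, cir (2 * √2 * N) z (u - y) * psi N y := by
  have hA : 0 < 2 * √2 * N := by positivity
  have hB : 0 < √(8 / 7) * N := by positivity
  have e1 : (2 * √2 * N) ^ 2 = 8 * N ^ 2 := by
    rw [mul_pow, mul_pow, Real.sq_sqrt (by norm_num)]; ring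
  have e2 : (√(8 / 7) * N) ^ 2 = 8 / 7 * N ^ 2 := by
    rw [mul_pow, Real.sq_sqrt (by norm_num)]
  have h1 := cir_conv hA hA (C := 2 * N) (by positivity) (by
    rw [e1]; field_simp; norm_num) z u
  have h2 := cir_conv hA hB (C := N) hN (by
    rw [e1, e2]; field_simp; norm_num) z u
  rw [← h1, ← h2, ← integral_sub]
  · refine integral_congr_ae (Filter.Eventually.of_forall fun y => ?_)
    change cir (2 * √2 * N) z (u - y) * gau (2 * √2 * N) y -
      cir (2 * √2 * N) z (u - y) * gau (√(8 / 7) * N) y = cir (2 * √2 * N) z (u - y) * psi N y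
    unfold psi
    ring
  · exact Fact_bdd (integrable_gau hA) (continuous_cir _ _) (Fact_abs _ _) u
  · exact Fact_bdd (integrable_gau hB) (continuous_cir _ _) (Fact_abs _ _) u

theorem qf_factor {N : ℝ} (hN : 0 < N) {F : ℂ → ℝ} (hF : Integrable F) (z : ℂ) :
    qf (cir (2 * N) z) F - qf (cir N z) F =
      ∫ x, ∫ y, F x * (cir (2 * √2 * N) z (x - y) * sm N F y) := by
  unfold qf
  rw [← integral_sub (Fact_outer hF (continuous_cir _ _) (Fact_abs _ _))
    (Fact_outer hF (continuous_cir _ _) (Fact_abs _ _))]
  refine integral_congr_ae (Filter.Eventually.of_forall fun x => ?_)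
  change (∫ y, F x * (cir (2 * N) z (x - y) * F y)) - (∫ y, F x * (cir N z (x - y) * F y)) =
    ∫ y, F x * (cir (2 * √2 * N) z (x - y) * sm N F y)
  rw [integral_const_mul, integral_const_mul, integral_const_mul, ← mul_sub,
    ← integral_sub (Fact_bdd hF (continuous_cir _ _) (Fact_abs _ _) x)
      (Fact_bdd hF (continuous_cir _ _) (Fact_abs _ _) x)]
  congr 1
  -- the double integral
  have hint : Integrable (fun w : ℂ × ℂ => cir (2 * √2 * N) z (x - w.1) *
      (F w.2 * psi N (w.1 - w.2))) (volume.prod volume) := by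
    refine Integrable.bdd_mul (c := (2 * √2 * N) ^ 2) (Fact_conv hN hF) ?_
      (Filter.Eventually.of_forall fun t => ?_)
    · exact ((continuous_cir _ _).comp (continuous_const.sub continuous_fst)).aestronglyMeasurable
    · rw [Real.norm_eq_abs]; exact Fact_abs _ _ _
  have h1 : ∀ t : ℂ, cir (2 * N) z (x - t) * F t - cir N z (x - t) * F t =
      ∫ y, cir (2 * √2 * N) z (x - y) * (F t * psi N (y - t)) := by
    intro t
    rw [← sub_mul, Fact_ker hN, ← integral_mul_const]
    have h2 := integral_sub_right_eq_self (μ := (volume : Measure ℂ))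
      (fun y => cir (2 * √2 * N) z (x - t - y) * psi N y * F t) t
    rw [← h2]
    refine integral_congr_ae (Filter.Eventually.of_forall fun y => ?_)
    change cir (2 * √2 * N) z (x - t - (y - t)) * psi N (y - t) * F t =
      cir (2 * √2 * N) z (x - y) * (F t * psi N (y - t))
    rw [sub_sub_sub_cancel_right]
    ring
  have h3 : ∀ y : ℂ, cir (2 * √2 * N) z (x - y) * sm N F y =
      ∫ t, cir (2 * √2 * N) z (x - y) * (F t * psi N (y - t)) := by
    intro y
    rw [integral_const_mul]
    unfold sm
    congr 1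
    refine integral_congr_ae (Filter.Eventually.of_forall fun t => ?_)
    exact mul_comm _ _
  simp only [h1, h3]
  exact (integral_integral_swap (f := fun y t : ℂ =>
    cir (2 * √2 * N) z (x - y) * (F t * psi N (y - t))) hint).symm

end Pool.MPb9430d.Frac
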