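import Pool.Agent.Lib.MP_b9430d_co.Frac.CcF
import Pool.Agent.Lib.MP_b9430d_co.Frac.Fact

/-!
# CcS: factorisation of the pair terms

`cc_conv`: `∫_y cc A z w (x - y) gau B y = cc C z w x` if `1/C² = 1/A² + 1/B²` (as `cir_conv`; Fubini in `(φ, y)` and
`cir_conv` at `x + rot φ w`).
`jj_eq`: `gd N y ^ 2 = gh (√2 N) y - 2 gh (2N/√5) y + gh (N/√2) y` (products of the exponentials:
`1/(2N)² + 1/(2N)² = 1/(√2 N)²`, `1/(2N)² + 1/N² = 1/(2N/√5)²`, `1/N² + 1/N² = 1/(N/√2)²`), so by `qf_cc`
`jj N F z w = qf (cc (√2 N) z w) F - 2 qf (cc (2N/√5) z w) F + qf (cc (N/√2) z w) F`.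
By `cc_conv` (`A, B ∈ {2N, N}`):
`cc (√2 N) z w u - 2 cc (2N/√5) z w u + cc (N/√2) z w u = ∫_y dcc N z w (u - y) dg N y`. Then exactly as in `qf_factor`
(module Fact) with `dcc N z w` (bounded by `8 N²`, continuous) in place of `cir (2√2 N) z`, `dg N` in place of `psi N`.
-/

set_option autoImplicit false

open MeasureTheory Complex Set Real Filter Topology
open scoped ENNReal

namespace Pool.MPb9430d.Frac

open Pool.MPb9430d Pool.MPb9430d.Rough

theorem cc_conv {A B C : ℝ} (hA : 0 < A) (hB : 0 < B) (hC : 0 < C)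
    (h : 1 / C ^ 2 = 1 / A ^ 2 + 1 / B ^ 2) (z w x : ℂ) :
    ∫ y, cc A z w (x - y) * gau B y = cc C z w x := by
  have hle : -π ≤ π := by linarith [Real.pi_pos]
  have h1 : ∀ y, cc A z w (x - y) * gau B y =
      (2 * π)⁻¹ * ∫ φ in Ioc (-π) π, cir A z (x - y + rot φ * w) * gau B y := by
    intro y
    unfold cc
    rw [intervalIntegral.integral_of_le hle, integral_mul_const]
    ring
  rw [integral_congr_ae (Eventually.of_forall h1), integral_const_mul]
  have hint : Integrable (Function.uncurry fun (y : ℂ) (φ : ℝ) =>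
      cir A z (x - y + rot φ * w) * gau B y)
      (volume.prod (volume.restrict (Ioc (-π) π))) := by
    have hdom : Integrable (fun q : ℂ × ℝ => A ^ 2 * gau B q.1)
        (volume.prod (volume.restrict (Ioc (-π) π))) :=
      Integrable.comp_fst ((integrable_gau hB).const_mul (A ^ 2)) _
    refine hdom.mono' ?_ (Eventually.of_forall fun q => ?_)
    · refine Continuous.aestronglyMeasurable ?_
      have hc1 := continuous_cir A z
      have hc2 := continuous_gau B
      have hc3 := continuous_rot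
      show Continuous fun q : ℂ × ℝ => cir A z (x - q.1 + rot q.2 * w) * gau B q.1
      fun_prop
    · show ‖cir A z (x - q.1 + rot q.2 * w) * gau B q.1‖ ≤ A ^ 2 * gau B q.1
      rw [Real.norm_eq_abs, abs_of_nonneg (mul_nonneg (cir_nonneg _ _ _) (gau_nonneg _ _))]
      exact mul_le_mul_of_nonneg_right (cir_le_sq A _ _) (gau_nonneg _ _)
  rw [integral_integral_swap hint]
  unfold cc
  rw [intervalIntegral.integral_of_le hle]
  congr 1
  refine integral_congr_ae (Eventually.of_forall fun φ => ?_)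
  show ∫ y, cir A z (x - y + rot φ * w) * gau B y = cir C z (x + rot φ * w)
  rw [← cir_conv hA hB hC h z (x + rot φ * w)]
  refine integral_congr_ae (Eventually.of_forall fun y => ?_)
  show cir A z (x - y + rot φ * w) * gau B y = cir A z (x + rot φ * w - y) * gau B y
  rw [show x - y + rot φ * w = x + rot φ * w - y by ring]

theorem continuous_dcc (N : ℝ) (z w : ℂ) : Continuous (dcc N z w) :=
  (continuous_cc (2 * N) z w).sub (continuous_cc N z w)

theorem abs_dcc_le (N : ℝ) (z w p : ℂ) : |dcc N z w p| ≤ 5 * N ^ 2 := by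
  have h1 := cc_nonneg (2 * N) z w p
  have h2 := cc_nonneg N z w p
  have h3 := cc_le_sq (2 * N) z w p
  have h4 := cc_le_sq N z w p
  have h5 : 0 ≤ N ^ 2 := sq_nonneg N
  have h6 : (2 * N) ^ 2 = 4 * N ^ 2 := by ring
  rw [h6] at h3
  unfold dcc
  rw [abs_le]
  constructor <;> linarith

theorem integrable_dg {N : ℝ} (hN : 0 < N) : Integrable (dg N) := by
  have h1 : 0 < 2 * N := by positivity
  exact (integrable_gau h1).sub (integrable_gau hN)

private theorem CcS_conv {N : ℝ} (hN : 0 < N) {F : ℂ → ℝ} (hF : Integrable F) :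
    Integrable (fun w : ℂ × ℂ => F w.2 * dg N (w.1 - w.2)) (volume.prod volume) :=
  Integrable.convolution_integrand (ContinuousLinearMap.mul ℝ ℝ) hF (integrable_dg hN)

theorem integrable_dsm {N : ℝ} (hN : 0 < N) {F : ℂ → ℝ} (hF : Integrable F) :
    Integrable (dsm N F) := by
  have h := (CcS_conv hN hF).integral_prod_left
  refine h.congr (Filter.Eventually.of_forall fun y => ?_)
  unfold dsm
  refine integral_congr_ae (Filter.Eventually.of_forall fun t => ?_)
  exact mul_comm _ _

private theorem CcS_bdd {K F : ℂ → ℝ} (hF : Integrable F) (hK : Continuous K) {M : ℝ}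
    (hb : ∀ u, |K u| ≤ M) (x : ℂ) : Integrable (fun t => K (x - t) * F t) := by
  refine Integrable.bdd_mul (c := M) hF ?_ (Filter.Eventually.of_forall fun t => ?_)
  · exact (hK.comp (continuous_const.sub continuous_id)).aestronglyMeasurable
  · rw [Real.norm_eq_abs]; exact hb _

private theorem CcS_outer {K F : ℂ → ℝ} (hF : Integrable F) (hK : Continuous K) {M : ℝ}
    (hb : ∀ u, |K u| ≤ M) : Integrable (fun x => ∫ t, F x * (K (x - t) * F t)) := by
  have h1 : Integrable (fun w : ℂ × ℂ => K (w.1 - w.2) * (F w.1 * F w.2))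
      (volume.prod volume) := by
    refine Integrable.bdd_mul (c := M) (hF.mul_prod hF) ?_
      (Filter.Eventually.of_forall fun t => ?_)
    · exact (hK.comp (continuous_fst.sub continuous_snd)).aestronglyMeasurable
    · rw [Real.norm_eq_abs]; exact hb _
  have h2 := h1.integral_prod_left
  refine h2.congr (Filter.Eventually.of_forall fun x => ?_)
  refine integral_congr_ae (Filter.Eventually.of_forall fun t => ?_)
  change K (x - t) * (F x * F t) = F x * (K (x - t) * F t)
  ring

private theorem CcS_lin {f g h : ℂ → ℝ} (hf : Integrable f) (hg : Integrable g)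
    (hh : Integrable h) :
    (∫ x, f x) - 2 * (∫ x, g x) + (∫ x, h x) = ∫ x, (f x - 2 * g x + h x) := by
  have h1 : Integrable (fun x => 2 * g x) := hg.const_mul 2
  have h2 : Integrable (fun x => f x - 2 * g x) := hf.sub h1
  rw [integral_add h2 hh, integral_sub hf h1, integral_const_mul]

private theorem CcS_abs (N : ℝ) (z w u : ℂ) : |cc N z w u| ≤ N ^ 2 := by
  rw [abs_of_nonneg (cc_nonneg N z w u)]
  exact cc_le_sq N z w u

private theorem CcS_gh {A B C : ℝ} (h : 1 / C ^ 2 = 1 / A ^ 2 + 1 / B ^ 2) (y : ℂ) :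
    gh A y * gh B y = gh C y := by
  unfold gh
  rw [← Real.exp_add]
  congr 1
  rw [div_eq_mul_one_div (π * ‖y‖ ^ 2) (A ^ 2), div_eq_mul_one_div (π * ‖y‖ ^ 2) (B ^ 2),
    div_eq_mul_one_div (π * ‖y‖ ^ 2) (C ^ 2), h]
  ring

private theorem CcS_a {N : ℝ} (hN : 0 < N) :
    1 / (√2 * N) ^ 2 = 1 / (2 * N) ^ 2 + 1 / (2 * N) ^ 2 := by
  have e1 : (√2 * N) ^ 2 = 2 * N ^ 2 := by
    rw [mul_pow, Real.sq_sqrt (by norm_num)]
  rw [e1]
  field_simp
  norm_num

private theorem CcS_b {N : ℝ} (hN : 0 < N) :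
    1 / (2 * N / √5) ^ 2 = 1 / (2 * N) ^ 2 + 1 / N ^ 2 := by
  have e1 : (2 * N / √5) ^ 2 = 4 * N ^ 2 / 5 := by
    rw [div_pow, Real.sq_sqrt (by norm_num)]
    ring
  rw [e1]
  field_simp
  norm_num

private theorem CcS_c {N : ℝ} (hN : 0 < N) :
    1 / (N / √2) ^ 2 = 1 / N ^ 2 + 1 / N ^ 2 := by
  have e1 : (N / √2) ^ 2 = N ^ 2 / 2 := by
    rw [div_pow, Real.sq_sqrt (by norm_num)]
  rw [e1]
  field_simp
  norm_num

private theorem CcS_gd {N : ℝ} (hN : 0 < N) (y : ℂ) :
    gd N y ^ 2 = gh (√2 * N) y - 2 * gh (2 * N / √5) y + gh (N / √2) y := by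
  have h1 := CcS_gh (CcS_a hN) y
  have h2 := CcS_gh (CcS_b hN) y
  have h3 := CcS_gh (CcS_c hN) y
  unfold gd
  rw [← h1, ← h2, ← h3]
  ring

private theorem CcS_ker {N : ℝ} (hN : 0 < N) (z w u : ℂ) :
    cc (√2 * N) z w u - 2 * cc (2 * N / √5) z w u + cc (N / √2) z w u =
      ∫ y, dcc N z w (u - y) * dg N y := by
  have hA : 0 < 2 * N := by positivity
  have ha : 0 < √2 * N := by positivity
  have hb : 0 < 2 * N / √5 := by positivity
  have hc : 0 < N / √2 := by positivity
  have h1 := cc_conv hA hA ha (CcS_a hN) z w u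
  have h2 := cc_conv hA hN hb (CcS_b hN) z w u
  have h2' := cc_conv hN hA hb ((CcS_b hN).trans (add_comm _ _)) z w u
  have h3 := cc_conv hN hN hc (CcS_c hN) z w u
  have i1 := CcS_bdd (integrable_gau hA) (continuous_cc (2 * N) z w) (CcS_abs (2 * N) z w) u
  have i2 := CcS_bdd (integrable_gau hN) (continuous_cc (2 * N) z w) (CcS_abs (2 * N) z w) u
  have i2' := CcS_bdd (integrable_gau hA) (continuous_cc N z w) (CcS_abs N z w) u
  have i3 := CcS_bdd (integrable_gau hN) (continuous_cc N z w) (CcS_abs N z w) u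
  have e : ∀ y, dcc N z w (u - y) * dg N y =
      (cc (2 * N) z w (u - y) * gau (2 * N) y - cc (2 * N) z w (u - y) * gau N y) -
      (cc N z w (u - y) * gau (2 * N) y - cc N z w (u - y) * gau N y) := by
    intro y
    unfold dcc dg
    ring
  have j1 : Integrable (fun y => cc (2 * N) z w (u - y) * gau (2 * N) y -
      cc (2 * N) z w (u - y) * gau N y) := i1.sub i2
  have j2 : Integrable (fun y => cc N z w (u - y) * gau (2 * N) y -
      cc N z w (u - y) * gau N y) := i2'.sub i3
  rw [integral_congr_ae (Eventually.of_forall e), integral_sub j1 j2,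
    integral_sub i1 i2, integral_sub i2' i3, h1, h2, h2', h3]
  ring

theorem jj_eq {N : ℝ} (hN : 0 < N) {F : ℂ → ℝ} (hF : Integrable F) (z w : ℂ) :
    jj N F z w = ∫ x, ∫ y, F x * (dcc N z w (x - y) * dsm N F y) := by
  have ha : 0 < √2 * N := by positivity
  have hb : 0 < 2 * N / √5 := by positivity
  have hc : 0 < N / √2 := by positivity
  have hj : jj N F z w = qf (cc (√2 * N) z w) F - 2 * qf (cc (2 * N / √5) z w) F +
      qf (cc (N / √2) z w) F := by
    rw [qf_cc ha z w hF, qf_cc hb z w hF, qf_cc hc z w hF]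
    have i1 := integrable_bes2_gh ha z w hF
    have i2 := integrable_bes2_gh hb z w hF
    have i3 := integrable_bes2_gh hc z w hF
    rw [CcS_lin i1 i2 i3]
    unfold jj
    refine integral_congr_ae (Eventually.of_forall fun y => ?_)
    show bes (‖z‖ * ‖y‖) * bes (‖w‖ * ‖y‖) * gd N y ^ 2 * ‖ft F y‖ ^ 2 =
      (bes (‖z‖ * ‖y‖) * bes (‖w‖ * ‖y‖) * gh (√2 * N) y * ‖ft F y‖ ^ 2 -
        2 * (bes (‖z‖ * ‖y‖) * bes (‖w‖ * ‖y‖) * gh (2 * N / √5) y * ‖ft F y‖ ^ 2)) +
        bes (‖z‖ * ‖y‖) * bes (‖w‖ * ‖y‖) * gh (N / √2) y * ‖ft F y‖ ^ 2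
    rw [CcS_gd hN]
    ring
  rw [hj]
  unfold qf
  have o1 := CcS_outer hF (continuous_cc (√2 * N) z w) (CcS_abs (√2 * N) z w)
  have o2 := CcS_outer hF (continuous_cc (2 * N / √5) z w) (CcS_abs (2 * N / √5) z w)
  have o3 := CcS_outer hF (continuous_cc (N / √2) z w) (CcS_abs (N / √2) z w)
  rw [CcS_lin o1 o2 o3]
  refine integral_congr_ae (Filter.Eventually.of_forall fun x => ?_)
  change (∫ y, F x * (cc (√2 * N) z w (x - y) * F y)) -
      2 * (∫ y, F x * (cc (2 * N / √5) z w (x - y) * F y)) +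
      (∫ y, F x * (cc (N / √2) z w (x - y) * F y)) =
    ∫ y, F x * (dcc N z w (x - y) * dsm N F y)
  have b1 := CcS_bdd hF (continuous_cc (√2 * N) z w) (CcS_abs (√2 * N) z w) x
  have b2 := CcS_bdd hF (continuous_cc (2 * N / √5) z w) (CcS_abs (2 * N / √5) z w) x
  have b3 := CcS_bdd hF (continuous_cc (N / √2) z w) (CcS_abs (N / √2) z w) x
  rw [integral_const_mul, integral_const_mul, integral_const_mul, integral_const_mul]
  have hcomb : (∫ y, cc (√2 * N) z w (x - y) * F y) -
      2 * (∫ y, cc (2 * N / √5) z w (x - y) * F y) + (∫ y, cc (N / √2) z w (x - y) * F y) =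
      ∫ y, dcc N z w (x - y) * dsm N F y := by
    rw [CcS_lin b1 b2 b3]
    -- the double integral
    have hint : Integrable (fun v : ℂ × ℂ => dcc N z w (x - v.1) *
        (F v.2 * dg N (v.1 - v.2))) (volume.prod volume) := by
      refine Integrable.bdd_mul (c := 5 * N ^ 2) (CcS_conv hN hF) ?_
        (Filter.Eventually.of_forall fun t => ?_)
      · exact ((continuous_dcc _ _ _).comp
          (continuous_const.sub continuous_fst)).aestronglyMeasurable
      · rw [Real.norm_eq_abs]; exact abs_dcc_le _ _ _ _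
    have h1 : ∀ t : ℂ, (cc (√2 * N) z w (x - t) * F t -
        2 * (cc (2 * N / √5) z w (x - t) * F t)) + cc (N / √2) z w (x - t) * F t =
        ∫ y, dcc N z w (x - y) * (F t * dg N (y - t)) := by
      intro t
      have e1 : (cc (√2 * N) z w (x - t) * F t -
          2 * (cc (2 * N / √5) z w (x - t) * F t)) + cc (N / √2) z w (x - t) * F t =
          (cc (√2 * N) z w (x - t) - 2 * cc (2 * N / √5) z w (x - t) +
            cc (N / √2) z w (x - t)) * F t := by ring
      rw [e1, CcS_ker hN, ← integral_mul_const]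
      have h2 := integral_sub_right_eq_self (μ := (volume : Measure ℂ))
        (fun y => dcc N z w (x - t - y) * dg N y * F t) t
      rw [← h2]
      refine integral_congr_ae (Filter.Eventually.of_forall fun y => ?_)
      change dcc N z w (x - t - (y - t)) * dg N (y - t) * F t =
        dcc N z w (x - y) * (F t * dg N (y - t))
      rw [sub_sub_sub_cancel_right]
      ring
    have h3 : ∀ y : ℂ, dcc N z w (x - y) * dsm N F y =
        ∫ t, dcc N z w (x - y) * (F t * dg N (y - t)) := by
      intro y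
      rw [integral_const_mul]
      unfold dsm
      congr 1
      refine integral_congr_ae (Filter.Eventually.of_forall fun t => ?_)
      exact mul_comm _ _
    simp only [h1, h3]
    exact (integral_integral_swap (f := fun y t : ℂ =>
      dcc N z w (x - y) * (F t * dg N (y - t))) hint).symm
  rw [← hcomb]
  ring

end Pool.MPb9430d.Frac
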