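import Pool.Agent.Lib.MP_b9430d_co.Frac.MDefs

/-!
# ChV: change of variables `s = |u + v exp(iθ)|`

`wt t T s = ((s²-t²)(T²-s²))^(-1/2)`, `0 < t < T`. `wt_int`: on `(t, T)`: `(s-t)(s+t)(T-s)(T+s) ≥ (s-t)(T-s)·2t·T`, and
`1/√((s-t)(T-s)) ≤ (1/√(T-t))·√2·(1/√(s-t) + 1/√(T-s))` (one of `s-t`, `T-s` is `≥ (T-t)/2`), integrable
(`intervalIntegral.intervalIntegrable_rpow'` with exponent `-1/2`, translated).
`chv`: `f(θ) = √(u²+v²+2uv cos θ)` on `[0, π]`, `f(0) = u+v`, `f(π) = |u-v| > 0`, `f' = -uv sin θ / f`; for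
`0 < θ < π`: `(f²-t²)(T²-f²) = 4u²v² sin² θ` (`f²-(u-v)² = 2uv(1+cos θ)`, `(u+v)²-f² = 2uv(1-cos θ)`), so
`Γ(f) f wt(f) f' = -Γ(f)/2`. `intervalIntegral.integral_comp_mul_deriv'''` (or
`integral_comp_mul_deriv`-type lemma on the open interval; `g = Γ s * s * wt`), with `wt_int` and boundedness of `Γ(f)`:
`∫_{u+v}^{|u-v|} Γ s wt = -(1/2)∫_0^π Γ(f)`. `wt_one`: `Γ = 1`.
-/

set_option autoImplicit false

open MeasureTheory Complex Set Real Filter Topology
open scoped ENNReal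

namespace Pool.MPb9430d.Frac

open Pool.MPb9430d Pool.MPb9430d.Rough

private theorem chv_inv {x : ℝ} (hx : 0 ≤ x) : 1 / √x = x ^ (-(1 / 2) : ℝ) := by
  rw [Real.rpow_neg hx, Real.sqrt_eq_rpow, one_div]

private theorem chv_le {x y z : ℝ} (hx : 0 < x) (hy : 0 < y) (hz : x * y ≤ z) :
    1 / √z ≤ x ^ (-(1 / 2) : ℝ) * y ^ (-(1 / 2) : ℝ) := by
  rw [← chv_inv hx.le, ← chv_inv hy.le, one_div_mul_one_div, ← Real.sqrt_mul hx.le]
  exact one_div_le_one_div_of_le (Real.sqrt_pos.2 (by positivity)) (Real.sqrt_le_sqrt hz)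

private theorem chv_meas (t T : ℝ) : Measurable (wt t T) := by
  unfold wt
  fun_prop

theorem wt_int {t T : ℝ} (ht : 0 < t) (hT : t < T) : IntervalIntegrable (wt t T) volume t T := by
  have hT0 : 0 < T := ht.trans hT
  obtain ⟨C, hC⟩ : ∃ C : ℝ, C = (T - t) * t * T := ⟨_, rfl⟩
  have hC0 : 0 < C := by rw [hC]; have := sub_pos.2 hT; positivity
  have h1 : IntervalIntegrable (fun x : ℝ => (x - t) ^ (-(1 / 2) : ℝ)) volume t T := by
    have h := (intervalIntegral.intervalIntegrable_rpow' (a := 0) (b := T - t)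
      (r := (-(1 / 2) : ℝ)) (by norm_num)).comp_sub_right t
    simpa using h
  have h2 : IntervalIntegrable (fun x : ℝ => (T - x) ^ (-(1 / 2) : ℝ)) volume t T := by
    have h := (intervalIntegral.intervalIntegrable_rpow' (a := T - t) (b := 0)
      (r := (-(1 / 2) : ℝ)) (by norm_num)).comp_sub_left T
    simpa using h
  have h3 := (h1.add h2).const_mul (C ^ (-(1 / 2) : ℝ))
  refine h3.mono_fun' (chv_meas t T).aestronglyMeasurable ?_
  rw [uIoc_of_le hT.le]
  filter_upwards [ae_restrict_mem measurableSet_Ioc] with s hs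
  have hs1 : 0 < s - t := sub_pos.2 hs.1
  have hs2 : 0 ≤ T - s := sub_nonneg.2 hs.2
  have hp1 : 0 ≤ (s - t) ^ (-(1 / 2) : ℝ) := Real.rpow_nonneg hs1.le _
  have hp2 : 0 ≤ (T - s) ^ (-(1 / 2) : ℝ) := Real.rpow_nonneg hs2 _
  have hpC : 0 ≤ C ^ (-(1 / 2) : ℝ) := Real.rpow_nonneg hC0.le _
  have hn : ‖wt t T s‖ = wt t T s := by
    rw [Real.norm_eq_abs, abs_of_nonneg]
    unfold wt
    positivity
  rw [hn]
  have hstep : wt t T s ≤ C ^ (-(1 / 2) : ℝ) * ((s - t) ^ (-(1 / 2) : ℝ) + (T - s) ^ (-(1 / 2) : ℝ)) := by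
    rcases eq_or_lt_of_le hs2 with h0 | h0
    · have : T = s := by linarith
      unfold wt
      rw [this]
      simp only [sub_self, mul_zero, Real.sqrt_zero, div_zero]
      rw [← this]
      positivity
    · rcases le_total ((T - t) / 2) (s - t) with hc | hc
      · have h5 : wt t T s ≤ C ^ (-(1 / 2) : ℝ) * (T - s) ^ (-(1 / 2) : ℝ) := by
          refine chv_le hC0 h0 ?_
          have e1 : (s ^ 2 - t ^ 2) * (T ^ 2 - s ^ 2) =
              ((s - t) * (s + t)) * ((T + s) * (T - s)) := by ring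
          rw [e1, hC]
          have e2 : (T - t) * t ≤ (s - t) * (s + t) := by nlinarith
          have e3 : T * (T - s) ≤ (T + s) * (T - s) := by nlinarith
          have e4 : (T - t) * t * T * (T - s) = ((T - t) * t) * (T * (T - s)) := by ring
          rw [e4]
          exact mul_le_mul e2 e3 (by positivity) (by nlinarith)
        nlinarith
      · have h5 : wt t T s ≤ C ^ (-(1 / 2) : ℝ) * (s - t) ^ (-(1 / 2) : ℝ) := by
          refine chv_le hC0 hs1 ?_
          have hc' : (T - t) / 2 ≤ T - s := by linarith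
          have e1 : (s ^ 2 - t ^ 2) * (T ^ 2 - s ^ 2) =
              ((s - t) * (s + t)) * ((T + s) * (T - s)) := by ring
          rw [e1, hC]
          have e2 : (s - t) * (2 * t) ≤ (s - t) * (s + t) := by nlinarith
          have e3 : T * ((T - t) / 2) ≤ (T + s) * (T - s) := by nlinarith
          have e4 : (T - t) * t * T * (s - t) = ((s - t) * (2 * t)) * (T * ((T - t) / 2)) := by ring
          rw [e4]
          have hTt := sub_pos.2 hT
          exact mul_le_mul e2 e3 (by positivity) (by nlinarith)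
        nlinarith
  simpa using hstep

theorem chv {G : ℝ → ℝ} (hG : Continuous G) {u v : ℝ} (hu : 0 < u) (hv : 0 < v) (huv : u ≠ v) :
    π⁻¹ * ∫ θ in (0 : ℝ)..π, G (√(u ^ 2 + v ^ 2 + 2 * u * v * Real.cos θ)) =
      2 / π * ∫ s in |u - v|..(u + v), G s * s * wt |u - v| (u + v) s := by
  obtain ⟨t, htdef⟩ : ∃ t : ℝ, t = |u - v| := ⟨_, rfl⟩
  obtain ⟨T, hTdef⟩ : ∃ T : ℝ, T = u + v := ⟨_, rfl⟩
  rw [← htdef, ← hTdef]
  have ht : 0 < t := by rw [htdef]; exact abs_pos.2 (sub_ne_zero.2 huv)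
  have hT : t < T := by
    rw [htdef, hTdef, abs_lt]
    constructor <;> linarith
  have ht2 : t ^ 2 = (u - v) ^ 2 := by rw [htdef, sq_abs]
  obtain ⟨f, hf⟩ : ∃ f : ℝ → ℝ, f = fun θ => √(u ^ 2 + v ^ 2 + 2 * u * v * Real.cos θ) := ⟨_, rfl⟩
  have hinner : ∀ θ : ℝ, t ^ 2 ≤ u ^ 2 + v ^ 2 + 2 * u * v * Real.cos θ := by
    intro θ
    have h1 := Real.neg_one_le_cos θ
    have h2 : 0 < u * v := mul_pos hu hv
    rw [ht2]
    nlinarith
  have hinner2 : ∀ θ : ℝ, u ^ 2 + v ^ 2 + 2 * u * v * Real.cos θ ≤ T ^ 2 := by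
    intro θ
    have h1 := Real.cos_le_one θ
    have h2 : 0 < u * v := mul_pos hu hv
    rw [hTdef]
    nlinarith
  have hpos : ∀ θ : ℝ, 0 < u ^ 2 + v ^ 2 + 2 * u * v * Real.cos θ := fun θ =>
    lt_of_lt_of_le (by positivity) (hinner θ)
  have hfpos : ∀ θ, 0 < f θ := by
    intro θ; rw [hf]; exact Real.sqrt_pos.2 (hpos θ)
  have hfsq : ∀ θ, f θ ^ 2 = u ^ 2 + v ^ 2 + 2 * u * v * Real.cos θ := by
    intro θ; rw [hf]; exact Real.sq_sqrt (hpos θ).le
  have hfc : Continuous f := by rw [hf]; fun_prop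
  have hft : ∀ θ, t ≤ f θ := fun θ => by
    refine le_of_sq_le_sq ?_ (hfpos θ).le
    rw [hfsq]; exact hinner θ
  have hfT : ∀ θ, f θ ≤ T := fun θ => by
    refine le_of_sq_le_sq ?_ (ht.trans hT).le
    rw [hfsq]; exact hinner2 θ
  have hf0 : f 0 = T := by
    have h1 := hfsq 0
    rw [Real.cos_zero] at h1
    have h2 : f 0 ^ 2 = T ^ 2 := by rw [h1, hTdef]; ring
    exact (pow_left_inj₀ (hfpos 0).le (ht.trans hT).le two_ne_zero).1 h2
  have hfp : f π = t := by
    have h1 := hfsq π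
    rw [Real.cos_pi] at h1
    have h2 : f π ^ 2 = t ^ 2 := by rw [h1, ht2]; ring
    exact (pow_left_inj₀ (hfpos π).le ht.le two_ne_zero).1 h2
  have hcont_wt : ContinuousOn (wt t T) (Ioo t T) := by
    unfold wt
    refine ContinuousOn.div continuousOn_const (by fun_prop) ?_
    intro s hs
    refine (Real.sqrt_pos.2 ?_).ne'
    have h1 : 0 < s ^ 2 - t ^ 2 := by nlinarith [hs.1]
    have h2 : 0 < T ^ 2 - s ^ 2 := by nlinarith [hs.2, hs.1]
    positivity
  obtain ⟨g, hg⟩ : ∃ g : ℝ → ℝ, g = fun s => G s * s * wt t T s := ⟨_, rfl⟩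
  obtain ⟨f', hf'⟩ : ∃ f' : ℝ → ℝ, f' = fun θ => -(u * v * Real.sin θ) / f θ := ⟨_, rfl⟩
  have hder : ∀ θ, HasDerivAt f (f' θ) θ := by
    intro θ
    have h1 : HasDerivAt (fun θ : ℝ => u ^ 2 + v ^ 2 + 2 * u * v * Real.cos θ)
        (2 * u * v * (-Real.sin θ)) θ :=
      ((Real.hasDerivAt_cos θ).const_mul (2 * u * v)).const_add (u ^ 2 + v ^ 2)
    have h2 := h1.sqrt (hpos θ).ne'
    have h3 : 2 * u * v * (-Real.sin θ) / (2 * √(u ^ 2 + v ^ 2 + 2 * u * v * Real.cos θ)) = f' θ := by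
      rw [hf', hf]
      simp only
      field_simp
    rw [h3] at h2
    rw [hf]
    exact h2
  have hgf : ∀ θ ∈ Ioo (0 : ℝ) π, (g ∘ f) θ * f' θ = -(1 / 2) * G (f θ) := by
    intro θ hθ
    have hsin : 0 < Real.sin θ := Real.sin_pos_of_pos_of_lt_pi hθ.1 hθ.2
    have e1 : (f θ ^ 2 - t ^ 2) * (T ^ 2 - f θ ^ 2) = (2 * u * v * Real.sin θ) ^ 2 := by
      rw [hfsq, ht2, hTdef]
      have := Real.sin_sq_add_cos_sq θ
      have h4 : (2 * u * v * Real.sin θ) ^ 2 = 4 * u ^ 2 * v ^ 2 * (1 - Real.cos θ ^ 2) := by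
        rw [← this]; ring
      rw [h4]; ring
    have e2 : wt t T (f θ) = 1 / (2 * u * v * Real.sin θ) := by
      unfold wt
      rw [e1, Real.sqrt_sq (by positivity)]
    rw [Function.comp_apply, hg, hf']
    simp only
    rw [e2]
    have := hfpos θ
    field_simp
  have hmain : ∫ θ in (0 : ℝ)..π, (g ∘ f) θ * f' θ = ∫ s in f 0..f π, g s := by
    refine intervalIntegral.integral_comp_mul_deriv''' hfc.continuousOn ?_ ?_ ?_ ?_
    · intro θ _
      exact (hder θ).hasDerivWithinAt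
    · rw [min_eq_left Real.pi_pos.le, max_eq_right Real.pi_pos.le]
      have hsub : f '' Ioo (0 : ℝ) π ⊆ Ioo t T := by
        rintro _ ⟨θ, hθ, rfl⟩
        have h1 : -1 < Real.cos θ := by
          have := Real.cos_lt_cos_of_nonneg_of_le_pi hθ.1.le le_rfl hθ.2
          rwa [Real.cos_pi] at this
        have h2 : Real.cos θ < 1 := by
          have := Real.cos_lt_cos_of_nonneg_of_le_pi le_rfl hθ.2.le hθ.1
          rwa [Real.cos_zero] at this
        have h3 : 0 < u * v := mul_pos hu hv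
        constructor
        · refine lt_of_pow_lt_pow_left₀ 2 (hfpos θ).le ?_
          rw [hfsq, ht2]; nlinarith
        · refine lt_of_pow_lt_pow_left₀ 2 (ht.trans hT).le ?_
          rw [hfsq, hTdef]; nlinarith
      rw [hg]
      refine ((hG.continuousOn.mul continuousOn_id).mul hcont_wt).mono hsub
    · have h1 : IntervalIntegrable g volume t T := by
        rw [hg]
        exact (wt_int ht hT).continuousOn_mul (by fun_prop)
      rw [intervalIntegrable_iff_integrableOn_Icc_of_le hT.le] at h1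
      refine h1.mono_set ?_
      rintro _ ⟨θ, _, rfl⟩
      exact ⟨hft θ, hfT θ⟩
    · rw [uIcc_of_le Real.pi_pos.le, integrableOn_Icc_iff_integrableOn_Ioo]
      have h1 : IntegrableOn (fun θ => -(1 / 2) * G (f θ)) (Ioo (0 : ℝ) π) :=
        ((continuous_const.mul (hG.comp hfc)).integrableOn_Icc (a := (0 : ℝ)) (b := π)).mono_set
          Ioo_subset_Icc_self
      exact h1.congr_fun (fun θ hθ => (hgf θ hθ).symm) measurableSet_Ioo
  have hleft : ∫ θ in (0 : ℝ)..π, (g ∘ f) θ * f' θ = -(1 / 2) * ∫ θ in (0 : ℝ)..π, G (f θ) := by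
    rw [← intervalIntegral.integral_const_mul, intervalIntegral.integral_of_le Real.pi_pos.le,
      intervalIntegral.integral_of_le Real.pi_pos.le, integral_Ioc_eq_integral_Ioo,
      integral_Ioc_eq_integral_Ioo]
    exact setIntegral_congr_fun measurableSet_Ioo hgf
  rw [hleft, hf0, hfp, intervalIntegral.integral_symm t T] at hmain
  have h7 : ∫ θ in (0 : ℝ)..π, G (f θ) = 2 * ∫ s in t..T, g s := by linarith
  have h8 : ∫ θ in (0 : ℝ)..π, G (√(u ^ 2 + v ^ 2 + 2 * u * v * Real.cos θ)) =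
      ∫ θ in (0 : ℝ)..π, G (f θ) := by rw [hf]
  rw [h8, h7, hg]
  ring

theorem wt_one {t T : ℝ} (ht : 0 < t) (hT : t < T) :
    2 / π * ∫ s in t..T, s * wt t T s = 1 := by
  have h := chv (G := fun _ => (1 : ℝ)) continuous_const (u := (T + t) / 2) (v := (T - t) / 2)
    (by linarith) (by linarith) (by intro h; linarith)
  have e1 : (T + t) / 2 - (T - t) / 2 = t := by ring
  have e2 : (T + t) / 2 + (T - t) / 2 = T := by ring
  rw [e1, e2, abs_of_pos ht] at h
  simp only [one_mul] at h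
  rw [← h]
  simp [Real.pi_ne_zero]

end Pool.MPb9430d.Frac
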