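import Pool.Agent.Lib.MP_b9430d_co.Frac.Defs

/-!
# CirA: elementary facts on the circle means `cir N z p = (1/2π) ∫ gau N (p + rot φ * z) dφ`

The integrand is jointly continuous in `(p, φ)` and bounded by `N²`.
`continuous_cir`: `intervalIntegral.continuous_parametric_intervalIntegral_of_continuous'`.
`cir_zero`: constant integrand. `cir_neg`: `‖-p + rot φ z‖ = ‖p + rot (φ+π) z‖` and periodicity
(`rot_periodic`, `Function.Periodic.intervalIntegral_add_eq`).
-/

set_option autoImplicit false

open MeasureTheory Complex Set Real Filter Topology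
open scoped ENNReal

namespace Pool.MPb9430d.Frac

open Pool.MPb9430d Pool.MPb9430d.Rough

private theorem CirA_cont (N : ℝ) (z : ℂ) :
    Continuous (Function.uncurry fun (p : ℂ) (φ : ℝ) => gau N (p + rot φ * z)) := by
  have h1 : Continuous fun q : ℂ × ℝ => q.1 + rot q.2 * z :=
    continuous_fst.add ((continuous_rot.comp continuous_snd).mul continuous_const)
  exact (continuous_gau N).comp h1

private theorem CirA_cont' (N : ℝ) (z p : ℂ) : Continuous fun φ : ℝ => gau N (p + rot φ * z) :=
  (continuous_gau N).comp (continuous_const.add (continuous_rot.mul continuous_const))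

theorem cir_nonneg (N : ℝ) (z p : ℂ) : 0 ≤ cir N z p := by
  unfold cir
  refine mul_nonneg (by positivity) ?_
  exact intervalIntegral.integral_nonneg (by linarith [Real.pi_pos]) fun φ _ => gau_nonneg N _

theorem continuous_cir (N : ℝ) (z : ℂ) : Continuous (cir N z) := by
  unfold cir
  exact continuous_const.mul
    (intervalIntegral.continuous_parametric_intervalIntegral_of_continuous' (CirA_cont N z) _ _)

theorem cir_zero (N : ℝ) (p : ℂ) : cir N 0 p = gau N p := by
  unfold cir
  have h1 : ∀ φ : ℝ, gau N (p + rot φ * 0) = gau N p := fun φ => by rw [mul_zero, add_zero]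
  simp only [h1, intervalIntegral.integral_const, smul_eq_mul]
  have hpi := Real.pi_pos.ne'
  field_simp
  ring

private theorem CirA_le (N : ℝ) (x : ℂ) : gau N x ≤ N ^ 2 := by
  unfold gau
  have h1 : Real.exp (-(π * N ^ 2 * ‖x‖ ^ 2)) ≤ 1 := by
    rw [Real.exp_le_one_iff]
    have : 0 ≤ π * N ^ 2 * ‖x‖ ^ 2 := by positivity
    linarith
  calc N ^ 2 * Real.exp (-(π * N ^ 2 * ‖x‖ ^ 2)) ≤ N ^ 2 * 1 :=
        mul_le_mul_of_nonneg_left h1 (sq_nonneg N)
    _ = N ^ 2 := mul_one _

theorem cir_le_sq (N : ℝ) (z p : ℂ) : cir N z p ≤ N ^ 2 := by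
  unfold cir
  have hpi := Real.pi_pos
  have h1 : ∫ φ in (-π)..π, gau N (p + rot φ * z) ≤ ∫ _φ in (-π)..π, N ^ 2 :=
    intervalIntegral.integral_mono_on (by linarith)
      ((CirA_cont' N z p).intervalIntegrable _ _) (continuous_const.intervalIntegrable _ _)
      fun φ _ => CirA_le N _
  rw [intervalIntegral.integral_const, smul_eq_mul] at h1
  calc (2 * π)⁻¹ * ∫ φ in (-π)..π, gau N (p + rot φ * z)
      ≤ (2 * π)⁻¹ * ((π - -π) * N ^ 2) := mul_le_mul_of_nonneg_left h1 (by positivity)
    _ = N ^ 2 := by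
      field_simp
      ring

theorem cir_neg (N : ℝ) (z p : ℂ) : cir N z (-p) = cir N z p := by
  unfold cir
  congr 1
  have hgn : ∀ x : ℂ, gau N (-x) = gau N x := fun x => by
    unfold gau
    rw [norm_neg]
  have hrp : ∀ φ : ℝ, rot (φ + π) = -rot φ := by
    intro φ
    unfold rot
    push_cast
    rw [add_mul, Complex.exp_add, Complex.exp_pi_mul_I]
    ring
  set h : ℝ → ℝ := fun φ => gau N (p + rot φ * z) with hh
  have hper : Function.Periodic h (2 * π) := by
    intro φ
    rw [hh]
    show gau N (p + rot (φ + 2 * π) * z) = gau N (p + rot φ * z)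
    rw [rot_periodic]
  have h1 : ∀ φ : ℝ, gau N (-p + rot φ * z) = h (φ + π) := by
    intro φ
    rw [hh]
    show gau N (-p + rot φ * z) = gau N (p + rot (φ + π) * z)
    rw [hrp, ← hgn]
    congr 1
    ring
  have h2 : ∫ φ in (-π)..π, gau N (-p + rot φ * z) = ∫ φ in (-π)..π, h (φ + π) := by
    refine intervalIntegral.integral_congr fun φ _ => h1 φ
  rw [h2, intervalIntegral.integral_comp_add_right]
  have h3 := hper.intervalIntegral_add_eq (-π + π) (-π)
  have e1 : -π + π + 2 * π = π + π := by ring
  have e2 : -π + 2 * π = π := by ring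
  rw [e1, e2] at h3
  exact h3

end Pool.MPb9430d.Frac
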