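import Pool.Agent.Lib.MP_b9430d_co.Frac.Defs

/-!
# CirB: size of the circle means of a Gaussian

`‖p + rot φ z‖² = ‖p‖² + ‖z‖² + 2 Re(p conj(rot φ z)) = (‖p‖ - ‖z‖)² + 2‖p‖‖z‖(1 - cos α)` with
`α = φ + arg z - arg p - π` (mod 2π), because `Re(p conj(rot φ z)) = ‖p‖‖z‖ cos(φ + arg z - arg p)`.
So `cir N z p = N² exp(-π N² (‖p‖-‖z‖)²) (1/2π) ∫_{-π}^{π} exp(-2π N² ‖p‖‖z‖ (1 - cos α)) dα` after the periodic
shift (`Function.Periodic.intervalIntegral_add_eq`). First bound: the last exponential is `≤ 1`.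
Second bound: `1 - cos α ≥ 2 α²/π²` on `[-π, π]` (`Real.one_sub_sq_div_two_le_cos` is the wrong direction; use
`Real.cos_le_one_sub_mul_cos_sq` or `cos α = 1 - 2 sin²(α/2)` and `sin(|α|/2) ≥ |α|/π`, `Real.mul_le_sin`),
so the mean is at most `(1/2π) ∫_ℝ exp(-(4/π) N² ‖p‖‖z‖ α²) dα = (1/2π) √(π² / (4 N²‖p‖‖z‖)) = 1/(4 N √(‖p‖‖z‖))`
(`integral_gaussian`).
-/

set_option autoImplicit false

open MeasureTheory Complex Set Real Filter Topology
open scoped ENNReal

namespace Pool.MPb9430d.Frac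

open Pool.MPb9430d Pool.MPb9430d.Rough

private theorem CirB_polar (z : ℂ) : z = (‖z‖ : ℂ) * rot (Complex.arg z) := by
  unfold rot
  exact (Complex.norm_mul_exp_arg_mul_I z).symm

private theorem CirB_norm (a b α : ℝ) :
    ‖(a : ℂ) - (b : ℂ) * rot α‖ ^ 2 = (a - b) ^ 2 + 2 * a * b * (1 - Real.cos α) := by
  unfold rot
  rw [Complex.sq_norm, Complex.normSq_apply, Complex.exp_mul_I]
  have h1 : ((a : ℂ) - (b : ℂ) * (Complex.cos α + Complex.sin α * I)).re = a - b * Real.cos α := by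
    simp [← Complex.ofReal_cos, ← Complex.ofReal_sin]
  have h2 : ((a : ℂ) - (b : ℂ) * (Complex.cos α + Complex.sin α * I)).im = -(b * Real.sin α) := by
    simp [← Complex.ofReal_cos, ← Complex.ofReal_sin]
  rw [h1, h2]
  have h3 := Real.sin_sq_add_cos_sq α
  linear_combination b ^ 2 * h3

private theorem CirB_eq (N : ℝ) (z p : ℂ) :
    cir N z p = (2 * π)⁻¹ * ∫ α in (-π)..π, N ^ 2 * Real.exp (-(π * N ^ 2 *
      ((‖p‖ - ‖z‖) ^ 2 + 2 * ‖p‖ * ‖z‖ * (1 - Real.cos α)))) := by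
  unfold cir
  congr 1
  set h : ℝ → ℝ := fun φ => gau N (p + rot φ * z) with hh
  have hper : Function.Periodic h (2 * π) := by
    intro φ
    rw [hh]
    show gau N (p + rot (φ + 2 * π) * z) = gau N (p + rot φ * z)
    rw [rot_periodic]
  set α₀ : ℝ := Complex.arg p - Complex.arg z + π with hα
  have hrp : ∀ φ : ℝ, rot (φ + π) = -rot φ := by
    intro φ
    unfold rot
    push_cast
    rw [add_mul, Complex.exp_add, Complex.exp_pi_mul_I]
    ring
  have h1 : ∀ α : ℝ, h (α + α₀) = N ^ 2 * Real.exp (-(π * N ^ 2 *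
      ((‖p‖ - ‖z‖) ^ 2 + 2 * ‖p‖ * ‖z‖ * (1 - Real.cos α)))) := by
    intro α
    rw [hh]
    show gau N (p + rot (α + α₀) * z) = _
    have h2 : p + rot (α + α₀) * z =
        rot (Complex.arg p) * ((‖p‖ : ℂ) - (‖z‖ : ℂ) * rot α) := by
      have e1 : α + α₀ = (α + Complex.arg p - Complex.arg z) + π := by
        rw [hα]
        ring
      have e2 : rot (α + Complex.arg p) = rot (α + Complex.arg p - Complex.arg z) *
          rot (Complex.arg z) := by
        rw [← rot_add]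
        congr 1
        ring
      calc p + rot (α + α₀) * z = (‖p‖ : ℂ) * rot (Complex.arg p) -
            (‖z‖ : ℂ) * (rot (α + Complex.arg p - Complex.arg z) * rot (Complex.arg z)) := by
            rw [e1, hrp]
            nth_rewrite 1 [CirB_polar p]
            nth_rewrite 2 [CirB_polar z]
            ring
        _ = rot (Complex.arg p) * ((‖p‖ : ℂ) - (‖z‖ : ℂ) * rot α) := by
            rw [← e2, rot_add]
            ring
    rw [h2]
    unfold gau
    rw [norm_mul, norm_rot, one_mul, CirB_norm]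
  have h3 : ∫ φ in (-π)..π, h φ = ∫ α in (-π)..π, h (α + α₀) := by
    rw [intervalIntegral.integral_comp_add_right]
    have h4 := hper.intervalIntegral_add_eq (-π) (-π + α₀)
    have e1 : -π + 2 * π = π := by ring
    have e2 : -π + α₀ + 2 * π = π + α₀ := by ring
    rw [e1, e2] at h4
    exact h4
  rw [h3]
  exact intervalIntegral.integral_congr fun α _ => h1 α

theorem cir_le {N : ℝ} (hN : 0 < N) (z p : ℂ) :
    cir N z p ≤ N ^ 2 * Real.exp (-(π * N ^ 2 * (‖p‖ - ‖z‖) ^ 2)) := by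
  have hpi := Real.pi_pos
  rw [CirB_eq]
  have h1 : ∫ α in (-π)..π, N ^ 2 * Real.exp (-(π * N ^ 2 *
      ((‖p‖ - ‖z‖) ^ 2 + 2 * ‖p‖ * ‖z‖ * (1 - Real.cos α)))) ≤
      ∫ _α in (-π)..π, N ^ 2 * Real.exp (-(π * N ^ 2 * (‖p‖ - ‖z‖) ^ 2)) := by
    refine intervalIntegral.integral_mono_on (by linarith)
      (Continuous.intervalIntegrable (by fun_prop) _ _) (continuous_const.intervalIntegrable _ _)
      fun α _ => ?_
    refine mul_le_mul_of_nonneg_left (Real.exp_le_exp.2 ?_) (sq_nonneg N)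
    have h2 : 0 ≤ 1 - Real.cos α := by linarith [Real.cos_le_one α]
    have h3 : 0 ≤ π * N ^ 2 * (2 * ‖p‖ * ‖z‖ * (1 - Real.cos α)) := by positivity
    linarith [mul_add (π * N ^ 2) ((‖p‖ - ‖z‖) ^ 2) (2 * ‖p‖ * ‖z‖ * (1 - Real.cos α))]
  rw [intervalIntegral.integral_const, smul_eq_mul] at h1
  refine (mul_le_mul_of_nonneg_left h1 (by positivity)).trans (le_of_eq ?_)
  field_simp
  ring

theorem cir_le' {N : ℝ} (hN : 0 < N) {z p : ℂ} (hz : z ≠ 0) (hp : p ≠ 0) :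
    cir N z p ≤ N / √(‖p‖ * ‖z‖) * Real.exp (-(π * N ^ 2 * (‖p‖ - ‖z‖) ^ 2)) := by
  have hpi := Real.pi_pos
  have hz0 : 0 < ‖z‖ := norm_pos_iff.2 hz
  have hp0 : 0 < ‖p‖ := norm_pos_iff.2 hp
  set P : ℝ := ‖p‖ * ‖z‖ with hP
  have hP0 : 0 < P := mul_pos hp0 hz0
  set X : ℝ := Real.exp (-(π * N ^ 2 * (‖p‖ - ‖z‖) ^ 2)) with hX
  have hX0 : 0 < X := Real.exp_pos _
  set b : ℝ := 4 * N ^ 2 * P / π with hb
  have hb0 : 0 < b := by positivity
  rw [CirB_eq]
  have h1 : ∀ α ∈ Set.Icc (-π) π, N ^ 2 * Real.exp (-(π * N ^ 2 *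
      ((‖p‖ - ‖z‖) ^ 2 + 2 * ‖p‖ * ‖z‖ * (1 - Real.cos α)))) ≤
      N ^ 2 * X * Real.exp (-b * α ^ 2) := by
    intro α hα
    rw [hX, mul_assoc (N ^ 2) (Real.exp _) (Real.exp _), ← Real.exp_add]
    refine mul_le_mul_of_nonneg_left (Real.exp_le_exp.2 ?_) (sq_nonneg N)
    have h2 : Real.cos α ≤ 1 - 2 / π ^ 2 * α ^ 2 := Real.cos_le_one_sub_mul_cos_sq (abs_le.2 hα)
    have h3 : π * N ^ 2 * (2 * P * (2 / π ^ 2 * α ^ 2)) ≤
        π * N ^ 2 * (2 * P * (1 - Real.cos α)) := by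
      refine mul_le_mul_of_nonneg_left ?_ (by positivity)
      exact mul_le_mul_of_nonneg_left (by linarith) (by positivity)
    have h4 : π * N ^ 2 * (2 * P * (2 / π ^ 2 * α ^ 2)) = b * α ^ 2 := by
      rw [hb]
      field_simp
      ring
    have h5 : π * N ^ 2 * ((‖p‖ - ‖z‖) ^ 2 + 2 * ‖p‖ * ‖z‖ * (1 - Real.cos α)) =
        π * N ^ 2 * (‖p‖ - ‖z‖) ^ 2 + π * N ^ 2 * (2 * P * (1 - Real.cos α)) := by
      rw [hP]
      ring
    rw [h5]
    linarith
  have hint : Integrable fun α : ℝ => N ^ 2 * X * Real.exp (-b * α ^ 2) :=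
    (integrable_exp_neg_mul_sq hb0).const_mul _
  have h2 : ∫ α in (-π)..π, N ^ 2 * Real.exp (-(π * N ^ 2 *
      ((‖p‖ - ‖z‖) ^ 2 + 2 * ‖p‖ * ‖z‖ * (1 - Real.cos α)))) ≤
      ∫ α in (-π)..π, N ^ 2 * X * Real.exp (-b * α ^ 2) :=
    intervalIntegral.integral_mono_on (by linarith)
      (Continuous.intervalIntegrable (by fun_prop) _ _) hint.intervalIntegrable h1
  have h3 : ∫ α in (-π)..π, N ^ 2 * X * Real.exp (-b * α ^ 2) ≤
      ∫ α : ℝ, N ^ 2 * X * Real.exp (-b * α ^ 2) := by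
    rw [intervalIntegral.integral_of_le (by linarith)]
    exact setIntegral_le_integral hint (Filter.Eventually.of_forall fun α => by positivity)
  rw [integral_const_mul, integral_gaussian] at h3
  have h4 : √(π / b) = π / (2 * N * √P) := by
    have e1 : π / b = (π / (2 * N * √P)) ^ 2 := by
      have e2 : √P ^ 2 = P := Real.sq_sqrt hP0.le
      rw [div_pow, mul_pow, mul_pow, e2, hb]
      field_simp
      ring
    rw [e1, Real.sqrt_sq (by positivity)]
  rw [h4] at h3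
  have hs0 : 0 < √P := Real.sqrt_pos.2 hP0
  refine (mul_le_mul_of_nonneg_left (h2.trans h3) (by positivity)).trans ?_
  have e : (2 * π)⁻¹ * (N ^ 2 * X * (π / (2 * N * √P))) = 1 / 4 * (N / √P * X) := by
    field_simp
    ring
  rw [e]
  have h6 : 0 < N / √P * X := by positivity
  linarith

end Pool.MPb9430d.Frac
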