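import Pool.Agent.Lib.MP_b9430d_co.Frac.GauF
import Pool.Agent.Lib.MP_b9430d_co.Frac.BesA
import Pool.Agent.Lib.MP_b9430d_co.Frac.CirA

/-!
# CirF: Fourier integral of the circle mean

`cir N z p = (1/2π) ∫_φ gau N (p + rot φ z)`, `gau N (p + rot φ z) = ∫_y ee (ip p y) ee (ip (rot φ z) y) gh N y`
(`gau_eq`, `ip_add_left`, `ee_add`). Exchange the two integrals (Fubini; the integrand has norm `gh N y`,
integrable on the product with the finite measure of `[-π, π]`; `MeasureTheory.integral_integral_swap` after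
`intervalIntegral.integral_of_le`) and use `mean_ee`.
-/

set_option autoImplicit false

open MeasureTheory Complex Set Real Filter Topology
open scoped ENNReal

namespace Pool.MPb9430d.Frac

open Pool.MPb9430d Pool.MPb9430d.Rough

private theorem CirF_int {N : ℝ} (hN : 0 < N) (z p : ℂ) :
    Integrable (Function.uncurry fun (φ : ℝ) (y : ℂ) => ee (ip (p + rot φ * z) y) * (gh N y : ℂ))
      ((volume.restrict (Set.uIoc (-π) π)).prod volume) := by
  have hfin : IsFiniteMeasure (volume.restrict (Set.uIoc (-π) π)) :=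
    ⟨by rw [Measure.restrict_apply_univ, Set.uIoc, Real.volume_Ioc]; exact ENNReal.ofReal_lt_top⟩
  have h1 := (integrable_gh hN).comp_snd (volume.restrict (Set.uIoc (-π) π))
  refine h1.mono' ?_ (Eventually.of_forall ?_)
  · refine Continuous.aestronglyMeasurable ?_
    have hg := continuous_gh N
    have he := continuous_ee
    have h2 : Continuous fun q : ℝ × ℂ => ip (p + rot q.1 * z) q.2 := by
      unfold ip rot
      fun_prop
    exact (he.comp h2).mul (Complex.continuous_ofReal.comp (hg.comp continuous_snd))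
  · rintro ⟨φ, y⟩
    simp only [Function.uncurry]
    rw [norm_mul, norm_ee, one_mul, Complex.norm_real, Real.norm_of_nonneg (gh_pos N y).le]

theorem cir_eq {N : ℝ} (hN : 0 < N) (z p : ℂ) :
    (cir N z p : ℂ) = ∫ y, ee (ip p y) * ((bes (‖z‖ * ‖y‖) * gh N y : ℝ) : ℂ) := by
  have hp : (π : ℂ) ≠ 0 := by
    exact_mod_cast Real.pi_ne_zero
  have h1 : (cir N z p : ℂ) = ((2 * π)⁻¹ : ℝ) * ∫ φ in (-π)..π, (gau N (p + rot φ * z) : ℂ) := by
    unfold cir
    rw [Complex.ofReal_mul, ← intervalIntegral.integral_ofReal]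
  have h2 : (∫ φ in (-π)..π, (gau N (p + rot φ * z) : ℂ)) =
      ∫ φ in (-π)..π, ∫ y, ee (ip (p + rot φ * z) y) * (gh N y : ℂ) := by
    refine intervalIntegral.integral_congr fun φ _ => ?_
    exact gau_eq hN _
  rw [h1, h2, intervalIntegral_integral_swap (CirF_int hN z p), ← integral_const_mul]
  refine integral_congr_ae (Eventually.of_forall fun y => ?_)
  simp only
  have h3 : (∫ φ in (-π)..π, ee (ip (p + rot φ * z) y) * (gh N y : ℂ)) =
      ee (ip p y) * (gh N y : ℂ) * ∫ φ in (-π)..π, ee (ip (rot φ * z) y) := by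
    rw [← intervalIntegral.integral_const_mul]
    refine intervalIntegral.integral_congr fun φ _ => ?_
    change ee (ip (p + rot φ * z) y) * (gh N y : ℂ) = ee (ip p y) * (gh N y : ℂ) * ee (ip (rot φ * z) y)
    rw [ip_add_left, ee_add]
    ring
  rw [h3, mean_ee]
  push_cast
  field_simp

end Pool.MPb9430d.Frac
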