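import Mathlib

/-!
# CntA: integer points near a parabola (only Mathlib)

`#{(k,l) ∈ ℤ² : 0 ≤ k ≤ 36 ρ X, |l - (k² + ρ⁴)/(2ρ²)| ≤ 480/ρ} ≤ C X √ρ` for `1 ≤ X`, `1/8 ≤ ρ ≤ 8X`.
Let `Δ = 480/ρ`, `K = 36 ρ X`. For each `k` there are at most `2Δ + 1` values `l`.
(1) `ρ ≤ 2000`: trivial, at most `(K+1)(2Δ+1) ≤ C X` and `X ≤ 3 X √ρ`.
(2) `ρ > 2000`: `Δ < 1/4`, one `l` for each `k`; Cauchy-Schwarz over blocks of length `J = ⌊ρ⌋`,
and pairs `k, k + j` with the integers `l, l'`.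
-/

set_option autoImplicit false

namespace Pool.MPb9430d.Frac

private theorem card_int (T : Finset ℤ) (a b : ℝ) (h : ∀ n ∈ T, a ≤ n ∧ (n : ℝ) ≤ b)
    (hab : a ≤ b + 1) : (T.card : ℝ) ≤ b - a + 1 := by
  have h1 : T ⊆ Finset.Icc ⌈a⌉ ⌊b⌋ := fun n hn =>
    Finset.mem_Icc.2 ⟨Int.ceil_le.2 (h n hn).1, Int.le_floor.2 (h n hn).2⟩
  have h2 := Finset.card_le_card h1
  rw [Int.card_Icc] at h2
  rcases le_or_gt (⌊b⌋ + 1 - ⌈a⌉) 0 with h3 | h3
  · rw [Int.toNat_of_nonpos h3] at h2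
    have : (T.card : ℝ) ≤ 0 := by exact_mod_cast h2
    linarith
  · have h4 : (T.card : ℤ) ≤ ⌊b⌋ + 1 - ⌈a⌉ := by
      have : ((⌊b⌋ + 1 - ⌈a⌉).toNat : ℤ) = ⌊b⌋ + 1 - ⌈a⌉ := Int.toNat_of_nonneg h3.le
      omega
    have h5 : (T.card : ℝ) ≤ (⌊b⌋ : ℝ) + 1 - (⌈a⌉ : ℝ) := by exact_mod_cast h4
    have h6 := Int.floor_le b
    have h7 := Int.le_ceil a
    linarith

private theorem card_mul {α : Type} [DecidableEq α] (s : Finset α) (f : α → ℤ) (A B : ℝ)
    (hB : 0 ≤ B) (h1 : ((s.image f).card : ℝ) ≤ A)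
    (h2 : ∀ b : ℤ, ((s.filter fun x => f x = b).card : ℝ) ≤ B) : (s.card : ℝ) ≤ A * B := by
  rw [Finset.card_eq_sum_card_image f s]
  push_cast
  calc ∑ b ∈ s.image f, ((s.filter fun x => f x = b).card : ℝ)
      ≤ ∑ b ∈ s.image f, B := Finset.sum_le_sum fun b _ => h2 b
    _ = ((s.image f).card : ℝ) * B := by rw [Finset.sum_const, nsmul_eq_mul]
    _ ≤ A * B := mul_le_mul_of_nonneg_right h1 hB

/-- Cauchy-Schwarz for the fibres of a map. -/
private theorem card_sq {α : Type} [DecidableEq α] (s : Finset α) (f : α → ℤ) (A : ℝ)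
    (h1 : ((s.image f).card : ℝ) ≤ A) :
    (s.card : ℝ) ^ 2 ≤ A * (((s ×ˢ s).filter fun p => f p.1 = f p.2).card : ℝ) := by
  have h2 : (((s ×ˢ s).filter fun p => f p.1 = f p.2).card : ℝ) =
      ∑ b ∈ s.image f, ((s.filter fun x => f x = b).card : ℝ) ^ 2 := by
    have h3 : ((s ×ˢ s).filter fun p => f p.1 = f p.2).card =
        ∑ b ∈ s.image f, (((s ×ˢ s).filter fun p => f p.1 = f p.2).filter
          fun p => f p.1 = b).card := by
      apply Finset.card_eq_sum_card_fiberwise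
      intro p hp
      have hp' := (Finset.mem_filter.1 (Finset.mem_coe.1 hp)).1
      exact Finset.mem_coe.2 (Finset.mem_image_of_mem f (Finset.mem_product.1 hp').1)
    rw [h3]
    push_cast
    refine Finset.sum_congr rfl fun b _ => ?_
    have h4 : ((s ×ˢ s).filter fun p => f p.1 = f p.2).filter (fun p => f p.1 = b) =
        (s.filter fun x => f x = b) ×ˢ (s.filter fun x => f x = b) := by
      ext p
      simp only [Finset.mem_filter, Finset.mem_product]
      constructor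
      · rintro ⟨⟨⟨h5, h6⟩, h7⟩, h8⟩
        exact ⟨⟨h5, h8⟩, h6, h7 ▸ h8⟩
      · rintro ⟨⟨h5, h8⟩, h6, h7⟩
        exact ⟨⟨⟨h5, h6⟩, h8.trans h7.symm⟩, h8⟩
    rw [h4, Finset.card_product, Nat.cast_mul, sq]
  rw [h2, Finset.card_eq_sum_card_image f s]
  push_cast
  calc (∑ b ∈ s.image f, ((s.filter fun x => f x = b).card : ℝ)) ^ 2
      ≤ ((s.image f).card : ℝ) * ∑ b ∈ s.image f, ((s.filter fun x => f x = b).card : ℝ) ^ 2 :=
        sq_sum_le_card_mul_sum_sq
    _ ≤ _ := mul_le_mul_of_nonneg_right h1 (Finset.sum_nonneg fun _ _ => sq_nonneg _)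

/-- The pairs at distance `j`. -/
private theorem pairs_j {X ρ : ℝ} (hX : 1 ≤ X) (hρ : 2000 < ρ) {S : Finset (ℤ × ℤ)}
    (hS : ∀ q ∈ S, 0 ≤ q.1 ∧ (q.1 : ℝ) ≤ 36 * ρ * X ∧
      |(q.2 : ℝ) - ((q.1 : ℝ) ^ 2 + ρ ^ 4) / (2 * ρ ^ 2)| ≤ 480 / ρ)
    (hinj : ∀ q ∈ S, ∀ q' ∈ S, q.1 = q'.1 → q = q') (j : ℤ) (hj : 1 ≤ j) (hjρ : (j : ℝ) ≤ ρ) :
    (((S ×ˢ S).filter fun p => p.2.1 - p.1.1 = j).card : ℝ) ≤
      69158 * X + 3840 * ρ * (1 / j) := by
  have hρ0 : 0 < ρ := by linarith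
  have hj0 : (1 : ℝ) ≤ j := by exact_mod_cast hj
  have hjp : (0 : ℝ) < j := by linarith
  set α : ℝ := j / ρ ^ 2 with hα
  have hαp : 0 < α := by positivity
  set Δ : ℝ := 480 / ρ with hΔ
  have hΔp : 0 < Δ := by positivity
  have hΔ4 : Δ < 1 / 4 := by
    rw [hΔ, div_lt_iff₀ hρ0]
    linarith
  set c : ℝ := (j : ℝ) ^ 2 / (2 * ρ ^ 2) with hc
  have hc0 : 0 ≤ c := by positivity
  have hc1 : c ≤ 1 / 2 := by
    rw [hc, div_le_iff₀ (by positivity)]
    nlinarith
  set P := (S ×ˢ S).filter fun p => p.2.1 - p.1.1 = j with hP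
  have key : ∀ p ∈ P, |((p.2.2 - p.1.2 : ℤ) : ℝ) - α * p.1.1 - c| ≤ 2 * Δ := by
    intro p hp
    obtain ⟨hp1, hp2⟩ := Finset.mem_filter.1 hp
    obtain ⟨h1, h2⟩ := Finset.mem_product.1 hp1
    have e1 := (hS _ h1).2.2
    have e2 := (hS _ h2).2.2
    have h3 : (p.2.1 : ℝ) = p.1.1 + j := by
      have : p.2.1 = p.1.1 + j := by linarith
      exact_mod_cast this
    rw [h3] at e2
    have h4 : ((p.2.2 - p.1.2 : ℤ) : ℝ) - α * p.1.1 - c =
        ((p.2.2 : ℝ) - (((p.1.1 : ℝ) + j) ^ 2 + ρ ^ 4) / (2 * ρ ^ 2)) -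
        ((p.1.2 : ℝ) - ((p.1.1 : ℝ) ^ 2 + ρ ^ 4) / (2 * ρ ^ 2)) := by
      push_cast
      rw [hα, hc]
      field_simp
      ring
    rw [h4]
    obtain ⟨a1, a2⟩ := abs_le.1 e1
    obtain ⟨b1, b2⟩ := abs_le.1 e2
    exact abs_le.2 ⟨by linarith, by linarith⟩
  have h5 : (P.card : ℝ) ≤ (α * (36 * ρ * X) + 2) * (4 * Δ / α + 1) := by
    apply card_mul P (fun p => p.2.2 - p.1.2)
    · positivity
    · have := card_int (P.image fun p => p.2.2 - p.1.2) 0 (α * (36 * ρ * X) + 1) ?_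
        (by have : 0 ≤ α * (36 * ρ * X) := by positivity
            linarith)
      · linarith
      · intro n hn
        obtain ⟨p, hp, rfl⟩ := Finset.mem_image.1 hn
        have h6 := abs_le.1 (key p hp)
        obtain ⟨hp1, hp2⟩ := Finset.mem_filter.1 hp
        obtain ⟨h1, h2⟩ := Finset.mem_product.1 hp1
        have h7 := hS _ h1
        have h8 : (0 : ℝ) ≤ p.1.1 := by exact_mod_cast h7.1
        have h9 : 0 ≤ α * p.1.1 := by positivity
        have h10 : α * p.1.1 ≤ α * (36 * ρ * X) := mul_le_mul_of_nonneg_left h7.2.1 hαp.le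
        constructor
        · have h11 : (-1 : ℝ) < ((p.2.2 - p.1.2 : ℤ) : ℝ) := by linarith [h6.1]
          have h12 : -1 < p.2.2 - p.1.2 := by exact_mod_cast h11
          have h13 : 0 ≤ p.2.2 - p.1.2 := by omega
          exact_mod_cast h13
        · linarith [h6.2]
    · intro n
      set Q := P.filter fun p => p.2.2 - p.1.2 = n with hQ
      have hQi : Set.InjOn (fun p : (ℤ × ℤ) × (ℤ × ℤ) => p.1.1) Q := by
        intro p hp p' hp' he
        have hp1 := (Finset.mem_filter.1 (Finset.mem_filter.1 (Finset.mem_coe.1 hp)).1)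
        have hp1' := (Finset.mem_filter.1 (Finset.mem_filter.1 (Finset.mem_coe.1 hp')).1)
        obtain ⟨h1, h2⟩ := Finset.mem_product.1 hp1.1
        obtain ⟨h1', h2'⟩ := Finset.mem_product.1 hp1'.1
        have e1 : p.1 = p'.1 := hinj _ h1 _ h1' he
        have e2 : p.2 = p'.2 := by
          apply hinj _ h2 _ h2'
          have := hp1.2
          have := hp1'.2
          have : p.1.1 = p'.1.1 := he
          omega
        exact Prod.ext e1 e2
      rw [← Finset.card_image_of_injOn hQi]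
      have := card_int (Q.image fun p => p.1.1) ((n - c - 2 * Δ) / α) ((n - c + 2 * Δ) / α) ?_
        (by have : (n - c - 2 * Δ) / α ≤ (n - c + 2 * Δ) / α := by
              apply div_le_div_of_nonneg_right _ hαp.le
              linarith
            linarith)
      · have e3 : ((n - c + 2 * Δ) / α) - ((n - c - 2 * Δ) / α) = 4 * Δ / α := by
          rw [← sub_div]
          ring
        rw [e3] at this
        exact this
      · intro k hk
        obtain ⟨p, hp, rfl⟩ := Finset.mem_image.1 hk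
        obtain ⟨hp1, hp2⟩ := Finset.mem_filter.1 hp
        have h6 := abs_le.1 (key p hp1)
        rw [hp2] at h6
        constructor
        · rw [div_le_iff₀ hαp]
          linarith [h6.2]
        · rw [le_div_iff₀ hαp]
          linarith [h6.1]
  have h6 : (α * (36 * ρ * X) + 2) * (4 * Δ / α + 1) =
      69120 * X + 36 * X * (j / ρ) + 3840 * ρ * (1 / j) + 2 := by
    rw [hα, hΔ]
    field_simp
    ring
  have h7 : (j : ℝ) / ρ ≤ 1 := (div_le_one hρ0).2 hjρ
  have h8 : 36 * X * (j / ρ) ≤ 36 * X * 1 := mul_le_mul_of_nonneg_left h7 (by linarith)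
  rw [h6] at h5
  linarith

private theorem sum_inv (m : ℕ) : ∑ j ∈ Finset.Icc 1 m, (1 / (j : ℝ)) ≤ 1 + Real.log m := by
  have h1 := harmonic_le_one_add_log m
  rw [harmonic_eq_sum_Icc] at h1
  push_cast at h1
  simpa [one_div] using h1

/-- The main case. -/
private theorem big {X ρ : ℝ} (hX : 1 ≤ X) (hρ : 2000 < ρ) (hρX : ρ ≤ 8 * X)
    {S : Finset (ℤ × ℤ)}
    (hS : ∀ q ∈ S, 0 ≤ q.1 ∧ (q.1 : ℝ) ≤ 36 * ρ * X ∧
      |(q.2 : ℝ) - ((q.1 : ℝ) ^ 2 + ρ ^ 4) / (2 * ρ ^ 2)| ≤ 480 / ρ) :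
    (S.card : ℝ) ≤ 4000 * X * √ρ := by
  have hρ0 : 0 < ρ := by linarith
  have hΔ4 : 480 / ρ < 1 / 4 := by
    rw [div_lt_iff₀ hρ0]
    linarith
  have hinj : ∀ q ∈ S, ∀ q' ∈ S, q.1 = q'.1 → q = q' := by
    intro q hq q' hq' he
    have e1 := abs_le.1 (hS _ hq).2.2
    have e2 := abs_le.1 (hS _ hq').2.2
    rw [he] at e1
    have h1 : (q.2 : ℝ) - q'.2 < 1 := by linarith [e1.2, e2.1]
    have h2 : (q'.2 : ℝ) - q.2 < 1 := by linarith [e1.1, e2.2]
    have h3 : q.2 - q'.2 < 1 := by exact_mod_cast h1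
    have h4 : q'.2 - q.2 < 1 := by exact_mod_cast h2
    exact Prod.ext he (by omega)
  set J : ℕ := ⌊ρ⌋₊ with hJ
  have hJ1 : (J : ℝ) ≤ ρ := Nat.floor_le hρ0.le
  have hJ2 : ρ < J + 1 := Nat.lt_floor_add_one ρ
  have hJ3 : 0 < J := by
    have : (0 : ℝ) < J := by linarith
    exact_mod_cast this
  have hJ4 : (0 : ℝ) < J := by exact_mod_cast hJ3
  have hJz : (0 : ℤ) < (J : ℤ) := by exact_mod_cast hJ3
  -- the blocks
  have h1 : ((S.image fun q => q.1 / (J : ℤ)).card : ℝ) ≤ 73 * X := by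
    have := card_int (S.image fun q => q.1 / (J : ℤ)) 0 (72 * X) ?_ (by linarith)
    · linarith
    · intro b hb
      obtain ⟨q, hq, rfl⟩ := Finset.mem_image.1 hb
      have h2 := hS _ hq
      constructor
      · have : 0 ≤ q.1 / (J : ℤ) := Int.ediv_nonneg h2.1 hJz.le
        exact_mod_cast this
      · have h3 : (q.1 / (J : ℤ)) * (J : ℤ) ≤ q.1 := Int.ediv_mul_le _ hJz.ne'
        have h4 : ((q.1 / (J : ℤ) : ℤ) : ℝ) * J ≤ q.1 := by exact_mod_cast h3
        have h5 : ((q.1 / (J : ℤ) : ℤ) : ℝ) * J ≤ (72 * X) * J := by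
          refine h4.trans (h2.2.1.trans ?_)
          nlinarith
        exact le_of_mul_le_mul_right h5 hJ4
  have h2 := card_sq S (fun q => q.1 / (J : ℤ)) (73 * X) h1
  -- the pairs
  set P := (S ×ˢ S).filter fun p => p.1.1 / (J : ℤ) = p.2.1 / (J : ℤ) with hP
  set R := (Finset.Icc 1 J).biUnion fun j : ℕ =>
    (S ×ˢ S).filter fun p => p.2.1 - p.1.1 = (j : ℤ) with hR
  have h3 : P ⊆ S.diag ∪ (R ∪ R.image Prod.swap) := by
    intro p hp
    obtain ⟨hp1, hp2⟩ := Finset.mem_filter.1 hp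
    obtain ⟨h4, h5⟩ := Finset.mem_product.1 hp1
    have h6 := Int.emod_add_mul_ediv p.1.1 J
    have h7 := Int.emod_add_mul_ediv p.2.1 J
    rw [hp2] at h6
    have h8 := Int.emod_lt_of_pos p.1.1 hJz
    have h9 := Int.emod_lt_of_pos p.2.1 hJz
    have h10 := Int.emod_nonneg p.1.1 hJz.ne'
    have h11 := Int.emod_nonneg p.2.1 hJz.ne'
    rcases lt_trichotomy p.1.1 p.2.1 with h12 | h12 | h12
    · refine Finset.mem_union_right _ (Finset.mem_union_left _ ?_)
      refine Finset.mem_biUnion.2 ⟨(p.2.1 - p.1.1).toNat, Finset.mem_Icc.2 ⟨?_, ?_⟩, ?_⟩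
      · omega
      · omega
      · refine Finset.mem_filter.2 ⟨hp1, ?_⟩
        omega
    · refine Finset.mem_union_left _ (Finset.mem_diag.2 ⟨h4, hinj _ h4 _ h5 h12⟩)
    · refine Finset.mem_union_right _ (Finset.mem_union_right _ ?_)
      refine Finset.mem_image.2 ⟨p.swap, ?_, Prod.swap_swap p⟩
      refine Finset.mem_biUnion.2 ⟨(p.1.1 - p.2.1).toNat, Finset.mem_Icc.2 ⟨?_, ?_⟩, ?_⟩
      · omega
      · omega
      · refine Finset.mem_filter.2 ⟨Finset.mem_product.2 ⟨h5, h4⟩, ?_⟩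
        change p.1.1 - p.2.1 = _
        omega
  have h4 : (R.card : ℝ) ≤ 100000 * ρ * X := by
    calc (R.card : ℝ) ≤ ((∑ j ∈ Finset.Icc 1 J,
          ((S ×ˢ S).filter fun p => p.2.1 - p.1.1 = (j : ℤ)).card : ℕ) : ℝ) := by
            exact_mod_cast Finset.card_biUnion_le
      _ = ∑ j ∈ Finset.Icc 1 J,
          (((S ×ˢ S).filter fun p => p.2.1 - p.1.1 = (j : ℤ)).card : ℝ) := by push_cast; rfl
      _ ≤ ∑ j ∈ Finset.Icc 1 J, (69158 * X + 3840 * ρ * (1 / (j : ℝ))) := by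
          refine Finset.sum_le_sum fun j hj => ?_
          obtain ⟨hj1, hj2⟩ := Finset.mem_Icc.1 hj
          have hj3 : (j : ℝ) ≤ J := by exact_mod_cast hj2
          have := pairs_j hX hρ hS hinj (j : ℤ) (by exact_mod_cast hj1)
            (by push_cast; linarith)
          simpa using this
      _ = J * (69158 * X) + 3840 * ρ * ∑ j ∈ Finset.Icc 1 J, (1 / (j : ℝ)) := by
          rw [Finset.sum_add_distrib, Finset.sum_const, Nat.card_Icc, nsmul_eq_mul,
            Finset.mul_sum]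
          norm_num
      _ ≤ ρ * (69158 * X) + 3840 * ρ * (8 * X) := by
          have h5 : ∑ j ∈ Finset.Icc 1 J, (1 / (j : ℝ)) ≤ 8 * X := by
            have h6 := sum_inv J
            have h7 := Real.log_le_sub_one_of_pos hJ4
            linarith
          have h8 : 3840 * ρ * ∑ j ∈ Finset.Icc 1 J, (1 / (j : ℝ)) ≤ 3840 * ρ * (8 * X) :=
            mul_le_mul_of_nonneg_left h5 (by linarith)
          have h9 : J * (69158 * X) ≤ ρ * (69158 * X) :=
            mul_le_mul_of_nonneg_right hJ1 (by linarith)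
          linarith
      _ ≤ 100000 * ρ * X := by nlinarith [mul_pos hρ0 (by linarith : 0 < X)]
  have h5 : (P.card : ℝ) ≤ S.card + 2 * (100000 * ρ * X) := by
    have h6 := (Finset.card_le_card h3).trans ((Finset.card_union_le _ _).trans
      (Nat.add_le_add_left ((Finset.card_union_le _ _).trans
        (Nat.add_le_add_left Finset.card_image_le _)) _))
    rw [Finset.diag_card] at h6
    have h7 : (P.card : ℝ) ≤ S.card + (R.card + R.card) := by exact_mod_cast h6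
    linarith
  have h6 : (S.card : ℝ) ^ 2 ≤ 73 * X * (S.card + 2 * (100000 * ρ * X)) :=
    h2.trans (mul_le_mul_of_nonneg_left h5 (by linarith))
  set Y := X * √ρ with hY
  have hs1 : 1 ≤ √ρ := Real.one_le_sqrt.2 (by linarith)
  have hY1 : X ≤ Y := by nlinarith
  have hY2 : Y ^ 2 = X ^ 2 * ρ := by rw [hY, mul_pow, Real.sq_sqrt hρ0.le]
  by_contra hcon
  push Not at hcon
  have h7 : 4000 * Y < S.card := by
    calc 4000 * Y = 4000 * X * √ρ := by rw [hY]; ring
      _ < _ := hcon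
  set N : ℝ := (S.card : ℝ) with hN
  have hN0 : 0 ≤ N := Nat.cast_nonneg _
  have hY0 : 0 < Y := by linarith
  have h8 : 73 * X * (N + 2 * (100000 * ρ * X)) = 73 * X * N + 14600000 * Y ^ 2 := by
    rw [hY2]
    ring
  rw [h8] at h6
  have h9 : X * N ≤ Y * N := mul_le_mul_of_nonneg_right hY1 hN0
  nlinarith

theorem cnt_a : ∃ C : ℝ, 0 < C ∧ ∀ X ρ : ℝ, 1 ≤ X → 1 / 8 ≤ ρ → ρ ≤ 8 * X →
    ∀ S : Finset (ℤ × ℤ), (∀ q ∈ S, 0 ≤ q.1 ∧ (q.1 : ℝ) ≤ 36 * ρ * X ∧
      |(q.2 : ℝ) - ((q.1 : ℝ) ^ 2 + ρ ^ 4) / (2 * ρ ^ 2)| ≤ 480 / ρ) →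
      (S.card : ℝ) ≤ C * X * √ρ := by
  refine ⟨400000, by norm_num, ?_⟩
  intro X ρ hX hρ1 hρX S hS
  rcases lt_or_ge 2000 ρ with hρ | hρ
  · refine (big hX hρ hρX hS).trans ?_
    have : 0 ≤ X * √ρ := by positivity
    nlinarith
  · have hρ0 : 0 < ρ := by linarith
    have h1 : (S.card : ℝ) ≤ (36 * ρ * X + 1) * (960 / ρ + 1) := by
      apply card_mul S (fun q => q.1)
      · positivity
      · have := card_int (S.image fun q => q.1) 0 (36 * ρ * X) ?_
          (by have : 0 ≤ 36 * ρ * X := by positivity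
              linarith)
        · linarith
        · intro k hk
          obtain ⟨q, hq, rfl⟩ := Finset.mem_image.1 hk
          exact ⟨by exact_mod_cast (hS _ hq).1, (hS _ hq).2.1⟩
      · intro k
        set Q := S.filter fun q => q.1 = k with hQ
        have hQi : Set.InjOn (fun q : ℤ × ℤ => q.2) Q := by
          intro q hq q' hq' he
          have e1 := (Finset.mem_filter.1 (Finset.mem_coe.1 hq)).2
          have e2 := (Finset.mem_filter.1 (Finset.mem_coe.1 hq')).2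
          exact Prod.ext (e1.trans e2.symm) he
        rw [← Finset.card_image_of_injOn hQi]
        have := card_int (Q.image fun q => q.2)
          (((k : ℝ) ^ 2 + ρ ^ 4) / (2 * ρ ^ 2) - 480 / ρ)
          (((k : ℝ) ^ 2 + ρ ^ 4) / (2 * ρ ^ 2) + 480 / ρ) ?_
          (by have : 0 ≤ 480 / ρ := by positivity
              linarith)
        · have e3 : (960 : ℝ) / ρ = 480 / ρ + 480 / ρ := by ring
          rw [e3]
          linarith
        · intro l hl
          obtain ⟨q, hq, rfl⟩ := Finset.mem_image.1 hl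
          obtain ⟨hq1, hq2⟩ := Finset.mem_filter.1 hq
          have e1 := abs_le.1 (hS _ hq1).2.2
          rw [hq2] at e1
          constructor
          · linarith [e1.1]
          · linarith [e1.2]
    have h2 : (36 * ρ * X + 1) * (960 / ρ + 1) = 34560 * X + 36 * ρ * X + 960 / ρ + 1 := by
      field_simp
      ring
    have h3 : 960 / ρ ≤ 7680 := by
      rw [div_le_iff₀ hρ0]
      linarith
    have h4 : ρ * X ≤ 2000 * X := mul_le_mul_of_nonneg_right hρ (by linarith)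
    have h5 : 1 / 3 ≤ √ρ := by
      apply Real.le_sqrt_of_sq_le
      norm_num
      linarith
    rw [h2] at h1
    have h6 : X * (1 / 3) ≤ X * √ρ := mul_le_mul_of_nonneg_left h5 (by linarith)
    nlinarith

end Pool.MPb9430d.Frac
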