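import Pool.Agent.Lib.MP_b9430d_co.Frac.CntA

/-!
# CntB: pairs of integers with a given difference or sum of square roots

`(m, m') ∈ [1, 4X²]²`, `a = √m, b = √m' ≤ 2X`, `k = |m - m'|`, `l = m + m'`. Identity
`k² - 2ρ² l + ρ⁴ = (a - b - ρ)(a - b + ρ)(a + b - ρ)(a + b + ρ)`. Let `δ = 1/X² ≤ 1 ≤ 8ρ`.
* difference: `||a-b| - ρ| ≤ δ`; let `a ≥ b`. `|a-b-ρ| ≤ δ`, `|a-b+ρ| ≤ 2ρ+δ ≤ 10ρ`, `|a+b-ρ| ≤ 8X` (`0 ≤ a+b ≤ 4X`, `ρ ≤ 8X`),
  `|a+b+ρ| ≤ 12X`: product `≤ 960 ρ`; `k = (a-b)(a+b) ≤ (ρ+δ) 4X ≤ 36 ρ X`.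
* sum: `|a+b-ρ| ≤ δ`, `|a+b+ρ| ≤ 10ρ`, `|(a-b)² - ρ²| ≤ 68X²`: product `≤ 680 ρ`; `k = |a-b|(a+b) ≤ 2X(ρ+δ) ≤ 18 ρ X`.
In both cases `|l - (k²+ρ⁴)/(2ρ²)| ≤ 480/ρ`, so `(k, l)` is counted by `cnt_a`; `(m, m')` is determined by `(k, l)` and
the sign of `m - m'` (two values). So the constant is twice that of `cnt_a`.
(Map the filtered set to `{(k,l)} × Bool` injectively, or split it into `m.1 ≥ m.2` and `m.1 < m.2`; on each part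
`(m.1 - m.2, m.1 + m.2)` is injective: `Finset.card_le_card_of_injOn` / `Finset.card_image_of_injOn`.)
-/

set_option autoImplicit false

namespace Pool.MPb9430d.Frac

private theorem cntB_core {X ρ a b : ℝ} (hX : 1 ≤ X) (hρ : 1 / 8 ≤ ρ) (hρ2 : ρ ≤ 8 * X)
    (hb : 0 ≤ b) (hab : b ≤ a) (ha2 : a ≤ 2 * X)
    (h : |(a - b) - ρ| ≤ 1 / X ^ 2 ∨ |a + b - ρ| ≤ 1 / X ^ 2) :
    a ^ 2 - b ^ 2 ≤ 36 * ρ * X ∧
      |(a ^ 2 + b ^ 2) - ((a ^ 2 - b ^ 2) ^ 2 + ρ ^ 4) / (2 * ρ ^ 2)| ≤ 480 / ρ := by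
  have hρ0 : 0 < ρ := by linarith
  have hX0 : 0 < X := by linarith
  have hδ0 : 0 < 1 / X ^ 2 := by positivity
  have hδ1 : 1 / X ^ 2 ≤ 1 := by
    rw [div_le_one (by positivity)]
    nlinarith
  have hδX : 1 / X ^ 2 * X ^ 2 = 1 := by field_simp
  set δ := 1 / X ^ 2 with hδ
  have hid : (a ^ 2 + b ^ 2) - ((a ^ 2 - b ^ 2) ^ 2 + ρ ^ 4) / (2 * ρ ^ 2) =
      -(((a - b - ρ) * (a - b + ρ) * ((a + b - ρ) * (a + b + ρ))) / (2 * ρ ^ 2)) := by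
    field_simp
    ring
  have key : a ^ 2 - b ^ 2 ≤ 36 * ρ * X ∧
      |(a - b - ρ) * (a - b + ρ) * ((a + b - ρ) * (a + b + ρ))| ≤ 960 * ρ := by
    have e1 : |a + b + ρ| = a + b + ρ := abs_of_nonneg (by linarith)
    have e2 : |a - b + ρ| = a - b + ρ := abs_of_nonneg (by linarith)
    rcases h with h | h
    · have h1 := abs_le.1 h
      constructor
      · have : a ^ 2 - b ^ 2 = (a - b) * (a + b) := by ring
        rw [this]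
        calc (a - b) * (a + b) ≤ (9 * ρ) * (4 * X) :=
              mul_le_mul (by linarith) (by linarith) (by linarith) (by linarith)
          _ = 36 * ρ * X := by ring
      · rw [abs_mul, abs_mul, abs_mul]
        have h2 : |a + b - ρ| ≤ 8 * X := by
          rw [abs_le]; constructor <;> linarith
        calc |a - b - ρ| * |a - b + ρ| * (|a + b - ρ| * |a + b + ρ|)
            ≤ δ * (10 * ρ) * (8 * X * (12 * X)) := by
              apply mul_le_mul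
              · exact mul_le_mul h (by rw [e2]; linarith) (abs_nonneg _) hδ0.le
              · exact mul_le_mul h2 (by rw [e1]; linarith) (abs_nonneg _) (by positivity)
              · positivity
              · positivity
          _ = 960 * ρ * (δ * X ^ 2) := by ring
          _ = 960 * ρ := by rw [hδX, mul_one]
    · have h1 := abs_le.1 h
      constructor
      · have : a ^ 2 - b ^ 2 = (a - b) * (a + b) := by ring
        rw [this]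
        calc (a - b) * (a + b) ≤ (2 * X) * (9 * ρ) :=
              mul_le_mul (by linarith) (by linarith) (by linarith) (by linarith)
          _ ≤ 36 * ρ * X := by nlinarith
      · have h3 : |(a - b - ρ) * (a - b + ρ)| ≤ 68 * X ^ 2 := by
          have h4 : (a - b - ρ) * (a - b + ρ) = (a - b) ^ 2 - ρ ^ 2 := by ring
          rw [h4]
          have h5 : (a - b) ^ 2 ≤ (2 * X) ^ 2 := pow_le_pow_left₀ (by linarith) (by linarith) 2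
          have h6 : ρ ^ 2 ≤ (8 * X) ^ 2 := pow_le_pow_left₀ hρ0.le hρ2 2
          rw [abs_le]
          constructor <;> nlinarith [sq_nonneg (a - b), sq_nonneg ρ]
        rw [abs_mul]
        calc |(a - b - ρ) * (a - b + ρ)| * |(a + b - ρ) * (a + b + ρ)|
            ≤ (68 * X ^ 2) * (δ * (10 * ρ)) := by
              apply mul_le_mul h3
              · rw [abs_mul]
                exact mul_le_mul h (by rw [e1]; linarith) (abs_nonneg _) hδ0.le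
              · positivity
              · positivity
          _ = 680 * ρ * (δ * X ^ 2) := by ring
          _ = 680 * ρ := by rw [hδX, mul_one]
          _ ≤ 960 * ρ := by linarith
  refine ⟨key.1, ?_⟩
  rw [hid, abs_neg, abs_div, abs_of_pos (show (0 : ℝ) < 2 * ρ ^ 2 by positivity)]
  rw [div_le_div_iff₀ (by positivity) hρ0]
  calc |(a - b - ρ) * (a - b + ρ) * ((a + b - ρ) * (a + b + ρ))| * ρ ≤ 960 * ρ * ρ :=
        mul_le_mul_of_nonneg_right key.2 hρ0.le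
    _ = 480 * (2 * ρ ^ 2) := by ring

private theorem cntB_sqrt_le {X : ℝ} (hX : 1 ≤ X) {m : ℕ} (hm : m ≤ ⌊4 * X ^ 2⌋₊) :
    √(m : ℝ) ≤ 2 * X := by
  have h1 : (m : ℝ) ≤ 4 * X ^ 2 := (Nat.cast_le.2 hm).trans (Nat.floor_le (by positivity))
  rw [Real.sqrt_le_left (by linarith)]
  nlinarith

private theorem cntB_inj : Function.Injective fun m : ℕ × ℕ =>
    ((m.1 : ℤ) - (m.2 : ℤ), (m.1 : ℤ) + (m.2 : ℤ)) := by
  intro m m' h
  have h1 : (m.1 : ℤ) - (m.2 : ℤ) = (m'.1 : ℤ) - (m'.2 : ℤ) := congrArg Prod.fst h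
  have h2 : (m.1 : ℤ) + (m.2 : ℤ) = (m'.1 : ℤ) + (m'.2 : ℤ) := congrArg Prod.snd h
  apply Prod.ext <;> omega

private theorem cntB_inj' : Function.Injective fun m : ℕ × ℕ =>
    ((m.2 : ℤ) - (m.1 : ℤ), (m.2 : ℤ) + (m.1 : ℤ)) := by
  intro m m' h
  have h1 : (m.2 : ℤ) - (m.1 : ℤ) = (m'.2 : ℤ) - (m'.1 : ℤ) := congrArg Prod.fst h
  have h2 : (m.2 : ℤ) + (m.1 : ℤ) = (m'.2 : ℤ) + (m'.1 : ℤ) := congrArg Prod.snd h
  apply Prod.ext <;> omega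

open Classical in
theorem cnt_b : ∃ C : ℝ, 0 < C ∧ ∀ X ρ : ℝ, 1 ≤ X → 1 / 8 ≤ ρ → ρ ≤ 8 * X →
    (((Finset.Icc 1 ⌊4 * X ^ 2⌋₊ ×ˢ Finset.Icc 1 ⌊4 * X ^ 2⌋₊).filter fun m : ℕ × ℕ =>
      |(|√(m.1 : ℝ) - √(m.2 : ℝ)|) - ρ| ≤ 1 / X ^ 2 ∨
        |√(m.1 : ℝ) + √(m.2 : ℝ) - ρ| ≤ 1 / X ^ 2).card : ℝ) ≤ C * X * √ρ := by
  obtain ⟨C, hC, hcnt⟩ := cnt_a
  refine ⟨2 * C, by positivity, fun X ρ hX hρ hρ2 => ?_⟩
  set T := (Finset.Icc 1 ⌊4 * X ^ 2⌋₊ ×ˢ Finset.Icc 1 ⌊4 * X ^ 2⌋₊).filter fun m : ℕ × ℕ =>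
      |(|√(m.1 : ℝ) - √(m.2 : ℝ)|) - ρ| ≤ 1 / X ^ 2 ∨
        |√(m.1 : ℝ) + √(m.2 : ℝ) - ρ| ≤ 1 / X ^ 2 with hT
  have hsplit : T.card ≤ (T.filter fun m : ℕ × ℕ => m.2 ≤ m.1).card +
      (T.filter fun m : ℕ × ℕ => m.1 ≤ m.2).card := by
    refine (Finset.card_le_card (t := T.filter (fun m : ℕ × ℕ => m.2 ≤ m.1) ∪
      T.filter (fun m : ℕ × ℕ => m.1 ≤ m.2)) ?_).trans (Finset.card_union_le _ _)
    intro m hm
    rcases le_total m.2 m.1 with h | h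
    · exact Finset.mem_union_left _ (Finset.mem_filter.2 ⟨hm, h⟩)
    · exact Finset.mem_union_right _ (Finset.mem_filter.2 ⟨hm, h⟩)
  have hmem : ∀ m ∈ T, (m.1 ≤ ⌊4 * X ^ 2⌋₊ ∧ m.2 ≤ ⌊4 * X ^ 2⌋₊) ∧
      (|(|√(m.1 : ℝ) - √(m.2 : ℝ)|) - ρ| ≤ 1 / X ^ 2 ∨
        |√(m.1 : ℝ) + √(m.2 : ℝ) - ρ| ≤ 1 / X ^ 2) := by
    intro m hm
    rw [hT, Finset.mem_filter, Finset.mem_product, Finset.mem_Icc, Finset.mem_Icc] at hm
    exact ⟨⟨hm.1.1.2, hm.1.2.2⟩, hm.2⟩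
  have h1 : ((T.filter fun m : ℕ × ℕ => m.2 ≤ m.1).card : ℝ) ≤ C * X * √ρ := by
    rw [← Finset.card_image_of_injective (T.filter fun m : ℕ × ℕ => m.2 ≤ m.1) cntB_inj]
    refine hcnt X ρ hX hρ hρ2 _ fun q hq => ?_
    obtain ⟨m, hm, rfl⟩ := Finset.mem_image.1 hq
    rw [Finset.mem_filter] at hm
    obtain ⟨hm1, hm2⟩ := hm
    obtain ⟨⟨h3, h4⟩, h5⟩ := hmem m hm1
    have hle : √(m.2 : ℝ) ≤ √(m.1 : ℝ) := Real.sqrt_le_sqrt (Nat.cast_le.2 hm2)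
    have h6 : |(√(m.1 : ℝ) - √(m.2 : ℝ)) - ρ| ≤ 1 / X ^ 2 ∨
        |√(m.1 : ℝ) + √(m.2 : ℝ) - ρ| ≤ 1 / X ^ 2 := by
      rwa [abs_of_nonneg (sub_nonneg.2 hle)] at h5
    have h7 := cntB_core hX hρ hρ2 (Real.sqrt_nonneg _) hle (cntB_sqrt_le hX h3) h6
    rw [Real.sq_sqrt (Nat.cast_nonneg _), Real.sq_sqrt (Nat.cast_nonneg _)] at h7
    refine ⟨by simp only; omega, ?_, ?_⟩
    · push_cast
      exact h7.1
    · push_cast
      exact h7.2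
  have h2 : ((T.filter fun m : ℕ × ℕ => m.1 ≤ m.2).card : ℝ) ≤ C * X * √ρ := by
    rw [← Finset.card_image_of_injective (T.filter fun m : ℕ × ℕ => m.1 ≤ m.2) cntB_inj']
    refine hcnt X ρ hX hρ hρ2 _ fun q hq => ?_
    obtain ⟨m, hm, rfl⟩ := Finset.mem_image.1 hq
    rw [Finset.mem_filter] at hm
    obtain ⟨hm1, hm2⟩ := hm
    obtain ⟨⟨h3, h4⟩, h5⟩ := hmem m hm1
    have hle : √(m.1 : ℝ) ≤ √(m.2 : ℝ) := Real.sqrt_le_sqrt (Nat.cast_le.2 hm2)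
    have h6 : |(√(m.2 : ℝ) - √(m.1 : ℝ)) - ρ| ≤ 1 / X ^ 2 ∨
        |√(m.2 : ℝ) + √(m.1 : ℝ) - ρ| ≤ 1 / X ^ 2 := by
      rwa [abs_sub_comm (√(m.1 : ℝ)) (√(m.2 : ℝ)), abs_of_nonneg (sub_nonneg.2 hle), add_comm (√(m.1 : ℝ))] at h5
    have h7 := cntB_core hX hρ hρ2 (Real.sqrt_nonneg _) hle (cntB_sqrt_le hX h4) h6
    rw [Real.sq_sqrt (Nat.cast_nonneg _), Real.sq_sqrt (Nat.cast_nonneg _)] at h7
    refine ⟨by simp only; omega, ?_, ?_⟩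
    · push_cast
      exact h7.1
    · push_cast
      exact h7.2
  have h3 : (T.card : ℝ) ≤ ((T.filter fun m : ℕ × ℕ => m.2 ≤ m.1).card : ℝ) +
      ((T.filter fun m : ℕ × ℕ => m.1 ≤ m.2).card : ℝ) := by exact_mod_cast hsplit
  calc (T.card : ℝ) ≤ C * X * √ρ + C * X * √ρ := h3.trans (add_le_add h1 h2)
    _ = 2 * C * X * √ρ := by ring

end Pool.MPb9430d.Frac
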