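import Pool.Agent.Lib.MP_b9430d_co.Frac.MDefs
import Pool.Agent.Lib.MP_b9430d_co.Frac.QfF
import Pool.Agent.Lib.MP_b9430d_co.Frac.Pl

/-!
# CsM: Cauchy-Schwarz for the sum over a finite set of lattice points

By `qf_cir`: `bp N F p = ∫ bes(‖lat p‖‖y‖) gd N y ‖ft F y‖²` (`integrable_bes_gh`, difference of two integrals). So
`∑_{p∈P} bp N F p = ∫ c(y) ‖ft F y‖²`, `c(y) = (∑_{p∈P} bes(‖lat p‖‖y‖)) gd N y` (bounded, continuous). Cauchy-Schwarz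
`(∫ c g)² ≤ (∫ g)(∫ c² g)`, `g = ‖ft F y‖² ≥ 0` integrable (`plancherel`): e.g. expand `0 ≤ ∫ (t + s c)² g` for all real `t, s`
(discriminant, `discrim_le_zero`), or `t := ∫ c g`, `s := ...`. `∫ g = ∫ F²` (`plancherel`), and
`∫ c² g = ∑_p ∑_q jj N F (lat p) (lat q)` (`Finset.sum_mul_sum`, `integral_finsetSum`).
`integrable_jj`: `|bes bes gd²| ≤ 1` (`abs_bes_le_one`, `0 ≤ gd ≤ 1`).
-/

set_option autoImplicit false

open MeasureTheory Complex Set Real Filter Topology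
open scoped ENNReal

namespace Pool.MPb9430d.Frac

open Pool.MPb9430d Pool.MPb9430d.Rough

private theorem CsM_cont_bes (z : ℂ) : Continuous (fun y : ℂ => bes (‖z‖ * ‖y‖)) :=
  continuous_bes.comp (continuous_const.mul continuous_norm)

private theorem CsM_cont_gd (N : ℝ) : Continuous (gd N) :=
  (continuous_gh (2 * N)).sub (continuous_gh N)

private theorem CsM_gd (N : ℝ) (y : ℂ) : |gd N y| ≤ 1 := by
  have h1 := gh_pos (2 * N) y
  have h2 := gh_pos N y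
  have h3 := gh_le_one (2 * N) y
  have h4 := gh_le_one N y
  unfold gd
  rw [abs_le]
  constructor <;> linarith

theorem integrable_jj {F : ℂ → ℝ} (hm : Measurable F) (hF : Integrable F) (hb : ∀ x, |F x| ≤ 1)
    (N : ℝ) (z w : ℂ) :
    Integrable (fun y => bes (‖z‖ * ‖y‖) * bes (‖w‖ * ‖y‖) * gd N y ^ 2 * ‖ft F y‖ ^ 2) := by
  refine (plancherel hm hF hb).1.bdd_mul (c := 1)
    (((CsM_cont_bes z).mul (CsM_cont_bes w)).mul ((CsM_cont_gd N).pow 2)).aestronglyMeasurable ?_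
  refine Filter.Eventually.of_forall fun y => ?_
  rw [Real.norm_eq_abs, abs_mul, abs_mul, abs_pow]
  have h1 := abs_bes_le_one (‖z‖ * ‖y‖)
  have h2 := abs_bes_le_one (‖w‖ * ‖y‖)
  have h3 := pow_le_one₀ (abs_nonneg _) (CsM_gd N y) (n := 2)
  exact mul_le_one₀ (mul_le_one₀ h1 (abs_nonneg _) h2) (by positivity) h3

private theorem CsM_int {F : ℂ → ℝ} (hm : Measurable F) (hF : Integrable F) (hb : ∀ x, |F x| ≤ 1)
    (N : ℝ) (z : ℂ) : Integrable (fun y => bes (‖z‖ * ‖y‖) * gd N y * ‖ft F y‖ ^ 2) := by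
  refine (plancherel hm hF hb).1.bdd_mul (c := 1)
    ((CsM_cont_bes z).mul (CsM_cont_gd N)).aestronglyMeasurable ?_
  refine Filter.Eventually.of_forall fun y => ?_
  rw [Real.norm_eq_abs, abs_mul]
  exact mul_le_one₀ (abs_bes_le_one _) (abs_nonneg _) (CsM_gd N y)

private theorem CsM_bp {F : ℂ → ℝ} (hF : Integrable F) {N : ℝ} (hN : 0 < N) (p : ℤ × ℤ) :
    bp N F p = ∫ y, bes (‖lat p‖ * ‖y‖) * gd N y * ‖ft F y‖ ^ 2 := by
  unfold bp
  rw [qf_cir (by linarith : 0 < 2 * N) (lat p) hF, qf_cir hN (lat p) hF,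
    ← integral_sub (integrable_bes_gh (by linarith : 0 < 2 * N) (lat p) hF)
      (integrable_bes_gh hN (lat p) hF)]
  refine integral_congr_ae (Filter.Eventually.of_forall fun y => ?_)
  show bes (‖lat p‖ * ‖y‖) * gh (2 * N) y * ‖ft F y‖ ^ 2 -
    bes (‖lat p‖ * ‖y‖) * gh N y * ‖ft F y‖ ^ 2 = bes (‖lat p‖ * ‖y‖) * gd N y * ‖ft F y‖ ^ 2
  unfold gd
  ring

theorem cs_mid {F : ℂ → ℝ} (hm : Measurable F) (hF : Integrable F) (hb : ∀ x, |F x| ≤ 1)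
    {N : ℝ} (hN : 0 < N) (P : Finset (ℤ × ℤ)) :
    (∑ p ∈ P, bp N F p) ^ 2 ≤
      (∫ x, (F x) ^ 2) * ∑ p ∈ P, ∑ q ∈ P, jj N F (lat p) (lat q) := by
  have hP := plancherel hm hF hb
  have hBi : Integrable (fun y => (∑ p ∈ P, bes (‖lat p‖ * ‖y‖)) * gd N y * ‖ft F y‖ ^ 2) := by
    have h1 : Integrable (fun y => ∑ p ∈ P, bes (‖lat p‖ * ‖y‖) * gd N y * ‖ft F y‖ ^ 2) :=
      integrable_finsetSum P fun p _ => CsM_int hm hF hb N (lat p)
    refine h1.congr (Filter.Eventually.of_forall fun y => ?_)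
    show ∑ p ∈ P, bes (‖lat p‖ * ‖y‖) * gd N y * ‖ft F y‖ ^ 2 =
      (∑ p ∈ P, bes (‖lat p‖ * ‖y‖)) * gd N y * ‖ft F y‖ ^ 2
    rw [Finset.sum_mul, Finset.sum_mul]
  have hB : ∑ p ∈ P, bp N F p =
      ∫ y, (∑ p ∈ P, bes (‖lat p‖ * ‖y‖)) * gd N y * ‖ft F y‖ ^ 2 := by
    rw [Finset.sum_congr rfl fun p _ => CsM_bp hF hN p,
      ← integral_finsetSum P fun p _ => CsM_int hm hF hb N (lat p)]
    refine integral_congr_ae (Filter.Eventually.of_forall fun y => ?_)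
    show ∑ p ∈ P, bes (‖lat p‖ * ‖y‖) * gd N y * ‖ft F y‖ ^ 2 =
      (∑ p ∈ P, bes (‖lat p‖ * ‖y‖)) * gd N y * ‖ft F y‖ ^ 2
    rw [Finset.sum_mul, Finset.sum_mul]
  have hpt : ∀ y, ∑ p ∈ P, ∑ q ∈ P,
      bes (‖lat p‖ * ‖y‖) * bes (‖lat q‖ * ‖y‖) * gd N y ^ 2 * ‖ft F y‖ ^ 2 =
      ((∑ p ∈ P, bes (‖lat p‖ * ‖y‖)) * gd N y) ^ 2 * ‖ft F y‖ ^ 2 := by
    intro y
    rw [mul_pow, sq (∑ p ∈ P, bes (‖lat p‖ * ‖y‖)), Finset.sum_mul_sum, Finset.sum_mul,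
      Finset.sum_mul]
    refine Finset.sum_congr rfl fun p _ => ?_
    rw [Finset.sum_mul, Finset.sum_mul]
  have hCi : Integrable (fun y =>
      ((∑ p ∈ P, bes (‖lat p‖ * ‖y‖)) * gd N y) ^ 2 * ‖ft F y‖ ^ 2) := by
    have h1 : Integrable (fun y => ∑ p ∈ P, ∑ q ∈ P,
        bes (‖lat p‖ * ‖y‖) * bes (‖lat q‖ * ‖y‖) * gd N y ^ 2 * ‖ft F y‖ ^ 2) :=
      integrable_finsetSum P fun p _ => integrable_finsetSum P fun q _ =>
        integrable_jj hm hF hb N (lat p) (lat q)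
    exact h1.congr (Filter.Eventually.of_forall hpt)
  have hC : ∑ p ∈ P, ∑ q ∈ P, jj N F (lat p) (lat q) =
      ∫ y, ((∑ p ∈ P, bes (‖lat p‖ * ‖y‖)) * gd N y) ^ 2 * ‖ft F y‖ ^ 2 := by
    rw [← integral_congr_ae (Filter.Eventually.of_forall hpt),
      integral_finsetSum P fun p _ => integrable_finsetSum P fun q _ =>
        integrable_jj hm hF hb N (lat p) (lat q)]
    refine Finset.sum_congr rfl fun p _ => ?_
    rw [integral_finsetSum P fun q _ => integrable_jj hm hF hb N (lat p) (lat q)]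
    rfl
  rw [hB, hC, ← hP.2]
  generalize hcd : (fun y : ℂ => (∑ p ∈ P, bes (‖lat p‖ * ‖y‖)) * gd N y) = c at *
  have e1 : (fun y : ℂ => (∑ p ∈ P, bes (‖lat p‖ * ‖y‖)) * gd N y * ‖ft F y‖ ^ 2) =
      fun y => c y * ‖ft F y‖ ^ 2 := by rw [← hcd]
  have e2 : (fun y : ℂ => ((∑ p ∈ P, bes (‖lat p‖ * ‖y‖)) * gd N y) ^ 2 * ‖ft F y‖ ^ 2) =
      fun y => c y ^ 2 * ‖ft F y‖ ^ 2 := by rw [← hcd]
  rw [e1] at hBi ⊢
  rw [e2] at hCi ⊢
  have hd : discrim (∫ y, ‖ft F y‖ ^ 2) (2 * ∫ y, c y * ‖ft F y‖ ^ 2)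
      (∫ y, c y ^ 2 * ‖ft F y‖ ^ 2) ≤ 0 := by
    refine discrim_le_zero fun t => ?_
    have h1 : ∫ y, (t + c y) ^ 2 * ‖ft F y‖ ^ 2 = (∫ y, ‖ft F y‖ ^ 2) * (t * t) +
        2 * (∫ y, c y * ‖ft F y‖ ^ 2) * t + ∫ y, c y ^ 2 * ‖ft F y‖ ^ 2 := by
      have h2 : ∀ y, (t + c y) ^ 2 * ‖ft F y‖ ^ 2 = (t * t) * ‖ft F y‖ ^ 2 +
          (2 * t) * (c y * ‖ft F y‖ ^ 2) + c y ^ 2 * ‖ft F y‖ ^ 2 := fun y => by ring
      have i1 : Integrable (fun y => (t * t) * ‖ft F y‖ ^ 2) := hP.1.const_mul _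
      have i2 : Integrable (fun y => (2 * t) * (c y * ‖ft F y‖ ^ 2)) := hBi.const_mul _
      have i3 : Integrable (fun y => (t * t) * ‖ft F y‖ ^ 2 +
        (2 * t) * (c y * ‖ft F y‖ ^ 2)) := i1.add i2
      rw [integral_congr_ae (Filter.Eventually.of_forall h2), integral_add i3 hCi,
        integral_add i1 i2, integral_const_mul, integral_const_mul]
      ring
    rw [← h1]
    exact integral_nonneg fun y => by positivity
  unfold discrim at hd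
  nlinarith

end Pool.MPb9430d.Frac
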