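import Pool.Agent.Lib.MP_b9430d_co.Frac.MDefs
import Pool.Agent.Lib.MP_b9430d_co.Frac.CirA

/-!
# DccR: the double circle mean as a mean of circle means

(a) `cir N z p` depends only on `‖z‖`: `z = ‖z‖ rot α`, shift `φ` by `α` (periodicity: `rot_periodic`,
`Function.Periodic.intervalIntegral_add_eq`).
(b) `cc N z w p = (1/2π)² ∫_φ ∫_α gau N (p + rot φ w + rot α z) dα dφ`. In the inner integral replace `α` by `α + φ`:
`gau N (p + rot φ (w + rot α z))`. Exchange the integrals (continuous integrand on a rectangle: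
`intervalIntegral_integral_swap`-type, `MeasureTheory.integral_integral_swap` on `Ioc ×ˢ Ioc`, or
`intervalIntegral.integral_integral_swap..`): `= (1/2π) ∫_α cir N (w + rot α z) p dα`.
(c) `‖w + rot α z‖² = ‖w‖² + ‖z‖² + 2‖z‖‖w‖ cos(α + arg z - arg w)`; by (a) the integrand is
`h(α + β)`, `h(θ) = cir N (√(‖z‖² + ‖w‖² + 2‖z‖‖w‖ cos θ)) p`, `h` is `2π`-periodic and even: the mean over `[-π, π]` is
`(1/π) ∫_0^π h`. Subtract the formulas for `2N` and `N`.
-/

set_option autoImplicit false

open MeasureTheory Complex Set Real Filter Topology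
open scoped ENNReal

namespace Pool.MPb9430d.Frac

open Pool.MPb9430d Pool.MPb9430d.Rough

/-- The integral of a `2π`-periodic function over a shifted period. -/
private theorem DccR_shift {h : ℝ → ℝ} (hp : Function.Periodic h (2 * π)) (c : ℝ) :
    ∫ φ in (-π)..π, h (φ + c) = ∫ φ in (-π)..π, h φ := by
  rw [intervalIntegral.integral_comp_add_right]
  have h1 := hp.intervalIntegral_add_eq (-π + c) (-π)
  have e1 : -π + c + 2 * π = π + c := by ring
  have e2 : -π + 2 * π = π := by ring
  rw [e1, e2] at h1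
  exact h1

private theorem DccR_rotp (N : ℝ) (p z : ℂ) :
    Function.Periodic (fun φ : ℝ => gau N (p + rot φ * z)) (2 * π) := fun φ => by
  simp only [rot_periodic]

private theorem DccR_cir_rot (N : ℝ) (z p : ℂ) (α : ℝ) : cir N (rot α * z) p = cir N z p := by
  unfold cir
  congr 1
  rw [← DccR_shift (DccR_rotp N p z) α]
  refine intervalIntegral.integral_congr fun φ _ => ?_
  simp only [rot_add, mul_assoc]

private theorem DccR_polar (z : ℂ) : rot (Complex.arg z) * (‖z‖ : ℂ) = z := by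
  rw [rot, mul_comm]
  exact Complex.norm_mul_exp_arg_mul_I z

private theorem DccR_cir_norm (N : ℝ) (z p : ℂ) : cir N z p = cir N (‖z‖ : ℂ) p := by
  conv_lhs => rw [← DccR_polar z]
  exact DccR_cir_rot N _ p _

private theorem DccR_cont_cir (N : ℝ) (p : ℂ) : Continuous fun s : ℝ => cir N (s : ℂ) p := by
  unfold cir
  have h1 : Continuous (Function.uncurry fun (s : ℝ) (φ : ℝ) => gau N (p + rot φ * (s : ℂ))) := by
    have h2 : Continuous fun q : ℝ × ℝ => p + rot q.2 * ((q.1 : ℝ) : ℂ) :=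
      continuous_const.add ((continuous_rot.comp continuous_snd).mul
        (Complex.continuous_ofReal.comp continuous_fst))
    exact (continuous_gau N).comp h2
  exact continuous_const.mul
    (intervalIntegral.continuous_parametric_intervalIntegral_of_continuous' h1 _ _)

theorem continuous_gam (N : ℝ) (p : ℂ) : Continuous (gam N p) := by
  unfold gam
  exact (DccR_cont_cir (2 * N) p).sub (DccR_cont_cir N p)

/-- The double mean as a mean of circle means. -/
private theorem DccR_cc_eq (N : ℝ) (z w p : ℂ) :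
    cc N z w p = (2 * π)⁻¹ * ∫ α in (-π)..π, cir N (w + rot α * z) p := by
  unfold cc
  congr 1
  have h1 : ∀ φ : ℝ, cir N z (p + rot φ * w) =
      (2 * π)⁻¹ * ∫ α in (-π)..π, gau N (p + rot φ * (w + rot α * z)) := fun φ => by
    unfold cir
    congr 1
    rw [← DccR_shift (DccR_rotp N (p + rot φ * w) z) φ]
    refine intervalIntegral.integral_congr fun α _ => ?_
    have e1 : p + rot φ * w + rot (α + φ) * z = p + rot φ * (w + rot α * z) := by
      rw [rot_add]
      ring
    simp only [e1]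
  have h2 : ∀ α : ℝ, cir N (w + rot α * z) p =
      (2 * π)⁻¹ * ∫ φ in (-π)..π, gau N (p + rot φ * (w + rot α * z)) := fun α => rfl
  simp only [h1, h2, intervalIntegral.integral_const_mul]
  congr 1
  refine MeasureTheory.intervalIntegral_intervalIntegral_swap ?_
  have hc : Continuous (Function.uncurry fun (φ α : ℝ) => gau N (p + rot φ * (w + rot α * z))) := by
    have h3 : Continuous fun q : ℝ × ℝ => p + rot q.1 * (w + rot q.2 * z) :=
      continuous_const.add ((continuous_rot.comp continuous_fst).mul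
        (continuous_const.add ((continuous_rot.comp continuous_snd).mul continuous_const)))
    exact (continuous_gau N).comp h3
  have h4 : IntegrableOn (Function.uncurry fun (φ α : ℝ) => gau N (p + rot φ * (w + rot α * z)))
      (Icc (-π) π ×ˢ Icc (-π) π) :=
    hc.continuousOn.integrableOn_compact (isCompact_Icc.prod isCompact_Icc)
  have hle : -π ≤ π := by linarith [Real.pi_pos]
  refine h4.mono_set ?_
  rw [uIoc_of_le hle]
  exact prod_mono Ioc_subset_Icc_self Ioc_subset_Icc_self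

private theorem DccR_norm (z w : ℂ) (α : ℝ) :
    ‖w + rot α * z‖ = √(‖z‖ ^ 2 + ‖w‖ ^ 2 +
      2 * ‖z‖ * ‖w‖ * Real.cos (α + (Complex.arg z - Complex.arg w))) := by
  have hz : z.re = ‖z‖ * Real.cos (Complex.arg z) := (Complex.norm_mul_cos_arg z).symm
  have hz' : z.im = ‖z‖ * Real.sin (Complex.arg z) := (Complex.norm_mul_sin_arg z).symm
  have hw : w.re = ‖w‖ * Real.cos (Complex.arg w) := (Complex.norm_mul_cos_arg w).symm
  have hw' : w.im = ‖w‖ * Real.sin (Complex.arg w) := (Complex.norm_mul_sin_arg w).symm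
  have hr : (rot α).re = Real.cos α := by rw [rot, Complex.exp_ofReal_mul_I_re]
  have hr' : (rot α).im = Real.sin α := by rw [rot, Complex.exp_ofReal_mul_I_im]
  rw [← Real.sqrt_sq (norm_nonneg (w + rot α * z))]
  congr 1
  rw [← Complex.normSq_eq_norm_sq, Complex.normSq_apply]
  simp only [Complex.add_re, Complex.add_im, Complex.mul_re, Complex.mul_im, hr, hr']
  have e1 : ‖z‖ ^ 2 = z.re * z.re + z.im * z.im := by
    rw [← Complex.normSq_apply, Complex.normSq_eq_norm_sq]
  have e2 : ‖w‖ ^ 2 = w.re * w.re + w.im * w.im := by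
    rw [← Complex.normSq_apply, Complex.normSq_eq_norm_sq]
  have e3 : 2 * ‖z‖ * ‖w‖ * Real.cos (α + (Complex.arg z - Complex.arg w)) =
      2 * (Real.cos α * (z.re * w.re + z.im * w.im) - Real.sin α * (z.im * w.re - z.re * w.im)) := by
    rw [Real.cos_add, Real.cos_sub, Real.sin_sub]
    conv_rhs => rw [hz, hz', hw, hw']
    ring
  rw [e3, e1, e2]
  have e4 := Real.cos_sq_add_sin_sq α
  linear_combination (z.re * z.re + z.im * z.im) * e4

/-- The circle mean at distance `√(‖z‖² + ‖w‖² + 2 ‖z‖ ‖w‖ cos θ)`. -/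
private theorem DccR_cc_rep (N : ℝ) (z w p : ℂ) :
    cc N z w p = π⁻¹ * ∫ θ in (0 : ℝ)..π,
      cir N ((√(‖z‖ ^ 2 + ‖w‖ ^ 2 + 2 * ‖z‖ * ‖w‖ * Real.cos θ) : ℝ) : ℂ) p := by
  set h : ℝ → ℝ := fun θ =>
    cir N ((√(‖z‖ ^ 2 + ‖w‖ ^ 2 + 2 * ‖z‖ * ‖w‖ * Real.cos θ) : ℝ) : ℂ) p with hh
  have hcont : Continuous h := by
    have h1 : Continuous fun θ : ℝ => √(‖z‖ ^ 2 + ‖w‖ ^ 2 + 2 * ‖z‖ * ‖w‖ * Real.cos θ) := by
      fun_prop
    exact (DccR_cont_cir N p).comp h1
  have hper : Function.Periodic h (2 * π) := fun θ => by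
    simp only [hh, Real.cos_add_two_pi]
  have hev : ∀ θ, h (-θ) = h θ := fun θ => by
    simp only [hh, Real.cos_neg]
  rw [DccR_cc_eq]
  have h1 : ∫ α in (-π)..π, cir N (w + rot α * z) p =
      ∫ α in (-π)..π, h (α + (Complex.arg z - Complex.arg w)) := by
    refine intervalIntegral.integral_congr fun α _ => ?_
    simp only [hh]
    rw [DccR_cir_norm N (w + rot α * z), DccR_norm]
  rw [h1, DccR_shift hper]
  have h2 : ∫ α in (-π)..π, h α = 2 * ∫ θ in (0 : ℝ)..π, h θ := by
    rw [← intervalIntegral.integral_add_adjacent_intervals (b := (0 : ℝ))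
      (hcont.intervalIntegrable _ _) (hcont.intervalIntegrable _ _)]
    have h3 : ∫ α in (-π)..(0 : ℝ), h α = ∫ θ in (0 : ℝ)..π, h θ := by
      have h4 := intervalIntegral.integral_comp_neg (a := (0 : ℝ)) (b := π) h
      rw [neg_zero] at h4
      rw [← h4]
      exact intervalIntegral.integral_congr fun θ _ => hev θ
    rw [h3]
    ring
  rw [h2]
  have hpi := Real.pi_pos.ne'
  field_simp

theorem dcc_rep (N : ℝ) (z w p : ℂ) :
    dcc N z w p = π⁻¹ * ∫ θ in (0 : ℝ)..π,
      gam N p (√(‖z‖ ^ 2 + ‖w‖ ^ 2 + 2 * ‖z‖ * ‖w‖ * Real.cos θ)) := by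
  unfold dcc gam
  rw [DccR_cc_rep, DccR_cc_rep, ← mul_sub, ← intervalIntegral.integral_sub]
  · have h1 : Continuous fun θ : ℝ => √(‖z‖ ^ 2 + ‖w‖ ^ 2 + 2 * ‖z‖ * ‖w‖ * Real.cos θ) := by
      fun_prop
    exact ((DccR_cont_cir (2 * N) p).comp h1).intervalIntegrable _ _
  · have h1 : Continuous fun θ : ℝ => √(‖z‖ ^ 2 + ‖w‖ ^ 2 + 2 * ‖z‖ * ‖w‖ * Real.cos θ) := by
      fun_prop
    exact ((DccR_cont_cir N p).comp h1).intervalIntegrable _ _

end Pool.MPb9430d.Frac
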