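import Pool.Agent.Lib.MP_b9430d_co.Rough.Escape
import Pool.Agent.Lib.MP_b9430d_co.Rough.Variation

/-!
# Measurable Steinhaus sets are fractal: definitions

Everything takes place in the plane `ℂ`; `lat p` is the lattice point `p.1 + p.2 i`, `rot θ = exp (iθ)`,
`Tile E n` says that for every angle `θ` and almost every `x` exactly `n` points of the rotated lattice
`x + rot θ * lat p` lie in `E`.
-/

set_option autoImplicit false

open MeasureTheory Complex Set Real

namespace Pool.MPb9430d.Frac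

open Pool.MPb9430d Pool.MPb9430d.Rough

/-- The real inner product of the plane. -/
def ip (x y : ℂ) : ℝ := x.re * y.re + x.im * y.im

/-- `e(t) = exp(2 π i t)`. -/
noncomputable def ee (t : ℝ) : ℂ := Complex.exp ((2 * π * t : ℝ) * I)

/-- The Fourier transform of a real function. -/
noncomputable def ft (F : ℂ → ℝ) (y : ℂ) : ℂ := ∫ x, ee (-(ip x y)) * (F x : ℂ)

/-- The Gaussian `N² exp(-π N² |x|²)` of integral one. -/
noncomputable def gau (N : ℝ) (x : ℂ) : ℝ := N ^ 2 * Real.exp (-(π * N ^ 2 * ‖x‖ ^ 2))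

/-- Its Fourier transform `exp(-π |y|² / N²)`. -/
noncomputable def gh (N : ℝ) (y : ℂ) : ℝ := Real.exp (-(π * ‖y‖ ^ 2 / N ^ 2))

/-- The Bessel function `J_0(2 π t)` as a mean value. -/
noncomputable def bes (t : ℝ) : ℝ :=
  (2 * π)⁻¹ * ∫ φ in (-π)..π, Real.cos (2 * π * t * Real.cos φ)

/-- The mean of `gau N` over the circle with centre `p` and radius `‖z‖`. -/
noncomputable def cir (N : ℝ) (z p : ℂ) : ℝ :=
  (2 * π)⁻¹ * ∫ φ in (-π)..π, gau N (p + rot φ * z)

/-- The increment `1_E(x - h) - 1_E(x)`. -/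
noncomputable def inc (E : Set ℂ) (h x : ℂ) : ℝ :=
  E.indicator (fun _ => (1 : ℝ)) (x - h) - E.indicator (fun _ => (1 : ℝ)) x

/-- The quadratic form `∫∫ F(x) K(x - y) F(y)`. -/
noncomputable def qf (K F : ℂ → ℝ) : ℝ := ∫ x, ∫ y, F x * (K (x - y) * F y)

/-- The measure of `E ∆ (E + t)`. -/
noncomputable def D (E : Set ℂ) (t : ℂ) : ℝ := volume.real (dif E t)

/-- The nonzero lattice points of norm at most `X`. -/
noncomputable def near (X : ℝ) : Finset (ℤ × ℤ) := (finite_lat X).toFinset.erase 0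

/-- `E` is Hölder regular in mean: `|E ∆ (E + t)| ≤ K |t|^a`. -/
def Reg (E : Set ℂ) (K a : ℝ) : Prop := ∀ t : ℂ, D E t ≤ K * ‖t‖ ^ a

/-- The kernel of the far lattice points. -/
noncomputable def ker (N X : ℝ) (p : ℂ) (q : ℤ × ℤ) : ℝ := if X < ‖lat q‖ then cir N (lat q) p else 0

/-- The difference of two Gaussians used in the factorisation
`gau (2 N) - gau N = gau (2 √2 N) * psi N` (convolution). -/
noncomputable def psi (N : ℝ) (x : ℂ) : ℝ := gau (2 * √2 * N) x - gau (√(8 / 7) * N) x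

/-- The convolution of `psi N` with `F`. -/
noncomputable def sm (N : ℝ) (F : ℂ → ℝ) (y : ℂ) : ℝ := ∫ t, psi N (y - t) * F t

/-- The indicator function as a real function. -/
noncomputable def chi (E : Set ℂ) (x : ℂ) : ℝ := E.indicator (fun _ => (1 : ℝ)) x

/-- The part of the indicator function in the disc of radius `√N` (`j = 0`) and in the shell
`2^(j-1) √N < ‖x‖ ≤ 2^j √N` (`j ≥ 1`). -/
noncomputable def sh (E : Set ℂ) (N : ℝ) (j : ℕ) (x : ℂ) : ℝ :=
  ({x : ℂ | (j = 0 ∨ 2 ^ (j - 1) * √N < ‖x‖) ∧ ‖x‖ ≤ 2 ^ j * √N} : Set ℂ).indicator (chi E) x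

/-- The lower node: `lo r ^ 2` is a sum of two squares just below `r ^ 2`. -/
noncomputable def lo (r : ℝ) : ℝ := √((⌊r⌋ : ℝ) ^ 2 + (⌊√(r ^ 2 - (⌊r⌋ : ℝ) ^ 2)⌋ : ℝ) ^ 2)

/-- The upper node: `hi r ^ 2` is a sum of two squares just above `r ^ 2`. -/
noncomputable def hi (r : ℝ) : ℝ := √((⌊r⌋ : ℝ) ^ 2 + ((⌊√(r ^ 2 - (⌊r⌋ : ℝ) ^ 2)⌋ : ℝ) + 1) ^ 2)

/-- The error of linear interpolation between the two nodes on the ray of angle `θ`. -/
noncomputable def lin (G : ℂ → ℂ) (θ r : ℝ) : ℂ :=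
  G (r * rot θ) - (((hi r - r) / (hi r - lo r) : ℝ) : ℂ) * G (lo r * rot θ) -
    (((r - lo r) / (hi r - lo r) : ℝ) : ℂ) * G (hi r * rot θ)

theorem mem_near {X : ℝ} {p : ℤ × ℤ} : p ∈ near X ↔ p ≠ 0 ∧ ‖lat p‖ ≤ X := by
  rw [near, Finset.mem_erase, Set.Finite.mem_toFinset]
  rfl

theorem ee_zero : ee 0 = 1 := by simp [ee]

theorem norm_ee (t : ℝ) : ‖ee t‖ = 1 := by
  rw [ee, Complex.norm_exp_ofReal_mul_I]

theorem ee_add (s t : ℝ) : ee (s + t) = ee s * ee t := by
  rw [ee, ee, ee, ← Complex.exp_add]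
  congr 1
  push_cast
  ring

theorem continuous_ee : Continuous ee := by
  unfold ee
  fun_prop

theorem ip_comm (x y : ℂ) : ip x y = ip y x := by
  unfold ip
  ring

theorem ip_add_left (x y z : ℂ) : ip (x + y) z = ip x z + ip y z := by
  unfold ip
  simp only [Complex.add_re, Complex.add_im]
  ring

theorem ip_sub_left (x y z : ℂ) : ip (x - y) z = ip x z - ip y z := by
  unfold ip
  simp only [Complex.sub_re, Complex.sub_im]
  ring

theorem ip_eq_inner (x y : ℂ) : ip x y = inner ℝ x y := by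
  unfold ip
  rw [Complex.inner]
  simp only [Complex.mul_re, Complex.conj_re, Complex.conj_im]
  ring

theorem gau_nonneg (N : ℝ) (x : ℂ) : 0 ≤ gau N x := by
  unfold gau
  positivity

theorem gh_pos (N : ℝ) (y : ℂ) : 0 < gh N y := Real.exp_pos _

theorem continuous_gau (N : ℝ) : Continuous (gau N) := by
  unfold gau
  fun_prop

theorem D_nonneg (E : Set ℂ) (t : ℂ) : 0 ≤ D E t := measureReal_nonneg

end Pool.MPb9430d.Frac
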