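import Pool.Agent.Lib.MP_b9430d_co.Frac.Defs

/-!
# GauF: the Gaussian and its Fourier transform

Mathlib: `integral_rexp_neg_mul_sq_norm`, `GaussianFourier.integrable_cexp_neg_mul_sq_norm_add` (or
`integrable_cexp_neg_mul_sq_norm_add_of_euclideanSpace`), `fourier_gaussian_innerProductSpace`
(`𝓕 (fun v ↦ cexp (-b * ‖v‖ ^ 2)) w = (π / b) ^ (finrank ℝ V / 2) * cexp (-π ^ 2 * ‖w‖ ^ 2 / b)`, `V = ℂ`,
`Complex.finrank_real_complex`), with `b = π / N²`: the right-hand side is `N² exp(-π N² ‖w‖²)`.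
`Real.fourier_eq'` writes `𝓕` as an integral of `cexp (-2π i ⟪v, w⟫) f v`; replace `w` by `-x` and use
`ip_eq_inner`. (`ee_lip` is not needed here.)
-/

set_option autoImplicit false

open MeasureTheory Complex Set Real Filter Topology
open scoped ENNReal

namespace Pool.MPb9430d.Frac

open Pool.MPb9430d Pool.MPb9430d.Rough

private theorem GauF_int {b : ℝ} (hb : 0 < b) : Integrable (fun x : ℂ => Real.exp (-(b * ‖x‖ ^ 2))) := by
  have h := (GaussianFourier.integrable_cexp_neg_mul_sq_norm_add (V := ℂ) (b := (b : ℂ))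
    (by simpa using hb) 0 0).norm
  refine h.congr (Eventually.of_forall fun x => ?_)
  simp only [zero_mul, add_zero]
  rw [Complex.norm_exp]
  congr 1
  have e : (-(b : ℂ) * (‖x‖ : ℂ) ^ 2) = ((-(b * ‖x‖ ^ 2) : ℝ) : ℂ) := by
    push_cast
    ring
  rw [e, Complex.ofReal_re]

theorem integrable_gau {N : ℝ} (hN : 0 < N) : Integrable (gau N) := by
  have h := (GauF_int (b := π * N ^ 2) (by positivity)).const_mul (N ^ 2)
  exact h

theorem integral_gau {N : ℝ} (hN : 0 < N) : ∫ x, gau N x = 1 := by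
  have h := GaussianFourier.integral_rexp_neg_mul_sq_norm (V := ℂ) (b := π * N ^ 2) (by positivity)
  have e : (fun x : ℂ => gau N x) = fun x => N ^ 2 * Real.exp (-(π * N ^ 2) * ‖x‖ ^ 2) := by
    funext x
    unfold gau
    rw [neg_mul]
  rw [e, integral_const_mul, h, Complex.finrank_real_complex]
  have e2 : ((2 : ℕ) : ℝ) / 2 = 1 := by norm_num
  rw [e2, Real.rpow_one]
  have hN2 : N ^ 2 ≠ 0 := by positivity
  field_simp

theorem continuous_gh (N : ℝ) : Continuous (gh N) := by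
  unfold gh
  fun_prop

theorem gh_le_one (N : ℝ) (y : ℂ) : gh N y ≤ 1 := by
  unfold gh
  rw [Real.exp_le_one_iff]
  have : 0 ≤ π * ‖y‖ ^ 2 / N ^ 2 := by positivity
  linarith

theorem integrable_gh {N : ℝ} (hN : 0 < N) : Integrable (gh N) := by
  have h := GauF_int (b := π / N ^ 2) (by positivity)
  refine h.congr (Eventually.of_forall fun x => ?_)
  unfold gh
  simp only
  congr 2
  ring

theorem gau_eq {N : ℝ} (hN : 0 < N) (x : ℂ) :
    (gau N x : ℂ) = ∫ y, ee (ip x y) * (gh N y : ℂ) := by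
  have hN2 : N ^ 2 ≠ 0 := by positivity
  have h := fourier_gaussian_innerProductSpace (V := ℂ) (b := ((π / N ^ 2 : ℝ) : ℂ))
    (by rw [Complex.ofReal_re]; positivity) (-x)
  rw [Real.fourier_eq'] at h
  have e1 : (∫ y, ee (ip x y) * (gh N y : ℂ)) =
      ∫ v : ℂ, Complex.exp ((↑(-2 * π * inner ℝ v (-x)) * Complex.I)) •
        Complex.exp (-((π / N ^ 2 : ℝ) : ℂ) * ‖v‖ ^ 2) := by
    refine integral_congr_ae (Eventually.of_forall fun v => ?_)
    simp only [smul_eq_mul]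
    congr 1
    · unfold ee
      congr 2
      rw [inner_neg_right, ← ip_eq_inner, ip_comm v x]
      push_cast
      ring
    · unfold gh
      rw [Complex.ofReal_exp]
      congr 1
      push_cast
      ring
  rw [e1, h, Complex.finrank_real_complex]
  have e2 : (((2 : ℕ) : ℂ) / 2) = 1 := by norm_num
  rw [e2, Complex.cpow_one, norm_neg]
  have e3 : (π : ℂ) / ((π / N ^ 2 : ℝ) : ℂ) = ((N ^ 2 : ℝ) : ℂ) := by
    rw [← Complex.ofReal_div]
    congr 1
    field_simp
  have e4 : -(π : ℂ) ^ 2 * (‖x‖ : ℂ) ^ 2 / ((π / N ^ 2 : ℝ) : ℂ) =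
      ((-(π * N ^ 2 * ‖x‖ ^ 2) : ℝ) : ℂ) := by
    have e5 : -(π : ℂ) ^ 2 * (‖x‖ : ℂ) ^ 2 / ((π / N ^ 2 : ℝ) : ℂ) =
      ((-π ^ 2 * ‖x‖ ^ 2 / (π / N ^ 2) : ℝ) : ℂ) := by
      push_cast
      ring
    rw [e5]
    congr 1
    field_simp
  rw [e3, e4, ← Complex.ofReal_exp, ← Complex.ofReal_mul]
  rfl

end Pool.MPb9430d.Frac
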