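import Pool.Agent.Lib.MP_b9430d_co.Frac.Defs

/-!
# IncB: basic facts on the increment `inc E h x = 1_E(x - h) - 1_E(x)`

`inc E h x` is `0, 1` or `-1`, and it is nonzero exactly on `dif E h = E ∆ (· - h)⁻¹' E`
(`Pool.MPb9430d.Rough.dif`). So `|inc| = inc² = indicator of dif E h`, and both integrals are
`volume.real (dif E h) = D E h` (`integral_indicator_one`; `volume_dif_ne_top` in Rough/Variation).
Integrability: difference of two integrable indicators (translation: `Integrable.comp_sub_right`).
-/

set_option autoImplicit false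

open MeasureTheory Complex Set Real Filter Topology
open scoped ENNReal

namespace Pool.MPb9430d.Frac

open Pool.MPb9430d Pool.MPb9430d.Rough

private theorem incB_abs (E : Set ℂ) (h x : ℂ) :
    |inc E h x| = (dif E h).indicator (fun _ => (1 : ℝ)) x := by
  by_cases h1 : x ∈ E <;> by_cases h2 : x - h ∈ E
  · have h3 : x ∉ dif E h := by
      rintro (h4 | h4)
      · exact h4.2 h2
      · exact h4.2 h1
    simp [inc, h1, h2, h3]
  · have h3 : x ∈ dif E h := Or.inl ⟨h1, h2⟩
    simp [inc, h1, h2, h3]
  · have h3 : x ∈ dif E h := Or.inr ⟨h2, h1⟩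
    simp [inc, h1, h2, h3]
  · have h3 : x ∉ dif E h := by
      rintro (h4 | h4)
      · exact h1 h4.1
      · exact h2 h4.1
    simp [inc, h1, h2, h3]

theorem inc_facts {E : Set ℂ} (hE : MeasurableSet E) (hfin : volume E ≠ ∞) (h : ℂ) :
    Measurable (inc E h) ∧ Integrable (inc E h) ∧ (∀ x, |inc E h x| ≤ 1) ∧
      (∫ x, |inc E h x|) = D E h ∧ (∫ x, (inc E h x) ^ 2) = D E h := by
  have hm : Measurable (fun x => E.indicator (fun _ => (1 : ℝ)) x) :=
    measurable_const.indicator hE
  have hi : Integrable (fun x => E.indicator (fun _ => (1 : ℝ)) x) := by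
    rw [integrable_indicator_iff hE]
    exact integrableOn_const hfin
  have habs := incB_abs E h
  have hint : (∫ x, (dif E h).indicator (fun _ => (1 : ℝ)) x) = D E h :=
    integral_indicator_one (measurableSet_dif hE h)
  refine ⟨?_, ?_, ?_, ?_, ?_⟩
  · exact (hm.comp (measurable_sub_const h)).sub hm
  · exact (hi.comp_sub_right h).sub hi
  · intro x
    rw [habs x]
    exact Set.indicator_le_self' (fun _ _ => zero_le_one) x
  · rw [← hint]
    exact integral_congr_ae (Eventually.of_forall habs)
  · rw [← hint]
    refine integral_congr_ae (Eventually.of_forall fun x => ?_)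
    have h1 : (inc E h x) ^ 2 = |inc E h x| ^ 2 := (sq_abs _).symm
    simp only
    rw [h1, habs x]
    by_cases h2 : x ∈ dif E h <;> simp [h2]

end Pool.MPb9430d.Frac
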