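import Pool.Agent.Lib.MP_b9430d_co.Frac.GauM
import Pool.Agent.Lib.MP_b9430d_co.Frac.GauF
import Pool.Agent.Lib.MP_b9430d_co.Frac.IncB
import Pool.Agent.Lib.MP_b9430d_co.Frac.Fact

/-!
# PsiL: the Littlewood-Paley piece of the indicator function has small `L¹` norm

`∫ psi N = 0`, so `sm N (chi E) y = ∫_t psi N (t) (chi E (y - t) - chi E y) dt`, and
`∫_y |sm N (chi E) y| ≤ ∫_t |psi N t| ∫_y |chi E (y-t) - chi E y| = ∫_t |psi N t| D E t ≤ K ∫ (gau A t + gau B t)‖t‖^a ≤
2K (A^{-a} + B^{-a}) ≤ 4 K N^{-a}`, `A = 2√2 N, B = √(8/7) N ≥ N` (`gau_moment`, `inc_facts`: `∫|inc E t| = D E t`;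
Tonelli with `lintegral` or `integral_integral_swap`). Finally `inc E h x = chi E (x - h) - chi E x`, so
`sm N (inc E h) y = sm N (chi E) (y - h) - sm N (chi E) y` and `∫ |sm N (inc E h)| ≤ 8 K N^{-a}`.
-/

set_option autoImplicit false

open MeasureTheory Complex Set Real Filter Topology
open scoped ENNReal

namespace Pool.MPb9430d.Frac

open Pool.MPb9430d Pool.MPb9430d.Rough

private theorem PsiL_inc (E : Set ℂ) (h t y : ℂ) :
    inc E h (y - t) - inc E h y = inc E t (y - h) - inc E t y := by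
  unfold inc
  rw [show y - t - h = y - h - t by ring]
  ring

private theorem PsiL_sm {N : ℝ} (hN : 0 < N) {F : ℂ → ℝ} (hm : Measurable F)
    (hb : ∀ x, |F x| ≤ 1) (y : ℂ) : sm N F y = ∫ t, psi N t * (F (y - t) - F y) := by
  have h1 : sm N F y = ∫ t, psi N t * F (y - t) := by
    unfold sm
    rw [← integral_sub_left_eq_self (fun t => psi N t * F (y - t)) volume y]
    refine integral_congr_ae (Eventually.of_forall fun t => ?_)
    simp only
    rw [sub_sub_cancel]
  have hpsi : Integrable (psi N) := integrable_psi hN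
  have h2 : ∫ t, psi N t * F y = 0 := by
    rw [integral_mul_const]
    have h3 : ∫ t, psi N t = 0 := by
      unfold psi
      rw [integral_sub (integrable_gau (by positivity)) (integrable_gau (by positivity)),
        integral_gau (by positivity), integral_gau (by positivity), sub_self]
    rw [h3, zero_mul]
  have hi1 : Integrable (fun t => psi N t * F (y - t)) := by
    refine (hpsi.norm).mono' ?_ (Eventually.of_forall fun t => ?_)
    · exact (hpsi.aestronglyMeasurable).mul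
        (hm.comp (measurable_const.sub measurable_id)).aestronglyMeasurable
    · rw [norm_mul, Real.norm_eq_abs (F (y - t))]
      exact mul_le_of_le_one_right (norm_nonneg _) (hb _)
  have hi2 : Integrable (fun t => psi N t * F y) := hpsi.mul_const _
  rw [h1, ← sub_zero (∫ t, psi N t * F (y - t)), ← h2, ← integral_sub hi1 hi2]
  refine integral_congr_ae (Eventually.of_forall fun t => ?_)
  simp only
  ring

theorem sm_l1 {E : Set ℂ} (hE : MeasurableSet E) (hfin : volume E ≠ ∞) {K a : ℝ} (hK : 0 ≤ K)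
    (ha : 0 ≤ a) (ha2 : a ≤ 2) (hR : Reg E K a) {N : ℝ} (hN : 1 ≤ N) (h : ℂ) :
    ∫ y, |sm N (inc E h) y| ≤ 8 * K * N ^ (-a) := by
  have hN0 : 0 < N := by linarith
  obtain ⟨hFm, hFi, hFb, -, -⟩ := inc_facts hE hfin h
  have hA0 : 0 < 2 * √2 * N := by positivity
  have hB0 : 0 < √(8 / 7) * N := by positivity
  have hAN : N ≤ 2 * √2 * N := by
    have : 1 ≤ √2 := Real.one_le_sqrt.mpr (by norm_num)
    nlinarith
  have hBN : N ≤ √(8 / 7) * N := by
    have : 1 ≤ √(8 / 7) := Real.one_le_sqrt.mpr (by norm_num)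
    nlinarith
  obtain ⟨hAi, hAm⟩ := gau_moment hA0 ha ha2
  obtain ⟨hBi, hBm⟩ := gau_moment hB0 ha ha2
  have hNa : 0 ≤ N ^ (-a) := Real.rpow_nonneg hN0.le _
  have hAa : (2 * √2 * N) ^ (-a) ≤ N ^ (-a) :=
    Real.rpow_le_rpow_of_nonpos hN0 hAN (by linarith)
  have hBa : (√(8 / 7) * N) ^ (-a) ≤ N ^ (-a) :=
    Real.rpow_le_rpow_of_nonpos hN0 hBN (by linarith)
  have hinc : ∀ t : ℂ, ∫⁻ y, ‖inc E t y‖ₑ = ENNReal.ofReal (D E t) := by
    intro t
    obtain ⟨-, hti, -, htD, -⟩ := inc_facts hE hfin t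
    rw [← ofReal_integral_norm_eq_lintegral_enorm hti, ← htD]
    simp only [Real.norm_eq_abs]
  have hinner : ∀ t : ℂ, ∫⁻ y, ‖psi N t * (inc E h (y - t) - inc E h y)‖ₑ ≤
      ENNReal.ofReal ((gau (2 * √2 * N) t * ‖t‖ ^ a + gau (√(8 / 7) * N) t * ‖t‖ ^ a) * (2 * K)) := by
    intro t
    have h1 : ∫⁻ y, ‖psi N t * (inc E h (y - t) - inc E h y)‖ₑ =
        ‖psi N t‖ₑ * ∫⁻ y, ‖inc E h (y - t) - inc E h y‖ₑ := by
      rw [← lintegral_const_mul' _ _ enorm_ne_top]
      refine lintegral_congr fun y => ?_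
      rw [enorm_mul]
    have h2 : ∫⁻ y, ‖inc E h (y - t) - inc E h y‖ₑ ≤ ENNReal.ofReal (2 * (K * ‖t‖ ^ a)) := by
      have hm1 : Measurable (inc E t) := (inc_facts hE hfin t).1
      calc ∫⁻ y, ‖inc E h (y - t) - inc E h y‖ₑ
          ≤ ∫⁻ y, (‖inc E t (y - h)‖ₑ + ‖inc E t y‖ₑ) := by
            refine lintegral_mono fun y => ?_
            rw [PsiL_inc]
            exact enorm_sub_le
        _ = (∫⁻ y, ‖inc E t (y - h)‖ₑ) + ∫⁻ y, ‖inc E t y‖ₑ :=
            lintegral_add_right _ hm1.enorm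
        _ = (∫⁻ y, ‖inc E t y‖ₑ) + ∫⁻ y, ‖inc E t y‖ₑ := by
            rw [lintegral_sub_right_eq_self (fun y => ‖inc E t y‖ₑ) h]
        _ = ENNReal.ofReal (2 * D E t) := by
            rw [hinc, ← ENNReal.ofReal_add (D_nonneg _ _) (D_nonneg _ _), two_mul]
        _ ≤ ENNReal.ofReal (2 * (K * ‖t‖ ^ a)) :=
            ENNReal.ofReal_le_ofReal (mul_le_mul_of_nonneg_left (hR t) (by norm_num))
    rw [h1]
    have h3 : ‖psi N t‖ₑ ≤ ENNReal.ofReal (gau (2 * √2 * N) t + gau (√(8 / 7) * N) t) := by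
      rw [← ofReal_norm, Real.norm_eq_abs]
      apply ENNReal.ofReal_le_ofReal
      unfold psi
      rw [abs_le]
      have g1 := gau_nonneg (2 * √2 * N) t
      have g2 := gau_nonneg (√(8 / 7) * N) t
      constructor <;> linarith
    calc ‖psi N t‖ₑ * ∫⁻ y, ‖inc E h (y - t) - inc E h y‖ₑ
        ≤ ENNReal.ofReal (gau (2 * √2 * N) t + gau (√(8 / 7) * N) t) *
          ENNReal.ofReal (2 * (K * ‖t‖ ^ a)) := mul_le_mul' h3 h2
      _ = _ := by
          rw [← ENNReal.ofReal_mul (add_nonneg (gau_nonneg _ _) (gau_nonneg _ _))]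
          congr 1
          ring
  have hG : Integrable (fun t : ℂ => (gau (2 * √2 * N) t * ‖t‖ ^ a +
      gau (√(8 / 7) * N) t * ‖t‖ ^ a) * (2 * K)) := (hAi.add hBi).mul_const _
  have hGn : ∀ t : ℂ, 0 ≤ (gau (2 * √2 * N) t * ‖t‖ ^ a +
      gau (√(8 / 7) * N) t * ‖t‖ ^ a) * (2 * K) := fun t => by
    have g1 := gau_nonneg (2 * √2 * N) t
    have g2 := gau_nonneg (√(8 / 7) * N) t
    positivity
  have hint : ∫ t : ℂ, (gau (2 * √2 * N) t * ‖t‖ ^ a +
      gau (√(8 / 7) * N) t * ‖t‖ ^ a) * (2 * K) ≤ 8 * K * N ^ (-a) := by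
    rw [integral_mul_const, integral_add hAi hBi]
    have : (∫ t, gau (2 * √2 * N) t * ‖t‖ ^ a) + (∫ t, gau (√(8 / 7) * N) t * ‖t‖ ^ a) ≤
        4 * N ^ (-a) := by linarith
    nlinarith
  have hmain : ∫⁻ y, ‖sm N (inc E h) y‖ₑ ≤ ENNReal.ofReal (8 * K * N ^ (-a)) := by
    calc ∫⁻ y, ‖sm N (inc E h) y‖ₑ
        ≤ ∫⁻ y, ∫⁻ t, ‖psi N t * (inc E h (y - t) - inc E h y)‖ₑ := by
          refine lintegral_mono fun y => ?_
          rw [PsiL_sm hN0 hFm hFb]
          exact enorm_integral_le_lintegral_enorm _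
      _ = ∫⁻ t, ∫⁻ y, ‖psi N t * (inc E h (y - t) - inc E h y)‖ₑ := by
          refine lintegral_lintegral_swap ?_
          have hpc : Continuous (psi N) := by
            unfold psi
            exact (continuous_gau _).sub (continuous_gau _)
          refine Measurable.aemeasurable ?_
          exact ((hpc.measurable.comp measurable_snd).mul
            ((hFm.comp (measurable_fst.sub measurable_snd)).sub
              (hFm.comp measurable_fst))).enorm
      _ ≤ ∫⁻ t, ENNReal.ofReal ((gau (2 * √2 * N) t * ‖t‖ ^ a +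
            gau (√(8 / 7) * N) t * ‖t‖ ^ a) * (2 * K)) := lintegral_mono hinner
      _ = ENNReal.ofReal (∫ t, (gau (2 * √2 * N) t * ‖t‖ ^ a +
            gau (√(8 / 7) * N) t * ‖t‖ ^ a) * (2 * K)) :=
          (ofReal_integral_eq_lintegral_ofReal hG (Eventually.of_forall hGn)).symm
      _ ≤ ENNReal.ofReal (8 * K * N ^ (-a)) := ENNReal.ofReal_le_ofReal hint
  have hsmi : Integrable (sm N (inc E h)) := integrable_sm hN0 hFi
  have h5 : ∫ y, |sm N (inc E h) y| = (∫⁻ y, ‖sm N (inc E h) y‖ₑ).toReal := by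
    rw [← integral_norm_eq_lintegral_enorm hsmi.aestronglyMeasurable]
    simp only [Real.norm_eq_abs]
  rw [h5]
  exact ENNReal.toReal_le_of_le_ofReal (by positivity) hmain

end Pool.MPb9430d.Frac
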