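import Pool.Agent.Lib.MP_b9430d_co.Frac.MDefs
import Pool.Agent.Lib.MP_b9430d_co.Frac.PsiL

/-!
# DsmL: `L¹` norm of the Littlewood-Paley piece (copy of PsiL)

Exactly the proof of `sm_l1` with `dg N = gau (2N) - gau N` in place of `psi N`: `∫ dg N = 0`,
`∫|dsm N (chi E)| ≤ ∫|dg N t| D E t ≤ 2K((2N)^(-a) + N^(-a)) ≤ 4 K N^(-a)` (`gau_moment`), `inc` is a difference of two
translates.
-/

set_option autoImplicit false

open MeasureTheory Complex Set Real Filter Topology
open scoped ENNReal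

namespace Pool.MPb9430d.Frac

open Pool.MPb9430d Pool.MPb9430d.Rough

private theorem DsmL_int {N : ℝ} (hN : 0 < N) : Integrable (dg N) := by
  have h1 : 0 < 2 * N := by positivity
  exact (integrable_gau h1).sub (integrable_gau hN)

private theorem DsmL_conv {N : ℝ} (hN : 0 < N) {F : ℂ → ℝ} (hF : Integrable F) :
    Integrable (fun w : ℂ × ℂ => F w.2 * dg N (w.1 - w.2)) (volume.prod volume) :=
  Integrable.convolution_integrand (ContinuousLinearMap.mul ℝ ℝ) hF (DsmL_int hN)

private theorem DsmL_intsm {N : ℝ} (hN : 0 < N) {F : ℂ → ℝ} (hF : Integrable F) :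
    Integrable (dsm N F) := by
  have h := (DsmL_conv hN hF).integral_prod_left
  refine h.congr (Filter.Eventually.of_forall fun y => ?_)
  unfold dsm
  refine integral_congr_ae (Filter.Eventually.of_forall fun t => ?_)
  exact mul_comm _ _

private theorem DsmL_inc (E : Set ℂ) (h t y : ℂ) :
    inc E h (y - t) - inc E h y = inc E t (y - h) - inc E t y := by
  unfold inc
  rw [show y - t - h = y - h - t by ring]
  ring

private theorem DsmL_sm {N : ℝ} (hN : 0 < N) {F : ℂ → ℝ} (hm : Measurable F)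
    (hb : ∀ x, |F x| ≤ 1) (y : ℂ) : dsm N F y = ∫ t, dg N t * (F (y - t) - F y) := by
  have h1 : dsm N F y = ∫ t, dg N t * F (y - t) := by
    unfold dsm
    rw [← integral_sub_left_eq_self (fun t => dg N t * F (y - t)) volume y]
    refine integral_congr_ae (Eventually.of_forall fun t => ?_)
    simp only
    rw [sub_sub_cancel]
  have hdg : Integrable (dg N) := DsmL_int hN
  have h2 : ∫ t, dg N t * F y = 0 := by
    rw [integral_mul_const]
    have h3 : ∫ t, dg N t = 0 := by
      unfold dg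
      rw [integral_sub (integrable_gau (by positivity)) (integrable_gau (by positivity)),
        integral_gau (by positivity), integral_gau (by positivity), sub_self]
    rw [h3, zero_mul]
  have hi1 : Integrable (fun t => dg N t * F (y - t)) := by
    refine (hdg.norm).mono' ?_ (Eventually.of_forall fun t => ?_)
    · exact (hdg.aestronglyMeasurable).mul
        (hm.comp (measurable_const.sub measurable_id)).aestronglyMeasurable
    · rw [norm_mul, Real.norm_eq_abs (F (y - t))]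
      exact mul_le_of_le_one_right (norm_nonneg _) (hb _)
  have hi2 : Integrable (fun t => dg N t * F y) := hdg.mul_const _
  rw [h1, ← sub_zero (∫ t, dg N t * F (y - t)), ← h2, ← integral_sub hi1 hi2]
  refine integral_congr_ae (Eventually.of_forall fun t => ?_)
  simp only
  ring

theorem dsm_l1 {E : Set ℂ} (hE : MeasurableSet E) (hfin : volume E ≠ ∞) {K a : ℝ} (hK : 0 ≤ K)
    (ha : 0 ≤ a) (ha2 : a ≤ 2) (hR : Reg E K a) {N : ℝ} (hN : 1 ≤ N) (h : ℂ) :
    ∫ y, |dsm N (inc E h) y| ≤ 8 * K * N ^ (-a) := by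
  have hN0 : 0 < N := by linarith
  obtain ⟨hFm, hFi, hFb, -, -⟩ := inc_facts hE hfin h
  have hA0 : 0 < 2 * N := by positivity
  have hB0 : 0 < N := by positivity
  have hAN : N ≤ 2 * N := by
    have : 1 ≤ √2 := Real.one_le_sqrt.mpr (by norm_num)
    nlinarith
  have hBN : N ≤ N := by
    have : 1 ≤ √(8 / 7) := Real.one_le_sqrt.mpr (by norm_num)
    nlinarith
  obtain ⟨hAi, hAm⟩ := gau_moment hA0 ha ha2
  obtain ⟨hBi, hBm⟩ := gau_moment hB0 ha ha2
  have hNa : 0 ≤ N ^ (-a) := Real.rpow_nonneg hN0.le _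
  have hAa : (2 * N) ^ (-a) ≤ N ^ (-a) :=
    Real.rpow_le_rpow_of_nonpos hN0 hAN (by linarith)
  have hBa : (N) ^ (-a) ≤ N ^ (-a) :=
    Real.rpow_le_rpow_of_nonpos hN0 hBN (by linarith)
  have hinc : ∀ t : ℂ, ∫⁻ y, ‖inc E t y‖ₑ = ENNReal.ofReal (D E t) := by
    intro t
    obtain ⟨-, hti, -, htD, -⟩ := inc_facts hE hfin t
    rw [← ofReal_integral_norm_eq_lintegral_enorm hti, ← htD]
    simp only [Real.norm_eq_abs]
  have hinner : ∀ t : ℂ, ∫⁻ y, ‖dg N t * (inc E h (y - t) - inc E h y)‖ₑ ≤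
      ENNReal.ofReal ((gau (2 * N) t * ‖t‖ ^ a + gau (N) t * ‖t‖ ^ a) * (2 * K)) := by
    intro t
    have h1 : ∫⁻ y, ‖dg N t * (inc E h (y - t) - inc E h y)‖ₑ =
        ‖dg N t‖ₑ * ∫⁻ y, ‖inc E h (y - t) - inc E h y‖ₑ := by
      rw [← lintegral_const_mul' _ _ enorm_ne_top]
      refine lintegral_congr fun y => ?_
      rw [enorm_mul]
    have h2 : ∫⁻ y, ‖inc E h (y - t) - inc E h y‖ₑ ≤ ENNReal.ofReal (2 * (K * ‖t‖ ^ a)) := by
      have hm1 : Measurable (inc E t) := (inc_facts hE hfin t).1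
      calc ∫⁻ y, ‖inc E h (y - t) - inc E h y‖ₑ
          ≤ ∫⁻ y, (‖inc E t (y - h)‖ₑ + ‖inc E t y‖ₑ) := by
            refine lintegral_mono fun y => ?_
            rw [DsmL_inc]
            exact enorm_sub_le
        _ = (∫⁻ y, ‖inc E t (y - h)‖ₑ) + ∫⁻ y, ‖inc E t y‖ₑ :=
            lintegral_add_right _ hm1.enorm
        _ = (∫⁻ y, ‖inc E t y‖ₑ) + ∫⁻ y, ‖inc E t y‖ₑ := by
            rw [lintegral_sub_right_eq_self (fun y => ‖inc E t y‖ₑ) h]
        _ = ENNReal.ofReal (2 * D E t) := by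
            rw [hinc, ← ENNReal.ofReal_add (D_nonneg _ _) (D_nonneg _ _), two_mul]
        _ ≤ ENNReal.ofReal (2 * (K * ‖t‖ ^ a)) :=
            ENNReal.ofReal_le_ofReal (mul_le_mul_of_nonneg_left (hR t) (by norm_num))
    rw [h1]
    have h3 : ‖dg N t‖ₑ ≤ ENNReal.ofReal (gau (2 * N) t + gau (N) t) := by
      rw [← ofReal_norm, Real.norm_eq_abs]
      apply ENNReal.ofReal_le_ofReal
      unfold dg
      rw [abs_le]
      have g1 := gau_nonneg (2 * N) t
      have g2 := gau_nonneg (N) t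
      constructor <;> linarith
    calc ‖dg N t‖ₑ * ∫⁻ y, ‖inc E h (y - t) - inc E h y‖ₑ
        ≤ ENNReal.ofReal (gau (2 * N) t + gau (N) t) *
          ENNReal.ofReal (2 * (K * ‖t‖ ^ a)) := mul_le_mul' h3 h2
      _ = _ := by
          rw [← ENNReal.ofReal_mul (add_nonneg (gau_nonneg _ _) (gau_nonneg _ _))]
          congr 1
          ring
  have hG : Integrable (fun t : ℂ => (gau (2 * N) t * ‖t‖ ^ a +
      gau (N) t * ‖t‖ ^ a) * (2 * K)) := (hAi.add hBi).mul_const _
  have hGn : ∀ t : ℂ, 0 ≤ (gau (2 * N) t * ‖t‖ ^ a +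
      gau (N) t * ‖t‖ ^ a) * (2 * K) := fun t => by
    have g1 := gau_nonneg (2 * N) t
    have g2 := gau_nonneg (N) t
    positivity
  have hint : ∫ t : ℂ, (gau (2 * N) t * ‖t‖ ^ a +
      gau (N) t * ‖t‖ ^ a) * (2 * K) ≤ 8 * K * N ^ (-a) := by
    rw [integral_mul_const, integral_add hAi hBi]
    have : (∫ t, gau (2 * N) t * ‖t‖ ^ a) + (∫ t, gau (N) t * ‖t‖ ^ a) ≤
        4 * N ^ (-a) := by linarith
    nlinarith
  have hmain : ∫⁻ y, ‖dsm N (inc E h) y‖ₑ ≤ ENNReal.ofReal (8 * K * N ^ (-a)) := by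
    calc ∫⁻ y, ‖dsm N (inc E h) y‖ₑ
        ≤ ∫⁻ y, ∫⁻ t, ‖dg N t * (inc E h (y - t) - inc E h y)‖ₑ := by
          refine lintegral_mono fun y => ?_
          rw [DsmL_sm hN0 hFm hFb]
          exact enorm_integral_le_lintegral_enorm _
      _ = ∫⁻ t, ∫⁻ y, ‖dg N t * (inc E h (y - t) - inc E h y)‖ₑ := by
          refine lintegral_lintegral_swap ?_
          have hdc : Continuous (dg N) := by
            unfold dg
            exact (continuous_gau _).sub (continuous_gau _)
          refine Measurable.aemeasurable ?_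
          exact ((hdc.measurable.comp measurable_snd).mul
            ((hFm.comp (measurable_fst.sub measurable_snd)).sub
              (hFm.comp measurable_fst))).enorm
      _ ≤ ∫⁻ t, ENNReal.ofReal ((gau (2 * N) t * ‖t‖ ^ a +
            gau (N) t * ‖t‖ ^ a) * (2 * K)) := lintegral_mono hinner
      _ = ENNReal.ofReal (∫ t, (gau (2 * N) t * ‖t‖ ^ a +
            gau (N) t * ‖t‖ ^ a) * (2 * K)) :=
          (ofReal_integral_eq_lintegral_ofReal hG (Eventually.of_forall hGn)).symm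
      _ ≤ ENNReal.ofReal (8 * K * N ^ (-a)) := ENNReal.ofReal_le_ofReal hint
  have hsmi : Integrable (dsm N (inc E h)) := DsmL_intsm hN0 hFi
  have h5 : ∫ y, |dsm N (inc E h) y| = (∫⁻ y, ‖dsm N (inc E h) y‖ₑ).toReal := by
    rw [← integral_norm_eq_lintegral_enorm hsmi.aestronglyMeasurable]
    simp only [Real.norm_eq_abs]
  rw [h5]
  exact ENNReal.toReal_le_of_le_ofReal (by positivity) hmain

end Pool.MPb9430d.Frac
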