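import Pool.Agent.Lib.MP_b9430d_co.Frac.Defs

/-!
# LatS: `∑_{0 < |z| ≤ X} |z|^(-1/2) ≤ 8 X^(3/2)`

Group the lattice points by `k = max(|a|, |b|)`, `1 ≤ k ≤ ⌊X⌋` (because `max(|a|,|b|) ≤ ‖lat p‖`): there are `8 k` of them
(`Int.card_box`, `Finset.box`; or only `≤ 8k`), and each has `‖lat p‖ ≥ k`. Hence the sum is at most
`∑_{k ≤ ⌊X⌋} 8 k / √k = 8 ∑_{k≤⌊X⌋} √k ≤ 8 ⌊X⌋ √X ≤ 8 X √X`.
-/

set_option autoImplicit false

open MeasureTheory Complex Set Real Filter Topology
open scoped ENNReal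

namespace Pool.MPb9430d.Frac

open Pool.MPb9430d Pool.MPb9430d.Rough

private def lats_k (p : ℤ × ℤ) : ℕ := max p.1.natAbs p.2.natAbs

private theorem lats_k_le (p : ℤ × ℤ) : (lats_k p : ℝ) ≤ ‖lat p‖ := by
  unfold lats_k
  rw [Nat.cast_max]
  refine max_le ?_ ?_
  · have h := Complex.abs_re_le_norm (lat p)
    rw [lat_re] at h
    rw [Nat.cast_natAbs, Int.cast_abs]
    exact h
  · have h := Complex.abs_im_le_norm (lat p)
    rw [lat_im] at h
    rw [Nat.cast_natAbs, Int.cast_abs]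
    exact h

private theorem lats_k_pos {p : ℤ × ℤ} (hp : p ≠ 0) : 1 ≤ lats_k p := by
  by_contra hcon
  have h0 : max p.1.natAbs p.2.natAbs = 0 := by
    unfold lats_k at hcon
    omega
  apply hp
  have h1 : p.1 = 0 := by omega
  have h2 : p.2 = 0 := by omega
  exact Prod.ext h1 h2

theorem sum_near {X : ℝ} (hX : 1 ≤ X) : ∑ p ∈ near X, 1 / √‖lat p‖ ≤ 8 * (X * √X) := by
  have hmaps : ∀ p ∈ near X, lats_k p ∈ Finset.Icc 1 ⌊X⌋₊ := by
    intro p hp
    rw [mem_near] at hp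
    rw [Finset.mem_Icc]
    exact ⟨lats_k_pos hp.1, Nat.le_floor ((lats_k_le p).trans hp.2)⟩
  rw [← Finset.sum_fiberwise_of_maps_to hmaps]
  have hfib : ∀ k ∈ Finset.Icc 1 ⌊X⌋₊, ∑ p ∈ near X with lats_k p = k, 1 / √‖lat p‖ ≤ 8 * √X := by
    intro k hk
    rw [Finset.mem_Icc] at hk
    have hk0 : (0 : ℝ) < k := by exact_mod_cast hk.1
    have hkX : (k : ℝ) ≤ X := (Nat.cast_le.mpr hk.2).trans (Nat.floor_le (by linarith))
    have hsub : (near X).filter (fun p => lats_k p = k) ⊆ Finset.box k := by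
      intro p hp
      rw [Finset.mem_filter] at hp
      rw [Int.mem_box]
      exact hp.2
    have hcard : (((near X).filter (fun p => lats_k p = k)).card : ℝ) ≤ 8 * k := by
      have h1 := Finset.card_le_card hsub
      rw [Int.card_box (by omega)] at h1
      exact_mod_cast h1
    have hterm : ∀ p ∈ (near X).filter (fun p => lats_k p = k), 1 / √‖lat p‖ ≤ 1 / √(k : ℝ) := by
      intro p hp
      rw [Finset.mem_filter] at hp
      have h1 := lats_k_le p
      rw [hp.2] at h1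
      exact one_div_le_one_div_of_le (Real.sqrt_pos.mpr hk0) (Real.sqrt_le_sqrt h1)
    calc ∑ p ∈ near X with lats_k p = k, 1 / √‖lat p‖
        ≤ ∑ p ∈ near X with lats_k p = k, 1 / √(k : ℝ) := Finset.sum_le_sum hterm
      _ = (((near X).filter (fun p => lats_k p = k)).card : ℝ) * (1 / √(k : ℝ)) := by
          rw [Finset.sum_const, nsmul_eq_mul]
      _ ≤ (8 * k) * (1 / √(k : ℝ)) := by
          apply mul_le_mul_of_nonneg_right hcard
          positivity
      _ = 8 * √(k : ℝ) := by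
          have h2 : √(k : ℝ) * √(k : ℝ) = k := Real.mul_self_sqrt hk0.le
          have h3 : √(k : ℝ) ≠ 0 := (Real.sqrt_pos.mpr hk0).ne'
          field_simp
          linarith
      _ ≤ 8 * √X := by
          have := Real.sqrt_le_sqrt hkX
          linarith
  calc ∑ k ∈ Finset.Icc 1 ⌊X⌋₊, ∑ p ∈ near X with lats_k p = k, 1 / √‖lat p‖
      ≤ ∑ k ∈ Finset.Icc 1 ⌊X⌋₊, 8 * √X := Finset.sum_le_sum hfib
    _ = (⌊X⌋₊ : ℝ) * (8 * √X) := by
        rw [Finset.sum_const, nsmul_eq_mul, Nat.card_Icc]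
        simp
    _ ≤ X * (8 * √X) := by
        apply mul_le_mul_of_nonneg_right (Nat.floor_le (by linarith))
        positivity
    _ = 8 * (X * √X) := by ring

end Pool.MPb9430d.Frac
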