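import Pool.Agent.Lib.MP_b9430d_co.Frac.Poi
import Pool.Agent.Lib.MP_b9430d_co.Frac.BesA
import Pool.Agent.Lib.MP_b9430d_co.Frac.BesB
import Pool.Agent.Lib.MP_b9430d_co.Frac.CirA
import Pool.Agent.Lib.MP_b9430d_co.Frac.GauF

/-!
# PoiC: Poisson summation for the circle means

`∑_q cir N (lat q) p = ∑_w gh N (lat w) bes(‖lat w‖ ‖p‖)`, and the bound
`|∑_q cir N (lat q) p - 1| ≤ C N² / √‖p‖`.
-/

set_option autoImplicit false

open MeasureTheory Complex Set Real Filter Topology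
open scoped ENNReal

namespace Pool.MPb9430d.Frac

open Pool.MPb9430d Pool.MPb9430d.Rough

private theorem PoiC_int (f : ℝ → ℝ) : (∫ φ in (-π)..π, f φ) = ∫ φ in Ioc (-π) π, f φ :=
  intervalIntegral.integral_of_le (by linarith [Real.pi_pos])

private theorem PoiC_cont (N : ℝ) (z p : ℂ) : Continuous fun φ : ℝ => gau N (p + rot φ * z) :=
  (continuous_gau N).comp (continuous_const.add (continuous_rot.mul continuous_const))

private theorem PoiC_rot (N : ℝ) (p z : ℂ) (φ : ℝ) :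
    gau N (p + rot φ * z) = gau N (rot (-φ) * p + z) := by
  have h1 : rot (-φ) * (p + rot φ * z) = rot (-φ) * p + z := by
    have h2 : rot (-φ) * rot φ = 1 := by
      unfold rot
      rw [← Complex.exp_add]
      push_cast
      rw [show -(φ : ℂ) * I + φ * I = 0 by ring, Complex.exp_zero]
    calc rot (-φ) * (p + rot φ * z) = rot (-φ) * p + (rot (-φ) * rot φ) * z := by ring
      _ = rot (-φ) * p + z := by rw [h2, one_mul]
  have h3 : ‖rot (-φ) * (p + rot φ * z)‖ = ‖p + rot φ * z‖ := by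
    rw [norm_mul]
    have : ‖rot (-φ)‖ = 1 := by
      unfold rot
      exact Complex.norm_exp_ofReal_mul_I _
    rw [this, one_mul]
  unfold gau
  rw [← h1, h3]

/-- The mean of the cosine over the circle. -/
theorem mean_cos (p w : ℂ) : (∫ φ in (-π)..π, Real.cos (2 * π * ip (rot (-φ) * p) w)) =
    2 * π * bes (‖w‖ * ‖p‖) := by
  have h1 := mean_ee p w
  have h2 : (∫ φ in (-π)..π, ee (ip (rot (-φ) * p) w)) = ∫ φ in (-π)..π, ee (ip (rot φ * p) w) := by
    have := intervalIntegral.integral_comp_neg (a := -π) (b := π) fun φ : ℝ => ee (ip (rot φ * p) w)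
    rw [neg_neg] at this
    exact this
  rw [← h2] at h1
  have h3 := congrArg Complex.re h1
  have hc : Continuous fun φ : ℝ => ee (ip (rot (-φ) * p) w) := by
    have h4 : Continuous fun φ : ℝ => ip (rot (-φ) * p) w := by
      unfold ip rot
      fun_prop
    exact continuous_ee.comp h4
  rw [PoiC_int]
  rw [intervalIntegral.integral_of_le (by linarith [Real.pi_pos])] at h3
  have h5 : (∫ φ in Ioc (-π) π, ee (ip (rot (-φ) * p) w)).re =
      ∫ φ in Ioc (-π) π, (ee (ip (rot (-φ) * p) w)).re := by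
    have := integral_re (𝕜 := ℂ) (μ := volume.restrict (Ioc (-π) π))
      (f := fun φ : ℝ => ee (ip (rot (-φ) * p) w)) (hc.integrableOn_Ioc)
    exact this.symm
  rw [h5] at h3
  have h6 : ∀ t : ℝ, (ee t).re = Real.cos (2 * π * t) := fun t => by
    unfold ee
    rw [Complex.exp_ofReal_mul_I_re]
  simp only [h6] at h3
  rw [h3, mul_comm ‖w‖ ‖p‖]
  norm_cast

theorem hasSum_cir {N : ℝ} (hN : 0 < N) (p : ℂ) :
    HasSum (fun q : ℤ × ℤ => cir N (lat q) p)
      (∑' w : ℤ × ℤ, gh N (lat w) * bes (‖lat w‖ * ‖p‖)) := by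
  have hpi := Real.pi_pos
  have hfin : IsFiniteMeasure (volume.restrict (Ioc (-π) π)) :=
    ⟨by rw [Measure.restrict_apply_univ, Real.volume_Ioc]; exact ENNReal.ofReal_lt_top⟩
  -- bound of all partial sums
  have hle : ∀ (φ : ℝ) (S : Finset (ℤ × ℤ)), ∑ q ∈ S, gau N (p + rot φ * lat q) ≤
      ∑' w : ℤ × ℤ, gh N (lat w) := by
    intro φ S
    have h1 : ∀ q : ℤ × ℤ, gau N (p + rot φ * lat q) = gau N (rot (-φ) * p + lat q) :=
      fun q => PoiC_rot N p (lat q) φ
    have h2 := (summable_gau hN (rot (-φ) * p)).sum_le_tsum S fun q _ => gau_nonneg N _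
    rw [poisson hN] at h2
    have h3 : ∑' q : ℤ × ℤ, gh N (lat q) * Real.cos (2 * π * ip (rot (-φ) * p) (lat q)) ≤
        ∑' q : ℤ × ℤ, gh N (lat q) := by
      refine Summable.tsum_le_tsum (fun q => ?_) ?_ (summable_gh hN)
      · have := Real.cos_le_one (2 * π * ip (rot (-φ) * p) (lat q))
        nlinarith [gh_pos N (lat q)]
      · refine Summable.of_norm_bounded (summable_gh hN) fun q => ?_
        rw [norm_mul, Real.norm_of_nonneg (gh_pos N _).le, Real.norm_eq_abs]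
        have := Real.abs_cos_le_one (2 * π * ip (rot (-φ) * p) (lat q))
        nlinarith [gh_pos N (lat q)]
    calc ∑ q ∈ S, gau N (p + rot φ * lat q) = ∑ q ∈ S, gau N (rot (-φ) * p + lat q) :=
          Finset.sum_congr rfl fun q _ => h1 q
      _ ≤ _ := h2.trans h3
  -- summability in L¹
  have hint : ∀ q : ℤ × ℤ, Integrable (fun φ : ℝ => gau N (p + rot φ * lat q))
      (volume.restrict (Ioc (-π) π)) := fun q => (PoiC_cont N (lat q) p).integrableOn_Ioc
  have hsum : Summable fun q : ℤ × ℤ => ∫ φ in Ioc (-π) π, ‖gau N (p + rot φ * lat q)‖ := by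
    refine summable_of_sum_le (c := 2 * π * ∑' w : ℤ × ℤ, gh N (lat w))
      (fun q => integral_nonneg fun φ => norm_nonneg _) fun S => ?_
    rw [← integral_finsetSum S fun q _ => (hint q).norm]
    have h1 : ∫ φ in Ioc (-π) π, ∑ q ∈ S, ‖gau N (p + rot φ * lat q)‖ ≤
        ∫ _φ in Ioc (-π) π, ∑' w : ℤ × ℤ, gh N (lat w) := by
      refine integral_mono (integrable_finsetSum S fun q _ => (hint q).norm) (integrable_const _)
        fun φ => ?_
      have h2 : ∀ q ∈ S, ‖gau N (p + rot φ * lat q)‖ = gau N (p + rot φ * lat q) :=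
        fun q _ => Real.norm_of_nonneg (gau_nonneg N _)
      show ∑ q ∈ S, ‖gau N (p + rot φ * lat q)‖ ≤ ∑' w : ℤ × ℤ, gh N (lat w)
      rw [Finset.sum_congr rfl h2]
      exact hle φ S
    refine h1.trans (le_of_eq ?_)
    rw [integral_const, smul_eq_mul, Measure.real, Measure.restrict_apply_univ, Real.volume_Ioc,
      ENNReal.toReal_ofReal (by linarith)]
    ring
  have hsum2 : Summable fun w : ℤ × ℤ =>
      ∫ φ in Ioc (-π) π, ‖gh N (lat w) * Real.cos (2 * π * ip (rot (-φ) * p) (lat w))‖ := by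
    refine Summable.of_nonneg_of_le (fun w => integral_nonneg fun φ => norm_nonneg _) (fun w => ?_)
      ((summable_gh hN).mul_left (2 * π))
    have h1 : ∫ φ in Ioc (-π) π, ‖gh N (lat w) * Real.cos (2 * π * ip (rot (-φ) * p) (lat w))‖ ≤
        ∫ _φ in Ioc (-π) π, gh N (lat w) := by
      refine integral_mono_of_nonneg (Eventually.of_forall fun φ => norm_nonneg _)
        (integrable_const _) (Eventually.of_forall fun φ => ?_)
      show ‖gh N (lat w) * Real.cos (2 * π * ip (rot (-φ) * p) (lat w))‖ ≤ gh N (lat w)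
      rw [norm_mul, Real.norm_of_nonneg (gh_pos N _).le, Real.norm_eq_abs]
      have := Real.abs_cos_le_one (2 * π * ip (rot (-φ) * p) (lat w))
      nlinarith [gh_pos N (lat w)]
    refine h1.trans (le_of_eq ?_)
    rw [integral_const, smul_eq_mul, Measure.real, Measure.restrict_apply_univ, Real.volume_Ioc,
      ENNReal.toReal_ofReal (by linarith)]
    ring
  have hcw : ∀ w : ℤ × ℤ, Continuous fun φ : ℝ =>
      gh N (lat w) * Real.cos (2 * π * ip (rot (-φ) * p) (lat w)) := fun w => by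
    unfold ip rot
    fun_prop
  have e1 := hasSum_integral_of_summable_integral_norm hint hsum
  have e2 := hasSum_integral_of_summable_integral_norm
    (μ := volume.restrict (Ioc (-π) π))
    (F := fun (w : ℤ × ℤ) (φ : ℝ) => gh N (lat w) * Real.cos (2 * π * ip (rot (-φ) * p) (lat w)))
    (fun w => (hcw w).integrableOn_Ioc) hsum2
  have e3 : (∫ φ in Ioc (-π) π, ∑' q : ℤ × ℤ, gau N (p + rot φ * lat q)) =
      ∫ φ in Ioc (-π) π, ∑' w : ℤ × ℤ,
        gh N (lat w) * Real.cos (2 * π * ip (rot (-φ) * p) (lat w)) := by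
    refine integral_congr_ae (Eventually.of_forall fun φ => ?_)
    show ∑' q : ℤ × ℤ, gau N (p + rot φ * lat q) = _
    rw [tsum_congr fun q => PoiC_rot N p (lat q) φ, poisson hN]
  have e4 : ∀ q : ℤ × ℤ, cir N (lat q) p =
      (2 * π)⁻¹ * ∫ φ in Ioc (-π) π, gau N (p + rot φ * lat q) := fun q => by
    unfold cir
    rw [PoiC_int]
  have e5 := e1.mul_left (2 * π)⁻¹
  rw [e3, ← e2.tsum_eq, ← tsum_mul_left] at e5
  have e6 : (fun q : ℤ × ℤ => cir N (lat q) p) =
      fun q => (2 * π)⁻¹ * ∫ φ in Ioc (-π) π, gau N (p + rot φ * lat q) := funext e4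
  rw [e6]
  have e7 : (∑' w : ℤ × ℤ, gh N (lat w) * bes (‖lat w‖ * ‖p‖)) =
      ∑' w : ℤ × ℤ, (2 * π)⁻¹ * ∫ φ in Ioc (-π) π,
        gh N (lat w) * Real.cos (2 * π * ip (rot (-φ) * p) (lat w)) := by
    refine tsum_congr fun w => ?_
    rw [integral_const_mul, ← PoiC_int, mean_cos]
    field_simp
  rw [e7]
  exact e5

/-- Poisson summation for the circle means. -/
theorem poisson_cir {N : ℝ} (hN : 0 < N) (p : ℂ) :
    ∑' q : ℤ × ℤ, cir N (lat q) p = ∑' w : ℤ × ℤ, gh N (lat w) * bes (‖lat w‖ * ‖p‖) :=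
  (hasSum_cir hN p).tsum_eq

theorem summable_cir {N : ℝ} (hN : 0 < N) (p : ℂ) : Summable fun q : ℤ × ℤ => cir N (lat q) p :=
  (hasSum_cir hN p).summable

private theorem PoiC_gh (N : ℝ) (hN : 0 < N) :
    ∑' w : ℤ × ℤ, gh N (lat w) = ∑' q : ℤ × ℤ, gau N (lat q) := by
  have h := poisson hN 0
  simp only [zero_add] at h
  rw [h]
  refine tsum_congr fun w => ?_
  have : ip 0 (lat w) = 0 := by
    unfold ip
    simp
  rw [this, mul_zero, Real.cos_zero, mul_one]

theorem tsum_gh_le {N : ℝ} (hN : 1 ≤ N) :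
    ∑' w : ℤ × ℤ, gh N (lat w) ≤ N ^ 2 * ∑' w : ℤ × ℤ, gau 1 (lat w) := by
  have hN0 : 0 < N := by linarith
  rw [PoiC_gh N hN0, ← tsum_mul_left]
  have s1 : Summable fun p : ℤ × ℤ => gau N (lat p) := by
    have := summable_gau hN0 0
    simpa using this
  have s2 : Summable fun p : ℤ × ℤ => gau 1 (lat p) := by
    have := summable_gau one_pos (0 : ℂ)
    simpa using this
  refine Summable.tsum_le_tsum (fun q => ?_) s1 (s2.mul_left _)
  unfold gau
  have h1 : Real.exp (-(π * N ^ 2 * ‖lat q‖ ^ 2)) ≤ Real.exp (-(π * 1 ^ 2 * ‖lat q‖ ^ 2)) := by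
    rw [Real.exp_le_exp]
    have h2 : (1 : ℝ) ^ 2 ≤ N ^ 2 := by nlinarith
    have h3 : π * 1 ^ 2 * ‖lat q‖ ^ 2 ≤ π * N ^ 2 * ‖lat q‖ ^ 2 := by
      have := Real.pi_pos
      gcongr
    linarith
  have h4 := mul_le_mul_of_nonneg_left h1 (sq_nonneg N)
  linarith

private theorem PoiC_one_le {w : ℤ × ℤ} (hw : w ≠ 0) : 1 ≤ ‖lat w‖ := by
  have h1 : 1 ≤ ‖lat w‖ ^ 2 := by
    rw [← Complex.normSq_eq_norm_sq, Complex.normSq_apply]
    have h2 : (lat w).re = w.1 := by simp [lat]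
    have h3 : (lat w).im = w.2 := by simp [lat]
    rw [h2, h3]
    have h4 : 1 ≤ w.1 * w.1 + w.2 * w.2 := by
      by_contra hc
      have h5 : w.1 * w.1 + w.2 * w.2 ≤ 0 := by omega
      have h6 : w.1 = 0 := by nlinarith [mul_self_nonneg w.1, mul_self_nonneg w.2]
      have h7 : w.2 = 0 := by nlinarith [mul_self_nonneg w.1, mul_self_nonneg w.2]
      exact hw (Prod.ext h6 h7)
    exact_mod_cast h4
  nlinarith [norm_nonneg (lat w)]

/-- The sum of the circle means is close to `1` far away from the origin. -/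
theorem cir_sum_near_one : ∃ C : ℝ, 0 < C ∧ ∀ (N : ℝ) (p : ℂ), 1 ≤ N → p ≠ 0 →
    |∑' q : ℤ × ℤ, cir N (lat q) p - 1| ≤ C * N ^ 2 / √‖p‖ := by
  set T : ℝ := ∑' w : ℤ × ℤ, gau 1 (lat w) with hT
  have hT0 : 0 ≤ T := tsum_nonneg fun w => gau_nonneg 1 _
  refine ⟨2 * T + 1, by linarith, fun N p hN hp => ?_⟩
  have hN0 : 0 < N := by linarith
  have hp0 : 0 < ‖p‖ := norm_pos_iff.mpr hp
  have hs : 0 < √‖p‖ := Real.sqrt_pos.mpr hp0
  have hsm : Summable fun w : ℤ × ℤ => gh N (lat w) * bes (‖lat w‖ * ‖p‖) := by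
    refine Summable.of_norm_bounded (summable_gh hN0) fun w => ?_
    rw [norm_mul, Real.norm_of_nonneg (gh_pos N _).le, Real.norm_eq_abs]
    have := abs_bes_le_one (‖lat w‖ * ‖p‖)
    nlinarith [gh_pos N (lat w)]
  have h0 : gh N (lat 0) * bes (‖lat 0‖ * ‖p‖) = 1 := by
    have : lat 0 = 0 := by simp [lat]
    rw [this, norm_zero, zero_mul, bes_zero]
    unfold gh
    simp
  have h1 : ∑' q : ℤ × ℤ, cir N (lat q) p - 1 =
      ∑' w : ℤ × ℤ, if w = 0 then 0 else gh N (lat w) * bes (‖lat w‖ * ‖p‖) := by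
    rw [poisson_cir hN0, hsm.tsum_eq_add_tsum_ite 0, h0]
    ring
  rw [h1, ← Real.norm_eq_abs]
  have h2 : ∀ w : ℤ × ℤ, ‖(if w = 0 then (0 : ℝ) else gh N (lat w) * bes (‖lat w‖ * ‖p‖))‖ ≤
      2 / √‖p‖ * gh N (lat w) := by
    intro w
    split_ifs with hw
    · rw [norm_zero]
      have := gh_pos N (lat w)
      positivity
    · rw [norm_mul, Real.norm_of_nonneg (gh_pos N _).le, Real.norm_eq_abs, mul_comm]
      have h3 := PoiC_one_le hw
      have h4 : 0 < ‖lat w‖ * ‖p‖ := by positivity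
      have h5 := abs_bes_le h4
      have h6 : √‖p‖ ≤ √(‖lat w‖ * ‖p‖) := Real.sqrt_le_sqrt (by nlinarith)
      have h7 : 2 / √(‖lat w‖ * ‖p‖) ≤ 2 / √‖p‖ := by
        gcongr
      exact mul_le_mul_of_nonneg_right (h5.trans h7) (gh_pos N _).le
  have h3 := tsum_of_norm_bounded ((summable_gh hN0).hasSum.mul_left (2 / √‖p‖)) h2
  have h4 := tsum_gh_le hN
  rw [← hT] at h4
  calc _ ≤ 2 / √‖p‖ * ∑' w : ℤ × ℤ, gh N (lat w) := h3
    _ ≤ 2 / √‖p‖ * (N ^ 2 * T) := mul_le_mul_of_nonneg_left h4 (by positivity)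
    _ ≤ (2 * T + 1) * N ^ 2 / √‖p‖ := by
      rw [div_mul_eq_mul_div, div_le_div_iff_of_pos_right hs]
      nlinarith [sq_nonneg N]

end Pool.MPb9430d.Frac
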