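import Pool.Agent.Lib.MP_b9430d_co.Frac.CirA
import Pool.Agent.Lib.MP_b9430d_co.Frac.GauF

/-!
# Semi: semigroup property of Gaussians and of circle means

`gau_conv`: `A²‖x-y‖² + B²‖y‖² = (A²+B²)‖y - (A²/(A²+B²)) x‖² + C²‖x‖²`, `C² = A²B²/(A²+B²)`; integrate over `y`
(`integral_sub_right_eq_self`, `integral_gau` with `N² = A²+B²`): `A²B²/(A²+B²) exp(-π C²‖x‖²) = gau C x`.
`cir_conv`: `cir A z (x - y) = (1/2π) ∫_φ gau A (x - y + rot φ z)`; exchange the integrals (Fubini, integrand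
nonnegative, `≤ A² gau B y`) and use `gau_conv` at `x + rot φ z`.
-/

set_option autoImplicit false

open MeasureTheory Complex Set Real Filter Topology
open scoped ENNReal

namespace Pool.MPb9430d.Frac

open Pool.MPb9430d Pool.MPb9430d.Rough

private theorem Semi_pt {A B C : ℝ} (hA : 0 < A) (hB : 0 < B) (hC : 0 < C)
    (h : 1 / C ^ 2 = 1 / A ^ 2 + 1 / B ^ 2) (x y : ℂ) :
    gau A (x - y) * gau B y =
      gau C x * gau (√(A ^ 2 + B ^ 2)) (y - ((A ^ 2 / (A ^ 2 + B ^ 2) : ℝ) : ℂ) * x) := by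
  have hS : 0 < A ^ 2 + B ^ 2 := by positivity
  have hC2 : C ^ 2 = A ^ 2 * B ^ 2 / (A ^ 2 + B ^ 2) := by
    have h1 : C ^ 2 * (A ^ 2 + B ^ 2) = A ^ 2 * B ^ 2 := by
      field_simp at h
      linarith
    rw [eq_div_iff hS.ne']
    exact h1
  unfold gau
  rw [Real.sq_sqrt hS.le]
  have h2 : A ^ 2 * Real.exp (-(π * A ^ 2 * ‖x - y‖ ^ 2)) *
      (B ^ 2 * Real.exp (-(π * B ^ 2 * ‖y‖ ^ 2))) =
      A ^ 2 * B ^ 2 * Real.exp (-(π * A ^ 2 * ‖x - y‖ ^ 2) + -(π * B ^ 2 * ‖y‖ ^ 2)) := by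
    rw [Real.exp_add]
    ring
  have h3 : C ^ 2 * Real.exp (-(π * C ^ 2 * ‖x‖ ^ 2)) *
      ((A ^ 2 + B ^ 2) * Real.exp (-(π * (A ^ 2 + B ^ 2) *
        ‖y - ((A ^ 2 / (A ^ 2 + B ^ 2) : ℝ) : ℂ) * x‖ ^ 2))) =
      C ^ 2 * (A ^ 2 + B ^ 2) * Real.exp (-(π * C ^ 2 * ‖x‖ ^ 2) + -(π * (A ^ 2 + B ^ 2) *
        ‖y - ((A ^ 2 / (A ^ 2 + B ^ 2) : ℝ) : ℂ) * x‖ ^ 2)) := by
    rw [Real.exp_add]
    ring
  rw [h2, h3]
  have h4 : C ^ 2 * (A ^ 2 + B ^ 2) = A ^ 2 * B ^ 2 := by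
    rw [hC2]
    field_simp
  rw [h4]
  congr 2
  rw [Complex.sq_norm, Complex.sq_norm, Complex.sq_norm, Complex.sq_norm, Complex.normSq_apply,
    Complex.normSq_apply, Complex.normSq_apply, Complex.normSq_apply, Complex.sub_re,
    Complex.sub_im, Complex.sub_re, Complex.sub_im, Complex.re_ofReal_mul,
    Complex.im_ofReal_mul, hC2]
  field_simp
  ring

private theorem Semi_le (N : ℝ) (x : ℂ) : gau N x ≤ N ^ 2 := by
  unfold gau
  have h1 : Real.exp (-(π * N ^ 2 * ‖x‖ ^ 2)) ≤ 1 := by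
    rw [Real.exp_le_one_iff]
    have : 0 ≤ π * N ^ 2 * ‖x‖ ^ 2 := by positivity
    linarith
  nlinarith [sq_nonneg N]

theorem gau_conv {A B C : ℝ} (hA : 0 < A) (hB : 0 < B) (hC : 0 < C)
    (h : 1 / C ^ 2 = 1 / A ^ 2 + 1 / B ^ 2) (x : ℂ) : ∫ y, gau A (x - y) * gau B y = gau C x := by
  have h1 : ∀ y, gau A (x - y) * gau B y =
      gau C x * gau (√(A ^ 2 + B ^ 2)) (y - ((A ^ 2 / (A ^ 2 + B ^ 2) : ℝ) : ℂ) * x) :=
    fun y => Semi_pt hA hB hC h x y
  have hN : 0 < √(A ^ 2 + B ^ 2) := Real.sqrt_pos.2 (by positivity)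
  rw [integral_congr_ae (Eventually.of_forall h1), integral_const_mul,
    integral_sub_right_eq_self (gau (√(A ^ 2 + B ^ 2))), integral_gau hN, mul_one]

theorem cir_conv {A B C : ℝ} (hA : 0 < A) (hB : 0 < B) (hC : 0 < C)
    (h : 1 / C ^ 2 = 1 / A ^ 2 + 1 / B ^ 2) (z x : ℂ) :
    ∫ y, cir A z (x - y) * gau B y = cir C z x := by
  have hle : -π ≤ π := by linarith [Real.pi_pos]
  have h1 : ∀ y, cir A z (x - y) * gau B y =
      (2 * π)⁻¹ * ∫ φ in Ioc (-π) π, gau A (x - y + rot φ * z) * gau B y := by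
    intro y
    unfold cir
    rw [intervalIntegral.integral_of_le hle, integral_mul_const]
    ring
  rw [integral_congr_ae (Eventually.of_forall h1), integral_const_mul]
  have hint : Integrable (Function.uncurry fun (y : ℂ) (φ : ℝ) =>
      gau A (x - y + rot φ * z) * gau B y)
      (volume.prod (volume.restrict (Ioc (-π) π))) := by
    have hdom : Integrable (fun q : ℂ × ℝ => A ^ 2 * gau B q.1)
        (volume.prod (volume.restrict (Ioc (-π) π))) :=
      Integrable.comp_fst ((integrable_gau hB).const_mul (A ^ 2)) _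
    refine hdom.mono' ?_ (Eventually.of_forall fun q => ?_)
    · refine Continuous.aestronglyMeasurable ?_
      have hc1 := continuous_gau A
      have hc2 := continuous_gau B
      have hc3 := continuous_rot
      show Continuous fun q : ℂ × ℝ => gau A (x - q.1 + rot q.2 * z) * gau B q.1
      fun_prop
    · show ‖gau A (x - q.1 + rot q.2 * z) * gau B q.1‖ ≤ A ^ 2 * gau B q.1
      rw [Real.norm_eq_abs, abs_of_nonneg (mul_nonneg (gau_nonneg _ _) (gau_nonneg _ _))]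
      exact mul_le_mul_of_nonneg_right (Semi_le A _) (gau_nonneg _ _)
  rw [integral_integral_swap hint]
  unfold cir
  rw [intervalIntegral.integral_of_le hle]
  congr 1
  refine integral_congr_ae (Eventually.of_forall fun φ => ?_)
  show ∫ y, gau A (x - y + rot φ * z) * gau B y = gau C (x + rot φ * z)
  rw [← gau_conv hA hB hC h (x + rot φ * z)]
  refine integral_congr_ae (Eventually.of_forall fun y => ?_)
  show gau A (x - y + rot φ * z) * gau B y = gau A (x + rot φ * z - y) * gau B y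
  rw [show x - y + rot φ * z = x + rot φ * z - y by ring]

end Pool.MPb9430d.Frac
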