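import Pool.Agent.Lib.MP_b9430d_co.Frac.KerB
import Pool.Agent.Lib.MP_b9430d_co.Frac.Semi
import Pool.Agent.Lib.MP_b9430d_co.Frac.LatS
import Pool.Agent.Lib.MP_b9430d_co.Frac.PoiC

/-!
# F1: the sum of all circle means away from the origin

`∑_q cir N (lat q) u ≤ C max(N, R)^ε (1 + N/R)` for `‖u‖ ≥ R/2`. Lattice points of norm at most `R/4` contribute
`O(1)` by the Gaussian; for the others use `ker_bound` if `N ≥ R/4` and the semigroup property if `N < R/4`.
-/

set_option autoImplicit false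

open MeasureTheory Complex Set Real Filter Topology
open scoped ENNReal

namespace Pool.MPb9430d.Frac

open Pool.MPb9430d Pool.MPb9430d.Rough

private theorem F1_card {X : ℝ} (hX : 1 ≤ X) : ((near X).card : ℝ) ≤ 8 * X ^ 2 := by
  have h1 := sum_near hX
  have hX0 : 0 < X := by linarith
  have hs : 0 < √X := Real.sqrt_pos.mpr hX0
  have h2 : ((near X).card : ℝ) * (1 / √X) ≤ ∑ p ∈ near X, 1 / √‖lat p‖ := by
    rw [← nsmul_eq_mul]
    refine Finset.card_nsmul_le_sum _ _ _ fun p hp => ?_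
    have h3 := mem_near.1 hp
    have h4 : 0 < ‖lat p‖ := lt_of_lt_of_le one_pos (one_le_norm_lat h3.1)
    have h5 : √‖lat p‖ ≤ √X := Real.sqrt_le_sqrt h3.2
    have h6 : 0 < √‖lat p‖ := Real.sqrt_pos.mpr h4
    exact one_div_le_one_div_of_le h6 h5
  have h3 := h2.trans h1
  rw [mul_one_div, div_le_iff₀ hs] at h3
  have h4 : 8 * (X * √X) * √X = 8 * X ^ 2 := by
    have : √X * √X = X := Real.mul_self_sqrt hX0.le
    calc 8 * (X * √X) * √X = 8 * X * (√X * √X) := by ring
      _ = 8 * X ^ 2 := by rw [this]; ring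
  rwa [h4] at h3

private theorem F1_near {N R : ℝ} (hN : 1 ≤ N) (hR : 4 ≤ R) {u z : ℂ} (hu : R / 2 ≤ ‖u‖)
    (hz : ‖z‖ ≤ R / 4) : cir N z u ≤ N ^ 2 * Real.exp (-(π * N ^ 2 * (R / 4) ^ 2)) := by
  unfold cir
  have hpi := Real.pi_pos
  have hb : ∀ φ : ℝ, gau N (u + rot φ * z) ≤ N ^ 2 * Real.exp (-(π * N ^ 2 * (R / 4) ^ 2)) := by
    intro φ
    unfold gau
    have h1 : R / 4 ≤ ‖u + rot φ * z‖ := by
      have h2 : ‖u‖ ≤ ‖u + rot φ * z‖ + ‖rot φ * z‖ := by
        have := norm_sub_le (u + rot φ * z) (rot φ * z)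
        rwa [add_sub_cancel_right] at this
      rw [norm_mul, norm_rot, one_mul] at h2
      linarith
    have h3 : (R / 4) ^ 2 ≤ ‖u + rot φ * z‖ ^ 2 := pow_le_pow_left₀ (by linarith) h1 2
    have h4 : π * N ^ 2 * (R / 4) ^ 2 ≤ π * N ^ 2 * ‖u + rot φ * z‖ ^ 2 :=
      mul_le_mul_of_nonneg_left h3 (by positivity)
    have h5 : Real.exp (-(π * N ^ 2 * ‖u + rot φ * z‖ ^ 2)) ≤
        Real.exp (-(π * N ^ 2 * (R / 4) ^ 2)) := by
      rw [Real.exp_le_exp]
      linarith
    exact mul_le_mul_of_nonneg_left h5 (sq_nonneg N)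
  have h1 : ∫ φ in (-π)..π, gau N (u + rot φ * z) ≤
      ∫ _φ in (-π)..π, N ^ 2 * Real.exp (-(π * N ^ 2 * (R / 4) ^ 2)) :=
    intervalIntegral.integral_mono_on (by linarith)
      (((continuous_gau N).comp (continuous_const.add
        (continuous_rot.mul continuous_const))).intervalIntegrable _ _)
      (continuous_const.intervalIntegrable _ _) fun φ _ => hb φ
  rw [intervalIntegral.integral_const, smul_eq_mul] at h1
  calc (2 * π)⁻¹ * ∫ φ in (-π)..π, gau N (u + rot φ * z)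
      ≤ (2 * π)⁻¹ * ((π - -π) * (N ^ 2 * Real.exp (-(π * N ^ 2 * (R / 4) ^ 2)))) :=
        mul_le_mul_of_nonneg_left h1 (by positivity)
    _ = _ := by
      field_simp
      ring

private theorem F1_exp {N R : ℝ} (hN : 1 ≤ N) (hR : 4 ≤ R) :
    9 * (R / 4) ^ 2 * (N ^ 2 * Real.exp (-(π * N ^ 2 * (R / 4) ^ 2))) ≤ 9 := by
  set y : ℝ := N ^ 2 * (R / 4) ^ 2 with hy
  have hy0 : 0 ≤ y := by positivity
  have h1 : Real.exp (-(π * N ^ 2 * (R / 4) ^ 2)) ≤ Real.exp (-y) := by
    rw [Real.exp_le_exp]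
    have := Real.pi_gt_three
    have e : π * N ^ 2 * (R / 4) ^ 2 = π * y := by
      rw [hy]
      ring
    rw [e]
    nlinarith
  have h2 : y * Real.exp (-y) ≤ 1 := by
    have h3 := Real.add_one_le_exp y
    rw [Real.exp_neg, ← div_eq_mul_inv, div_le_one (Real.exp_pos y)]
    linarith
  calc 9 * (R / 4) ^ 2 * (N ^ 2 * Real.exp (-(π * N ^ 2 * (R / 4) ^ 2)))
      = 9 * (y * Real.exp (-(π * N ^ 2 * (R / 4) ^ 2))) := by
        rw [hy]
        ring
    _ ≤ 9 * (y * Real.exp (-y)) := by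
        have := mul_le_mul_of_nonneg_left h1 hy0
        linarith
    _ ≤ 9 := by linarith

private theorem F1_far {ε : ℝ} (hε : 0 < ε) : ∃ C : ℝ, 0 < C ∧ ∀ N X : ℝ, 1 ≤ N → 1 ≤ X →
    ∀ u : ℂ, ∀ S : Finset (ℤ × ℤ), ∑ q ∈ S, ker N X u q ≤ C * (max N X) ^ ε * (1 + N / X) := by
  obtain ⟨C, hC, h⟩ := ker_bound hε
  refine ⟨C, hC, fun N X hN hX u S => ?_⟩
  have hX0 : 0 < X := by linarith
  have hN0 : 0 < N := by linarith
  have hM0 : 0 < max N X := lt_of_lt_of_le hN0 (le_max_left _ _)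
  rcases le_or_gt X N with hXN | hXN
  · have h1 := h N X hN hX hXN u S
    refine h1.trans ?_
    rw [max_eq_left hXN, Real.rpow_add hN0, Real.rpow_one]
    have h2 : 0 ≤ C * N ^ ε := by positivity
    have e : C * (N * N ^ ε) / X = C * N ^ ε * (N / X) := by ring
    rw [e]
    exact mul_le_mul_of_nonneg_left (by linarith) h2
  · -- the semigroup
    have hB : 0 < 1 / N ^ 2 - 1 / X ^ 2 := by
      have : 1 / X ^ 2 < 1 / N ^ 2 := by
        apply one_div_lt_one_div_of_lt (by positivity)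
        nlinarith
      linarith
    set B : ℝ := 1 / √(1 / N ^ 2 - 1 / X ^ 2) with hBdef
    have hB0 : 0 < B := by
      rw [hBdef]
      exact one_div_pos.mpr (Real.sqrt_pos.mpr hB)
    have hrel : 1 / N ^ 2 = 1 / X ^ 2 + 1 / B ^ 2 := by
      have : 1 / B ^ 2 = 1 / N ^ 2 - 1 / X ^ 2 := by
        rw [hBdef, div_pow, one_pow, one_div_one_div, Real.sq_sqrt hB.le]
      rw [this]
      ring
    have hk : ∀ q : ℤ × ℤ, ker N X u q = ∫ y, ker X X (u - y) q * gau B y := by
      intro q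
      unfold ker
      split_ifs with hq
      · rw [cir_conv hX0 hB0 hN0 hrel]
      · simp
    have hint : ∀ q : ℤ × ℤ, Integrable fun y => ker X X (u - y) q * gau B y := by
      intro q
      unfold ker
      split_ifs with hq
      · have hb : ∀ y, ‖cir X (lat q) (u - y)‖ ≤ X ^ 2 := fun y => by
          rw [Real.norm_of_nonneg (cir_nonneg _ _ _)]
          exact cir_le_sq _ _ _
        exact (integrable_gau hB0).bdd_mul
          ((continuous_cir X (lat q)).comp (continuous_const.sub continuous_id)).aestronglyMeasurable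
          (Eventually.of_forall hb)
      · simp
    have h1 : ∑ q ∈ S, ker N X u q = ∫ y, (∑ q ∈ S, ker X X (u - y) q) * gau B y := by
      rw [Finset.sum_congr rfl fun q _ => hk q, ← integral_finsetSum S fun q _ => hint q]
      refine integral_congr_ae (Eventually.of_forall fun y => ?_)
      show ∑ q ∈ S, ker X X (u - y) q * gau B y = (∑ q ∈ S, ker X X (u - y) q) * gau B y
      rw [Finset.sum_mul]
    have h2 : ∫ y, (∑ q ∈ S, ker X X (u - y) q) * gau B y ≤
        ∫ y, (C * X ^ (1 + ε) / X) * gau B y := by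
      refine integral_mono ?_ ((integrable_gau hB0).const_mul _) fun y => ?_
      · have : (fun y => (∑ q ∈ S, ker X X (u - y) q) * gau B y) =
            fun y => ∑ q ∈ S, ker X X (u - y) q * gau B y := by
          funext y
          rw [Finset.sum_mul]
        rw [this]
        exact integrable_finsetSum S fun q _ => hint q
      · exact mul_le_mul_of_nonneg_right (h X X hX hX le_rfl (u - y) S) (gau_nonneg _ _)
    rw [integral_const_mul, integral_gau hB0, mul_one] at h2
    rw [h1]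
    refine h2.trans ?_
    rw [max_eq_right hXN.le, Real.rpow_add hX0, Real.rpow_one]
    have e : C * (X * X ^ ε) / X = C * X ^ ε := by
      field_simp
    rw [e]
    have h3 : 0 ≤ C * X ^ ε := by positivity
    have h4 : 0 ≤ N / X := by positivity
    nlinarith

/-- The sum of all circle means away from the origin. -/
theorem cir_sum_le {ε : ℝ} (hε : 0 < ε) : ∃ C : ℝ, 0 < C ∧ ∀ (N R : ℝ) (u : ℂ), 1 ≤ N → 4 ≤ R →
    R / 2 ≤ ‖u‖ → ∑' q : ℤ × ℤ, cir N (lat q) u ≤ C * (max N R) ^ ε * (1 + N / R) := by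
  obtain ⟨C, hC, h⟩ := F1_far hε
  refine ⟨4 * C + 9, by linarith, fun N R u hN hR hu => ?_⟩
  have hN0 : 0 < N := by linarith
  have hR0 : 0 < R := by linarith
  have hX : 1 ≤ R / 4 := by linarith
  refine (summable_cir hN0 u).tsum_le_of_sum_le fun S => ?_
  classical
  set g : ℝ := N ^ 2 * Real.exp (-(π * N ^ 2 * (R / 4) ^ 2)) with hg
  have hg0 : 0 ≤ g := by positivity
  have h1 : ∀ q ∈ S, cir N (lat q) u ≤ ker N (R / 4) u q + if ‖lat q‖ ≤ R / 4 then g else 0 := by
    intro q _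
    unfold ker
    rcases le_or_gt ‖lat q‖ (R / 4) with hq | hq
    · rw [if_neg (not_lt.mpr hq), if_pos hq, zero_add]
      exact F1_near hN hR hu hq
    · rw [if_pos hq, if_neg (not_le.mpr hq), add_zero]
  have h2 : ∑ q ∈ S, (if ‖lat q‖ ≤ R / 4 then g else 0) ≤ 9 := by
    rw [← Finset.sum_filter, Finset.sum_const, nsmul_eq_mul]
    have h3 : S.filter (fun q => ‖lat q‖ ≤ R / 4) ⊆ insert 0 (near (R / 4)) := by
      intro q hq
      rw [Finset.mem_filter] at hq
      rw [Finset.mem_insert, mem_near]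
      by_cases h0 : q = 0
      · exact Or.inl h0
      · exact Or.inr ⟨h0, hq.2⟩
    have h4 : ((S.filter (fun q => ‖lat q‖ ≤ R / 4)).card : ℝ) ≤ 9 * (R / 4) ^ 2 := by
      have h5 := (Finset.card_le_card h3).trans (Finset.card_insert_le _ _)
      have h6 := F1_card hX
      have h7 : ((S.filter (fun q => ‖lat q‖ ≤ R / 4)).card : ℝ) ≤ (near (R / 4)).card + 1 := by
        exact_mod_cast h5
      nlinarith
    calc ((S.filter (fun q => ‖lat q‖ ≤ R / 4)).card : ℝ) * g ≤ 9 * (R / 4) ^ 2 * g :=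
          mul_le_mul_of_nonneg_right h4 hg0
      _ ≤ 9 := F1_exp hN hR
  have h3 := h N (R / 4) hN hX u S
  have h4 : (1 : ℝ) ≤ (max N R) ^ ε :=
    Real.one_le_rpow (hN.trans (le_max_left _ _)) hε.le
  have h5 : (max N (R / 4)) ^ ε ≤ (max N R) ^ ε := by
    refine Real.rpow_le_rpow (le_trans hN0.le (le_max_left _ _)) ?_ hε.le
    exact max_le_max le_rfl (by linarith)
  have h6 : 0 ≤ N / R := by positivity
  have h7 : 1 + N / (R / 4) ≤ 4 * (1 + N / R) := by
    have : N / (R / 4) = 4 * (N / R) := by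
      field_simp
    rw [this]
    linarith
  calc ∑ q ∈ S, cir N (lat q) u ≤
        ∑ q ∈ S, (ker N (R / 4) u q + if ‖lat q‖ ≤ R / 4 then g else 0) := Finset.sum_le_sum h1
    _ = ∑ q ∈ S, ker N (R / 4) u q + ∑ q ∈ S, (if ‖lat q‖ ≤ R / 4 then g else 0) :=
        Finset.sum_add_distrib
    _ ≤ C * (max N (R / 4)) ^ ε * (1 + N / (R / 4)) + 9 := add_le_add h3 h2
    _ ≤ C * (max N R) ^ ε * (4 * (1 + N / R)) + 9 := by
        have h8 : 0 ≤ 1 + N / (R / 4) := by positivity
        have h9 : C * (max N (R / 4)) ^ ε ≤ C * (max N R) ^ ε :=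
          mul_le_mul_of_nonneg_left h5 hC.le
        have h10 : 0 ≤ C * (max N R) ^ ε := by positivity
        have := mul_le_mul h9 h7 h8 h10
        linarith
    _ ≤ (4 * C + 9) * (max N R) ^ ε * (1 + N / R) := by
        have h8 : (1 : ℝ) ≤ (max N R) ^ ε * (1 + N / R) := by nlinarith
        nlinarith

end Pool.MPb9430d.Frac
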