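import Pool.Agent.Lib.MP_b9430d_co.Frac.KerB
import Pool.Agent.Lib.MP_b9430d_co.Frac.PsiL

/-!
# FarB: the far lattice points

Let `A = 2√2 N`, `C₀` the constant of `ker_bound` for `ε`. For `q ∈ S` (`‖lat q‖ > X`): by `qf_factor`
`|qf (cir (2N) (lat q)) F - qf (cir N (lat q)) F| ≤ ∫_x ∫_y |F x| ker A X (x - y) q |sm N F y|`, `F = inc E h`. Sum over
`q ∈ S` and exchange with the integrals (finite sum; all functions are integrable: bounded continuous kernel times
integrable functions): `≤ ∫_x |F x| ∫_y |sm N F y| ∑_{q∈S} ker A X (x-y) q ≤ C₀ A^{1+ε}/X · ∫|F| · ∫|sm N F|`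
`≤ C₀ (2√2)^{1+ε} N^{1+ε}/X · D E h · 8 K N^{-a}` (`inc_facts`, `sm_l1`; `1 ≤ X ≤ N ≤ A`).
-/

set_option autoImplicit false

open MeasureTheory Complex Set Real Filter Topology
open scoped ENNReal

namespace Pool.MPb9430d.Frac

open Pool.MPb9430d Pool.MPb9430d.Rough

private theorem FarB_cont {A : ℝ} (z : ℂ) {s : ℂ → ℝ} (hs : Integrable s) :
    Continuous fun x : ℂ => ∫ y, cir A z (x - y) * |s y| := by
  refine continuous_of_dominated (bound := fun y => A ^ 2 * |s y|) ?_ ?_ ?_ ?_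
  · intro x
    exact ((continuous_cir A z).comp (continuous_const.sub continuous_id)).aestronglyMeasurable.mul
      hs.abs.aestronglyMeasurable
  · intro x
    refine Eventually.of_forall fun y => ?_
    rw [Real.norm_eq_abs, abs_mul, abs_abs, abs_of_nonneg (cir_nonneg _ _ _)]
    exact mul_le_mul_of_nonneg_right (cir_le_sq _ _ _) (abs_nonneg _)
  · exact hs.abs.const_mul _
  · refine Eventually.of_forall fun y => ?_
    exact ((continuous_cir A z).comp (continuous_id.sub continuous_const)).mul continuous_const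

private theorem FarB_int {A : ℝ} (z : ℂ) {s : ℂ → ℝ} (hs : Integrable s) (x : ℂ) :
    Integrable fun y : ℂ => cir A z (x - y) * |s y| := by
  refine (hs.abs.const_mul (A ^ 2)).mono' ?_ ?_
  · exact ((continuous_cir A z).comp (continuous_const.sub continuous_id)).aestronglyMeasurable.mul
      hs.abs.aestronglyMeasurable
  · refine Eventually.of_forall fun y => ?_
    rw [Real.norm_eq_abs, abs_mul, abs_abs, abs_of_nonneg (cir_nonneg _ _ _)]
    exact mul_le_mul_of_nonneg_right (cir_le_sq _ _ _) (abs_nonneg _)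

private theorem FarB_int2 {A : ℝ} (z : ℂ) {s F : ℂ → ℝ} (hs : Integrable s) (hF : Integrable F) :
    Integrable fun x : ℂ => |F x| * ∫ y, cir A z (x - y) * |s y| := by
  have h0 : 0 ≤ ∫ y, |s y| := integral_nonneg fun y => abs_nonneg _
  refine (hF.abs.mul_const (A ^ 2 * ∫ y, |s y|)).mono' ?_ ?_
  · exact hF.abs.aestronglyMeasurable.mul (FarB_cont z hs).aestronglyMeasurable
  · refine Eventually.of_forall fun x => ?_
    rw [Real.norm_eq_abs, abs_mul, abs_abs]
    refine mul_le_mul_of_nonneg_left ?_ (abs_nonneg _)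
    rw [abs_of_nonneg (integral_nonneg fun y => mul_nonneg (cir_nonneg _ _ _) (abs_nonneg _)),
      ← integral_const_mul]
    refine integral_mono (FarB_int z hs x) (hs.abs.const_mul _) fun y => ?_
    exact mul_le_mul_of_nonneg_right (cir_le_sq _ _ _) (abs_nonneg _)

private theorem FarB_one {A : ℝ} (z : ℂ) {s F : ℂ → ℝ} (hs : Integrable s) (hF : Integrable F) :
    |∫ x, ∫ y, F x * (cir A z (x - y) * s y)| ≤ ∫ x, |F x| * ∫ y, cir A z (x - y) * |s y| := by
  have h1 : ∀ x, |∫ y, F x * (cir A z (x - y) * s y)| ≤ |F x| * ∫ y, cir A z (x - y) * |s y| := by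
    intro x
    rw [integral_const_mul, abs_mul]
    refine mul_le_mul_of_nonneg_left ?_ (abs_nonneg _)
    have h2 := norm_integral_le_integral_norm (μ := volume) (fun y => cir A z (x - y) * s y)
    rw [Real.norm_eq_abs] at h2
    refine h2.trans (le_of_eq ?_)
    refine integral_congr_ae (Eventually.of_forall fun y => ?_)
    show ‖cir A z (x - y) * s y‖ = cir A z (x - y) * |s y|
    rw [Real.norm_eq_abs, abs_mul, abs_of_nonneg (cir_nonneg _ _ _)]
  have h3 := norm_integral_le_of_norm_le (FarB_int2 z hs hF) (f := fun x => ∫ y, F x * (cir A z (x - y) * s y))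
    (Eventually.of_forall fun x => by rw [Real.norm_eq_abs]; exact h1 x)
  rw [Real.norm_eq_abs] at h3
  exact h3

theorem far_bound {ε : ℝ} (hε : 0 < ε) : ∃ C : ℝ, 0 < C ∧ ∀ E : Set ℂ, MeasurableSet E →
    volume E ≠ ∞ → ∀ K a : ℝ, 0 ≤ K → 0 ≤ a → a ≤ 2 → Reg E K a → ∀ N X : ℝ, 1 ≤ N → 1 ≤ X → X ≤ N →
    ∀ h : ℂ, ∀ S : Finset (ℤ × ℤ), (∀ q ∈ S, X < ‖lat q‖) →
      ∑ q ∈ S, |qf (cir (2 * N) (lat q)) (inc E h) - qf (cir N (lat q)) (inc E h)| ≤
        C * K * N ^ (1 + ε - a) / X * D E h := by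
  obtain ⟨C₀, hC₀, hker⟩ := ker_bound hε
  refine ⟨8 * C₀ * (2 * √2) ^ (1 + ε), by positivity, ?_⟩
  intro E hE hfin K a hK ha ha2 hR N X hN hX hXN h S hS
  have hN0 : 0 < N := by linarith
  have hX0 : 0 < X := by linarith
  have hs2 : (1 : ℝ) ≤ √2 := by
    rw [show (1 : ℝ) = √1 from Real.sqrt_one.symm]
    exact Real.sqrt_le_sqrt (by norm_num)
  obtain ⟨A, hA⟩ : ∃ A : ℝ, A = 2 * √2 * N := ⟨_, rfl⟩
  have hNA : N ≤ A := by
    rw [hA]
    nlinarith
  have hA1 : 1 ≤ A := hN.trans hNA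
  obtain ⟨-, hFi, -, hF1, -⟩ := inc_facts hE hfin h
  have hsi : Integrable (sm N (inc E h)) := integrable_sm hN0 hFi
  have hsl := sm_l1 hE hfin hK ha ha2 hR hN h
  have hD : 0 ≤ D E h := D_nonneg E h
  -- every term
  have h1 : ∀ q ∈ S, |qf (cir (2 * N) (lat q)) (inc E h) - qf (cir N (lat q)) (inc E h)| ≤
      ∫ x, |inc E h x| * ∫ y, cir A (lat q) (x - y) * |sm N (inc E h) y| := by
    intro q _
    rw [qf_factor hN0 hFi, ← hA]
    exact FarB_one _ hsi hFi
  refine (Finset.sum_le_sum h1).trans ?_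
  rw [← integral_finset_sum S fun q _ => FarB_int2 (lat q) hsi hFi]
  have h2 : ∀ x, ∑ q ∈ S, |inc E h x| * ∫ y, cir A (lat q) (x - y) * |sm N (inc E h) y| ≤
      |inc E h x| * (C₀ * A ^ (1 + ε) / X * ∫ y, |sm N (inc E h) y|) := by
    intro x
    rw [← Finset.mul_sum]
    refine mul_le_mul_of_nonneg_left ?_ (abs_nonneg _)
    rw [← integral_finset_sum S fun q _ => FarB_int (lat q) hsi x, ← integral_const_mul]
    refine integral_mono (integrable_finset_sum S fun q _ => FarB_int (lat q) hsi x)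
      (hsi.abs.const_mul _) fun y => ?_
    show ∑ q ∈ S, cir A (lat q) (x - y) * |sm N (inc E h) y| ≤ C₀ * A ^ (1 + ε) / X * |sm N (inc E h) y|
    rw [← Finset.sum_mul]
    refine mul_le_mul_of_nonneg_right ?_ (abs_nonneg _)
    have h3 := hker A X hA1 hX (hXN.trans hNA) (x - y) S
    refine le_trans (le_of_eq ?_) h3
    refine Finset.sum_congr rfl fun q hq => ?_
    unfold ker
    rw [if_pos (hS q hq)]
  have h4 : ∫ x, ∑ q ∈ S, |inc E h x| * ∫ y, cir A (lat q) (x - y) * |sm N (inc E h) y| ≤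
      ∫ x, |inc E h x| * (C₀ * A ^ (1 + ε) / X * ∫ y, |sm N (inc E h) y|) := by
    refine integral_mono (integrable_finset_sum S fun q _ => FarB_int2 (lat q) hsi hFi)
      (hFi.abs.mul_const _) h2
  refine h4.trans ?_
  rw [integral_mul_const, hF1]
  have h5 : A ^ (1 + ε) = (2 * √2) ^ (1 + ε) * N ^ (1 + ε) := by
    rw [hA, Real.mul_rpow (by positivity) hN0.le]
  have h6 : N ^ (1 + ε - a) = N ^ (1 + ε) * N ^ (-a) := by
    rw [← Real.rpow_add hN0]
    congr 1
  have h7 : C₀ * A ^ (1 + ε) / X * ∫ y, |sm N (inc E h) y| ≤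
      C₀ * A ^ (1 + ε) / X * (8 * K * N ^ (-a)) :=
    mul_le_mul_of_nonneg_left hsl (by positivity)
  calc D E h * (C₀ * A ^ (1 + ε) / X * ∫ y, |sm N (inc E h) y|)
      ≤ D E h * (C₀ * A ^ (1 + ε) / X * (8 * K * N ^ (-a))) := mul_le_mul_of_nonneg_left h7 hD
    _ = 8 * C₀ * (2 * √2) ^ (1 + ε) * K * N ^ (1 + ε - a) / X * D E h := by
      rw [h5, h6]
      ring

end Pool.MPb9430d.Frac
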