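import Pool.Agent.Lib.MP_b9430d_co.Frac.DccR
import Pool.Agent.Lib.MP_b9430d_co.Frac.CirB
import Pool.Agent.Lib.MP_b9430d_co.Frac.CirA
import Pool.Agent.Lib.MP_b9430d_co.Frac.GauF

/-!
# GamB: size and mean value of `gam`

`gam N p s = cir (2N) s p - cir N s p`, both terms nonnegative (`cir_nonneg`).
`abs_gam_le`: `cir_le`: `cir (2N) ≤ 4N² exp(-4πN²(‖p‖-s)²) ≤ 4N² exp(-πN²(..)²)`.
`abs_gam_mul_le`: `cir_le'`: `cir (2N) + cir N ≤ 3N/√(‖p‖ s) exp(-πN²(‖p‖-s)²)`, times `s`.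
`gam_mean`: `∫_ℂ gau M (p + ζ) dζ = 1` (`integral_gau`), polar coordinates
(`Complex.integral_comp_polarCoord_symm`): `= ∫_{r>0} ∫_{φ ∈ (-π,π)} r gau M (p + r rot φ) = 2π ∫_{r>0} r cir M r p`
(`rot φ * r = r * rot φ`; Fubini `integral_prod` needs integrability on the product, from
`integrable_gau` and the polar coordinate formula, or from `r gau M (p + r rot φ) ≤ r M² exp(-πM²(r-‖p‖)²)`). Subtract for
`M = 2N, N`. Integrability on `Ioi 0`: `|gam N p s * s| ≤ 5N² exp(-πN²(‖p‖-s)²) s`.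
-/

set_option autoImplicit false

open MeasureTheory Complex Set Real Filter Topology
open scoped ENNReal

namespace Pool.MPb9430d.Frac

open Pool.MPb9430d Pool.MPb9430d.Rough

private theorem GamB_polar {M : ℝ} (hM : 0 < M) (p : ℂ) :
    IntegrableOn (fun s : ℝ => cir M (s : ℂ) p * s) (Ioi 0) ∧
      ∫ s in Ioi (0 : ℝ), cir M (s : ℂ) p * s = (2 * π)⁻¹ := by
  set f : ℂ → ℝ := fun ζ => gau M (p + ζ) with hf
  have hfi : Integrable f := (integrable_gau hM).comp_add_left p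
  have hf1 : ∫ ζ, f ζ = 1 := by
    rw [hf, integral_add_left_eq_self (gau M) p]
    exact integral_gau hM
  have hfc : Continuous f := (continuous_gau M).comp (continuous_const.add continuous_id)
  set μ : Measure (ℝ × ℝ) :=
    (volume.restrict (Ioi (0 : ℝ))).prod (volume.restrict (Ioo (-π) π)) with hμ
  have htar : (polarCoord.target : Set (ℝ × ℝ)) = Ioi (0 : ℝ) ×ˢ Ioo (-π) π := rfl
  have hμ' : (volume : Measure (ℝ × ℝ)).restrict polarCoord.target = μ := by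
    rw [htar, Measure.volume_eq_prod, ← Measure.prod_restrict]
  have hsymm : ∀ q : ℝ × ℝ, Complex.polarCoord.symm q = (q.1 : ℂ) * rot q.2 := by
    intro q
    rw [Complex.polarCoord_symm_apply]
    unfold rot
    rw [Complex.exp_mul_I, Complex.ofReal_cos, Complex.ofReal_sin]
  set h : ℝ × ℝ → ℝ := fun q => q.1 * f ((q.1 : ℂ) * rot q.2) with hh
  have hrot : Continuous rot := by
    unfold rot
    fun_prop
  have hhc : Continuous h := by
    rw [hh]
    refine continuous_fst.mul (hfc.comp ?_)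
    exact (Complex.continuous_ofReal.comp continuous_fst).mul (hrot.comp continuous_snd)
  have hint : Integrable h μ := by
    refine ⟨hhc.aestronglyMeasurable, ?_⟩
    rw [hasFiniteIntegral_iff_enorm]
    have e : ∫⁻ q, ‖h q‖ₑ ∂μ = ∫⁻ ζ, ‖f ζ‖ₑ := by
      rw [← Complex.lintegral_comp_polarCoord_symm, ← hμ']
      refine setLIntegral_congr_fun polarCoord.open_target.measurableSet ?_
      intro q hq
      have hq1 : 0 < q.1 := by
        rw [htar] at hq
        exact hq.1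
      show ‖h q‖ₑ = ENNReal.ofReal q.1 • ‖f (Complex.polarCoord.symm q)‖ₑ
      rw [hsymm, hh, smul_eq_mul]
      show ‖q.1 * f ((q.1 : ℂ) * rot q.2)‖ₑ = _
      rw [enorm_mul, Real.enorm_of_nonneg hq1.le]
    rw [e]
    exact hfi.2
  have hval : ∫ q, h q ∂μ = 1 := by
    rw [← hf1, ← Complex.integral_comp_polarCoord_symm f, ← hμ']
    refine setIntegral_congr_fun polarCoord.open_target.measurableSet ?_
    intro q _
    show h q = q.1 • f (Complex.polarCoord.symm q)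
    rw [hsymm, hh, smul_eq_mul]
  have hin : ∀ r : ℝ, ∫ φ in Ioo (-π) π, h (r, φ) = 2 * π * (cir M (r : ℂ) p * r) := by
    intro r
    have hpi := Real.pi_pos
    have h1 : ∫ φ in Ioo (-π) π, h (r, φ) = r * ∫ φ in Ioo (-π) π, gau M (p + rot φ * r) := by
      rw [← integral_const_mul]
      refine integral_congr_ae (Eventually.of_forall fun φ => ?_)
      show r * gau M (p + (r : ℂ) * rot φ) = r * gau M (p + rot φ * r)
      rw [mul_comm (r : ℂ)]
    rw [h1]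
    unfold cir
    rw [intervalIntegral.integral_of_le (by linarith), integral_Ioc_eq_integral_Ioo]
    have h2 : (2 * π) * (2 * π)⁻¹ = 1 := mul_inv_cancel₀ (by positivity)
    generalize (∫ φ in Ioo (-π) π, gau M (p + rot φ * r)) = J
    calc r * J = (2 * π) * (2 * π)⁻¹ * (r * J) := by rw [h2, one_mul]
      _ = 2 * π * ((2 * π)⁻¹ * J * r) := by ring
  have hI : Integrable (fun r : ℝ => ∫ φ in Ioo (-π) π, h (r, φ)) (volume.restrict (Ioi 0)) :=
    hint.integral_prod_left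
  have hV : ∫ r in Ioi (0 : ℝ), ∫ φ in Ioo (-π) π, h (r, φ) = 1 := by
    rw [← hval, integral_prod h hint]
  simp only [hin] at hI hV
  have hpi : (2 * π) ≠ 0 := by positivity
  constructor
  · have h2 := hI.const_mul (2 * π)⁻¹
    refine h2.congr (Eventually.of_forall fun r => ?_)
    show (2 * π)⁻¹ * (2 * π * (cir M (r : ℂ) p * r)) = cir M (r : ℂ) p * r
    rw [← mul_assoc, inv_mul_cancel₀ hpi, one_mul]
  · rw [integral_const_mul] at hV
    rw [eq_inv_of_mul_eq_one_right hV]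

private theorem GamB_norm {s : ℝ} (hs : 0 ≤ s) : ‖(s : ℂ)‖ = s := by
  rw [Complex.norm_real, Real.norm_eq_abs, abs_of_nonneg hs]

theorem abs_gam_le {N : ℝ} (hN : 0 < N) (p : ℂ) {s : ℝ} (hs : 0 ≤ s) :
    |gam N p s| ≤ 5 * N ^ 2 * Real.exp (-(π * N ^ 2 * (‖p‖ - s) ^ 2)) := by
  have hpi := Real.pi_pos
  have h1 := cir_le (N := 2 * N) (by linarith) (s : ℂ) p
  have h2 := cir_le hN (s : ℂ) p
  have h3 := cir_nonneg (2 * N) (s : ℂ) p
  have h4 := cir_nonneg N (s : ℂ) p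
  rw [GamB_norm hs] at h1 h2
  set E : ℝ := Real.exp (-(π * N ^ 2 * (‖p‖ - s) ^ 2)) with hE
  have hE0 : 0 < E := Real.exp_pos _
  have h5 : Real.exp (-(π * (2 * N) ^ 2 * (‖p‖ - s) ^ 2)) ≤ E := by
    rw [hE, Real.exp_le_exp]
    have : 0 ≤ π * N ^ 2 * (‖p‖ - s) ^ 2 := by positivity
    nlinarith
  have h6 : (2 * N) ^ 2 * Real.exp (-(π * (2 * N) ^ 2 * (‖p‖ - s) ^ 2)) ≤ (2 * N) ^ 2 * E :=
    mul_le_mul_of_nonneg_left h5 (by positivity)
  have h7 : 0 ≤ N ^ 2 * E := by positivity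
  unfold gam
  rw [abs_le]
  constructor
  · nlinarith
  · nlinarith

theorem abs_gam_mul_le {N : ℝ} (hN : 0 < N) {p : ℂ} (hp : p ≠ 0) {s : ℝ} (hs : 0 < s) :
    |gam N p s| * s ≤ 3 * N * √(s / ‖p‖) := by
  have hs' : (s : ℂ) ≠ 0 := by exact_mod_cast hs.ne'
  have hp0 : 0 < ‖p‖ := norm_pos_iff.2 hp
  have h1 := cir_le' (N := 2 * N) (by linarith) hs' hp
  have h2 := cir_le' hN hs' hp
  have h3 := cir_nonneg (2 * N) (s : ℂ) p
  have h4 := cir_nonneg N (s : ℂ) p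
  rw [GamB_norm hs.le] at h1 h2
  have hq : 0 < √(‖p‖ * s) := Real.sqrt_pos.2 (mul_pos hp0 hs)
  have e1 : Real.exp (-(π * (2 * N) ^ 2 * (‖p‖ - s) ^ 2)) ≤ 1 := by
    rw [Real.exp_le_one_iff]
    have : 0 ≤ π * (2 * N) ^ 2 * (‖p‖ - s) ^ 2 := by positivity
    linarith
  have e2 : Real.exp (-(π * N ^ 2 * (‖p‖ - s) ^ 2)) ≤ 1 := by
    rw [Real.exp_le_one_iff]
    have : 0 ≤ π * N ^ 2 * (‖p‖ - s) ^ 2 := by positivity
    linarith
  have h5 : cir (2 * N) (s : ℂ) p ≤ 2 * N / √(‖p‖ * s) :=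
    h1.trans (mul_le_of_le_one_right (by positivity) e1)
  have h6 : cir N (s : ℂ) p ≤ N / √(‖p‖ * s) :=
    h2.trans (mul_le_of_le_one_right (by positivity) e2)
  have h7 : |gam N p s| ≤ 3 * N / √(‖p‖ * s) := by
    unfold gam
    have e3 : 3 * N / √(‖p‖ * s) = 2 * N / √(‖p‖ * s) + N / √(‖p‖ * s) := by ring
    rw [abs_le, e3]
    have h8 : 0 ≤ N / √(‖p‖ * s) := by positivity
    have h9 : 0 ≤ 2 * N / √(‖p‖ * s) := by positivity
    constructor <;> linarith
  have h8 : 3 * N / √(‖p‖ * s) * s = 3 * N * √(s / ‖p‖) := by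
    rw [Real.sqrt_mul hp0.le, Real.sqrt_div hs.le]
    have hs1 : s = √s * √s := (Real.mul_self_sqrt hs.le).symm
    have hs2 : √s ≠ 0 := (Real.sqrt_pos.2 hs).ne'
    have hs3 : √‖p‖ ≠ 0 := (Real.sqrt_pos.2 hp0).ne'
    calc 3 * N / (√‖p‖ * √s) * s = 3 * N / (√‖p‖ * √s) * (√s * √s) := by rw [← hs1]
      _ = 3 * N * (√s / √‖p‖) := by field_simp
  rw [← h8]
  exact mul_le_mul_of_nonneg_right h7 hs.le

theorem gam_mean {N : ℝ} (hN : 0 < N) (p : ℂ) :
    IntegrableOn (fun s => gam N p s * s) (Ioi 0) ∧ ∫ s in Ioi (0 : ℝ), gam N p s * s = 0 := by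
  obtain ⟨a1, a2⟩ := GamB_polar (M := 2 * N) (by linarith) p
  obtain ⟨b1, b2⟩ := GamB_polar hN p
  have e : (fun s : ℝ => gam N p s * s) =
      fun s : ℝ => cir (2 * N) (s : ℂ) p * s - cir N (s : ℂ) p * s := by
    funext s
    unfold gam
    ring
  rw [e]
  refine ⟨a1.sub b1, ?_⟩
  rw [integral_sub a1 b1, a2, b2, sub_self]

end Pool.MPb9430d.Frac
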