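import Pool.Agent.Lib.MP_b9430d_co.Frac.Defs

/-!
# GauM: moments and Lipschitz bound of the Gaussian

`gau_moment`: substitute `s = N t` (`MeasureTheory.Measure.integral_comp_smul` or
`integral_comp_mul_left`-type lemma on `ℂ`; real dimension 2): `∫ gau N (t) ‖t‖^a dt = N^(-a) ∫ gau 1 (s) ‖s‖^a ds`,
and `‖s‖^a ≤ 1 + ‖s‖²` for `0 ≤ a ≤ 2`, `∫ gau 1 = 1`, `∫ gau 1 (s) ‖s‖² ds = 1/π ≤ 1`.
(Alternative for the last integral without polar coordinates: `‖s‖² exp(-π‖s‖²) ≤ exp(-π‖s‖²/2)·(2/(π e))`, whose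
integral is `2 · 2/(π e) < 1`; use `u e^{-u} ≤ 1/e`, `integral_rexp_neg_mul_sq_norm`.)
You may avoid the scaling: `‖t‖^a = N^(-a) (N‖t‖)^a ≤ N^(-a) (1 + N²‖t‖²)` and
`N² ‖t‖² exp(-π N²‖t‖²) ≤ (2/(π e)) exp(-π N² ‖t‖²/2)`.
`gau_lip`: with `u = N x`, `v = N y` (real norms `s = ‖u‖, t = ‖v‖`), `|exp(-π s²) - exp(-π t²)| ≤ 2π·|s - t| · sup s e^{-π s²}
≤ 8 |s - t|` (mean value theorem: the derivative of `exp(-π s²)` is `-2π s exp(-π s²)`, of absolute value `≤ 2π`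
because `s e^{-π s²} ≤ 1`), and `|‖x‖ - ‖y‖| ≤ ‖x - y‖`.
-/

set_option autoImplicit false

open MeasureTheory Complex Set Real Filter Topology
open scoped ENNReal

namespace Pool.MPb9430d.Frac

open Pool.MPb9430d Pool.MPb9430d.Rough

private theorem GauM_int {b : ℝ} (hb : 0 < b) : Integrable (fun x : ℂ => Real.exp (-(b * ‖x‖ ^ 2))) := by
  have h := (GaussianFourier.integrable_cexp_neg_mul_sq_norm_add (V := ℂ) (b := (b : ℂ))
    (by simpa using hb) 0 0).norm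
  refine h.congr (Eventually.of_forall fun x => ?_)
  simp only [zero_mul, add_zero]
  rw [Complex.norm_exp]
  congr 1
  have e : (-(b : ℂ) * (‖x‖ : ℂ) ^ 2) = ((-(b * ‖x‖ ^ 2) : ℝ) : ℂ) := by
    push_cast
    ring
  rw [e, Complex.ofReal_re]

private theorem GauM_val {b : ℝ} (hb : 0 < b) : ∫ x : ℂ, Real.exp (-(b * ‖x‖ ^ 2)) = π / b := by
  have h := GaussianFourier.integral_rexp_neg_mul_sq_norm (V := ℂ) (b := b) hb
  rw [Complex.finrank_real_complex] at h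
  have e2 : ((2 : ℕ) : ℝ) / 2 = 1 := by norm_num
  rw [e2, Real.rpow_one] at h
  rw [← h]
  refine integral_congr_ae (Eventually.of_forall fun x => ?_)
  simp only
  rw [neg_mul]

/-- `u e^(-π u) ≤ (1/4) ... ` in the form needed. -/
private theorem GauM_u {u : ℝ} (hu : 0 ≤ u) : u * Real.exp (-(π * u)) ≤ 1 / 2 * Real.exp (-(π * u / 2)) := by
  have h1 : Real.exp (-(π * u)) = Real.exp (-(π * u / 2)) * Real.exp (-(π * u / 2)) := by
    rw [← Real.exp_add]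
    congr 1
    ring
  have h2 : u * Real.exp (-(π * u / 2)) ≤ 1 / 2 := by
    have h3 : π * u / 2 + 1 ≤ Real.exp (π * u / 2) := Real.add_one_le_exp _
    have h4 : (π * u / 2 / 2 + 1) ≤ Real.exp (π * u / 2 / 2) := Real.add_one_le_exp _
    have h5 : Real.exp (π * u / 2) = Real.exp (π * u / 2 / 2) * Real.exp (π * u / 2 / 2) := by
      rw [← Real.exp_add]
      congr 1
      ring
    have hp := Real.pi_gt_three
    have h6 : 2 * u ≤ Real.exp (π * u / 2) := by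
      rw [h5]
      have h7 : 3 * u / 4 + 1 ≤ Real.exp (π * u / 2 / 2) := by
        refine le_trans ?_ h4
        nlinarith
      have h8 : (3 * u / 4 + 1) * (3 * u / 4 + 1) ≤
          Real.exp (π * u / 2 / 2) * Real.exp (π * u / 2 / 2) :=
        mul_le_mul h7 h7 (by positivity) (Real.exp_pos _).le
      nlinarith [sq_nonneg (3 * u / 4 - 1)]
    rw [Real.exp_neg, ← div_eq_mul_inv, div_le_iff₀ (Real.exp_pos _)]
    linarith
  rw [h1, ← mul_assoc]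
  exact mul_le_mul_of_nonneg_right h2 (Real.exp_pos _).le

private theorem GauM_pt {N a : ℝ} (hN : 0 < N) (ha : 0 ≤ a) (ha2 : a ≤ 2) (t : ℂ) :
    gau N t * ‖t‖ ^ a ≤ N ^ (-a) * (N ^ 2 * Real.exp (-(π * N ^ 2 * ‖t‖ ^ 2)) +
      N ^ 2 / 2 * Real.exp (-(π * N ^ 2 / 2 * ‖t‖ ^ 2))) := by
  have hr : 0 ≤ N * ‖t‖ := by positivity
  have h1 : ‖t‖ ^ a = N ^ (-a) * (N * ‖t‖) ^ a := by
    rw [Real.mul_rpow hN.le (norm_nonneg t), ← mul_assoc, ← Real.rpow_add hN, neg_add_cancel,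
      Real.rpow_zero, one_mul]
  have h2 : (N * ‖t‖) ^ a ≤ 1 + (N * ‖t‖) ^ 2 := by
    rcases le_total (N * ‖t‖) 1 with h | h
    · have := Real.rpow_le_one hr h ha
      nlinarith [sq_nonneg (N * ‖t‖)]
    · have h3 : (N * ‖t‖) ^ a ≤ (N * ‖t‖) ^ (2 : ℝ) := Real.rpow_le_rpow_of_exponent_le h ha2
      rw [Real.rpow_two] at h3
      linarith
  have h3 := GauM_u (u := (N * ‖t‖) ^ 2) (by positivity)
  have hNa : 0 ≤ N ^ (-a) := Real.rpow_nonneg hN.le _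
  rw [h1]
  unfold gau
  have e1 : π * (N * ‖t‖) ^ 2 = π * N ^ 2 * ‖t‖ ^ 2 := by ring
  have e2 : π * (N * ‖t‖) ^ 2 / 2 = π * N ^ 2 / 2 * ‖t‖ ^ 2 := by ring
  rw [e1] at h3
  have e3 : π * N ^ 2 * ‖t‖ ^ 2 / 2 = π * N ^ 2 / 2 * ‖t‖ ^ 2 := by ring
  rw [e3] at h3
  set A := Real.exp (-(π * N ^ 2 * ‖t‖ ^ 2)) with hA
  set B := Real.exp (-(π * N ^ 2 / 2 * ‖t‖ ^ 2)) with hB
  have hA0 : 0 < A := Real.exp_pos _
  have h4 : N ^ 2 * A * (N ^ (-a) * (N * ‖t‖) ^ a) ≤ N ^ 2 * A * (N ^ (-a) * (1 + (N * ‖t‖) ^ 2)) :=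
    mul_le_mul_of_nonneg_left (mul_le_mul_of_nonneg_left h2 hNa) (by positivity)
  refine h4.trans ?_
  have h5 : N ^ 2 * A * (N ^ (-a) * (1 + (N * ‖t‖) ^ 2)) =
      N ^ (-a) * (N ^ 2 * A + N ^ 2 * ((N * ‖t‖) ^ 2 * A)) := by ring
  rw [h5]
  refine mul_le_mul_of_nonneg_left ?_ hNa
  have h6 : N ^ 2 * ((N * ‖t‖) ^ 2 * A) ≤ N ^ 2 * (1 / 2 * B) :=
    mul_le_mul_of_nonneg_left h3 (by positivity)
  linarith

theorem gau_moment {N a : ℝ} (hN : 0 < N) (ha : 0 ≤ a) (ha2 : a ≤ 2) :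
    Integrable (fun t : ℂ => gau N t * ‖t‖ ^ a) ∧ ∫ t, gau N t * ‖t‖ ^ a ≤ 2 * N ^ (-a) := by
  have i1 := (GauM_int (b := π * N ^ 2) (by positivity)).const_mul (N ^ 2)
  have i2 := (GauM_int (b := π * N ^ 2 / 2) (by positivity)).const_mul (N ^ 2 / 2)
  have i3 := (i1.add i2).const_mul (N ^ (-a))
  have hI : Integrable (fun t : ℂ => gau N t * ‖t‖ ^ a) := by
    refine i3.mono' ?_ (Eventually.of_forall fun t => ?_)
    · exact ((continuous_gau N).mul (continuous_norm.rpow_const fun x => Or.inr ha)).aestronglyMeasurable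
    · rw [Real.norm_of_nonneg (mul_nonneg (gau_nonneg N t) (Real.rpow_nonneg (norm_nonneg t) a))]
      exact GauM_pt hN ha ha2 t
  refine ⟨hI, ?_⟩
  have h1 : ∫ t, gau N t * ‖t‖ ^ a ≤ ∫ t : ℂ, N ^ (-a) * (N ^ 2 * Real.exp (-(π * N ^ 2 * ‖t‖ ^ 2)) +
      N ^ 2 / 2 * Real.exp (-(π * N ^ 2 / 2 * ‖t‖ ^ 2))) :=
    integral_mono hI i3 fun t => GauM_pt hN ha ha2 t
  refine h1.trans (le_of_eq ?_)
  rw [integral_const_mul, integral_add i1 i2, integral_const_mul, integral_const_mul,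
    GauM_val (by positivity), GauM_val (by positivity)]
  have hN2 : N ^ 2 ≠ 0 := by positivity
  have hp : π ≠ 0 := Real.pi_ne_zero
  have e1 : N ^ 2 * (π / (π * N ^ 2)) = 1 := by field_simp
  have e2 : N ^ 2 / 2 * (π / (π * N ^ 2 / 2)) = 1 := by field_simp
  rw [e1, e2]
  ring

private theorem GauM_s {s : ℝ} (hs : 0 ≤ s) : s * Real.exp (-(π * s ^ 2)) ≤ 1 := by
  rw [Real.exp_neg, ← div_eq_mul_inv, div_le_one (Real.exp_pos _)]
  have h3 : π * s ^ 2 + 1 ≤ Real.exp (π * s ^ 2) := Real.add_one_le_exp _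
  have hp := Real.pi_gt_three
  nlinarith [sq_nonneg (s - 1), sq_nonneg s]

private theorem GauM_mv {s t : ℝ} (hs : 0 ≤ s) (hst : s ≤ t) :
    |Real.exp (-(π * s ^ 2)) - Real.exp (-(π * t ^ 2))| ≤ 8 * (t - s) := by
  have hd : ∀ u : ℝ, HasDerivAt (fun u : ℝ => Real.exp (-(π * u ^ 2)))
      (Real.exp (-(π * u ^ 2)) * (-(π * (2 * u)))) u := by
    intro u
    have h1 : HasDerivAt (fun u : ℝ => -(π * u ^ 2)) (-(π * (2 * u))) u := by
      have h0 := ((hasDerivAt_pow 2 u).const_mul π).neg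
      have e : -(π * ((2 : ℕ) * u ^ (2 - 1))) = -(π * (2 * u)) := by norm_num
      rw [e] at h0
      exact h0
    exact h1.exp
  have hb : ∀ u ∈ Set.Icc s t, ‖Real.exp (-(π * u ^ 2)) * (-(π * (2 * u)))‖ ≤ 8 := by
    intro u hu
    have hu0 : 0 ≤ u := hs.trans hu.1
    have h1 := GauM_s hu0
    have h2 : Real.exp (-(π * u ^ 2)) * (-(π * (2 * u))) = -(2 * π * (u * Real.exp (-(π * u ^ 2)))) := by
      ring
    rw [h2, norm_neg, Real.norm_of_nonneg (by positivity)]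
    have hp := Real.pi_lt_four
    have h3 : 0 ≤ u * Real.exp (-(π * u ^ 2)) := by positivity
    have h4 : 2 * π * (u * Real.exp (-(π * u ^ 2))) ≤ 2 * π * 1 :=
      mul_le_mul_of_nonneg_left h1 (by positivity)
    linarith
  have h := Convex.norm_image_sub_le_of_norm_hasDerivWithin_le (f := fun u : ℝ => Real.exp (-(π * u ^ 2)))
    (f' := fun u => Real.exp (-(π * u ^ 2)) * (-(π * (2 * u)))) (s := Set.Icc s t) (C := 8)
    (fun u _ => (hd u).hasDerivWithinAt) hb (convex_Icc s t) (x := t) (y := s)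
    (Set.right_mem_Icc.2 hst) (Set.left_mem_Icc.2 hst)
  rw [Real.norm_eq_abs, Real.norm_eq_abs, abs_sub_comm s t, abs_of_nonneg (by linarith : 0 ≤ t - s)] at h
  exact h

private theorem GauM_mv' {s t : ℝ} (hs : 0 ≤ s) (ht : 0 ≤ t) :
    |Real.exp (-(π * s ^ 2)) - Real.exp (-(π * t ^ 2))| ≤ 8 * |s - t| := by
  rcases le_total s t with h | h
  · rw [abs_sub_comm s t, abs_of_nonneg (by linarith : 0 ≤ t - s)]
    exact GauM_mv hs h
  · rw [abs_of_nonneg (by linarith : 0 ≤ s - t), abs_sub_comm]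
    exact GauM_mv ht h

theorem gau_lip {N : ℝ} (hN : 0 < N) (x y : ℂ) : |gau N x - gau N y| ≤ 8 * N ^ 3 * ‖x - y‖ := by
  have h := GauM_mv' (s := N * ‖x‖) (t := N * ‖y‖) (by positivity) (by positivity)
  have e1 : gau N x - gau N y = N ^ 2 * (Real.exp (-(π * (N * ‖x‖) ^ 2)) -
      Real.exp (-(π * (N * ‖y‖) ^ 2))) := by
    unfold gau
    rw [mul_sub]
    congr 3
    · congr 1
      ring
    · ring
  rw [e1, abs_mul, abs_of_nonneg (by positivity : 0 ≤ N ^ 2)]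
  have h2 : |N * ‖x‖ - N * ‖y‖| ≤ N * ‖x - y‖ := by
    rw [← mul_sub, abs_mul, abs_of_pos hN]
    exact mul_le_mul_of_nonneg_left (abs_norm_sub_norm_le x y) hN.le
  calc N ^ 2 * |Real.exp (-(π * (N * ‖x‖) ^ 2)) - Real.exp (-(π * (N * ‖y‖) ^ 2))|
      ≤ N ^ 2 * (8 * (N * ‖x - y‖)) := by
        refine mul_le_mul_of_nonneg_left (h.trans ?_) (by positivity)
        linarith
    _ = 8 * N ^ 3 * ‖x - y‖ := by ring

end Pool.MPb9430d.Frac
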