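import Pool.Agent.Lib.MP_b9430d_co.Frac.Poi
import Pool.Agent.Lib.MP_b9430d_co.Frac.BesA
import Pool.Agent.Lib.MP_b9430d_co.Frac.BesB
import Pool.Agent.Lib.MP_b9430d_co.Frac.CirA
import Pool.Agent.Lib.MP_b9430d_co.Frac.IntS

/-!
# KerF: the kernel far away, `‖p‖ ≥ N⁴`

`gau N (p + rot φ * z) = gau N (rot (-φ) * p + z)`. So for a finite set `S`:
`∑_{q∈S} cir N (lat q) p = (1/2π) ∫_φ ∑_{q ∈ S} gau N (rot (-φ) p + lat q) ≤ (1/2π) ∫_φ ∑' q, gau N (rot (-φ) p + lat q)`
`= (1/2π) ∫_φ ∑' q, gh N (lat q) cos(2π ip (rot (-φ) p) (lat q))` (`poisson`). Exchange (the sum is dominated by the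
summable `gh N (lat q)`: `intervalIntegral.hasSum_integral_of_dominated_convergence` or `integral_tsum`): the mean over
`φ` of `cos(2π ip (rot (-φ) p) w)` is `bes (‖p‖ ‖w‖)` (real part of `mean_ee`, after `φ → -φ`). So the sum is
`≤ ∑' q, gh N (lat q) bes(‖p‖‖lat q‖) ≤ 1 + ∑_{q ≠ 0} gh N (lat q) · 2/√(‖p‖‖lat q‖) ≤ 1 + (2/√‖p‖) ∑ gh N (lat q)`,
and `∑' gh N (lat q) ≤ (2 + 2N/√π)² ≤ 16 N²` (`lat_sum`, `c = π/N²`), `√‖p‖ ≥ N²`: total `≤ 33`.
(To avoid measurability of the infinite sum you may bound the finite sum by a limit of finite sums.)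
-/

set_option autoImplicit false

open MeasureTheory Complex Set Real Filter Topology
open scoped ENNReal

namespace Pool.MPb9430d.Frac

open Pool.MPb9430d Pool.MPb9430d.Rough

private theorem kerF_norm_rot (φ : ℝ) : ‖rot φ‖ = 1 := by
  unfold rot
  exact Complex.norm_exp_ofReal_mul_I φ

private theorem kerF_rot_mul (φ : ℝ) : rot φ * rot (-φ) = 1 := by
  unfold rot
  rw [← Complex.exp_add]
  have : (φ : ℂ) * I + ((-φ : ℝ) : ℂ) * I = 0 := by
    push_cast
    ring
  rw [this, Complex.exp_zero]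

private theorem kerF_gau (N φ : ℝ) (p z : ℂ) :
    gau N (p + rot φ * z) = gau N (rot (-φ) * p + z) := by
  unfold gau
  have e : ‖p + rot φ * z‖ = ‖rot (-φ) * p + z‖ := by
    have h : p + rot φ * z = rot φ * (rot (-φ) * p + z) := by
      rw [mul_add, ← mul_assoc, kerF_rot_mul, one_mul]
    rw [h, norm_mul, kerF_norm_rot, one_mul]
  rw [e]

private theorem kerF_ip (φ : ℝ) (p w : ℂ) : ip (rot (-φ) * p) w = ip (rot φ * w) p := by
  have hr : (rot (-φ)).re = (rot φ).re := by
    unfold rot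
    rw [Complex.exp_ofReal_mul_I_re, Complex.exp_ofReal_mul_I_re, Real.cos_neg]
  have hi : (rot (-φ)).im = -(rot φ).im := by
    unfold rot
    rw [Complex.exp_ofReal_mul_I_im, Complex.exp_ofReal_mul_I_im, Real.sin_neg]
  unfold ip
  rw [Complex.mul_re, Complex.mul_im, Complex.mul_re, Complex.mul_im, hr, hi]
  ring

private theorem kerF_cont_rot : Continuous rot := by
  unfold rot
  fun_prop

private theorem kerF_mean (p w : ℂ) :
    ∫ φ in (-π)..π, Real.cos (2 * π * ip (rot (-φ) * p) w) = 2 * π * bes (‖w‖ * ‖p‖) := by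
  have h := mean_ee w p
  have hc : Continuous fun φ : ℝ => ee (ip (rot φ * w) p) := by
    refine continuous_ee.comp ?_
    unfold ip
    have h1 := kerF_cont_rot
    fun_prop
  have h2 := Complex.reCLM.intervalIntegral_comp_comm (hc.intervalIntegrable (μ := volume) (-π) π)
  rw [h, Complex.reCLM_apply, Complex.ofReal_re] at h2
  rw [← h2]
  refine intervalIntegral.integral_congr fun φ _ => ?_
  change Real.cos (2 * π * ip (rot (-φ) * p) w) = (ee (ip (rot φ * w) p)).re
  rw [kerF_ip]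
  unfold ee
  rw [Complex.exp_ofReal_mul_I_re]

private theorem kerF_sum_gh {N : ℝ} (hN : 1 ≤ N) : ∑' q : ℤ × ℤ, gh N (lat q) ≤ 16 * N ^ 2 := by
  have hN0 : 0 < N := by linarith
  refine (summable_gh hN0).tsum_le_of_sum_le fun S => ?_
  have hc : 0 < π / N ^ 2 := by positivity
  have h1 := lat_sum hc S
  have e : ∀ q ∈ S, gh N (lat q) = Real.exp (-(π / N ^ 2 * ‖lat q‖ ^ 2)) := by
    intro q _
    unfold gh
    congr 1
    ring
  rw [Finset.sum_congr rfl e]
  refine h1.trans ?_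
  have h2 : 2 / √(π / N ^ 2) ≤ 2 * N := by
    have h3 : 1 / N ≤ √(π / N ^ 2) := by
      rw [Real.le_sqrt' (by positivity)]
      rw [div_pow, one_pow]
      exact div_le_div_of_nonneg_right (by linarith [Real.pi_gt_three]) (by positivity)
    have h4 : 0 < 1 / N := by positivity
    calc 2 / √(π / N ^ 2) ≤ 2 / (1 / N) := div_le_div_of_nonneg_left (by norm_num) h4 h3
      _ = 2 * N := by
          rw [div_div_eq_mul_div, div_one]
  have h5 : 0 ≤ 2 / √(π / N ^ 2) := by positivity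
  nlinarith

theorem ker_far {N : ℝ} (hN : 1 ≤ N) {p : ℂ} (hp : N ^ 4 ≤ ‖p‖) (S : Finset (ℤ × ℤ)) :
    ∑ q ∈ S, cir N (lat q) p ≤ 33 := by
  have hN0 : 0 < N := by linarith
  have hpi := Real.pi_pos
  have hpn : 0 < ‖p‖ := lt_of_lt_of_le (by positivity) hp
  -- the sum under the integral
  have e1 : ∑ q ∈ S, cir N (lat q) p =
      (2 * π)⁻¹ * ∫ φ in (-π)..π, ∑ q ∈ S, gau N (p + rot φ * lat q) := by
    unfold cir
    rw [← Finset.mul_sum, intervalIntegral.integral_finsetSum]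
    intro q _
    refine Continuous.intervalIntegrable ?_ _ _
    have h1 := kerF_cont_rot
    have h2 := continuous_gau N
    exact h2.comp (by fun_prop)
  -- the terms of the dual series
  set T : ℤ × ℤ → ℝ → ℝ := fun q φ =>
    gh N (lat q) * Real.cos (2 * π * ip (rot (-φ) * p) (lat q)) with hT
  have hTc : ∀ q, Continuous (T q) := by
    intro q
    rw [hT]
    refine continuous_const.mul (Real.continuous_cos.comp ?_)
    unfold ip
    have h1 : Continuous fun φ : ℝ => rot (-φ) := kerF_cont_rot.comp continuous_neg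
    fun_prop
  have hTb : ∀ q φ, ‖T q φ‖ ≤ gh N (lat q) := by
    intro q φ
    rw [hT]
    change ‖gh N (lat q) * Real.cos (2 * π * ip (rot (-φ) * p) (lat q))‖ ≤ gh N (lat q)
    rw [Real.norm_eq_abs, abs_mul, abs_of_pos (gh_pos N _)]
    calc gh N (lat q) * |Real.cos (2 * π * ip (rot (-φ) * p) (lat q))| ≤ gh N (lat q) * 1 :=
          mul_le_mul_of_nonneg_left (Real.abs_cos_le_one _) (gh_pos N _).le
      _ = gh N (lat q) := mul_one _
  have hs := summable_gh hN0
  have hcont : Continuous fun φ => ∑' q, T q φ := continuous_tsum hTc hs hTb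
  have e2 : HasSum (fun q => ∫ φ in (-π)..π, T q φ) (∫ φ in (-π)..π, ∑' q, T q φ) := by
    refine intervalIntegral.hasSum_integral_of_dominated_convergence
      (fun q _ => gh N (lat q)) (fun q => (hTc q).aestronglyMeasurable) ?_ ?_ ?_ ?_
    · exact fun q => Eventually.of_forall fun φ _ => hTb q φ
    · exact Eventually.of_forall fun φ _ => hs
    · exact intervalIntegrable_const
    · exact Eventually.of_forall fun φ _ => (hs.of_norm_bounded (fun q => hTb q φ)).hasSum
  have e3 : ∀ q, ∫ φ in (-π)..π, T q φ = 2 * π * (gh N (lat q) * bes (‖lat q‖ * ‖p‖)) := by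
    intro q
    rw [hT]
    change ∫ φ in (-π)..π, gh N (lat q) * Real.cos (2 * π * ip (rot (-φ) * p) (lat q)) = _
    rw [intervalIntegral.integral_const_mul, kerF_mean]
    ring
  have h1 : ∫ φ in (-π)..π, ∑ q ∈ S, gau N (p + rot φ * lat q) ≤
      ∫ φ in (-π)..π, ∑' q, T q φ := by
    refine intervalIntegral.integral_mono_on (by linarith) ?_
      (hcont.intervalIntegrable _ _) ?_
    · refine Continuous.intervalIntegrable ?_ _ _
      refine continuous_finsetSum _ fun q _ => ?_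
      have h1 := kerF_cont_rot
      have h2 := continuous_gau N
      exact h2.comp (by fun_prop)
    · intro φ _
      have h2 := poisson hN0 (rot (-φ) * p)
      have h3 : ∑ q ∈ S, gau N (p + rot φ * lat q) ≤ ∑' q, gau N (rot (-φ) * p + lat q) := by
        rw [Finset.sum_congr rfl fun q _ => kerF_gau N φ p (lat q)]
        exact (summable_gau hN0 (rot (-φ) * p)).sum_le_tsum S fun q _ => gau_nonneg N _
      rw [h2] at h3
      exact h3
  have h2 : ∀ q : ℤ × ℤ, gh N (lat q) * bes (‖lat q‖ * ‖p‖) ≤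
      (if q = 0 then (1 : ℝ) else 0) + 2 / N ^ 2 * gh N (lat q) := by
    intro q
    have hg := gh_pos N (lat q)
    by_cases hq : q = 0
    · rw [if_pos hq]
      have h3 : gh N (lat q) ≤ 1 := by
        unfold gh
        rw [Real.exp_le_one_iff]
        have : 0 ≤ π * ‖lat q‖ ^ 2 / N ^ 2 := by positivity
        linarith
      have h4 := (abs_le.1 (abs_bes_le_one (‖lat q‖ * ‖p‖))).2
      have h5 : 0 ≤ 2 / N ^ 2 * gh N (lat q) := by positivity
      nlinarith
    · rw [if_neg hq, zero_add, mul_comm]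
      refine mul_le_mul_of_nonneg_right ?_ hg.le
      have h3 : 1 ≤ ‖lat q‖ := by
        have h4 : (1 : ℝ) ≤ ‖lat q‖ ^ 2 := by
          rw [norm_lat_sq]
          have h5 : 1 ≤ q.1 ^ 2 + q.2 ^ 2 := by
            by_contra hlt
            have h6 : q.1 ^ 2 + q.2 ^ 2 ≤ 0 := by omega
            have h7 : q.1 = 0 := by nlinarith [sq_nonneg q.1, sq_nonneg q.2]
            have h8 : q.2 = 0 := by nlinarith [sq_nonneg q.1, sq_nonneg q.2]
            exact hq (Prod.ext h7 h8)
          exact_mod_cast h5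
        nlinarith [norm_nonneg (lat q)]
      have h4 : 0 < ‖lat q‖ * ‖p‖ := mul_pos (by linarith) hpn
      have h5 := (abs_le.1 (abs_bes_le h4)).2
      refine h5.trans ?_
      refine div_le_div_of_nonneg_left (by norm_num) (by positivity) ?_
      rw [Real.le_sqrt' (by positivity)]
      calc (N ^ 2) ^ 2 = N ^ 4 := by ring
        _ ≤ ‖p‖ := hp
        _ ≤ ‖lat q‖ * ‖p‖ := by nlinarith
  have hs2 : Summable fun q : ℤ × ℤ => gh N (lat q) * bes (‖lat q‖ * ‖p‖) := by
    refine hs.of_norm_bounded fun q => ?_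
    rw [Real.norm_eq_abs, abs_mul, abs_of_pos (gh_pos N _)]
    calc gh N (lat q) * |bes (‖lat q‖ * ‖p‖)| ≤ gh N (lat q) * 1 :=
          mul_le_mul_of_nonneg_left (abs_bes_le_one _) (gh_pos N _).le
      _ = gh N (lat q) := mul_one _
  have hs3 : Summable fun q : ℤ × ℤ => (if q = 0 then (1 : ℝ) else 0) :=
    (hasSum_ite_eq (0 : ℤ × ℤ) (1 : ℝ)).summable
  have h3 : ∑' q : ℤ × ℤ, gh N (lat q) * bes (‖lat q‖ * ‖p‖) ≤ 33 := by
    calc ∑' q : ℤ × ℤ, gh N (lat q) * bes (‖lat q‖ * ‖p‖) ≤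
        ∑' q : ℤ × ℤ, ((if q = 0 then (1 : ℝ) else 0) + 2 / N ^ 2 * gh N (lat q)) :=
          hs2.tsum_le_tsum h2 (hs3.add (hs.mul_left _))
      _ = 1 + 2 / N ^ 2 * ∑' q : ℤ × ℤ, gh N (lat q) := by
          rw [hs3.tsum_add (hs.mul_left _), tsum_mul_left]
          congr 1
          exact (hasSum_ite_eq (0 : ℤ × ℤ) (1 : ℝ)).tsum_eq
      _ ≤ 1 + 2 / N ^ 2 * (16 * N ^ 2) := by
          have := mul_le_mul_of_nonneg_left (kerF_sum_gh hN) (by positivity : 0 ≤ 2 / N ^ 2)
          linarith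
      _ = 33 := by
          field_simp
          norm_num
  have e4 : ∫ φ in (-π)..π, ∑' q, T q φ =
      2 * π * ∑' q : ℤ × ℤ, gh N (lat q) * bes (‖lat q‖ * ‖p‖) := by
    rw [← e2.tsum_eq, tsum_congr e3, tsum_mul_left]
  rw [e1]
  calc (2 * π)⁻¹ * ∫ φ in (-π)..π, ∑ q ∈ S, gau N (p + rot φ * lat q) ≤
      (2 * π)⁻¹ * (2 * π * ∑' q : ℤ × ℤ, gh N (lat q) * bes (‖lat q‖ * ‖p‖)) := by
        rw [← e4]
        exact mul_le_mul_of_nonneg_left h1 (by positivity)
    _ = ∑' q : ℤ × ℤ, gh N (lat q) * bes (‖lat q‖ * ‖p‖) := by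
        rw [← mul_assoc, inv_mul_cancel₀ (by positivity), one_mul]
    _ ≤ 33 := h3

end Pool.MPb9430d.Frac
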