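import Pool.Agent.Lib.MP_b9430d_co.Frac.KerN
import Pool.Agent.Lib.MP_b9430d_co.Frac.KerF

/-!
# KerB: the kernel bound for all `p`

If `‖p‖ ≤ N⁴` use `ker_near`; otherwise `ker N X p q ≤ cir N (lat q) p` (`cir_nonneg`) and `ker_far` gives
`33 ≤ 33 N^{1+ε}/X` (`X ≤ N ≤ N^{1+ε}`).
-/

set_option autoImplicit false

open MeasureTheory Complex Set Real Filter Topology
open scoped ENNReal

namespace Pool.MPb9430d.Frac

open Pool.MPb9430d Pool.MPb9430d.Rough

theorem ker_bound {ε : ℝ} (hε : 0 < ε) : ∃ C : ℝ, 0 < C ∧ ∀ N X : ℝ, 1 ≤ N → 1 ≤ X → X ≤ N →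
    ∀ p : ℂ, ∀ S : Finset (ℤ × ℤ), ∑ q ∈ S, ker N X p q ≤ C * N ^ (1 + ε) / X := by
  obtain ⟨C, hC, h⟩ := ker_near hε
  refine ⟨C + 33, by linarith, fun N X hN hX hXN p S => ?_⟩
  have hX0 : 0 < X := by linarith
  have hN0 : 0 < N := by linarith
  have hNN : N ≤ N ^ (1 + ε) := by
    calc N = N ^ (1 : ℝ) := (Real.rpow_one N).symm
      _ ≤ N ^ (1 + ε) := Real.rpow_le_rpow_of_exponent_le hN (by linarith)
  have hpos : 0 ≤ N ^ (1 + ε) / X := by positivity
  have e : (C + 33) * N ^ (1 + ε) / X = C * N ^ (1 + ε) / X + 33 * (N ^ (1 + ε) / X) := by ring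
  rw [e]
  rcases le_or_gt ‖p‖ (N ^ 4) with hp | hp
  · have h1 := h N X hN hX hXN p hp S
    linarith
  · have h1 : ∑ q ∈ S, ker N X p q ≤ ∑ q ∈ S, cir N (lat q) p := by
      refine Finset.sum_le_sum fun q _ => ?_
      unfold ker
      split_ifs
      · exact le_rfl
      · exact cir_nonneg _ _ _
    have h2 := ker_far hN hp.le S
    have h3 : 1 ≤ N ^ (1 + ε) / X := by
      rw [le_div_iff₀ hX0]
      linarith
    have h4 : 0 ≤ C * N ^ (1 + ε) / X := by positivity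
    linarith

end Pool.MPb9430d.Frac
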