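import Pool.Agent.Lib.MP_b9430d_co.Frac.Ann
import Pool.Agent.Lib.MP_b9430d_co.Frac.CirB
import Pool.Agent.Lib.MP_b9430d_co.Frac.CirA

/-!
# KerN: the kernel of the far lattice points, `‖p‖ ≤ N⁴`

`ker N X p q = cir N (lat q) p` if `‖lat q‖ > X`, else `0`. Let `R = ‖p‖`. Split the `q ∈ S` with `‖lat q‖ > X ≥ 1`:
(i) `‖lat q‖ ≥ 2 R`: `‖lat q‖ - R ≥ ‖lat q‖/2`; (ii) `‖lat q‖ < R/2`: `R - ‖lat q‖ ≥ R/2 ≥ ‖lat q‖`; in both cases
`cir ≤ N² exp(-π N² ‖lat q‖²/4)` (`cir_le`) and, as `‖lat q‖ ≥ 1`,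
`N² exp(-π N²‖lat q‖²/4) ≤ N² exp(-π N²/8) exp(-π ‖lat q‖²/8) ≤ (8/π) exp(-π‖lat q‖²/8)` (`u e^{-u} ≤ 1`), whose
sum is at most a constant (`lat_sum`, imported through `Ann`).
(iii) `R/2 ≤ ‖lat q‖ < 2R` (then `R > X/2 ≥ 1/2`, `p ≠ 0`): `cir_le'` and `√(R ‖lat q‖) ≥ R/√2`:
`cir ≤ (√2 N/R) exp(-π N² (R - ‖lat q‖)²)`, and `ann_bound`: the sum is at most
`√2 C N^{1+ε} (1/R)(1 + R/N) = √2 C N^ε (N/R + 1) ≤ √2 C N^ε (2N/X + N/X)` (`R > X/2`, `X ≤ N`).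
The constants of (i), (ii) are `≤ C N^{1+ε}/X` because `X ≤ N ≤ N^{1+ε}`.
-/

set_option autoImplicit false

open MeasureTheory Complex Set Real Filter Topology
open scoped ENNReal

namespace Pool.MPb9430d.Frac

open Pool.MPb9430d Pool.MPb9430d.Rough

private theorem KerN_far {N R L : ℝ} (hN : 1 ≤ N) (hL : 1 ≤ L) (h : L ^ 2 / 4 ≤ (R - L) ^ 2) :
    N ^ 2 * Real.exp (-(π * N ^ 2 * (R - L) ^ 2)) ≤ 8 / π * Real.exp (-(π / 8 * L ^ 2)) := by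
  have hpi := Real.pi_pos
  have hN2 : 1 ≤ N ^ 2 := one_le_pow₀ hN
  have hL2 : 1 ≤ L ^ 2 := one_le_pow₀ hL
  have h1 : π * N ^ 2 / 8 + π / 8 * L ^ 2 ≤ π * N ^ 2 * (R - L) ^ 2 := by
    have h2 : π * N ^ 2 * (L ^ 2 / 4) ≤ π * N ^ 2 * (R - L) ^ 2 :=
      mul_le_mul_of_nonneg_left h (by positivity)
    have h3 : 0 ≤ (π / 8) * (N ^ 2 * (L ^ 2 - 1) + (N ^ 2 - 1) * L ^ 2) := by
      have : 0 ≤ N ^ 2 * (L ^ 2 - 1) := mul_nonneg (by positivity) (by linarith)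
      have : 0 ≤ (N ^ 2 - 1) * L ^ 2 := mul_nonneg (by linarith) (by positivity)
      positivity
    nlinarith
  have h2 : Real.exp (-(π * N ^ 2 * (R - L) ^ 2)) ≤
      Real.exp (-(π * N ^ 2 / 8)) * Real.exp (-(π / 8 * L ^ 2)) := by
    rw [← Real.exp_add, Real.exp_le_exp]
    linarith
  have h3 : N ^ 2 * Real.exp (-(π * N ^ 2 / 8)) ≤ 8 / π := by
    have h4 : π * N ^ 2 / 8 ≤ Real.exp (π * N ^ 2 / 8) := by
      have := Real.add_one_le_exp (π * N ^ 2 / 8)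
      linarith
    rw [Real.exp_neg, ← div_eq_mul_inv, div_le_div_iff₀ (Real.exp_pos _) hpi]
    linarith
  calc N ^ 2 * Real.exp (-(π * N ^ 2 * (R - L) ^ 2))
      ≤ N ^ 2 * (Real.exp (-(π * N ^ 2 / 8)) * Real.exp (-(π / 8 * L ^ 2))) :=
        mul_le_mul_of_nonneg_left h2 (by positivity)
    _ = N ^ 2 * Real.exp (-(π * N ^ 2 / 8)) * Real.exp (-(π / 8 * L ^ 2)) := by ring
    _ ≤ 8 / π * Real.exp (-(π / 8 * L ^ 2)) :=
        mul_le_mul_of_nonneg_right h3 (Real.exp_pos _).le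

private theorem KerN_sqrt {N R L : ℝ} (hN : 1 ≤ N) (hR : 0 < R) (h : R / 2 ≤ L) :
    N / √(R * L) ≤ √2 * N / R := by
  have h1 : R / √2 ≤ √(R * L) := by
    refine Real.le_sqrt_of_sq_le ?_
    rw [div_pow, Real.sq_sqrt (by norm_num)]
    nlinarith
  have h2 : 0 < R / √2 := by positivity
  calc N / √(R * L) ≤ N / (R / √2) :=
        div_le_div_of_nonneg_left (by linarith) h2 h1
    _ = √2 * N / R := by
        rw [div_div_eq_mul_div]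
        ring

theorem ker_near {ε : ℝ} (hε : 0 < ε) : ∃ C : ℝ, 0 < C ∧ ∀ N X : ℝ, 1 ≤ N → 1 ≤ X → X ≤ N →
    ∀ p : ℂ, ‖p‖ ≤ N ^ 4 → ∀ S : Finset (ℤ × ℤ), ∑ q ∈ S, ker N X p q ≤ C * N ^ (1 + ε) / X := by
  classical
  obtain ⟨C₁, hC₁, hann⟩ := ann_bound hε
  have hpi := Real.pi_pos
  set K : ℝ := 8 / π * (2 + 2 / √(π / 8)) ^ 2 with hK
  have hK0 : 0 < K := by positivity
  refine ⟨K + 3 * √2 * C₁, by positivity, fun N X hN hX hXN p hp S => ?_⟩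
  have hN0 : 0 < N := by linarith
  have hX0 : 0 < X := by linarith
  have hNe : N ^ (1 + ε) = N * N ^ ε := by
    rw [Real.rpow_add hN0, Real.rpow_one]
  have hNe1 : 1 ≤ N ^ ε := Real.one_le_rpow hN hε.le
  -- the pointwise bound
  set T : Finset (ℤ × ℤ) := S.filter fun q => X < ‖lat q‖ ∧ ‖p‖ / 2 ≤ ‖lat q‖ ∧ ‖lat q‖ ≤ 2 * ‖p‖ with hT
  have hpt : ∀ q ∈ S, ker N X p q ≤ 8 / π * Real.exp (-(π / 8 * ‖lat q‖ ^ 2)) +
      (if X < ‖lat q‖ ∧ ‖p‖ / 2 ≤ ‖lat q‖ ∧ ‖lat q‖ ≤ 2 * ‖p‖ then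
        √2 * N / ‖p‖ * Real.exp (-(π * N ^ 2 * (‖p‖ - ‖lat q‖) ^ 2)) else 0) := by
    intro q _
    have hg0 : 0 ≤ 8 / π * Real.exp (-(π / 8 * ‖lat q‖ ^ 2)) := by positivity
    by_cases h1 : X < ‖lat q‖
    · unfold ker
      rw [if_pos h1]
      have hL : 1 ≤ ‖lat q‖ := by linarith
      by_cases h2 : ‖p‖ / 2 ≤ ‖lat q‖ ∧ ‖lat q‖ ≤ 2 * ‖p‖
      · rw [if_pos ⟨h1, h2⟩]
        have hR : 0 < ‖p‖ := by linarith [h2.2]
        have hq0 : lat q ≠ 0 := by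
          intro h0
          rw [h0, norm_zero] at hL
          linarith
        have h3 := cir_le' hN0 hq0 (norm_pos_iff.mp hR)
        have h4 : N / √(‖p‖ * ‖lat q‖) * Real.exp (-(π * N ^ 2 * (‖p‖ - ‖lat q‖) ^ 2)) ≤
            √2 * N / ‖p‖ * Real.exp (-(π * N ^ 2 * (‖p‖ - ‖lat q‖) ^ 2)) :=
          mul_le_mul_of_nonneg_right (KerN_sqrt hN hR h2.1) (Real.exp_pos _).le
        linarith
      · rw [if_neg (fun h => h2 h.2), add_zero]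
        refine (cir_le hN0 (lat q) p).trans (KerN_far hN hL ?_)
        by_cases h3 : ‖p‖ / 2 ≤ ‖lat q‖
        · have h4 : 2 * ‖p‖ < ‖lat q‖ := by
            by_contra h5
            exact h2 ⟨h3, not_lt.mp h5⟩
          have h5 : 0 ≤ ‖p‖ := norm_nonneg _
          nlinarith
        · have h4 : ‖lat q‖ < ‖p‖ / 2 := not_le.mp h3
          nlinarith
    · unfold ker
      rw [if_neg h1, if_neg (fun h => h1 h.1), add_zero]
      exact hg0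
  have hsum1 : ∑ q ∈ S, 8 / π * Real.exp (-(π / 8 * ‖lat q‖ ^ 2)) ≤ K := by
    rw [← Finset.mul_sum]
    exact mul_le_mul_of_nonneg_left (lat_sum (by positivity) S) (by positivity)
  have hsum2 : ∑ q ∈ S, (if X < ‖lat q‖ ∧ ‖p‖ / 2 ≤ ‖lat q‖ ∧ ‖lat q‖ ≤ 2 * ‖p‖ then
        √2 * N / ‖p‖ * Real.exp (-(π * N ^ 2 * (‖p‖ - ‖lat q‖) ^ 2)) else 0) ≤
      3 * √2 * C₁ * N ^ (1 + ε) / X := by
    rw [← Finset.sum_filter, ← hT]
    rcases T.eq_empty_or_nonempty with h0 | ⟨q₀, hq₀⟩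
    · rw [h0, Finset.sum_empty]
      positivity
    · have hq1 := (Finset.mem_filter.mp hq₀).2
      have hRX : X / 2 < ‖p‖ := by linarith [hq1.1, hq1.2.2]
      have hR : 0 < ‖p‖ := by linarith
      have h1 := hann N ‖p‖ hN (by linarith) hp T (fun q hq => (Finset.mem_filter.mp hq).2.2)
      rw [← Finset.mul_sum]
      have h2 : √2 * N / ‖p‖ * ∑ q ∈ T, Real.exp (-(π * N ^ 2 * (‖p‖ - ‖lat q‖) ^ 2)) ≤
          √2 * N / ‖p‖ * (C₁ * N ^ ε * (1 + ‖p‖ / N)) :=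
        mul_le_mul_of_nonneg_left h1 (by positivity)
      have h3 : √2 * N / ‖p‖ * (C₁ * N ^ ε * (1 + ‖p‖ / N)) = √2 * C₁ * N ^ ε * (N / ‖p‖ + 1) := by
        field_simp
      have h4 : N / ‖p‖ + 1 ≤ 3 * N / X := by
        have h5 : N / ‖p‖ ≤ 2 * N / X := by
          rw [div_le_div_iff₀ hR hX0]
          nlinarith
        have h6 : 1 ≤ N / X := by
          rw [le_div_iff₀ hX0]
          linarith
        have h7 : 3 * N / X = 2 * N / X + N / X := by ring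
        rw [h7]
        linarith
      have h5 : √2 * C₁ * N ^ ε * (N / ‖p‖ + 1) ≤ √2 * C₁ * N ^ ε * (3 * N / X) :=
        mul_le_mul_of_nonneg_left h4 (by positivity)
      have h6 : √2 * C₁ * N ^ ε * (3 * N / X) = 3 * √2 * C₁ * N ^ (1 + ε) / X := by
        rw [hNe]
        ring
      linarith
  have hK1 : K ≤ K * N ^ (1 + ε) / X := by
    rw [le_div_iff₀ hX0, hNe]
    have : X ≤ N * N ^ ε := by nlinarith
    exact mul_le_mul_of_nonneg_left this hK0.le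
  have hfin : (K + 3 * √2 * C₁) * N ^ (1 + ε) / X =
      K * N ^ (1 + ε) / X + 3 * √2 * C₁ * N ^ (1 + ε) / X := by ring
  rw [hfin]
  have hall := Finset.sum_le_sum hpt
  rw [Finset.sum_add_distrib] at hall
  linarith

end Pool.MPb9430d.Frac
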