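import Pool.Agent.Lib.MP_b9430d_co.Frac.QfF
import Pool.Agent.Lib.MP_b9430d_co.Frac.Pl

/-!
# Lim: the Gaussians are an approximate identity

`qf (gau N) F = ∫ gh N y ‖ft F y‖² dy` (`qf_cir` with `z = 0`, `cir_zero`, `bes_zero`), `gh N y → 1` as `N → ∞`, bounded by
`1`; dominated convergence (`tendsto_integral_of_dominated_convergence`, bound `‖ft F y‖²`) and `plancherel`.
-/

set_option autoImplicit false

open MeasureTheory Complex Set Real Filter Topology
open scoped ENNReal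

namespace Pool.MPb9430d.Frac

open Pool.MPb9430d Pool.MPb9430d.Rough

theorem lim_qf {F : ℂ → ℝ} (hm : Measurable F) (hF : Integrable F) (hb : ∀ x, |F x| ≤ 1) :
    Tendsto (fun k : ℕ => qf (gau (2 ^ k)) F) atTop (𝓝 (∫ x, (F x) ^ 2)) := by
  obtain ⟨hPi, hP⟩ := plancherel hm hF hb
  have hpos : ∀ k : ℕ, (0 : ℝ) < 2 ^ k := fun k => by positivity
  have hq : ∀ k : ℕ, qf (gau (2 ^ k)) F =
      ∫ y, bes (‖(0 : ℂ)‖ * ‖y‖) * gh (2 ^ k) y * ‖ft F y‖ ^ 2 := by
    intro k
    rw [← qf_cir (hpos k) 0 hF]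
    have h1 : cir (2 ^ k) 0 = gau (2 ^ k) := funext fun p => cir_zero _ p
    rw [h1]
  have hb0 : ∀ y : ℂ, bes (‖(0 : ℂ)‖ * ‖y‖) = 1 := by
    intro y
    rw [norm_zero, zero_mul, bes_zero]
  rw [← hP]
  simp only [hq]
  refine tendsto_integral_of_dominated_convergence (fun y => ‖ft F y‖ ^ 2)
    (fun k => (integrable_bes_gh (hpos k) 0 hF).aestronglyMeasurable) hPi ?_ ?_
  · intro k
    refine Eventually.of_forall fun y => ?_
    rw [hb0 y, one_mul, Real.norm_eq_abs, abs_mul, abs_of_pos (gh_pos _ _),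
      abs_of_nonneg (sq_nonneg ‖ft F y‖)]
    have h1 := gh_le_one (2 ^ k) y
    have h2 := sq_nonneg ‖ft F y‖
    nlinarith
  · refine Eventually.of_forall fun y => ?_
    have h1 : Tendsto (fun k : ℕ => gh (2 ^ k) y) atTop (𝓝 1) := by
      have h2 : Tendsto (fun k : ℕ => π * ‖y‖ ^ 2 / ((2 : ℝ) ^ k) ^ 2) atTop (𝓝 0) := by
        refine Tendsto.div_atTop tendsto_const_nhds ?_
        exact (tendsto_pow_atTop two_ne_zero).comp
          (tendsto_pow_atTop_atTop_of_one_lt (by norm_num : (1 : ℝ) < 2))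
      have h3 := (Real.continuous_exp.tendsto _).comp h2.neg
      rw [neg_zero, Real.exp_zero] at h3
      exact h3
    have h4 := h1.mul_const (‖ft F y‖ ^ 2)
    rw [one_mul] at h4
    refine h4.congr fun k => ?_
    rw [hb0 y, one_mul]

end Pool.MPb9430d.Frac
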