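import Pool.Agent.Lib.MP_b9430d_co.Frac.MDefs

/-!
# LocC: number of local pairs

`card_mid`: `mid X` is contained in the square `|a|, |b| ≤ 2X`: at most `(4X+1)² ≤ 25 X²` points.
`card_loc`: fix `p ∈ mid X`, `r = ‖lat p‖ ∈ (X, 2X]`. The `q = (a, b) ∈ mid X` with `|‖lat q‖ - r| ≤ 1`: by symmetry
(`a ↔ b`, signs) consider `|a| ≤ b`; then `b ≥ ‖lat q‖/√2 > X/√2`. For fixed `a` two such values `b < b'` satisfy
`(b' - b)(b' + b) = ‖q'‖² - ‖q‖² ≤ (‖q'‖ - ‖q‖)(‖q'‖ + ‖q‖) ≤ 2 · 4X`, so `b' - b ≤ 8X/(√2 X) < 6`: at most `7` values `b` for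
each of the at most `4X + 1 ≤ 5X` values `a`: `35 X`; with the symmetries at most `4 · 35 X` points `q`. So at most
`140 X · 25 X² = 3500 X³` pairs. (Any other way and any constant below `10^6` is fine.)
-/

set_option autoImplicit false

open MeasureTheory Complex Set Real Filter Topology
open scoped ENNReal

namespace Pool.MPb9430d.Frac

open Pool.MPb9430d Pool.MPb9430d.Rough

private theorem LocC_sq (q : ℤ × ℤ) : ‖lat q‖ ^ 2 = (q.1 : ℝ) ^ 2 + (q.2 : ℝ) ^ 2 := by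
  rw [← Complex.normSq_eq_norm_sq, Complex.normSq_apply, lat_re, lat_im]
  ring

private theorem LocC_box {X : ℝ} (hX : 1 ≤ X) {q : ℤ × ℤ} (h : ‖lat q‖ ≤ 2 * X) :
    q.1 ∈ Finset.Icc (-⌊2 * X⌋) ⌊2 * X⌋ ∧ q.2 ∈ Finset.Icc (-⌊2 * X⌋) ⌊2 * X⌋ := by
  have h1 : |(q.1 : ℝ)| ≤ 2 * X := by
    have := Complex.abs_re_le_norm (lat q)
    rw [lat_re] at this
    linarith
  have h2 : |(q.2 : ℝ)| ≤ 2 * X := by
    have := Complex.abs_im_le_norm (lat q)
    rw [lat_im] at this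
    linarith
  have key : ∀ a : ℤ, |(a : ℝ)| ≤ 2 * X → a ∈ Finset.Icc (-⌊2 * X⌋) ⌊2 * X⌋ := by
    intro a ha
    have h3 : |a| ≤ ⌊2 * X⌋ := by
      apply Int.le_floor.2
      push_cast
      exact ha
    rw [Finset.mem_Icc]
    exact abs_le.1 h3
  exact ⟨key _ h1, key _ h2⟩

private theorem LocC_cardIcc {X : ℝ} (hX : 1 ≤ X) :
    ((Finset.Icc (-⌊2 * X⌋) ⌊2 * X⌋).card : ℝ) ≤ 5 * X := by
  rw [Int.card_Icc]
  have h0 : 0 ≤ ⌊2 * X⌋ := Int.floor_nonneg.2 (by linarith)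
  have h1 : (⌊2 * X⌋ : ℝ) ≤ 2 * X := Int.floor_le _
  have h2 : ((⌊2 * X⌋ + 1 - -⌊2 * X⌋).toNat : ℤ) = ⌊2 * X⌋ + 1 - -⌊2 * X⌋ :=
    Int.toNat_of_nonneg (by linarith)
  have h3 : (((⌊2 * X⌋ + 1 - -⌊2 * X⌋).toNat : ℤ) : ℝ) =
      ((⌊2 * X⌋ + 1 - -⌊2 * X⌋ : ℤ) : ℝ) := by rw [h2]
  have h4 : (((⌊2 * X⌋ + 1 - -⌊2 * X⌋).toNat : ℕ) : ℝ) =
      (((⌊2 * X⌋ + 1 - -⌊2 * X⌋).toNat : ℤ) : ℝ) := by norm_cast
  rw [h4, h3]
  push_cast
  linarith

theorem card_mid {X : ℝ} (hX : 1 ≤ X) : ((mid X).card : ℝ) ≤ 25 * X ^ 2 := by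
  classical
  have hsub : mid X ⊆ (Finset.Icc (-⌊2 * X⌋) ⌊2 * X⌋) ×ˢ (Finset.Icc (-⌊2 * X⌋) ⌊2 * X⌋) := by
    intro q hq
    rw [Finset.mem_product]
    exact LocC_box hX (mem_mid.1 hq).2.2
  have h1 := Finset.card_le_card hsub
  rw [Finset.card_product] at h1
  have h2 := LocC_cardIcc hX
  have h3 : (0 : ℝ) ≤ ((Finset.Icc (-⌊2 * X⌋) ⌊2 * X⌋).card : ℝ) := Nat.cast_nonneg _
  calc ((mid X).card : ℝ) ≤ ((Finset.Icc (-⌊2 * X⌋) ⌊2 * X⌋).card : ℝ) *
        ((Finset.Icc (-⌊2 * X⌋) ⌊2 * X⌋).card : ℝ) := by exact_mod_cast h1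
    _ ≤ (5 * X) * (5 * X) := mul_le_mul h2 h2 h3 (by linarith)
    _ = 25 * X ^ 2 := by ring

private theorem LocC_fib {X r : ℝ} (hX : 1 ≤ X) (T : Finset (ℤ × ℤ))
    (hT : ∀ q ∈ T, X < ‖lat q‖ ∧ ‖lat q‖ ≤ 2 * X ∧ |r - ‖lat q‖| ≤ 1 ∧ |q.1| ≤ q.2) :
    (T.card : ℝ) ≤ 35 * X := by
  classical
  have hlow : ∀ q ∈ T, X ^ 2 < 2 * (q.2 : ℝ) ^ 2 ∧ 0 ≤ (q.2 : ℝ) := by
    intro q hq
    obtain ⟨h1, h2, h3, h4⟩ := hT q hq
    have h5 : |(q.1 : ℝ)| ≤ (q.2 : ℝ) := by exact_mod_cast h4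
    have h6 : (q.1 : ℝ) ^ 2 ≤ (q.2 : ℝ) ^ 2 := by
      have := abs_nonneg (q.1 : ℝ)
      nlinarith [sq_abs (q.1 : ℝ)]
    have h7 := LocC_sq q
    refine ⟨by nlinarith, (abs_nonneg _).trans h5⟩
  have hfib : ∀ a ∈ T.image Prod.fst, (T.filter (fun q => q.1 = a)).card ≤ 6 := by
    intro a _
    rcases (T.filter (fun q => q.1 = a)).eq_empty_or_nonempty with h0 | hne
    · rw [h0]
      simp
    · obtain ⟨m, hm, hmin⟩ := Finset.exists_min_image (T.filter (fun q => q.1 = a))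
        (fun q => q.2) hne
      have hsub : (T.filter (fun q => q.1 = a)) ⊆
          (Finset.Icc m.2 (m.2 + 5)).image (fun b => ((a, b) : ℤ × ℤ)) := by
        intro q hq
        rw [Finset.mem_image]
        refine ⟨q.2, ?_, ?_⟩
        · rw [Finset.mem_Icc]
          refine ⟨hmin q hq, ?_⟩
          by_contra hcon
          push Not at hcon
          rw [Finset.mem_filter] at hq hm
          obtain ⟨h1, h2, h3, h4⟩ := hT q hq.1
          obtain ⟨k1, k2, k3, k4⟩ := hT m hm.1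
          have e1 := LocC_sq q
          have e2 := LocC_sq m
          have hqm : q.1 = m.1 := hq.2.trans hm.2.symm
          rw [hqm] at e1
          obtain ⟨l1, l2⟩ := hlow m hm.1
          have hb : (m.2 : ℝ) + 6 ≤ q.2 := by
            have : m.2 + 6 ≤ q.2 := by omega
            exact_mod_cast this
          rw [abs_le] at h3 k3
          have h8 : ‖lat q‖ - ‖lat m‖ ≤ 2 := by linarith
          have h9 : ‖lat q‖ ^ 2 - ‖lat m‖ ^ 2 ≤ 8 * X := by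
            have e : ‖lat q‖ ^ 2 - ‖lat m‖ ^ 2 =
                (‖lat q‖ - ‖lat m‖) * (‖lat q‖ + ‖lat m‖) := by ring
            rw [e]
            have h10 : 0 ≤ ‖lat q‖ + ‖lat m‖ := by positivity
            nlinarith
          have h11 : (q.2 : ℝ) ^ 2 - (m.2 : ℝ) ^ 2 ≤ 8 * X := by linarith
          have h12 : 12 * (m.2 : ℝ) ≤ 8 * X := by nlinarith
          nlinarith
        · rw [← hq |> fun h => (Finset.mem_filter.1 h).2]
      refine (Finset.card_le_card hsub).trans (Finset.card_image_le.trans ?_)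
      rw [Int.card_Icc]
      have : m.2 + 5 + 1 - m.2 = 6 := by ring
      rw [this]
      decide
  have h1 := Finset.card_le_mul_card_image (f := Prod.fst) T 6 hfib
  have h2 : T.image Prod.fst ⊆ Finset.Icc (-⌊2 * X⌋) ⌊2 * X⌋ := by
    intro a ha
    rw [Finset.mem_image] at ha
    obtain ⟨q, hq, rfl⟩ := ha
    exact (LocC_box hX (hT q hq).2.1).1
  have h3 := LocC_cardIcc hX
  have h4 : ((T.image Prod.fst).card : ℝ) ≤ 5 * X := by
    refine le_trans ?_ h3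
    exact_mod_cast Finset.card_le_card h2
  calc (T.card : ℝ) ≤ 6 * ((T.image Prod.fst).card : ℝ) := by exact_mod_cast h1
    _ ≤ 35 * X := by linarith

private theorem LocC_sym {X r : ℝ} (hX : 1 ≤ X) (σ : ℤ × ℤ → ℤ × ℤ) (hσ : Function.Injective σ)
    (hn : ∀ q, ‖lat (σ q)‖ = ‖lat q‖) (T : Finset (ℤ × ℤ))
    (hT : ∀ q ∈ T, X < ‖lat q‖ ∧ ‖lat q‖ ≤ 2 * X ∧ |r - ‖lat q‖| ≤ 1 ∧ |(σ q).1| ≤ (σ q).2) :
    (T.card : ℝ) ≤ 35 * X := by
  classical
  rw [← Finset.card_image_of_injective T hσ]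
  apply LocC_fib (r := r) hX
  intro q hq
  rw [Finset.mem_image] at hq
  obtain ⟨q', hq', rfl⟩ := hq
  rw [hn]
  exact hT q' hq'

private theorem LocC_one {X : ℝ} (hX : 1 ≤ X) (r : ℝ) (S : Finset (ℤ × ℤ))
    (hS : ∀ q ∈ S, X < ‖lat q‖ ∧ ‖lat q‖ ≤ 2 * X ∧ |r - ‖lat q‖| ≤ 1) :
    (S.card : ℝ) ≤ 140 * X := by
  classical
  set T1 := S.filter (fun q => |q.1| ≤ q.2) with hT1
  set T2 := S.filter (fun q => |q.1| ≤ -q.2) with hT2
  set T3 := S.filter (fun q => |q.2| ≤ q.1) with hT3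
  set T4 := S.filter (fun q => |q.2| ≤ -q.1) with hT4
  have hcov : S ⊆ (T1 ∪ T2) ∪ (T3 ∪ T4) := by
    intro q hq
    rw [Finset.mem_union, Finset.mem_union, Finset.mem_union, hT1, hT2, hT3, hT4,
      Finset.mem_filter, Finset.mem_filter, Finset.mem_filter, Finset.mem_filter]
    rcases le_total |q.1| |q.2| with h | h
    · left
      rcases abs_cases q.2 with ⟨h1, _⟩ | ⟨h1, _⟩
      · left
        exact ⟨hq, by rw [h1] at h; exact h⟩
      · right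
        exact ⟨hq, by rw [h1] at h; exact h⟩
    · right
      rcases abs_cases q.1 with ⟨h1, _⟩ | ⟨h1, _⟩
      · left
        exact ⟨hq, by rw [h1] at h; exact h⟩
      · right
        exact ⟨hq, by rw [h1] at h; exact h⟩
  have hnorm : ∀ a b c d : ℤ, a ^ 2 + b ^ 2 = c ^ 2 + d ^ 2 → ‖lat (a, b)‖ = ‖lat (c, d)‖ := by
    intro a b c d h
    have e1 := LocC_sq (a, b)
    have e2 := LocC_sq (c, d)
    have h' : (a : ℝ) ^ 2 + (b : ℝ) ^ 2 = (c : ℝ) ^ 2 + (d : ℝ) ^ 2 := by exact_mod_cast h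
    have e3 : ‖lat (a, b)‖ ^ 2 = ‖lat (c, d)‖ ^ 2 := by
      rw [e1, e2]
      exact h'
    exact (pow_left_inj₀ (norm_nonneg _) (norm_nonneg _) (by norm_num)).1 e3
  have c1 : (T1.card : ℝ) ≤ 35 * X := by
    apply LocC_fib (r := r) hX
    intro q hq
    rw [hT1, Finset.mem_filter] at hq
    obtain ⟨a1, a2, a3⟩ := hS q hq.1
    exact ⟨a1, a2, a3, hq.2⟩
  have c2 : (T2.card : ℝ) ≤ 35 * X := by
    apply LocC_sym (r := r) hX (fun q => (q.1, -q.2))
    · intro q q' h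
      have h1 := congrArg Prod.fst h
      have h2 := congrArg Prod.snd h
      exact Prod.ext h1 (neg_injective h2)
    · intro q
      exact hnorm _ _ _ _ (by ring)
    · intro q hq
      rw [hT2, Finset.mem_filter] at hq
      obtain ⟨a1, a2, a3⟩ := hS q hq.1
      exact ⟨a1, a2, a3, hq.2⟩
  have c3 : (T3.card : ℝ) ≤ 35 * X := by
    apply LocC_sym (r := r) hX (fun q => (q.2, q.1))
    · intro q q' h
      have h1 := congrArg Prod.fst h
      have h2 := congrArg Prod.snd h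
      exact Prod.ext h2 h1
    · intro q
      exact hnorm _ _ _ _ (by ring)
    · intro q hq
      rw [hT3, Finset.mem_filter] at hq
      obtain ⟨a1, a2, a3⟩ := hS q hq.1
      exact ⟨a1, a2, a3, hq.2⟩
  have c4 : (T4.card : ℝ) ≤ 35 * X := by
    apply LocC_sym (r := r) hX (fun q => (q.2, -q.1))
    · intro q q' h
      have h1 := congrArg Prod.fst h
      have h2 := congrArg Prod.snd h
      exact Prod.ext (neg_injective h2) h1
    · intro q
      exact hnorm _ _ _ _ (by ring)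
    · intro q hq
      rw [hT4, Finset.mem_filter] at hq
      obtain ⟨a1, a2, a3⟩ := hS q hq.1
      exact ⟨a1, a2, a3, hq.2⟩
  have h1 : S.card ≤ (T1.card + T2.card) + (T3.card + T4.card) :=
    (Finset.card_le_card hcov).trans ((Finset.card_union_le _ _).trans
      (Nat.add_le_add (Finset.card_union_le _ _) (Finset.card_union_le _ _)))
  have h2 : (S.card : ℝ) ≤ (T1.card + T2.card) + (T3.card + T4.card) := by exact_mod_cast h1
  linarith

open Classical in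
theorem card_loc {X : ℝ} (hX : 1 ≤ X) :
    ((((mid X) ×ˢ (mid X)).filter fun m => |‖lat m.1‖ - ‖lat m.2‖| ≤ 1).card : ℝ) ≤
      1000000 * X ^ 3 := by
  have h0 : ((((mid X) ×ˢ (mid X)).filter fun m => |‖lat m.1‖ - ‖lat m.2‖| ≤ 1).card : ℝ) =
      ∑ p ∈ mid X, (((mid X).filter fun q => |‖lat p‖ - ‖lat q‖| ≤ 1).card : ℝ) := by
    rw [Finset.card_filter, Finset.sum_product]
    push_cast
    apply Finset.sum_congr rfl
    intro p _
    rw [Finset.card_filter]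
    push_cast
    rfl
  rw [h0]
  have h1 : ∀ p ∈ mid X, (((mid X).filter fun q => |‖lat p‖ - ‖lat q‖| ≤ 1).card : ℝ) ≤
      140 * X := by
    intro p _
    apply LocC_one hX ‖lat p‖
    intro q hq
    rw [Finset.mem_filter, mem_mid] at hq
    exact ⟨hq.1.2.1, hq.1.2.2, hq.2⟩
  have h2 := Finset.sum_le_sum h1
  refine h2.trans ?_
  rw [Finset.sum_const, nsmul_eq_mul]
  have h3 := card_mid hX
  have hX0 : 0 < X := by linarith
  calc ((mid X).card : ℝ) * (140 * X) ≤ (25 * X ^ 2) * (140 * X) := by gcongr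
    _ = 3500 * X ^ 3 := by ring
    _ ≤ 1000000 * X ^ 3 := by
      have : 0 < X ^ 3 := by positivity
      linarith

end Pool.MPb9430d.Frac
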