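import Pool.Agent.Lib.MP_b9430d_co.Frac.MDefs
import Pool.Agent.Lib.MP_b9430d_co.Frac.Pl
import Pool.Agent.Lib.MP_b9430d_co.Frac.BesB
import Pool.Agent.Lib.MP_b9430d_co.Frac.BesA

/-!
# LocP: trivial bound of a pair term

For `y ≠ 0`, `r = ‖y‖`: `|bes(‖z‖r) bes(‖w‖r)| ≤ 4/(√(‖z‖‖w‖) r) ≤ 4/(X r)` (`abs_bes_le`), and
`0 ≤ gd N y = e^{-s/4} - e^{-s} ≤ min(1, 3s/4)`, `s = π r²/N²`, so `gd² / r ≤ 9/N`: for `r ≥ N` it is `≤ 1/N`; for `r ≤ N`
`gd ≤ (3π/4) r²/N² ≤ 3 r²/N²`, `gd²/r ≤ 9 r³/N⁴ ≤ 9/N` (see the proof of `near_bound` in NearB). So the multiplier is at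
most `36/(N X)` in absolute value (at `y = 0` it is `0`), and `∫ ‖ft F‖² = ∫ F²` (`plancherel`).
-/

set_option autoImplicit false

open MeasureTheory Complex Set Real Filter Topology
open scoped ENNReal

namespace Pool.MPb9430d.Frac

open Pool.MPb9430d Pool.MPb9430d.Rough

private theorem LocP_diff {N r : ℝ} (hN : 1 ≤ N) (hr : 0 < r) :
    |Real.exp (-(π * r ^ 2 / (2 * N) ^ 2)) - Real.exp (-(π * r ^ 2 / N ^ 2))| ≤ 3 * √r / √N := by
  have hN0 : 0 < N := by linarith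
  have hsN : 0 < √N := Real.sqrt_pos.mpr hN0
  have hsr : 0 < √r := Real.sqrt_pos.mpr hr
  set s : ℝ := π * r ^ 2 / N ^ 2 with hs
  have hs0 : 0 ≤ s := by rw [hs]; positivity
  have h4 : π * r ^ 2 / (2 * N) ^ 2 = s / 4 := by
    rw [hs]
    field_simp
    ring
  rw [h4]
  have hle : Real.exp (-s) ≤ Real.exp (-(s / 4)) := Real.exp_le_exp.mpr (by linarith)
  rw [abs_of_nonneg (by linarith)]
  rcases le_total N r with hNr | hrN
  · have h1 : Real.exp (-(s / 4)) ≤ 1 := Real.exp_le_one_iff.mpr (by linarith)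
    have h2 : 0 < Real.exp (-s) := Real.exp_pos _
    have h3 : 1 ≤ √r / √N := by
      rw [one_le_div hsN]
      exact Real.sqrt_le_sqrt hNr
    have h5 : 3 * √r / √N = 3 * (√r / √N) := by ring
    rw [h5]
    linarith
  · have h1 : Real.exp (-(s / 4)) ≤ 1 := Real.exp_le_one_iff.mpr (by linarith)
    have h0 : 0 < Real.exp (-(s / 4)) := Real.exp_pos _
    have h2 : Real.exp (-s) = Real.exp (-(s / 4)) * Real.exp (-(3 * s / 4)) := by
      rw [← Real.exp_add]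
      congr 1
      ring
    have h3 : 1 - 3 * s / 4 ≤ Real.exp (-(3 * s / 4)) := by
      have := Real.add_one_le_exp (-(3 * s / 4))
      linarith
    have h6 : Real.exp (-(s / 4)) - Real.exp (-s) ≤ 3 * s / 4 := by
      rw [h2]
      have h7 : Real.exp (-(s / 4)) * (1 - 3 * s / 4) ≤
          Real.exp (-(s / 4)) * Real.exp (-(3 * s / 4)) := mul_le_mul_of_nonneg_left h3 h0.le
      have h8 : Real.exp (-(s / 4)) * (3 * s / 4) ≤ 1 * (3 * s / 4) :=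
        mul_le_mul_of_nonneg_right h1 (by linarith)
      nlinarith
    refine h6.trans ?_
    have hq0 : 0 ≤ √r / √N := by positivity
    have hq1 : √r / √N ≤ 1 := by
      rw [div_le_one hsN]
      exact Real.sqrt_le_sqrt hrN
    have hs4 : s = π * (√r / √N) ^ 4 := by
      have e1 : (√r) ^ 4 = r ^ 2 := by
        rw [show (√r) ^ 4 = ((√r) ^ 2) ^ 2 by ring, Real.sq_sqrt hr.le]
      have e2 : (√N) ^ 4 = N ^ 2 := by
        rw [show (√N) ^ 4 = ((√N) ^ 2) ^ 2 by ring, Real.sq_sqrt hN0.le]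
      rw [hs, div_pow, e1, e2]
      ring
    have h5 : 3 * √r / √N = 3 * (√r / √N) := by ring
    rw [h5, hs4]
    have hq4 : (√r / √N) ^ 4 ≤ √r / √N := by
      calc (√r / √N) ^ 4 ≤ (√r / √N) ^ 1 := pow_le_pow_of_le_one hq0 hq1 (by norm_num)
        _ = √r / √N := pow_one _
    have hpi : π ≤ 4 := Real.pi_le_four
    have hpi0 : 0 < π := Real.pi_pos
    nlinarith [mul_nonneg hpi0.le hq0]

private theorem LocP_bes {X r : ℝ} {z : ℂ} (hX : 1 ≤ X) (hr : 0 < r) (hz : X < ‖z‖) :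
    |bes (‖z‖ * r)| ≤ 2 / (√X * √r) := by
  have hX0 : 0 < X := by linarith
  have hz0 : 0 < ‖z‖ := by linarith
  refine (abs_bes_le (mul_pos hz0 hr)).trans ?_
  rw [← Real.sqrt_mul hX0.le]
  refine div_le_div_of_nonneg_left (by norm_num) (Real.sqrt_pos.mpr (mul_pos hX0 hr)) ?_
  exact Real.sqrt_le_sqrt (mul_le_mul_of_nonneg_right hz.le hr.le)

private theorem LocP_mult {N X : ℝ} (hN : 1 ≤ N) (hX : 1 ≤ X) {z w : ℂ} (hz : X < ‖z‖)
    (hw : X < ‖w‖) (y : ℂ) :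
    |bes (‖z‖ * ‖y‖) * bes (‖w‖ * ‖y‖) * gd N y ^ 2| ≤ 36 / (N * X) := by
  have hN0 : 0 < N := by linarith
  have hX0 : 0 < X := by linarith
  have hsN : 0 < √N := Real.sqrt_pos.mpr hN0
  have hsX : 0 < √X := Real.sqrt_pos.mpr hX0
  rcases eq_or_ne y 0 with rfl | hy
  · have : gd N 0 = 0 := by simp [gd, gh]
    rw [this]
    norm_num
    positivity
  have hr : 0 < ‖y‖ := norm_pos_iff.mpr hy
  have hsr : 0 < √‖y‖ := Real.sqrt_pos.mpr hr
  have h1 := LocP_bes hX hr hz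
  have h2 := LocP_bes hX hr hw
  have h3 : |gd N y| ≤ 3 * √‖y‖ / √N := LocP_diff hN hr
  have h4 : |gd N y| ^ 2 ≤ (3 * √‖y‖ / √N) ^ 2 := pow_le_pow_left₀ (abs_nonneg _) h3 2
  rw [abs_mul, abs_mul, abs_pow]
  calc |bes (‖z‖ * ‖y‖)| * |bes (‖w‖ * ‖y‖)| * |gd N y| ^ 2
      ≤ (2 / (√X * √‖y‖)) * (2 / (√X * √‖y‖)) * (3 * √‖y‖ / √N) ^ 2 :=
        mul_le_mul (mul_le_mul h1 h2 (abs_nonneg _) (by positivity)) h4 (by positivity)
          (by positivity)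
    _ = 36 / ((√N) ^ 2 * (√X) ^ 2) := by
        field_simp
        ring
    _ = 36 / (N * X) := by
        rw [Real.sq_sqrt hN0.le, Real.sq_sqrt hX0.le]

theorem jj_le {F : ℂ → ℝ} (hm : Measurable F) (hF : Integrable F) (hb : ∀ x, |F x| ≤ 1)
    {N X : ℝ} (hN : 1 ≤ N) (hX : 1 ≤ X) {z w : ℂ} (hz : X < ‖z‖) (hw : X < ‖w‖) :
    |jj N F z w| ≤ 36 / (N * X) * ∫ x, (F x) ^ 2 := by
  obtain ⟨hI, hP⟩ := plancherel hm hF hb
  unfold jj
  rw [← hP, ← integral_const_mul, ← Real.norm_eq_abs]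
  refine norm_integral_le_of_norm_le (hI.const_mul _) (Eventually.of_forall fun y => ?_)
  rw [Real.norm_eq_abs, abs_mul, abs_of_nonneg (by positivity : (0 : ℝ) ≤ ‖ft F y‖ ^ 2)]
  exact mul_le_mul_of_nonneg_right (LocP_mult hN hX hz hw y) (by positivity)

end Pool.MPb9430d.Frac
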