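import Pool.Agent.Lib.MP_b9430d_co.Frac.GauM
import Pool.Agent.Lib.MP_b9430d_co.Frac.IncB

/-!
# Low: low frequencies

`qf (gau N) F = ∫_x F x (∫_y gau N (x-y) F y)` and, for `F = inc E h = chi E (· - h) - chi E`, the inner integral is
`∫_y (gau N (x - y - h) - gau N (x - y)) chi E y dy`, of absolute value at most `8 N³ ‖h‖ volume.real E` (`gau_lip`).
Multiply by `∫ |F| = D E h` (`inc_facts`).
-/

set_option autoImplicit false

open MeasureTheory Complex Set Real Filter Topology
open scoped ENNReal

namespace Pool.MPb9430d.Frac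

open Pool.MPb9430d Pool.MPb9430d.Rough

theorem low_bound {E : Set ℂ} (hE : MeasurableSet E) (hfin : volume E ≠ ∞) {N : ℝ} (hN : 0 < N)
    (h : ℂ) : |qf (gau N) (inc E h)| ≤ 8 * N ^ 3 * ‖h‖ * volume.real E * D E h := by
  obtain ⟨hFm, hFi, hF1, hFabs, -⟩ := inc_facts hE hfin h
  obtain ⟨c, hc⟩ : ∃ c : ℂ → ℝ, c = E.indicator (fun _ => (1 : ℝ)) := ⟨_, rfl⟩
  have hci : Integrable c := by
    rw [hc, integrable_indicator_iff hE]
    exact integrableOn_const hfin
  have hc0 : ∀ y, 0 ≤ c y := by
    intro y
    rw [hc]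
    exact indicator_nonneg (fun _ _ => zero_le_one) y
  have hcint : ∫ y, c y = volume.real E := by
    rw [hc]
    exact integral_indicator_one hE
  have hinc : ∀ y, inc E h y = c (y - h) - c y := by
    intro y
    rw [hc]
    rfl
  have hgle : ∀ x : ℂ, ‖gau N x‖ ≤ N ^ 2 := by
    intro x
    rw [Real.norm_eq_abs, abs_of_nonneg (gau_nonneg N x)]
    unfold gau
    have h1 : Real.exp (-(π * N ^ 2 * ‖x‖ ^ 2)) ≤ 1 := by
      rw [Real.exp_le_one_iff]
      have : 0 ≤ π * N ^ 2 * ‖x‖ ^ 2 := by positivity
      linarith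
    nlinarith [sq_nonneg N]
  have hgi : ∀ (x : ℂ) (g : ℂ → ℝ), Integrable g → Integrable fun y => gau N (x - y) * g y := by
    intro x g hg
    refine hg.bdd_mul (c := N ^ 2) ?_ (Eventually.of_forall fun y => hgle _)
    exact ((continuous_gau N).comp (continuous_const.sub continuous_id)).aestronglyMeasurable
  have hM : 0 ≤ 8 * N ^ 3 * ‖h‖ := by positivity
  have hG : ∀ x, |∫ y, gau N (x - y) * inc E h y| ≤ 8 * N ^ 3 * ‖h‖ * volume.real E := by
    intro x
    have h1 : ∫ y, gau N (x - y) * inc E h y =
        ∫ y, (gau N (x - (y + h)) - gau N (x - y)) * c y := by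
      have e1 : ∫ y, gau N (x - y) * c (y - h) = ∫ y, gau N (x - (y + h)) * c y := by
        rw [← integral_add_right_eq_self (fun y => gau N (x - y) * c (y - h)) h]
        refine integral_congr_ae (Eventually.of_forall fun y => ?_)
        show gau N (x - (y + h)) * c (y + h - h) = _
        rw [add_sub_cancel_right]
      have e2 : ∀ y, gau N (x - y) * inc E h y =
          gau N (x - y) * c (y - h) - gau N (x - y) * c y := by
        intro y
        rw [hinc y]
        ring
      have i1 : Integrable fun y => gau N (x - y) * c (y - h) := hgi x _ (hci.comp_sub_right h)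
      have i2 : Integrable fun y => gau N (x - y) * c y := hgi x _ hci
      have i3 : Integrable fun y => gau N (x - (y + h)) * c y := by
        have h4 := hgi (x - h) _ hci
        refine h4.congr (Eventually.of_forall fun y => ?_)
        show gau N (x - h - y) * c y = gau N (x - (y + h)) * c y
        rw [show x - h - y = x - (y + h) by ring]
      rw [integral_congr_ae (Eventually.of_forall e2), integral_sub i1 i2, e1,
        ← integral_sub i3 i2]
      refine integral_congr_ae (Eventually.of_forall fun y => ?_)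
      show _ = (gau N (x - (y + h)) - gau N (x - y)) * c y
      ring
    rw [h1, ← Real.norm_eq_abs]
    have h2 : 8 * N ^ 3 * ‖h‖ * volume.real E = ∫ y, 8 * N ^ 3 * ‖h‖ * c y := by
      rw [integral_const_mul, hcint]
    rw [h2]
    refine norm_integral_le_of_norm_le (hci.const_mul _) (Eventually.of_forall fun y => ?_)
    rw [Real.norm_eq_abs, abs_mul, abs_of_nonneg (hc0 y)]
    refine mul_le_mul_of_nonneg_right ?_ (hc0 y)
    have h3 := gau_lip hN (x - (y + h)) (x - y)
    rwa [show x - (y + h) - (x - y) = -h by ring, norm_neg] at h3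
  unfold qf
  have h1 : ∀ x, ∫ y, inc E h x * (gau N (x - y) * inc E h y) =
      inc E h x * ∫ y, gau N (x - y) * inc E h y := fun x => integral_const_mul _ _
  rw [integral_congr_ae (Eventually.of_forall h1), ← Real.norm_eq_abs]
  have h2 : 8 * N ^ 3 * ‖h‖ * volume.real E * D E h =
      ∫ x, |inc E h x| * (8 * N ^ 3 * ‖h‖ * volume.real E) := by
    rw [integral_mul_const, hFabs]
    ring
  rw [h2]
  refine norm_integral_le_of_norm_le (hFi.abs.mul_const _) (Eventually.of_forall fun x => ?_)
  rw [Real.norm_eq_abs, abs_mul]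
  exact mul_le_mul_of_nonneg_left (hG x) (abs_nonneg _)

end Pool.MPb9430d.Frac
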