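import Pool.Agent.Lib.MP_b9430d_co.Frac.Defs

/-!
# Measurable Steinhaus sets, the middle range of lattice distances: definitions

Paper proof: /team-store/STEIN_MID.md.
-/

set_option autoImplicit false

open MeasureTheory Complex Set Real Filter Topology
open scoped ENNReal

namespace Pool.MPb9430d.Frac

open Pool.MPb9430d Pool.MPb9430d.Rough

/-- The double circle mean of `gau N`: mean of `gau N (p + rot α * z + rot φ * w)` over `α, φ`. -/
noncomputable def cc (N : ℝ) (z w p : ℂ) : ℝ :=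
  (2 * π)⁻¹ * ∫ φ in (-π)..π, cir N z (p + rot φ * w)

/-- The Littlewood-Paley kernel. -/
noncomputable def dg (N : ℝ) (x : ℂ) : ℝ := gau (2 * N) x - gau N x

/-- Its Fourier transform. -/
noncomputable def gd (N : ℝ) (y : ℂ) : ℝ := gh (2 * N) y - gh N y

/-- The convolution of `dg N` with `F`. -/
noncomputable def dsm (N : ℝ) (F : ℂ → ℝ) (y : ℂ) : ℝ := ∫ t, dg N (y - t) * F t

/-- The double circle mean of `dg N`. -/
noncomputable def dcc (N : ℝ) (z w p : ℂ) : ℝ := cc (2 * N) z w p - cc N z w p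

open Classical in
/-- The lattice points with `X < ‖lat p‖ ≤ 2 X`. -/
noncomputable def mid (X : ℝ) : Finset (ℤ × ℤ) := (near (2 * X)).filter fun p => X < ‖lat p‖

/-- The mean of `dg N` over the circle of radius `s` with centre `p`. -/
noncomputable def gam (N : ℝ) (p : ℂ) (s : ℝ) : ℝ := cir (2 * N) (s : ℂ) p - cir N (s : ℂ) p

/-- The weight `((s² - t²)(T² - s²))^(-1/2)`. -/
noncomputable def wt (t T s : ℝ) : ℝ := 1 / √((s ^ 2 - t ^ 2) * (T ^ 2 - s ^ 2))

/-- The decay function `(1 + x)^(-3/2)`. -/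
noncomputable def kap (x : ℝ) : ℝ := (1 + x) ^ (-(3 / 2) : ℝ)

/-- The Littlewood-Paley piece of the quadratic form of a circle mean. -/
noncomputable def bp (N : ℝ) (F : ℂ → ℝ) (p : ℤ × ℤ) : ℝ :=
  qf (cir (2 * N) (lat p)) F - qf (cir N (lat p)) F

/-- The quadratic form of two circle means on the Fourier side. -/
noncomputable def jj (N : ℝ) (F : ℂ → ℝ) (z w : ℂ) : ℝ :=
  ∫ y, bes (‖z‖ * ‖y‖) * bes (‖w‖ * ‖y‖) * gd N y ^ 2 * ‖ft F y‖ ^ 2

theorem mem_mid {X : ℝ} {p : ℤ × ℤ} : p ∈ mid X ↔ p ≠ 0 ∧ X < ‖lat p‖ ∧ ‖lat p‖ ≤ 2 * X := by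
  classical
  rw [mid, Finset.mem_filter, mem_near]
  tauto

theorem kap_nonneg {x : ℝ} (hx : 0 ≤ x) : 0 ≤ kap x := Real.rpow_nonneg (by linarith) _

end Pool.MPb9430d.Frac
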