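import Pool.Agent.Lib.MP_b9430d_co.Frac.QfF
import Pool.Agent.Lib.MP_b9430d_co.Frac.Pl
import Pool.Agent.Lib.MP_b9430d_co.Frac.BesB
import Pool.Agent.Lib.MP_b9430d_co.Frac.LatS

/-!
# NearB: the near lattice points act as a small multiplier

By `qf_cir` the sum is `∫ (∑_{p ∈ near X} bes(‖lat p‖‖y‖)) (gh (2N) y - gh N y) ‖ft F y‖² dy` (finite sums and
differences of integrals: `integral_finset_sum`, `integral_sub`, `integrable_bes_gh`). For `y ≠ 0`, `r = ‖y‖`:
`|∑ bes| ≤ ∑ 2/√(‖lat p‖ r) ≤ 16 X√X / √r` (`abs_bes_le`, `sum_near`), and with `s = π r²/N²`: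
`0 ≤ gh (2N) y - gh N y = e^{-s/4} - e^{-s} ≤ min(1, 3s/4)`, so `(gh (2N) y - gh N y)/√r ≤ 3/√N`:
for `r ≥ N` it is `≤ 1/√N`; for `r ≤ N` it is `≤ (3π/4) r^{3/2} N^{-2} ≤ 3 N^{-1/2}`.
(`e^{-s/4} - e^{-s} = e^{-s/4}(1 - e^{-3s/4}) ≤ 3s/4`.) So the multiplier is `≤ 48 X √X/√N` in absolute value; for
`y = 0` it is `0` (`gh (2N) 0 = gh N 0`). Conclude with `plancherel` (`integral_mono_of_nonneg` /
`norm_integral_le_of_norm_le`).
-/

set_option autoImplicit false

open MeasureTheory Complex Set Real Filter Topology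
open scoped ENNReal

namespace Pool.MPb9430d.Frac

open Pool.MPb9430d Pool.MPb9430d.Rough

private theorem NearB_diff {N r : ℝ} (hN : 1 ≤ N) (hr : 0 < r) :
    |Real.exp (-(π * r ^ 2 / (2 * N) ^ 2)) - Real.exp (-(π * r ^ 2 / N ^ 2))| ≤ 3 * √r / √N := by
  have hN0 : 0 < N := by linarith
  have hsN : 0 < √N := Real.sqrt_pos.mpr hN0
  have hsr : 0 < √r := Real.sqrt_pos.mpr hr
  set s : ℝ := π * r ^ 2 / N ^ 2 with hs
  have hs0 : 0 ≤ s := by rw [hs]; positivity
  have h4 : π * r ^ 2 / (2 * N) ^ 2 = s / 4 := by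
    rw [hs]
    field_simp
    ring
  rw [h4]
  have hle : Real.exp (-s) ≤ Real.exp (-(s / 4)) := Real.exp_le_exp.mpr (by linarith)
  rw [abs_of_nonneg (by linarith)]
  rcases le_total N r with hNr | hrN
  · have h1 : Real.exp (-(s / 4)) ≤ 1 := Real.exp_le_one_iff.mpr (by linarith)
    have h2 : 0 < Real.exp (-s) := Real.exp_pos _
    have h3 : 1 ≤ √r / √N := by
      rw [one_le_div hsN]
      exact Real.sqrt_le_sqrt hNr
    have h5 : 3 * √r / √N = 3 * (√r / √N) := by ring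
    rw [h5]
    linarith
  · have h1 : Real.exp (-(s / 4)) ≤ 1 := Real.exp_le_one_iff.mpr (by linarith)
    have h0 : 0 < Real.exp (-(s / 4)) := Real.exp_pos _
    have h2 : Real.exp (-s) = Real.exp (-(s / 4)) * Real.exp (-(3 * s / 4)) := by
      rw [← Real.exp_add]
      congr 1
      ring
    have h3 : 1 - 3 * s / 4 ≤ Real.exp (-(3 * s / 4)) := by
      have := Real.add_one_le_exp (-(3 * s / 4))
      linarith
    have h6 : Real.exp (-(s / 4)) - Real.exp (-s) ≤ 3 * s / 4 := by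
      rw [h2]
      have h7 : Real.exp (-(s / 4)) * (1 - 3 * s / 4) ≤
          Real.exp (-(s / 4)) * Real.exp (-(3 * s / 4)) := mul_le_mul_of_nonneg_left h3 h0.le
      have h8 : Real.exp (-(s / 4)) * (3 * s / 4) ≤ 1 * (3 * s / 4) :=
        mul_le_mul_of_nonneg_right h1 (by linarith)
      nlinarith
    refine h6.trans ?_
    have hq0 : 0 ≤ √r / √N := by positivity
    have hq1 : √r / √N ≤ 1 := by
      rw [div_le_one hsN]
      exact Real.sqrt_le_sqrt hrN
    have hs4 : s = π * (√r / √N) ^ 4 := by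
      have e1 : (√r) ^ 4 = r ^ 2 := by
        rw [show (√r) ^ 4 = ((√r) ^ 2) ^ 2 by ring, Real.sq_sqrt hr.le]
      have e2 : (√N) ^ 4 = N ^ 2 := by
        rw [show (√N) ^ 4 = ((√N) ^ 2) ^ 2 by ring, Real.sq_sqrt hN0.le]
      rw [hs, div_pow, e1, e2]
      ring
    have h5 : 3 * √r / √N = 3 * (√r / √N) := by ring
    rw [h5, hs4]
    have hq4 : (√r / √N) ^ 4 ≤ √r / √N := by
      calc (√r / √N) ^ 4 ≤ (√r / √N) ^ 1 := pow_le_pow_of_le_one hq0 hq1 (by norm_num)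
        _ = √r / √N := pow_one _
    have hpi : π ≤ 4 := Real.pi_le_four
    have hpi0 : 0 < π := Real.pi_pos
    nlinarith [mul_nonneg hpi0.le hq0]

private theorem NearB_mult {N X : ℝ} (hN : 1 ≤ N) (hX : 1 ≤ X) (y : ℂ) :
    |(∑ p ∈ near X, bes (‖lat p‖ * ‖y‖)) * (gh (2 * N) y - gh N y)| ≤ 64 * (X * √X) / √N := by
  have hN0 : 0 < N := by linarith
  have hX0 : 0 < X := by linarith
  have hsN : 0 < √N := Real.sqrt_pos.mpr hN0
  have hsX : 0 < √X := Real.sqrt_pos.mpr hX0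
  rcases eq_or_ne y 0 with rfl | hy
  · have : gh (2 * N) 0 - gh N 0 = 0 := by simp [gh]
    rw [this, mul_zero, abs_zero]
    positivity
  have hr : 0 < ‖y‖ := norm_pos_iff.mpr hy
  have hsr : 0 < √‖y‖ := Real.sqrt_pos.mpr hr
  have h1 : |∑ p ∈ near X, bes (‖lat p‖ * ‖y‖)| ≤ 2 / √‖y‖ * (8 * (X * √X)) := by
    refine (Finset.abs_sum_le_sum_abs _ _).trans ?_
    refine le_trans ?_ (mul_le_mul_of_nonneg_left (sum_near hX) (by positivity : 0 ≤ 2 / √‖y‖))
    rw [Finset.mul_sum]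
    refine Finset.sum_le_sum fun p hp => ?_
    have hp0 : 0 < ‖lat p‖ := lt_of_lt_of_le one_pos (one_le_norm_lat (mem_near.mp hp).1)
    refine (abs_bes_le (mul_pos hp0 hr)).trans (le_of_eq ?_)
    rw [Real.sqrt_mul hp0.le]
    have : 0 < √‖lat p‖ := Real.sqrt_pos.mpr hp0
    field_simp
  have h2 : |gh (2 * N) y - gh N y| ≤ 3 * √‖y‖ / √N := NearB_diff hN hr
  rw [abs_mul]
  calc |∑ p ∈ near X, bes (‖lat p‖ * ‖y‖)| * |gh (2 * N) y - gh N y|
      ≤ (2 / √‖y‖ * (8 * (X * √X))) * (3 * √‖y‖ / √N) :=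
        mul_le_mul h1 h2 (abs_nonneg _) (by positivity)
    _ = 48 * (X * √X) / √N := by
        field_simp
        ring
    _ ≤ 64 * (X * √X) / √N := by
        apply div_le_div_of_nonneg_right _ hsN.le
        have : 0 ≤ X * √X := by positivity
        linarith

theorem near_bound {F : ℂ → ℝ} (hm : Measurable F) (hF : Integrable F) (hb : ∀ x, |F x| ≤ 1)
    {N X : ℝ} (hN : 1 ≤ N) (hX : 1 ≤ X) :
    |∑ p ∈ near X, (qf (cir (2 * N) (lat p)) F - qf (cir N (lat p)) F)| ≤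
      64 * (X * √X) / √N * ∫ x, (F x) ^ 2 := by
  have hN0 : 0 < N := by linarith
  obtain ⟨hI, hP⟩ := plancherel hm hF hb
  have hsum : ∑ p ∈ near X, (qf (cir (2 * N) (lat p)) F - qf (cir N (lat p)) F) =
      ∫ y, ((∑ p ∈ near X, bes (‖lat p‖ * ‖y‖)) * (gh (2 * N) y - gh N y)) * ‖ft F y‖ ^ 2 := by
    have h1 : ∀ p ∈ near X, qf (cir (2 * N) (lat p)) F - qf (cir N (lat p)) F =
        ∫ y, (bes (‖lat p‖ * ‖y‖) * gh (2 * N) y * ‖ft F y‖ ^ 2 -
          bes (‖lat p‖ * ‖y‖) * gh N y * ‖ft F y‖ ^ 2) := by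
      intro p _
      rw [qf_cir (by linarith : 0 < 2 * N) (lat p) hF, qf_cir hN0 (lat p) hF,
        integral_sub (integrable_bes_gh (by linarith) _ hF) (integrable_bes_gh hN0 _ hF)]
    rw [Finset.sum_congr rfl h1, ← integral_finset_sum]
    · refine integral_congr_ae (Eventually.of_forall fun y => ?_)
      simp only
      rw [Finset.sum_mul, Finset.sum_mul]
      refine Finset.sum_congr rfl fun p _ => ?_
      ring
    · intro p _
      exact (integrable_bes_gh (by linarith) _ hF).sub (integrable_bes_gh hN0 _ hF)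
  rw [hsum, ← hP, ← integral_const_mul]
  rw [← Real.norm_eq_abs]
  refine norm_integral_le_of_norm_le (hI.const_mul _) (Eventually.of_forall fun y => ?_)
  rw [Real.norm_eq_abs, abs_mul, abs_of_nonneg (by positivity : (0 : ℝ) ≤ ‖ft F y‖ ^ 2)]
  exact mul_le_mul_of_nonneg_right (NearB_mult hN hX y) (by positivity)

end Pool.MPb9430d.Frac
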