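import Pool.Agent.Lib.MP_b9430d_co.Frac.Defs

/-!
# Tile0: the increments sum to zero over every rotated lattice

For almost every `x` (for fixed `θ`) both `{p | x + rot θ * lat p ∈ E}` and `{p | x - h + rot θ * lat p ∈ E}` have
exactly `n` elements (`hT θ` at `x` and at `x - h`: `(measurePreserving_sub_right volume h).quasiMeasurePreserving.ae`).
For such `x` the function `p ↦ inc E h (x + rot θ * lat p)` is the difference of the indicator functions of the finite
sets `A = {p | x + rot θ * lat p - h ∈ E}` and `B = {p | x + rot θ * lat p ∈ E}`, each with `n` elements, so it has finite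
support and sum `n - n = 0` (`hasSum_sum_of_ne_finset_zero`), and `‖inc‖ₑ ≤ 1_A + 1_B`, so the sum of the norms is at
most `2 n` (see `tsum_ind`, `tsum_ind_of_encard` in Rough/Escape).
-/

set_option autoImplicit false

open MeasureTheory Complex Set Real Filter Topology
open scoped ENNReal

namespace Pool.MPb9430d.Frac

open Pool.MPb9430d Pool.MPb9430d.Rough

private theorem tile0_hasSum {E : Set ℂ} {n : ℕ} {g : ℤ × ℤ → ℂ}
    (h : {p : ℤ × ℤ | g p ∈ E}.encard = n) :
    HasSum (fun p : ℤ × ℤ => E.indicator (fun _ => (1 : ℝ)) (g p)) n := by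
  have hfin : {p : ℤ × ℤ | g p ∈ E}.Finite := by
    apply Set.finite_of_encard_eq_coe h
  have hcard : hfin.toFinset.card = n := by
    rw [hfin.encard_eq_coe_toFinset_card] at h
    exact_mod_cast h
  have h0 : ∀ p ∉ hfin.toFinset, E.indicator (fun _ => (1 : ℝ)) (g p) = 0 := by
    intro p hp
    rw [Set.Finite.mem_toFinset] at hp
    exact indicator_of_notMem (s := E) (a := g p) hp (fun _ => (1 : ℝ))
  have hs : HasSum (fun p : ℤ × ℤ => E.indicator (fun _ => (1 : ℝ)) (g p))
      (∑ p ∈ hfin.toFinset, E.indicator (fun _ => (1 : ℝ)) (g p)) :=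
    hasSum_sum_of_ne_finset_zero h0
  have he : ∑ p ∈ hfin.toFinset, E.indicator (fun _ => (1 : ℝ)) (g p) = n := by
    rw [Finset.sum_congr rfl (g := fun _ => (1 : ℝ))]
    · rw [Finset.sum_const, hcard]
      simp
    · intro p hp
      rw [Set.Finite.mem_toFinset] at hp
      exact indicator_of_mem (s := E) (a := g p) hp (fun _ => (1 : ℝ))
  rw [he] at hs
  exact hs

private theorem tile0_enorm (E : Set ℂ) (h x : ℂ) : ‖inc E h x‖ₑ ≤ ind E (x - h) + ind E x := by
  unfold inc
  by_cases h1 : x - h ∈ E <;> by_cases h2 : x ∈ E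
  · rw [indicator_of_mem h1, indicator_of_mem h2]
    simp
  · rw [indicator_of_mem h1, indicator_of_notMem h2, ind_of_mem h1]
    simp
  · rw [indicator_of_notMem h1, indicator_of_mem h2, ind_of_mem h2]
    simp
  · rw [indicator_of_notMem h1, indicator_of_notMem h2]
    simp

theorem tile_inc {E : Set ℂ} {n : ℕ} (hT : Tile E n) (h : ℂ) (θ : ℝ) :
    ∀ᵐ x : ℂ, HasSum (fun p : ℤ × ℤ => inc E h (x + rot θ * lat p)) 0 ∧
      ∑' p : ℤ × ℤ, ‖inc E h (x + rot θ * lat p)‖ₑ ≤ 2 * n := by
  have h1 := hT θ
  have h2 : ∀ᵐ x : ℂ, {p : ℤ × ℤ | (x - h) + rot θ * lat p ∈ E}.encard = n :=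
    (measurePreserving_sub_right volume h).quasiMeasurePreserving.ae h1
  filter_upwards [h1, h2] with x hB hA
  have hA' : {p : ℤ × ℤ | x + rot θ * lat p - h ∈ E}.encard = n := by
    rw [← hA]
    congr 1
    ext p
    rw [Set.mem_ofPred_eq, Set.mem_ofPred_eq,
      show x + rot θ * lat p - h = x - h + rot θ * lat p by ring]
  constructor
  · have hs := (tile0_hasSum hA').sub (tile0_hasSum hB)
    rw [sub_self] at hs
    exact hs
  · calc ∑' p : ℤ × ℤ, ‖inc E h (x + rot θ * lat p)‖ₑ
        ≤ ∑' p : ℤ × ℤ, (ind E (x - h + rot θ * lat p) + ind E (x + rot θ * lat p)) := by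
          refine ENNReal.tsum_le_tsum fun p => ?_
          refine (tile0_enorm E h _).trans ?_
          rw [show x + rot θ * lat p - h = x - h + rot θ * lat p by ring]
      _ = n + n := by
          rw [ENNReal.tsum_add, tsum_ind_of_encard hA, tsum_ind_of_encard hB]
      _ = 2 * n := by ring

end Pool.MPb9430d.Frac
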