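import Pool.Agent.Lib.MP_b9430d_co.Frac.Trip
import Pool.Agent.Lib.MP_b9430d_co.Frac.Tile0
import Pool.Agent.Lib.MP_b9430d_co.Frac.IncB

/-!
# SumZ: the quadratic forms of all circle means sum to zero

`F = inc E h`, `μ` the product measure of `Trip`, `Φ_p(x, φ, y) = F(x) gau N (x-y) F(y + rot φ * lat p)`.
`∑_p ∫ |Φ_p| dμ = ∫∫∫ |F(x)| gau N (x-y) ∑_p |F(y + rot φ lat p)| ≤ 2 n · 2π ∫ |F| < ∞` (`lintegral_tsum`,
`tile_inc`: for every `φ` the inner sum is `≤ 2n` for a.e. `y`), so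
`MeasureTheory.hasSum_integral_of_summable_integral_norm` (integrability of each `Φ_p`: `integrable_triple`) gives
`HasSum (fun p => ∫ Φ_p dμ) (∫ ∑' p, Φ_p dμ)`, and `∑' p, Φ_p = F(x) gau N (x-y) ∑' p, F(y + rot φ lat p) = 0` for
`μ`-almost every `(x, φ, y)` (again `tile_inc` and Fubini for null sets: `Measure.ae_prod_mem_iff_ae_ae_mem` or
`measure_prod_null`; the set where the sum is not `0` is measurable, or use `ae_of_ae...`). Multiply by `(2π)⁻¹`
(`qf_triple`).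
-/

set_option autoImplicit false

open MeasureTheory Complex Set Real Filter Topology
open scoped ENNReal

namespace Pool.MPb9430d.Frac

open Pool.MPb9430d Pool.MPb9430d.Rough

theorem sum_zero {E : Set ℂ} {n : ℕ} (hE : MeasurableSet E) (hfin : volume E ≠ ∞)
    (hT : Tile E n) (h : ℂ) {N : ℝ} (hN : 0 < N) :
    HasSum (fun p : ℤ × ℤ => qf (cir N (lat p)) (inc E h)) 0 := by
  obtain ⟨hm0, hF0, hb0, -, -⟩ := inc_facts hE hfin h
  obtain ⟨F, hFd⟩ : ∃ F, F = inc E h := ⟨_, rfl⟩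
  have hm : Measurable F := by rw [hFd]; exact hm0
  have hF : Integrable F := by rw [hFd]; exact hF0
  have hb : ∀ x, |F x| ≤ 1 := by rw [hFd]; exact hb0
  rw [← hFd]
  have htile : ∀ θ : ℝ, ∀ᵐ y : ℂ, HasSum (fun p : ℤ × ℤ => F (y + rot θ * lat p)) 0 ∧
      ∑' p : ℤ × ℤ, ‖F (y + rot θ * lat p)‖ₑ ≤ 2 * n := by
    intro θ; rw [hFd]; exact tile_inc hT h θ
  obtain ⟨ν, hν⟩ : ∃ ν : Measure (ℝ × ℂ), ν = (volume.restrict (Ioc (-π) π)).prod volume :=
    ⟨_, rfl⟩
  have : SFinite ν := by rw [hν]; infer_instance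
  obtain ⟨Φ, hΦ⟩ : ∃ Φ : ℤ × ℤ → ℂ × ℝ × ℂ → ℝ, Φ = fun p w =>
    F w.1 * (gau N (w.1 - w.2.2) * F (w.2.2 + rot w.2.1 * lat p)) := ⟨_, rfl⟩
  have hΦi : ∀ p, Integrable (Φ p) (volume.prod ν) := fun p => by
    rw [hΦ, hν]; exact integrable_triple hm hF hb hN (lat p)
  have hq : (fun p : ℤ × ℤ => qf (cir N (lat p)) F) =
      fun p => (2 * π)⁻¹ * ∫ w, Φ p w ∂(volume.prod ν) := by
    funext p
    rw [qf_triple hm hF hb hN (lat p), hΦ, hν]
  have hmv : ∀ p : ℤ × ℤ, Measurable (fun v : ℝ × ℂ => F (v.2 + rot v.1 * lat p)) := by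
    intro p
    refine hm.comp (Continuous.measurable ?_)
    unfold rot
    fun_prop
  have hΦm : ∀ p, Measurable (Φ p) := by
    intro p
    rw [hΦ]
    refine (hm.comp measurable_fst).mul (Measurable.mul ?_ ((hmv p).comp measurable_snd))
    exact (continuous_gau N).measurable.comp
      (measurable_fst.sub (measurable_snd.comp measurable_snd))
  -- finite total mass
  have hgm : Measurable (fun y : ℂ => ‖gau N y‖ₑ) := (continuous_gau N).measurable.enorm
  have hfinite : ∑' p, ∫⁻ w, ‖Φ p w‖ₑ ∂(volume.prod ν) ≠ ∞ := by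
    rw [← lintegral_tsum (fun p => (hΦm p).enorm.aemeasurable),
      lintegral_prod _ (Measurable.tsum fun p => (hΦm p).enorm).aemeasurable]
    have hbound : ∀ x : ℂ, ∫⁻ v, ∑' p, ‖Φ p (x, v)‖ₑ ∂ν ≤
        ‖F x‖ₑ * (((∫⁻ y : ℂ, ‖gau N y‖ₑ) * (2 * n)) * volume (Ioc (-π) π)) := by
      intro x
      have hmx : Measurable (fun v : ℝ × ℂ => ∑' p, ‖Φ p (x, v)‖ₑ) :=
        Measurable.tsum fun p => ((hΦm p).comp measurable_prodMk_left).enorm
      rw [hν, lintegral_prod _ hmx.aemeasurable]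
      have h1 : ∀ φ : ℝ, ∫⁻ y : ℂ, ∑' p, ‖Φ p (x, (φ, y))‖ₑ ≤
          ‖F x‖ₑ * ((∫⁻ y : ℂ, ‖gau N y‖ₑ) * (2 * n)) := by
        intro φ
        have h2 : ∫⁻ y : ℂ, ∑' p, ‖Φ p (x, (φ, y))‖ₑ ≤
            ∫⁻ y : ℂ, ‖F x‖ₑ * (‖gau N (x - y)‖ₑ * (2 * n)) := by
          refine lintegral_mono_ae ?_
          filter_upwards [htile φ] with y hy
          have h3 : ∀ p, ‖Φ p (x, (φ, y))‖ₑ =
              ‖F x‖ₑ * (‖gau N (x - y)‖ₑ * ‖F (y + rot φ * lat p)‖ₑ) := by
            intro p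
            rw [hΦ]
            simp only [enorm_mul]
          simp only [h3, ENNReal.tsum_mul_left]
          gcongr
          exact hy.2
        refine h2.trans_eq ?_
        have hgx : Measurable (fun y : ℂ => ‖gau N (x - y)‖ₑ) :=
          hgm.comp (measurable_const.sub measurable_id)
        rw [lintegral_const_mul _ (hgx.mul_const _), lintegral_mul_const _ hgx,
          lintegral_sub_left_eq_self (fun y : ℂ => ‖gau N y‖ₑ) x]
      refine (lintegral_mono h1).trans_eq ?_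
      rw [lintegral_const, Measure.restrict_apply_univ, mul_assoc]
    refine ne_top_of_le_ne_top ?_ (lintegral_mono hbound)
    rw [lintegral_mul_const _ hm.enorm]
    have a1 : ∫⁻ x : ℂ, ‖F x‖ₑ ≠ ∞ := hF.2.ne
    have a2 : ∫⁻ y : ℂ, ‖gau N y‖ₑ ≠ ∞ := (integrable_gau hN).2.ne
    have a3 : volume (Ioc (-π) π) ≠ ∞ := by
      rw [Real.volume_Ioc]; exact ENNReal.ofReal_ne_top
    refine ENNReal.mul_ne_top a1 (ENNReal.mul_ne_top (ENNReal.mul_ne_top a2 ?_) a3)
    exact ENNReal.mul_ne_top (by norm_num) (ENNReal.natCast_ne_top n)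
  have hsum : Summable fun p => ∫ w, ‖Φ p w‖ ∂(volume.prod ν) := by
    have h1 := ENNReal.summable_toReal hfinite
    refine h1.congr ?_
    intro p
    rw [integral_norm_eq_lintegral_enorm (hΦi p).1]
  have hmain := hasSum_integral_of_summable_integral_norm hΦi hsum
  -- the sum vanishes almost everywhere
  have hae : ∀ᵐ w ∂(volume.prod ν), ∑' p, Φ p w = 0 := by
    have hs : MeasurableSet {v : ℝ × ℂ | ∑' p : ℤ × ℤ, F (v.2 + rot v.1 * lat p) = 0} :=
      measurableSet_eq_fun (Measurable.tsum hmv) measurable_const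
    have h1 : ∀ᵐ v ∂ν, v ∈ {v : ℝ × ℂ | ∑' p : ℤ × ℤ, F (v.2 + rot v.1 * lat p) = 0} := by
      rw [hν, Measure.ae_prod_mem_iff_ae_ae_mem hs]
      refine Filter.Eventually.of_forall fun φ => ?_
      filter_upwards [htile φ] with y hy
      exact hy.1.tsum_eq
    have h2 := (Measure.quasiMeasurePreserving_snd (μ := (volume : Measure ℂ)) (ν := ν)).ae h1
    filter_upwards [h2] with w hw
    rw [hΦ]
    simp only
    rw [tsum_mul_left, tsum_mul_left]
    have hw' : ∑' p : ℤ × ℤ, F (w.2.2 + rot w.2.1 * lat p) = 0 := hw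
    rw [hw', mul_zero, mul_zero]
  rw [integral_eq_zero_of_ae hae] at hmain
  rw [hq]
  have := hmain.mul_left (2 * π)⁻¹
  rwa [mul_zero] at this

end Pool.MPb9430d.Frac
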