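import Pool.Agent.Lib.MP_b9430d_co.Frac.MidP
import Pool.Agent.Lib.MP_b9430d_co.Frac.NearB

/-!
# Mid: all lattice points with `|z| ≤ N^x`, `x < 1/2`

`bp N F p` is by definition the summand. `Y = N^x ≥ 1`, `n` with `2^n ≤ Y < 2^(n+1)` (`exists_nat_pow_near`).
`near (2X) = near X ∪ mid X` (disjoint), so `∑_{near Y} = ∑_{near (Y/2^n)} + ∑_{i=1}^n ∑_{mid (Y/2^i)}` (induction on `n`;
best as an inequality: if `∑_{near (Y/2^n)}` and all `∑_{mid (Y/2^i)}` are `≤ A`, `≤ B` in absolute value, then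
`|∑_{near Y}| ≤ A + n B`). `Y/2^n ∈ [1,2)`: `near_bound`: `≤ 64·2√2/√N D ≤ 192 N^(-1/2) D` (`inc_facts`: `∫F² = D E h`).
`X_i = Y/2^i ∈ [1, Y]`, `X_i² ≤ Y² = N^(2x) ≤ N`: `mid_piece` with `ε = (a-1/2)/2`:
`(∑)² ≤ C (N^(2x-1) + K N^(1/2+ε-a)) D² ≤ C(1+K) N^(-2δ) D²`, `2δ = min (1-2x) ((a-1/2)/2) > 0`, so
`|∑| ≤ √(C(1+K)) N^(-δ) D`. `n ≤ log₂ Y ≤ log N / log 2 ≤ C' N^(δ/2)` (`Real.log_le_rpow_div`). Total `≤ C'' N^(-κ) D` with
`κ = min (δ/2) (1/2)`.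
-/

set_option autoImplicit false

open MeasureTheory Complex Set Real Filter Topology
open scoped ENNReal

namespace Pool.MPb9430d.Frac

open Pool.MPb9430d Pool.MPb9430d.Rough

private theorem Mid_split (N : ℝ) (F : ℂ → ℝ) (Y : ℝ) :
    ∑ p ∈ near Y, bp N F p = ∑ p ∈ near (Y / 2), bp N F p + ∑ p ∈ mid (Y / 2), bp N F p := by
  classical
  have h1 : near Y = near (Y / 2) ∪ mid (Y / 2) := by
    ext p
    rw [Finset.mem_union, mem_near, mem_near, mem_mid]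
    constructor
    · rintro ⟨hp, h⟩
      by_cases h2 : ‖lat p‖ ≤ Y / 2
      · exact Or.inl ⟨hp, h2⟩
      · exact Or.inr ⟨hp, not_le.1 h2, by linarith⟩
    · rintro (⟨hp, h⟩ | ⟨hp, h, h'⟩)
      · refine ⟨hp, ?_⟩
        have := norm_nonneg (lat p)
        linarith
      · exact ⟨hp, by linarith⟩
  have h2 : Disjoint (near (Y / 2)) (mid (Y / 2)) := by
    rw [Finset.disjoint_left]
    intro p hp hq
    rw [mem_near] at hp
    rw [mem_mid] at hq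
    linarith [hp.2, hq.2.1]
  rw [h1, Finset.sum_union h2]

private theorem Mid_ind {N : ℝ} {F : ℂ → ℝ} {A B Z : ℝ}
    (hA : ∀ Y : ℝ, 1 ≤ Y → Y < 2 → |∑ p ∈ near Y, bp N F p| ≤ A)
    (hB : ∀ X : ℝ, 1 ≤ X → X ≤ Z → |∑ p ∈ mid X, bp N F p| ≤ B) :
    ∀ n : ℕ, ∀ Y : ℝ, 2 ^ n ≤ Y → Y < 2 ^ (n + 1) → Y ≤ Z →
      |∑ p ∈ near Y, bp N F p| ≤ A + n * B := by
  intro n
  induction n with
  | zero =>
    intro Y h1 h2 _
    have := hA Y (by simpa using h1) (by simpa using h2)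
    simpa using this
  | succ n ih =>
    intro Y h1 h2 h3
    have h4 : (1 : ℝ) ≤ 2 ^ n := one_le_pow₀ (by norm_num)
    have h5 : (2 : ℝ) ^ n ≤ Y / 2 := by
      rw [pow_succ] at h1
      linarith
    have h6 : Y / 2 < 2 ^ (n + 1) := by
      rw [pow_succ] at h2
      linarith
    have h7 := ih (Y / 2) h5 h6 (by linarith)
    have h8 := hB (Y / 2) (by linarith) (by linarith)
    rw [Mid_split]
    refine (abs_add_le _ _).trans ?_
    push_cast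
    linarith

private theorem Mid_num {N x η : ℝ} {n : ℕ} (hN : 1 ≤ N) (hx : 0 < x) (hx2 : x < 1 / 2)
    (hη : 0 < η) (hn : (2 : ℝ) ^ n ≤ N ^ x) : (n : ℝ) ≤ 8 / η * N ^ (η / 4) := by
  have h0 : 0 < N := by linarith
  have h1 : Real.log ((2 : ℝ) ^ n) ≤ Real.log (N ^ x) :=
    Real.log_le_log (by positivity) hn
  rw [Real.log_pow, Real.log_rpow h0] at h1
  have h2 : 0 ≤ Real.log N := Real.log_nonneg hN
  have h3 : Real.log N ≤ N ^ (η / 4) / (η / 4) := Real.log_le_rpow_div h0.le (by linarith)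
  have h4 : (1 : ℝ) / 2 ≤ Real.log 2 := by
    have := Real.log_two_gt_d9
    linarith
  have h5 : (n : ℝ) * (1 / 2) ≤ n * Real.log 2 :=
    mul_le_mul_of_nonneg_left h4 (Nat.cast_nonneg n)
  have h6 : x * Real.log N ≤ 1 * Real.log N := mul_le_mul_of_nonneg_right (by linarith) h2
  have h7 : N ^ (η / 4) / (η / 4) = 4 / η * N ^ (η / 4) := by
    field_simp
  have h8 : 8 / η * N ^ (η / 4) = 2 * (4 / η * N ^ (η / 4)) := by ring
  rw [h8, ← h7]
  linarith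

theorem mid_bound {E : Set ℂ} (hE : MeasurableSet E) (hfin : volume E ≠ ∞) {K a x : ℝ}
    (hK : 0 ≤ K) (ha : 1 / 2 < a) (ha1 : a ≤ 1) (hx : 0 < x) (hx2 : x < 1 / 2)
    (hR : Reg E K a) :
    ∃ C κ : ℝ, 0 < C ∧ 0 < κ ∧ ∀ N : ℝ, 1 ≤ N → ∀ h : ℂ,
      |∑ p ∈ near (N ^ x), (qf (cir (2 * N) (lat p)) (inc E h) - qf (cir N (lat p)) (inc E h))| ≤
        C * N ^ (-κ) * D E h := by
  obtain ⟨C0, hC0, hp⟩ := mid_piece (ε := (a - 1 / 2) / 2) (by linarith)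
  obtain ⟨η, hηd⟩ : ∃ η : ℝ, η = min (1 - 2 * x) ((a - 1 / 2) / 2) := ⟨_, rfl⟩
  have hη0 : 0 < η := by
    rw [hηd]
    exact lt_min (by linarith) (by linarith)
  have hη1 : η ≤ 1 - 2 * x := by rw [hηd]; exact min_le_left _ _
  have hη2 : η ≤ (a - 1 / 2) / 2 := by rw [hηd]; exact min_le_right _ _
  refine ⟨192 + 8 / η * √(C0 * (1 + K)), η / 4, by positivity, by linarith, ?_⟩
  intro N hN h
  have hN0 : 0 < N := by linarith
  obtain ⟨hm, hi, hb, -, hsq⟩ := inc_facts hE hfin h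
  have hD := D_nonneg E h
  have hA : ∀ Y : ℝ, 1 ≤ Y → Y < 2 → |∑ p ∈ near Y, bp N (inc E h) p| ≤
      192 * N ^ (-(1 / 2) : ℝ) * D E h := by
    intro Y h1 h2
    refine (near_bound hm hi hb hN h1).trans ?_
    rw [hsq]
    refine mul_le_mul_of_nonneg_right ?_ hD
    rw [Real.rpow_neg hN0.le, ← Real.sqrt_eq_rpow, ← div_eq_mul_inv]
    refine div_le_div_of_nonneg_right ?_ (Real.sqrt_nonneg _)
    have h3 : √Y ≤ 3 / 2 := by
      rw [Real.sqrt_le_left (by norm_num)]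
      norm_num
      linarith
    have h4 : Y * √Y ≤ 2 * (3 / 2) :=
      mul_le_mul h2.le h3 (Real.sqrt_nonneg _) (by norm_num)
    linarith
  have hB : ∀ X : ℝ, 1 ≤ X → X ≤ N ^ x → |∑ p ∈ mid X, bp N (inc E h) p| ≤
      √(C0 * (1 + K)) * N ^ (-(η / 2)) * D E h := by
    intro X h1 h2
    have h3 : X ^ 2 ≤ N ^ (2 * x) := by
      calc X ^ 2 ≤ (N ^ x) ^ 2 := pow_le_pow_left₀ (by linarith) h2 2
        _ = N ^ (2 * x) := by
          rw [← Real.rpow_natCast (N ^ x) 2, ← Real.rpow_mul hN0.le]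
          congr 1
          push_cast
          ring
    have h4 : N ^ (2 * x) ≤ N := by
      calc N ^ (2 * x) ≤ N ^ (1 : ℝ) := Real.rpow_le_rpow_of_exponent_le hN (by linarith)
        _ = N := Real.rpow_one N
    have h5 := hp E hE hfin K a hK (by linarith) (by linarith) hR N X h1 (h3.trans h4) h
    have h6 : X ^ 2 / N ≤ N ^ (-η) := by
      calc X ^ 2 / N ≤ N ^ (2 * x) / N := div_le_div_of_nonneg_right h3 hN0.le
        _ = N ^ (2 * x - 1) := by rw [Real.rpow_sub hN0, Real.rpow_one]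
        _ ≤ N ^ (-η) := Real.rpow_le_rpow_of_exponent_le hN (by linarith)
    have h7 : N ^ (1 / 2 + (a - 1 / 2) / 2 - a) ≤ N ^ (-η) :=
      Real.rpow_le_rpow_of_exponent_le hN (by linarith)
    have h8 : X ^ 2 / N + K * N ^ (1 / 2 + (a - 1 / 2) / 2 - a) ≤ (1 + K) * N ^ (-η) := by
      have := mul_le_mul_of_nonneg_left h7 hK
      linarith
    have h9 : (√(C0 * (1 + K)) * N ^ (-(η / 2)) * D E h) ^ 2 =
        C0 * ((1 + K) * N ^ (-η)) * (D E h) ^ 2 := by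
      rw [mul_pow, mul_pow, Real.sq_sqrt (by positivity), ← Real.rpow_natCast (N ^ (-(η / 2))) 2,
        ← Real.rpow_mul hN0.le]
      have : -(η / 2) * ((2 : ℕ) : ℝ) = -η := by
        push_cast
        ring
      rw [this]
      ring
    have h10 : (∑ p ∈ mid X, bp N (inc E h) p) ^ 2 ≤
        (√(C0 * (1 + K)) * N ^ (-(η / 2)) * D E h) ^ 2 := by
      rw [h9]
      refine h5.trans (mul_le_mul_of_nonneg_right (mul_le_mul_of_nonneg_left h8 hC0.le)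
        (sq_nonneg _))
    exact abs_le_of_sq_le_sq h10 (by positivity)
  obtain ⟨n, hn1, hn2⟩ := exists_nat_pow_near (Real.one_le_rpow hN hx.le)
    (one_lt_two : (1 : ℝ) < 2)
  have h1 := Mid_ind hA hB n (N ^ x) hn1 hn2 le_rfl
  have h2 := Mid_num hN hx hx2 hη0 hn1
  have h3 : (n : ℝ) * (√(C0 * (1 + K)) * N ^ (-(η / 2)) * D E h) ≤
      8 / η * N ^ (η / 4) * (√(C0 * (1 + K)) * N ^ (-(η / 2)) * D E h) :=
    mul_le_mul_of_nonneg_right h2 (by positivity)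
  have h4 : N ^ (η / 4) * N ^ (-(η / 2)) = N ^ (-(η / 4)) := by
    rw [← Real.rpow_add hN0]
    congr 1
    ring
  have h5 : N ^ (-(1 / 2) : ℝ) ≤ N ^ (-(η / 4)) :=
    Real.rpow_le_rpow_of_exponent_le hN (by linarith)
  have h6 : 192 * N ^ (-(1 / 2) : ℝ) * D E h ≤ 192 * N ^ (-(η / 4)) * D E h :=
    mul_le_mul_of_nonneg_right (mul_le_mul_of_nonneg_left h5 (by norm_num)) hD
  have h7 : 8 / η * N ^ (η / 4) * (√(C0 * (1 + K)) * N ^ (-(η / 2)) * D E h) =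
      8 / η * √(C0 * (1 + K)) * N ^ (-(η / 4)) * D E h := by
    rw [← h4]
    ring
  calc |∑ p ∈ near (N ^ x), (qf (cir (2 * N) (lat p)) (inc E h) - qf (cir N (lat p)) (inc E h))|
      = |∑ p ∈ near (N ^ x), bp N (inc E h) p| := rfl
    _ ≤ 192 * N ^ (-(1 / 2) : ℝ) * D E h +
        n * (√(C0 * (1 + K)) * N ^ (-(η / 2)) * D E h) := h1
    _ ≤ 192 * N ^ (-(η / 4)) * D E h + 8 / η * √(C0 * (1 + K)) * N ^ (-(η / 4)) * D E h := by
        rw [← h7]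
        exact add_le_add h6 h3
    _ = (192 + 8 / η * √(C0 * (1 + K))) * N ^ (-(η / 4)) * D E h := by ring

end Pool.MPb9430d.Frac
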