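import Pool.Agent.Lib.MP_b9430d_co.Frac.FarB
import Pool.Agent.Lib.MP_b9430d_co.Frac.Mid
import Pool.Agent.Lib.MP_b9430d_co.Frac.SumZ

/-!
# MainH: one Littlewood-Paley piece, exponents above 1/2

`b p = qf (cir (2N) (lat p)) F - qf (cir N (lat p)) F`, `F = inc E h`; `HasSum b 0` (`sum_zero` twice), and
`b 0 = qf (gau (2N)) F - qf (gau N) F` (`cir_zero`). Let `X = N^(3/4 - a/2)`. `b 0 = - ∑_{p ∈ near X} b p -
∑_{‖lat p‖ > X} b p`; the first sum is bounded by `mid_bound`, every finite part of the second by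
`C K N^{1+ε-a}/X D E h = C K N^{1/4 - a/2 + ε} D E h` (`far_bound`) with `ε = (a/2 - 1/4)/2`.
-/

set_option autoImplicit false

open MeasureTheory Complex Set Real Filter Topology
open scoped ENNReal

namespace Pool.MPb9430d.Frac

open Pool.MPb9430d Pool.MPb9430d.Rough

/-- An absolutely convergent series with sum zero: the term at `0` is controlled by a finite set of
terms and the finite sums of the others. -/
private theorem MainH_series {b : ℤ × ℤ → ℝ} (hb : HasSum b 0) (S : Finset (ℤ × ℤ))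
    (hS : (0 : ℤ × ℤ) ∉ S) {A B : ℝ} (hA : |∑ p ∈ S, b p| ≤ A)
    (hB : ∀ T : Finset (ℤ × ℤ), (∀ p ∈ T, p ≠ 0 ∧ p ∉ S) → ∑ p ∈ T, |b p| ≤ B) : |b 0| ≤ A + B := by
  have h1 : ∀ ε : ℝ, 0 < ε → |b 0| ≤ A + B + ε := by
    intro ε hε
    have h2 : ∀ᶠ U : Finset (ℤ × ℤ) in atTop, |∑ p ∈ U, b p| < ε := by
      have h3 := hb.norm
      have h4 : Tendsto (fun U : Finset (ℤ × ℤ) => |∑ p ∈ U, b p|) atTop (𝓝 0) := by
        have h5 : Tendsto (fun U : Finset (ℤ × ℤ) => ∑ p ∈ U, b p) atTop (𝓝 0) := hb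
        simpa using h5.abs
      exact h4.eventually (gt_mem_nhds hε)
    obtain ⟨U, hU⟩ := (h2.and (eventually_ge_atTop (insert 0 S))).exists
    have hU2 : insert 0 S ⊆ U := hU.2
    have h3 : ∑ p ∈ U, b p = ∑ p ∈ U \ insert 0 S, b p + ∑ p ∈ insert 0 S, b p :=
      (Finset.sum_sdiff hU2).symm
    rw [Finset.sum_insert hS] at h3
    have h4 : |∑ p ∈ U \ insert 0 S, b p| ≤ B := by
      refine (Finset.abs_sum_le_sum_abs _ _).trans (hB _ ?_)
      intro p hp
      rw [Finset.mem_sdiff, Finset.mem_insert, not_or] at hp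
      exact hp.2
    have h5 : b 0 = ∑ p ∈ U, b p - ∑ p ∈ U \ insert 0 S, b p - ∑ p ∈ S, b p := by linarith
    rw [h5]
    have h6 := abs_sub (∑ p ∈ U, b p - ∑ p ∈ U \ insert 0 S, b p) (∑ p ∈ S, b p)
    have h7 := abs_sub (∑ p ∈ U, b p) (∑ p ∈ U \ insert 0 S, b p)
    linarith [hU.1]
  exact le_of_forall_pos_le_add h1

theorem main_bound_half {E : Set ℂ} {n : ℕ} (hE : MeasurableSet E) (hfin : volume E ≠ ∞)
    (hT : Tile E n) {K a : ℝ} (hK : 0 ≤ K) (ha : 1 / 2 < a) (ha1 : a ≤ 1) (hR : Reg E K a) :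
    ∃ C κ : ℝ, 0 < C ∧ 0 < κ ∧ ∀ N : ℝ, 1 ≤ N → ∀ h : ℂ,
      |qf (gau (2 * N)) (inc E h) - qf (gau N) (inc E h)| ≤ C * N ^ (-κ) * D E h := by
  set ε : ℝ := (a / 2 - 1 / 4) / 2 with hε
  have hε0 : 0 < ε := by rw [hε]; linarith
  obtain ⟨C₀, hC₀, hfar⟩ := far_bound hε0
  obtain ⟨C₁, κ, hC₁, hκ, hmid⟩ := mid_bound (x := 3 / 4 - a / 2) hE hfin hK ha ha1 (by linarith)
    (by linarith) hR
  refine ⟨C₁ + C₀ * K, min κ ε, by positivity, lt_min hκ hε0, ?_⟩
  intro N hN h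
  have hN0 : 0 < N := by linarith
  have hD := D_nonneg E h
  set X : ℝ := N ^ (3 / 4 - a / 2) with hXdef
  have hX1 : 1 ≤ X := Real.one_le_rpow hN (by linarith)
  have hXN : X ≤ N := by
    calc X ≤ N ^ (1 : ℝ) := Real.rpow_le_rpow_of_exponent_le hN (by linarith)
      _ = N := Real.rpow_one N
  have hX0 : 0 < X := by linarith
  set b : ℤ × ℤ → ℝ := fun p => qf (cir (2 * N) (lat p)) (inc E h) - qf (cir N (lat p)) (inc E h)
    with hbdef
  have hb : HasSum b 0 := by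
    have h1 := (sum_zero hE hfin hT h (N := 2 * N) (by linarith)).sub
      (sum_zero hE hfin hT h (N := N) hN0)
    rw [sub_zero] at h1
    exact h1
  have hb0 : b 0 = qf (gau (2 * N)) (inc E h) - qf (gau N) (inc E h) := by
    have h1 : ∀ M : ℝ, cir M (lat 0) = gau M := by
      intro M
      funext p
      rw [lat_zero, cir_zero]
    rw [hbdef]
    simp only [h1]
  rw [← hb0]
  have hnear : |∑ p ∈ near X, b p| ≤ C₁ * N ^ (-(min κ ε)) * D E h := by
    refine (hmid N hN h).trans ?_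
    apply mul_le_mul_of_nonneg_right _ hD
    apply mul_le_mul_of_nonneg_left _ hC₁.le
    apply Real.rpow_le_rpow_of_exponent_le hN
    have := min_le_left κ ε
    linarith
  have hfar' : ∀ T : Finset (ℤ × ℤ), (∀ p ∈ T, p ≠ 0 ∧ p ∉ near X) →
      ∑ p ∈ T, |b p| ≤ C₀ * K * N ^ (-(min κ ε)) * D E h := by
    intro T hT'
    have h1 := hfar E hE hfin K a hK (by linarith) (by linarith) hR N X hN hX1 hXN h T (by
      intro q hq
      have h2 := hT' q hq
      by_contra h3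
      push Not at h3
      exact h2.2 (mem_near.2 ⟨h2.1, h3⟩))
    refine h1.trans ?_
    apply mul_le_mul_of_nonneg_right _ hD
    rw [mul_div_assoc]
    apply mul_le_mul_of_nonneg_left _ (by positivity)
    rw [hXdef, ← Real.rpow_sub hN0]
    apply Real.rpow_le_rpow_of_exponent_le hN
    have h4 := min_le_right κ ε
    have h5 : ε = (a / 2 - 1 / 4) / 2 := hε
    linarith
  have hfinal := MainH_series hb (near X) (by
    intro h1
    exact (mem_near.1 h1).1 rfl) hnear hfar'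
  calc |b 0| ≤ _ := hfinal
    _ = _ := by ring

end Pool.MPb9430d.Frac
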