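import Pool.Agent.Lib.MP_b9430d_co.Frac.SupS
import Pool.Agent.Lib.MP_b9430d_co.Frac.CsM
import Pool.Agent.Lib.MP_b9430d_co.Frac.LocP
import Pool.Agent.Lib.MP_b9430d_co.Frac.LocC
import Pool.Agent.Lib.MP_b9430d_co.Frac.CcS
import Pool.Agent.Lib.MP_b9430d_co.Frac.DsmL
import Pool.Agent.Lib.MP_b9430d_co.Frac.IncB

/-!
# MidP: the lattice points with `X < |z| ≤ 2X`

`F = inc E h` (`inc_facts`), `D = D E h`. `cs_mid` with `P = mid X`: `(∑ bp)² ≤ D ∑_{(p,q)} jj`. Split the pairs: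
* `|‖lat p‖-‖lat q‖| ≤ 1`: `|jj| ≤ 36/(N X) D` (`jj_le`), at most `10^6 X³` pairs (`card_loc`): `≤ 36·10^6 X²/N D`.
* the others: `jj_eq`: `|jj| ≤ ∫_x |F x| ∫_y |dcc N z w (x-y)| |dsm N F y|`; sum over the pairs inside the integrals (finite
 sums; `continuous_dcc`, `abs_dcc_le`, `integrable_dsm`; see the proof of `far_bound` in FarB): `≤ sup · ∫|F| · ∫|dsm N F| ≤
 C N^(1/2+ε) · D · 8 K N^(-a)` (`sup_s`, `dsm_l1`).
-/

set_option autoImplicit false

open MeasureTheory Complex Set Real Filter Topology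
open scoped ENNReal

namespace Pool.MPb9430d.Frac

open Pool.MPb9430d Pool.MPb9430d.Rough

private theorem MidP_cont {k : ℂ → ℝ} (hk : Continuous k) {B : ℝ} (hB : ∀ p, |k p| ≤ B)
    {s : ℂ → ℝ} (hs : Integrable s) :
    Continuous fun x : ℂ => ∫ y, |k (x - y)| * |s y| := by
  refine continuous_of_dominated (bound := fun y => B * |s y|) ?_ ?_ ?_ ?_
  · intro x
    exact ((hk.comp (continuous_const.sub continuous_id)).abs).aestronglyMeasurable.mul
      hs.abs.aestronglyMeasurable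
  · intro x
    refine Eventually.of_forall fun y => ?_
    rw [Real.norm_eq_abs, abs_mul, abs_abs, abs_abs]
    exact mul_le_mul_of_nonneg_right (hB _) (abs_nonneg _)
  · exact hs.abs.const_mul _
  · refine Eventually.of_forall fun y => ?_
    exact ((hk.comp (continuous_id.sub continuous_const)).abs).mul continuous_const

private theorem MidP_int {k : ℂ → ℝ} (hk : Continuous k) {B : ℝ} (hB : ∀ p, |k p| ≤ B)
    {s : ℂ → ℝ} (hs : Integrable s) (x : ℂ) :
    Integrable fun y : ℂ => |k (x - y)| * |s y| := by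
  refine (hs.abs.const_mul B).mono' ?_ ?_
  · exact ((hk.comp (continuous_const.sub continuous_id)).abs).aestronglyMeasurable.mul
      hs.abs.aestronglyMeasurable
  · refine Eventually.of_forall fun y => ?_
    rw [Real.norm_eq_abs, abs_mul, abs_abs, abs_abs]
    exact mul_le_mul_of_nonneg_right (hB _) (abs_nonneg _)

private theorem MidP_int2 {k : ℂ → ℝ} (hk : Continuous k) {B : ℝ} (hB : ∀ p, |k p| ≤ B)
    {s F : ℂ → ℝ} (hs : Integrable s) (hF : Integrable F) :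
    Integrable fun x : ℂ => |F x| * ∫ y, |k (x - y)| * |s y| := by
  refine (hF.abs.mul_const (B * ∫ y, |s y|)).mono' ?_ ?_
  · exact hF.abs.aestronglyMeasurable.mul (MidP_cont hk hB hs).aestronglyMeasurable
  · refine Eventually.of_forall fun x => ?_
    rw [Real.norm_eq_abs, abs_mul, abs_abs]
    refine mul_le_mul_of_nonneg_left ?_ (abs_nonneg _)
    rw [abs_of_nonneg (integral_nonneg fun y => mul_nonneg (abs_nonneg _) (abs_nonneg _)),
      ← integral_const_mul]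
    refine integral_mono (MidP_int hk hB hs x) (hs.abs.const_mul _) fun y => ?_
    exact mul_le_mul_of_nonneg_right (hB _) (abs_nonneg _)

private theorem MidP_one {k : ℂ → ℝ} (hk : Continuous k) {B : ℝ} (hB : ∀ p, |k p| ≤ B)
    {s F : ℂ → ℝ} (hs : Integrable s) (hF : Integrable F) :
    |∫ x, ∫ y, F x * (k (x - y) * s y)| ≤ ∫ x, |F x| * ∫ y, |k (x - y)| * |s y| := by
  have h1 : ∀ x, |∫ y, F x * (k (x - y) * s y)| ≤ |F x| * ∫ y, |k (x - y)| * |s y| := by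
    intro x
    rw [integral_const_mul, abs_mul]
    refine mul_le_mul_of_nonneg_left ?_ (abs_nonneg _)
    have h2 := norm_integral_le_integral_norm (μ := volume) (fun y => k (x - y) * s y)
    rw [Real.norm_eq_abs] at h2
    refine h2.trans (le_of_eq ?_)
    refine integral_congr_ae (Eventually.of_forall fun y => ?_)
    show ‖k (x - y) * s y‖ = |k (x - y)| * |s y|
    rw [Real.norm_eq_abs, abs_mul]
  have h3 := norm_integral_le_of_norm_le (MidP_int2 hk hB hs hF)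
    (f := fun x => ∫ y, F x * (k (x - y) * s y))
    (Eventually.of_forall fun x => by rw [Real.norm_eq_abs]; exact h1 x)
  rw [Real.norm_eq_abs] at h3
  exact h3

open Classical in
private theorem MidP_far {N C₁ : ℝ} (hN : 0 < N) {F : ℂ → ℝ} (hF : Integrable F)
    (M : Finset ((ℤ × ℤ) × (ℤ × ℤ))) (L : ℝ) (hL : ∫ y, |dsm N F y| ≤ L) (hC : 0 ≤ C₁)
    (hsup : ∀ p : ℂ, ∑ m ∈ M, |dcc N (lat m.1) (lat m.2) p| ≤ C₁) :
    ∑ m ∈ M, |jj N F (lat m.1) (lat m.2)| ≤ (∫ x, |F x|) * (C₁ * L) := by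
  have hsi : Integrable (dsm N F) := integrable_dsm hN hF
  have hk : ∀ m : (ℤ × ℤ) × (ℤ × ℤ), Continuous (dcc N (lat m.1) (lat m.2)) :=
    fun m => continuous_dcc N _ _
  have hB : ∀ m : (ℤ × ℤ) × (ℤ × ℤ), ∀ p, |dcc N (lat m.1) (lat m.2) p| ≤ 5 * N ^ 2 :=
    fun m p => abs_dcc_le N _ _ p
  have h1 : ∀ m ∈ M, |jj N F (lat m.1) (lat m.2)| ≤
      ∫ x, |F x| * ∫ y, |dcc N (lat m.1) (lat m.2) (x - y)| * |dsm N F y| := by
    intro m _
    rw [jj_eq hN hF]
    exact MidP_one (hk m) (hB m) hsi hF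
  refine (Finset.sum_le_sum h1).trans ?_
  rw [← integral_finsetSum M fun m _ => MidP_int2 (hk m) (hB m) hsi hF]
  have h2 : ∀ x, ∑ m ∈ M, |F x| * ∫ y, |dcc N (lat m.1) (lat m.2) (x - y)| * |dsm N F y| ≤
      |F x| * (C₁ * ∫ y, |dsm N F y|) := by
    intro x
    rw [← Finset.mul_sum]
    refine mul_le_mul_of_nonneg_left ?_ (abs_nonneg _)
    rw [← integral_finsetSum M fun m _ => MidP_int (hk m) (hB m) hsi x, ← integral_const_mul]
    refine integral_mono (integrable_finsetSum M fun m _ => MidP_int (hk m) (hB m) hsi x)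
      (hsi.abs.const_mul _) fun y => ?_
    show ∑ m ∈ M, |dcc N (lat m.1) (lat m.2) (x - y)| * |dsm N F y| ≤ C₁ * |dsm N F y|
    rw [← Finset.sum_mul]
    exact mul_le_mul_of_nonneg_right (hsup (x - y)) (abs_nonneg _)
  have h4 : ∫ x, ∑ m ∈ M, |F x| * ∫ y, |dcc N (lat m.1) (lat m.2) (x - y)| * |dsm N F y| ≤
      ∫ x, |F x| * (C₁ * ∫ y, |dsm N F y|) := by
    refine integral_mono (integrable_finsetSum M fun m _ => MidP_int2 (hk m) (hB m) hsi hF)
      (hF.abs.mul_const _) h2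
  refine h4.trans ?_
  rw [integral_mul_const]
  refine mul_le_mul_of_nonneg_left ?_ (integral_nonneg fun x => abs_nonneg _)
  exact mul_le_mul_of_nonneg_left hL hC

theorem mid_piece {ε : ℝ} (hε : 0 < ε) : ∃ C : ℝ, 0 < C ∧ ∀ E : Set ℂ, MeasurableSet E →
    volume E ≠ ∞ → ∀ K a : ℝ, 0 ≤ K → 0 ≤ a → a ≤ 2 → Reg E K a → ∀ N X : ℝ, 1 ≤ X →
    X ^ 2 ≤ N → ∀ h : ℂ, (∑ p ∈ mid X, bp N (inc E h) p) ^ 2 ≤
      C * (X ^ 2 / N + K * N ^ (1 / 2 + ε - a)) * (D E h) ^ 2 := by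
  classical
  obtain ⟨C₁, hC₁, hsup⟩ := sup_s hε
  refine ⟨36000000 + 8 * C₁, by positivity, ?_⟩
  intro E hE hfin K a hK ha ha2 hR N X hX hXN h
  have hN1 : 1 ≤ N := by nlinarith
  have hN0 : 0 < N := by linarith
  have hX0 : 0 < X := by linarith
  obtain ⟨hFm, hFi, hFb, hF1, hF2⟩ := inc_facts hE hfin h
  have hD : 0 ≤ D E h := D_nonneg E h
  have hcs := cs_mid hFm hFi hFb hN0 (mid X)
  rw [hF2, ← Finset.sum_product' (mid X) (mid X)
    (fun p q => jj N (inc E h) (lat p) (lat q))] at hcs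
  rw [← Finset.sum_filter_add_sum_filter_not (mid X ×ˢ mid X)
    (fun m => |‖lat m.1‖ - ‖lat m.2‖| ≤ 1)] at hcs
  -- the local pairs
  have hloc : ∑ m ∈ (mid X ×ˢ mid X).filter (fun m => |‖lat m.1‖ - ‖lat m.2‖| ≤ 1),
      jj N (inc E h) (lat m.1) (lat m.2) ≤ 36000000 * (X ^ 2 / N) * D E h := by
    have h1 : ∀ m ∈ (mid X ×ˢ mid X).filter (fun m => |‖lat m.1‖ - ‖lat m.2‖| ≤ 1),
        jj N (inc E h) (lat m.1) (lat m.2) ≤ 36 / (N * X) * D E h := by
      intro m hm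
      rw [Finset.mem_filter, Finset.mem_product, mem_mid, mem_mid] at hm
      have h2 := jj_le hFm hFi hFb hN1 hX hm.1.1.2.1 hm.1.2.2.1
      rw [hF2] at h2
      exact (le_abs_self _).trans h2
    refine (Finset.sum_le_sum h1).trans ?_
    rw [Finset.sum_const, nsmul_eq_mul]
    have h3 := card_loc hX
    have h4 : 0 ≤ 36 / (N * X) * D E h := by positivity
    refine (mul_le_mul_of_nonneg_right h3 h4).trans (le_of_eq ?_)
    field_simp
    ring
  -- the other pairs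
  have hnl : ∑ m ∈ (mid X ×ˢ mid X).filter (fun m => ¬ |‖lat m.1‖ - ‖lat m.2‖| ≤ 1),
      jj N (inc E h) (lat m.1) (lat m.2) ≤
      D E h * ((C₁ * N ^ (1 / 2 + ε)) * (8 * K * N ^ (-a))) := by
    have h1 := MidP_far hN0 hFi
      ((mid X ×ˢ mid X).filter (fun m => ¬ |‖lat m.1‖ - ‖lat m.2‖| ≤ 1))
      (8 * K * N ^ (-a)) (dsm_l1 hE hfin hK ha ha2 hR hN1 h)
      (C₁ := C₁ * N ^ (1 / 2 + ε)) (by positivity) (fun p => hsup N X hX hXN p)
    rw [hF1] at h1
    exact (Finset.sum_le_sum fun m _ => le_abs_self _).trans h1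
  have h6 : N ^ (1 / 2 + ε - a) = N ^ (1 / 2 + ε) * N ^ (-a) := by
    rw [← Real.rpow_add hN0]
    congr 1
  have hp : 0 ≤ N ^ (1 / 2 + ε - a) := Real.rpow_nonneg hN0.le _
  have hq : 0 ≤ X ^ 2 / N := by positivity
  have h7 : D E h * (∑ m ∈ (mid X ×ˢ mid X).filter (fun m => |‖lat m.1‖ - ‖lat m.2‖| ≤ 1),
      jj N (inc E h) (lat m.1) (lat m.2) +
      ∑ m ∈ (mid X ×ˢ mid X).filter (fun m => ¬ |‖lat m.1‖ - ‖lat m.2‖| ≤ 1),
      jj N (inc E h) (lat m.1) (lat m.2)) ≤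
      D E h * (36000000 * (X ^ 2 / N) * D E h +
        D E h * ((C₁ * N ^ (1 / 2 + ε)) * (8 * K * N ^ (-a)))) :=
    mul_le_mul_of_nonneg_left (add_le_add hloc hnl) hD
  refine hcs.trans (h7.trans ?_)
  have h8 : D E h * (36000000 * (X ^ 2 / N) * D E h +
        D E h * ((C₁ * N ^ (1 / 2 + ε)) * (8 * K * N ^ (-a)))) =
      (36000000 * (X ^ 2 / N) + 8 * C₁ * (K * N ^ (1 / 2 + ε - a))) * (D E h) ^ 2 := by
    rw [h6]
    ring
  rw [h8]
  refine mul_le_mul_of_nonneg_right ?_ (by positivity)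
  have hKp : 0 ≤ K * N ^ (1 / 2 + ε - a) := mul_nonneg hK hp
  nlinarith [mul_nonneg hC₁.le hq, hKp]

end Pool.MPb9430d.Frac
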