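import Pool.Agent.Lib.MP_b9430d_co.Frac.Node
import Pool.Agent.Lib.MP_b9430d_co.Frac.Pol
import Pool.Agent.Lib.MP_b9430d_co.Frac.Lin1
import Pool.Agent.Lib.MP_b9430d_co.Frac.Rad
import Pool.Agent.Lib.MP_b9430d_co.Frac.Pl
import Pool.Agent.Lib.MP_b9430d_co.Frac.FtB

/-!
# NearL: interpolation error for functions supported in a disc, small radius

`F r = ft g (r * rot θ)`, `w = 8/√N`. For `r ∈ [N, 2N)`: `lo r, hi r ∈ [r - w, r + w]`, so (`interp` with `a = lo r`, `b = hi r`)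
`‖lin (ft g) θ r‖ ≤ w ∫_{r-w}^{r+w} ‖F''‖`, `‖lin‖² ≤ w³ ∫_{r-w}^{r+w} ‖F'' t‖² dt`. Multiply by `r ≤ 2t` (`t ≥ r - w ≥ r/2`,
because `w ≤ 8/√N ≤ N/2` for `N ≥ 16`) and integrate over `r` (Tonelli): `≤ 4 w⁴ ∫_{N/2}^{3N} t ‖F'' t‖² dt`. By `rad_deriv`
`‖F''‖² ≤ 1600·6 (‖ft g₁‖² + ‖ft g₂‖² + ‖ft g₃‖²)` with `g₁ = x.re² g, g₂ = x.re x.im g, g₃ = x.im² g`. Integrate over
`θ`: polar coordinates (`lint_polar`) and `plancherel` (the `gᵢ` are bounded with bounded support):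
`∫∫ t ‖ft gᵢ (t rot θ)‖² ≤ ∫ gᵢ² ≤ ∫ ‖x‖⁴ g²`. Total: `≤ C w⁴ ∫ ‖x‖⁴ g² = C' N^{-2} ∫ ‖x‖⁴ g²`. Any constant will do.
-/

set_option autoImplicit false

open MeasureTheory Complex Set Real Filter Topology
open scoped ENNReal

namespace Pool.MPb9430d.Frac

open Pool.MPb9430d Pool.MPb9430d.Rough

/-- The bound of the second radial derivative. -/
private noncomputable def NearL_H (g : ℂ → ℝ) (y : ℂ) : ℝ :=
  40 * (‖ft (fun x => x.re ^ 2 * g x) y‖ + 2 * ‖ft (fun x => x.re * x.im * g x) y‖ +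
    ‖ft (fun x => x.im ^ 2 * g x) y‖)

private theorem NearL_H_nonneg (g : ℂ → ℝ) (y : ℂ) : 0 ≤ NearL_H g y := by
  unfold NearL_H
  positivity

private theorem NearL_int {f : ℂ → ℝ} (hf : Measurable f) {B Y : ℝ} (hb : ∀ x, |f x| ≤ B)
    (hY : ∀ x, Y < ‖x‖ → f x = 0) : Integrable f := by
  have h1 : IntegrableOn f (Metric.closedBall (0 : ℂ) Y) := by
    apply Measure.integrableOn_of_bounded (M := B)
    · exact measure_closedBall_lt_top.ne
    · exact hf.aestronglyMeasurable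
    · exact Filter.Eventually.of_forall fun x => by
        rw [Real.norm_eq_abs]; exact hb x
  apply h1.integrable_of_forall_notMem_eq_zero
  intro x hx
  apply hY
  rw [Metric.mem_closedBall, dist_zero_right, not_le] at hx
  exact hx

private theorem NearL_abs_re_le (x : ℂ) : x.re ^ 2 ≤ ‖x‖ ^ 2 := by
  rw [Complex.sq_norm, Complex.normSq_apply]
  nlinarith [sq_nonneg x.im]

private theorem NearL_abs_im_le (x : ℂ) : x.im ^ 2 ≤ ‖x‖ ^ 2 := by
  rw [Complex.sq_norm, Complex.normSq_apply]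
  nlinarith [sq_nonneg x.re]

private theorem NearL_bd {g : ℂ → ℝ} (hb : ∀ x, |g x| ≤ 1) {Y : ℝ} (hY : ∀ x, Y < ‖x‖ → g x = 0)
    (q : ℂ → ℝ) (hq : ∀ x, |q x| ≤ ‖x‖ ^ 2) (x : ℂ) : |q x * g x| ≤ Y ^ 2 := by
  by_cases h : Y < ‖x‖
  · rw [hY x h, mul_zero, abs_zero]
    positivity
  · rw [abs_mul]
    have h0 : 0 ≤ ‖x‖ := norm_nonneg x
    have h1 : ‖x‖ ^ 2 ≤ Y ^ 2 := pow_le_pow_left₀ h0 (not_lt.1 h) 2
    calc |q x| * |g x| ≤ ‖x‖ ^ 2 * 1 := mul_le_mul (hq x) (hb x) (abs_nonneg _) (by positivity)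
      _ ≤ Y ^ 2 := by rw [mul_one]; exact h1

private theorem NearL_q1 (x : ℂ) : |x.re ^ 2| ≤ ‖x‖ ^ 2 := by
  rw [abs_of_nonneg (sq_nonneg _)]; exact NearL_abs_re_le x

private theorem NearL_q2 (x : ℂ) : |x.re * x.im| ≤ ‖x‖ ^ 2 := by
  have h1 : ‖x‖ ^ 2 = x.re ^ 2 + x.im ^ 2 := by
    rw [Complex.sq_norm, Complex.normSq_apply]; ring
  rw [h1, abs_le]
  constructor <;> nlinarith [sq_nonneg (x.re + x.im), sq_nonneg (x.re - x.im), sq_nonneg x.re,
    sq_nonneg x.im]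

private theorem NearL_q3 (x : ℂ) : |x.im ^ 2| ≤ ‖x‖ ^ 2 := by
  rw [abs_of_nonneg (sq_nonneg _)]; exact NearL_abs_im_le x

private theorem NearL_cs {f : ℝ → ℝ} (hf : Continuous f) {a b : ℝ} (hab : a < b) :
    (∫ t in a..b, f t) ^ 2 ≤ (b - a) * ∫ t in a..b, f t ^ 2 := by
  set m := ∫ t in a..b, f t with hm
  set L := b - a with hL
  have hL0 : 0 < L := sub_pos.2 hab
  have h0 : 0 ≤ ∫ t in a..b, (L * f t - m) ^ 2 :=
    intervalIntegral.integral_nonneg hab.le fun t _ => sq_nonneg _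
  have e : ∫ t in a..b, (L * f t - m) ^ 2 =
      L ^ 2 * (∫ t in a..b, f t ^ 2) - 2 * L * m * m + m ^ 2 * L := by
    have e1 : (fun t => (L * f t - m) ^ 2) = fun t => (L ^ 2 * f t ^ 2 - 2 * L * m * f t) + m ^ 2 := by
      funext t; ring
    have i1 : IntervalIntegrable (fun t => L ^ 2 * f t ^ 2) volume a b :=
      (by fun_prop : Continuous fun t => L ^ 2 * f t ^ 2).intervalIntegrable _ _
    have i2 : IntervalIntegrable (fun t => 2 * L * m * f t) volume a b :=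
      (by fun_prop : Continuous fun t => 2 * L * m * f t).intervalIntegrable _ _
    have i3 : IntervalIntegrable (fun _ : ℝ => m ^ 2) volume a b :=
      continuous_const.intervalIntegrable _ _
    rw [e1, intervalIntegral.integral_add (i1.sub i2) i3, intervalIntegral.integral_sub i1 i2,
      intervalIntegral.integral_const_mul, intervalIntegral.integral_const_mul,
      intervalIntegral.integral_const, smul_eq_mul, ← hm, ← hL]
    ring
  rw [e] at h0
  have h1 : 0 ≤ L * (L * (∫ t in a..b, f t ^ 2) - m ^ 2) := by nlinarith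
  have h2 := nonneg_of_mul_nonneg_right h1 hL0
  linarith

private theorem NearL_cont {g : ℂ → ℝ} (hm : Measurable g) (hb : ∀ x, |g x| ≤ 1) {Y : ℝ}
    (hY : ∀ x, Y < ‖x‖ → g x = 0) : Continuous (NearL_H g) := by
  have c1 := continuous_ft (NearL_int (by fun_prop : Measurable fun x : ℂ => x.re ^ 2 * g x)
    (NearL_bd hb hY (fun x => x.re ^ 2) NearL_q1) (fun x hx => by rw [hY x hx, mul_zero]))
  have c2 := continuous_ft (NearL_int (by fun_prop : Measurable fun x : ℂ => x.re * x.im * g x)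
    (NearL_bd hb hY (fun x => x.re * x.im) NearL_q2) (fun x hx => by rw [hY x hx, mul_zero]))
  have c3 := continuous_ft (NearL_int (by fun_prop : Measurable fun x : ℂ => x.im ^ 2 * g x)
    (NearL_bd hb hY (fun x => x.im ^ 2) NearL_q3) (fun x hx => by rw [hY x hx, mul_zero]))
  unfold NearL_H
  exact continuous_const.mul (((c1.norm).add (continuous_const.mul c2.norm)).add c3.norm)

private theorem NearL_ray {g : ℂ → ℝ} (hm : Measurable g) (hb : ∀ x, |g x| ≤ 1) {Y : ℝ}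
    (hY : ∀ x, Y < ‖x‖ → g x = 0) {N : ℝ} (hN : 16 ≤ N) (θ : ℝ) {r : ℝ} (hr : N ≤ r) :
    ‖lin (ft g) θ r‖ₑ ^ 2 ≤ ENNReal.ofReal ((8 / √N) ^ 3) *
      ∫⁻ t in Icc (r - 8 / √N) (r + 8 / √N), ENNReal.ofReal ((NearL_H g (t * rot θ)) ^ 2) := by
  obtain ⟨F', F'', h1, h2, hc, -, hF⟩ := rad_deriv hm hb hY θ
  have hN0 : 0 < N := by linarith
  have hr1 : 1 ≤ r := by linarith
  have hsN : 0 < √N := Real.sqrt_pos.2 hN0
  set w : ℝ := 8 / √N with hw
  have hw0 : 0 < w := by positivity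
  have hlo := lo_le hr1
  have hhi := lt_hi hr1
  have hab : lo r < hi r := lt_of_le_of_lt hlo.2 hhi
  have hd : hi r - lo r ≤ w := by
    refine (hi_sub_lo hr1).trans ?_
    rw [hw]
    apply div_le_div_of_nonneg_left (by norm_num) hsN
    exact Real.sqrt_le_sqrt hr
  set H : ℝ → ℝ := fun t => NearL_H g (t * rot θ) with hH
  have hHc : Continuous H := by
    apply (NearL_cont hm hb hY).comp
    fun_prop
  have hHn : ∀ t, 0 ≤ H t := fun t => NearL_H_nonneg g _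
  have i0 : ‖lin (ft g) θ r‖ ≤ (hi r - lo r) * ∫ t in (lo r)..(hi r), ‖F'' t‖ :=
    interp (F := fun r : ℝ => ft g (r * rot θ)) h1 h2 hc hab hlo.2 hhi.le
  have i1 : ∫ t in (lo r)..(hi r), ‖F'' t‖ ≤ ∫ t in (lo r)..(hi r), H t := by
    apply intervalIntegral.integral_mono_on hab.le (hc.norm.intervalIntegrable _ _)
      (hHc.intervalIntegrable _ _)
    intro t _
    exact hF t
  have i2 : 0 ≤ ∫ t in (lo r)..(hi r), H t :=
    intervalIntegral.integral_nonneg hab.le fun t _ => hHn t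
  have i3 : ‖lin (ft g) θ r‖ ≤ w * ∫ t in (lo r)..(hi r), H t :=
    i0.trans (mul_le_mul hd i1 (intervalIntegral.integral_nonneg hab.le fun t _ => norm_nonneg _)
      hw0.le)
  have i4 : 0 ≤ ∫ t in (lo r)..(hi r), H t ^ 2 :=
    intervalIntegral.integral_nonneg hab.le fun t _ => sq_nonneg _
  have i5 : ‖lin (ft g) θ r‖ ^ 2 ≤ w ^ 3 * ∫ t in (lo r)..(hi r), H t ^ 2 := by
    calc ‖lin (ft g) θ r‖ ^ 2 ≤ (w * ∫ t in (lo r)..(hi r), H t) ^ 2 :=
          pow_le_pow_left₀ (norm_nonneg _) i3 2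
      _ = w ^ 2 * (∫ t in (lo r)..(hi r), H t) ^ 2 := by ring
      _ ≤ w ^ 2 * ((hi r - lo r) * ∫ t in (lo r)..(hi r), H t ^ 2) :=
          mul_le_mul_of_nonneg_left (NearL_cs hHc hab) (by positivity)
      _ ≤ w ^ 2 * (w * ∫ t in (lo r)..(hi r), H t ^ 2) :=
          mul_le_mul_of_nonneg_left (mul_le_mul_of_nonneg_right hd i4) (by positivity)
      _ = w ^ 3 * ∫ t in (lo r)..(hi r), H t ^ 2 := by ring
  have e1 : ‖lin (ft g) θ r‖ₑ ^ 2 = ENNReal.ofReal (‖lin (ft g) θ r‖ ^ 2) := by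
    rw [ENNReal.ofReal_pow (norm_nonneg _), ofReal_norm_eq_enorm]
  rw [e1]
  refine (ENNReal.ofReal_le_ofReal i5).trans ?_
  rw [ENNReal.ofReal_mul (by positivity)]
  apply mul_le_mul_right
  rw [intervalIntegral.integral_of_le hab.le]
  have hint : IntegrableOn (fun t => H t ^ 2) (Ioc (lo r) (hi r)) :=
    ((hHc.pow 2).intervalIntegrable (lo r) (hi r)).1
  rw [ofReal_integral_eq_lintegral_ofReal hint (Filter.Eventually.of_forall fun t => sq_nonneg _)]
  apply lintegral_mono_set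
  intro t ht
  constructor
  · linarith [ht.1, hlo.2]
  · linarith [ht.2, hlo.2]

private theorem NearL_swap (w N : ℝ) (hw : 0 < w) (hwN : w ≤ N / 2) (hN : 0 < N)
    (Q : ℝ → ℝ≥0∞) (hQ : Measurable Q) :
    ∫⁻ r in Ico N (2 * N), ENNReal.ofReal r * (∫⁻ t in Icc (r - w) (r + w), Q t) ≤
      ENNReal.ofReal (4 * w) * ∫⁻ t in Ico (N / 2) (3 * N), ENNReal.ofReal t * Q t := by
  have hwN' : w < N := by linarith
  -- pointwise bound
  have s1 : ∀ r ∈ Ico N (2 * N), ENNReal.ofReal r * (∫⁻ t in Icc (r - w) (r + w), Q t) ≤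
      ∫⁻ t in Ico (N / 2) (3 * N), (Icc (t - w) (t + w)).indicator (fun _ => (1 : ℝ≥0∞)) r *
        (2 * (ENNReal.ofReal t * Q t)) := by
    intro r hr
    rw [← lintegral_const_mul _ hQ]
    have hsub : Icc (r - w) (r + w) ⊆ Ico (N / 2) (3 * N) := by
      intro t ht
      constructor
      · linarith [ht.1, hr.1]
      · linarith [ht.2, hr.2]
    have e : ∫⁻ t in Icc (r - w) (r + w), ENNReal.ofReal r * Q t ≤
        ∫⁻ t in Icc (r - w) (r + w), (Icc (t - w) (t + w)).indicator (fun _ => (1 : ℝ≥0∞)) r *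
        (2 * (ENNReal.ofReal t * Q t)) := by
      apply setLIntegral_mono' measurableSet_Icc
      intro t ht
      have hmem : r ∈ Icc (t - w) (t + w) := ⟨by linarith [ht.2], by linarith [ht.1]⟩
      rw [Set.indicator_of_mem hmem, one_mul, ← mul_assoc]
      apply mul_le_mul_left
      have : (2 : ℝ≥0∞) = ENNReal.ofReal 2 := by norm_num
      rw [this, ← ENNReal.ofReal_mul (by norm_num)]
      apply ENNReal.ofReal_le_ofReal
      linarith [ht.1, hr.1]
    exact e.trans (lintegral_mono_set hsub)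
  have hmeas : Measurable (Function.uncurry fun (r t : ℝ) =>
      (Icc (t - w) (t + w)).indicator (fun _ => (1 : ℝ≥0∞)) r * (2 * (ENNReal.ofReal t * Q t))) := by
    apply Measurable.mul
    · have hset : MeasurableSet {p : ℝ × ℝ | p.2 - w ≤ p.1 ∧ p.1 ≤ p.2 + w} := by
        have c1 : Measurable fun p : ℝ × ℝ => p.2 - w := by fun_prop
        have c2 : Measurable fun p : ℝ × ℝ => p.2 + w := by fun_prop
        exact (measurableSet_le c1 measurable_fst).inter (measurableSet_le measurable_fst c2)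
      have e : (fun p : ℝ × ℝ => (Icc (p.2 - w) (p.2 + w)).indicator (fun _ => (1 : ℝ≥0∞)) p.1) =
          {p : ℝ × ℝ | p.2 - w ≤ p.1 ∧ p.1 ≤ p.2 + w}.indicator fun _ => (1 : ℝ≥0∞) := by
        funext p
        by_cases hp : p.2 - w ≤ p.1 ∧ p.1 ≤ p.2 + w
        · rw [Set.indicator_of_mem (show p ∈ {p : ℝ × ℝ | p.2 - w ≤ p.1 ∧ p.1 ≤ p.2 + w} from hp),
            Set.indicator_of_mem (show p.1 ∈ Icc (p.2 - w) (p.2 + w) from hp)]
        · rw [Set.indicator_of_notMem (show p ∉ {p : ℝ × ℝ | p.2 - w ≤ p.1 ∧ p.1 ≤ p.2 + w} from hp),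
            Set.indicator_of_notMem (show p.1 ∉ Icc (p.2 - w) (p.2 + w) from hp)]
      show Measurable (fun p : ℝ × ℝ => (Icc (p.2 - w) (p.2 + w)).indicator (fun _ => (1 : ℝ≥0∞)) p.1)
      rw [e]
      exact measurable_const.indicator hset
    · fun_prop
  calc ∫⁻ r in Ico N (2 * N), ENNReal.ofReal r * (∫⁻ t in Icc (r - w) (r + w), Q t)
      ≤ ∫⁻ r in Ico N (2 * N), ∫⁻ t in Ico (N / 2) (3 * N),
          (Icc (t - w) (t + w)).indicator (fun _ => (1 : ℝ≥0∞)) r * (2 * (ENNReal.ofReal t * Q t)) :=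
        setLIntegral_mono' measurableSet_Ico s1
    _ = ∫⁻ t in Ico (N / 2) (3 * N), ∫⁻ r in Ico N (2 * N),
          (Icc (t - w) (t + w)).indicator (fun _ => (1 : ℝ≥0∞)) r * (2 * (ENNReal.ofReal t * Q t)) :=
        lintegral_lintegral_swap hmeas.aemeasurable
    _ ≤ ∫⁻ t in Ico (N / 2) (3 * N), ENNReal.ofReal (4 * w) * (ENNReal.ofReal t * Q t) := by
        apply lintegral_mono
        intro t
        show ∫⁻ r in Ico N (2 * N), (Icc (t - w) (t + w)).indicator (fun _ => (1 : ℝ≥0∞)) r *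
          (2 * (ENNReal.ofReal t * Q t)) ≤ ENNReal.ofReal (4 * w) * (ENNReal.ofReal t * Q t)
        rw [lintegral_mul_const _ (measurable_const.indicator measurableSet_Icc)]
        have h1 : ∫⁻ r in Ico N (2 * N), (Icc (t - w) (t + w)).indicator (fun _ => (1 : ℝ≥0∞)) r ≤
            ENNReal.ofReal (2 * w) := by
          refine (setLIntegral_le_lintegral _ _).trans ?_
          rw [lintegral_indicator measurableSet_Icc, lintegral_const, one_mul,
            Measure.restrict_apply MeasurableSet.univ, Set.univ_inter, Real.volume_Icc]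
          apply ENNReal.ofReal_le_ofReal
          linarith
        calc (∫⁻ r in Ico N (2 * N), (Icc (t - w) (t + w)).indicator (fun _ => (1 : ℝ≥0∞)) r) *
              (2 * (ENNReal.ofReal t * Q t))
            ≤ ENNReal.ofReal (2 * w) * (2 * (ENNReal.ofReal t * Q t)) := mul_le_mul_left h1 _
          _ = ENNReal.ofReal (4 * w) * (ENNReal.ofReal t * Q t) := by
            rw [← mul_assoc]
            congr 1
            have : (2 : ℝ≥0∞) = ENNReal.ofReal 2 := by norm_num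
            rw [this, ← ENNReal.ofReal_mul (by positivity)]
            congr 1
            ring
    _ = ENNReal.ofReal (4 * w) * ∫⁻ t in Ico (N / 2) (3 * N), ENNReal.ofReal t * Q t := by
        rw [lintegral_const_mul' _ _ ENNReal.ofReal_ne_top]

theorem near_l2 : ∃ C : ℝ, 0 < C ∧ ∀ g : ℂ → ℝ, Measurable g → (∀ x, |g x| ≤ 1) → ∀ Y : ℝ,
    (∀ x, Y < ‖x‖ → g x = 0) → ∀ N : ℝ, 16 ≤ N →
    ∫⁻ θ in Ioc (-π) π, ∫⁻ r in Ico N (2 * N), ENNReal.ofReal r * ‖lin (ft g) θ r‖ₑ ^ 2 ≤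
      ENNReal.ofReal (C * N ^ (-2 : ℝ) * ∫ x, ‖x‖ ^ 4 * (g x) ^ 2) := by
  refine ⟨16384 * 9600, by norm_num, ?_⟩
  intro g hm hb Y hY N hN
  have hN0 : 0 < N := by linarith
  have hsN : 0 < √N := Real.sqrt_pos.2 hN0
  have hsN4 : 4 ≤ √N := by
    apply Real.le_sqrt_of_sq_le
    linarith
  set w : ℝ := 8 / √N with hw
  have hw0 : 0 < w := by positivity
  have hw2 : w ≤ 2 := by
    rw [hw, div_le_iff₀ hsN]
    linarith
  have hw4 : w ^ 4 = 4096 * N ^ (-2 : ℝ) := by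
    have h4 : √N ^ 4 = N ^ 2 := by
      have : √N ^ 2 = N := Real.sq_sqrt hN0.le
      calc √N ^ 4 = (√N ^ 2) ^ 2 := by ring
        _ = N ^ 2 := by rw [this]
    rw [hw, div_pow, h4, Real.rpow_neg hN0.le]
    have : N ^ (2 : ℝ) = N ^ 2 := by
      rw [← Real.rpow_natCast]; norm_num
    rw [this]
    norm_num
    ring
  have hcont := NearL_cont hm hb hY
  -- inner estimate
  have inner : ∀ θ : ℝ, ∫⁻ r in Ico N (2 * N), ENNReal.ofReal r * ‖lin (ft g) θ r‖ₑ ^ 2 ≤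
      ENNReal.ofReal (4 * w ^ 4) * ∫⁻ t in Ico (N / 2) (3 * N), ENNReal.ofReal t *
        ENNReal.ofReal ((NearL_H g (t * rot θ)) ^ 2) := by
    intro θ
    have hmq : Measurable fun t : ℝ => ENNReal.ofReal ((NearL_H g (t * rot θ)) ^ 2) := by
      apply Measurable.ennreal_ofReal
      apply Continuous.measurable
      apply Continuous.pow
      apply hcont.comp
      fun_prop
    calc ∫⁻ r in Ico N (2 * N), ENNReal.ofReal r * ‖lin (ft g) θ r‖ₑ ^ 2
        ≤ ∫⁻ r in Ico N (2 * N), ENNReal.ofReal (w ^ 3) * (ENNReal.ofReal r *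
            ∫⁻ t in Icc (r - w) (r + w), ENNReal.ofReal ((NearL_H g (t * rot θ)) ^ 2)) := by
          apply setLIntegral_mono' measurableSet_Ico
          intro r hr
          have h := NearL_ray hm hb hY hN θ hr.1
          calc ENNReal.ofReal r * ‖lin (ft g) θ r‖ₑ ^ 2
              ≤ ENNReal.ofReal r * (ENNReal.ofReal (w ^ 3) *
                ∫⁻ t in Icc (r - w) (r + w), ENNReal.ofReal ((NearL_H g (t * rot θ)) ^ 2)) :=
                mul_le_mul_right h _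
            _ = ENNReal.ofReal (w ^ 3) * (ENNReal.ofReal r *
                ∫⁻ t in Icc (r - w) (r + w), ENNReal.ofReal ((NearL_H g (t * rot θ)) ^ 2)) := by
                rw [← mul_assoc, ← mul_assoc, mul_comm (ENNReal.ofReal r)]
      _ = ENNReal.ofReal (w ^ 3) * ∫⁻ r in Ico N (2 * N), (ENNReal.ofReal r *
            ∫⁻ t in Icc (r - w) (r + w), ENNReal.ofReal ((NearL_H g (t * rot θ)) ^ 2)) := by
          rw [lintegral_const_mul' _ _ ENNReal.ofReal_ne_top]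
      _ ≤ ENNReal.ofReal (w ^ 3) * (ENNReal.ofReal (4 * w) * ∫⁻ t in Ico (N / 2) (3 * N),
            ENNReal.ofReal t * ENNReal.ofReal ((NearL_H g (t * rot θ)) ^ 2)) :=
          mul_le_mul_right (NearL_swap w N hw0 (by linarith) hN0 _ hmq) _
      _ = ENNReal.ofReal (4 * w ^ 4) * ∫⁻ t in Ico (N / 2) (3 * N), ENNReal.ofReal t *
            ENNReal.ofReal ((NearL_H g (t * rot θ)) ^ 2) := by
          rw [← mul_assoc, ← ENNReal.ofReal_mul (by positivity)]
          congr 2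
          ring
  -- Plancherel for the three functions
  have m1 : Measurable fun x : ℂ => x.re ^ 2 * g x := by fun_prop
  have m2 : Measurable fun x : ℂ => x.re * x.im * g x := by fun_prop
  have m3 : Measurable fun x : ℂ => x.im ^ 2 * g x := by fun_prop
  have b1 := NearL_bd hb hY (fun x => x.re ^ 2) NearL_q1
  have b2 := NearL_bd hb hY (fun x => x.re * x.im) NearL_q2
  have b3 := NearL_bd hb hY (fun x => x.im ^ 2) NearL_q3
  have j1 := NearL_int m1 b1 (fun x hx => by rw [hY x hx, mul_zero])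
  have j2 := NearL_int m2 b2 (fun x hx => by rw [hY x hx, mul_zero])
  have j3 := NearL_int m3 b3 (fun x hx => by rw [hY x hx, mul_zero])
  obtain ⟨p1, q1⟩ := plancherel m1 j1 b1
  obtain ⟨p2, q2⟩ := plancherel m2 j2 b2
  obtain ⟨p3, q3⟩ := plancherel m3 j3 b3
  have hsq : ∀ (q : ℂ → ℝ), (∀ x, |q x * g x| ≤ Y ^ 2) → Measurable (fun x => q x * g x) →
      Integrable fun x => (q x * g x) ^ 2 := by
    intro q hq hqm
    apply NearL_int (B := (Y ^ 2) ^ 2) (Y := Y) (hqm.pow_const 2)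
    · intro x
      rw [abs_of_nonneg (sq_nonneg _), ← sq_abs]
      exact pow_le_pow_left₀ (abs_nonneg _) (hq x) 2
    · intro x hx
      rw [hY x hx, mul_zero]
      norm_num
  have k1 := hsq (fun x => x.re ^ 2) b1 m1
  have k2 := hsq (fun x => x.re * x.im) b2 m2
  have k3 := hsq (fun x => x.im ^ 2) b3 m3
  have k4 : Integrable fun x : ℂ => ‖x‖ ^ 4 * (g x) ^ 2 := by
    have hq4 : ∀ x : ℂ, |(‖x‖ ^ 2)| ≤ ‖x‖ ^ 2 := fun x => by rw [abs_of_nonneg (by positivity)]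
    have h := hsq (fun x => ‖x‖ ^ 2) (NearL_bd hb hY (fun x => ‖x‖ ^ 2) hq4) (by fun_prop)
    refine h.congr (Filter.Eventually.of_forall fun x => ?_)
    show (‖x‖ ^ 2 * g x) ^ 2 = ‖x‖ ^ 4 * (g x) ^ 2
    ring
  have hfin : ∫⁻ y : ℂ, ENNReal.ofReal ((NearL_H g y) ^ 2) ≤
      ENNReal.ofReal (9600 * ∫ x, ‖x‖ ^ 4 * (g x) ^ 2) := by
    have hpt : ∀ y : ℂ, (NearL_H g y) ^ 2 ≤ 9600 * (‖ft (fun x => x.re ^ 2 * g x) y‖ ^ 2 +
        ‖ft (fun x => x.re * x.im * g x) y‖ ^ 2 + ‖ft (fun x => x.im ^ 2 * g x) y‖ ^ 2) := by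
      intro y
      unfold NearL_H
      set a := ‖ft (fun x => x.re ^ 2 * g x) y‖
      set b := ‖ft (fun x => x.re * x.im * g x) y‖
      set c := ‖ft (fun x => x.im ^ 2 * g x) y‖
      nlinarith [sq_nonneg (2 * a - b), sq_nonneg (2 * c - b), sq_nonneg (a - c)]
    have hI : Integrable fun y : ℂ => 9600 * (‖ft (fun x => x.re ^ 2 * g x) y‖ ^ 2 +
        ‖ft (fun x => x.re * x.im * g x) y‖ ^ 2 + ‖ft (fun x => x.im ^ 2 * g x) y‖ ^ 2) :=
      ((p1.add p2).add p3).const_mul 9600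
    calc ∫⁻ y : ℂ, ENNReal.ofReal ((NearL_H g y) ^ 2)
        ≤ ∫⁻ y : ℂ, ENNReal.ofReal (9600 * (‖ft (fun x => x.re ^ 2 * g x) y‖ ^ 2 +
          ‖ft (fun x => x.re * x.im * g x) y‖ ^ 2 + ‖ft (fun x => x.im ^ 2 * g x) y‖ ^ 2)) :=
          lintegral_mono fun y => ENNReal.ofReal_le_ofReal (hpt y)
      _ = ENNReal.ofReal (∫ y : ℂ, 9600 * (‖ft (fun x => x.re ^ 2 * g x) y‖ ^ 2 +
          ‖ft (fun x => x.re * x.im * g x) y‖ ^ 2 + ‖ft (fun x => x.im ^ 2 * g x) y‖ ^ 2)) := by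
          rw [ofReal_integral_eq_lintegral_ofReal hI]
          exact Filter.Eventually.of_forall fun y => by positivity
      _ ≤ ENNReal.ofReal (9600 * ∫ x, ‖x‖ ^ 4 * (g x) ^ 2) := by
          apply ENNReal.ofReal_le_ofReal
          rw [integral_const_mul]
          apply mul_le_mul_of_nonneg_left _ (by norm_num)
          have e : ∫ y : ℂ, (‖ft (fun x => x.re ^ 2 * g x) y‖ ^ 2 +
              ‖ft (fun x => x.re * x.im * g x) y‖ ^ 2 + ‖ft (fun x => x.im ^ 2 * g x) y‖ ^ 2) =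
              ∫ x : ℂ, ((x.re ^ 2 * g x) ^ 2 + (x.re * x.im * g x) ^ 2 + (x.im ^ 2 * g x) ^ 2) := by
            have a1 : ∫ y : ℂ, (‖ft (fun x => x.re ^ 2 * g x) y‖ ^ 2 +
              ‖ft (fun x => x.re * x.im * g x) y‖ ^ 2 + ‖ft (fun x => x.im ^ 2 * g x) y‖ ^ 2) =
              (∫ y : ℂ, (‖ft (fun x => x.re ^ 2 * g x) y‖ ^ 2 +
              ‖ft (fun x => x.re * x.im * g x) y‖ ^ 2)) +
              ∫ y : ℂ, ‖ft (fun x => x.im ^ 2 * g x) y‖ ^ 2 := integral_add (p1.add p2) p3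
            have a2 : ∫ x : ℂ, ((x.re ^ 2 * g x) ^ 2 + (x.re * x.im * g x) ^ 2 +
              (x.im ^ 2 * g x) ^ 2) = (∫ x : ℂ, ((x.re ^ 2 * g x) ^ 2 +
              (x.re * x.im * g x) ^ 2)) + ∫ x : ℂ, (x.im ^ 2 * g x) ^ 2 :=
              integral_add (k1.add k2) k3
            rw [a1, a2, integral_add p1 p2, q1, q2, q3, integral_add k1 k2]
          rw [e]
          apply integral_mono ((k1.add k2).add k3) k4
          intro x
          show (x.re ^ 2 * g x) ^ 2 + (x.re * x.im * g x) ^ 2 + (x.im ^ 2 * g x) ^ 2 ≤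
            ‖x‖ ^ 4 * (g x) ^ 2
          have hx : ‖x‖ ^ 2 = x.re ^ 2 + x.im ^ 2 := by
            rw [Complex.sq_norm, Complex.normSq_apply]; ring
          have hx4 : ‖x‖ ^ 4 = (x.re ^ 2 + x.im ^ 2) ^ 2 := by
            rw [← hx]; ring
          rw [hx4]
          have : (x.re ^ 2 * g x) ^ 2 + (x.re * x.im * g x) ^ 2 + (x.im ^ 2 * g x) ^ 2 =
            ((x.re ^ 2 + x.im ^ 2) ^ 2 - (x.re * x.im) ^ 2) * (g x) ^ 2 := by ring
          rw [this]
          apply mul_le_mul_of_nonneg_right _ (sq_nonneg _)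
          nlinarith [sq_nonneg (x.re * x.im)]
  calc ∫⁻ θ in Ioc (-π) π, ∫⁻ r in Ico N (2 * N), ENNReal.ofReal r * ‖lin (ft g) θ r‖ₑ ^ 2
      ≤ ∫⁻ θ in Ioc (-π) π, ENNReal.ofReal (4 * w ^ 4) * ∫⁻ t in Ico (N / 2) (3 * N),
          ENNReal.ofReal t * ENNReal.ofReal ((NearL_H g (t * rot θ)) ^ 2) :=
        lintegral_mono fun θ => inner θ
    _ = ENNReal.ofReal (4 * w ^ 4) * ∫⁻ θ in Ioc (-π) π, ∫⁻ t in Ico (N / 2) (3 * N),
          ENNReal.ofReal t * ENNReal.ofReal ((NearL_H g (t * rot θ)) ^ 2) := by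
        rw [lintegral_const_mul' _ _ ENNReal.ofReal_ne_top]
    _ = ENNReal.ofReal (4 * w ^ 4) * ∫⁻ y in {y : ℂ | N / 2 ≤ ‖y‖ ∧ ‖y‖ < 3 * N},
          ENNReal.ofReal ((NearL_H g y) ^ 2) := by
        rw [lint_polar (G := fun y => ENNReal.ofReal ((NearL_H g y) ^ 2))
          ((hcont.pow 2).measurable.ennreal_ofReal) (by positivity : 0 < N / 2)]
    _ ≤ ENNReal.ofReal (4 * w ^ 4) * ENNReal.ofReal (9600 * ∫ x, ‖x‖ ^ 4 * (g x) ^ 2) :=
        mul_le_mul_right ((setLIntegral_le_lintegral _ _).trans hfin) _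
    _ = ENNReal.ofReal (16384 * 9600 * N ^ (-2 : ℝ) * ∫ x, ‖x‖ ^ 4 * (g x) ^ 2) := by
        rw [← ENNReal.ofReal_mul (by positivity), hw4]
        congr 1
        ring

end Pool.MPb9430d.Frac
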