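import Pool.Agent.Lib.MP_b9430d_co.Frac.MainH
import Pool.Agent.Lib.MP_b9430d_co.Frac.Low
import Pool.Agent.Lib.MP_b9430d_co.Frac.Lim

/-!
# NoRegH: a Steinhaus set is not Hölder regular in mean with an exponent above 1/2

Let `a' = min a 1`, `K'` such that `Reg E K' a'` (for `‖t‖ ≤ 1`: `‖t‖^a ≤ ‖t‖^a'`; for `‖t‖ > 1`: `D E t ≤ 2 volume.real E`).
Let `C, κ` be as in `main_bound_half`. `D E h = ∫ (inc E h)² = lim_k qf (gau (2^k)) (inc E h)`, and for `k ≥ k₁`
`|qf (gau (2^k))| ≤ |qf (gau (2^{k₁}))| + ∑_{j ≥ k₁} C 2^{-κ j} D E h ≤ (8·8^{k₁} ‖h‖ volume.real E + C 2^{-κ k₁}/(1 - 2^{-κ})) D E h`.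
Choose `k₁`, then `h₁ > 0` such that the bracket is `≤ 1/2` for `‖h‖ ≤ h₁`: `D E h ≤ D E h / 2`, so `D E h = 0` for
`‖h‖ ≤ h₁`, hence for all `h` (`real_dif_nsmul`). But `0 < volume E < ∞` (`volume_ne_zero`, `volume_lt_top` in
Rough/Escape): by `exists_disc` most of `E` lies in a disc of radius `S`, and for `‖v‖ > 2S` the sets `E` and `E + v` are
almost disjoint, so `D E v ≥ volume.real E > 0`.
-/

set_option autoImplicit false

open MeasureTheory Complex Set Real Filter Topology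
open scoped ENNReal

namespace Pool.MPb9430d.Frac

open Pool.MPb9430d Pool.MPb9430d.Rough

private theorem NoRegH_two {E : Set ℂ} (hfin : volume E ≠ ∞) (t : ℂ) :
    D E t ≤ 2 * volume.real E := by
  have h1 : dif E t ⊆ E ∪ (fun x => x - t) ⁻¹' E := by
    rintro x (h | h)
    · exact Or.inl h.1
    · exact Or.inr h.1
  have h2 : volume ((fun x : ℂ => x - t) ⁻¹' E) ≠ ∞ := by
    rw [volume_preimage_sub]
    exact hfin
  have h3 : volume (E ∪ (fun x => x - t) ⁻¹' E) ≠ ∞ :=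
    ne_top_of_le_ne_top (ENNReal.add_ne_top.2 ⟨hfin, h2⟩) (measure_union_le _ _)
  have h4 : volume.real ((fun x : ℂ => x - t) ⁻¹' E) = volume.real E := by
    rw [measureReal_def, volume_preimage_sub, ← measureReal_def]
  calc D E t = volume.real (dif E t) := rfl
    _ ≤ volume.real (E ∪ (fun x => x - t) ⁻¹' E) := measureReal_mono h1 h3
    _ ≤ volume.real E + volume.real ((fun x => x - t) ⁻¹' E) := measureReal_union_le _ _
    _ = 2 * volume.real E := by rw [h4]; ring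

private theorem NoRegH_pos {E : Set ℂ} (hE : MeasurableSet E) (hfin : volume E ≠ ∞)
    (hpos : 0 < volume.real E) : ∃ v : ℂ, 0 < D E v := by
  obtain ⟨S, hS0, hS⟩ := exists_disc hE hfin (show 0 < volume.real E / 4 by positivity)
  refine ⟨((2 * S + 1 : ℝ) : ℂ), ?_⟩
  set v : ℂ := ((2 * S + 1 : ℝ) : ℂ) with hv
  have hnv : ‖v‖ = 2 * S + 1 := by
    rw [hv, Complex.norm_real, Real.norm_of_nonneg (by linarith)]
  by_contra hD
  have hD0 : volume.real (dif E v) ≤ 0 := not_lt.1 hD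
  have hsub : E ⊆ (E \ Metric.closedBall 0 S) ∪
      (dif E v ∪ (fun x => x - v) ⁻¹' (E \ Metric.closedBall 0 S)) := by
    intro x hx
    by_cases h1 : x ∈ Metric.closedBall (0 : ℂ) S
    · right
      by_cases h2 : x - v ∈ E
      · right
        refine ⟨h2, ?_⟩
        intro h3
        rw [mem_closedBall_zero_iff] at h1
        have h3' : ‖x - v‖ ≤ S := by
          have : x - v ∈ Metric.closedBall (0 : ℂ) S := h3
          rwa [mem_closedBall_zero_iff] at this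
        have h4 : ‖v‖ ≤ ‖x‖ + ‖x - v‖ := by
          have h5 := norm_sub_le x (x - v)
          rw [sub_sub_cancel] at h5
          exact h5
        linarith
      · left
        exact Or.inl ⟨hx, h2⟩
    · exact Or.inl ⟨hx, h1⟩
  have f1 : volume (E \ Metric.closedBall 0 S) ≠ ∞ :=
    ne_top_of_le_ne_top hfin (measure_mono sdiff_subset)
  have f2 : volume ((fun x : ℂ => x - v) ⁻¹' (E \ Metric.closedBall 0 S)) ≠ ∞ := by
    rw [volume_preimage_sub]
    exact f1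
  have f3 : volume (dif E v ∪ (fun x => x - v) ⁻¹' (E \ Metric.closedBall 0 S)) ≠ ∞ :=
    ne_top_of_le_ne_top (ENNReal.add_ne_top.2 ⟨volume_dif_ne_top hfin v, f2⟩) (measure_union_le _ _)
  have f4 : volume ((E \ Metric.closedBall 0 S) ∪
      (dif E v ∪ (fun x => x - v) ⁻¹' (E \ Metric.closedBall 0 S))) ≠ ∞ :=
    ne_top_of_le_ne_top (ENNReal.add_ne_top.2 ⟨f1, f3⟩) (measure_union_le _ _)
  have h4 : volume.real ((fun x : ℂ => x - v) ⁻¹' (E \ Metric.closedBall 0 S)) =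
      volume.real (E \ Metric.closedBall 0 S) := by
    rw [measureReal_def, volume_preimage_sub, ← measureReal_def]
  have h5 := measureReal_mono hsub f4
  have h6 := measureReal_union_le (μ := volume) (E \ Metric.closedBall 0 S)
    (dif E v ∪ (fun x => x - v) ⁻¹' (E \ Metric.closedBall 0 S))
  have h7 := measureReal_union_le (μ := volume) (dif E v)
    ((fun x => x - v) ⁻¹' (E \ Metric.closedBall 0 S))
  rw [h4] at h7
  linarith

private theorem NoRegH_geom {ρ : ℝ} (h0 : 0 ≤ ρ) (h1 : ρ < 1) (m : ℕ) :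
    ∑ j ∈ Finset.range m, ρ ^ j ≤ 1 / (1 - ρ) := by
  rw [le_div_iff₀ (by linarith), geom_sum_mul_neg]
  have : 0 ≤ ρ ^ m := pow_nonneg h0 m
  linarith

theorem no_reg_half {E : Set ℂ} {n : ℕ} (hn : 1 ≤ n) (hE : MeasurableSet E) (hT : Tile E n) {K a : ℝ}
    (ha : 1 / 2 < a) (hR : ∀ t : ℂ, ‖t‖ ≤ 1 → D E t ≤ K * ‖t‖ ^ a) : False := by
  have hfin : volume E ≠ ∞ := (volume_lt_top hE hT).ne
  have hne : volume E ≠ 0 := volume_ne_zero hn hT
  obtain ⟨V, hV⟩ : ∃ V, V = volume.real E := ⟨_, rfl⟩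
  have hVpos : 0 < V := by
    rw [hV, measureReal_def]
    exact ENNReal.toReal_pos hne hfin
  have ha' : 1 / 2 < min a 1 := lt_min ha (by norm_num)
  have ha'1 : min a 1 ≤ 1 := min_le_right _ _
  have hReg : Reg E (|K| + 2 * V) (min a 1) := by
    intro t
    rcases le_or_gt ‖t‖ 1 with ht | ht
    · have e1 : ‖t‖ ^ a ≤ ‖t‖ ^ (min a 1) :=
        Real.rpow_le_rpow_of_exponent_ge' (norm_nonneg t) ht (by linarith) (min_le_left _ _)
      have e2 : 0 ≤ ‖t‖ ^ a := Real.rpow_nonneg (norm_nonneg t) _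
      have e3 : 0 ≤ ‖t‖ ^ (min a 1) := Real.rpow_nonneg (norm_nonneg t) _
      calc D E t ≤ K * ‖t‖ ^ a := hR t ht
        _ ≤ |K| * ‖t‖ ^ a := mul_le_mul_of_nonneg_right (le_abs_self K) e2
        _ ≤ |K| * ‖t‖ ^ (min a 1) := mul_le_mul_of_nonneg_left e1 (abs_nonneg K)
        _ ≤ (|K| + 2 * V) * ‖t‖ ^ (min a 1) :=
          mul_le_mul_of_nonneg_right (by linarith) e3
    · have e1 : 1 ≤ ‖t‖ ^ (min a 1) := Real.one_le_rpow ht.le (by linarith)
      have e2 := NoRegH_two hfin t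
      rw [← hV] at e2
      calc D E t ≤ 2 * V := e2
        _ ≤ |K| + 2 * V := by linarith [abs_nonneg K]
        _ ≤ (|K| + 2 * V) * ‖t‖ ^ (min a 1) :=
          le_mul_of_one_le_right (by linarith [abs_nonneg K]) e1
  obtain ⟨C, κ, hC, hκ, hmain⟩ := main_bound_half hE hfin hT (by linarith [abs_nonneg K]) ha' ha'1 hReg
  obtain ⟨ρ, hρ⟩ : ∃ ρ : ℝ, ρ = (2 : ℝ) ^ (-κ) := ⟨_, rfl⟩
  have hρ0 : 0 < ρ := by
    rw [hρ]
    exact Real.rpow_pos_of_pos two_pos _
  have hρ1 : ρ < 1 := by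
    rw [hρ]
    exact Real.rpow_lt_one_of_one_lt_of_neg one_lt_two (by linarith)
  have hpow : ∀ j : ℕ, ((2 : ℝ) ^ j) ^ (-κ) = ρ ^ j := by
    intro j
    rw [hρ, ← Real.rpow_natCast, ← Real.rpow_mul two_pos.le, ← Real.rpow_natCast,
      ← Real.rpow_mul two_pos.le, mul_comm]
  have hchain : ∀ (h : ℂ) (k₁ m : ℕ), |qf (gau (2 ^ (k₁ + m))) (inc E h)| ≤
      |qf (gau (2 ^ k₁)) (inc E h)| + C * ρ ^ k₁ * (∑ j ∈ Finset.range m, ρ ^ j) * D E h := by
    intro h k₁ m
    induction m with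
    | zero => simp
    | succ m ih =>
      have e1 := hmain (2 ^ (k₁ + m)) (one_le_pow₀ one_le_two) h
      rw [hpow] at e1
      have e2 : (2 : ℝ) * 2 ^ (k₁ + m) = 2 ^ (k₁ + (m + 1)) := by
        rw [← add_assoc, pow_succ]
        ring
      rw [e2] at e1
      have e3 : |qf (gau (2 ^ (k₁ + (m + 1)))) (inc E h)| ≤
          |qf (gau (2 ^ (k₁ + m))) (inc E h)| + C * ρ ^ (k₁ + m) * D E h := by
        have e4 := abs_sub_abs_le_abs_sub (qf (gau (2 ^ (k₁ + (m + 1)))) (inc E h))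
          (qf (gau (2 ^ (k₁ + m))) (inc E h))
        linarith
      rw [Finset.sum_range_succ]
      have e5 : ρ ^ (k₁ + m) = ρ ^ k₁ * ρ ^ m := pow_add _ _ _
      rw [e5] at e3
      calc _ ≤ _ := e3
        _ ≤ (|qf (gau (2 ^ k₁)) (inc E h)| + C * ρ ^ k₁ * (∑ j ∈ Finset.range m, ρ ^ j) * D E h) +
            C * (ρ ^ k₁ * ρ ^ m) * D E h := by linarith
        _ = _ := by ring
  obtain ⟨k₁, hk₁⟩ := exists_pow_lt_of_lt_one (show 0 < (1 - ρ) / (4 * C) by
    have : 0 < 1 - ρ := by linarith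
    positivity) hρ1
  have hq1 : C * ρ ^ k₁ * (1 / (1 - ρ)) ≤ 1 / 4 := by
    have h1 : 0 < 1 - ρ := by linarith
    rw [mul_one_div, div_le_iff₀ h1]
    rw [lt_div_iff₀ (by positivity)] at hk₁
    linarith
  have hzero : ∀ h : ℂ, ‖h‖ ≤ 1 / (32 * (2 ^ k₁) ^ 3 * V) → D E h = 0 := by
    intro h hh
    have hf := inc_facts hE hfin h
    have hDn : 0 ≤ D E h := D_nonneg E h
    have hlow := low_bound hE hfin (N := 2 ^ k₁) (by positivity) h
    rw [← hV] at hlow
    have hlow2 : |qf (gau (2 ^ k₁)) (inc E h)| ≤ 1 / 4 * D E h := by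
      refine hlow.trans (mul_le_mul_of_nonneg_right ?_ hDn)
      have hp : (0 : ℝ) < 32 * (2 ^ k₁) ^ 3 * V := by positivity
      rw [le_div_iff₀ hp] at hh
      nlinarith
    have hb : ∀ m : ℕ, qf (gau (2 ^ (k₁ + m))) (inc E h) ≤ 1 / 2 * D E h := by
      intro m
      have e1 := hchain h k₁ m
      have e2 := NoRegH_geom hρ0.le hρ1 m
      have e3 : C * ρ ^ k₁ * (∑ j ∈ Finset.range m, ρ ^ j) * D E h ≤ 1 / 4 * D E h := by
        refine mul_le_mul_of_nonneg_right (le_trans ?_ hq1) hDn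
        exact mul_le_mul_of_nonneg_left e2 (by positivity)
      have e4 := le_abs_self (qf (gau (2 ^ (k₁ + m))) (inc E h))
      linarith
    have hlim := lim_qf hf.1 hf.2.1 hf.2.2.1
    rw [hf.2.2.2.2] at hlim
    have hle : D E h ≤ 1 / 2 * D E h := by
      refine le_of_tendsto hlim ?_
      filter_upwards [eventually_ge_atTop k₁] with k hk
      have := hb (k - k₁)
      rwa [Nat.add_sub_cancel' hk] at this
    linarith
  obtain ⟨v, hv⟩ := NoRegH_pos hE hfin (by rw [← hV]; exact hVpos)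
  obtain ⟨r, hr⟩ : ∃ r, r = 1 / (32 * ((2 : ℝ) ^ k₁) ^ 3 * V) := ⟨_, rfl⟩
  have hrpos : 0 < r := by
    rw [hr]
    positivity
  obtain ⟨k, hk⟩ := exists_nat_gt (‖v‖ / r)
  have hk0 : (0 : ℝ) < k := lt_of_le_of_lt (by positivity) hk
  have hk0' : (k : ℂ) ≠ 0 := by
    have : (k : ℝ) ≠ 0 := hk0.ne'
    exact_mod_cast this
  have h1 := real_dif_nsmul hfin (v / k) k
  have h2 : (k : ℂ) * (v / k) = v := by
    field_simp
  rw [h2] at h1
  have h3 : D E (v / k) = 0 := by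
    refine hzero _ ?_
    rw [← hr, norm_div, Complex.norm_natCast, div_le_iff₀ hk0]
    rw [div_lt_iff₀ hrpos] at hk
    linarith
  have h4 : volume.real (dif E (v / k)) = 0 := h3
  rw [h4, mul_zero] at h1
  have h5 : D E v ≤ 0 := h1
  linarith

end Pool.MPb9430d.Frac
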