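import Pool.Agent.Lib.MP_b9430d_co.Frac.Defs

/-!
# Node: the two nodes (Bambah-Chowla)

`a = ⌊r⌋ ≥ 1`, `s = r² - a² ≥ 0`, `s < 2a + 1 ≤ 2r + 1 ≤ 3r`, `b = ⌊√s⌋ ≥ 0`, `b ≤ √s < b + 1`, so `a² + b² ≤ r² < a² + (b+1)²`.
`lo r = √(a²+b²) = ‖lat (a, b)‖`, `hi r = √(a² + (b+1)²) = ‖lat (a, b+1)‖`. `hi² - lo² = 2b + 1 ≤ 2√(3r) + 1 ≤ 8 √r`
(`r ≥ 1`) and `hi + lo ≥ r`, so `hi - lo ≤ 8√r/r = 8/√r`. Measurability: `Int.measurable_floor`, `fun_prop`/`measurability`.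
-/

set_option autoImplicit false

open MeasureTheory Complex Set Real Filter Topology
open scoped ENNReal

namespace Pool.MPb9430d.Frac

open Pool.MPb9430d Pool.MPb9430d.Rough

private theorem node_meas_floor {f : ℝ → ℝ} (hf : Measurable f) :
    Measurable (fun r : ℝ => (⌊f r⌋ : ℝ)) :=
  (measurable_from_top (f := fun n : ℤ => (n : ℝ))).comp hf.floor

private theorem node_meas_b : Measurable (fun r : ℝ => (⌊√(r ^ 2 - (⌊r⌋ : ℝ) ^ 2)⌋ : ℝ)) := by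
  refine node_meas_floor (f := fun r : ℝ => √(r ^ 2 - (⌊r⌋ : ℝ) ^ 2)) ?_
  exact ((measurable_id.pow_const 2).sub ((node_meas_floor measurable_id).pow_const 2)).sqrt

theorem measurable_lo : Measurable lo := by
  unfold lo
  exact (((node_meas_floor measurable_id).pow_const 2).add (node_meas_b.pow_const 2)).sqrt

theorem measurable_hi : Measurable hi := by
  unfold hi
  exact (((node_meas_floor measurable_id).pow_const 2).add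
    ((node_meas_b.add_const 1).pow_const 2)).sqrt

/-- The basic facts about the two integers. -/
private theorem node_basic {r : ℝ} (hr : 1 ≤ r) :
    (1 : ℝ) ≤ ⌊r⌋ ∧ (⌊r⌋ : ℝ) ≤ r ∧ r < ⌊r⌋ + 1 ∧ (0 : ℝ) ≤ ⌊√(r ^ 2 - (⌊r⌋ : ℝ) ^ 2)⌋ ∧
      (⌊√(r ^ 2 - (⌊r⌋ : ℝ) ^ 2)⌋ : ℝ) ^ 2 ≤ r ^ 2 - (⌊r⌋ : ℝ) ^ 2 ∧
      r ^ 2 - (⌊r⌋ : ℝ) ^ 2 < ((⌊√(r ^ 2 - (⌊r⌋ : ℝ) ^ 2)⌋ : ℝ) + 1) ^ 2 := by
  have h1 : (1 : ℝ) ≤ ⌊r⌋ := by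
    have : (1 : ℤ) ≤ ⌊r⌋ := Int.le_floor.mpr (by simpa using hr)
    exact_mod_cast this
  have h2 : (⌊r⌋ : ℝ) ≤ r := Int.floor_le r
  have h3 : r < ⌊r⌋ + 1 := Int.lt_floor_add_one r
  have hs : 0 ≤ r ^ 2 - (⌊r⌋ : ℝ) ^ 2 := by nlinarith
  set s := r ^ 2 - (⌊r⌋ : ℝ) ^ 2 with hsdef
  have h4 : (0 : ℝ) ≤ ⌊√s⌋ := by
    have : (0 : ℤ) ≤ ⌊√s⌋ := Int.floor_nonneg.mpr (Real.sqrt_nonneg s)
    exact_mod_cast this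
  have h5 : (⌊√s⌋ : ℝ) ≤ √s := Int.floor_le _
  have h6 : √s < ⌊√s⌋ + 1 := Int.lt_floor_add_one _
  have h7 : √s ^ 2 = s := Real.sq_sqrt hs
  refine ⟨h1, h2, h3, h4, ?_, ?_⟩
  · calc (⌊√s⌋ : ℝ) ^ 2 ≤ √s ^ 2 := pow_le_pow_left₀ h4 h5 2
      _ = s := h7
  · calc s = √s ^ 2 := h7.symm
      _ < ((⌊√s⌋ : ℝ) + 1) ^ 2 := pow_lt_pow_left₀ h6 (Real.sqrt_nonneg s) (by norm_num)

private theorem node_norm_lat (a b : ℤ) : ‖lat (a, b)‖ = √((a : ℝ) ^ 2 + (b : ℝ) ^ 2) := by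
  rw [Complex.norm_def, Complex.normSq_apply, lat_re, lat_im]
  congr 1
  ring

theorem lo_le {r : ℝ} (hr : 1 ≤ r) : 1 ≤ lo r ∧ lo r ≤ r := by
  obtain ⟨h1, h2, h3, h4, h5, h6⟩ := node_basic hr
  unfold lo
  constructor
  · refine Real.one_le_sqrt.mpr ?_
    nlinarith [sq_nonneg (⌊√(r ^ 2 - (⌊r⌋ : ℝ) ^ 2)⌋ : ℝ)]
  · refine Real.sqrt_le_iff.mpr ⟨by linarith, ?_⟩
    linarith

theorem lt_hi {r : ℝ} (hr : 1 ≤ r) : r < hi r := by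
  obtain ⟨h1, h2, h3, h4, h5, h6⟩ := node_basic hr
  unfold hi
  refine Real.lt_sqrt_of_sq_lt ?_
  linarith

theorem hi_sub_lo {r : ℝ} (hr : 1 ≤ r) : hi r - lo r ≤ 8 / √r := by
  have hlo := lo_le hr
  have hhi := lt_hi hr
  obtain ⟨h1, h2, h3, h4, h5, h6⟩ := node_basic hr
  have hq : (1 : ℝ) ≤ √r := Real.one_le_sqrt.mpr hr
  have hqq : √r ^ 2 = r := Real.sq_sqrt (by linarith)
  have hlo2 : lo r ^ 2 = (⌊r⌋ : ℝ) ^ 2 + (⌊√(r ^ 2 - (⌊r⌋ : ℝ) ^ 2)⌋ : ℝ) ^ 2 := by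
    unfold lo
    exact Real.sq_sqrt (by positivity)
  have hhi2 : hi r ^ 2 = (⌊r⌋ : ℝ) ^ 2 + ((⌊√(r ^ 2 - (⌊r⌋ : ℝ) ^ 2)⌋ : ℝ) + 1) ^ 2 := by
    unfold hi
    exact Real.sq_sqrt (by positivity)
  generalize (⌊√(r ^ 2 - (⌊r⌋ : ℝ) ^ 2)⌋ : ℝ) = b at h4 h5 h6 hlo2 hhi2
  generalize (⌊r⌋ : ℝ) = a at h1 h2 h3 h5 h6 hlo2 hhi2
  generalize √r = q at hq hqq ⊢
  generalize lo r = l at hlo hlo2 ⊢
  generalize hi r = u at hhi hhi2 ⊢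
  have hb : b ≤ 2 * q := by
    have : b ^ 2 ≤ (2 * q) ^ 2 := by nlinarith
    exact le_of_sq_le_sq this (by linarith) 
  have hdiff : (u - l) * (u + l) = 2 * b + 1 := by linarith [sq_nonneg b, hlo2, hhi2]
  have hul : r ≤ u + l := by linarith
  have hul0 : 0 < u - l := by linarith
  have h8 : (u - l) * r ≤ 8 * q := by nlinarith
  rw [le_div_iff₀ (by linarith)]
  have : (u - l) * q * q ≤ 8 * q := by nlinarith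
  exact le_of_mul_le_mul_right this (by linarith)

theorem lo_lat {r : ℝ} (hr : 1 ≤ r) : ∃ p : ℤ × ℤ, p ≠ 0 ∧ ‖lat p‖ = lo r := by
  obtain ⟨h1, h2, h3, h4, h5, h6⟩ := node_basic hr
  refine ⟨(⌊r⌋, ⌊√(r ^ 2 - (⌊r⌋ : ℝ) ^ 2)⌋), ?_, ?_⟩
  · intro h
    have h0 : ⌊r⌋ = 0 := congrArg Prod.fst h
    rw [h0] at h1
    norm_num at h1
  · rw [node_norm_lat]
    rfl

theorem hi_lat {r : ℝ} (hr : 1 ≤ r) : ∃ p : ℤ × ℤ, p ≠ 0 ∧ ‖lat p‖ = hi r := by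
  obtain ⟨h1, h2, h3, h4, h5, h6⟩ := node_basic hr
  refine ⟨(⌊r⌋, ⌊√(r ^ 2 - (⌊r⌋ : ℝ) ^ 2)⌋ + 1), ?_, ?_⟩
  · intro h
    have h0 : ⌊r⌋ = 0 := congrArg Prod.fst h
    rw [h0] at h1
    norm_num at h1
  · rw [node_norm_lat]
    unfold hi
    push_cast
    rfl

end Pool.MPb9430d.Frac
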