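import Pool.Agent.Lib.MP_b9430d_co.Frac.Defs

/-!
# Poi: Poisson summation for the Gaussian on the square lattice

One dimension: `Complex.tsum_exp_neg_quadratic` (`∑' n : ℤ, cexp (-π * a * n ^ 2 + 2 * π * b * n) =
1 / a ^ (1/2) * ∑' n : ℤ, cexp (-π / a * (n + I * b) ^ 2)`) with `a = 1/N²`, `b = i s`:
`∑_n exp(-π n²/N²) e(s n) = N ∑_n exp(-π N² (n - s)²)`. The planar Gaussian factors:
`gau N (x + lat p) = [N exp(-π N² (x.re + p.1)²)] [N exp(-π N² (x.im + p.2)²)]`, the same for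
`gh N (lat q) ee(ip x (lat q))`, with `s = - x.re`, `- x.im`; product of two sums:
`Summable.tsum_mul_tsum_of_summable_norm` / `tsum_mul_tsum_of_summable_norm`, `Summable.mul_of_nonneg`. The result is
`∑' p, gau N (x + lat p) = ∑' q, gh N (lat q) ee(± ip x (lat q))`; take real parts (`(ee t).re = cos(2π t)`,
`Complex.re_tsum`). Summability: `summable_exp_neg_mul_int_sq`-type lemmas in the Gaussian/theta files
(`Real.summable_...`, or comparison with a geometric series), or finite sums bounded as in module IntS.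
-/

set_option autoImplicit false

open MeasureTheory Complex Set Real Filter Topology
open scoped ENNReal

namespace Pool.MPb9430d.Frac

open Pool.MPb9430d Pool.MPb9430d.Rough

/-- The one dimensional Gaussian factor. -/
private noncomputable def g1 (N u : ℝ) (n : ℤ) : ℝ := N * Real.exp (-(π * N ^ 2 * (u + n) ^ 2))

/-- The one dimensional dual Gaussian factor. -/
private noncomputable def h1 (N u : ℝ) (n : ℤ) : ℂ :=
  ((Real.exp (-(π * (n : ℝ) ^ 2 / N ^ 2)) : ℝ) : ℂ) * ee (-(u * n))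

private theorem poi_norm_g1 {N : ℝ} (hN : 0 < N) (u : ℝ) : Summable (fun n : ℤ => g1 N u n) := by
  have hτ : 0 < (((N ^ 2 : ℝ) : ℂ) * I).im := by
    rw [Complex.im_ofReal_mul, Complex.I_im, mul_one]
    positivity
  have h := ((summable_jacobiTheta₂_term_iff (((N ^ 2 * u : ℝ) : ℂ) * I)
    (((N ^ 2 : ℝ) : ℂ) * I)).mpr hτ).norm
  have h2 := h.mul_left (N * Real.exp (-(π * N ^ 2 * u ^ 2)))
  refine h2.congr fun n => ?_
  unfold g1 jacobiTheta₂_term
  rw [Complex.norm_exp, mul_assoc, ← Real.exp_add]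
  congr 2
  have e : (2 * (π : ℂ) * I * (n : ℂ) * (((N ^ 2 * u : ℝ) : ℂ) * I) +
      (π : ℂ) * I * (n : ℂ) ^ 2 * (((N ^ 2 : ℝ) : ℂ) * I)) =
      ((-(2 * π * n * (N ^ 2 * u)) - π * (n : ℝ) ^ 2 * N ^ 2 : ℝ) : ℂ) := by
    push_cast
    linear_combination (2 * (π : ℂ) * (n : ℂ) * ((N : ℂ) ^ 2 * (u : ℂ)) +
      (π : ℂ) * (n : ℂ) ^ 2 * (N : ℂ) ^ 2) * I_mul_I
  rw [e, Complex.ofReal_re]
  ring

private theorem poi_g1_nonneg {N : ℝ} (hN : 0 < N) (u : ℝ) (n : ℤ) : 0 ≤ g1 N u n := by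
  unfold g1
  positivity

private theorem poi_summable_h1 {N : ℝ} (hN : 0 < N) (u : ℝ) :
    Summable (fun n : ℤ => ‖h1 N u n‖) := by
  have h := (poi_norm_g1 (inv_pos.2 hN) 0).mul_left N
  refine h.congr fun n => ?_
  unfold h1 g1
  rw [norm_mul, norm_ee, mul_one, Complex.norm_real, Real.norm_of_nonneg (Real.exp_pos _).le,
    ← mul_assoc, mul_inv_cancel₀ hN.ne', one_mul]
  congr 2
  rw [zero_add, inv_pow]
  ring

/-- One dimension. -/
private theorem poi_one {N : ℝ} (hN : 0 < N) (u : ℝ) :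
    ∑' n : ℤ, ((g1 N u n : ℝ) : ℂ) = ∑' n : ℤ, h1 N u n := by
  have ha : 0 < (((1 / N ^ 2 : ℝ) : ℂ)).re := by
    rw [Complex.ofReal_re]
    positivity
  have h := Complex.tsum_exp_neg_quadratic ha (-(u : ℂ) * I)
  have e1 : ∀ n : ℤ, cexp (-(π : ℂ) * ((1 / N ^ 2 : ℝ) : ℂ) * (n : ℂ) ^ 2 +
      2 * (π : ℂ) * (-(u : ℂ) * I) * (n : ℂ)) = h1 N u n := by
    intro n
    unfold h1 ee
    rw [Complex.ofReal_exp, ← Complex.exp_add]
    congr 1
    push_cast
    ring
  have hNc : (N : ℂ) ≠ 0 := by exact_mod_cast hN.ne'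
  have e2 : (1 : ℂ) / (((1 / N ^ 2 : ℝ) : ℂ)) ^ (1 / 2 : ℂ) = (N : ℂ) := by
    have e3 : (((1 / N ^ 2 : ℝ) : ℂ)) ^ (1 / 2 : ℂ) = (((1 / N : ℝ)) : ℂ) := by
      have h5 : (1 / 2 : ℂ) = ((1 / 2 : ℝ) : ℂ) := by push_cast; rfl
      rw [h5, ← Complex.ofReal_cpow (by positivity : (0 : ℝ) ≤ 1 / N ^ 2)]
      congr 1
      rw [← Real.sqrt_eq_rpow, show (1 : ℝ) / N ^ 2 = (1 / N) ^ 2 by ring,
        Real.sqrt_sq (by positivity)]
    rw [e3]
    push_cast
    rw [one_div_one_div]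
  have e4 : ∀ n : ℤ, (N : ℂ) * cexp (-(π : ℂ) / ((1 / N ^ 2 : ℝ) : ℂ) *
      ((n : ℂ) + I * (-(u : ℂ) * I)) ^ 2) = ((g1 N u n : ℝ) : ℂ) := by
    intro n
    unfold g1
    rw [Complex.ofReal_mul, Complex.ofReal_exp]
    congr 2
    have e5 : (n : ℂ) + I * (-(u : ℂ) * I) = (u : ℂ) + (n : ℂ) := by
      linear_combination (-(u : ℂ)) * I_mul_I
    rw [e5]
    push_cast
    field_simp
  rw [tsum_congr e1, e2, ← tsum_mul_left, tsum_congr e4] at h
  exact h.symm

private theorem poi_gau_split (N : ℝ) (x : ℂ) (p : ℤ × ℤ) :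
    gau N (x + lat p) = g1 N x.re p.1 * g1 N x.im p.2 := by
  unfold gau g1
  have e : ‖x + lat p‖ ^ 2 = (x.re + p.1) ^ 2 + (x.im + p.2) ^ 2 := by
    rw [← Complex.normSq_eq_norm_sq, Complex.normSq_apply]
    simp only [Complex.add_re, Complex.add_im, lat_re, lat_im]
    ring
  rw [e, mul_mul_mul_comm, ← Real.exp_add, ← pow_two]
  congr 2
  ring

private theorem poi_gh_split (N : ℝ) (x : ℂ) (p : ℤ × ℤ) :
    ((gh N (lat p) : ℝ) : ℂ) * ee (-(ip x (lat p))) = h1 N x.re p.1 * h1 N x.im p.2 := by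
  unfold gh h1
  have e : ‖lat p‖ ^ 2 = (p.1 : ℝ) ^ 2 + (p.2 : ℝ) ^ 2 := by
    rw [← Complex.normSq_eq_norm_sq, Complex.normSq_apply]
    simp only [lat_re, lat_im]
    ring
  have e2 : ip x (lat p) = x.re * p.1 + x.im * p.2 := by
    unfold ip
    rw [lat_re, lat_im]
  rw [e, e2, mul_mul_mul_comm, ← Complex.ofReal_mul, ← Real.exp_add, ← ee_add]
  congr 2
  · congr 2
    ring
  · ring

theorem summable_gau {N : ℝ} (hN : 0 < N) (x : ℂ) :
    Summable (fun p : ℤ × ℤ => gau N (x + lat p)) := by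
  have h := Summable.mul_of_nonneg (poi_norm_g1 hN x.re) (poi_norm_g1 hN x.im)
    (fun n => poi_g1_nonneg hN x.re n) (fun n => poi_g1_nonneg hN x.im n)
  exact h.congr fun p => (poi_gau_split N x p).symm

theorem summable_gh {N : ℝ} (hN : 0 < N) : Summable (fun p : ℤ × ℤ => gh N (lat p)) := by
  have h := Summable.mul_of_nonneg (poi_summable_h1 hN 0) (poi_summable_h1 hN 0)
    (fun n => norm_nonneg _) (fun n => norm_nonneg _)
  refine h.congr fun p => ?_
  have e := poi_gh_split N 0 p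
  have e2 := congrArg (fun z : ℂ => ‖z‖) e
  simp only [norm_mul, norm_ee, mul_one, Complex.norm_real, Complex.zero_re, Complex.zero_im] at e2
  rw [Real.norm_of_nonneg (gh_pos N _).le] at e2
  exact e2.symm

theorem poisson {N : ℝ} (hN : 0 < N) (x : ℂ) :
    ∑' p : ℤ × ℤ, gau N (x + lat p) =
      ∑' q : ℤ × ℤ, gh N (lat q) * Real.cos (2 * π * ip x (lat q)) := by
  have hg : ∀ u : ℝ, Summable (fun n : ℤ => ‖((g1 N u n : ℝ) : ℂ)‖) := by
    intro u
    refine (poi_norm_g1 hN u).congr fun n => ?_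
    rw [Complex.norm_real, Real.norm_of_nonneg (poi_g1_nonneg hN u n)]
  have e1 := tsum_mul_tsum_of_summable_norm (hg x.re) (hg x.im)
  have e2 := tsum_mul_tsum_of_summable_norm (poi_summable_h1 hN x.re) (poi_summable_h1 hN x.im)
  rw [poi_one hN, poi_one hN, e2] at e1
  have e3 : ∑' p : ℤ × ℤ, ((gau N (x + lat p) : ℝ) : ℂ) =
      ∑' q : ℤ × ℤ, ((gh N (lat q) : ℝ) : ℂ) * ee (-(ip x (lat q))) := by
    rw [tsum_congr fun q => poi_gh_split N x q, e1]
    refine tsum_congr fun p => ?_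
    rw [poi_gau_split, Complex.ofReal_mul]
  have hs : Summable fun q : ℤ × ℤ => ((gh N (lat q) : ℝ) : ℂ) * ee (-(ip x (lat q))) := by
    refine Summable.of_norm ((summable_gh hN).congr fun q => ?_)
    rw [norm_mul, norm_ee, mul_one, Complex.norm_real, Real.norm_of_nonneg (gh_pos N _).le]
  have e4 := congrArg Complex.re e3
  rw [← Complex.ofReal_tsum, Complex.ofReal_re, Complex.re_tsum hs] at e4
  rw [e4]
  refine tsum_congr fun q => ?_
  rw [Complex.re_ofReal_mul]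
  congr 1
  unfold ee
  rw [Complex.exp_ofReal_mul_I_re, ← Real.cos_neg]
  congr 1
  ring

end Pool.MPb9430d.Frac
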