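import Pool.Agent.Lib.MP_b9430d_co.Frac.GamB
import Pool.Agent.Lib.MP_b9430d_co.Frac.ChV

/-!
# QA: the pair integral away from the singular circles

`|gam N p s| ≤ 5N² exp(-πN²η²)` on `[t, T]` (`abs_gam_le`), and `(2/π)∫_t^T s wt = 1` (`wt_one`, `wt ≥ 0`).
`q_int`: the integrand is integrable (`wt_int` times a continuous function).
`q_tail`: the part `|s - ρ| ≥ η` of the integral, same estimate (restrict to a measurable subset `A` of `[t,T]`).
-/

set_option autoImplicit false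

open MeasureTheory Complex Set Real Filter Topology
open scoped ENNReal

namespace Pool.MPb9430d.Frac

open Pool.MPb9430d Pool.MPb9430d.Rough

private theorem QA_wt_nonneg (t T s : ℝ) : 0 ≤ wt t T s := by
  unfold wt
  positivity

private theorem QA_wt_icc {t T : ℝ} (ht : 0 < t) (hT : t < T) :
    IntegrableOn (wt t T) (Icc t T) := by
  rw [integrableOn_Icc_iff_integrableOn_Ioc]
  exact (intervalIntegrable_iff_integrableOn_Ioc_of_le hT.le).1 (wt_int ht hT)

theorem q_int {N : ℝ} (p : ℂ) {t T : ℝ} (ht : 0 < t) (hT : t < T) :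
    IntegrableOn (fun s => gam N p s * s * wt t T s) (Icc t T) := by
  have h1 : ContinuousOn (fun s => gam N p s * s) (Icc t T) :=
    ((continuous_gam N p).mul continuous_id).continuousOn
  exact IntegrableOn.continuousOn_mul h1 (QA_wt_icc ht hT) isCompact_Icc

theorem q_tail {N : ℝ} (hN : 0 < N) (p : ℂ) {t T η : ℝ} (ht : 0 < t) (hT : t < T) (hη : 0 ≤ η)
    {A : Set ℝ} (hA : MeasurableSet A) (hAT : A ⊆ Icc t T) (h : ∀ s ∈ A, η ≤ |‖p‖ - s|) :
    2 / π * ∫ s in A, |gam N p s * s * wt t T s| ≤ 5 * N ^ 2 * Real.exp (-(π * N ^ 2 * η ^ 2)) := by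
  have h1 : IntegrableOn (fun s => s * wt t T s) (Icc t T) :=
    IntegrableOn.continuousOn_mul continuous_id.continuousOn (QA_wt_icc ht hT) isCompact_Icc
  have h2 : IntegrableOn (fun s => 5 * N ^ 2 * Real.exp (-(π * N ^ 2 * η ^ 2)) * (s * wt t T s))
      (Icc t T) := h1.const_mul _
  have hpi := Real.pi_pos
  have h3 : ∫ s in A, |gam N p s * s * wt t T s| ≤
      ∫ s in A, 5 * N ^ 2 * Real.exp (-(π * N ^ 2 * η ^ 2)) * (s * wt t T s) := by
    apply setIntegral_mono_on ((q_int p ht hT).mono_set hAT).abs (h2.mono_set hAT) hA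
    intro s hs
    have hs0 : 0 ≤ s := ht.le.trans (hAT hs).1
    have hw := QA_wt_nonneg t T s
    rw [mul_assoc, abs_mul, abs_of_nonneg (mul_nonneg hs0 hw)]
    apply mul_le_mul_of_nonneg_right _ (mul_nonneg hs0 hw)
    refine (abs_gam_le hN p hs0).trans ?_
    apply mul_le_mul_of_nonneg_left _ (by positivity)
    apply Real.exp_le_exp.2
    have h4 : η ^ 2 ≤ (‖p‖ - s) ^ 2 := by
      rw [← sq_abs (‖p‖ - s)]
      exact pow_le_pow_left₀ hη (h s hs) 2
    have h5 : π * N ^ 2 * η ^ 2 ≤ π * N ^ 2 * (‖p‖ - s) ^ 2 :=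
      mul_le_mul_of_nonneg_left h4 (by positivity)
    linarith
  have h6 : ∫ s in A, 5 * N ^ 2 * Real.exp (-(π * N ^ 2 * η ^ 2)) * (s * wt t T s) ≤
      ∫ s in Icc t T, 5 * N ^ 2 * Real.exp (-(π * N ^ 2 * η ^ 2)) * (s * wt t T s) := by
    apply setIntegral_mono_set h2
    · filter_upwards [ae_restrict_mem measurableSet_Icc] with s hs
      have hs0 : 0 ≤ s := ht.le.trans hs.1
      have hw := QA_wt_nonneg t T s
      simp only [Pi.zero_apply]
      positivity
    · exact HasSubset.Subset.eventuallyLE hAT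
  have h7 : 2 / π * ∫ s in Icc t T, s * wt t T s = 1 := by
    rw [integral_Icc_eq_integral_Ioc, ← intervalIntegral.integral_of_le hT.le]
    exact wt_one ht hT
  have h8 : ∫ s in Icc t T, 5 * N ^ 2 * Real.exp (-(π * N ^ 2 * η ^ 2)) * (s * wt t T s) =
      5 * N ^ 2 * Real.exp (-(π * N ^ 2 * η ^ 2)) * ∫ s in Icc t T, s * wt t T s :=
    integral_const_mul _ _
  rw [h8] at h6
  calc 2 / π * ∫ s in A, |gam N p s * s * wt t T s|
      ≤ 2 / π * (5 * N ^ 2 * Real.exp (-(π * N ^ 2 * η ^ 2)) *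
        ∫ s in Icc t T, s * wt t T s) :=
        mul_le_mul_of_nonneg_left (h3.trans h6) (by positivity)
    _ = 5 * N ^ 2 * Real.exp (-(π * N ^ 2 * η ^ 2)) *
        (2 / π * ∫ s in Icc t T, s * wt t T s) := by ring
    _ = 5 * N ^ 2 * Real.exp (-(π * N ^ 2 * η ^ 2)) := by rw [h7, mul_one]

theorem q_a {N : ℝ} (hN : 0 < N) (p : ℂ) {t T η : ℝ} (ht : 0 < t) (hT : t < T) (hη : 0 ≤ η)
    (h : ∀ s ∈ Icc t T, η ≤ |‖p‖ - s|) :
    |2 / π * ∫ s in t..T, gam N p s * s * wt t T s| ≤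
      5 * N ^ 2 * Real.exp (-(π * N ^ 2 * η ^ 2)) := by
  have hpi := Real.pi_pos
  rw [abs_mul, abs_of_nonneg (by positivity : (0 : ℝ) ≤ 2 / π),
    intervalIntegral.integral_of_le hT.le]
  refine le_trans (mul_le_mul_of_nonneg_left (abs_integral_le_integral_abs) (by positivity)) ?_
  exact q_tail hN p ht hT hη measurableSet_Ioc Ioc_subset_Icc_self
    fun s hs => h s (Ioc_subset_Icc_self hs)

end Pool.MPb9430d.Frac
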