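import Pool.Agent.Lib.MP_b9430d_co.Frac.ChV

/-!
# WtB: bounds for the weight

Setting: `1 ≤ X`, `1 < t`, `t + 2X ≤ T`, `1/2 ≤ ρ`, `0 < η ≤ 1/4`.
`wt_near` (`|ρ - t| < η` or `|ρ - T| < η`): `∫_{s ∈ [t,T], |s-ρ| ≤ η} wt ≤ 2√2 √η/(√ρ X)`.
 If `|ρ-t| < η`: `s ∈ [t, t+2η]`, `T - s ≥ 2X - 2η ≥ X`, `s + t ≥ 2t ≥ ρ`, `T + s ≥ 2X`: `wt ≤ 1/(√(s-t) √(2ρ) X)`, and
 `∫_t^{t+2η} (s-t)^(-1/2) = 2√(2η)`. If `|ρ-T| < η`: `s ∈ [T-2η, T]`, `s - t ≥ X`, `s + t ≥ s ≥ ρ/2`, `T + s ≥ 2X`: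
 `wt ≤ 1/(√(T-s) √ρ X)`.
`wt_lip` (`t + η ≤ ρ ≤ T - η`, `d = min (ρ-t) (T-ρ) ≥ η`, `|s - ρ| ≤ η/2`): `|wt s - wt ρ| ≤ 4√2 |s-ρ| /(d √(dρ) X)`:
 on the segment `s-t ≥ d/2`, `T-s ≥ d/2`, one of them `≥ X` (sum `≥ 2X`), `s+t ≥ ρ/2`, `T+s ≥ 2X`, so the product is
 `≥ dρX²/2`, `wt ≤ √2/(√(dρ) X)`; `|wt'| = wt·|1/(s-t) + 1/(s+t) - 1/(T-s) + 1/(T+s)|/2 ≤ wt (1/(s-t) + 1/(T-s)) ≤ 4 wt/d`;
 mean value theorem (`Convex.norm_image_sub_le_of_norm_deriv_le`), or directly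
 `|x^(-1/2) - y^(-1/2)| ≤ |x-y|/(2 min(x,y)^(3/2))` with `x, y` the two products.
`wt_le`: same hypotheses, `wt ρ ≤ √2/(√(dρ) X)`.
-/

set_option autoImplicit false

open MeasureTheory Complex Set Real Filter Topology
open scoped ENNReal

namespace Pool.MPb9430d.Frac

open Pool.MPb9430d Pool.MPb9430d.Rough

private theorem WtB_inv {x : ℝ} (hx : 0 ≤ x) : x ^ (-(1 / 2) : ℝ) = (√x)⁻¹ := by
  rw [Real.rpow_neg hx, Real.sqrt_eq_rpow]

private theorem WtB_bd {t T s a b : ℝ} (ha : 0 ≤ a) (hb : 0 < b)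
    (h : a * b ^ 2 ≤ (s ^ 2 - t ^ 2) * (T ^ 2 - s ^ 2))
    (h0 : a = 0 → (s ^ 2 - t ^ 2) * (T ^ 2 - s ^ 2) = 0) :
    wt t T s ≤ b⁻¹ * a ^ (-(1 / 2) : ℝ) := by
  rw [WtB_inv ha]
  unfold wt
  rcases eq_or_lt_of_le ha with h1 | h1
  · rw [h0 h1.symm, ← h1]
    simp
  · have h2 : 0 < √a := Real.sqrt_pos.2 h1
    have h3 : √a * b ≤ √((s ^ 2 - t ^ 2) * (T ^ 2 - s ^ 2)) := by
      apply Real.le_sqrt_of_sq_le
      rw [mul_pow, Real.sq_sqrt ha]
      exact h
    calc 1 / √((s ^ 2 - t ^ 2) * (T ^ 2 - s ^ 2)) ≤ 1 / (√a * b) :=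
          one_div_le_one_div_of_le (mul_pos h2 hb) h3
      _ = b⁻¹ * (√a)⁻¹ := by rw [one_div, mul_inv]; ring

private theorem WtB_nonneg (t T s : ℝ) : 0 ≤ wt t T s := by
  unfold wt
  positivity

private theorem WtB_int1 (t η : ℝ) (hη : 0 < η) :
    IntegrableOn (fun s => (s - t) ^ (-(1 / 2) : ℝ)) (Icc t (t + 2 * η)) ∧
      ∫ s in Icc t (t + 2 * η), (s - t) ^ (-(1 / 2) : ℝ) = 2 * √(2 * η) := by
  have hle : t ≤ t + 2 * η := by linarith
  have hI : IntervalIntegrable (fun s => (s - t) ^ (-(1 / 2) : ℝ)) volume t (t + 2 * η) := by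
    have h := (intervalIntegral.intervalIntegrable_rpow' (a := 0) (b := 2 * η)
      (r := (-(1 / 2) : ℝ)) (by norm_num)).comp_sub_right t
    simpa [add_comm] using h
  constructor
  · rw [integrableOn_Icc_iff_integrableOn_Ioc]
    exact (intervalIntegrable_iff_integrableOn_Ioc_of_le hle).1 hI
  · rw [integral_Icc_eq_integral_Ioc, ← intervalIntegral.integral_of_le hle,
      intervalIntegral.integral_comp_sub_right (fun x => x ^ (-(1 / 2) : ℝ)) t,
      integral_rpow (Or.inl (by norm_num))]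
    have e1 : t + 2 * η - t = 2 * η := by ring
    have e2 : (-(1 / 2) : ℝ) + 1 = 1 / 2 := by norm_num
    rw [e1, sub_self, e2, Real.zero_rpow (by norm_num), Real.sqrt_eq_rpow]
    ring

private theorem WtB_int2 (T η : ℝ) (hη : 0 < η) :
    IntegrableOn (fun s => (T - s) ^ (-(1 / 2) : ℝ)) (Icc (T - 2 * η) T) ∧
      ∫ s in Icc (T - 2 * η) T, (T - s) ^ (-(1 / 2) : ℝ) = 2 * √(2 * η) := by
  have hle : T - 2 * η ≤ T := by linarith
  have hI : IntervalIntegrable (fun s => (T - s) ^ (-(1 / 2) : ℝ)) volume (T - 2 * η) T := by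
    have h := (intervalIntegral.intervalIntegrable_rpow' (a := 2 * η) (b := 0)
      (r := (-(1 / 2) : ℝ)) (by norm_num)).comp_sub_left T
    simpa using h
  constructor
  · rw [integrableOn_Icc_iff_integrableOn_Ioc]
    exact (intervalIntegrable_iff_integrableOn_Ioc_of_le hle).1 hI
  · rw [integral_Icc_eq_integral_Ioc, ← intervalIntegral.integral_of_le hle,
      intervalIntegral.integral_comp_sub_left (fun x => x ^ (-(1 / 2) : ℝ)) T,
      integral_rpow (Or.inl (by norm_num))]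
    have e1 : T - (T - 2 * η) = 2 * η := by ring
    have e2 : (-(1 / 2) : ℝ) + 1 = 1 / 2 := by norm_num
    rw [e1, sub_self, e2, Real.zero_rpow (by norm_num), Real.sqrt_eq_rpow]
    ring

private theorem WtB_main {t T ρ η X : ℝ} {B : Set ℝ} {g : ℝ → ℝ} (hρ : 0 < ρ) (hX : 0 < X)
    (hη : 0 < η)
    (hsub : Icc t T ∩ {s | |s - ρ| ≤ η} ⊆ B) (hg0 : ∀ s ∈ B, 0 ≤ g s) (hB : MeasurableSet B)
    (hg : IntegrableOn g B) (hv : ∫ s in B, g s = 2 * √(2 * η))
    (hb : ∀ s ∈ Icc t T ∩ {s | |s - ρ| ≤ η}, wt t T s ≤ (√ρ * X)⁻¹ * g s) :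
    ∫ s in (Icc t T ∩ {s | |s - ρ| ≤ η}), wt t T s ≤ 2 * √2 * √η / (√ρ * X) := by
  have hm : MeasurableSet (Icc t T ∩ {s | |s - ρ| ≤ η}) := by
    apply measurableSet_Icc.inter
    exact (isClosed_le (by fun_prop) continuous_const).measurableSet
  have hpos : 0 < √ρ * X := mul_pos (Real.sqrt_pos.2 hρ) hX
  have hgi : IntegrableOn (fun s => (√ρ * X)⁻¹ * g s) B := hg.const_mul _
  calc ∫ s in (Icc t T ∩ {s | |s - ρ| ≤ η}), wt t T s
      ≤ ∫ s in (Icc t T ∩ {s | |s - ρ| ≤ η}), (√ρ * X)⁻¹ * g s := by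
        apply integral_mono_of_nonneg
        · exact Filter.Eventually.of_forall fun s => WtB_nonneg t T s
        · exact hgi.mono_set hsub
        · exact (ae_restrict_iff' hm).2 (Filter.Eventually.of_forall hb)
    _ ≤ ∫ s in B, (√ρ * X)⁻¹ * g s := by
        apply setIntegral_mono_set hgi
        · exact (ae_restrict_iff' hB).2 (Filter.Eventually.of_forall fun s hs =>
            mul_nonneg (inv_nonneg.2 hpos.le) (hg0 s hs))
        · exact hsub.eventuallyLE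
    _ = (√ρ * X)⁻¹ * (2 * √(2 * η)) := by rw [integral_const_mul, hv]
    _ = 2 * √2 * √η / (√ρ * X) := by
        rw [Real.sqrt_mul (by norm_num)]
        field_simp

theorem wt_near {X t T ρ η : ℝ} (hX : 1 ≤ X) (ht : 1 < t) (hT : t + 2 * X ≤ T) (hρ : 1 / 2 ≤ ρ)
    (hη : 0 < η) (hη4 : η ≤ 1 / 4) (h : |ρ - t| < η ∨ |ρ - T| < η) :
    ∫ s in (Icc t T ∩ {s | |s - ρ| ≤ η}), wt t T s ≤ 2 * √2 * √η / (√ρ * X) := by
  have hρ0 : 0 < ρ := by linarith
  have hX0 : 0 < X := by linarith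
  have hb0 : 0 < √ρ * X := mul_pos (Real.sqrt_pos.2 hρ0) hX0
  have hb2 : (√ρ * X) ^ 2 = ρ * X ^ 2 := by rw [mul_pow, Real.sq_sqrt hρ0.le]
  rcases h with h | h
  · obtain ⟨h1, h2⟩ := abs_lt.1 h
    obtain ⟨i1, i2⟩ := WtB_int1 t η hη
    apply WtB_main hρ0 hX0 hη (B := Icc t (t + 2 * η)) (g := fun s => (s - t) ^ (-(1 / 2) : ℝ))
    · rintro s ⟨⟨hs1, hs2⟩, hs3⟩
      have := (abs_le.1 (show |s - ρ| ≤ η from hs3)).2
      exact ⟨hs1, by linarith⟩
    · intro s hs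
      exact Real.rpow_nonneg (by linarith [hs.1]) _
    · exact measurableSet_Icc
    · exact i1
    · exact i2
    · rintro s ⟨⟨hs1, hs2⟩, hs3⟩
      have hs4 := (abs_le.1 (show |s - ρ| ≤ η from hs3)).2
      apply WtB_bd (by linarith) hb0
      · rw [hb2]
        have k1 : 0 ≤ s - t := by linarith
        have k2 : ρ ≤ s + t := by linarith
        have k3 : X ≤ T - s := by linarith
        have k4 : X ≤ T + s := by linarith
        calc (s - t) * (ρ * X ^ 2) = (s - t) * ρ * (X * X) := by ring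
          _ ≤ (s - t) * (s + t) * ((T - s) * (T + s)) := by
              apply mul_le_mul
              · exact mul_le_mul_of_nonneg_left k2 k1
              · exact mul_le_mul k3 k4 hX0.le (by linarith)
              · positivity
              · exact mul_nonneg k1 (by linarith)
          _ = (s ^ 2 - t ^ 2) * (T ^ 2 - s ^ 2) := by ring
      · intro hh
        have : s = t := by linarith
        rw [this]
        ring
  · obtain ⟨h1, h2⟩ := abs_lt.1 h
    obtain ⟨i1, i2⟩ := WtB_int2 T η hη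
    apply WtB_main hρ0 hX0 hη (B := Icc (T - 2 * η) T) (g := fun s => (T - s) ^ (-(1 / 2) : ℝ))
    · rintro s ⟨⟨hs1, hs2⟩, hs3⟩
      have := (abs_le.1 (show |s - ρ| ≤ η from hs3)).1
      exact ⟨by linarith, hs2⟩
    · intro s hs
      exact Real.rpow_nonneg (by linarith [hs.2]) _
    · exact measurableSet_Icc
    · exact i1
    · exact i2
    · rintro s ⟨⟨hs1, hs2⟩, hs3⟩
      have hs4 := (abs_le.1 (show |s - ρ| ≤ η from hs3)).1
      apply WtB_bd (by linarith) hb0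
      · rw [hb2]
        have k1 : 0 ≤ T - s := by linarith
        have k2 : ρ / 2 ≤ s + t := by linarith
        have k3 : X ≤ s - t := by linarith
        have k4 : 2 * X ≤ T + s := by linarith
        calc (T - s) * (ρ * X ^ 2) = (T - s) * (ρ / 2) * (X * (2 * X)) := by ring
          _ ≤ (T - s) * (s + t) * ((s - t) * (T + s)) := by
              apply mul_le_mul
              · exact mul_le_mul_of_nonneg_left k2 k1
              · exact mul_le_mul k3 k4 (by positivity) (by linarith)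
              · positivity
              · exact mul_nonneg k1 (by linarith)
          _ = (s ^ 2 - t ^ 2) * (T ^ 2 - s ^ 2) := by ring
      · intro hh
        have : s = T := by linarith
        rw [this]
        ring

/-- lower bound for the product on the segment -/
private theorem WtB_low {X t T ρ η s : ℝ} (hX : 1 ≤ X) (ht : 1 < t) (hT : t + 2 * X ≤ T)
    (hη : 0 < η) (h1 : t + η ≤ ρ) (h2 : ρ ≤ T - η) (hs : |s - ρ| ≤ η / 2) :
    min (ρ - t) (T - ρ) / 2 ≤ s - t ∧ min (ρ - t) (T - ρ) / 2 ≤ T - s ∧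
      min (ρ - t) (T - ρ) * ρ * X ^ 2 / 2 ≤ (s ^ 2 - t ^ 2) * (T ^ 2 - s ^ 2) := by
  obtain ⟨k1, k2⟩ := abs_le.1 hs
  have m1 := min_le_left (ρ - t) (T - ρ)
  have m2 := min_le_right (ρ - t) (T - ρ)
  have m3 : η ≤ min (ρ - t) (T - ρ) := le_min (by linarith) (by linarith)
  set d := min (ρ - t) (T - ρ) with hd
  have a1 : d / 2 ≤ s - t := by linarith
  have a2 : d / 2 ≤ T - s := by linarith
  refine ⟨a1, a2, ?_⟩
  have hd0 : 0 < d := by linarith
  have a3 : d / 2 * X ≤ (s - t) * (T - s) := by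
    rcases le_total X (s - t) with h | h
    · calc d / 2 * X ≤ (T - s) * (s - t) := mul_le_mul a2 h (by linarith) (by linarith)
        _ = (s - t) * (T - s) := by ring
    · exact mul_le_mul a1 (by linarith) (by linarith) (by linarith)
  have a4 : ρ / 2 * (2 * X) ≤ (s + t) * (T + s) :=
    mul_le_mul (by linarith) (by linarith) (by linarith) (by linarith)
  calc d * ρ * X ^ 2 / 2 = d / 2 * X * (ρ / 2 * (2 * X)) := by ring
    _ ≤ (s - t) * (T - s) * ((s + t) * (T + s)) := by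
        apply mul_le_mul a3 a4
        · have : 0 < ρ := by linarith
          positivity
        · exact mul_nonneg (by linarith) (by linarith)
    _ = (s ^ 2 - t ^ 2) * (T ^ 2 - s ^ 2) := by ring

private theorem WtB_up {X t T ρ η s : ℝ} (hX : 1 ≤ X) (ht : 1 < t) (hT : t + 2 * X ≤ T)
    (hη : 0 < η) (h1 : t + η ≤ ρ) (h2 : ρ ≤ T - η) (hs : |s - ρ| ≤ η / 2) :
    0 < (s ^ 2 - t ^ 2) * (T ^ 2 - s ^ 2) ∧
    1 / √((s ^ 2 - t ^ 2) * (T ^ 2 - s ^ 2)) ≤ √2 / (√(min (ρ - t) (T - ρ) * ρ) * X) := by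
  obtain ⟨-, -, h⟩ := WtB_low hX ht hT hη h1 h2 hs
  have m3 : η ≤ min (ρ - t) (T - ρ) := le_min (by linarith) (by linarith)
  set d := min (ρ - t) (T - ρ) with hd
  have hd0 : 0 < d := by linarith
  have hρ0 : 0 < ρ := by linarith
  have hX0 : 0 < X := by linarith
  have hdr : 0 < d * ρ := mul_pos hd0 hρ0
  have hpos : 0 < d * ρ * X ^ 2 / 2 := by positivity
  refine ⟨lt_of_lt_of_le hpos h, ?_⟩
  have hs2 : (0 : ℝ) < √2 := by positivity
  have h3 : √(d * ρ) * X / √2 ≤ √((s ^ 2 - t ^ 2) * (T ^ 2 - s ^ 2)) := by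
    apply Real.le_sqrt_of_sq_le
    rw [div_pow, mul_pow, Real.sq_sqrt hdr.le, Real.sq_sqrt (by norm_num)]
    exact h
  have h4 : 0 < √(d * ρ) * X / √2 := by positivity
  calc 1 / √((s ^ 2 - t ^ 2) * (T ^ 2 - s ^ 2)) ≤ 1 / (√(d * ρ) * X / √2) :=
        one_div_le_one_div_of_le h4 h3
    _ = √2 / (√(d * ρ) * X) := by rw [one_div_div]

theorem wt_le {X t T ρ η : ℝ} (hX : 1 ≤ X) (ht : 1 < t) (hT : t + 2 * X ≤ T)
    (hη : 0 < η) (h1 : t + η ≤ ρ) (h2 : ρ ≤ T - η) :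
    wt t T ρ ≤ √2 / (√(min (ρ - t) (T - ρ) * ρ) * X) := by
  have h := (WtB_up (s := ρ) hX ht hT hη h1 h2 (by rw [sub_self, abs_zero]; linarith)).2
  exact h

theorem wt_lip {X t T ρ η s : ℝ} (hX : 1 ≤ X) (ht : 1 < t) (hT : t + 2 * X ≤ T)
    (hη : 0 < η) (hη4 : η ≤ 1 / 4) (h1 : t + η ≤ ρ) (h2 : ρ ≤ T - η) (hs : |s - ρ| ≤ η / 2) :
    |wt t T s - wt t T ρ| ≤
      4 * √2 * |s - ρ| / (min (ρ - t) (T - ρ) * √(min (ρ - t) (T - ρ) * ρ) * X) := by
  have m3 : η ≤ min (ρ - t) (T - ρ) := le_min (by linarith) (by linarith)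
  have hd0 : 0 < min (ρ - t) (T - ρ) := by linarith
  have hρ0 : 0 < ρ := by linarith
  have hX0 : 0 < X := by linarith
  set B : Set ℝ := {x | |x - ρ| ≤ η / 2} with hB
  have hconv : Convex ℝ B := by
    have e : B = Metric.closedBall ρ (η / 2) := by
      ext x
      simp [hB, Real.dist_eq]
    rw [e]
    exact convex_closedBall _ _
  have hder : ∀ x ∈ B, HasDerivWithinAt (wt t T)
      (-((2 * x * (T ^ 2 - x ^ 2) - (x ^ 2 - t ^ 2) * (2 * x)) /
        (2 * √((x ^ 2 - t ^ 2) * (T ^ 2 - x ^ 2)))) /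
        (√((x ^ 2 - t ^ 2) * (T ^ 2 - x ^ 2))) ^ 2) B x := by
    intro x hx
    obtain ⟨hp, -⟩ := WtB_up hX ht hT hη h1 h2 hx
    apply HasDerivAt.hasDerivWithinAt
    have e1 : HasDerivAt (fun y : ℝ => (y ^ 2 - t ^ 2) * (T ^ 2 - y ^ 2))
        (2 * x * (T ^ 2 - x ^ 2) - (x ^ 2 - t ^ 2) * (2 * x)) x := by
      have f1 : HasDerivAt (fun y : ℝ => y ^ 2) (2 * x) x := by
        simpa using hasDerivAt_pow 2 x
      have f2 : HasDerivAt (fun y : ℝ => y ^ 2 - t ^ 2) (2 * x) x := f1.sub_const _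
      have f3 : HasDerivAt (fun y : ℝ => T ^ 2 - y ^ 2) (-(2 * x)) x := f1.const_sub _
      have f4 := f2.mul f3
      refine f4.congr_deriv ?_
      ring
    have e2 := (e1.sqrt hp.ne').inv (Real.sqrt_pos.2 hp).ne'
    have e3 : wt t T = (fun y : ℝ => √((y ^ 2 - t ^ 2) * (T ^ 2 - y ^ 2)))⁻¹ := by
      funext y
      simp [wt]
    rw [e3]
    exact e2
  have hbd : ∀ x ∈ B, ‖(-((2 * x * (T ^ 2 - x ^ 2) - (x ^ 2 - t ^ 2) * (2 * x)) /
        (2 * √((x ^ 2 - t ^ 2) * (T ^ 2 - x ^ 2)))) /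
        (√((x ^ 2 - t ^ 2) * (T ^ 2 - x ^ 2))) ^ 2)‖ ≤
      4 / min (ρ - t) (T - ρ) * (√2 / (√(min (ρ - t) (T - ρ) * ρ) * X)) := by
    intro x hx
    obtain ⟨hp, hu⟩ := WtB_up hX ht hT hη h1 h2 hx
    obtain ⟨a1, a2, -⟩ := WtB_low hX ht hT hη h1 h2 hx
    set d := min (ρ - t) (T - ρ) with hd
    have hsp : 0 < √((x ^ 2 - t ^ 2) * (T ^ 2 - x ^ 2)) := Real.sqrt_pos.2 hp
    have hkey : |2 * x * (T ^ 2 - x ^ 2) - (x ^ 2 - t ^ 2) * (2 * x)| * d ≤
        8 * ((x ^ 2 - t ^ 2) * (T ^ 2 - x ^ 2)) := by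
      have b1 : 0 < x - t := by linarith
      have b2 : 0 < T - x := by linarith
      have b3 : d / 2 ≤ x + t := by linarith
      have b4 : d / 2 ≤ T + x := by linarith
      have b5 : 0 < x + t := by linarith
      have b6 : 0 < T + x := by linarith
      have c1 : d * ((x + t) * ((T - x) * (T + x))) ≤
          2 * ((x - t) * ((x + t) * ((T - x) * (T + x)))) := by
        have := mul_le_mul_of_nonneg_right a1
          (show 0 ≤ (x + t) * ((T - x) * (T + x)) by positivity)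
        linarith
      have c2 : d * ((x - t) * ((T - x) * (T + x))) ≤
          2 * ((x + t) * ((x - t) * ((T - x) * (T + x)))) := by
        have := mul_le_mul_of_nonneg_right b3
          (show 0 ≤ (x - t) * ((T - x) * (T + x)) by positivity)
        linarith
      have c3 : d * ((x - t) * ((x + t) * (T + x))) ≤
          2 * ((T - x) * ((x - t) * ((x + t) * (T + x)))) := by
        have := mul_le_mul_of_nonneg_right a2
          (show 0 ≤ (x - t) * ((x + t) * (T + x)) by positivity)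
        linarith
      have c4 : d * ((x - t) * ((x + t) * (T - x))) ≤
          2 * ((T + x) * ((x - t) * ((x + t) * (T - x)))) := by
        have := mul_le_mul_of_nonneg_right b4
          (show 0 ≤ (x - t) * ((x + t) * (T - x)) by positivity)
        linarith
      have g1 : 0 ≤ (x + t) * ((T - x) * (T + x)) := by positivity
      have g2 : 0 ≤ (x - t) * ((T - x) * (T + x)) := by positivity
      have g3 : 0 ≤ (x - t) * ((x + t) * (T + x)) := by positivity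
      have g4 : 0 ≤ (x - t) * ((x + t) * (T - x)) := by positivity
      have hab : |2 * x * (T ^ 2 - x ^ 2) - (x ^ 2 - t ^ 2) * (2 * x)| ≤
          (x + t) * ((T - x) * (T + x)) + (x - t) * ((T - x) * (T + x)) +
            (x - t) * ((x + t) * (T + x)) + (x - t) * ((x + t) * (T - x)) := by
        have e : 2 * x * (T ^ 2 - x ^ 2) - (x ^ 2 - t ^ 2) * (2 * x) =
            (x + t) * ((T - x) * (T + x)) + (x - t) * ((T - x) * (T + x)) -
            (x - t) * ((x + t) * (T + x)) + (x - t) * ((x + t) * (T - x)) := by ring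
        rw [e, abs_le]
        constructor <;> linarith
      have h5 := mul_le_mul_of_nonneg_right hab hd0.le
      calc |2 * x * (T ^ 2 - x ^ 2) - (x ^ 2 - t ^ 2) * (2 * x)| * d
          ≤ ((x + t) * ((T - x) * (T + x)) + (x - t) * ((T - x) * (T + x)) +
            (x - t) * ((x + t) * (T + x)) + (x - t) * ((x + t) * (T - x))) * d := h5
        _ ≤ 8 * ((x - t) * ((x + t) * ((T - x) * (T + x)))) := by linarith
        _ = 8 * ((x ^ 2 - t ^ 2) * (T ^ 2 - x ^ 2)) := by ring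
    rw [norm_div, norm_neg, norm_div, Real.norm_eq_abs, Real.norm_eq_abs, Real.norm_eq_abs,
      Real.sq_sqrt hp.le, abs_of_pos (by positivity : 0 < 2 * √((x ^ 2 - t ^ 2) * (T ^ 2 - x ^ 2))),
      abs_of_pos hp]
    calc |2 * x * (T ^ 2 - x ^ 2) - (x ^ 2 - t ^ 2) * (2 * x)| /
          (2 * √((x ^ 2 - t ^ 2) * (T ^ 2 - x ^ 2))) / ((x ^ 2 - t ^ 2) * (T ^ 2 - x ^ 2))
        ≤ 4 / d * (1 / √((x ^ 2 - t ^ 2) * (T ^ 2 - x ^ 2))) := by
          rw [div_div, div_mul_div_comm, div_le_div_iff₀ (by positivity) (by positivity)]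
          have := mul_le_mul_of_nonneg_right hkey hsp.le
          linarith
      _ ≤ 4 / d * (√2 / (√(d * ρ) * X)) :=
          mul_le_mul_of_nonneg_left hu (by positivity)
  have hmv := Convex.norm_image_sub_le_of_norm_hasDerivWithin_le hder hbd hconv
    (show ρ ∈ B by simp [hB]; linarith) (show s ∈ B from hs)
  rw [Real.norm_eq_abs, Real.norm_eq_abs] at hmv
  refine hmv.trans (le_of_eq ?_)
  have hX0' : X ≠ 0 := hX0.ne'
  have hsq : √(min (ρ - t) (T - ρ) * ρ) ≠ 0 := (Real.sqrt_pos.2 (mul_pos hd0 hρ0)).ne'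
  field_simp

end Pool.MPb9430d.Frac
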