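import Pool.Agent.Lib.MP_b9430d_co.Frac.QA
import Pool.Agent.Lib.MP_b9430d_co.Frac.WtB

/-!
# QB: the pair integral near a singular circle

Split `[t,T]` into `|s - ‖p‖| ≤ η` and the rest. Rest: `q_tail`. First part: `s ≤ ‖p‖ + η ≤ (3/2)‖p‖`, so
`|gam| s ≤ 3N√(3/2) ≤ 4N` (`abs_gam_mul_le`), and `wt_near`: `(2/π)·4N·2√2√η/(√‖p‖ X) ≤ 8N√η/(√‖p‖X)`.
-/

set_option autoImplicit false

open MeasureTheory Complex Set Real Filter Topology
open scoped ENNReal

namespace Pool.MPb9430d.Frac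

open Pool.MPb9430d Pool.MPb9430d.Rough

theorem q_b {N X t T η : ℝ} {p : ℂ} (hN : 1 ≤ N) (hX : 1 ≤ X) (ht : 1 < t) (hT : t + 2 * X ≤ T)
    (hη : 0 < η) (hη4 : η ≤ 1 / 4) (hp : 1 / 2 ≤ ‖p‖) (h : |‖p‖ - t| < η ∨ |‖p‖ - T| < η) :
    |2 / π * ∫ s in t..T, gam N p s * s * wt t T s| ≤
      8 * N * √η / (√‖p‖ * X) + 5 * N ^ 2 * Real.exp (-(π * N ^ 2 * η ^ 2)) := by
  have ht0 : 0 < t := by linarith
  have htT : t < T := by linarith
  have hρ : 0 < ‖p‖ := by linarith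
  have hp0 : p ≠ 0 := norm_pos_iff.1 hρ
  have hN0 : 0 < N := by linarith
  have hX0 : 0 < X := by linarith
  have hI := q_int (N := N) p ht0 htT
  have hm1 : MeasurableSet {s : ℝ | |s - ‖p‖| ≤ η} :=
    measurableSet_le (by fun_prop) measurable_const
  have hm2 : MeasurableSet {s : ℝ | η < |s - ‖p‖|} :=
    measurableSet_lt measurable_const (by fun_prop)
  have hA1 : MeasurableSet (Icc t T ∩ {s : ℝ | |s - ‖p‖| ≤ η}) := measurableSet_Icc.inter hm1
  have hA2 : MeasurableSet (Icc t T ∩ {s : ℝ | η < |s - ‖p‖|}) := measurableSet_Icc.inter hm2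
  have hU : Icc t T = (Icc t T ∩ {s : ℝ | |s - ‖p‖| ≤ η}) ∪ (Icc t T ∩ {s : ℝ | η < |s - ‖p‖|}) := by
    ext s
    constructor
    · intro hs
      rcases le_or_gt (|s - ‖p‖|) η with h1 | h1
      · exact Or.inl ⟨hs, h1⟩
      · exact Or.inr ⟨hs, h1⟩
    · rintro (hs | hs)
      · exact hs.1
      · exact hs.1
  have hD : Disjoint (Icc t T ∩ {s : ℝ | |s - ‖p‖| ≤ η}) (Icc t T ∩ {s : ℝ | η < |s - ‖p‖|}) := by
    rw [Set.disjoint_left]
    rintro s ⟨-, h1⟩ ⟨-, h2⟩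
    exact absurd (show |s - ‖p‖| ≤ η from h1) (not_le.2 h2)
  have hIa : IntegrableOn (fun s => |gam N p s * s * wt t T s|) (Icc t T) := hI.abs
  have hpi : 0 < 2 / π := by positivity
  have h1 : |2 / π * ∫ s in t..T, gam N p s * s * wt t T s| ≤
      2 / π * ∫ s in Icc t T, |gam N p s * s * wt t T s| := by
    rw [abs_mul, abs_of_pos hpi, intervalIntegral.integral_of_le htT.le,
      ← MeasureTheory.integral_Icc_eq_integral_Ioc]
    exact mul_le_mul_of_nonneg_left (MeasureTheory.abs_integral_le_integral_abs) hpi.le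
  have h2 : ∫ s in Icc t T, |gam N p s * s * wt t T s| =
      (∫ s in (Icc t T ∩ {s : ℝ | |s - ‖p‖| ≤ η}), |gam N p s * s * wt t T s|) +
      ∫ s in (Icc t T ∩ {s : ℝ | η < |s - ‖p‖|}), |gam N p s * s * wt t T s| := by
    rw [← MeasureTheory.setIntegral_union hD hA2 (hIa.mono_set inter_subset_left)
      (hIa.mono_set inter_subset_left), ← hU]
  have h3 := q_tail hN0 p ht0 htT hη.le hA2 inter_subset_left (fun s hs => by
    rw [abs_sub_comm]
    exact (show η < |s - ‖p‖| from hs.2).le)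
  have hW : IntegrableOn (wt t T) (Icc t T) := by
    rw [integrableOn_Icc_iff_integrableOn_Ioc]
    exact (intervalIntegrable_iff_integrableOn_Ioc_of_le htT.le).1 (wt_int ht0 htT)
  have h4 : ∫ s in (Icc t T ∩ {s : ℝ | |s - ‖p‖| ≤ η}), |gam N p s * s * wt t T s| ≤
      ∫ s in (Icc t T ∩ {s : ℝ | |s - ‖p‖| ≤ η}), 4 * N * wt t T s := by
    refine MeasureTheory.setIntegral_mono_on (hIa.mono_set inter_subset_left)
      ((hW.mono_set inter_subset_left).const_mul _) hA1 ?_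
    rintro s ⟨hs1, hs2⟩
    have hs0 : 0 < s := by linarith [hs1.1]
    have hw : 0 ≤ wt t T s := by
      unfold wt
      positivity
    rw [abs_mul, abs_mul, abs_of_pos hs0, abs_of_nonneg hw]
    refine mul_le_mul_of_nonneg_right ?_ hw
    refine (abs_gam_mul_le hN0 hp0 hs0).trans ?_
    have hs3 : s - ‖p‖ ≤ η := (le_abs_self _).trans hs2
    have hs4 : s / ‖p‖ ≤ 16 / 9 := by
      rw [div_le_iff₀ hρ]
      linarith
    have hs5 : √(s / ‖p‖) ≤ 4 / 3 := by
      rw [show (4 / 3 : ℝ) = √(16 / 9) by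
        rw [show (16 / 9 : ℝ) = (4 / 3) ^ 2 by norm_num, Real.sqrt_sq (by norm_num)]]
      exact Real.sqrt_le_sqrt hs4
    nlinarith
  have h5 := wt_near hX ht hT hp hη hη4 h
  rw [MeasureTheory.integral_const_mul] at h4
  have h6 : 2 / π * ∫ s in (Icc t T ∩ {s : ℝ | |s - ‖p‖| ≤ η}), |gam N p s * s * wt t T s| ≤
      8 * N * √η / (√‖p‖ * X) := by
    have hsη : 0 ≤ √η := Real.sqrt_nonneg _
    have hsp : 0 < √‖p‖ := Real.sqrt_pos.2 hρ
    have h7 := mul_le_mul_of_nonneg_left h5 (show (0 : ℝ) ≤ 4 * N by positivity)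
    have h8 := mul_le_mul_of_nonneg_left (h4.trans h7) hpi.le
    refine h8.trans ?_
    have e : 2 / π * (4 * N * (2 * √2 * √η / (√‖p‖ * X))) =
        (2 * √2 / π) * (8 * N * √η / (√‖p‖ * X)) := by ring
    rw [e]
    have h9 : 2 * √2 / π ≤ 1 := by
      rw [div_le_one Real.pi_pos]
      have h10 : √2 < 1.5 := by
        rw [Real.sqrt_lt' (by norm_num)]
        norm_num
      have := Real.pi_gt_three
      linarith
    have h11 : 0 ≤ 8 * N * √η / (√‖p‖ * X) := by positivity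
    nlinarith
  rw [h2, mul_add] at h1
  linarith

end Pool.MPb9430d.Frac
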