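import Pool.Agent.Lib.MP_b9430d_co.Frac.QA
import Pool.Agent.Lib.MP_b9430d_co.Frac.WtB

/-!
# QC: the pair integral between the singular circles

`ρ = ‖p‖`, `t + η ≤ ρ ≤ T - η`, `d = min (ρ-t) (T-ρ) ≥ η`, `I = [ρ-η/2, ρ+η/2] ⊆ [t, T]`. On `I`: `s ≤ (3/2)ρ` (`ρ > 1`), so
`|gam| s ≤ 4N` (`abs_gam_mul_le`). Write
`∫_t^T gam s wt(s) = ∫_{[t,T]\I} gam s wt(s) + ∫_I gam s (wt(s) - wt(ρ)) + wt(ρ) ∫_I gam s`.
(1) `q_tail` with `η/2`: `≤ 5N² exp(-πN²η²/4)`.
(2) `wt_lip`: `(2/π)·η·4N·4√2(η/2)/(d√(dρ)X) = (16√2/π) Nη²/(d√(dρ)X) ≤ 8Nη²/(d√d√ρ X)`.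
(3) by `gam_mean`: `∫_I gam s = -∫_{(0,∞)\I} gam s`, and there `|s-ρ| ≥ η/2`:
 `|..| ≤ 5N² exp(-πN²η²/8) ∫ exp(-πN²(ρ-s)²/2)|s| ds ≤ 5N² exp(-πN²η²/8)(2/(πN²) + √2 ρ/N) ≤ 15 N² ρ exp(-πN²η²/8)`
 (`|s| ≤ |s-ρ| + ρ`; `∫|x|exp(-bx²) = 1/b`, `∫exp(-bx²) = √(π/b)`, `b = πN²/2`; `ρ ≥ 1`), `wt(ρ) ≤ √2/√η ≤ √2 N`
 (`wt_le`, `d ≥ η ≥ 1/N`, `N ≥ 1`), `ρ ≤ T ≤ 4X ≤ 4N`: `(2/π)·√2 N·15N²·4N ≤ 60 N⁴`.
Total of (1) and (3): `≤ 85 N⁴ exp(-πN²η²/8)`.
-/

set_option autoImplicit false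

open MeasureTheory Complex Set Real Filter Topology
open scoped ENNReal

namespace Pool.MPb9430d.Frac

open Pool.MPb9430d Pool.MPb9430d.Rough

private theorem QC_num : 2 * √2 ≤ π := by
  have h1 : √2 ≤ 1.5 := by
    rw [Real.sqrt_le_left (by norm_num)]
    norm_num
  have := Real.pi_gt_three
  linarith

private theorem QC_pt {N ρ s η : ℝ} (hN : 1 ≤ N) (hρ : 1 ≤ ρ) (hs : 0 < s) (hη : 0 ≤ η)
    (h : η / 2 ≤ |s - ρ|) :
    Real.exp (-(π * N ^ 2 * (ρ - s) ^ 2)) * s ≤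
      Real.exp (-(π * N ^ 2 * η ^ 2 / 8)) *
        (2 * ρ * Real.exp (-(π * N ^ 2 / 4) * (s - ρ) ^ 2)) := by
  set x : ℝ := s - ρ with hx
  have hx2 : (η / 2) ^ 2 ≤ x ^ 2 := by
    rw [← sq_abs x]
    exact pow_le_pow_left₀ (by linarith) h 2
  have hpi := Real.pi_gt_three
  have hN2 : 1 ≤ N ^ 2 := by nlinarith
  have hb : 3 ≤ π * N ^ 2 := by nlinarith
  have e1 : (ρ - s) ^ 2 = x ^ 2 := by rw [hx]; ring
  rw [e1]
  have e2 : Real.exp (-(π * N ^ 2 * x ^ 2)) =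
      Real.exp (-(π * N ^ 2 * x ^ 2 / 2)) * (Real.exp (-(π * N ^ 2 / 4) * x ^ 2) *
        Real.exp (-(π * N ^ 2 * x ^ 2 / 4))) := by
    rw [← Real.exp_add, ← Real.exp_add]
    congr 1
    ring
  have h1 : Real.exp (-(π * N ^ 2 * x ^ 2 / 2)) ≤ Real.exp (-(π * N ^ 2 * η ^ 2 / 8)) := by
    apply Real.exp_le_exp.2
    have : π * N ^ 2 * (η / 2) ^ 2 ≤ π * N ^ 2 * x ^ 2 :=
      mul_le_mul_of_nonneg_left hx2 (by linarith)
    nlinarith
  have h2 : Real.exp (-(π * N ^ 2 * x ^ 2 / 4)) * s ≤ 2 * ρ := by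
    rw [Real.exp_neg, inv_mul_le_iff₀ (Real.exp_pos _)]
    have h3 : 1 + π * N ^ 2 * x ^ 2 / 4 ≤ Real.exp (π * N ^ 2 * x ^ 2 / 4) := by
      have := Real.add_one_le_exp (π * N ^ 2 * x ^ 2 / 4)
      linarith
    have h4 : 1 + 3 / 4 * x ^ 2 ≤ Real.exp (π * N ^ 2 * x ^ 2 / 4) := by
      nlinarith [mul_le_mul_of_nonneg_right hb (sq_nonneg x)]
    have h5 : x ≤ 1 + 3 / 4 * x ^ 2 := by nlinarith [sq_nonneg (x - 1), sq_nonneg x]
    have h6 : s = x + ρ := by rw [hx]; ring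
    rw [h6]
    set E := Real.exp (π * N ^ 2 * x ^ 2 / 4) with hE
    have h7 : 1 ≤ E := by nlinarith [sq_nonneg x]
    nlinarith
  rw [e2]
  have hA : 0 ≤ Real.exp (-(π * N ^ 2 / 4) * x ^ 2) := (Real.exp_pos _).le
  calc Real.exp (-(π * N ^ 2 * x ^ 2 / 2)) * (Real.exp (-(π * N ^ 2 / 4) * x ^ 2) *
        Real.exp (-(π * N ^ 2 * x ^ 2 / 4))) * s
      = Real.exp (-(π * N ^ 2 * x ^ 2 / 2)) * (Real.exp (-(π * N ^ 2 / 4) * x ^ 2) *
        (Real.exp (-(π * N ^ 2 * x ^ 2 / 4)) * s)) := by ring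
    _ ≤ Real.exp (-(π * N ^ 2 * η ^ 2 / 8)) * (Real.exp (-(π * N ^ 2 / 4) * x ^ 2) *
        (2 * ρ)) := by
        apply mul_le_mul h1 (mul_le_mul_of_nonneg_left h2 hA) _ (Real.exp_pos _).le
        have := Real.exp_pos (-(π * N ^ 2 * x ^ 2 / 4))
        positivity
    _ = _ := by ring

private theorem QC_out {N η : ℝ} {p : ℂ} (hN : 1 ≤ N) (hρ : 1 ≤ ‖p‖) (hη : 0 ≤ η)
    (hη4 : η ≤ 1 / 4) :
    |∫ s in Icc (‖p‖ - η / 2) (‖p‖ + η / 2), gam N p s * s| ≤
      20 * N ^ 2 * ‖p‖ * Real.exp (-(π * N ^ 2 * η ^ 2 / 8)) := by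
  obtain ⟨hint, hzero⟩ := gam_mean (by linarith : (0 : ℝ) < N) p
  have hsub : Icc (‖p‖ - η / 2) (‖p‖ + η / 2) ⊆ Ioi (0 : ℝ) := by
    intro s hs
    rw [mem_Ioi]
    have := hs.1
    linarith
  have h1 := setIntegral_sdiff (μ := volume) (f := fun s => gam N p s * s) measurableSet_Icc hint hsub
  rw [hzero] at h1
  have h2 : ∫ s in Icc (‖p‖ - η / 2) (‖p‖ + η / 2), gam N p s * s =
      -∫ s in Ioi (0 : ℝ) \ Icc (‖p‖ - η / 2) (‖p‖ + η / 2), gam N p s * s := by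
    rw [h1]
    ring
  rw [h2, abs_neg]
  set E := Real.exp (-(π * N ^ 2 * η ^ 2 / 8)) with hE
  set G : ℝ → ℝ := fun s => 5 * N ^ 2 * (E * (2 * ‖p‖ *
    Real.exp (-(π * N ^ 2 / 4) * (s - ‖p‖) ^ 2))) with hG
  have hpi := Real.pi_gt_three
  have hb : 0 < π * N ^ 2 / 4 := by
    have : 0 < N := by linarith
    positivity
  have hGi : Integrable G := by
    have h3 : Integrable (fun s : ℝ => Real.exp (-(π * N ^ 2 / 4) * (s - ‖p‖) ^ 2)) :=
      (integrable_exp_neg_mul_sq hb).comp_sub_right ‖p‖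
    exact ((h3.const_mul (2 * ‖p‖)).const_mul E).const_mul (5 * N ^ 2)
  have hE0 : 0 ≤ E := (Real.exp_pos _).le
  have hG0 : ∀ s, 0 ≤ G s := by
    intro s
    have := Real.exp_pos (-(π * N ^ 2 / 4) * (s - ‖p‖) ^ 2)
    simp only [hG]
    positivity
  have h4 : ‖∫ s in Ioi (0 : ℝ) \ Icc (‖p‖ - η / 2) (‖p‖ + η / 2), gam N p s * s‖ ≤
      ∫ s in Ioi (0 : ℝ) \ Icc (‖p‖ - η / 2) (‖p‖ + η / 2), G s := by
    apply norm_integral_le_of_norm_le hGi.integrableOn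
    rw [ae_restrict_iff' (measurableSet_Ioi.diff measurableSet_Icc)]
    refine Eventually.of_forall ?_
    rintro s ⟨hs0, hsI⟩
    rw [mem_Ioi] at hs0
    have hfar : η / 2 ≤ |s - ‖p‖| := by
      by_contra hcon
      push Not at hcon
      rw [abs_lt] at hcon
      exact hsI ⟨by linarith [hcon.1], by linarith [hcon.2]⟩
    have h5 := abs_gam_le (by linarith : (0 : ℝ) < N) p hs0.le
    have h6 := QC_pt hN hρ hs0 hη hfar
    rw [Real.norm_eq_abs, abs_mul, abs_of_pos hs0]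
    calc |gam N p s| * s ≤ (5 * N ^ 2 * Real.exp (-(π * N ^ 2 * (‖p‖ - s) ^ 2))) * s :=
          mul_le_mul_of_nonneg_right h5 hs0.le
      _ = 5 * N ^ 2 * (Real.exp (-(π * N ^ 2 * (‖p‖ - s) ^ 2)) * s) := by ring
      _ ≤ G s := by
          simp only [hG]
          exact mul_le_mul_of_nonneg_left h6 (by positivity)
  have h7 : ∫ s in Ioi (0 : ℝ) \ Icc (‖p‖ - η / 2) (‖p‖ + η / 2), G s ≤ ∫ s, G s :=
    setIntegral_le_integral hGi (Eventually.of_forall hG0)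
  have h8 : ∫ s, G s = 5 * N ^ 2 * (E * (2 * ‖p‖ * √(π / (π * N ^ 2 / 4)))) := by
    simp only [hG]
    rw [integral_const_mul, integral_const_mul, integral_const_mul,
      integral_sub_right_eq_self (fun x : ℝ => Real.exp (-(π * N ^ 2 / 4) * x ^ 2)) ‖p‖,
      integral_gaussian]
  have h9 : √(π / (π * N ^ 2 / 4)) ≤ 2 := by
    rw [Real.sqrt_le_left (by norm_num), div_le_iff₀ hb]
    have hN2 : 1 ≤ N ^ 2 := by nlinarith
    nlinarith
  rw [Real.norm_eq_abs] at h4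
  refine h4.trans (h7.trans ?_)
  rw [h8]
  have h10 : 0 ≤ √(π / (π * N ^ 2 / 4)) := Real.sqrt_nonneg _
  calc 5 * N ^ 2 * (E * (2 * ‖p‖ * √(π / (π * N ^ 2 / 4))))
      ≤ 5 * N ^ 2 * (E * (2 * ‖p‖ * 2)) := by gcongr
    _ = 20 * N ^ 2 * ‖p‖ * E := by ring

theorem q_c {N X t T η : ℝ} {p : ℂ} (hN : 1 ≤ N) (hX : 1 ≤ X) (hXN : X ≤ N) (ht : 1 < t)
    (hT : t + 2 * X ≤ T) (hT4 : T ≤ 4 * X) (hη : 1 / N ≤ η) (hη4 : η ≤ 1 / 4)
    (h1 : t + η ≤ ‖p‖) (h2 : ‖p‖ ≤ T - η) :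
    |2 / π * ∫ s in t..T, gam N p s * s * wt t T s| ≤
      8 * N * η ^ 2 / (min (‖p‖ - t) (T - ‖p‖) * √(min (‖p‖ - t) (T - ‖p‖)) * √‖p‖ * X) +
        85 * N ^ 4 * Real.exp (-(π * N ^ 2 * η ^ 2 / 8)) := by
  have hN0 : 0 < N := by linarith
  have hη0 : 0 < η := lt_of_lt_of_le (by positivity) hη
  have hρ : 1 ≤ ‖p‖ := by linarith
  have hp : p ≠ 0 := by
    intro h
    rw [h, norm_zero] at hρ
    linarith
  have hpi := Real.pi_gt_three
  have hnum := QC_num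
  set ρ := ‖p‖ with hρd
  set d := min (ρ - t) (T - ρ) with hd
  have hdη : η ≤ d := le_min (by linarith) (by linarith)
  have hd0 : 0 < d := by linarith
  set I := Icc (ρ - η / 2) (ρ + η / 2) with hI
  set f : ℝ → ℝ := fun s => gam N p s * s * wt t T s with hf
  have htT : t < T := by linarith
  have hfi : IntegrableOn f (Icc t T) := q_int p (by linarith) htT
  have hIsub : I ⊆ Icc t T := by
    intro s hs
    exact ⟨by linarith [hs.1], by linarith [hs.2]⟩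
  have hI0 : I ⊆ Ioi (0 : ℝ) := by
    intro s hs
    rw [mem_Ioi]
    linarith [hs.1]
  have hgi : IntegrableOn (fun s => gam N p s * s) I := (gam_mean hN0 p).1.mono_set hI0
  have hfI : IntegrableOn f I := hfi.mono_set hIsub
  -- the decomposition
  have e1 : ∫ s in t..T, f s = ∫ s in Icc t T, f s := by
    rw [intervalIntegral.integral_of_le htT.le, integral_Icc_eq_integral_Ioc]
  have e2 : ∫ s in Icc t T, f s = (∫ s in Icc t T \ I, f s) + ∫ s in I, f s := by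
    rw [setIntegral_sdiff measurableSet_Icc hfi hIsub]
    ring
  have e3 : ∫ s in I, f s = (∫ s in I, (f s - wt t T ρ * (gam N p s * s))) +
      wt t T ρ * ∫ s in I, gam N p s * s := by
    rw [integral_sub hfI (hgi.const_mul _), integral_const_mul]
    ring
  -- part 1
  have b1 : |2 / π * ∫ s in Icc t T \ I, f s| ≤
      5 * N ^ 2 * Real.exp (-(π * N ^ 2 * (η / 2) ^ 2)) := by
    have h3 := q_tail hN0 p (t := t) (T := T) (η := η / 2) (by linarith) htT (by linarith)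
      (A := Icc t T \ I) (measurableSet_Icc.diff measurableSet_Icc) sdiff_subset (by
        rintro s ⟨_, hsI⟩
        by_contra hcon
        push Not at hcon
        rw [abs_lt] at hcon
        exact hsI ⟨by linarith [hcon.2], by linarith [hcon.1]⟩)
    refine le_trans ?_ h3
    rw [abs_mul, abs_of_pos (by positivity : (0 : ℝ) < 2 / π)]
    apply mul_le_mul_of_nonneg_left _ (by positivity)
    exact abs_integral_le_integral_abs
  -- part 2
  set K : ℝ := 4 * N * (4 * √2 * (η / 2) / (d * √(d * ρ) * X)) with hK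
  have hden : 0 < d * √(d * ρ) * X := by
    have : 0 < d * ρ := by positivity
    have := Real.sqrt_pos.2 this
    positivity
  have b2 : |∫ s in I, (f s - wt t T ρ * (gam N p s * s))| ≤ K * η := by
    have hvol : volume.real I = η := by
      rw [hI, Real.volume_real_Icc_of_le (by linarith)]
      ring
    have h3 : ‖∫ s in I, (f s - wt t T ρ * (gam N p s * s))‖ ≤ K * volume.real I := by
      apply norm_setIntegral_le_of_norm_le_const (by rw [hI]; exact measure_Icc_lt_top)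
      intro s hs
      have hs0 : 0 < s := hI0 hs
      have hsρ : |s - ρ| ≤ η / 2 := abs_le.2 ⟨by linarith [hs.1], by linarith [hs.2]⟩
      have h4 := wt_lip hX ht hT hη0 hη4 h1 h2 hsρ
      have h5 := abs_gam_mul_le hN0 hp hs0
      have h6 : √(s / ‖p‖) ≤ 4 / 3 := by
        rw [Real.sqrt_le_left (by norm_num), div_le_iff₀ (by linarith)]
        have := hs.2
        nlinarith
      have h7 : |gam N p s * s| ≤ 4 * N := by
        rw [abs_mul, abs_of_pos hs0]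
        calc |gam N p s| * s ≤ 3 * N * √(s / ‖p‖) := h5
          _ ≤ 3 * N * (4 / 3) := by gcongr
          _ = 4 * N := by ring
      have h8 : |wt t T s - wt t T ρ| ≤ 4 * √2 * (η / 2) / (d * √(d * ρ) * X) := by
        refine h4.trans ?_
        apply div_le_div_of_nonneg_right _ hden.le
        gcongr
      rw [Real.norm_eq_abs]
      have e : f s - wt t T ρ * (gam N p s * s) = (gam N p s * s) * (wt t T s - wt t T ρ) := by
        simp only [hf]
        ring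
      rw [e, abs_mul]
      exact mul_le_mul h7 h8 (abs_nonneg _) (by linarith)
    rw [hvol, Real.norm_eq_abs] at h3
    exact h3
  -- part 3
  have hw0 : 0 ≤ wt t T ρ := by
    unfold wt
    positivity
  have hwN : wt t T ρ ≤ √2 * N := by
    refine (wt_le hX ht hT hη0 h1 h2).trans ?_
    have h3 : 1 / N ≤ √(d * ρ) := by
      apply Real.le_sqrt_of_sq_le
      have h4 : (1 / N) ^ 2 ≤ 1 / N := by
        have h5 : 1 / N ≤ 1 := by
          rw [div_le_one hN0]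
          exact hN
        have h6 : 0 < 1 / N := by positivity
        nlinarith
      have h7 : 1 / N ≤ d := hη.trans hdη
      nlinarith
    have h4 : 1 / N ≤ √(d * ρ) * X := by
      have : 0 < 1 / N := by positivity
      nlinarith
    rw [div_le_iff₀ (lt_of_lt_of_le (by positivity) h4)]
    have h5 : 1 ≤ N * (√(d * ρ) * X) := by
      calc (1 : ℝ) = N * (1 / N) := by field_simp
        _ ≤ N * (√(d * ρ) * X) := mul_le_mul_of_nonneg_left h4 hN0.le
    have h6 : 0 ≤ √2 := Real.sqrt_nonneg _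
    nlinarith
  have b3 : |wt t T ρ * ∫ s in I, gam N p s * s| ≤
      (√2 * N) * (20 * N ^ 2 * (4 * N) * Real.exp (-(π * N ^ 2 * η ^ 2 / 8))) := by
    have h3 := QC_out hN hρ hη0.le hη4
    rw [abs_mul, abs_of_nonneg hw0]
    have hρ4 : ρ ≤ 4 * N := by linarith
    apply mul_le_mul hwN _ (abs_nonneg _) (by positivity)
    refine h3.trans ?_
    have := Real.exp_pos (-(π * N ^ 2 * η ^ 2 / 8))
    gcongr
  -- assembly
  set E := Real.exp (-(π * N ^ 2 * η ^ 2 / 8)) with hE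
  have hE0 : 0 < E := Real.exp_pos _
  have b1' : |2 / π * ∫ s in Icc t T \ I, f s| ≤ 5 * N ^ 4 * E := by
    refine b1.trans ?_
    have h3 : Real.exp (-(π * N ^ 2 * (η / 2) ^ 2)) ≤ E := by
      rw [hE]
      apply Real.exp_le_exp.2
      have : 0 ≤ π * N ^ 2 * η ^ 2 := by positivity
      nlinarith
    have h4 : N ^ 2 ≤ N ^ 4 := pow_le_pow_right₀ hN (by norm_num)
    have h5 : 5 * N ^ 2 ≤ 5 * N ^ 4 := by linarith
    exact mul_le_mul h5 h3 (Real.exp_pos _).le (by positivity)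
  have b2' : |2 / π * ∫ s in I, (f s - wt t T ρ * (gam N p s * s))| ≤
      8 * N * η ^ 2 / (d * √d * √ρ * X) := by
    rw [abs_mul, abs_of_pos (by positivity : (0 : ℝ) < 2 / π)]
    have hsq : √(d * ρ) = √d * √ρ := Real.sqrt_mul hd0.le ρ
    have hden2 : 0 < d * √d * √ρ * X := by
      have h3 := Real.sqrt_pos.2 hd0
      have h4 := Real.sqrt_pos.2 (by linarith : 0 < ρ)
      positivity
    have h5 : K * η = 8 * √2 * N * η ^ 2 / (d * √d * √ρ * X) := by
      rw [hK, hsq]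
      rw [show d * (√d * √ρ) * X = d * √d * √ρ * X by ring]
      field_simp
      ring
    calc 2 / π * |∫ s in I, (f s - wt t T ρ * (gam N p s * s))| ≤ 2 / π * (K * η) :=
          mul_le_mul_of_nonneg_left b2 (by positivity)
      _ = (2 * √2 / π) * (8 * N * η ^ 2 / (d * √d * √ρ * X)) := by
        rw [h5]
        ring
      _ ≤ 1 * (8 * N * η ^ 2 / (d * √d * √ρ * X)) := by
        apply mul_le_mul_of_nonneg_right _ (by positivity)
        rw [div_le_one (by linarith)]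
        exact hnum
      _ = _ := one_mul _
  have b3' : |2 / π * (wt t T ρ * ∫ s in I, gam N p s * s)| ≤ 80 * N ^ 4 * E := by
    rw [abs_mul, abs_of_pos (by positivity : (0 : ℝ) < 2 / π)]
    calc 2 / π * |wt t T ρ * ∫ s in I, gam N p s * s| ≤
          2 / π * ((√2 * N) * (20 * N ^ 2 * (4 * N) * E)) :=
          mul_le_mul_of_nonneg_left b3 (by positivity)
      _ = (2 * √2 / π) * (80 * N ^ 4 * E) := by ring
      _ ≤ 1 * (80 * N ^ 4 * E) := by
        apply mul_le_mul_of_nonneg_right _ (by positivity)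
        rw [div_le_one (by linarith)]
        exact hnum
      _ = _ := one_mul _
  have e4 : 2 / π * (∫ s in t..T, f s) = 2 / π * (∫ s in Icc t T \ I, f s) +
      2 / π * (∫ s in I, (f s - wt t T ρ * (gam N p s * s))) +
      2 / π * (wt t T ρ * (∫ s in I, gam N p s * s)) := by
    rw [e1, e2, e3]
    ring
  rw [e4]
  refine (abs_add_three _ _ _).trans ?_
  linarith

end Pool.MPb9430d.Frac
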