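import Pool.Agent.Lib.MP_b9430d_co.Frac.QB
import Pool.Agent.Lib.MP_b9430d_co.Frac.QC
import Pool.Agent.Lib.MP_b9430d_co.Frac.CcS

/-!
# QQ: the bound for one pair

`t = |‖z‖-‖w‖| > 1`, `T = ‖z‖+‖w‖ ≤ 4X`, `T - t = 2 min ≥ 2X`. `dcc_rep` and `chv` (`G = gam N p`, `continuous_gam`):
`dcc N z w p = (2/π)∫_t^T gam s s wt`. Let `η = N^(ε-1)`, so `N²η² = N^(2ε)`, `Nη = N^ε ≥ 1`.
If `η > 1/4` then `N < 4^(1/(1-ε)) ≤ 8` and `abs_dcc_le`: `|dcc| ≤ 5·64 ≤ C N^(-2)`. Let `η ≤ 1/4`. There is `C₁` (depending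
on `ε`) with `85 N⁴ exp(-πN^(2ε)/8) ≤ C₁ N^(-2)` for all `N ≥ 1` (`x^k exp(-x)` is bounded; `x = πN^(2ε)/8`, `k ≥ 3/ε`).
* `‖p‖ < 1/2` (then `‖p‖ ≤ t - η`) or `‖p‖ > 5X` (then `‖p‖ ≥ T + η`), or generally `‖p‖ ≤ t - η` or `‖p‖ ≥ T + η`: `q_a`.
* `|‖p‖-t| < η` or `|‖p‖-T| < η`: `q_b`: `8N√η/(√‖p‖X) = 8N^(1/2+ε/2)/(√‖p‖X)`, and one of the two `kap` is
 `≥ (1 + N^ε)^(-3/2) ≥ (2N^ε)^(-3/2)`, so it is `≤ 8·2^(3/2) N^(1/2+2ε)/(√‖p‖X) kap`.
* `t + η ≤ ‖p‖ ≤ T - η`: `q_c`: `8Nη²/(d√d) = 8N^(1/2+2ε)(Nd)^(-3/2)` and `Nd ≥ Nη ≥ 1`, so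
 `(Nd)^(-3/2) ≤ 2^(3/2)(1+Nd)^(-3/2) ≤ 2^(3/2)`(sum of the two `kap`).
-/

set_option autoImplicit false

open MeasureTheory Complex Set Real Filter Topology
open scoped ENNReal

namespace Pool.MPb9430d.Frac

open Pool.MPb9430d Pool.MPb9430d.Rough

private theorem QQ_exp {ε : ℝ} (hε : 0 < ε) : ∃ C : ℝ, 0 < C ∧ ∀ N : ℝ, 1 ≤ N →
    N ^ 6 * Real.exp (-(π * N ^ (2 * ε) / 8)) ≤ C := by
  obtain ⟨k, hk⟩ := exists_nat_ge (3 / ε)
  refine ⟨3 ^ k * k.factorial, by positivity, fun N hN => ?_⟩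
  have hN0 : 0 < N := by linarith
  have h1 : (6 : ℝ) ≤ 2 * ε * k := by
    rw [div_le_iff₀ hε] at hk
    linarith
  have h2 : N ^ 6 ≤ (N ^ (2 * ε)) ^ k := by
    rw [← Real.rpow_natCast (N ^ (2 * ε)), ← Real.rpow_mul hN0.le, ← Real.rpow_natCast N]
    exact Real.rpow_le_rpow_of_exponent_le hN (by push_cast; linarith)
  set y : ℝ := N ^ (2 * ε) with hy
  have hy0 : 0 ≤ y := Real.rpow_nonneg hN0.le _
  have hx0 : 0 ≤ π * y / 8 := by positivity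
  have h3 := Real.pow_div_factorial_le_exp (π * y / 8) hx0 k
  have h4 : y ≤ 3 * (π * y / 8) := by
    have := Real.pi_gt_three
    nlinarith
  have h5 : y ^ k ≤ 3 ^ k * (π * y / 8) ^ k := by
    rw [← mul_pow]
    exact pow_le_pow_left₀ hy0 h4 k
  have hf : (0 : ℝ) < k.factorial := by exact_mod_cast Nat.factorial_pos k
  have h6 : (π * y / 8) ^ k ≤ k.factorial * Real.exp (π * y / 8) := by
    rw [div_le_iff₀ hf] at h3
    linarith
  have h7 : N ^ 6 ≤ 3 ^ k * k.factorial * Real.exp (π * y / 8) := by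
    calc N ^ 6 ≤ y ^ k := h2
      _ ≤ 3 ^ k * (π * y / 8) ^ k := h5
      _ ≤ 3 ^ k * (k.factorial * Real.exp (π * y / 8)) :=
        mul_le_mul_of_nonneg_left h6 (by positivity)
      _ = _ := by ring
  calc N ^ 6 * Real.exp (-(π * y / 8)) ≤
      (3 ^ k * k.factorial * Real.exp (π * y / 8)) * Real.exp (-(π * y / 8)) :=
        mul_le_mul_of_nonneg_right h7 (Real.exp_pos _).le
    _ = 3 ^ k * k.factorial * (Real.exp (π * y / 8) * Real.exp (-(π * y / 8))) := by ring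
    _ = 3 ^ k * k.factorial := by
      rw [← Real.exp_add, add_neg_cancel, Real.exp_zero, mul_one]

/-- `x^(-3/2)` is at most three times `kap x` for `x ≥ 1`. -/
private theorem QQ_kap {x : ℝ} (hx : 1 ≤ x) : x ^ (-(3 / 2) : ℝ) ≤ 3 * kap x := by
  unfold kap
  have h1 : (1 + x) ^ (-(3 / 2) : ℝ) ≥ (2 * x) ^ (-(3 / 2) : ℝ) :=
    Real.rpow_le_rpow_of_nonpos (by linarith) (by linarith) (by norm_num)
  rw [Real.mul_rpow (by norm_num) (by linarith)] at h1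
  have h2 : (1 : ℝ) / 3 ≤ 2 ^ (-(3 / 2) : ℝ) := by
    rw [Real.rpow_neg (by norm_num), one_div]
    refine inv_anti₀ (by positivity) ?_
    have h3 : (2 : ℝ) ^ (3 / 2 : ℝ) = √8 := by
      rw [show (3 / 2 : ℝ) = (3 : ℕ) * (1 / 2 : ℝ) by norm_num, Real.rpow_mul (by norm_num),
        Real.rpow_natCast, ← Real.sqrt_eq_rpow]
      norm_num
    rw [h3, Real.sqrt_le_left (by norm_num)]
    norm_num
  have h4 : 0 ≤ x ^ (-(3 / 2) : ℝ) := Real.rpow_nonneg (by linarith) _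
  nlinarith

private theorem QQ_anti {x y : ℝ} (hx : 0 ≤ x) (hxy : x ≤ y) : kap y ≤ kap x :=
  Real.rpow_le_rpow_of_nonpos (by linarith) (by linarith) (by norm_num)

theorem q_bound {ε : ℝ} (hε : 0 < ε) (hε1 : ε ≤ 1 / 4) : ∃ C : ℝ, 0 < C ∧ ∀ N X : ℝ, 1 ≤ X →
    X ^ 2 ≤ N → ∀ z w p : ℂ, X < ‖z‖ → ‖z‖ ≤ 2 * X → X < ‖w‖ → ‖w‖ ≤ 2 * X →
    1 < |‖z‖ - ‖w‖| →
    ((‖p‖ < 1 / 2 ∨ 5 * X < ‖p‖) → |dcc N z w p| ≤ C * N ^ (-2 : ℝ)) ∧
    (1 / 2 ≤ ‖p‖ → ‖p‖ ≤ 5 * X → |dcc N z w p| ≤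
      C * (N ^ (1 / 2 + 2 * ε) / (√‖p‖ * X) *
        (kap (N * |‖p‖ - (|‖z‖ - ‖w‖|)|) + kap (N * |‖p‖ - (‖z‖ + ‖w‖)|)) + N ^ (-2 : ℝ))) := by
  obtain ⟨C₁, hC₁, hexp⟩ := QQ_exp hε
  refine ⟨20480 + 85 * C₁ + 24, by positivity, ?_⟩
  intro N X hX hXN z w p hz1 hz2 hw1 hw2 hzw
  have hN1 : 1 ≤ N := by nlinarith
  have hN0 : 0 < N := by linarith
  have hXN' : X ≤ N := by nlinarith
  have hN2 : 0 < N ^ (-2 : ℝ) := Real.rpow_pos_of_pos hN0 _
  -- the geometric data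
  obtain ⟨t, ht⟩ : ∃ t, t = |‖z‖ - ‖w‖| := ⟨_, rfl⟩
  obtain ⟨T, hTd⟩ : ∃ T, T = ‖z‖ + ‖w‖ := ⟨_, rfl⟩
  have hq : dcc N z w p = 2 / π * ∫ s in t..T, gam N p s * s * wt t T s := by
    have hne : ‖z‖ ≠ ‖w‖ := by
      intro h
      rw [h, sub_self, abs_zero] at hzw
      linarith
    rw [dcc_rep, ht, hTd]
    exact chv (continuous_gam N p) (by linarith) (by linarith) hne
  rw [← ht] at hzw ⊢
  rw [← hTd]
  have htT : t + 2 * X ≤ T := by
    rw [ht, hTd]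
    rcases abs_cases (‖z‖ - ‖w‖) with h | h <;> linarith [h.1]
  have hT4 : T ≤ 4 * X := by linarith
  have ht0 : 0 < t := by linarith
  have htT' : t < T := by linarith
  -- the parameter
  obtain ⟨η, hη⟩ : ∃ η, η = N ^ (ε - 1) := ⟨_, rfl⟩
  have hη0 : 0 < η := by
    rw [hη]
    exact Real.rpow_pos_of_pos hN0 _
  have hNη : N * η = N ^ ε := by
    rw [hη]
    nth_rewrite 1 [← Real.rpow_one N]
    rw [← Real.rpow_add hN0]
    congr 1
    ring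
  have hNη2 : N ^ 2 * η ^ 2 = N ^ (2 * ε) := by
    rw [← mul_pow, hNη, ← Real.rpow_natCast (N ^ ε), ← Real.rpow_mul hN0.le]
    congr 1
    push_cast
    ring
  have hNε : 1 ≤ N ^ ε := Real.one_le_rpow hN1 hε.le
  have hηN : 1 / N ≤ η := by
    rw [div_le_iff₀ hN0, mul_comm, hNη]
    exact hNε
  have hE1 : 85 * N ^ 4 * Real.exp (-(π * N ^ 2 * η ^ 2 / 8)) ≤ 85 * C₁ * N ^ (-2 : ℝ) := by
    have h1 := hexp N hN1
    have h2 : π * N ^ 2 * η ^ 2 / 8 = π * N ^ (2 * ε) / 8 := by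
      rw [mul_assoc π, hNη2]
    have h3 : N ^ (-2 : ℝ) = (N ^ 2)⁻¹ := by
      rw [Real.rpow_neg hN0.le]
      norm_num
    rw [h2, h3, ← div_eq_mul_inv, le_div_iff₀ (by positivity)]
    calc 85 * N ^ 4 * Real.exp (-(π * N ^ (2 * ε) / 8)) * N ^ 2
        = 85 * (N ^ 6 * Real.exp (-(π * N ^ (2 * ε) / 8))) := by ring
      _ ≤ 85 * C₁ := by linarith
  have hE2 : 5 * N ^ 2 * Real.exp (-(π * N ^ 2 * η ^ 2)) ≤ 85 * C₁ * N ^ (-2 : ℝ) := by
    refine le_trans ?_ hE1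
    have h1 : Real.exp (-(π * N ^ 2 * η ^ 2)) ≤ Real.exp (-(π * N ^ 2 * η ^ 2 / 8)) := by
      refine Real.exp_le_exp.2 ?_
      have : 0 ≤ π * N ^ 2 * η ^ 2 := by positivity
      linarith
    have h2 : N ^ 2 ≤ N ^ 4 := pow_le_pow_right₀ hN1 (by norm_num)
    have h3 : 0 < Real.exp (-(π * N ^ 2 * η ^ 2)) := Real.exp_pos _
    calc 5 * N ^ 2 * Real.exp (-(π * N ^ 2 * η ^ 2)) ≤
        85 * N ^ 4 * Real.exp (-(π * N ^ 2 * η ^ 2)) := by
          refine mul_le_mul_of_nonneg_right ?_ h3.le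
          have : 0 ≤ N ^ 4 := by positivity
          linarith
      _ ≤ _ := mul_le_mul_of_nonneg_left h1 (by positivity)
  -- small `N`
  rcases lt_or_ge (1 / 4) η with hbig | hη4
  · have hN8 : N ≤ 8 := by
      by_contra hcon
      push Not at hcon
      have h1 : η ≤ 1 / 4 := by
        rw [hη]
        calc N ^ (ε - 1) ≤ 8 ^ (ε - 1) :=
              Real.rpow_le_rpow_of_nonpos (by norm_num) hcon.le (by linarith)
          _ ≤ 8 ^ (-(2 / 3) : ℝ) :=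
              Real.rpow_le_rpow_of_exponent_le (by norm_num) (by linarith)
          _ = 1 / 4 := by
            rw [show (8 : ℝ) = 2 ^ (3 : ℝ) by norm_num, ← Real.rpow_mul (by norm_num),
              show (3 : ℝ) * (-(2 / 3)) = -2 by norm_num, Real.rpow_neg (by norm_num)]
            norm_num
      linarith
    have h1 := abs_dcc_le N z w p
    have h2 : 1 / 64 ≤ N ^ (-2 : ℝ) := by
      have h3 : N ^ (-2 : ℝ) = (N ^ 2)⁻¹ := by
        rw [Real.rpow_neg hN0.le]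
        norm_num
      rw [h3, one_div]
      refine inv_anti₀ (by positivity) ?_
      nlinarith
    have h3 : |dcc N z w p| ≤ (20480 + 85 * C₁ + 24) * N ^ (-2 : ℝ) := by
      have h4 : 5 * N ^ 2 ≤ 320 := by nlinarith
      nlinarith
    refine ⟨fun _ => h3, fun _ _ => h3.trans ?_⟩
    rw [mul_add]
    have h5 : 0 ≤ (20480 + 85 * C₁ + 24) * (N ^ (1 / 2 + 2 * ε) / (√‖p‖ * X) *
        (kap (N * |‖p‖ - t|) + kap (N * |‖p‖ - T|))) := by
      have h6 := kap_nonneg (show 0 ≤ N * |‖p‖ - t| by positivity)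
      have h7 := kap_nonneg (show 0 ≤ N * |‖p‖ - T| by positivity)
      have h8 : 0 ≤ N ^ (1 / 2 + 2 * ε) := Real.rpow_nonneg hN0.le _
      positivity
    linarith
  -- the far case
  have hfar : (∀ s ∈ Icc t T, η ≤ |‖p‖ - s|) → |dcc N z w p| ≤ 85 * C₁ * N ^ (-2 : ℝ) := by
    intro h
    rw [hq]
    exact (q_a hN0 p ht0 htT' hη0.le h).trans hE2
  have hcmp : 85 * C₁ * N ^ (-2 : ℝ) ≤ (20480 + 85 * C₁ + 24) * N ^ (-2 : ℝ) :=
    mul_le_mul_of_nonneg_right (by linarith) hN2.le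
  refine ⟨fun hp => (hfar ?_).trans hcmp, fun hp1 hp2 => ?_⟩
  · intro s hs
    rcases hp with hp | hp
    · rw [abs_sub_comm]
      refine le_trans ?_ (le_abs_self _)
      linarith [hs.1]
    · refine le_trans ?_ (le_abs_self _)
      linarith [hs.2]
  have hk1 := kap_nonneg (show 0 ≤ N * |‖p‖ - t| by positivity)
  have hk2 := kap_nonneg (show 0 ≤ N * |‖p‖ - T| by positivity)
  have hM : 0 ≤ N ^ (1 / 2 + 2 * ε) := Real.rpow_nonneg hN0.le _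
  have hsp : 0 < √‖p‖ := Real.sqrt_pos.2 (by linarith)
  have hX0 : 0 < X := by linarith
  have hden : 0 < √‖p‖ * X := mul_pos hsp hX0
  -- the final comparison
  have hfin : ∀ y : ℝ, 0 ≤ y → y ≤ 24 * (N ^ (1 / 2 + 2 * ε) *
      (kap (N * |‖p‖ - t|) + kap (N * |‖p‖ - T|))) →
      |dcc N z w p| ≤ y / (√‖p‖ * X) + 85 * C₁ * N ^ (-2 : ℝ) →
      |dcc N z w p| ≤ (20480 + 85 * C₁ + 24) * (N ^ (1 / 2 + 2 * ε) / (√‖p‖ * X) *
        (kap (N * |‖p‖ - t|) + kap (N * |‖p‖ - T|)) + N ^ (-2 : ℝ)) := by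
    intro y hy0 hy h
    have h1 : y / (√‖p‖ * X) ≤ 24 * (N ^ (1 / 2 + 2 * ε) / (√‖p‖ * X) *
        (kap (N * |‖p‖ - t|) + kap (N * |‖p‖ - T|))) := by
      rw [div_le_iff₀ hden]
      refine hy.trans (le_of_eq ?_)
      field_simp
    have h2 : 0 ≤ N ^ (1 / 2 + 2 * ε) / (√‖p‖ * X) *
        (kap (N * |‖p‖ - t|) + kap (N * |‖p‖ - T|)) := by positivity
    have h3 : 24 * (N ^ (1 / 2 + 2 * ε) / (√‖p‖ * X) *
        (kap (N * |‖p‖ - t|) + kap (N * |‖p‖ - T|))) ≤ (20480 + 85 * C₁ + 24) *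
        (N ^ (1 / 2 + 2 * ε) / (√‖p‖ * X) * (kap (N * |‖p‖ - t|) + kap (N * |‖p‖ - T|))) :=
      mul_le_mul_of_nonneg_right (by linarith) h2
    rw [mul_add]
    linarith
  by_cases ha : ‖p‖ ≤ t - η ∨ T + η ≤ ‖p‖
  · refine hfin 0 le_rfl (by positivity) ?_
    rw [zero_div, zero_add]
    refine hfar fun s hs => ?_
    rcases ha with ha | ha
    · rw [abs_sub_comm]
      refine le_trans ?_ (le_abs_self _)
      linarith [hs.1]
    · refine le_trans ?_ (le_abs_self _)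
      linarith [hs.2]
  push Not at ha
  by_cases hb : |‖p‖ - t| < η ∨ |‖p‖ - T| < η
  · have h1 := q_b hN1 hX hzw htT hη0 hη4 hp1 hb
    rw [← hq] at h1
    refine hfin (8 * N * √η) (by positivity) ?_ (h1.trans (by linarith))
    -- `N √η = N^(1/2+2ε) (N^ε)^(-3/2)`
    have h2 : N * √η = N ^ (1 / 2 + 2 * ε) * (N ^ ε) ^ (-(3 / 2) : ℝ) := by
      rw [hη, Real.sqrt_eq_rpow, ← Real.rpow_mul hN0.le, ← Real.rpow_mul hN0.le]
      nth_rewrite 1 [← Real.rpow_one N]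
      rw [← Real.rpow_add hN0, ← Real.rpow_add hN0]
      congr 1
      ring
    have h3 := QQ_kap hNε
    have h4 : kap (N ^ ε) ≤ kap (N * |‖p‖ - t|) + kap (N * |‖p‖ - T|) := by
      rcases hb with hb | hb
      · have h5 : kap (N ^ ε) ≤ kap (N * |‖p‖ - t|) := by
          refine QQ_anti (by positivity) ?_
          rw [← hNη]
          exact mul_le_mul_of_nonneg_left hb.le hN0.le
        linarith
      · have h5 : kap (N ^ ε) ≤ kap (N * |‖p‖ - T|) := by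
          refine QQ_anti (by positivity) ?_
          rw [← hNη]
          exact mul_le_mul_of_nonneg_left hb.le hN0.le
        linarith
    calc 8 * N * √η = 8 * (N ^ (1 / 2 + 2 * ε) * (N ^ ε) ^ (-(3 / 2) : ℝ)) := by
          rw [← h2]; ring
      _ ≤ 8 * (N ^ (1 / 2 + 2 * ε) * (3 * (kap (N * |‖p‖ - t|) + kap (N * |‖p‖ - T|)))) := by
          refine mul_le_mul_of_nonneg_left (mul_le_mul_of_nonneg_left ?_ hM) (by norm_num)
          linarith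
      _ = _ := by ring
  push Not at hb
  have h1 : t + η ≤ ‖p‖ := by
    rcases abs_cases (‖p‖ - t) with h | h
    · linarith [hb.1]
    · linarith [hb.1, ha.1]
  have h2 : ‖p‖ ≤ T - η := by
    rcases abs_cases (‖p‖ - T) with h | h
    · linarith [hb.2, ha.2]
    · linarith [hb.2]
  have h3 := q_c hN1 hX hXN' hzw htT hT4 hηN hη4 h1 h2
  rw [← hq] at h3
  obtain ⟨d, hd⟩ : ∃ d, d = min (‖p‖ - t) (T - ‖p‖) := ⟨_, rfl⟩
  rw [← hd] at h3
  have hdη : η ≤ d := by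
    rw [hd]
    exact le_min (by linarith) (by linarith)
  have hd0 : 0 < d := lt_of_lt_of_le hη0 hdη
  have hsd : 0 < √d := Real.sqrt_pos.2 hd0
  have hNd : 1 ≤ N * d := by
    calc (1 : ℝ) ≤ N ^ ε := hNε
      _ = N * η := hNη.symm
      _ ≤ N * d := mul_le_mul_of_nonneg_left hdη hN0.le
  refine hfin (8 * N * η ^ 2 / (d * √d)) (by positivity) ?_ ?_
  · have h4 : N * η ^ 2 / (d * √d) = N ^ (1 / 2 + 2 * ε) * (N * d) ^ (-(3 / 2) : ℝ) := by
      have e1 : d * √d = d ^ (3 / 2 : ℝ) := by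
        rw [Real.sqrt_eq_rpow]
        nth_rewrite 1 [← Real.rpow_one d]
        rw [← Real.rpow_add hd0]
        congr 1
        norm_num
      have e2 : N * η ^ 2 = N ^ (2 * ε - 1) := by
        have e3 : N * η ^ 2 = N ^ 2 * η ^ 2 / N := by
          field_simp
        rw [e3, hNη2, Real.rpow_sub hN0, Real.rpow_one]
      rw [e1, e2, Real.mul_rpow hN0.le hd0.le, Real.rpow_neg hd0.le, ← mul_assoc,
        ← Real.rpow_add hN0, div_eq_mul_inv]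
      congr 2
      ring
    have h5 := QQ_kap hNd
    have h6 : kap (N * d) ≤ kap (N * |‖p‖ - t|) + kap (N * |‖p‖ - T|) := by
      have e1 : |‖p‖ - t| = ‖p‖ - t := abs_of_nonneg (by linarith)
      have e2 : |‖p‖ - T| = T - ‖p‖ := by
        rw [abs_of_nonpos (by linarith)]
        ring
      rw [e1] at hk1
      rw [e2] at hk2
      rw [e1, e2, hd]
      rcases min_cases (‖p‖ - t) (T - ‖p‖) with h | h
      · rw [h.1]
        linarith
      · rw [h.1]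
        linarith
    calc 8 * N * η ^ 2 / (d * √d) = 8 * (N * η ^ 2 / (d * √d)) := by ring
      _ = 8 * (N ^ (1 / 2 + 2 * ε) * (N * d) ^ (-(3 / 2) : ℝ)) := by rw [h4]
      _ ≤ 8 * (N ^ (1 / 2 + 2 * ε) * (3 * (kap (N * |‖p‖ - t|) + kap (N * |‖p‖ - T|)))) := by
          refine mul_le_mul_of_nonneg_left (mul_le_mul_of_nonneg_left ?_ hM) (by norm_num)
          linarith
      _ = _ := by ring
  · refine h3.trans ?_
    refine add_le_add (le_of_eq ?_) hE1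
    rw [div_div]
    congr 1
    ring

end Pool.MPb9430d.Frac
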