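import Pool.Agent.Lib.MP_b9430d_co.Frac.Blk
import Pool.Agent.Lib.MP_b9430d_co.Frac.IncB

/-!
# RegM: finite moments give regularity in mean

`D E h = ∫ (inc E h)² = ∫ ‖ft (inc E h)‖² = ∫ ‖ee(-(ip h y)) - 1‖² ‖ft (chi E) y‖² dy` (`inc_facts`, `plancherel`, `ft_inc`).
`‖ee s - 1‖ ≤ min(2, 2π|s|)`, `|ip h y| ≤ ‖h‖‖y‖`. The disc `‖y‖ < 1` contributes `≤ (2π‖h‖)² π (volume.real E)²`, the block
`2^k ≤ ‖y‖ < 2^{k+1}` at most `min(4, (4π 2^k ‖h‖)²) C 2^{-kβ/2} ≤ C' (2^k‖h‖)^{s} 2^{-kβ/2}` for every `s ∈ [0,2]`;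
sum over `k`: for `2^k ≤ 1/‖h‖` use `s = 2` (increasing geometric sum, ratio `2^{2-β/2}`), for `2^k > 1/‖h‖` use `s = 0`
(ratio `2^{-β/2}`): total `≤ C'' ‖h‖^{β/2}` for `‖h‖ ≤ 1`, `h ≠ 0`. (`h = 0`: `D E 0 = 0`.)
-/

set_option autoImplicit false

open MeasureTheory Complex Set Real Filter Topology
open scoped ENNReal

namespace Pool.MPb9430d.Frac

open Pool.MPb9430d Pool.MPb9430d.Rough

private theorem RegM_norm_ee_sub_one (s : ℝ) : ‖ee s - 1‖ ≤ 2 * π * |s| := by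
  have h := Real.norm_exp_I_mul_ofReal_sub_one_le (x := 2 * π * s)
  have e : ee s = Complex.exp (I * ((2 * π * s : ℝ) : ℂ)) := by
    unfold ee
    rw [mul_comm]
  rw [e]
  refine h.trans ?_
  rw [Real.norm_eq_abs, abs_mul, abs_of_pos (by positivity : (0:ℝ) < 2 * π)]

private theorem RegM_norm_ee_sub_one' (s : ℝ) : ‖ee s - 1‖ ≤ 2 := by
  calc ‖ee s - 1‖ ≤ ‖ee s‖ + ‖(1 : ℂ)‖ := norm_sub_le _ _
    _ = 2 := by rw [norm_ee, norm_one]; norm_num

private theorem RegM_ip_le (h y : ℂ) : |ip h y| ≤ ‖h‖ * ‖y‖ := by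
  rw [ip_eq_inner]
  exact abs_real_inner_le_norm h y

/-- The geometric sum. -/
private theorem RegM_sum {a s : ℝ} (ha : 0 < a) (ha1 : a ≤ 1) (hs : 0 < s) (hs1 : s < 1) :
    ∑' k : ℕ, ENNReal.ofReal (min 1 (((2 : ℝ) ^ k * a) ^ 2) * ((2 : ℝ) ^ k) ^ (-s)) ≤
      ENNReal.ofReal (2 / (1 - (2 : ℝ) ^ (-s)) * a ^ s) := by
  set ρ : ℝ := (2 : ℝ) ^ (-s) with hρ
  have hρ0 : 0 < ρ := by positivity
  have hρ1 : ρ < 1 := by
    rw [hρ]
    exact Real.rpow_lt_one_of_one_lt_of_neg (by norm_num) (by linarith)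
  obtain ⟨n, hn1, hn2⟩ := exists_nat_pow_near (x := a⁻¹) (y := (2 : ℝ))
    ((one_le_inv₀ ha).2 ha1) (by norm_num)
  have key : ∀ k : ℕ, ((2 : ℝ) ^ k) ^ (-s) = ((2 : ℝ) ^ k * a) ^ (-s) * a ^ s := by
    intro k
    rw [Real.mul_rpow (by positivity) ha.le, mul_assoc, ← Real.rpow_add ha]
    simp
  have lo : ∀ k : ℕ, k ≤ n → min 1 (((2 : ℝ) ^ k * a) ^ 2) * ((2 : ℝ) ^ k) ^ (-s) ≤
      ρ ^ (n - k) * a ^ s := by
    intro k hk
    rw [key, ← mul_assoc]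
    refine mul_le_mul_of_nonneg_right ?_ (by positivity)
    have ht : 0 < (2 : ℝ) ^ k * a := by positivity
    have hle : (2 : ℝ) ^ k * a ≤ ((2 : ℝ) ^ (n - k))⁻¹ := by
      have e : (2 : ℝ) ^ n = 2 ^ k * 2 ^ (n - k) := by
        rw [← pow_add, Nat.add_sub_cancel' hk]
      rw [e] at hn1
      rw [le_inv_comm₀ (by positivity) (by positivity)]
      rw [mul_inv]
      rw [← div_eq_inv_mul]
      rw [le_div_iff₀ (by positivity)]
      linarith
    have hle1 : (2 : ℝ) ^ k * a ≤ 1 := by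
      refine hle.trans ?_
      rw [inv_le_one₀ (by positivity)]
      exact one_le_pow₀ (by norm_num)
    calc min 1 (((2 : ℝ) ^ k * a) ^ 2) * ((2 : ℝ) ^ k * a) ^ (-s)
        ≤ ((2 : ℝ) ^ k * a) ^ 2 * ((2 : ℝ) ^ k * a) ^ (-s) :=
          mul_le_mul_of_nonneg_right (min_le_right _ _) (by positivity)
      _ = ((2 : ℝ) ^ k * a) ^ (2 - s) := by
          rw [← Real.rpow_natCast, ← Real.rpow_add ht]
          congr 1
      _ ≤ ((2 : ℝ) ^ k * a) ^ s :=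
          Real.rpow_le_rpow_of_exponent_ge ht hle1 (by linarith)
      _ ≤ (((2 : ℝ) ^ (n - k))⁻¹) ^ s := Real.rpow_le_rpow ht.le hle hs.le
      _ = ρ ^ (n - k) := by
          rw [hρ, Real.inv_rpow (by positivity), ← Real.rpow_natCast ((2 : ℝ) ^ (-s)),
            ← Real.rpow_mul (by norm_num), ← Real.rpow_natCast 2 (n - k),
            ← Real.rpow_mul (by norm_num), ← Real.rpow_neg (by norm_num)]
          congr 1
          ring
  have up : ∀ k : ℕ, min 1 (((2 : ℝ) ^ (k + (n + 1)) * a) ^ 2) *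
      ((2 : ℝ) ^ (k + (n + 1))) ^ (-s) ≤ ρ ^ k * a ^ s := by
    intro k
    rw [key, ← mul_assoc]
    refine mul_le_mul_of_nonneg_right ?_ (by positivity)
    have hge : (2 : ℝ) ^ k ≤ (2 : ℝ) ^ (k + (n + 1)) * a := by
      rw [pow_add, mul_assoc]
      refine le_mul_of_one_le_right (by positivity) ?_
      have := hn2.le
      rw [inv_le_comm₀ ha (by positivity)] at this
      calc (1 : ℝ) = 2 ^ (n + 1) * (2 ^ (n + 1))⁻¹ := by
            rw [mul_inv_cancel₀ (by positivity)]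
        _ ≤ 2 ^ (n + 1) * a := by gcongr
    calc min 1 (((2 : ℝ) ^ (k + (n + 1)) * a) ^ 2) * ((2 : ℝ) ^ (k + (n + 1)) * a) ^ (-s)
        ≤ 1 * ((2 : ℝ) ^ (k + (n + 1)) * a) ^ (-s) :=
          mul_le_mul_of_nonneg_right (min_le_left _ _) (by positivity)
      _ ≤ 1 * ((2 : ℝ) ^ k) ^ (-s) := by
          rw [one_mul, one_mul]
          exact Real.rpow_le_rpow_of_nonpos (by positivity) hge (by linarith)
      _ = ρ ^ k := by
          rw [one_mul, hρ, ← Real.rpow_natCast ((2 : ℝ) ^ (-s)), ← Real.rpow_mul (by norm_num),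
            ← Real.rpow_natCast 2 k, ← Real.rpow_mul (by norm_num)]
          congr 1
          ring
  have geo : ∑' k : ℕ, ENNReal.ofReal (ρ ^ k) = ENNReal.ofReal (1 / (1 - ρ)) := by
    rw [← ENNReal.ofReal_tsum_of_nonneg (fun k => by positivity)
      (summable_geometric_of_lt_one hρ0.le hρ1), tsum_geometric_of_lt_one hρ0.le hρ1, one_div]
  have hsplit := Summable.sum_add_tsum_nat_add' (f := fun k : ℕ =>
    ENNReal.ofReal (min 1 (((2 : ℝ) ^ k * a) ^ 2) * ((2 : ℝ) ^ k) ^ (-s))) (k := n + 1)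
    ENNReal.summable
  rw [← hsplit]
  have h1 : ∑ k ∈ Finset.range (n + 1),
      ENNReal.ofReal (min 1 (((2 : ℝ) ^ k * a) ^ 2) * ((2 : ℝ) ^ k) ^ (-s)) ≤
      ENNReal.ofReal (1 / (1 - ρ)) * ENNReal.ofReal (a ^ s) := by
    calc ∑ k ∈ Finset.range (n + 1),
        ENNReal.ofReal (min 1 (((2 : ℝ) ^ k * a) ^ 2) * ((2 : ℝ) ^ k) ^ (-s))
        ≤ ∑ k ∈ Finset.range (n + 1), ENNReal.ofReal (ρ ^ (n - k)) *
            ENNReal.ofReal (a ^ s) := by
          refine Finset.sum_le_sum fun k hk => ?_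
          rw [← ENNReal.ofReal_mul (by positivity)]
          have hk' : k ≤ n := by
            have := Finset.mem_range.1 hk
            omega
          exact ENNReal.ofReal_le_ofReal (lo k hk')
      _ = (∑ k ∈ Finset.range (n + 1), ENNReal.ofReal (ρ ^ k)) * ENNReal.ofReal (a ^ s) := by
          have hrefl := Finset.sum_range_reflect (fun k => ENNReal.ofReal (ρ ^ k)) (n + 1)
          simp only [Nat.add_sub_cancel] at hrefl
          rw [← Finset.sum_mul, hrefl]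
      _ ≤ ENNReal.ofReal (1 / (1 - ρ)) * ENNReal.ofReal (a ^ s) := by
          rw [← geo]
          exact mul_le_mul' (ENNReal.sum_le_tsum _) le_rfl
  have h2 : ∑' k : ℕ,
      ENNReal.ofReal (min 1 (((2 : ℝ) ^ (k + (n + 1)) * a) ^ 2) *
        ((2 : ℝ) ^ (k + (n + 1))) ^ (-s)) ≤
      ENNReal.ofReal (1 / (1 - ρ)) * ENNReal.ofReal (a ^ s) := by
    rw [← geo, ← ENNReal.tsum_mul_right]
    refine ENNReal.tsum_le_tsum fun k => ?_
    rw [← ENNReal.ofReal_mul (by positivity)]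
    exact ENNReal.ofReal_le_ofReal (up k)
  refine le_trans (add_le_add h1 h2) (le_of_eq ?_)
  have hp : 0 ≤ 1 / (1 - ρ) := by
    apply div_nonneg zero_le_one
    linarith
  rw [← ENNReal.ofReal_mul hp, ← ENNReal.ofReal_add (by positivity) (by positivity)]
  congr 1
  ring

theorem reg_of_moment {E : Set ℂ} {n : ℕ} (hE : MeasurableSet E) (hfin : volume E ≠ ∞)
    (hT : Tile E n) {β : ℝ} (hβ : 1 < β) (hβ2 : β < 2)
    (hM : ∫⁻ x in E, ENNReal.ofReal (‖x‖ ^ β) ≠ ∞) :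
    ∃ K : ℝ, ∀ h : ℂ, ‖h‖ ≤ 1 → D E h ≤ K * ‖h‖ ^ (β / 2) := by
  obtain ⟨C, hC, hblk⟩ := block hE hfin hT hβ hβ2 hM
  set M0 : ℝ := ∫ x, |chi E x| with hM0
  have hM0' : 0 ≤ M0 := integral_nonneg fun x => abs_nonneg _
  set s : ℝ := β / 2 with hs
  have hs0 : 0 < s := by rw [hs]; linarith
  have hs1 : s < 1 := by rw [hs]; linarith
  set G : ℝ := 2 / (1 - (2 : ℝ) ^ (-s)) with hG
  have hG0 : 0 ≤ G := by
    have : (2 : ℝ) ^ (-s) < 1 := Real.rpow_lt_one_of_one_lt_of_neg (by norm_num) (by linarith)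
    rw [hG]
    apply div_nonneg (by norm_num)
    linarith
  refine ⟨(2 * π * M0) ^ 2 * π + 16 * π ^ 2 * C * G, fun h hh => ?_⟩
  rcases eq_or_ne h 0 with rfl | h0
  · rw [D, dif_zero]
    simp only [measureReal_empty, norm_zero]
    rw [Real.zero_rpow (by linarith), mul_zero]
  have ha : 0 < ‖h‖ := norm_pos_iff.2 h0
  obtain ⟨m1, m2, m3, m4, m5⟩ := inc_facts hE hfin h
  obtain ⟨p1, p2⟩ := plancherel m1 m2 m3
  have hD : ENNReal.ofReal (D E h) = ∫⁻ y, ‖ft (inc E h) y‖ₑ ^ 2 := by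
    rw [← m5, ← p2, ofReal_integral_eq_lintegral_ofReal p1 (ae_of_all _ fun y => by positivity)]
    refine lintegral_congr fun y => ?_
    rw [ENNReal.ofReal_pow (norm_nonneg _), ofReal_norm]
  have hcov : (univ : Set ℂ) ⊆ {y : ℂ | ‖y‖ < 1} ∪
      ⋃ k : ℕ, {y : ℂ | (2 : ℝ) ^ k ≤ ‖y‖ ∧ ‖y‖ < 2 * 2 ^ k} := by
    intro y _
    rcases lt_or_ge ‖y‖ 1 with h1 | h1
    · exact Or.inl h1
    · right
      obtain ⟨k, hk1, hk2⟩ := exists_nat_pow_near (x := ‖y‖) (y := (2 : ℝ)) h1 (by norm_num)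
      refine mem_iUnion.2 ⟨k, hk1, ?_⟩
      rw [pow_succ] at hk2
      linarith
  have hball : ∫⁻ y in {y : ℂ | ‖y‖ < 1}, ‖ft (inc E h) y‖ₑ ^ 2 ≤
      ENNReal.ofReal ((2 * π * M0) ^ 2 * π * ‖h‖ ^ s) := by
    have hset : {y : ℂ | ‖y‖ < 1} = Metric.ball (0 : ℂ) 1 := by
      ext y
      simp
    calc ∫⁻ y in {y : ℂ | ‖y‖ < 1}, ‖ft (inc E h) y‖ₑ ^ 2
        ≤ ∫⁻ y in {y : ℂ | ‖y‖ < 1}, ENNReal.ofReal ((2 * π * M0) ^ 2 * ‖h‖ ^ s) := by
          refine setLIntegral_mono measurable_const fun y hy => ?_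
          rw [← ofReal_norm, ← ENNReal.ofReal_pow (norm_nonneg _)]
          apply ENNReal.ofReal_le_ofReal
          rw [ft_inc hE hfin, norm_mul]
          have h1 : ‖ee (-(ip h y)) - 1‖ ≤ 2 * π * ‖h‖ := by
            refine (RegM_norm_ee_sub_one _).trans ?_
            rw [abs_neg]
            have := RegM_ip_le h y
            have hy' : ‖y‖ ≤ 1 := le_of_lt hy
            have : |ip h y| ≤ ‖h‖ := this.trans (mul_le_of_le_one_right (norm_nonneg _) hy')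
            gcongr
          have h2 : ‖ft (chi E) y‖ ≤ M0 := norm_ft_le _ _
          calc (‖ee (-(ip h y)) - 1‖ * ‖ft (chi E) y‖) ^ 2
              ≤ ((2 * π * ‖h‖) * M0) ^ 2 := by gcongr
            _ = (2 * π * M0) ^ 2 * ‖h‖ ^ (2 : ℕ) := by ring
            _ ≤ (2 * π * M0) ^ 2 * ‖h‖ ^ s := by
                gcongr
                rw [← Real.rpow_natCast]
                exact Real.rpow_le_rpow_of_exponent_ge ha hh (by push_cast; linarith)
      _ = ENNReal.ofReal ((2 * π * M0) ^ 2 * ‖h‖ ^ s) * ENNReal.ofReal π := by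
          rw [setLIntegral_const, hset, Complex.volume_ball]
          congr 1
          simp [NNReal.pi, ENNReal.ofReal, Real.toNNReal, Real.pi_pos.le]
          rfl
      _ = _ := by
          rw [← ENNReal.ofReal_mul (by positivity)]
          congr 1
          ring
  have hblock : ∀ k : ℕ, ∫⁻ y in {y : ℂ | (2 : ℝ) ^ k ≤ ‖y‖ ∧ ‖y‖ < 2 * 2 ^ k},
      ‖ft (inc E h) y‖ₑ ^ 2 ≤ ENNReal.ofReal (16 * π ^ 2 * C) *
        ENNReal.ofReal (min 1 (((2 : ℝ) ^ k * ‖h‖) ^ 2) * ((2 : ℝ) ^ k) ^ (-s)) := by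
    intro k
    have hset : MeasurableSet {y : ℂ | (2 : ℝ) ^ k ≤ ‖y‖ ∧ ‖y‖ < 2 * 2 ^ k} :=
      (measurableSet_le measurable_const measurable_norm).inter
        (measurableSet_lt measurable_norm measurable_const)
    calc ∫⁻ y in {y : ℂ | (2 : ℝ) ^ k ≤ ‖y‖ ∧ ‖y‖ < 2 * 2 ^ k}, ‖ft (inc E h) y‖ₑ ^ 2
        ≤ ∫⁻ y in {y : ℂ | (2 : ℝ) ^ k ≤ ‖y‖ ∧ ‖y‖ < 2 * 2 ^ k},
            ENNReal.ofReal (16 * π ^ 2 * min 1 (((2 : ℝ) ^ k * ‖h‖) ^ 2)) *
              ‖ft (chi E) y‖ₑ ^ 2 := by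
          refine setLIntegral_mono' hset fun y hy => ?_
          rw [ft_inc hE hfin, enorm_mul, mul_pow]
          gcongr
          rw [← ofReal_norm, ← ENNReal.ofReal_pow (norm_nonneg _)]
          apply ENNReal.ofReal_le_ofReal
          rw [mul_min_of_nonneg _ _ (by positivity)]
          apply le_min
          · have h1 := RegM_norm_ee_sub_one' (-(ip h y))
            have hpi : (1 : ℝ) ≤ π := by linarith [Real.pi_gt_three]
            calc ‖ee (-(ip h y)) - 1‖ ^ 2 ≤ 2 ^ 2 := by gcongr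
              _ ≤ 16 * π ^ 2 * 1 := by nlinarith
          · have h1 : ‖ee (-(ip h y)) - 1‖ ≤ 4 * π * (2 ^ k * ‖h‖) := by
              refine (RegM_norm_ee_sub_one _).trans ?_
              rw [abs_neg]
              have h3 := RegM_ip_le h y
              have h4 : ‖h‖ * ‖y‖ ≤ ‖h‖ * (2 * 2 ^ k) := by
                have := hy.2.le
                gcongr
              have h5 : |ip h y| ≤ ‖h‖ * (2 * 2 ^ k) := h3.trans h4
              calc 2 * π * |ip h y| ≤ 2 * π * (‖h‖ * (2 * 2 ^ k)) := by gcongr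
                _ = _ := by ring
            calc ‖ee (-(ip h y)) - 1‖ ^ 2 ≤ (4 * π * (2 ^ k * ‖h‖)) ^ 2 := by gcongr
              _ = 16 * π ^ 2 * (2 ^ k * ‖h‖) ^ 2 := by ring
      _ = ENNReal.ofReal (16 * π ^ 2 * min 1 (((2 : ℝ) ^ k * ‖h‖) ^ 2)) *
            ∫⁻ y in {y : ℂ | (2 : ℝ) ^ k ≤ ‖y‖ ∧ ‖y‖ < 2 * 2 ^ k}, ‖ft (chi E) y‖ₑ ^ 2 :=
          lintegral_const_mul' _ _ ENNReal.ofReal_ne_top
      _ ≤ ENNReal.ofReal (16 * π ^ 2 * min 1 (((2 : ℝ) ^ k * ‖h‖) ^ 2)) *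
            ENNReal.ofReal (C * ((2 : ℝ) ^ k) ^ (-(β / 2))) := by
          gcongr
          exact hblk k
      _ = _ := by
          rw [← ENNReal.ofReal_mul (by positivity), ← ENNReal.ofReal_mul (by positivity), ← hs]
          congr 1
          ring
  have hsum : ENNReal.ofReal (D E h) ≤
      ENNReal.ofReal (((2 * π * M0) ^ 2 * π + 16 * π ^ 2 * C * G) * ‖h‖ ^ s) := by
    rw [hD, ← setLIntegral_univ]
    calc ∫⁻ y in univ, ‖ft (inc E h) y‖ₑ ^ 2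
        ≤ ∫⁻ y in {y : ℂ | ‖y‖ < 1} ∪
            ⋃ k : ℕ, {y : ℂ | (2 : ℝ) ^ k ≤ ‖y‖ ∧ ‖y‖ < 2 * 2 ^ k},
            ‖ft (inc E h) y‖ₑ ^ 2 := lintegral_mono_set hcov
      _ ≤ (∫⁻ y in {y : ℂ | ‖y‖ < 1}, ‖ft (inc E h) y‖ₑ ^ 2) +
            ∫⁻ y in ⋃ k : ℕ, {y : ℂ | (2 : ℝ) ^ k ≤ ‖y‖ ∧ ‖y‖ < 2 * 2 ^ k},
            ‖ft (inc E h) y‖ₑ ^ 2 := lintegral_union_le _ _ _
      _ ≤ ENNReal.ofReal ((2 * π * M0) ^ 2 * π * ‖h‖ ^ s) +
            ∑' k : ℕ, ∫⁻ y in {y : ℂ | (2 : ℝ) ^ k ≤ ‖y‖ ∧ ‖y‖ < 2 * 2 ^ k},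
            ‖ft (inc E h) y‖ₑ ^ 2 := add_le_add hball (lintegral_iUnion_le _ _)
      _ ≤ ENNReal.ofReal ((2 * π * M0) ^ 2 * π * ‖h‖ ^ s) +
            ∑' k : ℕ, ENNReal.ofReal (16 * π ^ 2 * C) *
            ENNReal.ofReal (min 1 (((2 : ℝ) ^ k * ‖h‖) ^ 2) * ((2 : ℝ) ^ k) ^ (-s)) := by
          gcongr with k
          exact hblock k
      _ ≤ ENNReal.ofReal ((2 * π * M0) ^ 2 * π * ‖h‖ ^ s) +
            ENNReal.ofReal (16 * π ^ 2 * C) * ENNReal.ofReal (G * ‖h‖ ^ s) := by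
          rw [ENNReal.tsum_mul_left]
          gcongr
          exact RegM_sum ha hh hs0 hs1
      _ = _ := by
          rw [← ENNReal.ofReal_mul (by positivity), ← ENNReal.ofReal_add (by positivity)
            (by positivity)]
          congr 1
          ring
  exact (ENNReal.ofReal_le_ofReal_iff (by positivity)).1 hsum

end Pool.MPb9430d.Frac
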