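import Pool.Agent.Lib.MP_b9430d_co.Frac.Defs
import Pool.Agent.Lib.MP_1a9bf8_co.REP
import Pool.Agent.Lib.MP_bc6037_nt.DivBound

/-!
# RepB: a number `m` has at most `C_ε m^ε` representations as a sum of two squares

Everything is in the library: `Pool.Agent.Lib.DG.rep_le` in `Pool/Agent/Lib/MP_1a9bf8_co/REP.lean`
(`rp m ≤ 4 ∏_{p | m, p = 1 mod 4} (v_p(m) + 1)`, `rp m` = number of pairs with `nq z = m`), the product is at most
`∏_{p | m} (v_p(m)+1) = m.divisors.card` (`Nat.card_divisors`), and `card_divisors_le_rpow` in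
`Pool/Agent/Lib/MP_cb2e5b_nt/DivB.lean` (or `MP_bc6037_nt/DivBound.lean`) bounds the number of divisors by `C m^ε`.
Import these files (or copy the needed parts). The finite set `S` is contained in the set counted by `rp m`.
-/

set_option autoImplicit false

open MeasureTheory Complex Set Real Filter Topology
open scoped ENNReal

namespace Pool.MPb9430d.Frac

open Pool.MPb9430d Pool.MPb9430d.Rough

private theorem RepB_card {m : ℕ} (S : Finset (ℤ × ℤ)) (hS : ∀ p ∈ S, p.1 ^ 2 + p.2 ^ 2 = (m : ℤ)) :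
    S.card ≤ Pool.Agent.Lib.DG.rp m := by
  unfold Pool.Agent.Lib.DG.rp
  refine Finset.card_le_card fun p hp => ?_
  have h := hS p hp
  have key : ∀ a b : ℤ, a ^ 2 + b ^ 2 = (m : ℤ) → -(m : ℤ) ≤ a ∧ a ≤ m := by
    intro a b hab
    have h1 : a ^ 2 ≤ (m : ℤ) := by nlinarith [sq_nonneg b]
    have h2 : |a| ≤ a ^ 2 := by
      rw [← sq_abs]
      rcases eq_or_ne a 0 with h0 | h0
      · simp [h0]
      · have h3 : 1 ≤ |a| := Int.one_le_abs h0
        nlinarith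
    have h4 := neg_abs_le a
    have h5 := le_abs_self a
    constructor <;> linarith
  rw [Finset.mem_filter, Finset.mem_product, Finset.mem_Icc, Finset.mem_Icc]
  refine ⟨⟨key _ _ h, key p.2 p.1 (by rw [add_comm]; exact h)⟩, ?_⟩
  have h6 : ((Pool.Agent.Lib.DG.nq p : ℕ) : ℤ) = (m : ℤ) := by
    unfold Pool.Agent.Lib.DG.nq
    push_cast
    rw [sq_abs, sq_abs]
    exact h
  exact_mod_cast h6

theorem rep_bound {ε : ℝ} (hε : 0 < ε) : ∃ C : ℝ, 1 ≤ C ∧ ∀ m : ℕ, 1 ≤ m →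
    ∀ S : Finset (ℤ × ℤ), (∀ p ∈ S, p.1 ^ 2 + p.2 ^ 2 = (m : ℤ)) → (S.card : ℝ) ≤ C * (m : ℝ) ^ ε := by
  obtain ⟨C, hC, h⟩ := Pool.Agent.Lib.MP_bc6037_nt.card_divisors_le_rpow hε
  refine ⟨4 * C, by linarith, fun m hm S hS => ?_⟩
  have hm0 : m ≠ 0 := by omega
  have h1 : (S.card : ℝ) ≤ (Pool.Agent.Lib.DG.rp m : ℝ) := by exact_mod_cast RepB_card S hS
  have h2 := Pool.Agent.Lib.DG.rep_le m hm
  have h3 : ∏ p ∈ m.primeFactors.filter (fun p => p % 4 = 1), (m.factorization p + 1) ≤ m.divisors.card := by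
    rw [Nat.card_divisors hm0]
    exact Finset.prod_le_prod_of_subset_of_one_le' (Finset.filter_subset _ _) (fun _ _ _ => Nat.le_add_left _ _)
  have h4 : (Pool.Agent.Lib.DG.rp m : ℝ) ≤ 4 * (m.divisors.card : ℝ) := by
    have h5 : Pool.Agent.Lib.DG.rp m ≤ 4 * m.divisors.card := h2.trans (Nat.mul_le_mul_left _ h3)
    exact_mod_cast h5
  have h6 := h m hm0
  calc (S.card : ℝ) ≤ 4 * (m.divisors.card : ℝ) := h1.trans h4
    _ ≤ 4 * (C * (m : ℝ) ^ ε) := by linarith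
    _ = 4 * C * (m : ℝ) ^ ε := by ring

end Pool.MPb9430d.Frac
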