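import Pool.Agent.Lib.MP_b9430d_co.Frac.CntB
import Pool.Agent.Lib.MP_b9430d_co.Frac.MDefs

/-!
# SigB: weighted sum over pairs

`B = [1, ⌊4X²⌋]²`, `#B ≤ 16 X⁴`, `g(m) = |√m.1 - √m.2|` or `√m.1 + √m.2`; `kap x = (1+x)^(-3/2)` is decreasing. Treat the
two functions `g` in the same way.
(far) `|ρ - g(m)| > ρ/2`: `kap ≤ (Nρ/2)^(-3/2)`; total `≤ 16X⁴ (Nρ/2)^(-3/2) ≤ 48 X⁴ X^(-3) ρ^(-3/2) ≤ 200 X √ρ`
(`N ≥ X²`, `ρ ≥ 1/2`).
(near) `|ρ - g(m)| ≤ ρ/2`, so `g ≥ 1/4`. Let `δ = 1/X²`, `j = ⌊8 (g - ρ)/δ⌋ ∈ ℤ`, so `|g - ρ| ≥ (|j| - 1) δ/8` and, as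
`N ≥ X²`, `kap(N|ρ - g|) ≤ kap((|j| - 1)/8)` for `|j| ≥ 1`, `≤ 1` for `j = 0`. The `m` with a given `j` satisfy
`|g - ρ_j| ≤ δ/8`, `ρ_j = ρ + jδ/8`; if there is one, `ρ_j ≥ g - δ/8 ≥ 1/4 - 1/8 = 1/8` and `ρ_j ≤ 3ρ/2 ≤ 8X` (`ρ ≤ 5X`), so by
`cnt_b` there are at most `C X √ρ_j ≤ 2 C X √ρ` of them. Sum: `2CX√ρ (1 + 2∑_{j ≥ 1} kap((j-1)/8)) ≤ C' X √ρ`
(`kap(x) = (1+x)^(-3/2)`, `1 + (j-1)/8 ≥ j/8`, so `kap((j-1)/8) ≤ 8^(3/2) j^(-3/2)`, summable: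
`Real.summable_nat_rpow_inv`/`Real.summable_one_div_nat_rpow`; finite sum over the `j\) that occur:
`Finset.sum_fiberwise`, `Finset.card_eq_sum_card_fiberwise`).
-/

set_option autoImplicit false

open MeasureTheory Complex Set Real Filter Topology
open scoped ENNReal

namespace Pool.MPb9430d.Frac

open Pool.MPb9430d Pool.MPb9430d.Rough

private theorem sigB_kap_le {x t : ℝ} (ht : 0 < t) (h : t ^ 2 ≤ 1 + x) : kap x ≤ 1 / t ^ 3 := by
  have h1 : kap x ≤ (t ^ 2) ^ (-(3 / 2) : ℝ) :=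
    Real.rpow_le_rpow_of_nonpos (by positivity) h (by norm_num)
  refine h1.trans (le_of_eq ?_)
  rw [← Real.rpow_natCast t 2, ← Real.rpow_mul ht.le]
  have h2 : ((2 : ℕ) : ℝ) * (-(3 / 2) : ℝ) = -((3 : ℕ) : ℝ) := by norm_num
  rw [h2, Real.rpow_neg ht.le, Real.rpow_natCast, one_div]

private theorem sigB_summable :
    Summable fun j : ℤ => ((1 + |(j : ℝ)|) / 8) ^ (-(3 / 2) : ℝ) := by
  have h1 : Summable fun n : ℕ => ((1 + (n : ℝ)) / 8) ^ (-(3 / 2) : ℝ) := by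
    have h2 : Summable fun n : ℕ => ((n + 1 : ℕ) : ℝ) ^ (-(3 / 2) : ℝ) :=
      (summable_nat_add_iff 1).2 (Real.summable_nat_rpow.2 (by norm_num))
    refine (h2.mul_right ((8 : ℝ)⁻¹ ^ (-(3 / 2) : ℝ))).congr fun n => ?_
    rw [← Real.mul_rpow (by positivity) (by positivity)]
    congr 1
    push_cast
    ring
  refine summable_int_iff_summable_nat_and_neg.2 ⟨?_, ?_⟩
  · refine h1.congr fun n => ?_
    simp only [Int.cast_natCast, Nat.abs_cast]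
  · refine h1.congr fun n => ?_
    simp only [Int.cast_neg, Int.cast_natCast, abs_neg, Nat.abs_cast]

open Classical in
private theorem sigB_gen {C : ℝ} (hC : 0 < C) {X N ρ : ℝ} (hX : 1 ≤ X) (hN : X ^ 2 ≤ N)
    (hρ : 1 / 2 ≤ ρ) (hρ2 : ρ ≤ 5 * X) (B : Finset (ℕ × ℕ)) (hB : (B.card : ℝ) ≤ 16 * X ^ 4)
    (g : ℕ × ℕ → ℝ)
    (hcnt : ∀ ρ' : ℝ, 1 / 8 ≤ ρ' → ρ' ≤ 8 * X →
      ((B.filter fun m => |g m - ρ'| ≤ 1 / X ^ 2).card : ℝ) ≤ C * X * √ρ') :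
    ∑ m ∈ B, kap (N * |ρ - g m|) ≤
      (200 + 2 * C * ∑' j : ℤ, ((1 + |(j : ℝ)|) / 8) ^ (-(3 / 2) : ℝ)) * X * √ρ := by
  have hX0 : 0 < X := by linarith
  have hρ0 : 0 < ρ := by linarith
  have hN0 : 0 < N := lt_of_lt_of_le (by positivity) hN
  set s := √ρ with hs
  have hs0 : 0 < s := Real.sqrt_pos.2 hρ0
  have hs2 : s ^ 2 = ρ := Real.sq_sqrt hρ0.le
  set w : ℤ → ℝ := fun j => ((1 + |(j : ℝ)|) / 8) ^ (-(3 / 2) : ℝ) with hw
  have hw0 : ∀ j, 0 ≤ w j := fun j => Real.rpow_nonneg (by positivity) _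
  have hδX : 1 / X ^ 2 * X ^ 2 = 1 := by field_simp
  have hδ0 : 0 < 1 / X ^ 2 := by positivity
  have hδ1 : 1 / X ^ 2 ≤ 1 := by
    rw [div_le_one (by positivity)]
    nlinarith
  set δ := 1 / X ^ 2 with hδ
  -- far
  have hfar : ∑ m ∈ B.filter (fun m => ¬ |ρ - g m| ≤ ρ / 2), kap (N * |ρ - g m|) ≤
      200 * X * s := by
    have h1 : ∀ m ∈ B.filter (fun m => ¬ |ρ - g m| ≤ ρ / 2), kap (N * |ρ - g m|) ≤
        1 / (7 / 10 * X * s) ^ 3 := by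
      intro m hm
      have hm2 := (Finset.mem_filter.1 hm).2
      rw [not_le] at hm2
      apply sigB_kap_le (by positivity)
      have h2 : X ^ 2 * (ρ / 2) ≤ N * |ρ - g m| :=
        mul_le_mul hN hm2.le (by positivity) hN0.le
      have h3 : (7 / 10 * X * s) ^ 2 = 49 / 100 * (X ^ 2 * ρ) := by
        rw [mul_pow, mul_pow, hs2]; ring
      rw [h3]
      nlinarith [mul_pos (pow_pos hX0 2) hρ0]
    calc ∑ m ∈ B.filter (fun m => ¬ |ρ - g m| ≤ ρ / 2), kap (N * |ρ - g m|)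
        ≤ (B.filter (fun m => ¬ |ρ - g m| ≤ ρ / 2)).card • (1 / (7 / 10 * X * s) ^ 3) :=
          Finset.sum_le_card_nsmul _ _ _ h1
      _ = ((B.filter (fun m => ¬ |ρ - g m| ≤ ρ / 2)).card : ℝ) *
          (1 / (7 / 10 * X * s) ^ 3) := nsmul_eq_mul _ _
      _ ≤ (16 * X ^ 4) * (1 / (7 / 10 * X * s) ^ 3) := by
          apply mul_le_mul_of_nonneg_right _ (by positivity)
          exact (Nat.cast_le.2 (Finset.card_filter_le _ _)).trans hB
      _ ≤ 200 * X * s := by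
          rw [mul_one_div, div_le_iff₀ (by positivity)]
          have h4 : 200 * X * s * (7 / 10 * X * s) ^ 3 = 343 / 5 * X ^ 4 * (s ^ 2) ^ 2 := by ring
          rw [h4, hs2]
          have h5 : (1 / 2) ^ 2 ≤ ρ ^ 2 := pow_le_pow_left₀ (by norm_num) hρ 2
          have h6 := mul_le_mul_of_nonneg_left h5 (show 0 ≤ 343 / 5 * X ^ 4 by positivity)
          have h7 : 0 < X ^ 4 := by positivity
          linarith
  -- near
  set A := B.filter (fun m => |ρ - g m| ≤ ρ / 2) with hA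
  set jf : ℕ × ℕ → ℤ := fun m => ⌊8 * (g m - ρ) / δ⌋ with hjf
  have hjb : ∀ m, (jf m : ℝ) * (δ / 8) ≤ g m - ρ ∧ g m - ρ < ((jf m : ℝ) + 1) * (δ / 8) := by
    intro m
    have h1 : (jf m : ℝ) ≤ 8 * (g m - ρ) / δ := Int.floor_le _
    have h2 : 8 * (g m - ρ) / δ < (jf m : ℝ) + 1 := Int.lt_floor_add_one _
    rw [le_div_iff₀ hδ0] at h1
    rw [div_lt_iff₀ hδ0] at h2
    constructor <;> linarith
  have hnear : ∑ m ∈ A, kap (N * |ρ - g m|) ≤ 2 * C * (∑' j : ℤ, w j) * X * s := by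
    have hfib := Finset.sum_fiberwise_of_maps_to (s := A) (t := A.image jf) (g := jf)
      (fun m hm => Finset.mem_image_of_mem jf hm) (fun m => kap (N * |ρ - g m|))
    rw [← hfib]
    have h1 : ∀ j ∈ A.image jf, ∑ m ∈ A.filter (fun m => jf m = j), kap (N * |ρ - g m|) ≤
        2 * C * X * s * w j := by
      intro j hj
      obtain ⟨m0, hm0, hj0⟩ := Finset.mem_image.1 hj
      have hm0' : |ρ - g m0| ≤ ρ / 2 := (Finset.mem_filter.1 hm0).2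
      have hm0'' := abs_le.1 hm0'
      have hb0 := hjb m0
      rw [hj0] at hb0
      have hρj1 : 1 / 8 ≤ ρ + j * (δ / 8) := by linarith
      have hρj2 : ρ + j * (δ / 8) ≤ 8 * X := by linarith
      have hρj3 : √(ρ + j * (δ / 8)) ≤ 2 * s := by
        rw [Real.sqrt_le_left (by positivity), mul_pow, hs2]
        linarith
      have hc := hcnt _ hρj1 hρj2
      have hsub : A.filter (fun m => jf m = j) ⊆
          B.filter fun m => |g m - (ρ + j * (δ / 8))| ≤ δ := by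
        intro m hm
        obtain ⟨hm1, hm2⟩ := Finset.mem_filter.1 hm
        refine Finset.mem_filter.2 ⟨(Finset.mem_filter.1 hm1).1, ?_⟩
        have hb := hjb m
        rw [hm2] at hb
        rw [abs_le]
        constructor <;> linarith
      have hcard : ((A.filter (fun m => jf m = j)).card : ℝ) ≤ 2 * C * X * s := by
        calc ((A.filter (fun m => jf m = j)).card : ℝ) ≤
            ((B.filter fun m => |g m - (ρ + j * (δ / 8))| ≤ δ).card : ℝ) :=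
              Nat.cast_le.2 (Finset.card_le_card hsub)
          _ ≤ C * X * √(ρ + j * (δ / 8)) := hc
          _ ≤ C * X * (2 * s) := mul_le_mul_of_nonneg_left hρj3 (by positivity)
          _ = 2 * C * X * s := by ring
      have hval : ∀ m ∈ A.filter (fun m => jf m = j), kap (N * |ρ - g m|) ≤ w j := by
        intro m hm
        obtain ⟨hm1, hm2⟩ := Finset.mem_filter.1 hm
        have hb := hjb m
        rw [hm2] at hb
        rw [hw]
        apply Real.rpow_le_rpow_of_nonpos (by positivity) _ (by norm_num)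
        have h2 : (|(j : ℝ)| - 1) * (δ / 8) ≤ |ρ - g m| := by
          rw [abs_sub_comm]
          rcases abs_cases (j : ℝ) with ⟨e, he⟩ | ⟨e, he⟩
          · rw [e]
            refine le_trans ?_ (le_abs_self _)
            nlinarith
          · rw [e]
            refine le_trans ?_ (neg_le_abs _)
            nlinarith
        have h3 : X ^ 2 * |ρ - g m| ≤ N * |ρ - g m| :=
          mul_le_mul_of_nonneg_right hN (abs_nonneg _)
        have h4 : X ^ 2 * ((|(j : ℝ)| - 1) * (δ / 8)) ≤ X ^ 2 * |ρ - g m| :=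
          mul_le_mul_of_nonneg_left h2 (by positivity)
        have h5 : X ^ 2 * ((|(j : ℝ)| - 1) * (δ / 8)) = (|(j : ℝ)| - 1) / 8 := by
          calc X ^ 2 * ((|(j : ℝ)| - 1) * (δ / 8)) = (|(j : ℝ)| - 1) / 8 * (δ * X ^ 2) := by ring
            _ = _ := by rw [hδX, mul_one]
        linarith
      calc ∑ m ∈ A.filter (fun m => jf m = j), kap (N * |ρ - g m|)
          ≤ (A.filter (fun m => jf m = j)).card • w j := Finset.sum_le_card_nsmul _ _ _ hval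
        _ = ((A.filter (fun m => jf m = j)).card : ℝ) * w j := nsmul_eq_mul _ _
        _ ≤ 2 * C * X * s * w j := mul_le_mul_of_nonneg_right hcard (hw0 j)
    calc ∑ j ∈ A.image jf, ∑ m ∈ A.filter (fun m => jf m = j), kap (N * |ρ - g m|)
        ≤ ∑ j ∈ A.image jf, 2 * C * X * s * w j := Finset.sum_le_sum h1
      _ = 2 * C * X * s * ∑ j ∈ A.image jf, w j := by rw [Finset.mul_sum]
      _ ≤ 2 * C * X * s * ∑' j : ℤ, w j :=
          mul_le_mul_of_nonneg_left (sigB_summable.sum_le_tsum _ fun j _ => hw0 j)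
            (by positivity)
      _ = 2 * C * (∑' j : ℤ, w j) * X * s := by ring
  have htot := Finset.sum_filter_add_sum_filter_not B (fun m => |ρ - g m| ≤ ρ / 2)
    (fun m => kap (N * |ρ - g m|))
  rw [← htot]
  calc _ ≤ 2 * C * (∑' j : ℤ, w j) * X * s + 200 * X * s := add_le_add hnear hfar
    _ = _ := by ring

theorem sig_b : ∃ C : ℝ, 0 < C ∧ ∀ N X ρ : ℝ, 1 ≤ X → X ^ 2 ≤ N → 1 / 2 ≤ ρ → ρ ≤ 5 * X →
    ∑ m ∈ Finset.Icc 1 ⌊4 * X ^ 2⌋₊ ×ˢ Finset.Icc 1 ⌊4 * X ^ 2⌋₊,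
      (kap (N * |ρ - (|√(m.1 : ℝ) - √(m.2 : ℝ)|)|) + kap (N * |ρ - (√(m.1 : ℝ) + √(m.2 : ℝ))|)) ≤
      C * X * √ρ := by
  classical
  obtain ⟨C, hC, hcnt⟩ := cnt_b
  have hW : 0 ≤ ∑' j : ℤ, ((1 + |(j : ℝ)|) / 8) ^ (-(3 / 2) : ℝ) :=
    tsum_nonneg fun j => Real.rpow_nonneg (by positivity) _
  refine ⟨2 * (200 + 2 * C * ∑' j : ℤ, ((1 + |(j : ℝ)|) / 8) ^ (-(3 / 2) : ℝ)), by positivity,
    fun N X ρ hX hN hρ hρ2 => ?_⟩
  set B := Finset.Icc 1 ⌊4 * X ^ 2⌋₊ ×ˢ Finset.Icc 1 ⌊4 * X ^ 2⌋₊ with hBdef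
  have hB : (B.card : ℝ) ≤ 16 * X ^ 4 := by
    rw [hBdef, Finset.card_product, Nat.card_Icc, Nat.add_sub_cancel]
    push_cast
    have h1 : (⌊4 * X ^ 2⌋₊ : ℝ) ≤ 4 * X ^ 2 := Nat.floor_le (by positivity)
    calc (⌊4 * X ^ 2⌋₊ : ℝ) * (⌊4 * X ^ 2⌋₊ : ℝ) ≤ (4 * X ^ 2) * (4 * X ^ 2) :=
          mul_le_mul h1 h1 (Nat.cast_nonneg _) (by positivity)
      _ = 16 * X ^ 4 := by ring
  have h1 := sigB_gen hC hX hN hρ hρ2 B hB (fun m => |√(m.1 : ℝ) - √(m.2 : ℝ)|) (by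
    intro ρ' h1 h2
    refine le_trans (Nat.cast_le.2 (Finset.card_le_card ?_)) (hcnt X ρ' hX h1 h2)
    intro m hm
    obtain ⟨hm1, hm2⟩ := Finset.mem_filter.1 hm
    exact Finset.mem_filter.2 ⟨hm1, Or.inl hm2⟩)
  have h2 := sigB_gen hC hX hN hρ hρ2 B hB (fun m => √(m.1 : ℝ) + √(m.2 : ℝ)) (by
    intro ρ' h1 h2
    refine le_trans (Nat.cast_le.2 (Finset.card_le_card ?_)) (hcnt X ρ' hX h1 h2)
    intro m hm
    obtain ⟨hm1, hm2⟩ := Finset.mem_filter.1 hm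
    exact Finset.mem_filter.2 ⟨hm1, Or.inr hm2⟩)
  rw [Finset.sum_add_distrib]
  linarith

end Pool.MPb9430d.Frac
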