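import Pool.Agent.Lib.MP_b9430d_co.Frac.QQ
import Pool.Agent.Lib.MP_b9430d_co.Frac.SigB
import Pool.Agent.Lib.MP_b9430d_co.Frac.LocC
import Pool.Agent.Lib.MP_b9430d_co.Frac.RepB
import Pool.Agent.Lib.MP_b9430d_co.Frac.IntS

/-!
# SupS: the kernel of the nonlocal pairs

`ε' = min (ε/4) (1/4)` in `q_bound`, `ε/16` in `rep_bound`: a number `m ≤ 4X² ≤ 4N` is `‖lat q‖²` for at most
`C₁ (4N)^(ε/16)` points `q`. At most `(25X²)² ≤ 625 N²` pairs (`card_mid`), so the terms `C N^(-2)` contribute `≤ 625 C`; this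
settles `‖p‖ < 1/2` and `‖p‖ > 5X`. Let `1/2 ≤ ρ = ‖p‖ ≤ 5X`. Map a pair `(q, q')` to `(‖lat q‖², ‖lat q'‖²) ∈ [1, ⌊4X²⌋]²`
(natural numbers `q.1² + q.2²`, `norm_lat_sq` in IntS; `‖lat q‖ = √m`): each value is taken at most
`(C₁ (4N)^(ε/16))² ≤ C₂ N^(ε/8)` times (`Finset.sum_le_...fiberwise`, `Finset.sum_fiberwise_of_maps_to`), the summand
`kap + kap` depends only on the image, so the sum is `≤ C N^(1/2+2ε')/(√ρX) · C₂ N^(ε/8) · C₃ X√ρ + 625 C` (`sig_b`)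
`≤ C₄ N^(1/2 + ε/2 + ε/8) + 625 C ≤ C₅ N^(1/2+ε)`.
-/

set_option autoImplicit false

open MeasureTheory Complex Set Real Filter Topology
open scoped ENNReal

namespace Pool.MPb9430d.Frac

open Pool.MPb9430d Pool.MPb9430d.Rough

private def sups_n (q : ℤ × ℤ) : ℕ := q.1.natAbs ^ 2 + q.2.natAbs ^ 2

private theorem sups_n_cast (q : ℤ × ℤ) : (sups_n q : ℝ) = ‖lat q‖ ^ 2 := by
  rw [norm_lat_sq]
  simp only [sups_n, Nat.cast_add, Nat.cast_pow, Nat.cast_natAbs, Int.cast_abs, sq_abs]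

private theorem sups_n_int (q : ℤ × ℤ) : q.1 ^ 2 + q.2 ^ 2 = ((sups_n q : ℕ) : ℤ) := by
  simp only [sups_n, Nat.cast_add, Nat.cast_pow, Int.natCast_natAbs, sq_abs]

private theorem sups_n_sqrt (q : ℤ × ℤ) : √((sups_n q : ℕ) : ℝ) = ‖lat q‖ := by
  rw [sups_n_cast, Real.sqrt_sq (norm_nonneg _)]

private theorem sups_fiber {ι κ : Type*} [DecidableEq κ] (S : Finset ι) (B : Finset κ) (φ : ι → κ)
    (hφ : ∀ m ∈ S, φ m ∈ B) (f : κ → ℝ) (hf : ∀ b ∈ B, 0 ≤ f b) (K : ℝ)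
    (hK : ∀ b ∈ B, ((S.filter (fun m => φ m = b)).card : ℝ) ≤ K) :
    ∑ m ∈ S, f (φ m) ≤ K * ∑ b ∈ B, f b := by
  rw [← Finset.sum_fiberwise_of_maps_to hφ, Finset.mul_sum]
  refine Finset.sum_le_sum fun b hb => ?_
  have h : ∑ m ∈ S.filter (fun m => φ m = b), f (φ m) =
      ((S.filter (fun m => φ m = b)).card : ℝ) * f b := by
    rw [Finset.sum_congr rfl (g := fun _ => f b) (fun m hm => by
      rw [(Finset.mem_filter.mp hm).2]), Finset.sum_const, nsmul_eq_mul]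
  rw [h]
  exact mul_le_mul_of_nonneg_right (hK b hb) (hf b hb)

open Classical in
theorem sup_s {ε : ℝ} (hε : 0 < ε) : ∃ C : ℝ, 0 < C ∧ ∀ N X : ℝ, 1 ≤ X → X ^ 2 ≤ N → ∀ p : ℂ,
    ∑ m ∈ ((mid X) ×ˢ (mid X)).filter (fun m => ¬ |‖lat m.1‖ - ‖lat m.2‖| ≤ 1),
      |dcc N (lat m.1) (lat m.2) p| ≤ C * N ^ (1 / 2 + ε) := by
  have he0 : 0 < min (ε / 4) (1 / 4) := lt_min (by linarith) (by norm_num)
  obtain ⟨Cq, hCq, hq⟩ := q_bound he0 (min_le_right _ _)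
  obtain ⟨C1, hC1, hrep⟩ := rep_bound (ε := ε / 16) (by linarith)
  obtain ⟨C3, hC3, hsig⟩ := sig_b
  have h4pos : (0 : ℝ) < 4 ^ (ε / 8) := Real.rpow_pos_of_pos (by norm_num) _
  have hC1' : 0 < C1 := by linarith
  refine ⟨Cq * C3 * C1 ^ 2 * 4 ^ (ε / 8) + 625 * Cq, by positivity, ?_⟩
  intro N X hX hXN p
  have hN : 1 ≤ N := by nlinarith
  have hN0 : 0 < N := by linarith
  have hX0 : 0 < X := by linarith
  set S := ((mid X) ×ˢ (mid X)).filter (fun m => ¬ |‖lat m.1‖ - ‖lat m.2‖| ≤ 1) with hS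
  have hmem : ∀ m ∈ S, m.1 ∈ mid X ∧ m.2 ∈ mid X ∧ 1 < |‖lat m.1‖ - ‖lat m.2‖| := by
    intro m hm
    rw [hS, Finset.mem_filter, Finset.mem_product] at hm
    exact ⟨hm.1.1, hm.1.2, not_le.mp hm.2⟩
  have hcard : (S.card : ℝ) ≤ 625 * N ^ 2 := by
    have h1 : S.card ≤ (mid X).card * (mid X).card := by
      rw [← Finset.card_product]
      exact Finset.card_le_card (Finset.filter_subset _ _)
    have h2 := card_mid hX
    have h3 : (S.card : ℝ) ≤ ((mid X).card : ℝ) * ((mid X).card : ℝ) := by exact_mod_cast h1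
    have h4 : ((mid X).card : ℝ) * ((mid X).card : ℝ) ≤ (25 * X ^ 2) * (25 * X ^ 2) :=
      mul_le_mul h2 h2 (Nat.cast_nonneg _) (by positivity)
    have h5 : X ^ 2 * X ^ 2 ≤ N * N := mul_le_mul hXN hXN (by positivity) hN0.le
    nlinarith
  have hN2 : N ^ 2 * N ^ (-2 : ℝ) = 1 := by
    rw [← Real.rpow_natCast N 2, ← Real.rpow_add hN0]
    norm_num
  have hNm : 0 < N ^ (-2 : ℝ) := Real.rpow_pos_of_pos hN0 _
  have hconst : (S.card : ℝ) * (Cq * N ^ (-2 : ℝ)) ≤ 625 * Cq := by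
    calc (S.card : ℝ) * (Cq * N ^ (-2 : ℝ)) ≤ (625 * N ^ 2) * (Cq * N ^ (-2 : ℝ)) :=
          mul_le_mul_of_nonneg_right hcard (by positivity)
      _ = 625 * Cq * (N ^ 2 * N ^ (-2 : ℝ)) := by ring
      _ = 625 * Cq := by rw [hN2, mul_one]
  have hpow1 : 1 ≤ N ^ (1 / 2 + ε) := Real.one_le_rpow hN (by linarith)
  by_cases hp : ‖p‖ < 1 / 2 ∨ 5 * X < ‖p‖
  · have h1 : ∑ m ∈ S, |dcc N (lat m.1) (lat m.2) p| ≤ ∑ _m ∈ S, Cq * N ^ (-2 : ℝ) := by
      refine Finset.sum_le_sum fun m hm => ?_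
      obtain ⟨a1, a2, a3⟩ := hmem m hm
      rw [mem_mid] at a1 a2
      exact (hq N X hX hXN (lat m.1) (lat m.2) p a1.2.1 a1.2.2 a2.2.1 a2.2.2 a3).1 hp
    rw [Finset.sum_const, nsmul_eq_mul] at h1
    have h2 : 625 * Cq ≤ (Cq * C3 * C1 ^ 2 * 4 ^ (ε / 8) + 625 * Cq) * N ^ (1 / 2 + ε) := by
      have h3 : 0 ≤ Cq * C3 * C1 ^ 2 * 4 ^ (ε / 8) := by positivity
      have h4 : 0 ≤ Cq * C3 * C1 ^ 2 * 4 ^ (ε / 8) + 625 * Cq := by positivity
      calc 625 * Cq ≤ Cq * C3 * C1 ^ 2 * 4 ^ (ε / 8) + 625 * Cq := by linarith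
        _ ≤ _ := le_mul_of_one_le_right h4 hpow1
    exact h1.trans (hconst.trans h2)
  · rw [not_or, not_lt, not_lt] at hp
    obtain ⟨hp1, hp2⟩ := hp
    set ρ := ‖p‖ with hρ
    have hρ0 : 0 < ρ := by linarith
    have hsρ : 0 < √ρ := Real.sqrt_pos.mpr hρ0
    set e' := min (ε / 4) (1 / 4) with he'
    set A : ℝ := N ^ (1 / 2 + 2 * e') / (√ρ * X) with hA
    have hA0 : 0 < A := div_pos (Real.rpow_pos_of_pos hN0 _) (mul_pos hsρ hX0)
    let f : ℕ × ℕ → ℝ := fun m => kap (N * |ρ - (|√(m.1 : ℝ) - √(m.2 : ℝ)|)|) +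
      kap (N * |ρ - (√(m.1 : ℝ) + √(m.2 : ℝ))|)
    have hf0 : ∀ b : ℕ × ℕ, 0 ≤ f b := fun b =>
      add_nonneg (kap_nonneg (by positivity)) (kap_nonneg (by positivity))
    let φ : (ℤ × ℤ) × (ℤ × ℤ) → ℕ × ℕ := fun m => (sups_n m.1, sups_n m.2)
    have h1 : ∑ m ∈ S, |dcc N (lat m.1) (lat m.2) p| ≤
        ∑ m ∈ S, (Cq * A * f (φ m) + Cq * N ^ (-2 : ℝ)) := by
      refine Finset.sum_le_sum fun m hm => ?_
      obtain ⟨a1, a2, a3⟩ := hmem m hm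
      rw [mem_mid] at a1 a2
      have h2 := (hq N X hX hXN (lat m.1) (lat m.2) p a1.2.1 a1.2.2 a2.2.1 a2.2.2 a3).2 hp1 hp2
      refine h2.trans (le_of_eq ?_)
      show _ = Cq * A * (kap (N * |ρ - (|√((sups_n m.1 : ℕ) : ℝ) - √((sups_n m.2 : ℕ) : ℝ)|)|) +
        kap (N * |ρ - (√((sups_n m.1 : ℕ) : ℝ) + √((sups_n m.2 : ℕ) : ℝ))|)) + Cq * N ^ (-2 : ℝ)
      rw [sups_n_sqrt, sups_n_sqrt]
      ring
    rw [Finset.sum_add_distrib, ← Finset.mul_sum, Finset.sum_const, nsmul_eq_mul] at h1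
    have hmidn : ∀ q ∈ mid X, sups_n q ∈ Finset.Icc 1 ⌊4 * X ^ 2⌋₊ := by
      intro q hq1
      rw [mem_mid] at hq1
      obtain ⟨b1, b2, b3⟩ := hq1
      rw [Finset.mem_Icc]
      have h5 := sups_n_cast q
      have hn0 : 0 ≤ ‖lat q‖ := norm_nonneg _
      constructor
      · have h6 : (1 : ℝ) < (sups_n q : ℝ) := by rw [h5]; nlinarith
        exact_mod_cast h6.le
      · refine Nat.le_floor ?_
        rw [h5]
        nlinarith
    have hfib : ∀ k : ℕ, 1 ≤ k → k ≤ ⌊4 * X ^ 2⌋₊ →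
        (((mid X).filter (fun q => sups_n q = k)).card : ℝ) ≤ C1 * (4 * N) ^ (ε / 16) := by
      intro k hk1 hk2
      have h5 := hrep k hk1 ((mid X).filter (fun q => sups_n q = k)) (by
        intro q hq1
        rw [Finset.mem_filter] at hq1
        rw [sups_n_int, hq1.2])
      refine h5.trans (mul_le_mul_of_nonneg_left ?_ hC1'.le)
      refine Real.rpow_le_rpow (Nat.cast_nonneg _) ?_ (by linarith)
      have h6 : (k : ℝ) ≤ 4 * X ^ 2 := (Nat.le_floor_iff (by positivity)).mp hk2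
      linarith
    set K : ℝ := (C1 * (4 * N) ^ (ε / 16)) * (C1 * (4 * N) ^ (ε / 16)) with hK
    have hfs := sups_fiber S (Finset.Icc 1 ⌊4 * X ^ 2⌋₊ ×ˢ Finset.Icc 1 ⌊4 * X ^ 2⌋₊) φ (by
        intro m hm
        obtain ⟨a1, a2, a3⟩ := hmem m hm
        exact Finset.mem_product.mpr ⟨hmidn _ a1, hmidn _ a2⟩) f (fun b _ => hf0 b) K (by
        intro b hb
        rw [Finset.mem_product, Finset.mem_Icc, Finset.mem_Icc] at hb
        have hsub : S.filter (fun m => φ m = b) ⊆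
            ((mid X).filter (fun q => sups_n q = b.1)) ×ˢ ((mid X).filter (fun q => sups_n q = b.2)) := by
          intro m hm
          rw [Finset.mem_filter] at hm
          obtain ⟨a1, a2, a3⟩ := hmem m hm.1
          rw [Finset.mem_product, Finset.mem_filter, Finset.mem_filter]
          exact ⟨⟨a1, congrArg Prod.fst hm.2⟩, ⟨a2, congrArg Prod.snd hm.2⟩⟩
        have h7 := Finset.card_le_card hsub
        rw [Finset.card_product] at h7
        have h8 : ((S.filter (fun m => φ m = b)).card : ℝ) ≤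
            (((mid X).filter (fun q => sups_n q = b.1)).card : ℝ) *
              (((mid X).filter (fun q => sups_n q = b.2)).card : ℝ) := by exact_mod_cast h7
        exact h8.trans (mul_le_mul (hfib _ hb.1.1 hb.1.2) (hfib _ hb.2.1 hb.2.2)
          (Nat.cast_nonneg _) (by positivity)))
    have hsg := hsig N X ρ hX hXN hp1 hp2
    have hK0 : 0 ≤ K := by positivity
    have h9 : ∑ m ∈ S, f (φ m) ≤ K * (C3 * X * √ρ) :=
      hfs.trans (mul_le_mul_of_nonneg_left hsg hK0)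
    have hKeq : K = C1 ^ 2 * (4 ^ (ε / 8) * N ^ (ε / 8)) := by
      have h10 : (4 * N) ^ (ε / 16) * (4 * N) ^ (ε / 16) = 4 ^ (ε / 8) * N ^ (ε / 8) := by
        rw [← Real.rpow_add (by positivity), ← Real.mul_rpow (by norm_num) hN0.le]
        congr 1
        ring
      calc K = C1 ^ 2 * ((4 * N) ^ (ε / 16) * (4 * N) ^ (ε / 16)) := by rw [hK]; ring
        _ = _ := by rw [h10]
    have hAe : A * (X * √ρ) = N ^ (1 / 2 + 2 * e') := by
      rw [hA]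
      field_simp
    have hAN : N ^ (1 / 2 + 2 * e') * N ^ (ε / 8) ≤ N ^ (1 / 2 + ε) := by
      rw [← Real.rpow_add hN0]
      refine Real.rpow_le_rpow_of_exponent_le hN ?_
      have h11 : e' ≤ ε / 4 := min_le_left _ _
      linarith
    have hfin : Cq * A * (K * (C3 * X * √ρ)) ≤
        Cq * C3 * C1 ^ 2 * 4 ^ (ε / 8) * N ^ (1 / 2 + ε) := by
      calc Cq * A * (K * (C3 * X * √ρ)) = Cq * C3 * K * (A * (X * √ρ)) := by ring
        _ = Cq * C3 * C1 ^ 2 * 4 ^ (ε / 8) * (N ^ (1 / 2 + 2 * e') * N ^ (ε / 8)) := by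
            rw [hAe, hKeq]; ring
        _ ≤ _ := mul_le_mul_of_nonneg_left hAN (by positivity)
    have h12 : Cq * A * ∑ m ∈ S, f (φ m) ≤ Cq * A * (K * (C3 * X * √ρ)) :=
      mul_le_mul_of_nonneg_left h9 (by positivity)
    have h13 : 625 * Cq ≤ 625 * Cq * N ^ (1 / 2 + ε) :=
      le_mul_of_one_le_right (by positivity) hpow1
    calc ∑ m ∈ S, |dcc N (lat m.1) (lat m.2) p| ≤ _ := h1
      _ ≤ Cq * C3 * C1 ^ 2 * 4 ^ (ε / 8) * N ^ (1 / 2 + ε) + 625 * Cq * N ^ (1 / 2 + ε) :=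
          add_le_add (h12.trans hfin) (hconst.trans h13)
      _ = _ := by ring

end Pool.MPb9430d.Frac
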