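import Pool.Agent.Lib.MP_b9430d_co.Frac.NoReg

/-!
# ThmA: roughness at infinity

Otherwise `volume.real (dif E v \ closedBall 0 R) ≤ C ‖v‖^a` for all `0 < ‖v‖ < δ`. `escape n R` (Rough/Escape) gives
`η > 0` such that `D E v < η` implies `D E v ≤ 8 n volume.real (dif E v \ closedBall 0 R)` (see the proof of `hesc` in
`Pool/Agent/Results/MP_b9430d_co/RoughAtInfinity.lean`), and `D E v → 0` as `v → 0` (`tendsto_dif_zero`). So
`D E v ≤ 8 n C ‖v‖^a` for small `v`, and then for all `‖v‖ ≤ 1` with another constant (`D E v ≤ 2 volume.real E`),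
contradicting `no_reg`.
-/

set_option autoImplicit false

open MeasureTheory Complex Set Real Filter Topology
open scoped ENNReal

namespace Pool.MPb9430d.Frac

open Pool.MPb9430d Pool.MPb9430d.Rough

private theorem thmA_two {E : Set ℂ} (hfin : volume E ≠ ∞) (v : ℂ) :
    D E v ≤ 2 * volume.real E := by
  have h1 : dif E v ⊆ E ∪ (fun x => x - v) ⁻¹' E := by
    rintro x (h | h)
    · exact Or.inl h.1
    · exact Or.inr h.1
  have h2 : volume ((fun x => x - v) ⁻¹' E) = volume E := volume_preimage_sub E v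
  have h3 : volume (E ∪ (fun x => x - v) ⁻¹' E) ≠ ∞ := by
    refine ne_top_of_le_ne_top ?_ (measure_union_le _ _)
    rw [h2]
    exact ENNReal.add_ne_top.2 ⟨hfin, hfin⟩
  have h4 : volume.real ((fun x => x - v) ⁻¹' E) = volume.real E := by
    rw [Measure.real, Measure.real, h2]
  calc D E v ≤ volume.real (E ∪ (fun x => x - v) ⁻¹' E) := measureReal_mono h1 h3
    _ ≤ volume.real E + volume.real ((fun x => x - v) ⁻¹' E) := measureReal_union_le _ _
    _ = 2 * volume.real E := by rw [h4]; ring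

private theorem thmA_esc {E : Set ℂ} {n : ℕ} (hE : MeasurableSet E) (hT : Tile E n)
    (R : ℝ) : ∃ η : ℝ, 0 < η ∧ ∀ v : ℂ, volume.real (dif E v) < η →
      volume.real (dif E v) ≤ 8 * n * volume.real (dif E v \ Metric.closedBall 0 R) := by
  have hfin : volume E ≠ ∞ := (volume_lt_top hE hT).ne
  have hTv : ∀ v : ℂ, Tile ((fun x => x - v) ⁻¹' E) n := by
    intro v θ
    have h1 := (measurePreserving_sub_right (volume : Measure ℂ) v).quasiMeasurePreserving.ae (hT θ)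
    filter_upwards [h1] with x hx
    have h2 : {p : ℤ × ℤ | x + rot θ * lat p ∈ (fun x => x - v) ⁻¹' E} =
        {p : ℤ × ℤ | x - v + rot θ * lat p ∈ E} := by
      ext p
      change x + rot θ * lat p - v ∈ E ↔ x - v + rot θ * lat p ∈ E
      rw [sub_add_eq_add_sub]
    rw [h2]
    exact hx
  obtain ⟨η, hη, h⟩ := escape n R
  refine ⟨η, hη, fun v hv => ?_⟩
  have h1 : volume (dif E v) < ENNReal.ofReal η := by
    rw [← ENNReal.ofReal_toReal (volume_dif_ne_top hfin v)]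
    exact (ENNReal.ofReal_lt_ofReal_iff hη).2 hv
  have h2 := h E _ hE (hE.preimage (measurable_sub_const v)) hT (hTv v) h1
  have h3 : volume (dif E v \ Metric.closedBall 0 R) ≠ ∞ :=
    ne_top_of_le_ne_top (volume_dif_ne_top hfin v) (measure_mono sdiff_subset)
  have h4 := ENNReal.toReal_mono (ENNReal.mul_ne_top (ENNReal.mul_ne_top (by norm_num)
    (ENNReal.natCast_ne_top n)) h3) h2
  rw [ENNReal.toReal_mul, ENNReal.toReal_mul, ENNReal.toReal_natCast] at h4
  have h5 : (8 : ℝ≥0∞).toReal = 8 := by norm_num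
  rw [h5] at h4
  exact h4

private theorem thmA_small {E : Set ℂ} (hE : MeasurableSet E) (hfin : volume E ≠ ∞) {η : ℝ}
    (hη : 0 < η) : ∃ δ : ℝ, 0 < δ ∧ ∀ v : ℂ, ‖v‖ < δ → volume.real (dif E v) < η := by
  have h1 := tendsto_dif_zero hE hfin
  have h2 := (ENNReal.tendsto_nhds_zero.1 h1) (ENNReal.ofReal (η / 2))
    (ENNReal.ofReal_pos.2 (by linarith))
  obtain ⟨δ, hδ, h3⟩ := Metric.eventually_nhds_iff.1 h2
  refine ⟨δ, hδ, fun v hv => ?_⟩
  have h4 := h3 (y := v) (by rwa [dist_zero_right])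
  have h5 : volume.real (dif E v) ≤ η / 2 :=
    ENNReal.toReal_le_of_le_ofReal (by linarith) h4
  linarith

theorem rough_inf {E : Set ℂ} {n : ℕ} (hn : 1 ≤ n) (hE : MeasurableSet E) (hT : Tile E n)
    (R : ℝ) {a : ℝ} (ha : 2 / 3 < a) (C : ℝ) {δ : ℝ} (hδ : 0 < δ) :
    ∃ v : ℂ, v ≠ 0 ∧ ‖v‖ < δ ∧ C * ‖v‖ ^ a < volume.real (dif E v \ Metric.closedBall 0 R) := by
  by_contra hcon
  push Not at hcon
  have hfin : volume E ≠ ∞ := (volume_lt_top hE hT).ne
  obtain ⟨η, hη, hesc⟩ := thmA_esc hE hT R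
  obtain ⟨δ', hδ', hsmall⟩ := thmA_small hE hfin hη
  have ha0 : 0 < a := by linarith
  obtain ⟨δ₁, h1, h1a, h1b⟩ : ∃ δ₁ : ℝ, 0 < δ₁ ∧ δ₁ ≤ δ ∧ δ₁ ≤ δ' :=
    ⟨min δ δ', lt_min hδ hδ', min_le_left _ _, min_le_right _ _⟩
  have hp : 0 < δ₁ ^ a := Real.rpow_pos_of_pos h1 a
  have hV : 0 ≤ volume.real E := measureReal_nonneg
  have hn0 : (0 : ℝ) ≤ n := Nat.cast_nonneg n
  refine no_reg (K := 8 * n * |C| + 2 * volume.real E / δ₁ ^ a) hn hE hT ha fun t ht => ?_
  have hta : 0 ≤ ‖t‖ ^ a := Real.rpow_nonneg (norm_nonneg t) a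
  have hA : 0 ≤ 8 * n * |C| * ‖t‖ ^ a := by positivity
  have hB : 0 ≤ 2 * volume.real E / δ₁ ^ a * ‖t‖ ^ a := by positivity
  rw [add_mul]
  by_cases ht0 : t = 0
  · subst ht0
    have : D E 0 = 0 := by
      rw [D, dif_zero]
      simp
    rw [this]
    linarith
  by_cases htd : ‖t‖ < δ₁
  · have h2 := hesc t (hsmall t (htd.trans_le h1b))
    have h3 := hcon t ht0 (htd.trans_le h1a)
    have h4 : C * ‖t‖ ^ a ≤ |C| * ‖t‖ ^ a := mul_le_mul_of_nonneg_right (le_abs_self C) hta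
    have h5 : D E t ≤ 8 * n * (|C| * ‖t‖ ^ a) :=
      h2.trans (mul_le_mul_of_nonneg_left (h3.trans h4) (by positivity))
    linarith
  · push Not at htd
    have h2 := thmA_two hfin t
    have h3 : δ₁ ^ a ≤ ‖t‖ ^ a := Real.rpow_le_rpow h1.le htd ha0.le
    have h4 : 2 * volume.real E ≤ 2 * volume.real E / δ₁ ^ a * ‖t‖ ^ a := by
      rw [div_mul_eq_mul_div, le_div_iff₀ hp]
      exact mul_le_mul_of_nonneg_left h3 (by positivity)
    linarith

end Pool.MPb9430d.Frac
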