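import Pool.Agent.Lib.MP_b9430d_co.Frac.RegM
import Pool.Agent.Lib.MP_b9430d_co.Frac.NoReg

/-!
# ThmB: infinite moments

Suppose the integral is finite. Let `β' = min β (3/2)`: `4/3 < β' < 2`, `‖x‖^β' ≤ 1 + ‖x‖^β` and `volume E < ∞`
(`volume_lt_top`), so the moment of order `β'` is finite. `reg_of_moment` gives `D E h ≤ K‖h‖^{β'/2}` for `‖h‖ ≤ 1`, with
`β'/2 > 2/3`: contradiction with `no_reg`.
-/

set_option autoImplicit false

open MeasureTheory Complex Set Real Filter Topology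
open scoped ENNReal

namespace Pool.MPb9430d.Frac

open Pool.MPb9430d Pool.MPb9430d.Rough

theorem moment {E : Set ℂ} {n : ℕ} (hn : 1 ≤ n) (hE : MeasurableSet E) (hT : Tile E n) {β : ℝ}
    (hβ : 4 / 3 < β) : ∫⁻ x in E, ENNReal.ofReal (‖x‖ ^ β) = ∞ := by
  by_contra hne
  have hfin : volume E ≠ ∞ := (volume_lt_top hE hT).ne
  obtain ⟨b, hb⟩ : ∃ b : ℝ, b = min β (3 / 2) := ⟨_, rfl⟩
  have hb1 : 4 / 3 < b := by
    rw [hb]
    exact lt_min hβ (by norm_num)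
  have hb2 : b ≤ 3 / 2 := by
    rw [hb]
    exact min_le_right _ _
  have hbβ : b ≤ β := by
    rw [hb]
    exact min_le_left _ _
  have hle : ∀ x : ℂ, ‖x‖ ^ b ≤ 1 + ‖x‖ ^ β := by
    intro x
    have h0 : 0 ≤ ‖x‖ := norm_nonneg x
    rcases le_total ‖x‖ 1 with h1 | h1
    · have h2 : ‖x‖ ^ b ≤ 1 := Real.rpow_le_one h0 h1 (by linarith)
      have h3 : 0 ≤ ‖x‖ ^ β := Real.rpow_nonneg h0 β
      linarith
    · have h2 : ‖x‖ ^ b ≤ ‖x‖ ^ β := Real.rpow_le_rpow_of_exponent_le h1 hbβ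
      linarith
  have hM : ∫⁻ x in E, ENNReal.ofReal (‖x‖ ^ b) ≠ ∞ := by
    have h1 : ∫⁻ x in E, ENNReal.ofReal (‖x‖ ^ b) ≤
        ∫⁻ x in E, (1 + ENNReal.ofReal (‖x‖ ^ β)) := by
      refine lintegral_mono fun x => ?_
      refine (ENNReal.ofReal_le_ofReal (hle x)).trans ?_
      rw [ENNReal.ofReal_add zero_le_one (Real.rpow_nonneg (norm_nonneg x) β), ENNReal.ofReal_one]
    have h2 : ∫⁻ x in E, (1 + ENNReal.ofReal (‖x‖ ^ β)) =
        volume E + ∫⁻ x in E, ENNReal.ofReal (‖x‖ ^ β) := by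
      rw [lintegral_add_left measurable_const, setLIntegral_const, one_mul]
    rw [h2] at h1
    exact ne_top_of_le_ne_top (ENNReal.add_ne_top.2 ⟨hfin, hne⟩) h1
  obtain ⟨K, hK⟩ := reg_of_moment hE hfin hT (β := b) (by linarith) (by linarith) hM
  exact no_reg hn hE hT (a := b / 2) (by linarith) hK

end Pool.MPb9430d.Frac
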