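import Pool.Agent.Lib.MP_b9430d_co.Frac.CirA
import Pool.Agent.Lib.MP_b9430d_co.Frac.GauF

/-!
# Trip: the quadratic form of a circle mean as a triple integral

`qf (cir N z) F = ∫_x ∫_y F(x) (2π)⁻¹ ∫_φ gau N (x - y + rot φ z) F(y)`. For fixed `x, φ` substitute
`y → y + rot φ z` in the inner integral: `∫_y gau N (x - y) F(y + rot φ z)`. Absolute integrability of
`(x, φ, y) ↦ F(x) gau N (x-y) F(y + rot φ z)` on `ℂ × (-π, π] × ℂ`: measurable, and
`|...| ≤ |F(x)| gau N (x - y)` (`|F| ≤ 1`), whose integral is `2π ∫|F|`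
(`integrable_prod_iff`, `Integrable.comp_sub_left`, `integral_gau`). The identity is Fubini
(`integral_prod`, `integral_integral_swap`).
-/

set_option autoImplicit false

open MeasureTheory Complex Set Real Filter Topology
open scoped ENNReal

namespace Pool.MPb9430d.Frac

open Pool.MPb9430d Pool.MPb9430d.Rough

private theorem Trip_meas {F : ℂ → ℝ} (hm : Measurable F) (N : ℝ) (z : ℂ) :
    Measurable (fun w : ℂ × ℝ × ℂ =>
      F w.1 * (gau N (w.1 - w.2.2) * F (w.2.2 + rot w.2.1 * z))) := by
  have h1 : Measurable (fun w : ℂ × ℝ × ℂ => w.1 - w.2.2) := by fun_prop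
  have h2 : Measurable (fun w : ℂ × ℝ × ℂ => w.2.2 + rot w.2.1 * z) :=
    (measurable_snd.comp measurable_snd).add
      ((measurable_rot.comp (measurable_fst.comp measurable_snd)).mul_const z)
  exact (hm.comp measurable_fst).mul
    (((continuous_gau N).measurable.comp h1).mul (hm.comp h2))

private theorem Trip_slice {N : ℝ} (hN : 0 < N) (x : ℂ) (c : ℝ) :
    Integrable (fun w : ℝ × ℂ => c * (1 * gau N (x - w.2)))
      ((volume.restrict (Ioc (-π) π)).prod volume) := by
  have h1 : Integrable (fun _ : ℝ => (1 : ℝ)) (volume.restrict (Ioc (-π) π)) :=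
    integrable_const 1
  have h2 : Integrable (fun y : ℂ => gau N (x - y)) := (integrable_gau hN).comp_sub_left x
  exact (h1.mul_prod h2).const_mul c

private theorem Trip_val {N : ℝ} (hN : 0 < N) (x : ℂ) (c : ℝ) :
    ∫ w : ℝ × ℂ, c * (1 * gau N (x - w.2)) ∂((volume.restrict (Ioc (-π) π)).prod volume) =
      c * (2 * π) := by
  rw [integral_const_mul]
  congr 1
  have h1 := integral_prod_mul (μ := volume.restrict (Ioc (-π) π)) (ν := (volume : Measure ℂ))
    (fun _ : ℝ => (1 : ℝ)) (fun y : ℂ => gau N (x - y))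
  rw [h1, integral_sub_left_eq_self (fun y => gau N y) volume x, integral_gau hN, mul_one,
    integral_const, smul_eq_mul, mul_one, measureReal_restrict_apply_univ, Measure.real,
    Real.volume_Ioc, ENNReal.toReal_ofReal (by have := Real.pi_pos; linarith)]
  ring

theorem integrable_triple {F : ℂ → ℝ} (hm : Measurable F) (hF : Integrable F)
    (hb : ∀ x, |F x| ≤ 1) {N : ℝ} (hN : 0 < N) (z : ℂ) :
    Integrable (fun w : ℂ × ℝ × ℂ => F w.1 * (gau N (w.1 - w.2.2) * F (w.2.2 + rot w.2.1 * z)))
      (volume.prod ((volume.restrict (Ioc (-π) π)).prod volume)) := by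
  have hg : Integrable (fun w : ℂ × ℝ × ℂ => |F w.1| * (1 * gau N (w.1 - w.2.2)))
      (volume.prod ((volume.restrict (Ioc (-π) π)).prod volume)) := by
    have hgm : Measurable (fun w : ℂ × ℝ × ℂ => |F w.1| * (1 * gau N (w.1 - w.2.2))) := by
      have h1 : Measurable (fun w : ℂ × ℝ × ℂ => w.1 - w.2.2) := by fun_prop
      have h2 : Measurable (fun w : ℂ × ℝ × ℂ => |F w.1|) :=
        measurable_norm.comp (hm.comp measurable_fst)
      exact h2.mul (measurable_const.mul ((continuous_gau N).measurable.comp h1))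
    rw [integrable_prod_iff hgm.aestronglyMeasurable]
    refine ⟨ae_of_all _ fun x => Trip_slice hN x |F x|, ?_⟩
    have h3 : ∀ x : ℂ, ∫ w : ℝ × ℂ, ‖|F (x, w).1| * (1 * gau N ((x, w).1 - (x, w).2.2))‖
        ∂((volume.restrict (Ioc (-π) π)).prod volume) = |F x| * (2 * π) := by
      intro x
      rw [← Trip_val hN x |F x|]
      refine integral_congr_ae (ae_of_all _ fun w => ?_)
      show ‖|F x| * (1 * gau N (x - w.2))‖ = |F x| * (1 * gau N (x - w.2))
      rw [Real.norm_eq_abs, abs_of_nonneg]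
      exact mul_nonneg (abs_nonneg _) (mul_nonneg zero_le_one (gau_nonneg _ _))
    simp only [h3]
    exact hF.abs.mul_const _
  refine hg.mono' (Trip_meas hm N z).aestronglyMeasurable (ae_of_all _ fun w => ?_)
  rw [Real.norm_eq_abs, abs_mul, abs_mul, abs_of_nonneg (gau_nonneg N _)]
  refine mul_le_mul_of_nonneg_left ?_ (abs_nonneg _)
  rw [one_mul]
  exact mul_le_of_le_one_right (gau_nonneg N _) (hb _)

private theorem Trip_inner {F : ℂ → ℝ} (hm : Measurable F) (hF : Integrable F)
    (hb : ∀ x, |F x| ≤ 1) {N : ℝ} (hN : 0 < N) (z x : ℂ) :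
    ∫ w : ℝ × ℂ, F x * (gau N (x - w.2) * F (w.2 + rot w.1 * z))
      ∂((volume.restrict (Ioc (-π) π)).prod volume) =
    (2 * π) * ∫ y, F x * (cir N z (x - y) * F y) := by
  have hi : Integrable (fun w : ℝ × ℂ => F x * (gau N (x - w.2) * F (w.2 + rot w.1 * z)))
      ((volume.restrict (Ioc (-π) π)).prod volume) := by
    refine (Trip_slice hN x |F x|).mono' ?_ (ae_of_all _ fun w => ?_)
    · have h2 : Measurable (fun w : ℝ × ℂ => w.2 + rot w.1 * z) :=
        measurable_snd.add ((measurable_rot.comp measurable_fst).mul_const z)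
      have h1 : Measurable (fun w : ℝ × ℂ => x - w.2) := by fun_prop
      exact (measurable_const.mul
        (((continuous_gau N).measurable.comp h1).mul (hm.comp h2))).aestronglyMeasurable
    · rw [Real.norm_eq_abs, abs_mul, abs_mul, abs_of_nonneg (gau_nonneg N _)]
      refine mul_le_mul_of_nonneg_left ?_ (abs_nonneg _)
      rw [one_mul]
      exact mul_le_of_le_one_right (gau_nonneg N _) (hb _)
  rw [integral_prod _ hi]
  have h1 : ∀ φ : ℝ, ∫ y, F x * (gau N (x - (φ, y).2) * F ((φ, y).2 + rot (φ, y).1 * z)) =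
      ∫ y, F x * (gau N (x - y + rot φ * z) * F y) := by
    intro φ
    rw [← integral_add_right_eq_self
      (fun y => F x * (gau N (x - y + rot φ * z) * F y)) (rot φ * z)]
    refine integral_congr_ae (ae_of_all _ fun y => ?_)
    show F x * (gau N (x - y) * F (y + rot φ * z)) =
      F x * (gau N (x - (y + rot φ * z) + rot φ * z) * F (y + rot φ * z))
    rw [sub_add_eq_sub_sub, sub_add_cancel]
  simp only [h1]
  rw [integral_integral_swap]
  · rw [← integral_const_mul]
    refine integral_congr_ae (ae_of_all _ fun y => ?_)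
    show ∫ φ in Ioc (-π) π, F x * (gau N (x - y + rot φ * z) * F y) =
      2 * π * (F x * (cir N z (x - y) * F y))
    unfold cir
    rw [intervalIntegral.integral_of_le (by have := Real.pi_pos; linarith), integral_const_mul,
      integral_mul_const]
    have hpi : (2 * π : ℝ) ≠ 0 := by have := Real.pi_pos; positivity
    obtain ⟨A, hA⟩ : ∃ A, A = ∫ φ in Ioc (-π) π, gau N (x - y + rot φ * z) := ⟨_, rfl⟩
    rw [← hA]
    have h5 : 2 * π * (F x * ((2 * π)⁻¹ * A * F y)) = (2 * π * (2 * π)⁻¹) * (F x * (A * F y)) := by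
      ring
    rw [h5, mul_inv_cancel₀ hpi, one_mul]
  · have hc : Integrable (fun w : ℝ × ℂ => (|F x| * N ^ 2) * |F w.2|)
        ((volume.restrict (Ioc (-π) π)).prod volume) := by
      have h3 : Integrable (fun _ : ℝ => |F x| * N ^ 2) (volume.restrict (Ioc (-π) π)) :=
        integrable_const _
      exact h3.mul_prod hF.abs
    refine hc.mono' ?_ (ae_of_all _ fun w => ?_)
    · have h2 : Measurable (fun w : ℝ × ℂ => x - w.2 + rot w.1 * z) :=
        (measurable_const.sub measurable_snd).add
          ((measurable_rot.comp measurable_fst).mul_const z)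
      exact (measurable_const.mul (((continuous_gau N).measurable.comp h2).mul
        (hm.comp measurable_snd))).aestronglyMeasurable
    · show ‖F x * (gau N (x - w.2 + rot w.1 * z) * F w.2)‖ ≤ |F x| * N ^ 2 * |F w.2|
      rw [Real.norm_eq_abs, abs_mul, abs_mul, abs_of_nonneg (gau_nonneg N _), ← mul_assoc]
      refine mul_le_mul_of_nonneg_right (mul_le_mul_of_nonneg_left ?_ (abs_nonneg _))
        (abs_nonneg _)
      unfold gau
      refine mul_le_of_le_one_right (sq_nonneg N) ?_
      rw [Real.exp_le_one_iff]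
      have hpi := Real.pi_pos
      have h4 : 0 ≤ π * N ^ 2 * ‖x - w.2 + rot w.1 * z‖ ^ 2 := by positivity
      linarith

theorem qf_triple {F : ℂ → ℝ} (hm : Measurable F) (hF : Integrable F)
    (hb : ∀ x, |F x| ≤ 1) {N : ℝ} (hN : 0 < N) (z : ℂ) :
    qf (cir N z) F = (2 * π)⁻¹ * ∫ w : ℂ × ℝ × ℂ,
      F w.1 * (gau N (w.1 - w.2.2) * F (w.2.2 + rot w.2.1 * z))
      ∂(volume.prod ((volume.restrict (Ioc (-π) π)).prod volume)) := by
  rw [integral_prod _ (integrable_triple hm hF hb hN z)]
  have h1 : ∀ x : ℂ, ∫ w : ℝ × ℂ, F (x, w).1 * (gau N ((x, w).1 - (x, w).2.2) *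
      F ((x, w).2.2 + rot (x, w).2.1 * z)) ∂((volume.restrict (Ioc (-π) π)).prod volume) =
      (2 * π) * ∫ y, F x * (cir N z (x - y) * F y) := fun x => Trip_inner hm hF hb hN z x
  simp only [h1]
  rw [integral_const_mul, ← mul_assoc, inv_mul_cancel₀ (by have := Real.pi_pos; positivity),
    one_mul]
  rfl

end Pool.MPb9430d.Frac
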